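import Pool.Agent.Work.MP_1e13ac_W.Base

/-!
# MP_1e13ac_co, full statement: vertex classes and the counting statements (helper50)

White is `true` (majority), `lev c = 2 k`.
-/

set_option autoImplicit false
set_option linter.unusedSectionVars false

namespace Pool.Agent.Work.MP_1e13ac_W

open Classical Finset Pool.Agent.Work.MP_1e13ac_Bis

noncomputable section

variable {V : Type} [Fintype V]

/-- white, no white neighbour -/
def IsW0 (G : SimpleGraph V) (c : V → Bool) (x : V) : Prop := c x = true ∧ md G c x = 0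

/-- white, one white neighbour -/
def IsW1 (G : SimpleGraph V) (c : V → Bool) (x : V) : Prop := c x = true ∧ md G c x = 1

/-- black, no black neighbour -/
def IsB0 (G : SimpleGraph V) (c : V → Bool) (x : V) : Prop := c x = false ∧ md G c x = 0

/-- black, one black neighbour -/
def IsB1 (G : SimpleGraph V) (c : V → Bool) (x : V) : Prop := c x = false ∧ md G c x = 1

/-- number of neighbours in `B1` -/
def nB1 (G : SimpleGraph V) (c : V → Bool) (x : V) : ℕ := ((nbs G x).filter fun y => IsB1 G c y).card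

/-- vertices of `W1` with exactly `i` neighbours in `B1` (the others are in `B0`) -/
def Qs (G : SimpleGraph V) (c : V → Bool) (i : ℕ) : Finset V :=
  univ.filter fun x => IsW1 G c x ∧ nB1 G c x = i

/-- vertices of `B1` without neighbour in `W1` -/
def B1p (G : SimpleGraph V) (c : V → Bool) : Finset V :=
  univ.filter fun z => IsB1 G c z ∧ ∀ p, G.Adj z p → ¬ IsW1 G c p

/-- tops of triangles of type T1: vertices of `B1` adjacent to both vertices of a white pair -/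
def T1s (G : SimpleGraph V) (c : V → Bool) : Finset V :=
  univ.filter fun z => IsB1 G c z ∧ ∃ p q, G.Adj z p ∧ G.Adj z q ∧ MA G c p q ∧ c p = true

/-- RULE: two neighbours in `W1` of a vertex of `B1` are adjacent -/
def Rule1 (G : SimpleGraph V) (c : V → Bool) : Prop :=
  ∀ z p q, IsB1 G c z → G.Adj z p → G.Adj z q → p ≠ q → IsW1 G c p → IsW1 G c q → G.Adj p q

/-- claim A: the partner of the top of a T1 has no neighbour in `W1` outside the T1 -/
def ClA (G : SimpleGraph V) (c : V → Bool) : Prop :=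
  ∀ z z' p p' q, c z = false → MA G c z z' → G.Adj z p → G.Adj z p' → MA G c p p' → c p = true →
    G.Adj z' q → IsW1 G c q → q = p ∨ q = p'

end

/-- the identity: `|Q0| + #T1 = 6 k + |Q2| + |B1'|` -/
def Stmt_IDENT : Prop := ∀ (V : Type) [Fintype V] (G : SimpleGraph V), Cub G →
  ∀ c : V → Bool, Nice G c → Rule1 G c →
    ((Qs G c 0).card : ℤ) + (T1s G c).card = 3 * lev c + (Qs G c 2).card + (B1p G c).card

/-- the T1 are paid -/
def Stmt_PAY1 : Prop := ∀ (V : Type) [Fintype V] (G : SimpleGraph V), Cub G →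
  ∀ c : V → Bool, Nice G c → Rule1 G c → ClA G c →
    (T1s G c).card ≤ (Qs G c 2).card + (B1p G c).card

section

variable {V : Type} [Fintype V]

/-- slot of type M: `α` has the neighbours `b`, `x ∈ Q1`, `y ∈ W0` -/
def SlM (G : SimpleGraph V) (c : V → Bool) (b a : V) : Prop :=
  ∃ x y, b ≠ x ∧ b ≠ y ∧ x ≠ y ∧ (∀ z, G.Adj a z ↔ z = b ∨ z = x ∨ z = y) ∧
    x ∈ Qs G c 1 ∧ ¬ G.Adj b x ∧ IsW0 G c y

/-- slot of type T: `α` has the neighbours `b`, its mate and `x ∈ Q1` -/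
def SlT (G : SimpleGraph V) (c : V → Bool) (b a : V) : Prop :=
  ∃ b' x, MA G c b b' ∧ x ≠ b ∧ x ≠ b' ∧ (∀ z, G.Adj a z ↔ z = b ∨ z = b' ∨ z = x) ∧
    x ∈ Qs G c 1

/-- exotic slot: `α` has the neighbours `b`, `p`, `p'` with mates `p`, `p'`, one of them in `Q1` -/
def SlX (G : SimpleGraph V) (c : V → Bool) (b a : V) : Prop :=
  ∃ p p', MA G c p p' ∧ b ≠ p ∧ b ≠ p' ∧ (∀ z, G.Adj a z ↔ z = b ∨ z = p ∨ z = p') ∧
    p ∈ Qs G c 1

/-- slot of type C: `b`, `b₂ ∈ Q0` have the same two black neighbours `a`, `a₂`, the third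
neighbours `y`, `y₂` of which are in `W0`; the mates of `b` and `b₂` are in `Q1` -/
def SlC (G : SimpleGraph V) (c : V → Bool) (b a : V) : Prop :=
  ∃ b₂ a₂ y y₂, b₂ ∈ Qs G c 0 ∧ b ≠ b₂ ∧ ¬ G.Adj b b₂ ∧ a ≠ a₂ ∧
    (∀ z, G.Adj a z ↔ z = b ∨ z = b₂ ∨ z = y) ∧ (∀ z, G.Adj a₂ z ↔ z = b ∨ z = b₂ ∨ z = y₂) ∧
    IsW0 G c y ∧ IsW0 G c y₂ ∧ (∀ b', MA G c b b' → b' ∈ Qs G c 1) ∧
    (∀ b', MA G c b₂ b' → b' ∈ Qs G c 1)

end

/-- the final count in World 1 -/
def Stmt_COUNT2 : Prop := ∀ (V : Type) [Fintype V] (G : SimpleGraph V), Cub G →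
  ∀ c : V → Bool, Nice G c → 6 ≤ (Qs G c 0).card →
    (∀ b ∈ Qs G c 0, ∀ a, G.Adj b a → c a = false →
      SlM G c b a ∨ SlT G c b a ∨ SlX G c b a ∨ SlC G c b a) →
    (∀ b ∈ Qs G c 0, ∃ a, G.Adj b a ∧ c a = false ∧ ¬ SlX G c b a) →
    ∃ b ∈ Qs G c 0, ∃ a, G.Adj b a ∧ c a = false ∧ (SlM G c b a ∨ SlT G c b a ∨ SlC G c b a) ∧
      ∃ v ∈ Qs G c 1, Disjoint (Zn G c {b, a}) (Zn G c {v})

end Pool.Agent.Work.MP_1e13ac_W
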