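import Pool.Agent.Work.MP_1e13ac_W.Base
import Pool.Agent.Work.MP_1e13ac_W.W1Defs

/-!
# MP_1e13ac_co, full statement: the level-1 world (helper50)

`WL1 G c`: `c` is nice, minimises `F2`, has level 1, no nice minimiser of `F2` has level 0, and
`(3 m + #T1, m, -#Q0)` is lexicographically minimal at `c` among the nice minimisers of `F2` of
positive level `m`.
-/

set_option autoImplicit false
set_option linter.unusedSectionVars false

namespace Pool.Agent.Work.MP_1e13ac_W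

open Classical Finset Pool.Agent.Work.MP_1e13ac_Bis

noncomputable section

variable {V : Type} [Fintype V]

/-- the level-1 world -/
structure WL1 (G : SimpleGraph V) (c : V → Bool) : Prop where
  nice : Nice G c
  lev2 : lev c = 2
  min : ∀ c', F2 G c ≤ F2 G c'
  low : ∀ c', Nice G c' → F2 G c' = F2 G c → 2 ≤ |lev c'|
  lex : ∀ (c' : V → Bool) (m : ℕ), Nice G c' → F2 G c' = F2 G c → lev c' = 2 * (m : ℤ) →
    3 + (T1s G c).card < 3 * m + (T1s G c').card ∨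
      (3 + (T1s G c).card = 3 * m + (T1s G c').card ∧
        (1 < m ∨ (1 = m ∧ (Qs G c' 0).card ≤ (Qs G c 0).card)))
  bad : ¬ Good' G

/-- exotic slot: `α` has the neighbours `b`, `p`, `p'` with mates `p`, `p'`, both in `Q1` -/
def SlX2 (G : SimpleGraph V) (c : V → Bool) (b a : V) : Prop :=
  ∃ p p', MA G c p p' ∧ b ≠ p ∧ b ≠ p' ∧ (∀ z, G.Adj a z ↔ z = b ∨ z = p ∨ z = p') ∧
    p ∈ Qs G c 1 ∧ p' ∈ Qs G c 1

/-- slot of type C: `b`, `b₂ ∈ Q0` (no mates) have the same two black neighbours `a`, `a₂`, the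
third neighbours `y`, `y₂` of which are in `W0` -/
def SlC2 (G : SimpleGraph V) (c : V → Bool) (b a : V) : Prop :=
  ∃ b₂ a₂ y y₂, b₂ ∈ Qs G c 0 ∧ b ≠ b₂ ∧ ¬ G.Adj b b₂ ∧ a ≠ a₂ ∧
    (∀ z, G.Adj a z ↔ z = b ∨ z = b₂ ∨ z = y) ∧ (∀ z, G.Adj a₂ z ↔ z = b ∨ z = b₂ ∨ z = y₂) ∧
    IsW0 G c y ∧ IsW0 G c y₂

end

/-- the final count in the level-1 world -/
def Stmt_COUNT3 : Prop := ∀ (V : Type) [Fintype V] (G : SimpleGraph V), Cub G →
  ∀ c : V → Bool, Nice G c → 6 ≤ (Qs G c 0).card →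
    (∀ b ∈ Qs G c 0, ∀ a, G.Adj b a → c a = false →
      SlM G c b a ∨ SlT G c b a ∨ SlX2 G c b a ∨ SlC2 G c b a) →
    (∃ b ∈ Qs G c 0, ∃ a, G.Adj b a ∧ c a = false ∧ (SlM G c b a ∨ SlT G c b a ∨ SlC2 G c b a) ∧
      ∃ v ∈ Qs G c 1, Disjoint (Zn G c {b, a}) (Zn G c {v})) ∨
    (Qs G c 1 = ∅ ∧ ∀ b ∈ Qs G c 0, ∀ a, G.Adj b a → c a = false → SlC2 G c b a) ∨
    (24 ≤ (Qs G c 1).card ∧ ∀ b ∈ Qs G c 0, ∀ a, G.Adj b a → c a = false → SlX2 G c b a)

/-- reduction to connected graphs -/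
def Stmt_CONN : Prop :=
  (∀ (V : Type) [Fintype V] (G : SimpleGraph V), Cub G → G.Connected → Good' G) →
    ∀ (V : Type) [Fintype V] (G : SimpleGraph V), Cub G → Good' G

/-- the level-1 world is impossible -/
def Stmt_L1 : Prop := ∀ (V : Type) [Fintype V] (G : SimpleGraph V), Cub G → G.Connected →
  ∀ c : V → Bool, WL1 G c → False

end Pool.Agent.Work.MP_1e13ac_W
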