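import Pool.Agent.Work.MP_1e13ac_W.Count2
import Pool.Agent.Work.MP_1e13ac_W.L1Defs

/-!
# MP_1e13ac_co, level-1 world: the block COUNT3 (final count) (helper50, after helper65's COUNT2)
-/

set_option autoImplicit false
set_option linter.unusedSectionVars false

namespace Pool.Agent.Work.MP_1e13ac_W

open Classical Finset Pool.Agent.Work.MP_1e13ac_Bis

noncomputable section

variable {V : Type} [Fintype V]

open CntAux Cnt2Aux

namespace Cnt3Aux

/-- a C slot: every vertex of `Q1` but the mates of the twins is far -/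
theorem caseC {G : SimpleGraph V} (hG : Cub G) {c : V → Bool} (hc : Nice G c)
    {b a : V} (hb : b ∈ Qs G c 0) (hba : G.Adj b a) (ha : c a = false) (hC : SlC2 G c b a) :
    (∃ v ∈ Qs G c 1, Disjoint (Zn G c {b, a}) (Zn G c {v})) ∨
    ∃ b₂ a₂ b' b₂', b₂ ∈ Qs G c 0 ∧ b ≠ b₂ ∧ MA G c b b' ∧ MA G c b₂ b₂' ∧ a ≠ a₂ ∧
      c a₂ = false ∧ G.Adj b a₂ ∧ SlC2 G c b a₂ ∧ (∀ z ∈ Qs G c 0, G.Adj a z → z = b ∨ z = b₂) ∧
      ∀ v ∈ Qs G c 1, v = b' ∨ v = b₂' := by
  obtain ⟨b₂, a₂, y, y₂, hb₂, hbb, hnadj, haa, hN, hN₂, hy, hy₂⟩ := hC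
  have hba₂ : G.Adj b a₂ := ((hN₂ b).2 (Or.inl rfl)).symm
  have hbW := (mem_Qs.1 hb).1
  have hb₂W := (mem_Qs.1 hb₂).1
  obtain ⟨b', hb'⟩ := mate_exists hbW.2
  obtain ⟨b₂', hb₂'⟩ := mate_exists hb₂W.2
  -- `a₂` is black
  have ha₂ : c a₂ = false := by
    rcases h : c a₂ with _ | _
    · rfl
    · exfalso
      have e1 : MA G c a₂ b := ⟨hba₂.symm, by rw [h, hbW.1]⟩
      have e2 : MA G c a₂ b₂ := ⟨(hN₂ b₂).2 (Or.inr (Or.inl rfl)), by rw [h, hb₂W.1]⟩
      exact hbb (nice_uniq hc e1 e2)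
  have hall : ∀ r, G.Adj b r → c r = false → r = a ∨ r = a₂ := fun r hr hr' =>
    q0_two' hG hb haa hba ha hba₂ ha₂ hr hr'
  by_cases hv : ∃ v ∈ Qs G c 1, v ≠ b' ∧ v ≠ b₂'
  · left
    obtain ⟨v, hvQ, hv1, hv2⟩ := hv
    have hvW := (mem_Qs.1 hvQ).1
    have hvy : v ≠ y := by
      rintro rfl
      have := hvW.2
      rw [hy.2] at this
      omega
    have hvy₂ : v ≠ y₂ := by
      rintro rfl
      have := hvW.2
      rw [hy₂.2] at this
      omega
    have hvb := q01 hb hvQ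
    have hvb₂ := q01 hb₂ hvQ
    refine ⟨v, hvQ, zone_disj hc hvQ hb hba ha hba₂ ha₂ hall ?_ ?_ ?_ ?_⟩
    · intro h
      exact hv1 (nice_uniq hc h hb')
    · intro h
      rcases (hN v).1 h with h | h | h
      · exact hvb h
      · exact hvb₂ h
      · exact hvy h
    · intro z hz hzv
      rcases (hN z).1 hz with h | h | h
      · rw [h] at hzv
        exact hv1 (nice_uniq hc hzv hb')
      · rw [h] at hzv
        exact hv2 (nice_uniq hc hzv hb₂')
      · rw [h] at hzv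
        exact md0_no hy.2 hzv
    · intro h
      rcases (hN₂ v).1 h with h | h | h
      · exact hvb h
      · exact hvb₂ h
      · exact hvy₂ h
  · right
    push Not at hv
    refine ⟨b₂, a₂, b', b₂', hb₂, hbb, hb', hb₂', haa, ha₂, hba₂,
      ⟨b₂, a, y₂, y, hb₂, hbb, hnadj, haa.symm, hN₂, hN, hy₂, hy⟩, ?_, ?_⟩
    · intro z hz haz
      rcases (hN z).1 haz with h | h | h
      · exact Or.inl h
      · exact Or.inr h
      · exfalso
        have := (mem_Qs.1 hz).1.2
        rw [h, hy.2] at this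
        omega
    · intro v hvQ
      by_cases h : v = b'
      · exact Or.inl h
      · exact Or.inr (hv v hvQ h)

theorem X2X {G : SimpleGraph V} {c : V → Bool} {b a : V} (h : SlX2 G c b a) : SlX G c b a := by
  obtain ⟨p, p', h1, h2, h3, h4, h5, -⟩ := h
  exact ⟨p, p', h1, h2, h3, h4, h5⟩

/-- a C slot and no far vertex of `Q1`: then `Q1` is empty -/
theorem caseC_empty {G : SimpleGraph V} (hG : Cub G) {c : V → Bool} (hc : Nice G c)
    (h6 : 6 ≤ (Qs G c 0).card)
    (hs : ∀ b ∈ Qs G c 0, ∀ a, G.Adj b a → c a = false →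
      SlM G c b a ∨ SlT G c b a ∨ SlX2 G c b a ∨ SlC2 G c b a)
    (hno : ¬ ∃ b ∈ Qs G c 0, ∃ a, G.Adj b a ∧ c a = false ∧
      (SlM G c b a ∨ SlT G c b a ∨ SlC2 G c b a) ∧
      ∃ v ∈ Qs G c 1, Disjoint (Zn G c {b, a}) (Zn G c {v}))
    {b a : V} (hb : b ∈ Qs G c 0) (hba : G.Adj b a) (ha : c a = false) (hC : SlC2 G c b a) :
    Qs G c 1 = ∅ := by
  by_contra hne
  obtain ⟨v, hv⟩ := Finset.nonempty_iff_ne_empty.2 hne
  have hcase : ∀ s ∈ Qs G c 0, ∀ α, G.Adj s α → c α = false → SlC2 G c s α →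
      ∃ s₂ s' s₂', s₂ ∈ Qs G c 0 ∧ MA G c s s' ∧ MA G c s₂ s₂' ∧ G.Adj α s₂ ∧
        (∀ z ∈ Qs G c 0, G.Adj α z → z = s ∨ z = s₂) ∧ ∀ v ∈ Qs G c 1, v = s' ∨ v = s₂' := by
    intro s hs' α hsα hα hC
    have hC' := hC
    obtain ⟨t, _, _, _, ht, hst, _, _, hNα, _⟩ := hC'
    rcases caseC hG hc hs' hsα hα hC with ⟨v, hv1, hv2⟩ | ⟨s₂, α₂, s', s₂', h1, h2, h3, h4, h5, h6, h7, h8,
      h9, h10⟩
    · exact (hno ⟨s, hs', α, hsα, hα, Or.inr (Or.inr hC), v, hv1, hv2⟩).elim
    · refine ⟨s₂, s', s₂', h1, h3, h4, ?_, h9, h10⟩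
      have hαt : G.Adj α t := (hNα t).2 (Or.inr (Or.inl rfl))
      rcases h9 t ht hαt with h | h
      · exact absurd h.symm hst
      · rw [← h]
        exact hαt
  obtain ⟨b₂, b', b₂', hb₂, hb', hb₂', hab₂, hN, hQ⟩ := hcase b hb a hba ha hC
  -- other sources have no C slot
  have hoth : ∀ s ∈ Qs G c 0, s ≠ b → s ≠ b₂ → ∀ α, G.Adj s α → c α = false →
      ∃ x ∈ Qs G c 1, G.Adj α x := by
    intro s hsQ hsb hsb₂ α hsα hα
    have hnC : ¬ SlC2 G c s α := by
      intro hC'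
      obtain ⟨s₂, s', s₂', hs₂, hs', hs₂', hαs₂, hN', hQ'⟩ := hcase s hsQ α hsα hα hC'
      have hs₂b : s₂ ≠ b := by
        rintro rfl
        -- `α` is a black neighbour of `b`, and `s` is adjacent to it
        have hC3 := hC'
        obtain ⟨t, a₂, y, y₂, ht, hst, _, haa, hNα, hNα₂, hy, hy₂⟩ := hC3
        have hts : t = s₂ := by
          rcases hN' t ht ((hNα t).2 (Or.inr (Or.inl rfl))) with h | h
          · exact absurd h.symm hst
          · exact h
        subst hts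
        -- both black neighbours of `t` are adjacent to `s`
        have ha₂ : c a₂ = false := by
          rcases h : c a₂ with _ | _
          · rfl
          · exfalso
            have e1 : MA G c a₂ s := ⟨(hNα₂ s).2 (Or.inl rfl), by rw [h, (mem_Qs.1 hsQ).1.1]⟩
            have e2 : MA G c a₂ t := ⟨(hNα₂ t).2 (Or.inr (Or.inl rfl)), by
              rw [h, (mem_Qs.1 ht).1.1]⟩
            exact hst (nice_uniq hc e1 e2)
        have h1 : G.Adj t α := ((hNα t).2 (Or.inr (Or.inl rfl))).symm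
        have h2 : G.Adj t a₂ := ((hNα₂ t).2 (Or.inr (Or.inl rfl))).symm
        have has : G.Adj a s := by
          rcases q0_two' hG ht haa h1 hα h2 ha₂ hba ha with h | h
          · rw [h]
            exact hsα.symm
          · rw [h]
            exact (hNα₂ s).2 (Or.inl rfl)
        rcases hN s hsQ has with h | h
        · exact hsb h
        · exact hsb₂ h
      have hs₂b₂ : s₂ ≠ b₂ := by
        rintro rfl
        have hC3 := hC'
        obtain ⟨t, a₂, y, y₂, ht, hst, _, haa, hNα, hNα₂, hy, hy₂⟩ := hC3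
        have hts : t = s₂ := by
          rcases hN' t ht ((hNα t).2 (Or.inr (Or.inl rfl))) with h | h
          · exact absurd h.symm hst
          · exact h
        subst hts
        have ha₂ : c a₂ = false := by
          rcases h : c a₂ with _ | _
          · rfl
          · exfalso
            have e1 : MA G c a₂ s := ⟨(hNα₂ s).2 (Or.inl rfl), by rw [h, (mem_Qs.1 hsQ).1.1]⟩
            have e2 : MA G c a₂ t := ⟨(hNα₂ t).2 (Or.inr (Or.inl rfl)), by
              rw [h, (mem_Qs.1 ht).1.1]⟩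
            exact hst (nice_uniq hc e1 e2)
        have h1 : G.Adj t α := ((hNα t).2 (Or.inr (Or.inl rfl))).symm
        have h2 : G.Adj t a₂ := ((hNα₂ t).2 (Or.inr (Or.inl rfl))).symm
        have has : G.Adj a s := by
          rcases q0_two' hG ht haa h1 hα h2 ha₂ hab₂.symm ha with h | h
          · rw [h]
            exact hsα.symm
          · rw [h]
            exact (hNα₂ s).2 (Or.inl rfl)
        rcases hN s hsQ has with h | h
        · exact hsb h
        · exact hsb₂ h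
      rcases hQ v hv with h | h <;> rcases hQ' v hv with h' | h'
      · exact hsb (nice_uniq hc (ma_symm hs') (by rw [← h', h]; exact ma_symm hb'))
      · exact hs₂b (nice_uniq hc (ma_symm hs₂') (by rw [← h', h]; exact ma_symm hb'))
      · exact hsb₂ (nice_uniq hc (ma_symm hs') (by rw [← h', h]; exact ma_symm hb₂'))
      · exact hs₂b₂ (nice_uniq hc (ma_symm hs₂') (by rw [← h', h]; exact ma_symm hb₂'))
    have h3 : SlM G c s α ∨ SlT G c s α ∨ SlX G c s α := by
      rcases hs s hsQ α hsα hα with h | h | h | h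
      · exact Or.inl h
      · exact Or.inr (Or.inl h)
      · exact Or.inr (Or.inr (X2X h))
      · exact absurd h hnC
    exact node_q1 h3
  -- two different black neighbours have different neighbours in `Q1`
  have hpair : ∀ s ∈ Qs G c 0, s ≠ b → s ≠ b₂ → ∃ α β x x', α ≠ β ∧ G.Adj s α ∧ G.Adj s β ∧
      IsB0 G c α ∧ IsB0 G c β ∧ x ∈ Qs G c 1 ∧ x' ∈ Qs G c 1 ∧ G.Adj α x ∧ G.Adj β x' ∧
      x ≠ x' := by
    intro s hsQ hsb hsb₂
    obtain ⟨α, β, hαβ, h1, h1', h2, h2'⟩ := q0_two hG hsQ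
    obtain ⟨x, hx, hαx⟩ := hoth s hsQ hsb hsb₂ α h1 h1'
    obtain ⟨x', hx', hβx'⟩ := hoth s hsQ hsb hsb₂ β h2 h2'
    have hαB := q0_B0 hc hsQ h1 h1'
    have hβB := q0_B0 hc hsQ h2 h2'
    refine ⟨α, β, x, x', hαβ, h1, h2, hαB, hβB, hx, hx', hαx, hβx', ?_⟩
    rintro rfl
    exact hαβ (q1_uniq hG hx hαx.symm hβx'.symm hαB hβB)
  set S := ((Qs G c 0).erase b).erase b₂ with hS
  have hSc : 4 ≤ S.card := by
    have h1 : (Qs G c 0).card - 1 ≤ ((Qs G c 0).erase b).card := Finset.pred_card_le_card_erase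
    have h2 : ((Qs G c 0).erase b).card - 1 ≤ S.card := Finset.pred_card_le_card_erase
    omega
  have hSm : ∀ s ∈ S, s ∈ Qs G c 0 ∧ s ≠ b ∧ s ≠ b₂ := by
    intro s hs'
    rw [hS, Finset.mem_erase, Finset.mem_erase] at hs'
    exact ⟨hs'.2.2, hs'.2.1, hs'.1⟩
  obtain ⟨s₀, hs₀⟩ := Finset.card_pos.1 (by omega : 0 < S.card)
  obtain ⟨m1, m2, m3⟩ := hSm s₀ hs₀
  obtain ⟨α, β, x, x', hαβ, h1, h2, hαB, hβB, hx, hx', hαx, hβx', hxx⟩ := hpair s₀ m1 m2 m3
  have : S.card ≤ 3 := by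
    refine deg_ge hG (x := α) ?_
    intro s hs'
    obtain ⟨n1, n2, n3⟩ := hSm s hs'
    obtain ⟨α', β', z, z', hαβ', k1, k2, hαB', hβB', hz, hz', hαz, hβz', hzz⟩ :=
      hpair s n1 n2 n3
    have hor : x = z ∨ x = z' := by
      rcases hQ x hx with e1 | e1 <;> rcases hQ z hz with e2 | e2 <;>
        rcases hQ z' hz' with e3 | e3
      · exact Or.inl (e1.trans e2.symm)
      · exact Or.inl (e1.trans e2.symm)
      · exact Or.inr (e1.trans e3.symm)
      · exact absurd (e2.trans e3.symm) hzz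
      · exact absurd (e2.trans e3.symm) hzz
      · exact Or.inr (e1.trans e3.symm)
      · exact Or.inl (e1.trans e2.symm)
      · exact Or.inl (e1.trans e2.symm)
    rcases hor with rfl | rfl
    · have := q1_uniq hG hx hαx.symm hαz.symm hαB hαB'
      rw [this]
      exact k1.symm
    · have := q1_uniq hG hx hαx.symm hβz'.symm hαB hβB'
      rw [this]
      exact k2.symm
  omega

theorem nn_le_one {G : SimpleGraph V} {P : V → Prop} {x : V}
    (h : ∀ y z, G.Adj x y → P y → G.Adj x z → P z → y = z) : nn G P x ≤ 1 := by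
  unfold nn
  rw [Finset.card_le_one]
  intro y hy z hz
  rw [Finset.mem_filter, CntAux.mem_nbs] at hy hz
  exact h y z hy.1 hy.2 hz.1 hz.2

/-- all slots exotic: many vertices of `Q1` -/
theorem caseXX {G : SimpleGraph V} (hG : Cub G) {c : V → Bool} (hc : Nice G c)
    (h6 : 6 ≤ (Qs G c 0).card)
    (hs : ∀ b ∈ Qs G c 0, ∀ a, G.Adj b a → c a = false → SlX2 G c b a) :
    24 ≤ (Qs G c 1).card := by
  set N := univ.filter fun a => c a = false ∧ ∃ b ∈ Qs G c 0, G.Adj b a with hN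
  have hNB0 : ∀ a ∈ N, IsB0 G c a := by
    intro a ha
    obtain ⟨h1, b, hb, hba⟩ := (Finset.mem_filter.1 ha).2
    exact q0_B0 hc hb hba h1
  -- count the sources at the nodes
  have hd := double G (fun b => b ∈ Qs G c 0) (fun a => a ∈ N)
  have e0 : (univ.filter fun b => b ∈ Qs G c 0) = Qs G c 0 := by ext x; simp
  have e0' : (univ.filter fun a => a ∈ N) = N := by ext x; simp
  rw [e0, e0'] at hd
  have e1 : ∑ b ∈ Qs G c 0, nn G (fun a => a ∈ N) b = 2 * (Qs G c 0).card := by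
    rw [Finset.sum_congr rfl (g := fun _ => 2), Finset.sum_const, smul_eq_mul, mul_comm]
    intro b hb
    rw [← opp_white hG (mem_Qs.1 hb).1]
    refine nn_congr fun a hba => ?_
    constructor
    · intro h
      exact (Finset.mem_filter.1 h).2.1
    · intro h
      exact Finset.mem_filter.2 ⟨Finset.mem_univ _, h, b, hb, hba⟩
  have hnode : ∀ a ∈ N, ∃ b p p', (∀ z, G.Adj a z ↔ z = b ∨ z = p ∨ z = p') ∧
      p ∈ Qs G c 1 ∧ p' ∈ Qs G c 1 ∧ p ≠ p' := by
    intro a ha
    obtain ⟨h1, b, hb, hba⟩ := (Finset.mem_filter.1 ha).2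
    obtain ⟨p, p', hpp, _, _, hNa, hp, hp'⟩ := hs b hb a hba h1
    exact ⟨b, p, p', hNa, hp, hp', hpp.1.ne⟩
  have e2 : ∑ a ∈ N, nn G (fun b => b ∈ Qs G c 0) a ≤ N.card := by
    have : ∑ a ∈ N, nn G (fun b => b ∈ Qs G c 0) a ≤ ∑ _a ∈ N, 1 := by
      refine Finset.sum_le_sum fun a ha => ?_
      obtain ⟨b, p, p', hNa, hp, hp', _⟩ := hnode a ha
      have key : ∀ z, G.Adj a z → z ∈ Qs G c 0 → z = b := by
        intro z hz1 hz2
        rcases (hNa z).1 hz1 with h | h | h
        · exact h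
        · exact absurd h.symm (q01 hz2 hp)
        · exact absurd h.symm (q01 hz2 hp')
      exact nn_le_one fun y z hy hy' hz hz' => (key y hy hy').trans (key z hz hz').symm
    simpa using this
  -- count the vertices of `Q1` at the nodes
  have hd2 := double G (fun b => b ∈ Qs G c 1) (fun a => a ∈ N)
  have f0 : (univ.filter fun b => b ∈ Qs G c 1) = Qs G c 1 := by ext x; simp
  rw [f0, e0'] at hd2
  have f1 : ∑ v ∈ Qs G c 1, nn G (fun a => a ∈ N) v ≤ (Qs G c 1).card := by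
    have : ∑ v ∈ Qs G c 1, nn G (fun a => a ∈ N) v ≤ ∑ _v ∈ Qs G c 1, 1 := by
      refine Finset.sum_le_sum fun v hv => ?_
      exact nn_le_one fun x y hx hx' hy hy' => q1_uniq hG hv hx hy (hNB0 x hx') (hNB0 y hy')
    simpa using this
  have f2 : 2 * N.card ≤ ∑ a ∈ N, nn G (fun b => b ∈ Qs G c 1) a := by
    have : ∑ _a ∈ N, 2 ≤ ∑ a ∈ N, nn G (fun b => b ∈ Qs G c 1) a := by
      refine Finset.sum_le_sum fun a ha => ?_
      obtain ⟨b, p, p', hNa, hp, hp', hpp⟩ := hnode a ha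
      exact two_le hpp ⟨(hNa p).2 (Or.inr (Or.inl rfl)), hp⟩ ⟨(hNa p').2 (Or.inr (Or.inr rfl)), hp'⟩
    rw [Finset.sum_const, smul_eq_mul] at this
    omega
  omega

/-- a slot of type M or T and six vertices of `Q1` -/
theorem caseMT {G : SimpleGraph V} (hG : Cub G) {c : V → Bool} (hc : Nice G c)
    (hQ1 : 6 ≤ (Qs G c 1).card) {b a : V} (hb : b ∈ Qs G c 0) (hba : G.Adj b a)
    (ha : c a = false) (hMT : SlM G c b a ∨ SlT G c b a) :
    ∃ v ∈ Qs G c 1, Disjoint (Zn G c {b, a}) (Zn G c {v}) := by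
  have hbW := (mem_Qs.1 hb).1
  obtain ⟨b', hb'⟩ := mate_exists hbW.2
  obtain ⟨a2, haa2, hba2, ha2, hall⟩ := second hG hb hba ha
  -- the neighbourhood of `a`: `x ∈ Q1`, all others are `b`, `b'` or in `W0`
  have hN : ∃ x x', x ∈ Qs G c 1 ∧ MA G c x x' ∧
      ∀ z, G.Adj a z → z = b ∨ z = b' ∨ z = x ∨ md G c z = 0 := by
    rcases hMT with h | h
    · obtain ⟨x, y, _, _, _, hN, hx, _, hy⟩ := h
      obtain ⟨x', hx'⟩ := mate_exists (mem_Qs.1 hx).1.2
      refine ⟨x, x', hx, hx', fun z hz => ?_⟩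
      rcases (hN z).1 hz with h | h | h
      · exact Or.inl h
      · exact Or.inr (Or.inr (Or.inl h))
      · rw [h]; exact Or.inr (Or.inr (Or.inr hy.2))
    · obtain ⟨b'', x, hb'', _, _, hN, hx⟩ := h
      obtain ⟨x', hx'⟩ := mate_exists (mem_Qs.1 hx).1.2
      refine ⟨x, x', hx, hx', fun z hz => ?_⟩
      rcases (hN z).1 hz with h | h | h
      · exact Or.inl h
      · rw [h, nice_uniq hc hb'' hb']; exact Or.inr (Or.inl rfl)
      · exact Or.inr (Or.inr (Or.inl h))
  obtain ⟨x, x', hx, hx', hN⟩ := hN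
  set Bad : Finset V := {b', x, x'} ∪ (nbs G a2).erase b with hBad
  have hBc : Bad.card ≤ 5 := by
    have h1 : ({b', x, x'} : Finset V).card ≤ 3 := Finset.card_le_three
    have h2 : ((nbs G a2).erase b).card = 2 := by
      rw [Finset.card_erase_of_mem (CntAux.mem_nbs.2 hba2.symm), hG a2]
    have h3 := Finset.card_union_le ({b', x, x'} : Finset V) ((nbs G a2).erase b)
    rw [← hBad] at h3
    omega
  have : ∃ v ∈ Qs G c 1, v ∉ Bad := by
    by_contra hcon
    push Not at hcon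
    have := Finset.card_le_card (fun v hv => hcon v hv : Qs G c 1 ⊆ Bad)
    omega
  obtain ⟨v, hv, hvB⟩ := this
  rw [hBad] at hvB
  simp only [Finset.mem_union, Finset.mem_insert, Finset.mem_singleton, Finset.mem_erase,
    CntAux.mem_nbs, not_or, not_and] at hvB
  obtain ⟨⟨hv1, hv2, hv3⟩, hv4⟩ := hvB
  have hvb := q01 hb hv
  have hvW := (mem_Qs.1 hv).1
  refine ⟨v, hv, zone_disj hc hv hb hba ha hba2 ha2 hall ?_ ?_ ?_ ?_⟩
  · intro h
    exact hv1 (nice_uniq hc h hb')
  · intro h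
    rcases hN v h with h | h | h | h
    · exact hvb h
    · exact hv1 h
    · exact hv2 h
    · have := hvW.2
      omega
  · intro z hz hzv
    rcases hN z hz with h | h | h | h
    · rw [h] at hzv
      exact hv1 (nice_uniq hc hzv hb')
    · rw [h] at hzv
      exact hvb (nice_uniq hc hzv (ma_symm hb'))
    · rw [h] at hzv
      exact hv3 (nice_uniq hc hzv hx')
    · exact md0_no h hzv
  · exact hv4 hvb

end Cnt3Aux

open Cnt3Aux

theorem stmt_COUNT3 : Stmt_COUNT3 := by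
  intro V _ G hG c hc h6 hs
  by_cases hwin : ∃ b ∈ Qs G c 0, ∃ a, G.Adj b a ∧ c a = false ∧
      (SlM G c b a ∨ SlT G c b a ∨ SlC2 G c b a) ∧
      ∃ v ∈ Qs G c 1, Disjoint (Zn G c {b, a}) (Zn G c {v})
  · exact Or.inl hwin
  · right
    by_cases hC : ∃ b ∈ Qs G c 0, ∃ a, G.Adj b a ∧ c a = false ∧ SlC2 G c b a
    · left
      obtain ⟨b, hb, a, hba, ha, hC⟩ := hC
      have hQ1 := caseC_empty hG hc h6 hs hwin hb hba ha hC
      have hno : ∀ x, x ∉ Qs G c 1 := by
        intro x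
        rw [hQ1]
        simp
      refine ⟨hQ1, ?_⟩
      intro s hsQ α hsα hα
      rcases hs s hsQ α hsα hα with h | h | h | h
      · obtain ⟨x, hx, _⟩ := node_q1 (Or.inl h)
        exact (hno x hx).elim
      · obtain ⟨x, hx, _⟩ := node_q1 (Or.inr (Or.inl h))
        exact (hno x hx).elim
      · obtain ⟨x, hx, _⟩ := node_q1 (Or.inr (Or.inr (X2X h)))
        exact (hno x hx).elim
      · exact h
    · push Not at hC
      have hs' : ∀ b ∈ Qs G c 0, ∀ a, G.Adj b a → c a = false →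
          SlM G c b a ∨ SlT G c b a ∨ SlX2 G c b a := by
        intro b hb a hba ha
        rcases hs b hb a hba ha with h | h | h | h
        · exact Or.inl h
        · exact Or.inr (Or.inl h)
        · exact Or.inr (Or.inr h)
        · exact absurd h (hC b hb a hba ha)
      have hQ1 := caseII hG hc h6 (fun b hb a hba ha => by
        rcases hs' b hb a hba ha with h | h | h
        · exact Or.inl h
        · exact Or.inr (Or.inl h)
        · exact Or.inr (Or.inr (X2X h)))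
      right
      have hX : ∀ b ∈ Qs G c 0, ∀ a, G.Adj b a → c a = false → SlX2 G c b a := by
        intro b hb a hba ha
        rcases hs' b hb a hba ha with h | h | h
        · exfalso
          obtain ⟨v, hv, hd⟩ := caseMT hG hc hQ1 hb hba ha (Or.inl h)
          exact hwin ⟨b, hb, a, hba, ha, Or.inl h, v, hv, hd⟩
        · exfalso
          obtain ⟨v, hv, hd⟩ := caseMT hG hc hQ1 hb hba ha (Or.inr h)
          exact hwin ⟨b, hb, a, hba, ha, Or.inr (Or.inl h), v, hv, hd⟩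
        · exact h
      exact ⟨caseXX hG hc h6 hX, hX⟩

end

end Pool.Agent.Work.MP_1e13ac_W
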