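import Pool.Agent.Work.MP_1e13ac_W.L1Final
import Pool.Agent.Work.MP_1e13ac_W.Count3

/-!
# MP_1e13ac_co, full statement: the level-1 world is impossible (helper50)
-/

set_option autoImplicit false

namespace Pool.Agent.Work.MP_1e13ac_W

open Pool.Agent.Work.MP_1e13ac_Bis

/-- there is no colouring as in the level-1 world -/
theorem stmt_L1 : Stmt_L1 := level1 stmt_COUNT3

end Pool.Agent.Work.MP_1e13ac_W
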