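import Pool.Agent.Work.MP_1e13ac_W.PkBase

/-!
# MP_1e13ac_co, full statement, level `k ≥ 2`: stage 0 (helper50)
-/

set_option autoImplicit false
set_option linter.unusedSectionVars false

namespace Pool.Agent.Work.MP_1e13ac_W

open Classical Finset Pool.Agent.Work.MP_1e13ac_Bis

noncomputable section

variable {V : Type} [Fintype V] {G : SimpleGraph V} {c : V → Bool}

namespace PkS0h

/-- the configuration of EX1 -/
structure EC (G : SimpleGraph V) (c : V → Bool) (b b' d d' α β y z h p : V) : Prop where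
  hB : PBlk G c b b' d d' α β y z
  b0 : b' ∉ Qs G c 0
  d0 : d' ∉ Qs G c 0
  h1 : IsB1 G c h
  hy : G.Adj h y
  hb : G.Adj h b'
  p0 : IsB0 G c p
  py : G.Adj p y
  pb : G.Adj p b'

/-- no source at `p` -/
theorem EC.nop (hP : PF G c) {b b' d d' α β y z h p : V} (e : EC G c b b' d d' α β y z h p)
    {s : V} (hs : s ∈ Qs G c 0) : ¬ G.Adj s p :=
  hP.ex1 _ _ _ _ _ _ _ _ _ _ s e.hB e.b0 e.d0 e.h1 e.hy e.hb e.p0 e.py e.pb hs

/-- the vertices of an alive core -/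
theorem cases0 {F0 : Finset V} {s : V × V}
    {K : Finset V} (h : Cor G c F0 s K) {v : V} (hv : v ∈ K) :
    v = s.1 ∨ v = s.2 ∨ (v ∈ Qs G c 1 ∧ G.Adj v s.2) ∨
    (∃ q q' p, Xc G c s.1 s.2 q q' p v) ∨
    (∃ b b' d d' α β, House G c b b' d d' α β ∧ (s.1 = b ∨ s.1 = d) ∧ (s.2 = α ∨ s.2 = β) ∧
      (v = b ∨ v = α ∨ v = b')) ∨
    (∃ b b' d d' β y z u, PBlk G c b b' d d' s.2 β y z ∧ (u = b' ∨ u = d') ∧ u ∈ Qs G c 0 ∧
      (s.1 = b ∨ s.1 = d) ∧ (v = b ∨ v = d ∨ v = u)) ∨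
    ∃ b b' d d' β y z h p, EC G c b b' d d' s.2 β y z h p ∧ (s.1 = b ∨ s.1 = d) ∧
      (v = b ∨ v = y ∨ v = h) := by
  obtain ⟨w, a⟩ := s
  obtain ⟨⟨n, h1⟩ | ⟨n, H, τ, e, h1, rfl⟩, hz⟩ := h
  · cases h1 with
    | ex1 b b' d d' α β y z h p w hB k1 k2 k3 k4 k5 k6 k7 k8 hw =>
      rw [Finset.mem_insert, Finset.mem_insert, Finset.mem_insert, Finset.mem_singleton] at hv
      rcases hv with rfl | rfl | rfl | rfl
      · exact Or.inr (Or.inr (Or.inr (Or.inr (Or.inr (Or.inr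
          ⟨_, _, _, _, _, _, _, _, _, ⟨hB, k1, k2, k3, k4, k5, k6, k7, k8⟩, hw, Or.inl rfl⟩)))))
      · exact Or.inr (Or.inl rfl)
      · exact Or.inr (Or.inr (Or.inr (Or.inr (Or.inr (Or.inr
          ⟨_, _, _, _, _, _, _, _, _, ⟨hB, k1, k2, k3, k4, k5, k6, k7, k8⟩, hw,
            Or.inr (Or.inl rfl)⟩)))))
      · exact Or.inr (Or.inr (Or.inr (Or.inr (Or.inr (Or.inr
          ⟨_, _, _, _, _, _, _, _, _, ⟨hB, k1, k2, k3, k4, k5, k6, k7, k8⟩, hw,
            Or.inr (Or.inr rfl)⟩)))))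
    | d0 w w' a y h1 h2 h3 h4 =>
      rw [Finset.mem_insert, Finset.mem_singleton] at hv
      rcases hv with rfl | rfl
      · exact Or.inl rfl
      · exact Or.inr (Or.inl rfl)
    | blk b b' d d' α β y z u w hB hu hu0 hw =>
      rw [Finset.mem_insert, Finset.mem_insert, Finset.mem_insert, Finset.mem_singleton] at hv
      rcases hv with rfl | rfl | rfl | rfl
      · exact Or.inr (Or.inr (Or.inr (Or.inr (Or.inr (Or.inl
          ⟨_, _, _, _, _, _, _, _, hB, hu, hu0, hw, Or.inl rfl⟩)))))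
      · exact Or.inr (Or.inr (Or.inr (Or.inr (Or.inr (Or.inl
          ⟨_, _, _, _, _, _, _, _, hB, hu, hu0, hw, Or.inr (Or.inl rfl)⟩)))))
      · exact Or.inr (Or.inl rfl)
      · exact Or.inr (Or.inr (Or.inr (Or.inr (Or.inr (Or.inl
          ⟨_, _, _, _, _, _, _, _, hB, hu, hu0, hw, Or.inr (Or.inr rfl)⟩)))))
    | e w a x y h1 h2 h3 _ =>
      rw [Finset.mem_insert, Finset.mem_singleton] at hv
      rcases hv with rfl | rfl
      · exact Or.inl rfl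
      · exact Or.inr (Or.inl rfl)
    | x3 w w' a q q' p p' r s h1 h2 h3 h4 h5 h6 h7 h8 h9 h10 h11 h12 =>
      rw [Finset.mem_insert, Finset.mem_insert, Finset.mem_insert, Finset.mem_singleton] at hv
      rcases hv with rfl | rfl | rfl | rfl
      · exact Or.inl rfl
      · exact Or.inr (Or.inl rfl)
      · exact Or.inr (Or.inr (Or.inl ⟨h5, h3.adj.2.1.symm⟩))
      · exact Or.inr (Or.inr (Or.inr (Or.inl ⟨q, q', p, ⟨h1, h3, h4, h5, h6, h7, h8, h9⟩⟩)))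
  · cases h1 with
    | m w w' a x x' y h1 h2 h3 h4 h5 h6 h7 =>
      rw [Finset.mem_insert, Finset.mem_insert, Finset.mem_singleton] at hv
      rcases hv with rfl | rfl | rfl
      · exact Or.inr (Or.inr (Or.inl ⟨h4, h3.adj.2.1.symm⟩))
      · exact Or.inl rfl
      · exact Or.inr (Or.inl rfl)
    | x4 w w' a q q' p p' r r' s h1 h2 h3 h4 h5 h6 h7 h8 h9 _ _ _ _ =>
      rw [Finset.mem_insert, Finset.mem_insert, Finset.mem_insert, Finset.mem_insert,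
        Finset.mem_singleton] at hv
      rcases hv with rfl | rfl | rfl | rfl | rfl
      · exact Or.inr (Or.inr (Or.inl ⟨h5, h3.adj.2.1.symm⟩))
      · exact Or.inl rfl
      · exact Or.inr (Or.inl rfl)
      · exact Or.inr (Or.inr (Or.inl ⟨h5, h3.adj.2.1.symm⟩))
      · exact Or.inr (Or.inr (Or.inr (Or.inl ⟨_, q', p, ⟨h1, h3, h4, h5, h6, h7, h8, h9⟩⟩)))
    | hs b b' d d' α β w a hB hN hb hw ha =>
      rw [Finset.mem_insert, Finset.mem_insert, Finset.mem_singleton] at hv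
      refine Or.inr (Or.inr (Or.inr (Or.inr (Or.inl
        ⟨_, _, _, _, _, _, ⟨hB, hN, hb⟩, hw, ha, ?_⟩))))
      rcases hv with rfl | rfl | rfl
      · exact Or.inr (Or.inr rfl)
      · exact Or.inl rfl
      · exact Or.inr (Or.inl rfl)
    | d1 w w' a x x' h1 h2 h3 h4 h5 _ =>
      rw [Finset.mem_insert, Finset.mem_insert, Finset.mem_singleton] at hv
      rcases hv with rfl | rfl | rfl
      · exact Or.inr (Or.inr (Or.inl ⟨h5, h4.adj.2.2.symm⟩))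
      · exact Or.inl rfl
      · exact Or.inr (Or.inl rfl)

/-- cores containing a source -/
theorem k_Q0 (hP : PF G c) {F0 : Finset V} {v : V} (hv : v ∈ Qs G c 0) {s : V × V}
    (hs : s ∈ Cn G c F0 v) : s.1 = v ∨ Tw G c s.1 v ∨ ∃ u ∈ Qs G c 0, MA G c u v := by
  obtain ⟨K, hK, hvK⟩ := mem_Cn.1 hs
  have hsl := hK.slot hP.nice
  have key : ∀ b b' d d' α β, Blk G c b b' d d' α β → (s.1 = b ∨ s.1 = d) → (v = b ∨ v = d) →
      s.1 = v ∨ Tw G c s.1 v := by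
    rintro b b' d d' α β hB (e | e) (e' | e')
    · exact Or.inl (e.trans e'.symm)
    · rw [e, e']
      exact Or.inr hB.tw
    · rw [e, e']
      exact Or.inr hB.tw.symm
    · exact Or.inl (e.trans e'.symm)
  have key' : ∀ b b' d d' α β, Blk G c b b' d d' α β → (s.1 = b ∨ s.1 = d) → (v = b ∨ v = d) →
      s.1 = v ∨ Tw G c s.1 v ∨ ∃ u ∈ Qs G c 0, MA G c u v := by
    intro b b' d d' α β h1 h2 h3
    rcases key b b' d d' α β h1 h2 h3 with e | e
    · exact Or.inl e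
    · exact Or.inr (Or.inl e)
  rcases cases0 hK hvK with e | e | ⟨e, -⟩ | ⟨q, q', p0, hX⟩ |
    ⟨b, b', d, d', α, β, hH, h1, h2, e⟩ | ⟨b, b', d, d', β, y, z, u, hB, hu, hu0, h1, e⟩ |
    ⟨b, b', d, d', β, y, z, h, p, hE, h1, e⟩
  · exact Or.inl e.symm
  · subst e
    exact (WB (Q0_W hv) hsl.2.2.1).elim
  · exact (Q0_Q1 hv e).elim
  · exact (WB (Q0_W hv) (hX.B1 hP.nice).2.1).elim
  · rcases e with e | e | e
    · exact key' _ _ _ _ _ _ hH.1 h1 (Or.inl e)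
    · subst e
      exact (WB (Q0_W hv) (hH.1.bl hP.nice).1.1).elim
    · subst e
      exact (Q0_Q1 hv hH.2.2).elim
  · rcases e with e | e | e
    · exact key' _ _ _ _ _ _ hB.toBlk h1 (Or.inl e)
    · exact key' _ _ _ _ _ _ hB.toBlk h1 (Or.inr e)
    · right
      right
      rcases hu with e' | e'
      · exact ⟨b, hB.b0, by rw [e, e']; exact hB.mb⟩
      · exact ⟨d, hB.d0, by rw [e, e']; exact hB.md⟩
  · rcases e with e | e | e
    · exact key' _ _ _ _ _ _ hE.hB.toBlk h1 (Or.inl e)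
    · subst e
      exact (Q0_W0 hv hE.hB.y0).elim
    · subst e
      exact (WB (Q0_W hv) hE.h1.1).elim

/-- cores containing a vertex of `B0` -/
theorem k_B0 (hP : PF G c) {F0 : Finset V} {v : V} (hv : IsB0 G c v) {s : V × V}
    (hs : s ∈ Cn G c F0 v) : s.1 ∈ Qs G c 0 ∧ G.Adj s.1 v ∧ (s.2 = v ∨
      ∃ b b' d d' β, House G c b b' d d' v β) := by
  obtain ⟨K, hK, hvK⟩ := mem_Cn.1 hs
  have hsl := hK.slot hP.nice
  refine ⟨hsl.1, ?_⟩
  rcases cases0 hK hvK with e | e | ⟨e, -⟩ | ⟨q, q', p0, hX⟩ |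
    ⟨b, b', d, d', α, β, hH, h1, h2, e⟩ | ⟨b, b', d, d', β, y, z, u, hB, hu, hu0, h1, e⟩ |
    ⟨b, b', d, d', β, y, z, h, p, hE, h1, e⟩
  · subst e
    exact (WB (Q0_W hsl.1) hv.1).elim
  · subst e
    exact ⟨hsl.2.1, Or.inl rfl⟩
  · exact (WB (Q1_W e) hv.1).elim
  · exact (B0_not_B1 hv (hX.B1 hP.nice).2).elim
  · rcases e with e | e | e
    · subst e
      exact (WB (Q0_W hH.1.b0) hv.1).elim
    · subst e
      exact ⟨(hH.1.adjα h1).1, Or.inr ⟨_, _, _, _, _, hH⟩⟩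
    · subst e
      exact (WB (Q1_W hH.2.2) hv.1).elim
  · rcases e with e | e | e
    · subst e
      exact (WB (Q0_W hB.b0) hv.1).elim
    · subst e
      exact (WB (Q0_W hB.d0) hv.1).elim
    · subst e
      exact (WB (Q0_W hu0) hv.1).elim
  · rcases e with e | e | e
    · subst e
      exact (WB (Q0_W hE.hB.b0) hv.1).elim
    · subst e
      exact (WB hE.hB.y0.1 hv.1).elim
    · subst e
      exact (B0_not_B1 hv hE.h1).elim

/-- cores containing a vertex of `B1` -/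
theorem k_B1 (hP : PF G c) {F0 : Finset V} {v : V} (hv : IsB1 G c v) {s : V × V}
    (hs : s ∈ Cn G c F0 v) : (∃ q q' p, Xc G c s.1 s.2 q q' p v) ∨
      ∃ b b' d d' β y z p, EC G c b b' d d' s.2 β y z v p ∧ (s.1 = b ∨ s.1 = d) := by
  obtain ⟨K, hK, hvK⟩ := mem_Cn.1 hs
  have hsl := hK.slot hP.nice
  rcases cases0 hK hvK with e | e | ⟨e, -⟩ | ⟨q, q', p0, hX⟩ |
    ⟨b, b', d, d', α, β, hH, h1, h2, e⟩ | ⟨b, b', d, d', β, y, z, u, hB, hu, hu0, h1, e⟩ |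
    ⟨b, b', d, d', β, y, z, h, p, hE, h1, e⟩
  · subst e
    exact (WB (Q0_W hsl.1) hv.1).elim
  · subst e
    exact (B0_not_B1 hsl.2.2 hv).elim
  · exact (WB (Q1_W e) hv.1).elim
  · exact Or.inl ⟨_, _, _, hX⟩
  · rcases e with e | e | e
    · subst e
      exact (WB (Q0_W hH.1.b0) hv.1).elim
    · subst e
      exact (B0_not_B1 (hH.1.bl hP.nice).1 hv).elim
    · subst e
      exact (WB (Q1_W hH.2.2) hv.1).elim
  · rcases e with e | e | e
    · subst e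
      exact (WB (Q0_W hB.b0) hv.1).elim
    · subst e
      exact (WB (Q0_W hB.d0) hv.1).elim
    · subst e
      exact (WB (Q0_W hu0) hv.1).elim
  · rcases e with e | e | e
    · subst e
      exact (WB (Q0_W hE.hB.b0) hv.1).elim
    · subst e
      exact (WB hE.hB.y0.1 hv.1).elim
    · subst e
      exact Or.inr ⟨_, _, _, _, _, _, _, _, hE, h1⟩

/-- cores containing a vertex of `W0` -/
theorem k_W0 (hP : PF G c) {F0 : Finset V} {v : V} (hv : IsW0 G c v) {s : V × V}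
    (hs : s ∈ Cn G c F0 v) :
      ∃ b b' d d' β z h p, EC G c b b' d d' s.2 β v z h p ∧ (s.1 = b ∨ s.1 = d) := by
  obtain ⟨K, hK, hvK⟩ := mem_Cn.1 hs
  have hsl := hK.slot hP.nice
  rcases cases0 hK hvK with e | e | ⟨e, -⟩ | ⟨q, q', p0, hX⟩ |
    ⟨b, b', d, d', α, β, hH, h1, h2, e⟩ | ⟨b, b', d, d', β, y, z, u, hB, hu, hu0, h1, e⟩ |
    ⟨b, b', d, d', β, y, z, h, p, hE, h1, e⟩
  · subst e
    exact (Q0_W0 hsl.1 hv).elim
  · subst e
    exact (WB hv.1 hsl.2.2.1).elim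
  · exact (Q1_W0 e hv).elim
  · exact (WB hv.1 (hX.B1 hP.nice).2.1).elim
  · rcases e with e | e | e
    · subst e
      exact (Q0_W0 hH.1.b0 hv).elim
    · subst e
      exact (WB hv.1 (hH.1.bl hP.nice).1.1).elim
    · subst e
      exact (Q1_W0 hH.2.2 hv).elim
  · rcases e with e | e | e
    · subst e
      exact (Q0_W0 hB.b0 hv).elim
    · subst e
      exact (Q0_W0 hB.d0 hv).elim
    · subst e
      exact (Q0_W0 hu0 hv).elim
  · rcases e with e | e | e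
    · subst e
      exact (Q0_W0 hE.hB.b0 hv).elim
    · subst e
      exact ⟨_, _, _, _, _, _, _, _, hE, h1⟩
    · subst e
      exact (WB hv.1 hE.h1.1).elim

/-- cores containing a vertex of `W1` which is not a source -/
theorem k_W1 (hP : PF G c) {F0 : Finset V} {v : V} (hv : IsW1 G c v) (h0 : v ∉ Qs G c 0)
    {s : V × V} (hs : s ∈ Cn G c F0 v) : v ∈ Qs G c 1 ∧ (G.Adj v s.2 ∨
      ∃ b d d' α β, House G c b v d d' α β ∧ (s.1 = b ∨ s.1 = d)) := by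
  obtain ⟨K, hK, hvK⟩ := mem_Cn.1 hs
  have hsl := hK.slot hP.nice
  rcases cases0 hK hvK with e | e | ⟨e, e1⟩ | ⟨q, q', p0, hX⟩ |
    ⟨b, b', d, d', α, β, hH, h1, h2, e⟩ | ⟨b, b', d, d', β, y, z, u, hB, hu, hu0, h1, e⟩ |
    ⟨b, b', d, d', β, y, z, h, p, hE, h1, e⟩
  · subst e
    exact (h0 hsl.1).elim
  · subst e
    exact (WB hv.1 hsl.2.2.1).elim
  · exact ⟨e, Or.inl e1⟩
  · exact (WB hv.1 (hX.B1 hP.nice).2.1).elim
  · rcases e with e | e | e
    · subst e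
      exact (h0 hH.1.b0).elim
    · subst e
      exact (WB hv.1 (hH.1.bl hP.nice).1.1).elim
    · subst e
      exact ⟨hH.2.2, Or.inr ⟨_, _, _, _, _, hH, h1⟩⟩
  · rcases e with e | e | e
    · subst e
      exact (h0 hB.b0).elim
    · subst e
      exact (h0 hB.d0).elim
    · subst e
      exact (h0 hu0).elim
  · rcases e with e | e | e
    · subst e
      exact (h0 hE.hB.b0).elim
    · subst e
      exact (W0_not_W1 hE.hB.y0 hv).elim
    · subst e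
      exact (WB hv.1 hE.h1.1).elim

/-! ## The neighbourhood of the configuration -/

variable {b b' d d' α β y z h p h' : V}

theorem EC.symm (e : EC G c b b' d d' α β y z h p) (hb : G.Adj h d') (pb : G.Adj p d') :
    EC G c d d' b b' α β y z h p :=
  ⟨e.hB.symm, e.d0, e.b0, e.h1, e.hy, hb, e.p0, e.py, pb⟩

theorem EC.b'W (hP : PF G c) (e : EC G c b b' d d' α β y z h p) : IsW1 G c b' :=
  W1_of_MA hP.nice (ma_symm e.hB.mb) (MA_W e.hB.mb (Q0_W e.hB.b0))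

theorem EC.d'W (hP : PF G c) (e : EC G c b b' d d' α β y z h p) : IsW1 G c d' :=
  W1_of_MA hP.nice (ma_symm e.hB.md) (MA_W e.hB.md (Q0_W e.hB.d0))

/-- the neighbours of `y` -/
theorem EC.Ny (hP : PF G c) (e : EC G c b b' d d' α β y z h p) : N3 G y α h p := by
  have hbl := e.hB.toBlk.bl hP.nice
  refine N3_of3 hP.cub e.hB.nα.adj.2.2.symm e.hy.symm e.py.symm ?_ ?_ ?_
  · rintro rfl
    exact B0_not_B1 hbl.1 e.h1
  · rintro rfl
    exact e.nop hP e.hB.b0 e.hB.nb.adj.2.1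
  · rintro rfl
    exact B0_not_B1 e.p0 e.h1

/-- the neighbours of `b'` -/
theorem EC.Nb' (hP : PF G c) (e : EC G c b b' d d' α β y z h p) : N3 G b' b h p := by
  refine N3_of3 hP.cub e.hB.mb.1.symm e.hb.symm e.pb.symm ?_ ?_ ?_
  · rintro rfl
    exact WB (Q0_W e.hB.b0) e.h1.1
  · rintro rfl
    exact WB (Q0_W e.hB.b0) e.p0.1
  · rintro rfl
    exact B0_not_B1 e.p0 e.h1

/-- the neighbours of `h` -/
theorem EC.Nh (hP : PF G c) (e : EC G c b b' d d' α β y z h p) (hm : MA G c h h') :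
    N3 G h y b' h' := by
  refine N3_of3 hP.cub e.hy e.hb hm.1 ?_ ?_ ?_
  · rintro rfl
    exact W0_not_W1 e.hB.y0 (e.b'W hP)
  · rintro rfl
    exact WB e.hB.y0.1 (MA_B hm e.h1.1)
  · rintro rfl
    exact WB (e.b'W hP).1 (MA_B hm e.h1.1)

/-- sources at `α` -/
theorem EC.sα (e : EC G c b b' d d' α β y z h p) {s : V} (hs : s ∈ Qs G c 0)
    (h1 : G.Adj s α) : s = b ∨ s = d := by
  rcases e.hB.nα.mem' h1 with e1 | e1 | e1
  · exact Or.inl e1
  · exact Or.inr e1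
  · exact (Q0_W0 (e1 ▸ hs) e.hB.y0).elim

/-- sources at `β` -/
theorem EC.sβ (e : EC G c b b' d d' α β y z h p) {s : V} (hs : s ∈ Qs G c 0)
    (h1 : G.Adj s β) : s = b ∨ s = d := by
  rcases e.hB.nβ.mem' h1 with e1 | e1 | e1
  · exact Or.inl e1
  · exact Or.inr e1
  · exact (Q0_W0 (e1 ▸ hs) e.hB.z0).elim

/-- another EX1 configuration with the same `b'` -/
theorem EC.same (hP : PF G c) (e : EC G c b b' d d' α β y z h p)
    {b₁ d₁ d₁' α₁ β₁ y₁ z₁ h₁ p₁ : V} (e₁ : EC G c b₁ b' d₁ d₁' α₁ β₁ y₁ z₁ h₁ p₁) :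
    b₁ = b ∧ d₁ = d := by
  have e2 : b₁ = b := nice_uniq hP.nice (ma_symm e₁.hB.mb) (ma_symm e.hB.mb)
  subst e2
  exact ⟨rfl, e₁.hB.toBlk.tw.uniq hP e.hB.toBlk.tw⟩

/-- the zone -/
theorem EC.zn (hc : Nice G c) (e : EC G c b b' d d' α β y z h p) (hP : PF G c)
    (hm : MA G c h h') {t : V} (ht : t ∈ Zn G c {b, α, y, h}) :
    t = b ∨ t = b' ∨ t = d ∨ t = d' ∨ t = α ∨ t = β ∨ t = y ∨ t = h ∨ t = p ∨ t = h' := by
  have hbl := e.hB.toBlk.bl hc
  have Ny := e.Ny hP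
  have Nh := e.Nh hP hm
  have key : ∀ t, t ∈ NF G ({b, α, y, h} : Finset V) →
      t = b ∨ t = b' ∨ t = d ∨ t = α ∨ t = β ∨ t = y ∨ t = h ∨ t = p ∨ t = h' := by
    intro t ht
    rcases mem_NF.1 ht with h1 | ⟨f, hf, h1⟩
    · rw [Finset.mem_insert, Finset.mem_insert, Finset.mem_insert, Finset.mem_singleton] at h1
      tauto
    · rw [Finset.mem_insert, Finset.mem_insert, Finset.mem_insert, Finset.mem_singleton] at hf
      rcases hf with rfl | rfl | rfl | rfl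
      · rcases e.hB.nb.mem h1 with e1 | e1 | e1 <;> tauto
      · rcases e.hB.nα.mem h1 with e1 | e1 | e1 <;> tauto
      · rcases Ny.mem h1 with e1 | e1 | e1 <;> tauto
      · rcases Nh.mem h1 with e1 | e1 | e1 <;> tauto
  rcases mem_Zn.1 ht with h1 | ⟨u, hu, hmu⟩
  · rcases key t h1 with e1 | e1 | e1 | e1 | e1 | e1 | e1 | e1 | e1 <;> tauto
  · rcases key u hu with rfl | rfl | rfl | rfl | rfl | rfl | rfl | rfl | rfl
    · have := nice_uniq hc hmu e.hB.mb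
      tauto
    · have := nice_uniq hc hmu (ma_symm e.hB.mb)
      tauto
    · have := nice_uniq hc hmu e.hB.md
      tauto
    · exact (md0_no hbl.1.2 hmu).elim
    · exact (md0_no hbl.2.2 hmu).elim
    · exact (md0_no e.hB.y0.2 hmu).elim
    · have := nice_uniq hc hmu hm
      tauto
    · exact (md0_no e.p0.2 hmu).elim
    · have := nice_uniq hc hmu (ma_symm hm)
      tauto

/-- the blocked sources -/
theorem EC.blk (hP : PF G c) (e : EC G c b b' d d' α β y z h p) : blk G c {b, α, y, h} ≤ 2 := by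
  obtain ⟨h', hm⟩ := md1_ex e.h1.2
  have hbl := e.hB.toBlk.bl hP.nice
  have hh' : IsB1 G c h' := B1_of_MA hP.nice (ma_symm hm) (MA_B hm e.h1.1)
  refine (blk_le (S := {b, d}) ?_).trans Finset.card_le_two
  intro s hs hz
  rw [Finset.mem_insert, Finset.mem_singleton]
  have hW := Q0_W hs
  rcases blk_mem hP hs hz with h1 | ⟨u, h1, h2, h3⟩
  · rcases e.zn hP.nice hP hm h1 with e1 | e1 | e1 | e1 | e1 | e1 | e1 | e1 | e1 | e1
    · exact Or.inl e1
    · exact (e.b0 (e1 ▸ hs)).elim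
    · exact Or.inr e1
    · exact (e.d0 (e1 ▸ hs)).elim
    · exact (WB hW (e1 ▸ hbl.1.1)).elim
    · exact (WB hW (e1 ▸ hbl.2.1)).elim
    · exact (Q0_W0 (e1 ▸ hs) e.hB.y0).elim
    · exact (WB hW (e1 ▸ e.h1.1)).elim
    · exact (WB hW (e1 ▸ e.p0.1)).elim
    · exact (WB hW (e1 ▸ hh'.1)).elim
  · rcases e.zn hP.nice hP hm h1 with e1 | e1 | e1 | e1 | e1 | e1 | e1 | e1 | e1 | e1
    · exact (WB (Q0_W e.hB.b0) (e1 ▸ h2.1)).elim
    · exact (WB (e.b'W hP).1 (e1 ▸ h2.1)).elim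
    · exact (WB (Q0_W e.hB.d0) (e1 ▸ h2.1)).elim
    · exact (WB (e.d'W hP).1 (e1 ▸ h2.1)).elim
    · exact e.sα hs (e1 ▸ h3)
    · exact e.sβ hs (e1 ▸ h3)
    · exact (WB e.hB.y0.1 (e1 ▸ h2.1)).elim
    · exact (B0_not_B1 (e1 ▸ h2) e.h1).elim
    · exact (e.nop hP hs (e1 ▸ h3)).elim
    · exact (B0_not_B1 (e1 ▸ h2) hh').elim

/-! ## Cores -/

/-- slots at the neighbour in `B0` of `x` -/
def AtQ (G : SimpleGraph V) (c : V → Bool) (x : V) : Finset (V × V) :=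
  univ.filter fun s => s.1 ∈ Qs G c 0 ∧ G.Adj s.1 s.2 ∧ IsB0 G c s.2 ∧ x ∈ Qs G c 1 ∧ G.Adj x s.2

theorem mem_AtQ {x : V} {s : V × V} : s ∈ AtQ G c x ↔ s.1 ∈ Qs G c 0 ∧ G.Adj s.1 s.2 ∧
    IsB0 G c s.2 ∧ x ∈ Qs G c 1 ∧ G.Adj x s.2 := by simp [AtQ]

theorem AtQ_card (hP : PF G c) (x : V) : (AtQ G c x).card ≤ 2 := by
  by_cases hx : x ∈ Qs G c 1
  · obtain ⟨x', a, g, hm, hN, ha, hg⟩ := Q1_N3 hP.cub hP.nice hx
    obtain ⟨t₁, t₂, ht⟩ := N3_of1 hP.cub hN.adj.2.1.symm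
    have hsub : AtQ G c x ⊆ {(t₁, a), (t₂, a)} := by
      intro s hs
      obtain ⟨k1, k2, k3, k4, k5⟩ := mem_AtQ.1 hs
      have e := Q1_B0 hP.cub hP.nice hx k5 k3 hN.adj.2.1 ha
      rw [e] at k2
      rw [Finset.mem_insert, Finset.mem_singleton]
      rcases ht.mem' k2 with e1 | e1 | e1
      · exact (Q0_Q1 (e1 ▸ k1) hx).elim
      · exact Or.inl (Prod.ext e1 e)
      · exact Or.inr (Prod.ext e1 e)
    exact (Finset.card_le_card hsub).trans Finset.card_le_two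
  · have : AtQ G c x = ∅ := by
      rw [Finset.eq_empty_iff_forall_notMem]
      intro s hs
      exact hx (mem_AtQ.1 hs).2.2.2.1
    rw [this]
    simp

/-- slots with an X configuration at `g` -/
def XS (G : SimpleGraph V) (c : V → Bool) (g : V) : Finset (V × V) :=
  univ.filter fun s => ∃ q q' p, Xc G c s.1 s.2 q q' p g

theorem mem_XS {g : V} {s : V × V} : s ∈ XS G c g ↔ ∃ q q' p, Xc G c s.1 s.2 q q' p g := by
  simp [XS]

theorem XS_card (hP : PF G c) (g : V) : (XS G c g).card ≤ 1 := by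
  rw [Finset.card_le_one]
  intro s hs t ht
  obtain ⟨q, q', p0, h1⟩ := mem_XS.1 hs
  obtain ⟨r, r', p1, h2⟩ := mem_XS.1 ht
  obtain ⟨e1, e2⟩ := h1.uniq hP h2
  exact Prod.ext e1 e2

/-- the slots killed through `d'` -/
def DS (G : SimpleGraph V) (c : V → Bool) (x : V) : Finset (V × V) :=
  univ.filter fun s => s ∈ AtQ G c x ∨ ∃ g, IsB1 G c g ∧ G.Adj x g ∧ s ∈ XS G c g

theorem mem_DS {x : V} {s : V × V} : s ∈ DS G c x ↔
    s ∈ AtQ G c x ∨ ∃ g, IsB1 G c g ∧ G.Adj x g ∧ s ∈ XS G c g := by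
  unfold DS
  rw [Finset.mem_filter]
  simp

theorem DS_card (hP : PF G c) {x : V} (hx : IsW1 G c x) (h0 : x ∉ Qs G c 0) :
    (DS G c x).card ≤ 3 := by
  rcases W1_cases hP.cub hP.nice hx with h1 | h1 | h1
  · exact absurd h1 h0
  · obtain ⟨x', a, g, hm, hN, ha, hg⟩ := Q1_N3 hP.cub hP.nice h1
    have hsub : DS G c x ⊆ AtQ G c x ∪ XS G c g := by
      intro s hs
      rw [Finset.mem_union]
      rcases mem_DS.1 hs with h2 | ⟨g', k1, k2, k3⟩
      · exact Or.inl h2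
      · rcases hN.mem k2 with e | e | e
        · exact (WB (MA_W hm hx.1) (e ▸ k1.1)).elim
        · exact (B0_not_B1 ha (e ▸ k1)).elim
        · exact Or.inr (e ▸ k3)
    have k1 := Finset.card_le_card hsub
    have k2 := Finset.card_union_le (AtQ G c x) (XS G c g)
    have k3 := AtQ_card hP (c := c) x
    have k4 := XS_card hP (c := c) g
    omega
  · obtain ⟨x', a, g, hm, hN, ha, hg⟩ := Q2_N3 hP.cub hP.nice h1
    have hsub : DS G c x ⊆ XS G c a ∪ XS G c g := by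
      intro s hs
      rw [Finset.mem_union]
      rcases mem_DS.1 hs with h2 | ⟨g', k1, k2, k3⟩
      · exact (Q1_Q2 (mem_AtQ.1 h2).2.2.2.1 h1).elim
      · rcases hN.mem k2 with e | e | e
        · exact (WB (MA_W hm hx.1) (e ▸ k1.1)).elim
        · exact Or.inl (e ▸ k3)
        · exact Or.inr (e ▸ k3)
    have k1 := Finset.card_le_card hsub
    have k2 := Finset.card_union_le (XS G c a) (XS G c g)
    have k3 := XS_card hP (c := c) a
    have k4 := XS_card hP (c := c) g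
    omega

/-- a house or an EX1 configuration with `b' = x` -/
def BD (G : SimpleGraph V) (c : V → Bool) (x b d : V) : Prop :=
  MA G c x b ∧ Tw G c b d ∧ ∀ s ∈ AtQ G c x, s.1 = b ∨ s.1 = d

theorem House.bd (hP : PF G c) {b x d d' α β : V} (hH : House G c b x d d' α β) :
    BD G c x b d := by
  refine ⟨ma_symm hH.1.mb, hH.1.tw, ?_⟩
  intro s hs
  obtain ⟨k1, k2, k3, k4, k5⟩ := mem_AtQ.1 hs
  have e := Q1_B0 hP.cub hP.nice k4 k5 k3 hH.2.1.adj.2.2.symm (hH.1.bl hP.nice).1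
  rw [e] at k2
  rcases hH.2.1.mem' k2 with e1 | e1 | e1
  · exact Or.inl e1
  · exact Or.inr e1
  · exact (Q0_Q1 (e1 ▸ k1) k4).elim

theorem EC.bd (hP : PF G c) (e : EC G c b b' d d' α β y z h p) : BD G c b' b d := by
  refine ⟨ma_symm e.hB.mb, e.hB.toBlk.tw, ?_⟩
  intro s hs
  obtain ⟨k1, k2, k3, k4, k5⟩ := mem_AtQ.1 hs
  have e1 := Q1_B0 hP.cub hP.nice k4 k5 k3 e.pb.symm e.p0
  rw [e1] at k2
  exact (e.nop hP k1 k2).elim

/-- the slots killed through `h'` -/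
def HT (G : SimpleGraph V) (c : V → Bool) (F0 : Finset V) (g : V) : Finset (V × V) :=
  univ.filter fun s => (∃ K, Cor G c F0 s K) ∧ ∃ x, IsW1 G c x ∧ G.Adj g x ∧
    (s ∈ AtQ G c x ∨ ∃ b d, BD G c x b d ∧ (s.1 = b ∨ s.1 = d))

theorem mem_HT {F0 : Finset V} {g : V} {s : V × V} : s ∈ HT G c F0 g ↔
    (∃ K, Cor G c F0 s K) ∧ ∃ x, IsW1 G c x ∧ G.Adj g x ∧
    (s ∈ AtQ G c x ∨ ∃ b d, BD G c x b d ∧ (s.1 = b ∨ s.1 = d)) := by
  unfold HT
  rw [Finset.mem_filter]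
  simp

theorem HT_card (hP : PF G c) {F0 : Finset V} {g : V} (hg : IsB1 G c g) :
    (HT G c F0 g).card ≤ 4 := by
  by_cases hx : ∃ x x', x ≠ x' ∧ IsW1 G c x ∧ IsW1 G c x' ∧ G.Adj g x ∧ G.Adj g x'
  · obtain ⟨x, x', h1, h2, h3, h4, h5⟩ := hx
    have hm : MA G c x x' := ⟨hP.rule1 g x x' hg h4 h5 h1 h2 h3, by rw [h2.1, h3.1]⟩
    obtain ⟨g', hmg⟩ := md1_ex hg.2
    have hN : N3 G g g' x x' := by
      refine N3_of3 hP.cub hmg.1 h4 h5 ?_ ?_ h1
      · rintro rfl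
        exact WB h2.1 (MA_B hmg hg.1)
      · rintro rfl
        exact WB h3.1 (MA_B hmg hg.1)
    have key : ∀ u v, G.Adj g v → ¬ ∃ d, BD G c u v d := by
      rintro u v hv ⟨d, hd⟩
      exact Q0_noB1 hP.nice hd.2.1.1 hg hv.symm
    have hsub : HT G c F0 g ⊆ AtQ G c x ∪ AtQ G c x' := by
      intro s hs
      rw [Finset.mem_union]
      obtain ⟨-, u, k1, k2, k3⟩ := mem_HT.1 hs
      rcases hN.mem k2 with e | e | e
      · exact (WB k1.1 (e ▸ MA_B hmg hg.1)).elim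
      · subst e
        rcases k3 with k3 | ⟨b, d, k3, -⟩
        · exact Or.inl k3
        · have : b = x' := nice_uniq hP.nice k3.1 hm
          subst this
          exact (key _ _ h5 ⟨d, k3⟩).elim
      · subst e
        rcases k3 with k3 | ⟨b, d, k3, -⟩
        · exact Or.inr k3
        · have : b = x := nice_uniq hP.nice k3.1 (ma_symm hm)
          subst this
          exact (key _ _ h4 ⟨d, k3⟩).elim
    have k1 := Finset.card_le_card hsub
    have k2 := Finset.card_union_le (AtQ G c x) (AtQ G c x')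
    have k3 := AtQ_card hP (c := c) x
    have k4 := AtQ_card hP (c := c) x'
    omega
  · have uniq : ∀ x x', IsW1 G c x → IsW1 G c x' → G.Adj g x → G.Adj g x' → x = x' := by
      intro x x' h1 h2 h3 h4
      by_contra hne
      exact hx ⟨x, x', hne, h1, h2, h3, h4⟩
    by_cases hD : ∃ x b d, IsW1 G c x ∧ G.Adj g x ∧ BD G c x b d
    · obtain ⟨x, b, d, h1, h2, h3⟩ := hD
      have hsub : HT G c F0 g ⊆ HS G c F0 b ∪ HS G c F0 d := by
        intro s hs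
        obtain ⟨hK, u, k1, k2, k3⟩ := mem_HT.1 hs
        have e := uniq u x k1 h1 k2 h2
        subst e
        have key : s.1 = b ∨ s.1 = d := by
          rcases k3 with k3 | ⟨b₁, d₁, k3, k4⟩
          · exact h3.2.2 s k3
          · have e1 : b₁ = b := nice_uniq hP.nice k3.1 h3.1
            subst e1
            have e2 : d₁ = d := k3.2.1.uniq hP h3.2.1
            subst e2
            exact k4
        rw [Finset.mem_union, mem_HS, mem_HS]
        rcases key with e | e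
        · exact Or.inl ⟨e, hK⟩
        · exact Or.inr ⟨e, hK⟩
      have k1 := Finset.card_le_card hsub
      have k2 := Finset.card_union_le (HS G c F0 b) (HS G c F0 d)
      have k3 := HS_card hP (F0 := F0) b
      have k4 := HS_card hP (F0 := F0) d
      omega
    · by_cases hE : ∃ x, IsW1 G c x ∧ G.Adj g x
      · obtain ⟨x, h1, h2⟩ := hE
        have hsub : HT G c F0 g ⊆ AtQ G c x := by
          intro s hs
          obtain ⟨-, u, k1, k2, k3⟩ := mem_HT.1 hs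
          have e := uniq u x k1 h1 k2 h2
          subst e
          rcases k3 with k3 | ⟨b₁, d₁, k3, k4⟩
          · exact k3
          · exact (hD ⟨u, b₁, d₁, k1, k2, k3⟩).elim
        have k1 := Finset.card_le_card hsub
        have k3 := AtQ_card hP (c := c) x
        omega
      · have : HT G c F0 g = ∅ := by
          rw [Finset.eq_empty_iff_forall_notMem]
          intro s hs
          obtain ⟨-, u, k1, k2, -⟩ := mem_HT.1 hs
          exact hE ⟨u, k1, k2⟩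
        rw [this]
        simp

/-! ## The killed slots -/

/-- the cover of the killed slots -/
def Cov (G : SimpleGraph V) (c : V → Bool) (F0 : Finset V) (b d d' h' : V) : Finset (V × V) :=
  (HS G c F0 b ∪ HS G c F0 d) ∪ (DS G c d' ∪ HT G c F0 h')

theorem cov_bd {F0 : Finset V} {s : V × V} (hK : ∃ K, Cor G c F0 s K)
    (h : s.1 = b ∨ s.1 = d) : s ∈ Cov G c F0 b d d' h' := by
  refine Finset.mem_union_left _ ?_
  rw [Finset.mem_union, mem_HS, mem_HS]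
  rcases h with h | h
  · exact Or.inl ⟨h, hK⟩
  · exact Or.inr ⟨h, hK⟩

theorem cov_D {F0 : Finset V} {s : V × V} (h : s ∈ DS G c d') :
    s ∈ Cov G c F0 b d d' h' :=
  Finset.mem_union_right _ (Finset.mem_union_left _ h)

theorem cov_H {F0 : Finset V} {s : V × V} (h : s ∈ HT G c F0 h') :
    s ∈ Cov G c F0 b d d' h' :=
  Finset.mem_union_right _ (Finset.mem_union_right _ h)

section Kill

variable {F0 : Finset V} {s : V × V}

theorem cn_cor {v : V} (h : s ∈ Cn G c F0 v) : ∃ K, Cor G c F0 s K := by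
  obtain ⟨K, hK, -⟩ := mem_Cn.1 h
  exact ⟨K, hK⟩

/-- cores containing `b` -/
theorem EC.c_b (hP : PF G c) (e : EC G c b b' d d' α β y z h p) (hs : s ∈ Cn G c F0 b) :
    s.1 = b ∨ s.1 = d := by
  rcases k_Q0 hP e.hB.b0 hs with h1 | h1 | ⟨u, hu, hm⟩
  · exact Or.inl h1
  · exact Or.inr (h1.symm.uniq hP e.hB.toBlk.tw)
  · have : u = b' := nice_uniq hP.nice (ma_symm hm) e.hB.mb
    exact (e.b0 (this ▸ hu)).elim

/-- cores containing `d` -/
theorem EC.c_d (hP : PF G c) (e : EC G c b b' d d' α β y z h p) (hs : s ∈ Cn G c F0 d) :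
    s.1 = b ∨ s.1 = d := by
  rcases k_Q0 hP e.hB.d0 hs with h1 | h1 | ⟨u, hu, hm⟩
  · exact Or.inr h1
  · exact Or.inl (h1.symm.uniq hP e.hB.toBlk.tw.symm)
  · have : u = d' := nice_uniq hP.nice (ma_symm hm) e.hB.md
    exact (e.d0 (this ▸ hu)).elim

/-- cores containing `α` -/
theorem EC.c_α (hP : PF G c) (e : EC G c b b' d d' α β y z h p) (hs : s ∈ Cn G c F0 α) :
    s.1 = b ∨ s.1 = d := by
  obtain ⟨k1, k2, -⟩ := k_B0 hP (e.hB.toBlk.bl hP.nice).1 hs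
  exact e.sα k1 k2

/-- cores containing `β` -/
theorem EC.c_β (hP : PF G c) (e : EC G c b b' d d' α β y z h p) (hs : s ∈ Cn G c F0 β) :
    s.1 = b ∨ s.1 = d := by
  obtain ⟨k1, k2, -⟩ := k_B0 hP (e.hB.toBlk.bl hP.nice).2 hs
  exact e.sβ k1 k2

/-- cores containing `p` -/
theorem EC.c_p (hP : PF G c) (e : EC G c b b' d d' α β y z h p) (hs : s ∈ Cn G c F0 p) :
    False := by
  obtain ⟨k1, k2, -⟩ := k_B0 hP e.p0 hs
  exact e.nop hP k1 k2

/-- cores containing `b'` -/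
theorem EC.c_b' (hP : PF G c) (e : EC G c b b' d d' α β y z h p) (hs : s ∈ Cn G c F0 b') :
    False := by
  obtain ⟨K, hK⟩ := cn_cor hs
  have hsl := hK.slot hP.nice
  obtain ⟨k1, k2 | ⟨b₁, d₁, d₁', α₁, β₁, hH, -⟩⟩ := k_W1 hP (e.b'W hP) e.b0 hs
  · have := Q1_B0 hP.cub hP.nice k1 k2 hsl.2.2 e.pb.symm e.p0
    exact e.nop hP hsl.1 (this ▸ hsl.2.1)
  · have := Q1_B0 hP.cub hP.nice k1 hH.2.1.adj.2.2.symm (hH.1.bl hP.nice).1 e.pb.symm e.p0
    exact e.nop hP hH.1.b0 (this ▸ hH.1.nb.adj.2.1)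

/-- cores containing `y` -/
theorem EC.c_y (hP : PF G c) (e : EC G c b b' d d' α β y z h p) (hs : s ∈ Cn G c F0 y) :
    s.1 = b ∨ s.1 = d := by
  obtain ⟨K, hK⟩ := cn_cor hs
  have hsl := hK.slot hP.nice
  obtain ⟨b₁, b₁', d₁, d₁', β₁, z₁, h₁, p₁, e₁, hs1⟩ := k_W0 hP e.hB.y0 hs
  rcases (e.Ny hP).mem (e₁.hB.nα.adj.2.2.symm) with e2 | e2 | e2
  · exact e.sα hsl.1 (e2 ▸ hsl.2.1)
  · exact (B0_not_B1 (e2 ▸ hsl.2.2) e.h1).elim
  · exact (e.nop hP hsl.1 (e2 ▸ hsl.2.1)).elim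

/-- cores containing `z` -/
theorem EC.c_z (hP : PF G c) (e : EC G c b b' d d' α β y z h p) (hs : s ∈ Cn G c F0 z) :
    s.1 = b ∨ s.1 = d := by
  obtain ⟨K, hK⟩ := cn_cor hs
  have hsl := hK.slot hP.nice
  have hbl := e.hB.toBlk.bl hP.nice
  obtain ⟨b₁, b₁', d₁, d₁', β₁, z₁, h₁, p₁, e₁, hs1⟩ := k_W0 hP e.hB.z0 hs
  rcases (e₁.Ny hP).mem (e.hB.nβ.adj.2.2.symm) with e2 | e2 | e2
  · exact e.sβ hsl.1 (e2 ▸ hsl.2.1)
  · exact (B0_not_B1 hbl.2 (e2 ▸ e₁.h1)).elim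
  · exact (e₁.nop hP e.hB.b0 (e2 ▸ e.hB.nb.adj.2.2)).elim

/-- cores containing a white neighbour of `p` -/
theorem EC.c_t (hP : PF G c) (e : EC G c b b' d d' α β y z h p) {t : V} (ht : G.Adj t p)
    (hs : s ∈ Cn G c F0 t) : s.1 = b ∨ s.1 = d := by
  obtain ⟨K, hK⟩ := cn_cor hs
  have hsl := hK.slot hP.nice
  have hct : c t = true := W_of_B ht.symm e.p0
  rcases W0_or_W1 hP.nice hct with h0 | h1
  · obtain ⟨b₁, b₁', d₁, d₁', β₁, z₁, h₁, p₁, e₁, hs1⟩ := k_W0 hP h0 hs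
    rcases (e₁.Ny hP).mem ht with e2 | e2 | e2
    · exact (e.nop hP hsl.1 (e2 ▸ hsl.2.1)).elim
    · exact (B0_not_B1 e.p0 (e2 ▸ e₁.h1)).elim
    · subst e2
      obtain ⟨t₀, hN⟩ := N3_of hP.cub e.py e.pb (by
        rintro rfl
        exact W0_not_W1 e.hB.y0 (e.b'W hP))
      rcases hN.mem e₁.pb with e3 | e3 | e3
      · exact (W0_not_W1 (e3 ▸ e.hB.y0) (e₁.b'W hP)).elim
      · subst e3
        obtain ⟨e4, e5⟩ := e.same hP e₁
        rw [e4, e5] at hs1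
        exact hs1
      · rcases hN.mem ht.symm with e4 | e4 | e4
        · exact e.c_y hP (e4 ▸ hs)
        · exact (W0_not_W1 (e4 ▸ h0) (e.b'W hP)).elim
        · exact (W0_not_W1 h0 (e4 ▸ e3 ▸ e₁.b'W hP)).elim
  · have ht0 : t ∉ Qs G c 0 := fun h2 => e.nop hP h2 ht
    obtain ⟨k1, k2 | ⟨b₁, d₁, d₁', α₁, β₁, hH, -⟩⟩ := k_W1 hP h1 ht0 hs
    · have := Q1_B0 hP.cub hP.nice k1 k2 hsl.2.2 ht e.p0
      exact (e.nop hP hsl.1 (this ▸ hsl.2.1)).elim
    · have := Q1_B0 hP.cub hP.nice k1 hH.2.1.adj.2.2.symm (hH.1.bl hP.nice).1 ht e.p0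
      exact (e.nop hP hH.1.b0 (this ▸ hH.1.nb.adj.2.1)).elim

/-- no house with `b' = d'` -/
theorem EC.noHd (hP : PF G c) (e : EC G c b b' d d' α β y z h p) {b₁ d₁ d₁' α₁ β₁ : V}
    (hH : House G c b₁ d' d₁ d₁' α₁ β₁) : False := by
  have e1 : b₁ = d := nice_uniq hP.nice (ma_symm hH.1.mb) (ma_symm e.hB.md)
  subst e1
  have hb := (hH.1.bl hP.nice).1
  rcases e.hB.nd.mem hH.1.nb.adj.2.1 with e2 | e2 | e2
  · exact WB (e.d'W hP).1 (e2 ▸ hb.1)
  · subst e2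
    rcases e.hB.nα.mem hH.2.1.adj.2.2 with e3 | e3 | e3
    · exact e.d0 (e3 ▸ e.hB.b0)
    · exact e.d0 (e3 ▸ e.hB.d0)
    · exact W0_not_W1 (e3 ▸ e.hB.y0) (e.d'W hP)
  · subst e2
    rcases e.hB.nβ.mem hH.2.1.adj.2.2 with e3 | e3 | e3
    · exact e.d0 (e3 ▸ e.hB.b0)
    · exact e.d0 (e3 ▸ e.hB.d0)
    · exact W0_not_W1 (e3 ▸ e.hB.z0) (e.d'W hP)

/-- cores containing `d'` -/
theorem EC.c_d' (hP : PF G c) (e : EC G c b b' d d' α β y z h p) (hs : s ∈ Cn G c F0 d') :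
    s ∈ DS G c d' := by
  obtain ⟨K, hK⟩ := cn_cor hs
  have hsl := hK.slot hP.nice
  obtain ⟨k1, k2 | ⟨b₁, d₁, d₁', α₁, β₁, hH, -⟩⟩ := k_W1 hP (e.d'W hP) e.d0 hs
  · exact mem_DS.2 (Or.inl (mem_AtQ.2 ⟨hsl.1, hsl.2.1, hsl.2.2, k1, k2⟩))
  · exact (e.noHd hP hH).elim

/-- cores containing a black neighbour of `d'` -/
theorem EC.c_g (hP : PF G c) (e : EC G c b b' d d' α β y z h p) {g : V} (hg : G.Adj g d')
    (hcg : c g = false) (hs : s ∈ Cn G c F0 g) : s ∈ DS G c d' ∨ s.1 = b ∨ s.1 = d := by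
  obtain ⟨K, hK⟩ := cn_cor hs
  have hsl := hK.slot hP.nice
  rcases B0_or_B1 hP.nice hcg with h0 | h1
  · have hq := Q1_of hP.cub hP.nice (e.d'W hP) hg.symm h0 e.d0
    obtain ⟨k1, k2, k3 | ⟨b₁, b₁', d₁, d₁', β₁, hH⟩⟩ := k_B0 hP h0 hs
    · refine Or.inl (mem_DS.2 (Or.inl (mem_AtQ.2 ⟨hsl.1, hsl.2.1, hsl.2.2, hq, ?_⟩)))
      rw [k3]
      exact hg.symm
    · rcases hH.2.1.mem hg with e1 | e1 | e1
      · exact (e.d0 (e1 ▸ hH.1.b0)).elim
      · exact (e.d0 (e1 ▸ hH.1.d0)).elim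
      · subst e1
        exact (e.noHd hP hH).elim
  · rcases k_B1 hP h1 hs with hX | ⟨b₁, b₁', d₁, d₁', β₁, y₁, z₁, p₁, e₁, hs1⟩
    · exact Or.inl (mem_DS.2 (Or.inr ⟨g, h1, hg.symm, mem_XS.2 hX⟩))
    · right
      obtain ⟨g', hm⟩ := md1_ex h1.2
      rcases (e₁.Nh hP hm).mem hg with e1 | e1 | e1
      · exact (W0_not_W1 (e1 ▸ e₁.hB.y0) (e.d'W hP)).elim
      · subst e1
        have e2 : b₁ = d := nice_uniq hP.nice (ma_symm e₁.hB.mb) (ma_symm e.hB.md)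
        subst e2
        have e3 : d₁ = b := e₁.hB.toBlk.tw.uniq hP e.hB.toBlk.tw.symm
        subst e3
        exact hs1.symm
      · exact (WB (e.d'W hP).1 (e1 ▸ MA_B hm h1.1)).elim

/-- cores containing `h` -/
theorem EC.c_h (hP : PF G c) (e : EC G c b b' d d' α β y z h p) (hm : MA G c h h')
    (hs : s ∈ Cn G c F0 h) : s ∈ HT G c F0 h' ∨ s.1 = b ∨ s.1 = d := by
  obtain ⟨K, hK⟩ := cn_cor hs
  have hsl := hK.slot hP.nice
  rcases k_B1 hP e.h1 hs with ⟨q, q', p₀, hX⟩ | ⟨b₁, b₁', d₁, d₁', β₁, y₁, z₁, p₁, e₁, hs1⟩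
  · left
    have e1 : p₀ = h' := nice_uniq hP.nice (ma_symm hX.pp) hm
    subst e1
    refine mem_HT.2 ⟨⟨K, hK⟩, q, (mem_Qs.1 hX.q1).1, hX.qp.symm, Or.inl (mem_AtQ.2
      ⟨hsl.1, hsl.2.1, hsl.2.2, hX.q1, hX.na.adj.2.1.symm⟩)⟩
  · right
    rcases (e.Nh hP hm).mem e₁.hb with e1 | e1 | e1
    · exact (W0_not_W1 (e1 ▸ e.hB.y0) (e₁.b'W hP)).elim
    · subst e1
      obtain ⟨e4, e5⟩ := e.same hP e₁
      rw [e4, e5] at hs1
      exact hs1
    · exact (WB (e₁.b'W hP).1 (e1 ▸ MA_B hm e.h1.1)).elim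

/-- cores containing `h'` -/
theorem EC.c_h' (hP : PF G c) (e : EC G c b b' d d' α β y z h p) (hm : MA G c h h')
    (hs : s ∈ Cn G c F0 h') : s ∈ HT G c F0 h' := by
  obtain ⟨K, hK⟩ := cn_cor hs
  have hsl := hK.slot hP.nice
  have hh' : IsB1 G c h' := B1_of_MA hP.nice (ma_symm hm) (MA_B hm e.h1.1)
  rcases k_B1 hP hh' hs with ⟨q, q', p₀, hX⟩ | ⟨b₁, b₁', d₁, d₁', β₁, y₁, z₁, p₁, e₁, hs1⟩
  · exfalso
    have e1 : p₀ = h := nice_uniq hP.nice (ma_symm hX.pp) (ma_symm hm)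
    subst e1
    rcases (e.Nh hP hm).mem hX.qp.symm with e2 | e2 | e2
    · exact Q1_W0 hX.q1 (e2 ▸ e.hB.y0)
    · subst e2
      have := Q1_B0 hP.cub hP.nice hX.q1 hX.na.adj.2.1.symm hsl.2.2 e.pb.symm e.p0
      exact e.nop hP hsl.1 (this ▸ hsl.2.1)
    · exact WB (Q1_W hX.q1) (e2 ▸ hh'.1)
  · exact mem_HT.2 ⟨⟨K, hK⟩, b₁', e₁.b'W hP, e₁.hb, Or.inr ⟨b₁, d₁, e₁.bd hP, hs1⟩⟩

/-- cores containing a white neighbour of `h'` -/
theorem EC.c_x (hP : PF G c) (e : EC G c b b' d d' α β y z h p) (hm : MA G c h h') {x : V}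
    (hx : G.Adj x h') (hcx : c x = true) (hs : s ∈ Cn G c F0 x) : s ∈ HT G c F0 h' := by
  obtain ⟨K, hK⟩ := cn_cor hs
  have hsl := hK.slot hP.nice
  have hh' : IsB1 G c h' := B1_of_MA hP.nice (ma_symm hm) (MA_B hm e.h1.1)
  rcases W0_or_W1 hP.nice hcx with h0 | h1
  · obtain ⟨b₁, b₁', d₁, d₁', β₁, z₁, h₁, p₁, e₁, hs1⟩ := k_W0 hP h0 hs
    rcases (e₁.Ny hP).mem hx with e2 | e2 | e2
    · exact (B0_not_B1 (e2 ▸ hsl.2.2) hh').elim
    · refine mem_HT.2 ⟨⟨K, hK⟩, b₁', e₁.b'W hP, ?_, Or.inr ⟨b₁, d₁, e₁.bd hP, hs1⟩⟩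
      rw [e2]
      exact e₁.hb
    · exact (B0_not_B1 (e2 ▸ e₁.p0) hh').elim
  · have hx0 : x ∉ Qs G c 0 := fun h2 => Q0_noB1 hP.nice h2 hh' hx
    obtain ⟨k1, k2 | ⟨b₁, d₁, d₁', α₁, β₁, hH, hs1⟩⟩ := k_W1 hP h1 hx0 hs
    · exact mem_HT.2 ⟨⟨K, hK⟩, x, h1, hx.symm, Or.inl (mem_AtQ.2
        ⟨hsl.1, hsl.2.1, hsl.2.2, k1, k2⟩)⟩
    · exact mem_HT.2 ⟨⟨K, hK⟩, x, h1, hx.symm, Or.inr ⟨b₁, d₁, House.bd hP hH, hs1⟩⟩

/-- the killed slots -/
theorem EC.kill (hP : PF G c) (e : EC G c b b' d d' α β y z h p) (hm : MA G c h h') :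
    AL G c F0 \ AL G c (F0 ∪ {b, α, y, h}) ⊆ Cov G c F0 b d d' h' := by
  intro s hs
  have h1 := killed_sub hP.nice F0 {b, α, y, h} hs
  rw [Finset.mem_biUnion] at h1
  obtain ⟨t, ht, hst⟩ := h1
  obtain ⟨K, hK, v, hv, hvt⟩ := mem_Jz.1 hst
  have hcn : s ∈ Cn G c F0 v := mem_Cn.2 ⟨K, hK, hv⟩
  have hC : ∃ K, Cor G c F0 s K := ⟨K, hK⟩
  have hbl := e.hB.toBlk.bl hP.nice
  have hh' : IsB1 G c h' := B1_of_MA hP.nice (ma_symm hm) (MA_B hm e.h1.1)
  have Ny := e.Ny hP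
  have Nh := e.Nh hP hm
  have Nb' := e.Nb' hP
  have hb0 := Q0_W e.hB.b0
  have hd0 := Q0_W e.hB.d0
  -- slots of b and d
  have fb : s.1 = b ∨ s.1 = d → s ∈ Cov G c F0 b d d' h' := cov_bd hC
  have gb : v = b → s ∈ Cov G c F0 b d d' h' := fun e1 => fb (e.c_b hP (e1 ▸ hcn))
  have gd : v = d → s ∈ Cov G c F0 b d d' h' := fun e1 => fb (e.c_d hP (e1 ▸ hcn))
  have gα : v = α → s ∈ Cov G c F0 b d d' h' := fun e1 => fb (e.c_α hP (e1 ▸ hcn))
  have gβ : v = β → s ∈ Cov G c F0 b d d' h' := fun e1 => fb (e.c_β hP (e1 ▸ hcn))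
  have gy : v = y → s ∈ Cov G c F0 b d d' h' := fun e1 => fb (e.c_y hP (e1 ▸ hcn))
  have gz : v = z → s ∈ Cov G c F0 b d d' h' := fun e1 => fb (e.c_z hP (e1 ▸ hcn))
  have gp : v = p → s ∈ Cov G c F0 b d d' h' := fun e1 => (e.c_p hP (e1 ▸ hcn)).elim
  have gb' : v = b' → s ∈ Cov G c F0 b d d' h' := fun e1 => (e.c_b' hP (e1 ▸ hcn)).elim
  have gh : v = h → s ∈ Cov G c F0 b d d' h' := by
    intro e1
    rcases e.c_h hP hm (e1 ▸ hcn) with h2 | h2
    · exact cov_H h2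
    · exact fb h2
  rcases e.zn hP.nice hP hm ht with e1 | e1 | e1 | e1 | e1 | e1 | e1 | e1 | e1 | e1
  · rcases hvt with h2 | ⟨h2, h3⟩
    · exact gb (h2.trans e1)
    · rw [e1] at h2 h3
      rcases e.hB.nb.mem' h2 with e2 | e2 | e2
      · exact gb' e2
      · exact gα e2
      · exact gβ e2
  · rcases hvt with h2 | ⟨h2, h3⟩
    · exact gb' (h2.trans e1)
    · rw [e1] at h2 h3
      rcases Nb'.mem' h2 with e2 | e2 | e2
      · exact gb e2
      · exact gh e2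
      · exact gp e2
  · rcases hvt with h2 | ⟨h2, h3⟩
    · exact gd (h2.trans e1)
    · rw [e1] at h2 h3
      rcases e.hB.nd.mem' h2 with e2 | e2 | e2
      · exact cov_D (e.c_d' hP (e2 ▸ hcn))
      · exact gα e2
      · exact gβ e2
  · rcases hvt with h2 | ⟨h2, h3⟩
    · exact cov_D (e.c_d' hP (e1 ▸ h2 ▸ hcn))
    · rw [e1] at h2 h3
      have hcv : c v = false := by
        rw [(e.d'W hP).1] at h3
        simpa using h3
      rcases e.c_g hP h2 hcv hcn with h4 | h4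
      · exact cov_D h4
      · exact fb h4
  · rcases hvt with h2 | ⟨h2, h3⟩
    · exact gα (h2.trans e1)
    · rw [e1] at h2 h3
      rcases e.hB.nα.mem' h2 with e2 | e2 | e2
      · exact gb e2
      · exact gd e2
      · exact gy e2
  · rcases hvt with h2 | ⟨h2, h3⟩
    · exact gβ (h2.trans e1)
    · rw [e1] at h2 h3
      rcases e.hB.nβ.mem' h2 with e2 | e2 | e2
      · exact gb e2
      · exact gd e2
      · exact gz e2
  · rcases hvt with h2 | ⟨h2, h3⟩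
    · exact gy (h2.trans e1)
    · rw [e1] at h2 h3
      rcases Ny.mem' h2 with e2 | e2 | e2
      · exact gα e2
      · exact gh e2
      · exact gp e2
  · rcases hvt with h2 | ⟨h2, h3⟩
    · exact gh (h2.trans e1)
    · rw [e1] at h2 h3
      rcases Nh.mem' h2 with e2 | e2 | e2
      · exact gy e2
      · exact gb' e2
      · exact cov_H (e.c_h' hP hm (e2 ▸ hcn))
  · rcases hvt with h2 | ⟨h2, h3⟩
    · exact gp (h2.trans e1)
    · rw [e1] at h2 h3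
      exact fb (e.c_t hP h2 hcn)
  · rcases hvt with h2 | ⟨h2, h3⟩
    · exact cov_H (e.c_h' hP hm (e1 ▸ h2 ▸ hcn))
    · rw [e1] at h2 h3
      have hcv : c v = true := by
        rw [hh'.1] at h3
        simpa using h3
      exact cov_H (e.c_x hP hm h2 hcv hcn)

end Kill

end PkS0h

open PkS0h

theorem stmt_S0 : Stmt_S0 := by
  intro V _ G c hP F0 r hr hex
  obtain ⟨w, a, K, hK, hZ⟩ := hex
  have hG := hP.h3 0 w a K hK (by norm_num)
  cases hK with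
  | ex1 b b' d d' α β y z h p w hB k1 k2 k3 k4 k5 k6 k7 k8 hw =>
    have e : EC G c b b' d d' a β y z h p := ⟨hB, k1, k2, k3, k4, k5, k6, k7, k8⟩
    obtain ⟨h', hm⟩ := md1_ex k3.2
    refine ⟨{b, a, y, h}, 1, 1, le_refl 1, hr, hZ, ?_, ?_, Or.inr ?_⟩
    · have : ((-2 * (((1 : ℕ) : ℤ) - ((1 : ℕ) : ℤ)), ((1 : ℕ) : ℤ), 0) : ℤ × ℤ × ℤ) = (0, 1, 0) := by
        norm_num
      rw [this]
      exact hG
    · have := e.blk hP
      omega
    · have c0 := Finset.card_le_card (e.kill hP hm (F0 := F0))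
      unfold Cov at c0
      have c1 := Finset.card_union_le (HS G c F0 b ∪ HS G c F0 d) (DS G c d' ∪ HT G c F0 h')
      have c2 := Finset.card_union_le (HS G c F0 b) (HS G c F0 d)
      have c3 := Finset.card_union_le (DS G c d') (HT G c F0 h')
      have d1 := HS_card hP (F0 := F0) b
      have d2 := HS_card hP (F0 := F0) d
      have d3 := DS_card hP (e.d'W hP) k2
      have hh' : IsB1 G c h' := B1_of_MA hP.nice (ma_symm hm) (MA_B hm k3.1)
      have d4 := HT_card hP (F0 := F0) hh'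
      omega

end

end Pool.Agent.Work.MP_1e13ac_W
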