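import Pool.Agent.Work.MP_1e13ac_W.PkS3c

/-!
# MP_1e13ac_co, World 2: stage 1 (end units of houses) (helper87)
-/

set_option autoImplicit false
set_option linter.unusedSectionVars false

namespace Pool.Agent.Work.MP_1e13ac_W

open Classical Finset Pool.Agent.Work.MP_1e13ac_Bis

noncomputable section

variable {V : Type} [Fintype V] {G : SimpleGraph V} {c : V → Bool} {F0 : Finset V}

/-- the zone of the end unit of a house -/
theorem zone_H (h : PF G c) {b b' d d' α β : V} (hH : House G c b b' d d' α β)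
    (hd' : d' ∈ Qs G c 0) {x : V} (hx : x ∈ Zn G c (insert d' {b, α})) :
    x = b ∨ x = b' ∨ x = d ∨ x = d' ∨ (IsB0 G c x ∧ (G.Adj d x ∨ G.Adj d' x)) := by
  have htw := hH.1.tw.2.2.2.2
  rw [Zn_ins, Zn_ins, Finset.mem_union, Finset.mem_union] at hx
  rcases hx with hx | hx | hx
  · rcases Q0_zone h.nice hd' hx with e | e | ⟨e1, e2⟩
    · exact Or.inr (Or.inr (Or.inr (Or.inl e)))
    · exact Or.inr (Or.inr (Or.inl (nice_uniq h.nice e (ma_symm hH.1.md))))
    · exact Or.inr (Or.inr (Or.inr (Or.inr ⟨e2, Or.inr e1⟩)))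
  · rcases Q0_zone h.nice hH.1.b0 hx with e | e | ⟨e1, e2⟩
    · exact Or.inl e
    · exact Or.inr (Or.inl (nice_uniq h.nice e hH.1.mb))
    · exact Or.inr (Or.inr (Or.inr (Or.inr ⟨e2, Or.inl ((htw x e2.1).1 e1)⟩)))
  · have hα := (hH.1.bl h.nice).1
    rcases B0_zone hα hx with e | e | ⟨t, e1, e2⟩
    · subst e
      exact Or.inr (Or.inr (Or.inr (Or.inr ⟨hα, Or.inl hH.1.nd.adj.2.1⟩)))
    · rcases hH.2.1.mem e with e | e | e
      · exact Or.inl e
      · exact Or.inr (Or.inr (Or.inl e))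
      · exact Or.inr (Or.inl e)
    · rcases hH.2.1.mem e1 with e | e | e
      · subst e
        exact Or.inr (Or.inl (nice_uniq h.nice e2 hH.1.mb))
      · subst e
        exact Or.inr (Or.inr (Or.inr (Or.inl (nice_uniq h.nice e2 hH.1.md))))
      · subst e
        exact Or.inl (nice_uniq h.nice e2 (ma_symm hH.1.mb))

/-- the end `d'` is not adjacent to `α`, `β` -/
theorem House.disj (h : PF G c) {b b' d d' α β : V} (hH : House G c b b' d d' α β)
    (hd' : d' ∈ Qs G c 0) {x : V} (h1 : G.Adj d x) (h2 : G.Adj d' x) : False := by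
  rcases hH.1.nd.mem h1 with e | e | e
  · subst e
    exact G.irrefl h2
  · subst e
    rcases hH.2.1.mem h2.symm with e | e | e
    · subst e
      exact hH.1.na hH.1.md.1.symm
    · exact hH.1.md.1.ne e.symm
    · subst e
      exact Q0_Q1 hd' hH.2.2
  · subst e
    exact h.hs _ _ _ _ _ _ hH.1.symm.flip h2 hd'

/-- the slots killed by the end unit of a house -/
theorem kill_H (h : PF G c) (hA : NoA G c 1 F0) {b b' d d' α β : V}
    (hH : House G c b b' d d' α β) (hd' : d' ∈ Qs G c 0) :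
    AL G c F0 \ AL G c (F0 ∪ insert d' {b, α}) ⊆
      TS G c F0 d ∪ TS G c F0 d' ∪ MT G c F0 d' := by
  have hbd : TS G c F0 b = TS G c F0 d := TS_tw h hH.1.tw
  have hb'n : b' ∉ Qs G c 0 := fun hh => Q0_Q1 hh hH.2.2
  have hMT : MT G c F0 d = ∅ := by
    refine Finset.subset_empty.1 ?_
    rw [← TS_nosrc (F0 := F0) h.nice hb'n]
    exact MT_sub h hH.1.tw hH.1.mb
  intro s hs
  obtain ⟨x, hx, hsx⟩ := Finset.mem_biUnion.1 (killed_sub h.nice F0 (insert d' {b, α}) hs)
  simp only [Finset.mem_union]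
  rcases zone_H h hH hd' hx with e | e | e | e | ⟨e0, e | e⟩
  · subst e
    rcases Finset.mem_union.1 (jzQ0_sub h hA hH.1.b0 hH.1.mb hsx) with e | e
    · exact Or.inl (Or.inl (hbd ▸ e))
    · rw [TS_nosrc h.nice hb'n] at e
      exact absurd e (Finset.notMem_empty s)
  · subst e
    obtain ⟨K, hK, t, ht, htz⟩ := mem_Jz.1 hsx
    have hsl := hK.slot h.nice
    have hα := (hH.1.bl h.nice).1
    have at_α : ∀ w, w ∈ Qs G c 0 → G.Adj w α → w = b ∨ w = d := by
      intro w hw hwα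
      rcases hH.2.1.mem hwα.symm with e | e | e
      · exact Or.inl e
      · exact Or.inr e
      · exact (hb'n (e ▸ hw)).elim
    have fin : s.1 = b ∨ s.1 = d → (s ∈ TS G c F0 d ∨ s ∈ TS G c F0 d') ∨
        s ∈ MT G c F0 d' := by
      rintro (e | e)
      · exact Or.inl (Or.inl (mem_TS.2 ⟨Or.inr (e ▸ hH.1.tw), K, hK⟩))
      · exact Or.inl (Or.inl (mem_TS.2 ⟨Or.inl e, K, hK⟩))
    rcases htz with rfl | ⟨htz, hcol⟩
    · rcases cn_Q1 h.nice hA hH.2.2 (mem_Cn.2 ⟨K, hK, ht⟩) with e |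
        ⟨b₁, d₁, d₁', α₁, β₁, hh, h1, -⟩
      · have e1 : s.2 = α := Q1_B0 h.cub h.nice hH.2.2 e hsl.2.2 hH.2.1.adj.2.2.symm hα
        exact fin (at_α _ hsl.1 (e1 ▸ hsl.2.1))
      · have e1 : b = b₁ := nice_uniq h.nice (ma_symm hH.1.mb) (ma_symm hh.1.mb)
        subst e1
        rcases h1 with e | e
        · exact fin (Or.inl e)
        · exact fin (Or.inr (e.trans (hh.1.tw.uniq h hH.1.tw)))
    · have hct : c t = false := by
        rw [Q1_W hH.2.2] at hcol
        simpa using hcol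
      rcases B0_or_B1 h.nice hct with h0 | h1
      · have e1 : t = α := Q1_B0 h.cub h.nice hH.2.2 htz.symm h0 hH.2.1.adj.2.2.symm hα
        subst e1
        exact fin (at_α _ hsl.1 (cn_B0 h.nice hA h0 (mem_Cn.2 ⟨K, hK, ht⟩)).1)
      · exfalso
        obtain ⟨q, q', p0, hX, -⟩ := cn_B1 h.nice hA h1 (mem_Cn.2 ⟨K, hK, ht⟩)
        have e1 := h.f1 _ _ _ _ _ _ _ α b hX htz (mem_Qs.1 hH.2.2).1 hH.2.1.adj.2.2.symm hα
          hH.1.b0 hH.1.nb.adj.2.1
        have e2 := h.f1 _ _ _ _ _ _ _ α d hX htz (mem_Qs.1 hH.2.2).1 hH.2.1.adj.2.2.symm hα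
          hH.1.d0 hH.1.nd.adj.2.1
        exact hH.1.ne (e1.trans e2.symm)
  · subst e
    rcases Finset.mem_union.1 (jzQ0_sub h hA hH.1.d0 hH.1.md hsx) with e | e
    · exact Or.inl (Or.inl e)
    · exact Or.inl (Or.inr e)
  · subst e
    rcases Finset.mem_union.1 (jzQ0_sub h hA hd' (ma_symm hH.1.md) hsx) with e | e
    · exact Or.inl (Or.inr e)
    · exact Or.inl (Or.inl e)
  · have := jzB0_sub h hA hH.1.d0 hH.1.md e e0 (fun hh => hH.disj h hd' e hh) hsx
    rw [Finset.mem_union, Finset.mem_union] at this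
    rcases this with (e | e) | e
    · exact Or.inl (Or.inl e)
    · exact Or.inl (Or.inr e)
    · rw [hMT] at e
      exact absurd e (Finset.notMem_empty s)
  · have := jzB0_sub h hA hd' (ma_symm hH.1.md) e e0 (fun hh => hH.disj h hd' hh e) hsx
    rw [Finset.mem_union, Finset.mem_union] at this
    rcases this with (e | e) | e
    · exact Or.inl (Or.inr e)
    · exact Or.inl (Or.inl e)
    · exact Or.inr e

/-- the sources blocked by the end unit of a house -/
theorem blk_H (h : PF G c) {b b' d d' α β : V} (hH : House G c b b' d d' α β)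
    (hd' : d' ∈ Qs G c 0) : blk G c (insert d' {b, α}) ≤ 4 := by
  obtain ⟨t, ht⟩ := tw_ex h d'
  refine (blk_le (S := {t, b, d, d'}) ?_).trans Finset.card_le_four
  intro s hs hbl
  simp only [Finset.mem_insert, Finset.mem_singleton]
  have hcd := Q0_W hH.1.d0
  rcases blk_mem h hs hbl with h1 | ⟨x, h1, h2, h3⟩
  · rcases zone_H h hH hd' h1 with e | e | e | e | ⟨e0, -⟩
    · exact Or.inr (Or.inl e)
    · exact (Q0_Q1 hs (e ▸ hH.2.2)).elim
    · exact Or.inr (Or.inr (Or.inl e))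
    · exact Or.inr (Or.inr (Or.inr e))
    · exact (WB (Q0_W hs) e0.1).elim
  · rcases zone_H h hH hd' h1 with e | e | e | e | ⟨e0, e | e⟩
    · exact (WB (e ▸ Q0_W hH.1.b0) h2.1).elim
    · exact (WB (e ▸ Q1_W hH.2.2) h2.1).elim
    · exact (WB (e ▸ hcd) h2.1).elim
    · exact (WB (e ▸ Q0_W hd') h2.1).elim
    · rcases src_at h hH.1.d0 hH.1.md hs e h3 with e | e | e
      · exact Or.inr (Or.inr (Or.inl e))
      · exact Or.inr (Or.inr (Or.inr e))
      · exact Or.inr (Or.inl (e.symm.uniq h hH.1.tw.symm))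
    · rcases src_at h hd' (ma_symm hH.1.md) hs e h3 with e | e | e
      · exact Or.inr (Or.inr (Or.inr e))
      · exact Or.inr (Or.inr (Or.inl e))
      · exact Or.inl (ht s e)

end

/-- stage 1: houses with an end unit -/
theorem stmt_S1 : Stmt_S1 := by
  intro V _ G c h F0 r hr hA hE
  unfold NoE at hE
  push Not at hE
  obtain ⟨w, a, H, τ, e, hK, hz, he, hze⟩ := hE
  cases hK with
  | hs b b' d d' α β w a hB hN hb' hw ha =>
    have hg := h.eu _ _ _ _ _ _ (CrB.hs b τ d e α β w a hB hN hb' hw ha) he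
    have hH : House G c b τ d e α β := ⟨hB, hN, hb'⟩
    refine ⟨insert e {b, α}, 1, 0, le_refl 1, hr, ZD_ins.2 ⟨hze, (ZD_ins.1 hz).2⟩, ?_, ?_,
      Or.inr ?_⟩
    · have e1 : ((-2 * (((1 : ℕ) : ℤ) - ((0 : ℕ) : ℤ)), ((0 : ℕ) : ℤ), (0 : ℤ)) : ℤ × ℤ × ℤ) =
          (-2, 0, 0) := by norm_num
      rw [e1]
      exact hg
    · have := blk_H h hH he
      omega
    · have h1 := Finset.card_le_card (kill_H h hA hH he)
      have h2 := Finset.card_union_le (TS G c F0 d ∪ TS G c F0 e) (MT G c F0 e)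
      have h3 := Finset.card_union_le (TS G c F0 d) (TS G c F0 e)
      have h4 := TS_card h (F0 := F0) d
      have h5 := TS_card h (F0 := F0) e
      have h6 := MT_card h (F0 := F0) e
      omega

end Pool.Agent.Work.MP_1e13ac_W
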