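import Pool.Agent.Work.MP_1e13ac_W.PkBase

/-!
# MP_1e13ac_co, full statement, level `k ≥ 2`: stages 2 and 4 (helper15)
-/

set_option autoImplicit false
set_option linter.unusedSectionVars false

namespace Pool.Agent.Work.MP_1e13ac_W

open Classical Finset Pool.Agent.Work.MP_1e13ac_Bis

noncomputable section

variable {V : Type} [Fintype V] {G : SimpleGraph V} {c : V → Bool}

namespace PkS24

/-- the common part of the types D0 and E -/
structure DE (G : SimpleGraph V) (c : V → Bool) (w w' a b x y : V) : Prop where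
  w0 : w ∈ Qs G c 0
  mw : MA G c w w'
  nw : N3 G w w' a b
  a0 : IsB0 G c a
  b0 : IsB0 G c b
  na : N3 G a w x y
  hx : IsW0 G c x ∨ x = w'
  hy : IsW0 G c y

variable {w w' a b x y : V}

theorem DE.cw' (h : DE G c w w' a b x y) : c w' = true := MA_W h.mw (Q0_W h.w0)

/-- the zone of `{w, a}` -/
theorem DE.zn (hc : Nice G c) (h : DE G c w w' a b x y) {z : V} (hz : z ∈ Zn G c {w, a}) :
    z = w ∨ z = w' ∨ z = a ∨ z = b ∨ z = x ∨ z = y := by
  have key : ∀ t, t ∈ NF G ({w, a} : Finset V) →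
      t = w ∨ t = w' ∨ t = a ∨ t = b ∨ t = x ∨ t = y := by
    intro t ht
    rcases mem_NF.1 ht with h1 | ⟨f, hf, h1⟩
    · rw [Finset.mem_insert, Finset.mem_singleton] at h1
      rcases h1 with h1 | h1
      · exact Or.inl h1
      · exact Or.inr (Or.inr (Or.inl h1))
    · rw [Finset.mem_insert, Finset.mem_singleton] at hf
      rcases hf with rfl | rfl
      · rcases h.nw.mem h1 with e | e | e
        · exact Or.inr (Or.inl e)
        · exact Or.inr (Or.inr (Or.inl e))
        · exact Or.inr (Or.inr (Or.inr (Or.inl e)))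
      · rcases h.na.mem h1 with e | e | e
        · exact Or.inl e
        · exact Or.inr (Or.inr (Or.inr (Or.inr (Or.inl e))))
        · exact Or.inr (Or.inr (Or.inr (Or.inr (Or.inr e))))
  rcases mem_Zn.1 hz with h1 | ⟨t, ht, hm⟩
  · exact key z h1
  · have hw' : ∀ u, MA G c w' u → u = w := fun u hu => nice_uniq hc hu (ma_symm h.mw)
    rcases key t ht with rfl | rfl | rfl | rfl | rfl | rfl
    · exact Or.inr (Or.inl (nice_uniq hc hm h.mw))
    · exact Or.inl (hw' _ hm)
    · exact (md0_no h.a0.2 hm).elim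
    · exact (md0_no h.b0.2 hm).elim
    · rcases h.hx with h2 | h2
      · exact (md0_no h2.2 hm).elim
      · exact Or.inl (hw' _ (h2 ▸ hm))
    · exact (md0_no h.hy.2 hm).elim

/-- sources at `a` -/
theorem DE.srca (h : DE G c w w' a b x y) {s : V} (hs : s ∈ Qs G c 0) (hsa : G.Adj s a) :
    s = w ∨ s = w' := by
  rcases h.na.mem' hsa with e | e | e
  · exact Or.inl e
  · rcases h.hx with h2 | h2
    · exact (Q0_W0 (e ▸ hs) h2).elim
    · exact Or.inr (e.trans h2)
  · exact (Q0_W0 (e ▸ hs) h.hy).elim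

theorem DE.noTw (h : DE G c w w' a b x y) {d : V} : ¬ Tw G c w d := by
  intro ht
  have hda : G.Adj d a := (ht.2.2.2.2 a h.a0.1).1 h.nw.adj.2.1
  rcases h.srca ht.2.1 hda with e | e
  · exact ht.2.2.1 e.symm
  · exact ht.2.2.2.1 (e ▸ h.mw.1)

/-- sources at `a` or `b` -/
theorem DE.src (hP : PF G c) (h : DE G c w w' a b x y) {s : V} (hs : s ∈ Qs G c 0)
    (hsz : G.Adj s a ∨ G.Adj s b) : s = w ∨ s = w' := by
  rcases hsz with h1 | h1
  · exact h.srca hs h1
  · rcases hP.src hs h.w0 h1 h.nw.adj.2.2 with e | e | e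
    · exact Or.inl e
    · exact Or.inr (nice_uniq hP.nice (x := w) ⟨e.symm, by rw [Q0_W hs, Q0_W h.w0]⟩ h.mw)
    · exact (h.noTw e.symm).elim

theorem DE.blk (hP : PF G c) (h : DE G c w w' a b x y) : blk G c {w, a} ≤ 2 := by
  refine (blk_le (S := {w, w'}) ?_).trans Finset.card_le_two
  intro s hs hz
  rw [Finset.mem_insert, Finset.mem_singleton]
  have hW := Q0_W hs
  rcases blk_mem hP hs hz with h1 | ⟨z, h1, h2, h3⟩
  · rcases h.zn hP.nice h1 with e | e | e | e | e | e
    · exact Or.inl e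
    · exact Or.inr e
    · exact (WB hW (e ▸ h.a0.1)).elim
    · exact (WB hW (e ▸ h.b0.1)).elim
    · rcases h.hx with h2 | h2
      · exact (Q0_W0 (e ▸ hs) h2).elim
      · exact Or.inr (e.trans h2)
    · exact (Q0_W0 (e ▸ hs) h.hy).elim
  · rcases h.zn hP.nice h1 with e | e | e | e | e | e
    · exact (WB (Q0_W h.w0) (e ▸ h2.1)).elim
    · exact (WB h.cw' (e ▸ h2.1)).elim
    · exact h.src hP hs (Or.inl (e ▸ h3))
    · exact h.src hP hs (Or.inr (e ▸ h3))
    · rcases h.hx with h4 | h4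
      · exact (WB h4.1 (e ▸ h2.1)).elim
      · exact (WB h.cw' (h4 ▸ e ▸ h2.1)).elim
    · exact (WB h.hy.1 (e ▸ h2.1)).elim

theorem DE.noH (hP : PF G c) (h : DE G c w w' a b x y) : NoH G c w' := by
  intro u d d' α β hH
  have e : u = w := nice_uniq hP.nice (ma_symm hH.1.mb) (ma_symm h.mw)
  exact h.noTw (e ▸ hH.1.tw)

/-- the slots of a set with `s.1 ∈ {w, w'}` -/
theorem mem_HS_of {F0 : Finset V} {s : V × V} {K : Finset V} (hK : Cor G c F0 s K) {u : V}
    (e : s.1 = u) : s ∈ HS G c F0 u := mem_HS.2 ⟨e, K, hK⟩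

theorem Jz_cor {F0 : Finset V} {z : V} {s : V × V} (hs : s ∈ Jz G c F0 z) :
    ∃ K, Cor G c F0 s K := by
  obtain ⟨K, hK, -⟩ := mem_Jz.1 hs
  exact ⟨K, hK⟩

/-- the kill sets of `w`, `a`, `b`, if no block core has `w` or `w'` as an option -/
theorem DE.kill1 (hP : PF G c) (h : DE G c w w' a b x y) {F0 : Finset V} (hA : NoA G c 1 F0)
    (hO : ∀ s u, u = w ∨ u = w' → ¬ OptB G c F0 s u) {z : V} (hz : z = w ∨ z = a ∨ z = b)
    {s : V × V} (hs : s ∈ Jz G c F0 z) : s ∈ HS G c F0 w ∪ HS G c F0 w' := by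
  obtain ⟨K, hK⟩ := Jz_cor hs
  have hs0 := (hK.slot hP.nice).1
  have fin : s.1 = w ∨ s.1 = w' → s ∈ HS G c F0 w ∪ HS G c F0 w' := by
    rintro (e | e)
    · exact Finset.mem_union_left _ (mem_HS_of hK e)
    · exact Finset.mem_union_right _ (mem_HS_of hK e)
  have opt : ∀ u, OptB G c F0 s u → (G.Adj u a ∨ G.Adj u b) → False := by
    intro u hu hadj
    have hu0 : u ∈ Qs G c 0 := by
      obtain ⟨_, _, _, _, _, _, _, _, _, hu0, _⟩ := hu
      exact hu0
    exact hO s u (h.src hP hu0 hadj) hu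
  rcases hz with rfl | rfl | rfl
  · rcases jz_Q0 hP hA h.w0 hs with e | e | e | e
    · exact fin (Or.inl e)
    · exact fin (Or.inr (nice_uniq hP.nice (x := z) ⟨e.symm, by rw [Q0_W hs0, Q0_W h.w0]⟩ h.mw))
    · exact (h.noTw e.symm).elim
    · exact (hO s z (Or.inl rfl) e).elim
  · rcases jz_B0 hP hA h.a0 hs with e | ⟨u, h1, h2⟩
    · exact fin (h.src hP hs0 (Or.inl e))
    · exact (opt u h1 (Or.inl h2)).elim
  · rcases jz_B0 hP hA h.b0 hs with e | ⟨u, h1, h2⟩
    · exact fin (h.src hP hs0 (Or.inr e))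
    · exact (opt u h1 (Or.inr h2)).elim

/-- cores at the black neighbours of a vertex in `W0` -/
theorem cn_card2 (hP : PF G c) {F0 : Finset V} (hA : NoA G c 1 F0) {p z : V}
    (hz : IsW0 G c z) (hpz : G.Adj z p) : (Cn G c F0 p).card ≤ 2 := by
  rcases B0_or_B1 hP.nice (B_of_W hpz hz) with h1 | h1
  · obtain ⟨t₁, t₂, hN⟩ := N3_of1 hP.cub hpz.symm
    have hsub : Cn G c F0 p ⊆ {(t₁, p), (t₂, p)} := by
      intro s hs
      obtain ⟨h3, h4⟩ := cn_B0 hP.nice hA h1 hs
      obtain ⟨K, hK, -⟩ := mem_Cn.1 hs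
      have hs0 := (hK.slot hP.nice).1
      have hsp : s.2 = p := by
        rcases h4 with e | ⟨b, b', d, d', β, hH, -⟩
        · exact e
        · exfalso
          rcases hH.2.1.mem hpz.symm with e | e | e
          · exact Q0_W0 (e ▸ hH.1.b0) hz
          · exact Q0_W0 (e ▸ hH.1.d0) hz
          · exact Q1_W0 (e ▸ hH.2.2) hz
      rw [Finset.mem_insert, Finset.mem_singleton]
      rcases hN.mem' h3 with e | e | e
      · exact (Q0_W0 (e ▸ hs0) hz).elim
      · exact Or.inl (Prod.ext e hsp)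
      · exact Or.inr (Prod.ext e hsp)
    exact (Finset.card_le_card hsub).trans Finset.card_le_two
  · exact (cn_B1_card hP hA h1).trans (by norm_num)

/-- cores containing `a` -/
theorem DE.cna (hP : PF G c) (h : DE G c w w' a b x y) {F0 : Finset V} (hA : NoA G c 1 F0)
    {s : V × V} (hs : s ∈ Cn G c F0 a) : s ∈ HS G c F0 w ∪ HS G c F0 w' := by
  obtain ⟨h3, -⟩ := cn_B0 hP.nice hA h.a0 hs
  obtain ⟨K, hK, -⟩ := mem_Cn.1 hs
  have hs0 := (hK.slot hP.nice).1
  rcases h.srca hs0 h3 with e | e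
  · exact Finset.mem_union_left _ (mem_HS_of hK e)
  · exact Finset.mem_union_right _ (mem_HS_of hK e)

/-- the kill set of a white neighbour in `W0` of `a` -/
theorem DE.killW (hP : PF G c) (h : DE G c w w' a b x y) {F0 : Finset V} (hA : NoA G c 1 F0)
    {z : V} (hz : IsW0 G c z) (hza : G.Adj z a) : ∃ p₁ p₂, G.Adj z p₁ ∧ G.Adj z p₂ ∧
      ∀ s ∈ Jz G c F0 z, s ∈ (HS G c F0 w ∪ HS G c F0 w') ∪ (Cn G c F0 p₁ ∪ Cn G c F0 p₂) := by
  obtain ⟨p₁, p₂, hN⟩ := N3_of1 hP.cub hza
  refine ⟨p₁, p₂, hN.adj.2.1, hN.adj.2.2, ?_⟩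
  intro s hs
  have h1 := jz_W0_sub hP hA hz hN hs
  rw [Finset.mem_union, Finset.mem_union] at h1
  rcases h1 with (h1 | h1) | h1
  · exact Finset.mem_union_left _ (h.cna hP hA h1)
  · exact Finset.mem_union_right _ (Finset.mem_union_left _ h1)
  · exact Finset.mem_union_right _ (Finset.mem_union_right _ h1)

/-- the kill set of `w'` -/
theorem DE.kill2 (hP : PF G c) (h : DE G c w w' a b x y) {F0 : Finset V} (hA : NoA G c 1 F0)
    (hO : ∀ s u, u = w ∨ u = w' → ¬ OptB G c F0 s u) : ∃ X : Finset (V × V), X.card ≤ 2 ∧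
      ∀ s ∈ Jz G c F0 w', s ∈ (HS G c F0 w ∪ HS G c F0 w') ∪ X := by
  by_cases hw' : w' ∈ Qs G c 0
  · have key : ∀ t, Tw G c t w' → ∀ s ∈ Jz G c F0 w',
        s ∈ (HS G c F0 w ∪ HS G c F0 w') ∪ HS G c F0 t := by
      intro t ht s hs
      obtain ⟨K, hK⟩ := Jz_cor hs
      have hs0 := (hK.slot hP.nice).1
      rcases jz_Q0 hP hA hw' hs with e | e | e | e
      · exact Finset.mem_union_left _ (Finset.mem_union_right _ (mem_HS_of hK e))
      · refine Finset.mem_union_left _ (Finset.mem_union_left _ (mem_HS_of hK ?_))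
        exact nice_uniq hP.nice (x := w') ⟨e.symm, by rw [Q0_W hs0, Q0_W hw']⟩ (ma_symm h.mw)
      · exact Finset.mem_union_right _ (mem_HS_of hK (e.symm.uniq hP ht.symm))
      · exact (hO s w' (Or.inr rfl) e).elim
    by_cases hex : ∃ t, Tw G c t w'
    · obtain ⟨t, ht⟩ := hex
      exact ⟨HS G c F0 t, HS_card hP t, key t ht⟩
    · refine ⟨∅, by simp, ?_⟩
      intro s hs
      obtain ⟨K, hK⟩ := Jz_cor hs
      have hs0 := (hK.slot hP.nice).1
      rcases jz_Q0 hP hA hw' hs with e | e | e | e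
      · exact Finset.mem_union_left _ (Finset.mem_union_right _ (mem_HS_of hK e))
      · refine Finset.mem_union_left _ (Finset.mem_union_left _ (mem_HS_of hK ?_))
        exact nice_uniq hP.nice (x := w') ⟨e.symm, by rw [Q0_W hs0, Q0_W hw']⟩ (ma_symm h.mw)
      · exact (hex ⟨_, e⟩).elim
      · exact (hO s w' (Or.inr rfl) e).elim
  · refine ⟨Jz G c F0 w', ?_, fun s hs => Finset.mem_union_right _ hs⟩
    exact jz_W1_card hP hA (W1_of_MA hP.nice (ma_symm h.mw) h.cw') hw' (h.noH hP)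

/-- from a source and its core to `DE` -/
theorem mkDE (hP : PF G c) {w w' a x y : V} (hw : w ∈ Qs G c 0) (hm : MA G c w w')
    (hN : N3 G a w x y) (hx : IsW0 G c x ∨ x = w') (hy : IsW0 G c y) :
    ∃ b, DE G c w w' a b x y := by
  have ha : c a = false := B_of_W hN.adj.2.2.symm hy
  obtain ⟨ha0, b, hb, hb0⟩ := Q0_N3' hP.cub hP.nice hw hm hN.adj.1.symm ha
  exact ⟨b, hw, hm, hb, ha0, hb0, hN, hx, hy⟩


end PkS24

open PkS24

theorem stmt_S4 : Stmt_S4 := by
  intro V _ G c hP F0 r hr hA _ hex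
  obtain ⟨w, a, K, hK, hZ⟩ := hex
  have hG := hP.h3 3 w a K hK (by norm_num)
  have hA1 : NoA G c 1 F0 := fun m w a K h1 h2 => le_trans (by norm_num) (hA m w a K h1 h2)
  cases hK with
  | e _ _ x y hw hN hx hy =>
    obtain ⟨w', hm⟩ := mate_ex (mem_Qs.1 hw).1
    obtain ⟨b, h⟩ := mkDE hP hw hm hN (Or.inl hx) hy
    refine ⟨{w, a}, 1, 1, le_refl 1, hr, hZ, ?_, ?_, Or.inr ?_⟩
    · have : ((-2 * (((1 : ℕ) : ℤ) - ((1 : ℕ) : ℤ)), ((1 : ℕ) : ℤ), 0) : ℤ × ℤ × ℤ) = (0, 1, 0) := by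
        norm_num
      rw [this]
      exact hG
    · have := h.blk hP
      omega
    · have hO : ∀ s u, u = w ∨ u = w' → ¬ OptB G c F0 s u := fun s u _ => no_OptB hA
      obtain ⟨X, hX, hX'⟩ := h.kill2 hP hA1 hO
      obtain ⟨p₁, p₂, k1, k2, k3⟩ := h.killW hP hA1 hx hN.adj.2.1.symm
      obtain ⟨p₃, p₄, k4, k5, k6⟩ := h.killW hP hA1 hy hN.adj.2.2.symm
      have hsub : AL G c F0 \ AL G c (F0 ∪ {w, a}) ⊆
          (((HS G c F0 w ∪ HS G c F0 w') ∪ X) ∪ (Cn G c F0 p₁ ∪ Cn G c F0 p₂)) ∪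
            (Cn G c F0 p₃ ∪ Cn G c F0 p₄) := by
        intro s hs
        have h1 := killed_sub hP.nice F0 {w, a} hs
        rw [Finset.mem_biUnion] at h1
        obtain ⟨z, hz, hsz⟩ := h1
        have fU : s ∈ HS G c F0 w ∪ HS G c F0 w' → s ∈ (((HS G c F0 w ∪ HS G c F0 w') ∪ X) ∪
            (Cn G c F0 p₁ ∪ Cn G c F0 p₂)) ∪ (Cn G c F0 p₃ ∪ Cn G c F0 p₄) := fun h2 =>
          Finset.mem_union_left _ (Finset.mem_union_left _ (Finset.mem_union_left _ h2))
        rcases h.zn hP.nice hz with e | e | e | e | e | e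
        · exact fU (h.kill1 hP hA1 hO (Or.inl e) hsz)
        · rw [e] at hsz
          exact Finset.mem_union_left _ (Finset.mem_union_left _ (hX' s hsz))
        · exact fU (h.kill1 hP hA1 hO (Or.inr (Or.inl e)) hsz)
        · exact fU (h.kill1 hP hA1 hO (Or.inr (Or.inr e)) hsz)
        · rw [e] at hsz
          rcases Finset.mem_union.1 (k3 s hsz) with h2 | h2
          · exact fU h2
          · exact Finset.mem_union_left _ (Finset.mem_union_right _ h2)
        · rw [e] at hsz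
          rcases Finset.mem_union.1 (k6 s hsz) with h2 | h2
          · exact fU h2
          · exact Finset.mem_union_right _ h2
      have c0 := Finset.card_le_card hsub
      have c1 := Finset.card_union_le (((HS G c F0 w ∪ HS G c F0 w') ∪ X) ∪
        (Cn G c F0 p₁ ∪ Cn G c F0 p₂)) (Cn G c F0 p₃ ∪ Cn G c F0 p₄)
      have c2 := Finset.card_union_le ((HS G c F0 w ∪ HS G c F0 w') ∪ X)
        (Cn G c F0 p₁ ∪ Cn G c F0 p₂)
      have c3 := Finset.card_union_le (HS G c F0 w ∪ HS G c F0 w') X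
      have c4 := Finset.card_union_le (HS G c F0 w) (HS G c F0 w')
      have c5 := Finset.card_union_le (Cn G c F0 p₁) (Cn G c F0 p₂)
      have c6 := Finset.card_union_le (Cn G c F0 p₃) (Cn G c F0 p₄)
      have d1 := HS_card hP (F0 := F0) w
      have d2 := HS_card hP (F0 := F0) w'
      have e1 := cn_W0_card' hP hA hx k1
      have e2 := cn_W0_card' hP hA hx k2
      have e3 := cn_W0_card' hP hA hy k4
      have e4 := cn_W0_card' hP hA hy k5
      omega

theorem stmt_S2 : Stmt_S2 := by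
  intro V _ G c hP F0 r hr hA _ hex
  obtain ⟨w, a, K, hK, hZ⟩ := hex
  have hG := hP.h3 1 w a K hK (by norm_num)
  cases hK with
  | d0 _ w' _ y hw hm hN hy =>
    have hca : c a = false := B_of_W hN.adj.2.2.symm hy
    obtain ⟨b, h⟩ := mkDE hP hw hm hN (Or.inr rfl) hy
    refine ⟨{w, a}, 1, 1, le_refl 1, hr, hZ, ?_, ?_, Or.inr ?_⟩
    · have : ((-2 * (((1 : ℕ) : ℤ) - ((1 : ℕ) : ℤ)), ((1 : ℕ) : ℤ), 0) : ℤ × ℤ × ℤ) = (0, 1, 0) := by
        norm_num
      rw [this]
      exact hG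
    · have := h.blk hP
      omega
    · have hT : ∀ u d, (u = w ∨ u = w') → ¬ Tw G c u d := by
        intro u d hu ht
        have hua : G.Adj u a := by
          rcases hu with rfl | rfl
          · exact hN.adj.1.symm
          · exact hN.adj.2.1.symm
        have hda : G.Adj d a := (ht.2.2.2.2 a hca).1 hua
        have hww : G.Adj w w' := hm.1
        rcases h.srca ht.2.1 hda with e | e
        · rcases hu with hu | hu
          · exact ht.2.2.1 (hu.trans e.symm)
          · exact ht.2.2.2.1 (by rw [hu, e]; exact hww.symm)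
        · rcases hu with hu | hu
          · exact ht.2.2.2.1 (by rw [hu, e]; exact hww)
          · exact ht.2.2.1 (hu.trans e.symm)
      have hO : ∀ s u, u = w ∨ u = w' → ¬ OptB G c F0 s u := by
        rintro s u hu ⟨b1, b1', d1, d1', β, y1, z1, hB, hu1, hu0, -, -⟩
        have hmate : ∀ v, MA G c v u → v = w ∨ v = w' := by
          intro v hv
          rcases hu with rfl | rfl
          · exact Or.inr (nice_uniq hP.nice (ma_symm hv) hm)
          · exact Or.inl (nice_uniq hP.nice (ma_symm hv) (ma_symm hm))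
        rcases hu1 with rfl | rfl
        · exact hT _ _ (hmate _ hB.mb) hB.toBlk.tw
        · exact hT _ _ (hmate _ hB.md) hB.toBlk.tw.symm
      obtain ⟨X, hX, hX'⟩ := h.kill2 hP hA hO
      obtain ⟨p₁, p₂, k1, k2, k3⟩ := h.killW hP hA hy hN.adj.2.2.symm
      have hsub : AL G c F0 \ AL G c (F0 ∪ {w, a}) ⊆
          (((HS G c F0 w ∪ HS G c F0 w') ∪ X) ∪ (Cn G c F0 p₁ ∪ Cn G c F0 p₂)) := by
        intro s hs
        have h1 := killed_sub hP.nice F0 {w, a} hs
        rw [Finset.mem_biUnion] at h1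
        obtain ⟨z, hz, hsz⟩ := h1
        have fU : s ∈ HS G c F0 w ∪ HS G c F0 w' → s ∈ ((HS G c F0 w ∪ HS G c F0 w') ∪ X) ∪
            (Cn G c F0 p₁ ∪ Cn G c F0 p₂) := fun h2 =>
          Finset.mem_union_left _ (Finset.mem_union_left _ h2)
        rcases h.zn hP.nice hz with e | e | e | e | e | e
        · exact fU (h.kill1 hP hA hO (Or.inl e) hsz)
        · rw [e] at hsz
          exact Finset.mem_union_left _ (hX' s hsz)
        · exact fU (h.kill1 hP hA hO (Or.inr (Or.inl e)) hsz)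
        · exact fU (h.kill1 hP hA hO (Or.inr (Or.inr e)) hsz)
        · rw [e] at hsz
          exact Finset.mem_union_left _ (hX' s hsz)
        · rw [e] at hsz
          rcases Finset.mem_union.1 (k3 s hsz) with h2 | h2
          · exact fU h2
          · exact Finset.mem_union_right _ h2
      have c0 := Finset.card_le_card hsub
      have c2 := Finset.card_union_le ((HS G c F0 w ∪ HS G c F0 w') ∪ X)
        (Cn G c F0 p₁ ∪ Cn G c F0 p₂)
      have c3 := Finset.card_union_le (HS G c F0 w ∪ HS G c F0 w') X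
      have c4 := Finset.card_union_le (HS G c F0 w) (HS G c F0 w')
      have c5 := Finset.card_union_le (Cn G c F0 p₁) (Cn G c F0 p₂)
      have d1 := HS_card hP (F0 := F0) w
      have d2 := HS_card hP (F0 := F0) w'
      have e1 := cn_card2 hP hA hy k1
      have e2 := cn_card2 hP hA hy k2
      omega

end

end Pool.Agent.Work.MP_1e13ac_W
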