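import Pool.Agent.Work.MP_1e13ac_W.PkS3c

/-!
# MP_1e13ac_co, World 2: stage 3 (blocks), assembly (helper87)
-/

set_option autoImplicit false
set_option linter.unusedSectionVars false

namespace Pool.Agent.Work.MP_1e13ac_W

open Classical Finset Pool.Agent.Work.MP_1e13ac_Bis

noncomputable section

variable {V : Type} [Fintype V] {G : SimpleGraph V} {c : V → Bool} {F0 : Finset V}

/-- a linked pair of blocks with an available outer mate -/
theorem S3_avail (h : PF G c) (hA : NoA G c 2 F0) (hE : NoE G c 7 F0)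
    {b b' d d' α β y z t t' α₂ β₂ y₂ z₂ : V} (hB : PBlk G c b b' d d' α β y z)
    (hB₂ : PBlk G c b' b t t' α₂ β₂ y₂ z₂) (hne : d' ≠ t) (zb : ZD G c {b} F0)
    (zd : ZD G c {d} F0) (zα : ZD G c {α} F0) (zb' : ZD G c {b'} F0) (zt : ZD G c {t} F0)
    (zα₂ : ZD G c {α₂} F0) (hd' : d' ∈ Qs G c 0) (zd' : ZD G c {d'} F0) {r : ℕ} (hr : 2 ≤ r) :
    Step G c F0 r := by
  have k : ∀ {b b' d d' α β y z : V}, PBlk G c b b' d d' α β y z → y ≠ z := by
    intro b b' d d' α β y z hB e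
    subst e
    exact h.k23 _ _ _ _ _ _ y hB.toBlk hB.nα.2.1.symm hB.nα.2.2.1.symm hB.nα.adj.2.2.symm
      hB.nβ.adj.2.2.symm
  by_cases hy : y = y₂
  swap
  · exact step_DD h hA hB hB₂ hy hne hd' zb zα zd' zt zα₂ hr
  by_cases zβ : ZD G c {β} F0
  · exact step_DD h hA hB.flip hB₂ (fun e => k hB (hy.trans e.symm)) hne hd' zb zβ zd' zt zα₂ hr
  by_cases zβ₂ : ZD G c {β₂} F0
  · exact step_DD h hA hB hB₂.flip (fun e => k hB₂ (hy.symm.trans e)) hne hd' zb zα zd' zt zβ₂ hr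
  have c1 := hB.one_side h hA zβ
  have c2 := hB₂.one_side h hA zβ₂
  have c4 := MT_card h (F0 := F0) b'
  by_cases hl : ∃ t₃ s, Tw G c t₃ d' ∧ s ∈ TS G c F0 d'
  · obtain ⟨t₃, s, ht₃, hs⟩ := hl
    obtain ⟨t₃', β₃, y₃, z₃, hB₃, -, zt₃, zα₃⟩ := live_blk h hA hE hB.d0 zd hB.md hs ht₃
    by_cases hy₃ : y = y₃
    swap
    · refine step_DD h hA hB.symm hB₃ hy₃ ?_ hB₂.b0 zd zα zb' zt₃ zα₃ hr
      rintro rfl
      exact hne (ht₃.uniq h hB₂.toBlk.tw)
    · -- all three blocks have the outer vertex `y`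
      subst hy
      subst hy₃
      have hα₂ : α ≠ α₂ := by
        rintro rfl
        exact (hB.nadj h.nice).1 hB₂.nb.adj.2.1
      have hα₃ : α ≠ s.2 := by
        intro e
        exact (hB.nadj h.nice).2.2.1 (e ▸ hB₃.nb.adj.2.1)
      have hα₂₃ : α₂ ≠ s.2 := by
        intro e
        have h1 : G.Adj d' α₂ := e ▸ hB₃.nb.adj.2.1
        rcases hB₂.nα.mem h1.symm with e1 | e1 | e1
        · subst e1
          exact hB.ne (nice_uniq h.nice (ma_symm hB.mb) (ma_symm hB.md))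
        · exact hne e1
        · exact Q0_W0 hd' (e1 ▸ hB.y0)
      have hN : N3 G y α α₂ s.2 := N3_of3 h.cub hB.nα.adj.2.2.symm hB₂.nα.adj.2.2.symm
        hB₃.nα.adj.2.2.symm hα₂ hα₃ hα₂₃
      have hA1 : NoA G c 1 F0 := NoA_mono (by norm_num) hA
      have j1 : Cn G c F0 α₂ ⊆ TS G c F0 b' :=
        cn_src h hA1 hB₂.b0 hB₂.mb hB₂.nb.adj.2.1 (hB₂.toBlk.bl h.nice).1 (hB₂.nadj h.nice).1
      have j2 : Cn G c F0 s.2 ⊆ TS G c F0 d' :=
        cn_src h hA1 hB₃.b0 hB₃.mb hB₃.nb.adj.2.1 (hB₃.toBlk.bl h.nice).1 (hB₃.nadj h.nice).1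
      refine step_U h hB hB₂.b0 zd zα zb' (by omega) (Or.inr ?_)
      have j3 : AL G c F0 \ AL G c (F0 ∪ {d, α, b'}) ⊆
          (TS G c F0 b ∪ TS G c F0 b' ∪ DS G c F0 d' ∪ MT G c F0 b') := by
        intro x hx
        have j4 := kill_U h hA hB hB₂.b0 hN hx
        simp only [Finset.mem_union] at j4 ⊢
        rcases j4 with j4 | j4 | j4
        · exact j4
        · exact Or.inl (Or.inl (Or.inr (j1 j4)))
        · exact Or.inl (Or.inr (TS_sub_DS h.nice _ (j2 j4)))
      have j5 := Finset.card_le_card j3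
      have j6 := Finset.card_union_le (TS G c F0 b ∪ TS G c F0 b' ∪ DS G c F0 d') (MT G c F0 b')
      have j7 := Finset.card_union_le (TS G c F0 b ∪ TS G c F0 b') (DS G c F0 d')
      have j8 := Finset.card_union_le (TS G c F0 b) (TS G c F0 b')
      have j9 := DS_card4 (F0 := F0) h hd'
      omega
  · -- `d'` is in no live block
    have c3 : (DS G c F0 d').card ≤ 2 := by
      unfold DS
      rw [if_pos hd']
      by_cases ht : ∃ t₃, Tw G c t₃ d'
      · obtain ⟨t₃, ht₃⟩ := ht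
        have : TS G c F0 d' = ∅ := by
          rw [Finset.eq_empty_iff_forall_notMem]
          intro s hs
          exact hl ⟨t₃, s, ht₃, hs⟩
        rw [this]
        simp
      · exact TS_card2 h fun t ht' => ht ⟨t, ht'⟩
    refine step_U h hB hB₂.b0 zd zα zb' (by omega) (Or.inr ?_)
    have := kill_U_card h hA hB hB₂.b0 c1 c2 c3 c4
    omega

/-- the mate `b'` is in a live block -/
theorem S3_link (h : PF G c) (hA : NoA G c 2 F0) (hE : NoE G c 7 F0)
    {b b' d d' α β y z t : V} (hB : PBlk G c b b' d d' α β y z) (zb : ZD G c {b} F0)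
    (zd : ZD G c {d} F0) (zα : ZD G c {α} F0) (zb' : ZD G c {b'} F0) (ht : Tw G c t b')
    {s : V × V} (hs : s ∈ TS G c F0 b') {r : ℕ} (hr : 1 ≤ r) : Step G c F0 r := by
  obtain ⟨t', β₂, y₂, z₂, hB₂, -, zt, zα₂⟩ := live_blk h hA hE hB.b0 zb hB.mb hs ht
  by_cases hr1 : 1 = r
  · exact step_U h hB hB₂.b0 zd zα zb' hr (Or.inl hr1)
  have hr2 : 2 ≤ r := by omega
  have c1 := TS_card h (F0 := F0) b
  have c2 := TS_card h (F0 := F0) b'
  have hA1 : NoA G c 1 F0 := NoA_mono (by norm_num) hA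
  by_cases hne : d' = t
  · -- doubly linked
    subst hne
    have hd' : d' ∈ Qs G c 0 := ht.1
    refine step_U h hB hB₂.b0 zd zα zb' hr (Or.inr ?_)
    obtain ⟨g₁, g₂, hN⟩ := N3_of1 h.cub hB.nα.adj.2.2.symm
    have e1 : DS G c F0 d' = TS G c F0 b' := by
      unfold DS
      rw [if_pos hd']
      exact TS_tw h ht
    have e2 : MT G c F0 b' ⊆ TS G c F0 b := by
      have h1 := MT_sub (F0 := F0) h ht (ma_symm hB.md)
      rw [TS_tw h hB.toBlk.tw.symm] at h1
      exact h1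
    have habs : ∀ g, G.Adj y g → g ≠ α → (Cn G c F0 g).card ≤ 1 ∨ Cn G c F0 g ⊆
        (TS G c F0 b ∪ TS G c F0 b') := by
      intro g hg hne
      rcases cn_outer h hA hB hg hne with e | ⟨e, -⟩ | ⟨e, -⟩
      · exact Or.inl e
      · exact Or.inr fun x hx => Finset.mem_union.2 (Or.inr (e hx))
      · refine Or.inr fun x hx => Finset.mem_union.2 (Or.inr ?_)
        have := e hx
        rw [TS_tw h ht] at this
        exact this
    have h5 := absorb2 (S := AL G c F0 \ AL G c (F0 ∪ {d, α, b'}))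
      (habs g₁ hN.adj.2.1 hN.1.symm) (habs g₂ hN.adj.2.2 hN.2.1.symm) (by
        intro x hx
        have j4 := kill_U h hA hB hB₂.b0 hN hx
        rw [e1] at j4
        simp only [Finset.mem_union] at j4 ⊢
        rcases j4 with (((j4 | j4) | j4) | j4) | j4
        · exact Or.inl (Or.inl j4)
        · exact Or.inl (Or.inr j4)
        · exact Or.inl (Or.inr j4)
        · exact Or.inl (Or.inl (e2 j4))
        · exact Or.inr j4)
    have h8 := Finset.card_union_le (TS G c F0 b) (TS G c F0 b')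
    omega
  by_cases a1 : d' ∈ Qs G c 0 ∧ ZD G c {d'} F0
  · exact S3_avail h hA hE hB hB₂ hne zb zd zα zb' zt zα₂ a1.1 a1.2 hr2
  by_cases a2 : t' ∈ Qs G c 0 ∧ ZD G c {t'} F0
  · refine S3_avail h hA hE hB₂ hB ?_ zb' zt zα₂ zb zd zα a2.1 a2.2 hr2
    rintro rfl
    exact hne (nice_uniq h.nice hB.md (ma_symm hB₂.md))
  -- no mate is available
  have c3 : (DS G c F0 d').card ≤ 2 := by
    by_cases hd' : d' ∈ Qs G c 0
    · unfold DS
      rw [if_pos hd']
      have : TS G c F0 d' = ∅ := by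
        rw [Finset.eq_empty_iff_forall_notMem]
        intro s hs
        exact a1 ⟨hd', TS_free h hA hE hB.d0 zd hB.md hs⟩
      rw [this]
      simp
    · exact hB.DS_card h hA1 hd'
  have c4 : (MT G c F0 b').card ≤ 0 := by
    have h1 := Finset.card_le_card (MT_sub (F0 := F0) h ht hB₂.md)
    have h2 : TS G c F0 t' = ∅ := by
      by_cases ht' : t' ∈ Qs G c 0
      · rw [Finset.eq_empty_iff_forall_notMem]
        intro s hs
        exact a2 ⟨ht', TS_free h hA hE hB₂.d0 zt hB₂.md hs⟩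
      · exact TS_nosrc h.nice ht'
    rw [h2, Finset.card_empty] at h1
    exact h1
  refine step_U h hB hB₂.b0 zd zα zb' hr (Or.inr ?_)
  have := kill_U_card h hA hB hB₂.b0 c1 c2 c3 c4
  omega

/-- stage 3 from a core with the option `b'` -/
theorem S3_core (h : PF G c) (hA : NoA G c 2 F0) (hE : NoE G c 7 F0)
    {b b' d d' α β y z : V} (hB : PBlk G c b b' d d' α β y z) (hb' : b' ∈ Qs G c 0)
    (zb : ZD G c {b} F0) (zd : ZD G c {d} F0) (zα : ZD G c {α} F0) (zb' : ZD G c {b'} F0)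
    {r : ℕ} (hr : 1 ≤ r) : Step G c F0 r := by
  have hA1 : NoA G c 1 F0 := NoA_mono (by norm_num) hA
  by_cases l1 : ∃ t s, Tw G c t b' ∧ s ∈ TS G c F0 b'
  · obtain ⟨t, s, ht, hs⟩ := l1
    exact S3_link h hA hE hB zb zd zα zb' ht hs hr
  by_cases l2 : ∃ t s, Tw G c t d' ∧ s ∈ TS G c F0 d'
  · obtain ⟨t, s, ht, hs⟩ := l2
    have zd' := TS_free h hA hE hB.d0 zd hB.md hs
    exact S3_link h hA hE hB.symm zd zb zα zd' ht hs hr
  -- unlinked
  refine step_U h hB hb' zd zα zb' hr (Or.inr ?_)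
  have c1 := TS_card h (F0 := F0) b
  have c3 : (DS G c F0 d').card ≤ 2 := by
    by_cases hd' : d' ∈ Qs G c 0
    · unfold DS
      rw [if_pos hd']
      by_cases ht : ∃ t₃, Tw G c t₃ d'
      · obtain ⟨t₃, ht₃⟩ := ht
        have : TS G c F0 d' = ∅ := by
          rw [Finset.eq_empty_iff_forall_notMem]
          intro s hs
          exact l2 ⟨t₃, s, ht₃, hs⟩
        rw [this]
        simp
      · exact TS_card2 h fun t ht' => ht ⟨t, ht'⟩
    · exact hB.DS_card h hA1 hd'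
  by_cases ht : ∃ t, Tw G c t b'
  · obtain ⟨t, ht⟩ := ht
    have c2 : (TS G c F0 b').card ≤ 0 := by
      have : TS G c F0 b' = ∅ := by
        rw [Finset.eq_empty_iff_forall_notMem]
        intro s hs
        exact l1 ⟨t, s, ht, hs⟩
      rw [this]
      simp
    have c4 := MT_card h (F0 := F0) b'
    have := kill_U_card h hA hB hb' c1 c2 c3 c4
    omega
  · have c2 : (TS G c F0 b').card ≤ 2 := TS_card2 h fun t ht' => ht ⟨t, ht'⟩
    have c4 : (MT G c F0 b').card ≤ 0 := by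
      rw [MT_none fun t ht' => ht ⟨t, ht'⟩]
      simp
    have := kill_U_card h hA hB hb' c1 c2 c3 c4
    omega

end

/-- stage 3: blocks -/
theorem stmt_S3 : Stmt_S3 := by
  intro V _ G c h F0 r hr hA hE ⟨w, a, K, hK, hz⟩
  cases hK with
  | blk b b' d d' α β y z u w hB hu hu0 hw =>
    rw [ZD_ins, ZD_ins, ZD_ins] at hz
    obtain ⟨zb, zd, zα, zu⟩ := hz
    rcases hu with rfl | rfl
    · exact S3_core h hA hE hB hu0 zb zd zα zu hr
    · exact S3_core h hA hE hB.symm hu0 zd zb zα zu hr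

end Pool.Agent.Work.MP_1e13ac_W
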