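import Pool.Agent.Work.MP_1e13ac_W.PkBase

/-!
# MP_1e13ac_co, full statement, level `k ≥ 2`: stage 5 (helper56)

M, X4, D1 whose end is an unblocked source: the unit `insert e H` kills at most 12 slots and blocks
at most 4 sources.
-/

set_option autoImplicit false
set_option linter.unusedSectionVars false

namespace Pool.Agent.Work.MP_1e13ac_W

open Classical Finset Pool.Agent.Work.MP_1e13ac_Bis

noncomputable section

variable {V : Type} [Fintype V] {G : SimpleGraph V} {c : V → Bool}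

namespace S5

theorem Zn_ind {F : Finset V} {P : V → Prop}
    (h : ∀ f ∈ F, P f ∧ ∀ z, G.Adj f z → P z ∧ ∀ t, MA G c z t → P t) :
    ∀ z ∈ Zn G c F, P z := by
  intro z hz
  rcases mem_Zn.1 hz with h1 | ⟨y, hy, h1⟩
  · rcases mem_NF.1 h1 with h2 | ⟨f, hf, h2⟩
    · exact (h z h2).1
    · exact ((h f hf).2 z h2).1
  · rcases mem_NF.1 hy with h2 | ⟨f, hf, h2⟩
    · exact ((h y h2).2 z h1.1).1
    · exact ((h f hf).2 y h2).2 z h1

/-- kill and block data of a vertex of the zone -/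
structure OK (G : SimpleGraph V) (c : V → Bool) (F0 : Finset V) (S : Finset (V × V))
    (T : Finset V) (z : V) : Prop where
  kill : Jz G c F0 z ⊆ S
  src : z ∈ Qs G c 0 → z ∈ T
  b0 : IsB0 G c z → ∀ s ∈ Qs G c 0, G.Adj s z → s ∈ T

theorem OK.mono {F0 : Finset V} {S S' : Finset (V × V)} {T T' : Finset V} {z : V}
    (h : OK G c F0 S T z) (hS : S ⊆ S') (hT : T ⊆ T') : OK G c F0 S' T' z :=
  ⟨h.kill.trans hS, fun h1 => hT (h.src h1), fun h1 s h2 h3 => hT (h.b0 h1 s h2 h3)⟩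

theorem step_of (h : PF G c) {F0 F : Finset V} {r : ℕ} (hr : 1 ≤ r) (hz : ZD G c F F0)
    (hg : Gd G c F (-2, 0, 0)) {S : Finset (V × V)} {T : Finset V} (hS : S.card ≤ 12)
    (hT : T.card ≤ 6) (hok : ∀ z ∈ Zn G c F, OK G c F0 S T z) : Step G c F0 r := by
  refine ⟨F, 1, 0, le_refl 1, hr, hz, ?_, ?_, Or.inr ?_⟩
  · have e : ((-2 * (((1 : ℕ) : ℤ) - ((0 : ℕ) : ℤ)), ((0 : ℕ) : ℤ), 0) : ℤ × ℤ × ℤ) =
        (-2, 0, 0) := by simp
    rw [e]
    exact hg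
  · have h1 : blk G c F ≤ T.card := by
      refine blk_le fun s hs hb => ?_
      rcases blk_mem h hs hb with h1 | ⟨z, h1, h2, h3⟩
      · exact (hok s h1).src hs
      · exact (hok z h1).b0 h2 s hs h3
    omega
  · have h1 : AL G c F0 \ AL G c (F0 ∪ F) ⊆ S := by
      refine (killed_sub h.nice F0 F).trans ?_
      intro s hs
      obtain ⟨z, hz1, hz2⟩ := Finset.mem_biUnion.1 hs
      exact (hok z hz1).kill hz2
    have := Finset.card_le_card h1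
    omega

theorem NoA_mono {m n : ℕ} {F0 : Finset V} (hmn : m ≤ n) (h : NoA G c n F0) : NoA G c m F0 :=
  fun k w a K h1 h2 => hmn.trans (h k w a K h1 h2)

theorem Jz_cor {F0 : Finset V} {z : V} {s : V × V} (hs : s ∈ Jz G c F0 z) :
    ∃ K, Cor G c F0 s K := by
  obtain ⟨K, hK, -⟩ := mem_Jz.1 hs
  exact ⟨K, hK⟩

theorem Cn_cor {F0 : Finset V} {z : V} {s : V × V} (hs : s ∈ Cn G c F0 z) :
    ∃ K, Cor G c F0 s K := by
  obtain ⟨K, hK, -⟩ := mem_Cn.1 hs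
  exact ⟨K, hK⟩

/-- an alive slot of a vertex with a twin is in a house -/
theorem twin_house {F0 : Finset V} (hA : NoA G c 4 F0) {t u : V} (htw : Tw G c t u) {s : V × V}
    (hs : s.1 = t) {K : Finset V} (hK : Cor G c F0 s K) (h : PF G c) :
    ∃ b b' d d' α β, House G c b b' d d' α β ∧ ((t = b ∧ u = d) ∨ (t = d ∧ u = b)) ∧
      ZD G c (insert b' {b, α}) F0 := by
  have hsl := hK.slot h.nice
  have hua : G.Adj u s.2 := (htw.2.2.2.2 s.2 hsl.2.2.1).1 (hs ▸ hsl.2.1)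
  obtain ⟨w, a⟩ := s
  simp only at hs hsl hua
  subst hs
  obtain ⟨⟨n, h1⟩ | ⟨n, H, τ, e, h1, rfl⟩, hz⟩ := hK
  · have hn := hA n _ _ K h1 hz
    cases h1 with
    | ex1 => exact absurd hn (by norm_num)
    | d0 => exact absurd hn (by norm_num)
    | blk => exact absurd hn (by norm_num)
    | e => exact absurd hn (by norm_num)
    | x3 w w' a q q' p p' r s g1 g2 g3 g4 g5 g6 =>
      exfalso
      rcases g3.mem' hua with e | e | e
      · exact htw.2.2.1 e.symm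
      · exact Q0_Q1 htw.2.1 (e ▸ g5)
      · exact Q0_Q1 htw.2.1 (e ▸ g6)
  · cases h1 with
    | m w w' a x x' y g1 g2 g3 g4 g5 g6 g7 =>
      exfalso
      rcases g3.mem' hua with e | e | e
      · exact htw.2.2.1 e.symm
      · exact Q0_Q1 htw.2.1 (e ▸ g4)
      · rcases g7 with g7 | ⟨g7, g8⟩
        · exact Q0_W0 htw.2.1 (e ▸ g7)
        · exact Q0_Q1 htw.2.1 (e ▸ g7 ▸ g8)
    | x4 w w' a q q' p p' r r' s g1 g2 g3 g4 g5 g6 =>
      exfalso
      rcases g3.mem' hua with e | e | e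
      · exact htw.2.2.1 e.symm
      · exact Q0_Q1 htw.2.1 (e ▸ g5)
      · exact Q0_Q1 htw.2.1 (e ▸ g6)
    | hs b _ d _ α β w a hB hN hb hw ha =>
      refine ⟨b, τ, d, e, α, β, ⟨hB, hN, hb⟩, ?_, hz⟩
      rcases hw with e | e
      · subst e
        exact Or.inl ⟨rfl, htw.uniq h hB.tw⟩
      · subst e
        exact Or.inr ⟨rfl, htw.uniq h hB.symm.tw⟩
    | d1 w w' a x x' g1 g2 g3 g4 g5 g6 =>
      exfalso
      rcases g4.mem' hua with e | e | e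
      · exact htw.2.2.1 e.symm
      · exact htw.2.2.2.1 (e ▸ g3.1)
      · exact Q0_Q1 htw.2.1 (e ▸ g5)

/-- the pair of a source without twin -/
theorem pairK (h : PF G c) {F0 : Finset V} (hA : NoA G c 4 F0) (hE : NoE G c 7 F0) {w w' : V}
    (hw : w ∈ Qs G c 0) (hm : MA G c w w') (hnt : ∀ t, ¬ Tw G c t w) (hz : ZD G c {w} F0) :
    ∃ S : Finset (V × V), S.card ≤ 4 ∧ HS G c F0 w ⊆ S ∧ (w' ∈ Qs G c 0 → HS G c F0 w' ⊆ S) ∧
      OK G c F0 S {w, w'} w ∧ OK G c F0 S {w, w'} w' ∧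
      ∀ v, G.Adj w v → IsB0 G c v → OK G c F0 S {w, w'} v := by
  have hA1 := NoA_mono (by norm_num : 1 ≤ 4) hA
  have hA3 := NoA_mono (by norm_num : 3 ≤ 4) hA
  have hcw := Q0_W hw
  have hcw' := MA_W hm hcw
  have hww : w ∈ ({w, w'} : Finset V) := by simp
  have hww' : w' ∈ ({w, w'} : Finset V) := by simp
  -- sources which are adjacent to w
  have hadj : ∀ s ∈ Qs G c 0, G.Adj s w → s = w' := fun s hs h1 =>
    nice_uniq h.nice ⟨h1.symm, by rw [hcw, Q0_W hs]⟩ hm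
  -- the set
  obtain ⟨S, hS, hS1, hS2, hS3⟩ : ∃ S : Finset (V × V), S.card ≤ 4 ∧ HS G c F0 w ⊆ S ∧
      (w' ∈ Qs G c 0 → HS G c F0 w' ⊆ S) ∧ Jz G c F0 w' ⊆ S := by
    by_cases h0 : w' ∈ Qs G c 0
    · refine ⟨HS G c F0 w ∪ HS G c F0 w', ?_, Finset.subset_union_left,
        fun _ => Finset.subset_union_right, ?_⟩
      · have h1 := HS_card h (F0 := F0) w
        have h2 := HS_card h (F0 := F0) w'
        have h3 := Finset.card_union_le (HS G c F0 w) (HS G c F0 w')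
        omega
      · intro s hs
        obtain ⟨K, hK⟩ := Jz_cor hs
        rw [Finset.mem_union, mem_HS, mem_HS]
        rcases jz_Q0 h hA1 h0 hs with e | e | e | e
        · exact Or.inr ⟨e, K, hK⟩
        · exact Or.inl ⟨nice_uniq h.nice ⟨e.symm, by
            rw [hcw', Q0_W (hK.slot h.nice).1]⟩ (ma_symm hm), K, hK⟩
        · exfalso
          obtain ⟨b, b', d, d', α, β, hH, h1, h2⟩ := twin_house hA e rfl hK h
          rcases h1 with ⟨-, e1⟩ | ⟨-, e1⟩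
          · subst e1
            have e2 : d' = w := nice_uniq h.nice hH.1.md (ma_symm hm)
            have h3 : CrB G c 7 b α {b, α} b' d' :=
              CrB.hs b b' w' d' α β b α hH.1 hH.2.1 hH.2.2 (Or.inl rfl) (Or.inl rfl)
            exact hE _ _ _ _ _ h3 h2 (e2 ▸ hw) (e2 ▸ hz)
          · subst e1
            have e2 : b' = w := nice_uniq h.nice hH.1.mb (ma_symm hm)
            exact Q0_Q1 hw (e2 ▸ hH.2.2)
        · exact (no_OptB hA3 e).elim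
    · refine ⟨HS G c F0 w ∪ Jz G c F0 w', ?_, Finset.subset_union_left,
        fun h1 => absurd h1 h0, Finset.subset_union_right⟩
      have h1 := HS_card h (F0 := F0) w
      have h2 : (Jz G c F0 w').card ≤ 2 := by
        refine jz_W1_card h hA1 (W1_of_MA h.nice (ma_symm hm) hcw') h0 ?_
        intro b d d' α β hH
        have e : b = w := nice_uniq h.nice (ma_symm hH.1.mb) (ma_symm hm)
        subst e
        exact hnt d hH.1.tw.symm
      have h3 := Finset.card_union_le (HS G c F0 w) (Jz G c F0 w')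
      omega
  refine ⟨S, hS, hS1, hS2, ⟨?_, fun _ => hww, fun h1 => (WB hcw h1.1).elim⟩,
    ⟨hS3, fun _ => hww', fun h1 => (WB hcw' h1.1).elim⟩, ?_⟩
  · intro s hs
    obtain ⟨K, hK⟩ := Jz_cor hs
    rcases jz_Q0 h hA1 hw hs with e | e | e | e
    · exact hS1 (mem_HS.2 ⟨e, K, hK⟩)
    · have e1 := hadj _ (hK.slot h.nice).1 e
      exact hS2 (e1 ▸ (hK.slot h.nice).1) (mem_HS.2 ⟨e1, K, hK⟩)
    · exact (hnt _ e).elim
    · exact (no_OptB hA3 e).elim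
  · intro v hv hv0
    have key : ∀ s ∈ Qs G c 0, G.Adj s v → s = w ∨ s = w' := by
      intro s hs h1
      rcases h.src hs hw h1 hv with e | e | e
      · exact Or.inl e
      · exact Or.inr (hadj s hs e)
      · exact (hnt _ e).elim
    refine ⟨?_, fun h1 => (WB (Q0_W h1) hv0.1).elim, ?_⟩
    · intro s hs
      obtain ⟨K, hK⟩ := Jz_cor hs
      rcases jz_B0 h hA1 hv0 hs with e | ⟨u, e, -⟩
      · rcases key _ (hK.slot h.nice).1 e with e1 | e1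
        · exact hS1 (mem_HS.2 ⟨e1, K, hK⟩)
        · exact hS2 (e1 ▸ (hK.slot h.nice).1) (mem_HS.2 ⟨e1, K, hK⟩)
      · exact (no_OptB hA3 e).elim
    · intro _ s hs h1
      rcases key s hs h1 with e | e
      · rw [e]
        exact hww
      · rw [e]
        exact hww'

/-- the end -/
theorem endK (h : PF G c) {F0 : Finset V} (hA : NoA G c 4 F0) {e e0 : V}
    (he : e ∈ Qs G c 0) (hm : MA G c e e0) (he0 : e0 ∉ Qs G c 0) :
    ∃ (S : Finset (V × V)) (T : Finset V), S.card ≤ 4 ∧ T.card ≤ 2 ∧ OK G c F0 S T e ∧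
      ∀ v, G.Adj e v → IsB0 G c v → OK G c F0 S T v := by
  have hA1 := NoA_mono (by norm_num : 1 ≤ 4) hA
  have hA3 := NoA_mono (by norm_num : 3 ≤ 4) hA
  have hce := Q0_W he
  have hadj : ∀ s ∈ Qs G c 0, ¬ G.Adj s e := by
    intro s hs h1
    have e1 : s = e0 := nice_uniq h.nice ⟨h1.symm, by rw [hce, Q0_W hs]⟩ hm
    exact he0 (e1 ▸ hs)
  obtain ⟨S, T, hS, hT, hS1, hS2, hT1, hT2⟩ : ∃ (S : Finset (V × V)) (T : Finset V),
      S.card ≤ 4 ∧ T.card ≤ 2 ∧ HS G c F0 e ⊆ S ∧ (∀ t, Tw G c t e → HS G c F0 t ⊆ S) ∧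
      e ∈ T ∧ (∀ t, Tw G c t e → t ∈ T) := by
    by_cases h0 : ∃ t, Tw G c t e
    · obtain ⟨t, ht⟩ := h0
      refine ⟨HS G c F0 e ∪ HS G c F0 t, {e, t}, ?_, Finset.card_le_two,
        Finset.subset_union_left, ?_, by simp, ?_⟩
      · have h1 := HS_card h (F0 := F0) e
        have h2 := HS_card h (F0 := F0) t
        have h3 := Finset.card_union_le (HS G c F0 e) (HS G c F0 t)
        omega
      · intro t' ht'
        have e1 : t' = t := ht'.symm.uniq h ht.symm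
        rw [e1]
        exact Finset.subset_union_right
      · intro t' ht'
        have e1 : t' = t := ht'.symm.uniq h ht.symm
        rw [e1]
        simp
    · refine ⟨HS G c F0 e, {e}, (HS_card h e).trans (by norm_num), by simp,
        Finset.Subset.refl _, fun t ht => absurd ⟨t, ht⟩ h0, by simp,
        fun t ht => absurd ⟨t, ht⟩ h0⟩
  refine ⟨S, T, hS, hT, ⟨?_, fun _ => hT1, fun h1 => (WB hce h1.1).elim⟩, ?_⟩
  · intro s hs
    obtain ⟨K, hK⟩ := Jz_cor hs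
    rcases jz_Q0 h hA1 he hs with e1 | e1 | e1 | e1
    · exact hS1 (mem_HS.2 ⟨e1, K, hK⟩)
    · exact (hadj _ (hK.slot h.nice).1 e1).elim
    · exact hS2 _ e1 (mem_HS.2 ⟨rfl, K, hK⟩)
    · exact (no_OptB hA3 e1).elim
  · intro v hv hv0
    refine ⟨?_, fun h1 => (WB (Q0_W h1) hv0.1).elim, ?_⟩
    · intro s hs
      obtain ⟨K, hK⟩ := Jz_cor hs
      rcases jz_B0 h hA1 hv0 hs with e1 | ⟨u, e1, -⟩
      · rcases h.src (hK.slot h.nice).1 he e1 hv with e2 | e2 | e2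
        · exact hS1 (mem_HS.2 ⟨e2, K, hK⟩)
        · exact (hadj _ (hK.slot h.nice).1 e2).elim
        · exact hS2 _ e2 (mem_HS.2 ⟨rfl, K, hK⟩)
      · exact (no_OptB hA3 e1).elim
    · intro _ s hs h1
      rcases h.src hs he h1 hv with e2 | e2 | e2
      · rw [e2]
        exact hT1
      · exact (hadj s hs e2).elim
      · exact hT2 s e2

/-- a vertex in `W0` -/
theorem w0K (h : PF G c) {F0 : Finset V} (hA : NoA G c 4 F0) {y p : V} (hy : IsW0 G c y)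
    (hp : G.Adj y p) {S0 : Finset (V × V)} (hS0 : Cn G c F0 p ⊆ S0) (T : Finset V) :
    ∃ S : Finset (V × V), S.card ≤ 2 ∧ OK G c F0 (S0 ∪ S) T y := by
  have hA1 := NoA_mono (by norm_num : 1 ≤ 4) hA
  have hA3 := NoA_mono (by norm_num : 3 ≤ 4) hA
  obtain ⟨p₂, p₃, hN⟩ := N3_of1 h.cub hp
  refine ⟨Cn G c F0 p₂ ∪ Cn G c F0 p₃, ?_, ?_, fun h1 => (Q0_W0 h1 hy).elim,
    fun h1 => (WB hy.1 h1.1).elim⟩
  · have h1 := cn_W0_card' h hA3 hy hN.adj.2.1
    have h2 := cn_W0_card' h hA3 hy hN.adj.2.2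
    have h3 := Finset.card_union_le (Cn G c F0 p₂) (Cn G c F0 p₃)
    omega
  · refine (jz_W0_sub h hA1 hy hN).trans ?_
    intro s hs
    rw [Finset.mem_union, Finset.mem_union] at hs
    rw [Finset.mem_union, Finset.mem_union]
    rcases hs with (h1 | h1) | h1
    · exact Or.inl (hS0 h1)
    · exact Or.inr (Or.inl h1)
    · exact Or.inr (Or.inr h1)

/-- a vertex of `Q1` whose neighbour in `B0` is `a`; the sources at `a` are `w`, `w'` -/
theorem q1K (h : PF G c) {F0 : Finset V} (hA : NoA G c 4 F0) {x a w w' : V}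
    (hx : x ∈ Qs G c 1) (hxa : G.Adj x a) (ha : IsB0 G c a) (hw : w ∈ Qs G c 0)
    (hwa : G.Adj w a) (hm : MA G c w w')
    (hsrc : ∀ s ∈ Qs G c 0, G.Adj s a → s = w ∨ s = w') {S : Finset (V × V)}
    (hS1 : HS G c F0 w ⊆ S) (hS2 : w' ∈ Qs G c 0 → HS G c F0 w' ⊆ S) (T : Finset V) :
    OK G c F0 S T x ∧ NoH G c x ∧ Cn G c F0 x ⊆ S := by
  have hA1 := NoA_mono (by norm_num : 1 ≤ 4) hA
  have hin : ∀ s : V × V, (∃ K, Cor G c F0 s K) → G.Adj s.1 a → s ∈ S := by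
    rintro s ⟨K, hK⟩ h1
    have h0 := (hK.slot h.nice).1
    rcases hsrc _ h0 h1 with e | e
    · exact hS1 (mem_HS.2 ⟨e, K, hK⟩)
    · exact hS2 (e ▸ h0) (mem_HS.2 ⟨e, K, hK⟩)
  have hH : NoH G c x := by
    intro b d d' α β hH
    have hαa : α = a := Q1_B0 h.cub h.nice hx hH.2.1.adj.2.2.symm (hH.1.bl h.nice).1 hxa ha
    subst hαa
    have h1 := hsrc b hH.1.b0 hH.1.nb.adj.2.1
    have h2 := hsrc d hH.1.d0 hH.1.nd.adj.2.1
    have h3 := hH.1.ne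
    have h4 := hH.1.na
    rcases h1 with e1 | e1 <;> rcases h2 with e2 | e2
    · exact h3 (e1.trans e2.symm)
    · exact h4 (by rw [e1, e2]; exact hm.1)
    · exact h4 (by rw [e1, e2]; exact hm.1.symm)
    · exact h3 (e1.trans e2.symm)
  obtain ⟨x', v, g, hmx, hN, hv, hg⟩ := Q1_N3 h.cub h.nice hx
  have hva : v = a := Q1_B0 h.cub h.nice hx hN.adj.2.1 hv hxa ha
  subst hva
  refine ⟨⟨?_, fun h1 => (Q0_Q1 h1 hx).elim, fun h1 => (WB (Q1_W hx) h1.1).elim⟩, hH, ?_⟩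
  · refine (jz_Q1_sub h hA1 hx hH hmx hN hv).trans ?_
    intro s hs
    rcases Finset.mem_union.1 hs with h1 | h1
    · obtain ⟨⟨K, hK⟩, e⟩ := mem_At.1 h1
      exact hin s ⟨K, hK⟩ (e ▸ (hK.slot h.nice).2.1)
    · obtain ⟨q, q', p0, hX, hK⟩ := cn_B1 h.nice hA1 hg h1
      have e := h.f1 _ _ _ _ _ _ x v w hX hN.adj.2.2.symm (mem_Qs.1 hx).1 hN.adj.2.1 hv hw hwa
      exact hS1 (mem_HS.2 ⟨e.symm, _, hK⟩)
  · intro s hs
    rcases cn_Q1 h.nice hA1 hx hs with e | ⟨b, d, d', α, β, hh, -⟩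
    · obtain ⟨K, hK⟩ := Cn_cor hs
      have hsl := hK.slot h.nice
      have e1 : s.2 = v := Q1_B0 h.cub h.nice hx e hsl.2.2 hN.adj.2.1 hv
      exact hin s ⟨K, hK⟩ (e1 ▸ hsl.2.1)
    · exact (hH _ _ _ _ _ hh).elim

/-- cores containing a black neighbour of a source without twin -/
theorem cnK (h : PF G c) {F0 : Finset V} (hA : NoA G c 4 F0) {w w' v : V}
    (hw : w ∈ Qs G c 0) (hm : MA G c w w') (hnt : ∀ t, ¬ Tw G c t w) (hv : G.Adj w v)
    (hv0 : IsB0 G c v) {S : Finset (V × V)} (hS1 : HS G c F0 w ⊆ S)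
    (hS2 : w' ∈ Qs G c 0 → HS G c F0 w' ⊆ S) : Cn G c F0 v ⊆ S := by
  have hA1 := NoA_mono (by norm_num : 1 ≤ 4) hA
  intro s hs
  obtain ⟨K, hK⟩ := Cn_cor hs
  have h0 := (hK.slot h.nice).1
  rcases h.src h0 hw (cn_B0 h.nice hA1 hv0 hs).1 hv with e | e | e
  · exact hS1 (mem_HS.2 ⟨e, K, hK⟩)
  · have e1 : s.1 = w' := nice_uniq h.nice ⟨e.symm, by rw [Q0_W hw, Q0_W h0]⟩ hm
    exact hS2 (e1 ▸ h0) (mem_HS.2 ⟨e1, K, hK⟩)
  · exact (hnt _ e).elim

end S5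

open S5

theorem zd_parts {A B F0 : Finset V} (h1 : ZD G c A F0) (h2 : ZD G c B F0) :
    ZD G c (A ∪ B) F0 := by
  apply ZD_symm
  rw [ZD_union]
  exact ⟨ZD_symm h1, ZD_symm h2⟩

theorem zd_ins {e τ : V} {H F0 : Finset V} (h1 : ZD G c {e} F0) (h2 : ZD G c (insert τ H) F0) :
    ZD G c (insert e H) F0 := by
  rw [Finset.insert_eq e H]
  exact zd_parts h1 (ZD_mono (Finset.subset_insert τ H) h2)

/-- type M -/
theorem s5_m (h : PF G c) {F0 : Finset V} {r : ℕ} (hr : 1 ≤ r) (hA : NoA G c 4 F0)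
    (hE : NoE G c 7 F0) {w w' a x x' y : V} (hw : w ∈ Qs G c 0) (hm : MA G c w w')
    (hN : N3 G a w x y) (hx : x ∈ Qs G c 1) (hxw : x ≠ w') (hmx : MA G c x x')
    (hy : IsW0 G c y ∨ (y = w' ∧ w' ∈ Qs G c 1)) (hz : ZD G c (insert x {w, a}) F0)
    (he : x' ∈ Qs G c 0) (hze : ZD G c {x'} F0) : Step G c F0 r := by
  have hC : CrB G c 5 w a {w, a} x x' := CrB.m w w' a x x' y hw hm hN hx hxw hmx hy
  have hcw := Q0_W hw
  have hcx := Q1_W hx
  have ha : IsB0 G c a := by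
    refine black_nb h.nice hw hm hN ?_
    rintro rfl
    exact hN.1 (nice_uniq h.nice (ma_symm hm) ⟨hN.adj.2.1, by
      rw [← hm.2, hcw, hcx]⟩)
  have hynot : y ∉ Qs G c 0 := by
    intro h0
    rcases hy with h1 | ⟨h1, h2⟩
    · exact Q0_W0 h0 h1
    · exact Q0_Q1 h0 (h1 ▸ h2)
  have hsrc : ∀ s ∈ Qs G c 0, G.Adj s a → s = w := by
    intro s hs h1
    rcases hN.mem' h1 with e | e | e
    · exact e
    · exact (Q0_Q1 hs (e ▸ hx)).elim
    · exact (hynot (e ▸ hs)).elim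
  have hnt : ∀ t, ¬ Tw G c t w := by
    intro t ht
    have h1 := (ht.symm.2.2.2.2 a ha.1).1 hN.adj.1.symm
    exact ht.2.2.1 (hsrc t ht.1 h1)
  have hzw : ZD G c {w} F0 := ZD_mono (by simp) hz
  obtain ⟨S₁, hS₁, hS₁w, hS₁w', o1, o2, o3⟩ := pairK h hA hE hw hm hnt hzw
  have hx0 : x ∉ Qs G c 0 := fun h0 => Q0_Q1 h0 hx
  obtain ⟨S₂, T₂, hS₂, hT₂, o4, o5⟩ := endK h hA he (ma_symm hmx) hx0
  obtain ⟨o6, -, -⟩ := q1K h hA hx hN.adj.2.1.symm ha hw hN.adj.1.symm hm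
    (fun s hs h1 => Or.inl (hsrc s hs h1)) hS₁w hS₁w' ({w, w'} : Finset V)
  obtain ⟨w₁, a₁, b, hm₁, hNw, ha₁, hb₁⟩ := Q0_N3 h.cub h.nice hw
  have hw₁ : w₁ = w' := nice_uniq h.nice hm₁ hm
  subst hw₁
  obtain ⟨x₁, δ, ε, hmx₁, hNx, hδ, hε⟩ := Q0_N3 h.cub h.nice he
  have hx₁ : x₁ = x := nice_uniq h.nice hmx₁ (ma_symm hmx)
  subst hx₁
  -- the set for y
  obtain ⟨S₃, hS₃, o7⟩ : ∃ S : Finset (V × V), S.card ≤ 2 ∧ OK G c F0 (S₁ ∪ S) {w, w₁} y := by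
    rcases hy with h1 | ⟨h1, -⟩
    · exact w0K h hA h1 hN.adj.2.2.symm (cnK h hA hw hm hnt hN.adj.1.symm ha hS₁w hS₁w') _
    · subst h1
      exact ⟨∅, by simp, o2.mono (by simp) (Finset.Subset.refl _)⟩
  refine step_of h hr (F := insert x' {w, a}) (S := S₁ ∪ S₂ ∪ S₃) (T := {w, w₁} ∪ T₂) ?_
    (h.eu _ _ _ _ _ _ hC he) ?_ ?_ ?_
  · exact zd_ins hze hz
  · have h1 := Finset.card_union_le (S₁ ∪ S₂) S₃
    have h2 := Finset.card_union_le S₁ S₂
    omega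
  · have h1 := Finset.card_union_le ({w, w₁} : Finset V) T₂
    have h2 : ({w, w₁} : Finset V).card ≤ 2 := Finset.card_le_two
    omega
  · have m1 : ∀ {z}, OK G c F0 S₁ {w, w₁} z → OK G c F0 (S₁ ∪ S₂ ∪ S₃) ({w, w₁} ∪ T₂) z :=
      fun o => o.mono (fun s hs => by simp [hs]) Finset.subset_union_left
    have m2 : ∀ {z}, OK G c F0 S₂ T₂ z → OK G c F0 (S₁ ∪ S₂ ∪ S₃) ({w, w₁} ∪ T₂) z :=
      fun o => o.mono (fun s hs => by simp [hs]) Finset.subset_union_right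
    have m3 : OK G c F0 (S₁ ∪ S₂ ∪ S₃) ({w, w₁} ∪ T₂) y :=
      o7.mono (fun s hs => by
        rcases Finset.mem_union.1 hs with h1 | h1 <;> simp [h1]) Finset.subset_union_left
    have nob : ∀ {v t : V}, IsB0 G c v → ¬ MA G c v t := fun hv => md0_no hv.2
    apply Zn_ind
    intro f hf
    rw [Finset.mem_insert, Finset.mem_insert, Finset.mem_singleton] at hf
    rcases hf with rfl | rfl | rfl
    · refine ⟨m2 o4, fun z hz1 => ?_⟩
      rcases hNx.mem hz1 with rfl | rfl | rfl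
      · refine ⟨m1 o6, fun t ht => ?_⟩
        rw [nice_uniq h.nice ht hmx]
        exact m2 o4
      · exact ⟨m2 (o5 _ hNx.adj.2.1 hδ), fun t ht => (nob hδ ht).elim⟩
      · exact ⟨m2 (o5 _ hNx.adj.2.2 hε), fun t ht => (nob hε ht).elim⟩
    · refine ⟨m1 o1, fun z hz1 => ?_⟩
      rcases hNw.mem hz1 with rfl | rfl | rfl
      · refine ⟨m1 o2, fun t ht => ?_⟩
        rw [nice_uniq h.nice ht (ma_symm hm)]
        exact m1 o1
      · exact ⟨m1 (o3 _ hNw.adj.2.1 ha₁), fun t ht => (nob ha₁ ht).elim⟩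
      · exact ⟨m1 (o3 _ hNw.adj.2.2 hb₁), fun t ht => (nob hb₁ ht).elim⟩
    · refine ⟨m1 (o3 _ hN.adj.1.symm ha), fun z hz1 => ?_⟩
      rcases hN.mem hz1 with rfl | rfl | rfl
      · refine ⟨m1 o1, fun t ht => ?_⟩
        rw [nice_uniq h.nice ht hm]
        exact m1 o2
      · refine ⟨m1 o6, fun t ht => ?_⟩
        rw [nice_uniq h.nice ht hmx]
        exact m2 o4
      · refine ⟨m3, fun t ht => ?_⟩
        rcases hy with h1 | ⟨h1, -⟩
        · exact (md0_no h1.2 ht).elim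
        · subst h1
          rw [nice_uniq h.nice ht (ma_symm hm)]
          exact m1 o1

/-- type D1 -/
theorem s5_d1 (h : PF G c) {F0 : Finset V} {r : ℕ} (hr : 1 ≤ r) (hA : NoA G c 4 F0)
    (hE : NoE G c 7 F0) {w w' a x x' : V} (hw : w ∈ Qs G c 0) (hw' : w' ∈ Qs G c 0)
    (hm : MA G c w w') (hN : N3 G a w w' x) (hx : x ∈ Qs G c 1) (hmx : MA G c x x')
    (hz : ZD G c (insert x {w, a}) F0)
    (he : x' ∈ Qs G c 0) (hze : ZD G c {x'} F0) : Step G c F0 r := by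
  have hC : CrB G c 8 w a {w, a} x x' := CrB.d1 w w' a x x' hw hw' hm hN hx hmx
  have ha : IsB0 G c a := by
    refine black_nb h.nice hw hm hN ?_
    rintro rfl
    exact G.irrefl hN.adj.2.1
  have hsrc : ∀ s ∈ Qs G c 0, G.Adj s a → s = w ∨ s = w' := by
    intro s hs h1
    rcases hN.mem' h1 with e | e | e
    · exact Or.inl e
    · exact Or.inr e
    · exact (Q0_Q1 hs (e ▸ hx)).elim
  have hnt : ∀ t, ¬ Tw G c t w := by
    intro t ht
    have h1 := (ht.symm.2.2.2.2 a ha.1).1 hN.adj.1.symm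
    rcases hsrc t ht.1 h1 with e | e
    · exact ht.2.2.1 e
    · exact ht.2.2.2.1 (e ▸ hm.1.symm)
  have hzw : ZD G c {w} F0 := ZD_mono (by simp) hz
  obtain ⟨S₁, hS₁, hS₁w, hS₁w', o1, o2, o3⟩ := pairK h hA hE hw hm hnt hzw
  have hx0 : x ∉ Qs G c 0 := fun h0 => Q0_Q1 h0 hx
  obtain ⟨S₂, T₂, hS₂, hT₂, o4, o5⟩ := endK h hA he (ma_symm hmx) hx0
  obtain ⟨o6, -, -⟩ := q1K h hA hx hN.adj.2.2.symm ha hw hN.adj.1.symm hm hsrc hS₁w hS₁w'
    ({w, w'} : Finset V)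
  obtain ⟨w₁, a₁, b, hm₁, hNw, ha₁, hb₁⟩ := Q0_N3 h.cub h.nice hw
  have hw₁ : w₁ = w' := nice_uniq h.nice hm₁ hm
  subst hw₁
  obtain ⟨x₁, δ, ε, hmx₁, hNx, hδ, hε⟩ := Q0_N3 h.cub h.nice he
  have hx₁ : x₁ = x := nice_uniq h.nice hmx₁ (ma_symm hmx)
  subst hx₁
  refine step_of h hr (F := insert x' {w, a}) (S := S₁ ∪ S₂) (T := {w, w₁} ∪ T₂) ?_
    (h.eu _ _ _ _ _ _ hC he) ?_ ?_ ?_
  · exact zd_ins hze hz
  · have h2 := Finset.card_union_le S₁ S₂
    omega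
  · have h1 := Finset.card_union_le ({w, w₁} : Finset V) T₂
    have h2 : ({w, w₁} : Finset V).card ≤ 2 := Finset.card_le_two
    omega
  · have m1 : ∀ {z}, OK G c F0 S₁ {w, w₁} z → OK G c F0 (S₁ ∪ S₂) ({w, w₁} ∪ T₂) z :=
      fun o => o.mono Finset.subset_union_left Finset.subset_union_left
    have m2 : ∀ {z}, OK G c F0 S₂ T₂ z → OK G c F0 (S₁ ∪ S₂) ({w, w₁} ∪ T₂) z :=
      fun o => o.mono Finset.subset_union_right Finset.subset_union_right
    have nob : ∀ {v t : V}, IsB0 G c v → ¬ MA G c v t := fun hv => md0_no hv.2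
    apply Zn_ind
    intro f hf
    rw [Finset.mem_insert, Finset.mem_insert, Finset.mem_singleton] at hf
    rcases hf with rfl | rfl | rfl
    · refine ⟨m2 o4, fun z hz1 => ?_⟩
      rcases hNx.mem hz1 with rfl | rfl | rfl
      · refine ⟨m1 o6, fun t ht => ?_⟩
        rw [nice_uniq h.nice ht hmx]
        exact m2 o4
      · exact ⟨m2 (o5 _ hNx.adj.2.1 hδ), fun t ht => (nob hδ ht).elim⟩
      · exact ⟨m2 (o5 _ hNx.adj.2.2 hε), fun t ht => (nob hε ht).elim⟩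
    · refine ⟨m1 o1, fun z hz1 => ?_⟩
      rcases hNw.mem hz1 with rfl | rfl | rfl
      · refine ⟨m1 o2, fun t ht => ?_⟩
        rw [nice_uniq h.nice ht (ma_symm hm)]
        exact m1 o1
      · exact ⟨m1 (o3 _ hNw.adj.2.1 ha₁), fun t ht => (nob ha₁ ht).elim⟩
      · exact ⟨m1 (o3 _ hNw.adj.2.2 hb₁), fun t ht => (nob hb₁ ht).elim⟩
    · refine ⟨m1 (o3 _ hN.adj.1.symm ha), fun z hz1 => ?_⟩
      rcases hN.mem hz1 with rfl | rfl | rfl
      · refine ⟨m1 o1, fun t ht => ?_⟩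
        rw [nice_uniq h.nice ht hm]
        exact m1 o2
      · refine ⟨m1 o2, fun t ht => ?_⟩
        rw [nice_uniq h.nice ht (ma_symm hm)]
        exact m1 o1
      · refine ⟨m1 o6, fun t ht => ?_⟩
        rw [nice_uniq h.nice ht hmx]
        exact m2 o4

/-- type X4 -/
theorem s5_x4 (h : PF G c) {F0 : Finset V} {k : ℕ} (hk : 1 ≤ k) (hA : NoA G c 4 F0)
    (hE : NoE G c 7 F0) {w w' a q q' p p' r r' s : V} (hw : w ∈ Qs G c 0) (hm : MA G c w w')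
    (hN : N3 G a w q q') (hqq : MA G c q q') (hq : q ∈ Qs G c 1) (hq' : q' ∈ Qs G c 1)
    (hqp : G.Adj q p) (hpp : MA G c p p') (hcp : c p = false) (hNp : N3 G p' p r s)
    (hrw : r ≠ w') (hmr : MA G c r r') (hs : IsW0 G c s ∨ s = w')
    (hz : ZD G c (insert q {w, a, q, p'}) F0)
    (he : r' ∈ Qs G c 0) (hze : ZD G c {r'} F0) : Step G c F0 k := by
  have hC : CrB G c 6 w a {w, a, q, p'} q r' :=
    CrB.x4 w w' a q q' p p' r r' s hw hm hN hqq hq hq' hqp hpp hcp hNp hrw hmr hs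
  have hX : Xc G c w a q q' p p' := ⟨hw, hN, hqq, hq, hq', hqp, hpp, hcp⟩
  have hA1 := NoA_mono (by norm_num : 1 ≤ 4) hA
  have hcw := Q0_W hw
  have hcq := Q1_W hq
  obtain ⟨hpB, hpB'⟩ := hX.B1 h.nice
  have ha : IsB0 G c a := by
    refine black_nb h.nice hw hm hN ?_
    rintro rfl
    exact hN.1 (nice_uniq h.nice (ma_symm hm) ⟨hN.adj.2.1, by rw [← hm.2, hcw, hcq]⟩)
  have hsrc : ∀ s ∈ Qs G c 0, G.Adj s a → s = w := by
    intro s hs h1
    rcases hN.mem' h1 with e | e | e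
    · exact e
    · exact (Q0_Q1 hs (e ▸ hq)).elim
    · exact (Q0_Q1 hs (e ▸ hq')).elim
  have hnt : ∀ t, ¬ Tw G c t w := by
    intro t ht
    have h1 := (ht.symm.2.2.2.2 a ha.1).1 hN.adj.1.symm
    exact ht.2.2.1 (hsrc t ht.1 h1)
  have hzw : ZD G c {w} F0 := ZD_mono (by simp) hz
  -- colours of r, s
  have hcol : ∀ t, G.Adj p' t → t ≠ p → c t = true := by
    intro t ht hne
    by_contra hh
    have h1 : c t = false := by simpa using hh
    exact hne (nice_uniq h.nice (ma_symm hpp) ⟨ht, by rw [hpB'.1, h1]⟩).symm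
  have hcr : c r = true := hcol r hNp.adj.2.1 hNp.1.symm
  have hr1 : IsW1 G c r := W1_of_MA h.nice hmr hcr
  have hr0 : r ∉ Qs G c 0 := fun h0 => Q0_noB1 h.nice h0 hpB' hNp.adj.2.1.symm
  have hs0 : IsW0 G c s := by
    rcases hs with h1 | h1
    · exact h1
    · exfalso
      subst h1
      have h2 := h.rule1 p' r s hpB' hNp.adj.2.1 hNp.adj.2.2 hNp.2.2.1 hr1
        (W1_of_MA h.nice (ma_symm hm) (MA_W hm hcw))
      have h3 : r = w := nice_uniq h.nice ⟨h2.symm, by rw [MA_W hm hcw, hcr]⟩ (ma_symm hm)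
      exact hr0 (h3 ▸ hw)
  have hrH : NoH G c r := by
    intro b d d' α β hH
    have hα := (hH.1.bl h.nice).1
    have h1 := h.f1 _ _ _ _ _ _ r α b hX hNp.adj.2.1 hr1 hH.2.1.adj.2.2.symm hα hH.1.b0
      hH.1.nb.adj.2.1
    have h2 := h.f1 _ _ _ _ _ _ r α d hX hNp.adj.2.1 hr1 hH.2.1.adj.2.2.symm hα hH.1.d0
      hH.1.nd.adj.2.1
    exact hH.1.ne (h1.trans h2.symm)
  obtain ⟨S₁, hS₁, hS₁w, hS₁w', o1, o2, o3⟩ := pairK h hA hE hw hm hnt hzw
  obtain ⟨S₂, T₂, hS₂, hT₂, o4, o5⟩ := endK h hA he (ma_symm hmr) hr0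
  obtain ⟨o6, hqH, hqCn⟩ := q1K h hA hq hN.adj.2.1.symm ha hw hN.adj.1.symm hm
    (fun s hs h1 => Or.inl (hsrc s hs h1)) hS₁w hS₁w' ({w, w'} : Finset V)
  obtain ⟨o6', -, -⟩ := q1K h hA hq' hN.adj.2.2.symm ha hw hN.adj.1.symm hm
    (fun s hs h1 => Or.inl (hsrc s hs h1)) hS₁w hS₁w' ({w, w'} : Finset V)
  -- p
  have hinw : ∀ t : V × V, (∃ K, Cor G c F0 t K) → t.1 = w → t ∈ S₁ := fun t h1 h2 =>
    hS₁w (mem_HS.2 ⟨h2, h1⟩)
  have o8 : OK G c F0 S₁ ({w, w'} : Finset V) p := by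
    refine ⟨?_, fun h1 => (WB (Q0_W h1) hcp).elim, fun h1 => (B0_not_B1 h1 hpB).elim⟩
    intro t ht
    rcases jz_B1 h hA1 hpB ht with h1 | ⟨v, hv, hpv, h1⟩
    · obtain ⟨q₂, q₂', p0, hX₂, hK⟩ := cn_B1 h.nice hA1 hpB h1
      have e := h.f1 _ _ _ _ _ _ q a w hX₂ hqp.symm (mem_Qs.1 hq).1 hN.adj.2.1.symm ha hw
        hN.adj.1.symm
      exact hinw t ⟨_, hK⟩ e.symm
    · by_cases hvq : v = q
      · subst hvq
        exact hqCn h1
      · exfalso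
        have h2 := h.rule1 p q v hpB hqp.symm hpv (Ne.symm hvq) (mem_Qs.1 hq).1 (mem_Qs.1 hv).1
        have h3 : v = q' := nice_uniq h.nice ⟨h2, by rw [hcq, Q1_W hv]⟩ hqq
        subst h3
        exact h.xpi _ _ _ _ _ _ hX hpv.symm
  have hCp' : Cn G c F0 p' ⊆ S₁ := by
    intro t ht
    obtain ⟨q₂, q₂', p0, hX₂, hK⟩ := cn_B1 h.nice hA1 hpB' ht
    exact hinw t ⟨_, hK⟩ (hX₂.uniq h hX).1
  have o9 : OK G c F0 S₁ ({w, w'} : Finset V) p' := by
    refine ⟨?_, fun h1 => (WB (Q0_W h1) hpB'.1).elim, fun h1 => (B0_not_B1 h1 hpB').elim⟩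
    intro t ht
    rcases jz_B1 h hA1 hpB' ht with h1 | ⟨v, hv, hpv, h1⟩
    · exact hCp' h1
    · have hvr : v = r := by
        rcases hNp.mem hpv with e | e | e
        · subst e
          exact (WB (Q1_W hv) hcp).elim
        · exact e
        · subst e
          exact (Q1_W0 hv hs0).elim
      subst hvr
      rcases cn_Q1 h.nice hA1 hv h1 with e | ⟨b, d, d', α, β, hh, -⟩
      · obtain ⟨K, hK⟩ := Cn_cor h1
        have hsl := hK.slot h.nice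
        have e1 := h.f1 _ _ _ _ _ _ v t.2 t.1 hX hpv (mem_Qs.1 hv).1 e hsl.2.2 hsl.1 hsl.2.1
        exact hinw t ⟨K, hK⟩ e1
      · exact (hrH _ _ _ _ _ hh).elim
  -- r
  have hrk := jz_W1_card h hA1 hr1 hr0 hrH
  have o10 : OK G c F0 (Jz G c F0 r) ({w, w'} : Finset V) r :=
    ⟨Finset.Subset.refl _, fun h1 => (hr0 h1).elim, fun h1 => (WB hcr h1.1).elim⟩
  obtain ⟨S₃, hS₃, o11⟩ := w0K h hA hs0 hNp.adj.2.2.symm hCp' ({w, w'} : Finset V)
  obtain ⟨w₁, a₁, b, hm₁, hNw, ha₁, hb₁⟩ := Q0_N3 h.cub h.nice hw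
  have hw₁ : w₁ = w' := nice_uniq h.nice hm₁ hm
  subst hw₁
  obtain ⟨x₁, δ, ε, hmx₁, hNx, hδ, hε⟩ := Q0_N3 h.cub h.nice he
  have hx₁ : x₁ = r := nice_uniq h.nice hmx₁ (ma_symm hmr)
  subst hx₁
  have hqN : ∀ z, G.Adj q z → z = q' ∨ z = a ∨ z = p := by
    intro z hz1
    obtain ⟨q₁, a₂, p₂, hmq, hNq, ha₂, hp₂⟩ := Q1_N3 h.cub h.nice hq
    have e1 : q₁ = q' := nice_uniq h.nice hmq hqq
    have e2 : a₂ = a := Q1_B0 h.cub h.nice hq hNq.adj.2.1 ha₂ hN.adj.2.1.symm ha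
    have e3 : p = p₂ := by
      rcases hNq.mem hqp with e | e | e
      · exfalso
        rw [e] at hcp
        exact WB (MA_W hmq hcq) hcp
      · exfalso
        rw [e] at hpB
        exact B0_not_B1 ha₂ hpB
      · exact e
    rcases hNq.mem hz1 with e | e | e
    · exact Or.inl (e.trans e1)
    · exact Or.inr (Or.inl (e.trans e2))
    · exact Or.inr (Or.inr (e.trans e3.symm))
  refine step_of h hk (F := insert r' {w, a, q, p'}) (S := S₁ ∪ S₂ ∪ S₃ ∪ Jz G c F0 x₁)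
    (T := {w, w₁} ∪ T₂) ?_ (h.eu _ _ _ _ _ _ hC he) ?_ ?_ ?_
  · exact zd_ins hze hz
  · have h1 := Finset.card_union_le (S₁ ∪ S₂) S₃
    have h2 := Finset.card_union_le S₁ S₂
    have h3 := Finset.card_union_le (S₁ ∪ S₂ ∪ S₃) (Jz G c F0 x₁)
    omega
  · have h1 := Finset.card_union_le ({w, w₁} : Finset V) T₂
    have h2 : ({w, w₁} : Finset V).card ≤ 2 := Finset.card_le_two
    omega
  · set SS := S₁ ∪ S₂ ∪ S₃ ∪ Jz G c F0 x₁ with hSS
    have m1 : ∀ {z}, OK G c F0 S₁ {w, w₁} z → OK G c F0 SS ({w, w₁} ∪ T₂) z :=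
      fun o => o.mono (fun s hs => by rw [hSS]; simp [hs]) Finset.subset_union_left
    have m2 : ∀ {z}, OK G c F0 S₂ T₂ z → OK G c F0 SS ({w, w₁} ∪ T₂) z :=
      fun o => o.mono (fun s hs => by rw [hSS]; simp [hs]) Finset.subset_union_right
    have m3 : OK G c F0 SS ({w, w₁} ∪ T₂) s :=
      o11.mono (fun s hs => by
        rw [hSS]
        rcases Finset.mem_union.1 hs with h1 | h1 <;> simp [h1]) Finset.subset_union_left
    have m4 : OK G c F0 SS ({w, w₁} ∪ T₂) x₁ :=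
      o10.mono (fun s hs => by rw [hSS]; simp [hs]) Finset.subset_union_left
    have nob : ∀ {v t : V}, IsB0 G c v → ¬ MA G c v t := fun hv => md0_no hv.2
    have mt : ∀ {z z' : V}, MA G c z z' → OK G c F0 SS ({w, w₁} ∪ T₂) z' →
        ∀ t, MA G c z t → OK G c F0 SS ({w, w₁} ∪ T₂) t := by
      intro z z' h1 h2 t h3
      rw [nice_uniq h.nice h3 h1]
      exact h2
    apply Zn_ind
    intro f hf
    rw [Finset.mem_insert, Finset.mem_insert, Finset.mem_insert, Finset.mem_insert,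
      Finset.mem_singleton] at hf
    rcases hf with rfl | rfl | rfl | rfl | rfl
    · refine ⟨m2 o4, fun z hz1 => ?_⟩
      rcases hNx.mem hz1 with rfl | rfl | rfl
      · exact ⟨m4, mt hmr (m2 o4)⟩
      · exact ⟨m2 (o5 _ hNx.adj.2.1 hδ), fun t ht => (nob hδ ht).elim⟩
      · exact ⟨m2 (o5 _ hNx.adj.2.2 hε), fun t ht => (nob hε ht).elim⟩
    · refine ⟨m1 o1, fun z hz1 => ?_⟩
      rcases hNw.mem hz1 with rfl | rfl | rfl
      · exact ⟨m1 o2, mt (ma_symm hm) (m1 o1)⟩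
      · exact ⟨m1 (o3 _ hNw.adj.2.1 ha₁), fun t ht => (nob ha₁ ht).elim⟩
      · exact ⟨m1 (o3 _ hNw.adj.2.2 hb₁), fun t ht => (nob hb₁ ht).elim⟩
    · refine ⟨m1 (o3 _ hN.adj.1.symm ha), fun z hz1 => ?_⟩
      rcases hN.mem hz1 with rfl | rfl | rfl
      · exact ⟨m1 o1, mt hm (m1 o2)⟩
      · exact ⟨m1 o6, mt hqq (m1 o6')⟩
      · exact ⟨m1 o6', mt (ma_symm hqq) (m1 o6)⟩
    · refine ⟨m1 o6, fun z hz1 => ?_⟩
      rcases hqN z hz1 with rfl | rfl | rfl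
      · exact ⟨m1 o6', mt (ma_symm hqq) (m1 o6)⟩
      · exact ⟨m1 (o3 _ hN.adj.1.symm ha), fun t ht => (nob ha ht).elim⟩
      · exact ⟨m1 o8, mt hpp (m1 o9)⟩
    · refine ⟨m1 o9, fun z hz1 => ?_⟩
      rcases hNp.mem hz1 with rfl | rfl | rfl
      · exact ⟨m1 o8, mt hpp (m1 o9)⟩
      · exact ⟨m4, mt hmr (m2 o4)⟩
      · exact ⟨m3, fun t ht => (md0_no hs0.2 ht).elim⟩

theorem stmt_S5 : Stmt_S5 := by
  intro V _ G c h F0 r hr hA hE hne
  have key : ∃ n w a H τ e, (n = 5 ∨ n = 6 ∨ n = 8) ∧ CrB G c n w a H τ e ∧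
      ZD G c (insert τ H) F0 ∧ e ∈ Qs G c 0 ∧ ZD G c {e} F0 := by
    by_contra hh
    apply hne
    refine ⟨?_, ?_, ?_⟩
    · intro w a H τ e h1 h2 h3 h4
      exact hh ⟨5, w, a, H, τ, e, by norm_num, h1, h2, h3, h4⟩
    · intro w a H τ e h1 h2 h3 h4
      exact hh ⟨6, w, a, H, τ, e, by norm_num, h1, h2, h3, h4⟩
    · intro w a H τ e h1 h2 h3 h4
      exact hh ⟨8, w, a, H, τ, e, by norm_num, h1, h2, h3, h4⟩
  obtain ⟨n, w, a, H, τ, e, hn, h1, h2, h3, h4⟩ := key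
  cases h1 with
  | m w w' a x x' y g1 g2 g3 g4 g5 g6 g7 => exact s5_m h hr hA hE g1 g2 g3 g4 g5 g6 g7 h2 h3 h4
  | x4 w w' a q q' p p' r r' s g1 g2 g3 g4 g5 g6 g7 g8 g9 g10 g11 g12 g13 =>
    exact s5_x4 h hr hA hE g1 g2 g3 g4 g5 g6 g7 g8 g9 g10 g11 g12 g13 h2 h3 h4
  | hs => exact absurd hn (by norm_num)
  | d1 w w' a x x' g1 g2 g3 g4 g5 g6 => exact s5_d1 h hr hA hE g1 g2 g3 g4 g5 g6 h2 h3 h4

end

end Pool.Agent.Work.MP_1e13ac_W
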