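import Pool.Agent.Work.MP_1e13ac_W.PkMain

/-!
# MP_1e13ac_co, full statement, level `k ≥ 2`: stage 6 of the packing (X3) (helper45)
-/

set_option autoImplicit false
set_option linter.unusedSectionVars false

namespace Pool.Agent.Work.MP_1e13ac_W

open Classical Finset Pool.Agent.Work.MP_1e13ac_Bis

noncomputable section

namespace PkS6

variable {V : Type} [Fintype V] {G : SimpleGraph V} {c : V → Bool}

/-- `v` is touched by the zone of `F` -/
def Tc (G : SimpleGraph V) (c : V → Bool) (F : Finset V) (v : V) : Prop :=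
  ∃ z ∈ Zn G c F, v = z ∨ (G.Adj v z ∧ c v ≠ c z)

theorem touch (hc : Nice G c) {K F : Finset V} (h : ¬ ZD G c K F) : ∃ v ∈ K, Tc G c F v := by
  unfold ZD at h
  rw [Finset.not_disjoint_iff] at h
  obtain ⟨y, hyK, hyF⟩ := h
  obtain ⟨y, hyK, hyF⟩ : ∃ y, y ∈ NF G K ∧ y ∈ Zn G c F := by
    rcases mem_Zn.1 hyK with h1 | ⟨x, hx, h1⟩
    · exact ⟨y, h1, hyF⟩
    · exact ⟨x, hx, Zn_mate hc hyF (ma_symm h1)⟩
  rcases mem_NF.1 hyK with h1 | ⟨f, hf, h1⟩
  · exact ⟨y, h1, y, hyF, Or.inl rfl⟩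
  · by_cases h2 : c f = c y
    · exact ⟨f, hf, f, Zn_mate hc hyF ⟨h1.symm, h2.symm⟩, Or.inl rfl⟩
    · exact ⟨f, hf, y, hyF, Or.inr ⟨h1, h2⟩⟩

theorem n3m {a x y z t : V} (h : N3 G a x y z) (ht : G.Adj a t) : t = x ∨ t = y ∨ t = z :=
  (h.2.2.2 t).1 ht

theorem n31 {a x y z : V} (h : N3 G a x y z) : G.Adj a x := (h.2.2.2 x).2 (Or.inl rfl)
theorem n32 {a x y z : V} (h : N3 G a x y z) : G.Adj a y := (h.2.2.2 y).2 (Or.inr (Or.inl rfl))
theorem n33 {a x y z : V} (h : N3 G a x y z) : G.Adj a z := (h.2.2.2 z).2 (Or.inr (Or.inr rfl))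

theorem N3_of (hG : Cub G) {a x y : V} (h1 : G.Adj a x) (h2 : G.Adj a y) (h : x ≠ y) :
    ∃ z, N3 G a x y z := by
  obtain ⟨z, hz1, hz2, hN⟩ := cub2 hG h1 h2 h
  exact ⟨z, h, hz1.symm, hz2.symm, hN⟩

theorem qW {i : ℕ} {x : V} (h : x ∈ Qs G c i) : IsW1 G c x := (mem_Qs.1 h).1

theorem qc {i : ℕ} {x : V} (h : x ∈ Qs G c i) : c x = true := (qW h).1

theorem qne {i j : ℕ} {x : V} (h : x ∈ Qs G c i) (h' : x ∈ Qs G c j) : i = j := by
  rw [← (mem_Qs.1 h).2, ← (mem_Qs.1 h').2]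

theorem w0w1' {x : V} (h : IsW0 G c x) (h' : IsW1 G c x) : False := by
  have h1 := h.2
  have h2 := h'.2
  omega

theorem B0B1 {x : V} (h : IsB0 G c x) (h' : IsB1 G c x) : False := by
  have h1 := h.2
  have h2 := h'.2
  omega

theorem B1_of (hc : Nice G c) {x y : V} (h : MA G c x y) (hx : c x = false) : IsB1 G c x :=
  ⟨hx, md1_of hc h⟩

/-- `Q1` vertices have a unique neighbour in `B1` -/
theorem q1_B1 {x a b : V} (hx : x ∈ Qs G c 1) (ha : G.Adj x a) (hb : G.Adj x b)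
    (ha' : IsB1 G c a) (hb' : IsB1 G c b) : a = b := by
  have h1 := (mem_Qs.1 hx).2
  unfold nB1 at h1
  refine Finset.card_le_one.1 (le_of_eq h1) a ?_ b ?_
  · exact Finset.mem_filter.2 ⟨mem_nbs.2 ha, ha'⟩
  · exact Finset.mem_filter.2 ⟨mem_nbs.2 hb, hb'⟩

theorem q1_exB1 {x : V} (hx : x ∈ Qs G c 1) : ∃ a, G.Adj x a ∧ IsB1 G c a := by
  have h1 := (mem_Qs.1 hx).2
  unfold nB1 at h1
  obtain ⟨a, ha⟩ := Finset.card_eq_one.1 h1
  have : a ∈ (nbs G x).filter fun y => IsB1 G c y := by rw [ha]; simp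
  rw [Finset.mem_filter] at this
  exact ⟨a, mem_nbs.1 this.1, this.2⟩

/-- `Q1` vertices have a unique neighbour in `B0` -/
theorem q1_B0 (hG : Cub G) {x a b : V} (hx : x ∈ Qs G c 1) (ha : G.Adj x a)
    (hb : G.Adj x b) (ha' : IsB0 G c a) (hb' : IsB0 G c b) : a = b := by
  obtain ⟨x', hx'⟩ := md1_ex (qW hx).2
  obtain ⟨d, hd, hd'⟩ := q1_exB1 hx
  have hxd : x' ≠ d := by
    intro hh
    have h1 := hx'.2
    rw [hh, hd'.1, qc hx] at h1
    exact absurd h1 (by simp)
  obtain ⟨e, he⟩ := N3_of hG hx'.1 hd hxd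
  have key : ∀ t, G.Adj x t → IsB0 G c t → t = e := by
    intro t ht ht'
    rcases n3m he ht with h1 | h1 | h1
    · have h2 := hx'.2
      rw [← h1, ht'.1, qc hx] at h2
      exact absurd h2 (by simp)
    · rw [h1] at ht'
      exact (B0B1 ht' hd').elim
    · exact h1
  rw [key a ha ha', key b hb hb']

/-- `w` is a source with an X3 configuration at `a` -/
structure Cx (G : SimpleGraph V) (c : V → Bool) (w w' a b q q' p p' r s : V) : Prop where
  w0 : w ∈ Qs G c 0
  mw : MA G c w w'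
  na : N3 G a w q q'
  mq : MA G c q q'
  q1 : q ∈ Qs G c 1
  q1' : q' ∈ Qs G c 1
  qp : G.Adj q p
  mp : MA G c p p'
  cp : c p = false
  np : N3 G p' p r s
  hr : IsW0 G c r ∨ r = w'
  hs : IsW0 G c s ∨ s = w'
  nw : N3 G w w' a b
  a0 : IsB0 G c a
  b0 : IsB0 G c b
  nq : N3 G q q' a p

section Ctx

variable {w w' a b q q' p p' r s : V}

theorem Cx.cw (h : Cx G c w w' a b q q' p p' r s) : c w = true := qc h.w0
theorem Cx.cw' (h : Cx G c w w' a b q q' p p' r s) : c w' = true := by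
  rw [← h.mw.2]
  exact h.cw
theorem Cx.cq (h : Cx G c w w' a b q q' p p' r s) : c q = true := qc h.q1
theorem Cx.cq' (h : Cx G c w w' a b q q' p p' r s) : c q' = true := qc h.q1'
theorem Cx.cp' (h : Cx G c w w' a b q q' p p' r s) : c p' = false := by
  rw [← h.mp.2]
  exact h.cp
theorem Cx.cr (h : Cx G c w w' a b q q' p p' r s) : c r = true := by
  rcases h.hr with h1 | h1
  · exact h1.1
  · rw [h1]; exact h.cw'
theorem Cx.cs (h : Cx G c w w' a b q q' p p' r s) : c s = true := by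
  rcases h.hs with h1 | h1
  · exact h1.1
  · rw [h1]; exact h.cw'
theorem Cx.pB1 (hc : Nice G c) (h : Cx G c w w' a b q q' p p' r s) : IsB1 G c p :=
  B1_of hc h.mp h.cp
theorem Cx.pB1' (hc : Nice G c) (h : Cx G c w w' a b q q' p p' r s) : IsB1 G c p' :=
  B1_of hc (ma_symm h.mp) h.cp'
theorem Cx.wW1' (hc : Nice G c) (h : Cx G c w w' a b q q' p p' r s) : IsW1 G c w' :=
  ⟨h.cw', md1_of hc (ma_symm h.mw)⟩

theorem Cx.zone (hc : Nice G c) (h : Cx G c w w' a b q q' p p' r s) {z : V}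
    (hz : z ∈ Zn G c {w, a, q, p'}) :
    z = w ∨ z = w' ∨ z = a ∨ z = b ∨ z = q ∨ z = q' ∨ z = p ∨ z = p' ∨ z = r ∨ z = s := by
  have key : ∀ y ∈ NF G {w, a, q, p'},
      y = w ∨ y = w' ∨ y = a ∨ y = b ∨ y = q ∨ y = q' ∨ y = p ∨ y = p' ∨ y = r ∨ y = s := by
    intro y hy
    rcases mem_NF.1 hy with h1 | ⟨f, hf, h1⟩
    · simp only [Finset.mem_insert, Finset.mem_singleton] at h1
      rcases h1 with h2 | h2 | h2 | h2 <;> simp [h2]
    · simp only [Finset.mem_insert, Finset.mem_singleton] at hf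
      rcases hf with rfl | rfl | rfl | rfl
      · rcases n3m h.nw h1 with h2 | h2 | h2 <;> simp [h2]
      · rcases n3m h.na h1 with h2 | h2 | h2 <;> simp [h2]
      · rcases n3m h.nq h1 with h2 | h2 | h2 <;> simp [h2]
      · rcases n3m h.np h1 with h2 | h2 | h2 <;> simp [h2]
  rcases mem_Zn.1 hz with h1 | ⟨y, hy, h1⟩
  · exact key z h1
  · have hw' : ∀ t, MA G c w' t → t = w := fun t ht => nice_uniq hc ht (ma_symm h.mw)
    rcases key y hy with rfl | rfl | rfl | rfl | rfl | rfl | rfl | rfl | rfl | rfl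
    · rw [nice_uniq hc h1 h.mw]; simp
    · rw [hw' z h1]; simp
    · exact (md0_no h.a0.2 h1).elim
    · exact (md0_no h.b0.2 h1).elim
    · rw [nice_uniq hc h1 h.mq]; simp
    · rw [nice_uniq hc h1 (ma_symm h.mq)]; simp
    · rw [nice_uniq hc h1 h.mp]; simp
    · rw [nice_uniq hc h1 (ma_symm h.mp)]; simp
    · rcases h.hr with h2 | h2
      · exact (md0_no h2.2 h1).elim
      · rw [h2] at h1
        rw [hw' z h1]; simp
    · rcases h.hs with h2 | h2
      · exact (md0_no h2.2 h1).elim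
      · rw [h2] at h1
        rw [hw' z h1]; simp

/-- the only source at `a` is `w` -/
theorem Cx.src_a (h : Cx G c w w' a b q q' p p' r s) {v : V} (hv : v ∈ Qs G c 0)
    (hva : G.Adj v a) : v = w := by
  rcases n3m h.na hva.symm with h1 | h1 | h1
  · exact h1
  · rw [h1] at hv
    exact absurd (qne hv h.q1) (by simp)
  · rw [h1] at hv
    exact absurd (qne hv h.q1') (by simp)

/-- sources at `b` -/
theorem Cx.src_b (hP : PF G c) (h : Cx G c w w' a b q q' p p' r s) {v : V} (hv : v ∈ Qs G c 0)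
    (hvb : G.Adj v b) : v = w ∨ v = w' := by
  by_cases h1 : v = w
  · exact Or.inl h1
  · by_cases h2 : G.Adj w v
    · exact Or.inr (nice_uniq hP.nice ⟨h2, by rw [h.cw, qc hv]⟩ h.mw)
    · have h3 := hP.two w v b a h.w0 hv (fun hh => h1 hh.symm) h2 (n33 h.nw) hvb (n32 h.nw) h.a0.1
      exact Or.inl (h.src_a hv h3)

/-- touched sources -/
theorem Cx.tSrc (hP : PF G c) (h : Cx G c w w' a b q q' p p' r s) {v : V} (hv : v ∈ Qs G c 0)
    (ht : Tc G c {w, a, q, p'} v) : v = w ∨ v = w' := by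
  have hc := hP.nice
  have hcv := qc hv
  obtain ⟨z, hz, h1⟩ := ht
  have hz' := h.zone hc hz
  rcases h1 with h1 | ⟨h1, h2⟩
  · subst h1
    rcases hz' with h3 | h3 | h3 | h3 | h3 | h3 | h3 | h3 | h3 | h3
    · exact Or.inl h3
    · exact Or.inr h3
    · rw [h3, h.a0.1] at hcv; exact absurd hcv (by simp)
    · rw [h3, h.b0.1] at hcv; exact absurd hcv (by simp)
    · rw [h3] at hv; exact absurd (qne hv h.q1) (by simp)
    · rw [h3] at hv; exact absurd (qne hv h.q1') (by simp)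
    · rw [h3, h.cp] at hcv; exact absurd hcv (by simp)
    · rw [h3, h.cp'] at hcv; exact absurd hcv (by simp)
    · rcases h.hr with h4 | h4
      · rw [← h3] at h4; exact (w0w1' h4 (qW hv)).elim
      · exact Or.inr (h3.trans h4)
    · rcases h.hs with h4 | h4
      · rw [← h3] at h4; exact (w0w1' h4 (qW hv)).elim
      · exact Or.inr (h3.trans h4)
  · rcases hz' with h3 | h3 | h3 | h3 | h3 | h3 | h3 | h3 | h3 | h3
    · exact absurd (by rw [hcv, h3, h.cw]) h2
    · exact absurd (by rw [hcv, h3, h.cw']) h2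
    · rw [h3] at h1; exact Or.inl (h.src_a hv h1)
    · rw [h3] at h1; exact h.src_b hP hv h1
    · exact absurd (by rw [hcv, h3, h.cq]) h2
    · exact absurd (by rw [hcv, h3, h.cq']) h2
    · rw [h3] at h1
      exact (B0B1 (Q0_nb hc hv h1 h.cp) (h.pB1 hc)).elim
    · rw [h3] at h1
      exact (B0B1 (Q0_nb hc hv h1 h.cp') (h.pB1' hc)).elim
    · exact absurd (by rw [hcv, h3, h.cr]) h2
    · exact absurd (by rw [hcv, h3, h.cs]) h2

/-- the only neighbour in `W1` of `p` is `q` -/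
theorem Cx.uniq_q (hP : PF G c) (h : Cx G c w w' a b q q' p p' r s) {v : V} (hv : IsW1 G c v)
    (hvp : G.Adj v p) : v = q := by
  by_contra hne
  have h1 := hP.rule1 p q v (h.pB1 hP.nice) h.qp.symm hvp.symm (fun hh => hne hh.symm)
    (qW h.q1) hv
  have h2 : v = q' := nice_uniq hP.nice ⟨h1, by rw [h.cq, hv.1]⟩ h.mq
  rw [h2] at hvp
  exact hP.xpi w a q q' p p' ⟨h.w0, h.na, h.mq, h.q1, h.q1', h.qp, h.mp, h.cp⟩ hvp

/-- touched vertices of `Q1` -/
theorem Cx.tQ1 (hP : PF G c) (h : Cx G c w w' a b q q' p p' r s) {v : V} (hv : v ∈ Qs G c 1)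
    (ht : Tc G c {w, a, q, p'} v) : v = w' ∨ v = q ∨ v = q' ∨ G.Adj v b := by
  have hc := hP.nice
  have hcv := qc hv
  have hrs : ∀ t, (t = r ∨ t = s) → v = t → v = w' := by
    rintro t (rfl | rfl) h3
    · rcases h.hr with h4 | h4
      · rw [← h3] at h4; exact (w0w1' h4 (qW hv)).elim
      · exact h3.trans h4
    · rcases h.hs with h4 | h4
      · rw [← h3] at h4; exact (w0w1' h4 (qW hv)).elim
      · exact h3.trans h4
  obtain ⟨z, hz, h1⟩ := ht
  have hz' := h.zone hc hz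
  rcases h1 with h1 | ⟨h1, h2⟩
  · subst h1
    rcases hz' with h3 | h3 | h3 | h3 | h3 | h3 | h3 | h3 | h3 | h3
    · rw [h3] at hv; exact absurd (qne hv h.w0) (by simp)
    · exact Or.inl h3
    · rw [h3, h.a0.1] at hcv; exact absurd hcv (by simp)
    · rw [h3, h.b0.1] at hcv; exact absurd hcv (by simp)
    · exact Or.inr (Or.inl h3)
    · exact Or.inr (Or.inr (Or.inl h3))
    · rw [h3, h.cp] at hcv; exact absurd hcv (by simp)
    · rw [h3, h.cp'] at hcv; exact absurd hcv (by simp)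
    · exact Or.inl (hrs r (Or.inl rfl) h3)
    · exact Or.inl (hrs s (Or.inr rfl) h3)
  · rcases hz' with h3 | h3 | h3 | h3 | h3 | h3 | h3 | h3 | h3 | h3
    · exact absurd (by rw [hcv, h3, h.cw]) h2
    · exact absurd (by rw [hcv, h3, h.cw']) h2
    · rw [h3] at h1
      rcases n3m h.na h1.symm with h4 | h4 | h4
      · rw [h4] at hv; exact absurd (qne hv h.w0) (by simp)
      · exact Or.inr (Or.inl h4)
      · exact Or.inr (Or.inr (Or.inl h4))
    · rw [h3] at h1; exact Or.inr (Or.inr (Or.inr h1))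
    · exact absurd (by rw [hcv, h3, h.cq]) h2
    · exact absurd (by rw [hcv, h3, h.cq']) h2
    · rw [h3] at h1
      exact Or.inr (Or.inl (h.uniq_q hP (qW hv) h1))
    · rw [h3] at h1
      rcases n3m h.np h1.symm with h4 | h4 | h4
      · rw [h4, h.cp] at hcv; exact absurd hcv (by simp)
      · exact Or.inl (hrs r (Or.inl rfl) h4)
      · exact Or.inl (hrs s (Or.inr rfl) h4)
    · exact absurd (by rw [hcv, h3, h.cr]) h2
    · exact absurd (by rw [hcv, h3, h.cs]) h2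

/-- touched vertices of `B0` -/
theorem Cx.tB0 (hP : PF G c) (h : Cx G c w w' a b q q' p p' r s) {v : V} (hv : IsB0 G c v)
    (ht : Tc G c {w, a, q, p'} v) :
    v = a ∨ v = b ∨ G.Adj v w' ∨ G.Adj v r ∨ G.Adj v s := by
  have hc := hP.nice
  have hcv := hv.1
  obtain ⟨z, hz, h1⟩ := ht
  have hz' := h.zone hc hz
  rcases h1 with h1 | ⟨h1, h2⟩
  · subst h1
    rcases hz' with h3 | h3 | h3 | h3 | h3 | h3 | h3 | h3 | h3 | h3
    · rw [h3, h.cw] at hcv; exact absurd hcv (by simp)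
    · rw [h3, h.cw'] at hcv; exact absurd hcv (by simp)
    · exact Or.inl h3
    · exact Or.inr (Or.inl h3)
    · rw [h3, h.cq] at hcv; exact absurd hcv (by simp)
    · rw [h3, h.cq'] at hcv; exact absurd hcv (by simp)
    · rw [h3] at hv; exact (B0B1 hv (h.pB1 hc)).elim
    · rw [h3] at hv; exact (B0B1 hv (h.pB1' hc)).elim
    · rw [h3, h.cr] at hcv; exact absurd hcv (by simp)
    · rw [h3, h.cs] at hcv; exact absurd hcv (by simp)
  · rcases hz' with h3 | h3 | h3 | h3 | h3 | h3 | h3 | h3 | h3 | h3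
    · rw [h3] at h1
      rcases n3m h.nw h1.symm with h4 | h4 | h4
      · rw [h4, h.cw'] at hcv; exact absurd hcv (by simp)
      · exact Or.inl h4
      · exact Or.inr (Or.inl h4)
    · rw [h3] at h1; exact Or.inr (Or.inr (Or.inl h1))
    · exact absurd (by rw [hcv, h3, h.a0.1]) h2
    · exact absurd (by rw [hcv, h3, h.b0.1]) h2
    · rw [h3] at h1
      rcases n3m h.nq h1.symm with h4 | h4 | h4
      · rw [h4, h.cq'] at hcv; exact absurd hcv (by simp)
      · exact Or.inl h4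
      · rw [h4] at hv; exact (B0B1 hv (h.pB1 hc)).elim
    · rw [h3] at h1
      exact Or.inl (q1_B0 hP.cub h.q1' h1.symm (n33 h.na).symm hv h.a0)
    · exact absurd (by rw [hcv, h3, h.cp]) h2
    · exact absurd (by rw [hcv, h3, h.cp']) h2
    · rw [h3] at h1; exact Or.inr (Or.inr (Or.inr (Or.inl h1)))
    · rw [h3] at h1; exact Or.inr (Or.inr (Or.inr (Or.inr h1)))

/-- touched vertices of `B1` -/
theorem Cx.tB1 (hP : PF G c) (h : Cx G c w w' a b q q' p p' r s) {v : V} (hv : IsB1 G c v)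
    (ht : Tc G c {w, a, q, p'} v) :
    v = p ∨ v = p' ∨ G.Adj v q' ∨ G.Adj v w' ∨ G.Adj v r ∨ G.Adj v s := by
  have hc := hP.nice
  have hcv := hv.1
  obtain ⟨z, hz, h1⟩ := ht
  have hz' := h.zone hc hz
  rcases h1 with h1 | ⟨h1, h2⟩
  · subst h1
    rcases hz' with h3 | h3 | h3 | h3 | h3 | h3 | h3 | h3 | h3 | h3
    · rw [h3, h.cw] at hcv; exact absurd hcv (by simp)
    · rw [h3, h.cw'] at hcv; exact absurd hcv (by simp)
    · rw [h3] at hv; exact (B0B1 h.a0 hv).elim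
    · rw [h3] at hv; exact (B0B1 h.b0 hv).elim
    · rw [h3, h.cq] at hcv; exact absurd hcv (by simp)
    · rw [h3, h.cq'] at hcv; exact absurd hcv (by simp)
    · exact Or.inl h3
    · exact Or.inr (Or.inl h3)
    · rw [h3, h.cr] at hcv; exact absurd hcv (by simp)
    · rw [h3, h.cs] at hcv; exact absurd hcv (by simp)
  · rcases hz' with h3 | h3 | h3 | h3 | h3 | h3 | h3 | h3 | h3 | h3
    · rw [h3] at h1
      exact (B0B1 (Q0_nb hc h.w0 h1.symm hcv) hv).elim
    · rw [h3] at h1; exact Or.inr (Or.inr (Or.inr (Or.inl h1)))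
    · exact absurd (by rw [hcv, h3, h.a0.1]) h2
    · exact absurd (by rw [hcv, h3, h.b0.1]) h2
    · rw [h3] at h1
      exact Or.inl (q1_B1 h.q1 h1.symm h.qp hv (h.pB1 hc))
    · rw [h3] at h1; exact Or.inr (Or.inr (Or.inl h1))
    · exact absurd (by rw [hcv, h3, h.cp]) h2
    · exact absurd (by rw [hcv, h3, h.cp']) h2
    · rw [h3] at h1; exact Or.inr (Or.inr (Or.inr (Or.inr (Or.inl h1))))
    · rw [h3] at h1; exact Or.inr (Or.inr (Or.inr (Or.inr (Or.inr h1))))

end Ctx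

/-- slots which are attached to the black vertex `v` -/
def ExP (G : SimpleGraph V) (c : V → Bool) (v : V) (s : V × V) : Prop :=
  (s.2 = v ∧ s.1 ∈ Qs G c 0 ∧ c v = false ∧ ∃ x y, N3 G v s.1 x y ∧ x ∈ Qs G c 1 ∧ IsW0 G c y) ∨
    ∃ q q' p, Xc G c s.1 s.2 q q' p v

def Ev (G : SimpleGraph V) (c : V → Bool) (v : V) : Finset (V × V) :=
  univ.filter fun s => ExP G c v s

theorem mem_Ev {v : V} {s : V × V} : s ∈ Ev G c v ↔ ExP G c v s := by
  simp [Ev]

theorem xca0 (hc : Nice G c) {w a q q' p p' : V} (h : Xc G c w a q q' p p') : IsB0 G c a := by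
  have h1 : c a = false := by
    by_contra hh
    have hh' : c a = true := by simpa using hh
    have h2 : MA G c a w := ⟨(n31 h.na), by rw [hh', qc h.w0]⟩
    have h3 : MA G c a q := ⟨(n32 h.na), by rw [hh', qc h.q1]⟩
    exact h.na.1 (nice_uniq hc h2 h3)
  exact Q0_nb hc h.w0 (n31 h.na).symm h1

theorem Ev_card (hP : PF G c) (v : V) : (Ev G c v).card ≤ 1 := by
  have hc := hP.nice
  have mixed : ∀ s t : V × V,
      (s.2 = v ∧ s.1 ∈ Qs G c 0 ∧ c v = false ∧
        ∃ x y, N3 G v s.1 x y ∧ x ∈ Qs G c 1 ∧ IsW0 G c y) →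
      (∃ q q' p, Xc G c t.1 t.2 q q' p v) → False := by
    rintro s t ⟨-, h2, h3, x, y, h4, -, -⟩ ⟨q, q', p, h5⟩
    exact md0_no (Q0_nb hc h2 (n31 h4).symm h3).2 (ma_symm h5.pp)
  rw [Finset.card_le_one]
  intro s hs t ht
  rw [mem_Ev] at hs ht
  rcases hs with hs | hs
  · rcases ht with ht | ht
    · obtain ⟨h1, h2, -, x, y, h4, h5, h6⟩ := hs
      obtain ⟨g1, g2, -, x2, y2, g4, -, -⟩ := ht
      have : t.1 = s.1 := by
        rcases n3m h4 (n31 g4) with h | h | h
        · exact h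
        · rw [h] at g2; exact absurd (qne g2 h5) (by simp)
        · rw [h] at g2; exact (w0w1' h6 (qW g2)).elim
      exact Prod.ext this.symm (h1.trans g1.symm)
    · exact (mixed s t hs ht).elim
  · rcases ht with ht | ht
    · exact (mixed t s ht hs).elim
    · obtain ⟨q, q', p, h1⟩ := hs
      obtain ⟨k, k', l, h2⟩ := ht
      have hpl : p = l := nice_uniq hc (ma_symm h1.pp) (ma_symm h2.pp)
      subst hpl
      have hqk : q = k := by
        by_contra hne
        have h3 := hP.rule1 p q k (B1_of hc h1.pp h1.pb) h1.qp.symm h2.qp.symm hne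
          (qW h1.q1) (qW h2.q1)
        have h4 : k = q' := nice_uniq hc ⟨h3, by rw [qc h1.q1, qc h2.q1]⟩ h1.qq
        have h5 := h2.qp
        rw [h4] at h5
        exact hP.xpi _ _ _ _ _ _ h1 h5
      subst hqk
      have ha : s.2 = t.2 :=
        q1_B0 hP.cub h1.q1 (n32 h1.na).symm (n32 h2.na).symm (xca0 hc h1) (xca0 hc h2)
      have hw : t.1 = s.1 := by
        have h3 := (n31 h2.na)
        rw [← ha] at h3
        rcases n3m h1.na h3 with h | h | h
        · exact h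
        · have := h2.w0
          rw [h] at this; exact absurd (qne this h1.q1) (by simp)
        · have := h2.w0
          rw [h] at this; exact absurd (qne this h1.q1') (by simp)
      exact Prod.ext hw.symm ha

section Kill

variable {w w' a b q q' p p' r s : V}

/-- the possible killed slots -/
def KS (G : SimpleGraph V) (c : V → Bool) (w w' q' p' r s : V) (t : V × V) : Prop :=
  t.1 = w ∨ (w' ∈ Qs G c 0 ∧ t.1 ≠ w ∧ G.Adj w' t.2) ∨
    ∃ v, ExP G c v t ∧ ((G.Adj q' v ∧ IsB1 G c v) ∨ (G.Adj r v ∧ v ≠ p') ∨ (G.Adj s v ∧ v ≠ p'))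

/-- a vertex with two white neighbours is black -/
theorem blk_two (hc : Nice G c) {a x y : V} (h1 : G.Adj a x) (h2 : G.Adj a y) (h : x ≠ y)
    (hx : c x = true) (hy : c y = true) : c a = false := by
  by_contra hh
  have hh' : c a = true := by simpa using hh
  exact h (nice_uniq hc ⟨h1, by rw [hh', hx]⟩ ⟨h2, by rw [hh', hy]⟩)

theorem Cx.ksW' (h : Cx G c w w' a b q q' p p' r s) {w₂ a₂ : V}
    (hw : w₂ ∈ Qs G c 0) (hwa : G.Adj w₂ a₂) (he : w₂ = w ∨ w₂ = w') :
    KS G c w w' q' p' r s (w₂, a₂) := by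
  rcases he with rfl | rfl
  · exact Or.inl rfl
  · refine Or.inr (Or.inl ⟨hw, ?_, hwa⟩)
    intro hh
    exact G.irrefl (hh ▸ h.mw.1)

theorem Cx.ks_a (h : Cx G c w w' a b q q' p p' r s) {w₂ a₂ : V}
    (hw : w₂ ∈ Qs G c 0) (hwa : G.Adj w₂ a₂) (he : a₂ = a) :
    KS G c w w' q' p' r s (w₂, a₂) := by
  subst he
  exact Or.inl (h.src_a hw hwa)

theorem Cx.ks_b (hP : PF G c) (h : Cx G c w w' a b q q' p p' r s) {w₂ a₂ : V}
    (hw : w₂ ∈ Qs G c 0) (hwa : G.Adj w₂ a₂) (he : a₂ = b) :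
    KS G c w w' q' p' r s (w₂, a₂) := by
  refine h.ksW' hw hwa ?_
  rw [he] at hwa
  exact h.src_b hP hw hwa

/-- the mate of `w'` is `w` -/
theorem Cx.mate' (hc : Nice G c) (h : Cx G c w w' a b q q' p p' r s) {x y : V}
    (hxy : MA G c x y) (hx : x = w') : y = w := by
  rw [hx] at hxy
  exact nice_uniq hc hxy (ma_symm h.mw)

theorem Cx.rW (h : Cx G c w w' a b q q' p p' r s) {x t : V} (hx : IsW1 G c x)
    (hxt : x = t) (ht : t = r ∨ t = s) : x = w' := by
  rcases ht with rfl | rfl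
  · rcases h.hr with h4 | h4
    · rw [← hxt] at h4; exact (w0w1' h4 hx).elim
    · exact hxt.trans h4
  · rcases h.hs with h4 | h4
    · rw [← hxt] at h4; exact (w0w1' h4 hx).elim
    · exact hxt.trans h4

/-- killed slots of type X -/
theorem Cx.killX (hP : PF G c) (h : Cx G c w w' a b q q' p p' r s) {w₂ a₂ q₂ q₂' p₂ p₂' : V}
    (hx : Xc G c w₂ a₂ q₂ q₂' p₂ p₂') (hw₂ : G.Adj p₂' w' → w₂ = w) {v : V}
    (hv : v = w₂ ∨ v = a₂ ∨ v = q₂ ∨ v = p₂') (ht : Tc G c {w, a, q, p'} v) :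
    KS G c w w' q' p' r s (w₂, a₂) := by
  have hc := hP.nice
  have hwa : G.Adj w₂ a₂ := (n31 hx.na).symm
  have ha0 := xca0 hc hx
  have hq2 : q₂ = w' → False := by
    intro hh
    have := h.mate' hc hx.qq hh
    have h1 := hx.q1'
    rw [this] at h1
    exact absurd (qne h1 h.w0) (by simp)
  have hq2' : q₂' = w' → False := by
    intro hh
    have := h.mate' hc (ma_symm hx.qq) hh
    have h1 := hx.q1
    rw [this] at h1
    exact absurd (qne h1 h.w0) (by simp)
  have adjW : G.Adj a₂ w' → KS G c w w' q' p' r s (w₂, a₂) := by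
    intro hh
    rcases n3m hx.na hh with h1 | h1 | h1
    · exact h.ksW' hx.w0 hwa (Or.inr h1.symm)
    · exact (hq2 h1.symm).elim
    · exact (hq2' h1.symm).elim
  have adjr : ∀ t, (t = r ∨ t = s) → G.Adj a₂ t → KS G c w w' q' p' r s (w₂, a₂) := by
    intro t ht hat
    refine adjW ?_
    have hW : IsW1 G c t := by
      rcases n3m hx.na hat with h1 | h1 | h1
      · rw [h1]; exact qW hx.w0
      · rw [h1]; exact qW hx.q1
      · rw [h1]; exact qW hx.q1'
    rw [← h.rW hW rfl ht]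
    exact hat
  have hqa : ∀ t, t ∈ Qs G c 1 → q₂ = t → G.Adj t a → KS G c w w' q' p' r s (w₂, a₂) := by
    intro t ht hqt hta
    rw [← hqt] at hta
    exact h.ks_a hx.w0 hwa (q1_B0 hP.cub hx.q1 (n32 hx.na).symm hta ha0 h.a0)
  rcases hv with rfl | rfl | rfl | rfl
  · exact h.ksW' hx.w0 hwa (h.tSrc hP hx.w0 ht)
  · rcases h.tB0 hP ha0 ht with h1 | h1 | h1 | h1 | h1
    · exact h.ks_a hx.w0 hwa h1
    · exact h.ks_b hP hx.w0 hwa h1
    · exact adjW h1
    · exact adjr r (Or.inl rfl) h1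
    · exact adjr s (Or.inr rfl) h1
  · rcases h.tQ1 hP hx.q1 ht with h1 | h1 | h1 | h1
    · exact (hq2 h1).elim
    · exact hqa q h.q1 h1 (n32 h.na).symm
    · exact hqa q' h.q1' h1 (n33 h.na).symm
    · exact h.ks_b hP hx.w0 hwa (q1_B0 hP.cub hx.q1 (n32 hx.na).symm h1 ha0 h.b0)
  · have hB1 : IsB1 G c v := B1_of hc (ma_symm hx.pp) (by rw [← hx.pp.2]; exact hx.pb)
    have hpp : v = p' → KS G c w w' q' p' r s (w₂, a₂) := by
      intro hh
      have h1 := hx.pp
      rw [hh] at h1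
      have h2 : p₂ = p := nice_uniq hc (ma_symm h1) (ma_symm h.mp)
      have h3 := hx.qp
      rw [h2] at h3
      exact hqa q h.q1 (h.uniq_q hP (qW hx.q1) h3) (n32 h.na).symm
    rcases h.tB1 hP hB1 ht with h1 | h1 | h1 | h1 | h1 | h1
    · exfalso
      have h2 := hx.pp
      rw [h1] at h2
      have h3 : p₂ = p' := nice_uniq hc (ma_symm h2) h.mp
      have h4 := hx.qp
      rw [h3] at h4
      rcases n3m h.np h4.symm with h5 | h5 | h5
      · have h6 := qc hx.q1
        rw [h5, h.cp] at h6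
        exact absurd h6 (by simp)
      · exact hq2 (h.rW (qW hx.q1) h5 (Or.inl rfl))
      · exact hq2 (h.rW (qW hx.q1) h5 (Or.inr rfl))
    · exact hpp h1
    · exact Or.inr (Or.inr ⟨v, Or.inr ⟨_, _, _, hx⟩, Or.inl ⟨h1.symm, hB1⟩⟩)
    · exact Or.inl (hw₂ h1)
    · by_cases h2 : v = p'
      · exact hpp h2
      · exact Or.inr (Or.inr ⟨v, Or.inr ⟨_, _, _, hx⟩, Or.inr (Or.inl ⟨h1.symm, h2⟩)⟩)
    · by_cases h2 : v = p'
      · exact hpp h2
      · exact Or.inr (Or.inr ⟨v, Or.inr ⟨_, _, _, hx⟩, Or.inr (Or.inr ⟨h1.symm, h2⟩)⟩)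

/-- killed slots of type M -/
theorem Cx.killM (hP : PF G c) (h : Cx G c w w' a b q q' p p' r s) {w₂ w₂' a₂ x x' y : V}
    (hw : w₂ ∈ Qs G c 0) (hm : MA G c w₂ w₂') (hN : N3 G a₂ w₂ x y) (hx : x ∈ Qs G c 1)
    (hxx : MA G c x x') (hy : IsW0 G c y ∨ y = w₂' ∧ w₂' ∈ Qs G c 1) (he : x' ≠ w) {v : V}
    (hv : v = x ∨ v = w₂ ∨ v = a₂) (ht : Tc G c {w, a, q, p'} v) :
    KS G c w w' q' p' r s (w₂, a₂) := by
  have hc := hP.nice
  have hwa : G.Adj w₂ a₂ := (n31 hN).symm
  have hca : c a₂ = false := blk_two hc (n31 hN) (n32 hN) hN.1 (qc hw) (qc hx)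
  have ha0 : IsB0 G c a₂ := Q0_nb hc hw hwa hca
  have hxw : x = w' → False := fun hh => he (h.mate' hc hxx hh)
  have adjW : G.Adj a₂ w' → KS G c w w' q' p' r s (w₂, a₂) := by
    intro hh
    rcases n3m hN hh with h1 | h1 | h1
    · exact h.ksW' hw hwa (Or.inr h1.symm)
    · exact (hxw h1.symm).elim
    · rcases hy with hy | hy
      · rw [← h1] at hy
        exact (w0w1' hy (h.wW1' hc)).elim
      · exact Or.inl (h.mate' hc (ma_symm hm) (hy.1.symm.trans h1.symm))
  have adjr : ∀ t, (t = r ∨ t = s) → G.Adj a₂ t → KS G c w w' q' p' r s (w₂, a₂) := by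
    intro t ht hat
    rcases hy with hy | hy
    · have h1 : a₂ ≠ p' := by
        intro hh
        rw [hh] at ha0
        exact B0B1 ha0 (h.pB1' hc)
      refine Or.inr (Or.inr ⟨a₂, Or.inl ⟨rfl, hw, hca, x, y, hN, hx, hy⟩, Or.inr ?_⟩)
      rcases ht with rfl | rfl
      · exact Or.inl ⟨hat.symm, h1⟩
      · exact Or.inr ⟨hat.symm, h1⟩
    · refine adjW ?_
      have hW : IsW1 G c t := by
        rcases n3m hN hat with h1 | h1 | h1
        · rw [h1]; exact qW hw
        · rw [h1]; exact qW hx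
        · rw [h1, hy.1]; exact qW hy.2
      rw [← h.rW hW rfl ht]
      exact hat
  have hqa : ∀ t, x = t → G.Adj t a → KS G c w w' q' p' r s (w₂, a₂) := by
    intro t hqt hta
    rw [← hqt] at hta
    exact h.ks_a hw hwa (q1_B0 hP.cub hx (n32 hN).symm hta ha0 h.a0)
  rcases hv with rfl | rfl | rfl
  · rcases h.tQ1 hP hx ht with h1 | h1 | h1 | h1
    · exact (hxw h1).elim
    · exact hqa q h1 (n32 h.na).symm
    · exact hqa q' h1 (n33 h.na).symm
    · exact h.ks_b hP hw hwa (q1_B0 hP.cub hx (n32 hN).symm h1 ha0 h.b0)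
  · exact h.ksW' hw hwa (h.tSrc hP hw ht)
  · rcases h.tB0 hP ha0 ht with h1 | h1 | h1 | h1 | h1
    · exact h.ks_a hw hwa h1
    · exact h.ks_b hP hw hwa h1
    · exact adjW h1
    · exact adjr r (Or.inl rfl) h1
    · exact adjr s (Or.inr rfl) h1

/-- killed slots of type D1 -/
theorem Cx.killD (hP : PF G c) (h : Cx G c w w' a b q q' p p' r s) {w₂ w₂' a₂ x x' : V}
    (hw : w₂ ∈ Qs G c 0) (hw' : w₂' ∈ Qs G c 0) (hm : MA G c w₂ w₂') (hN : N3 G a₂ w₂ w₂' x)
    (hx : x ∈ Qs G c 1) (hxx : MA G c x x') (he : x' ≠ w) {v : V}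
    (hv : v = x ∨ v = w₂ ∨ v = a₂) (ht : Tc G c {w, a, q, p'} v) :
    KS G c w w' q' p' r s (w₂, a₂) := by
  have hc := hP.nice
  have hwa : G.Adj w₂ a₂ := (n31 hN).symm
  have hca : c a₂ = false := blk_two hc (n31 hN) (n32 hN) hN.1 (qc hw) (qc hw')
  have ha0 : IsB0 G c a₂ := Q0_nb hc hw hwa hca
  have hxw : x = w' → False := fun hh => he (h.mate' hc hxx hh)
  have adjW : G.Adj a₂ w' → KS G c w w' q' p' r s (w₂, a₂) := by
    intro hh
    rcases n3m hN hh with h1 | h1 | h1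
    · exact h.ksW' hw hwa (Or.inr h1.symm)
    · exact Or.inl (h.mate' hc (ma_symm hm) h1.symm)
    · exact (hxw h1.symm).elim
  have adjr : ∀ t, (t = r ∨ t = s) → G.Adj a₂ t → KS G c w w' q' p' r s (w₂, a₂) := by
    intro t ht hat
    refine adjW ?_
    have hW : IsW1 G c t := by
      rcases n3m hN hat with h1 | h1 | h1
      · rw [h1]; exact qW hw
      · rw [h1]; exact qW hw'
      · rw [h1]; exact qW hx
    rw [← h.rW hW rfl ht]
    exact hat
  have hqa : ∀ t, x = t → G.Adj t a → KS G c w w' q' p' r s (w₂, a₂) := by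
    intro t hqt hta
    rw [← hqt] at hta
    exact h.ks_a hw hwa (q1_B0 hP.cub hx (n33 hN).symm hta ha0 h.a0)
  rcases hv with rfl | rfl | rfl
  · rcases h.tQ1 hP hx ht with h1 | h1 | h1 | h1
    · exact (hxw h1).elim
    · exact hqa q h1 (n32 h.na).symm
    · exact hqa q' h1 (n33 h.na).symm
    · exact h.ks_b hP hw hwa (q1_B0 hP.cub hx (n33 hN).symm h1 ha0 h.b0)
  · exact h.ksW' hw hwa (h.tSrc hP hw ht)
  · rcases h.tB0 hP ha0 ht with h1 | h1 | h1 | h1 | h1
    · exact h.ks_a hw hwa h1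
    · exact h.ks_b hP hw hwa h1
    · exact adjW h1
    · exact adjr r (Or.inl rfl) h1
    · exact adjr s (Or.inr rfl) h1

/-- killed slots of a house -/
theorem Cx.killH (hP : PF G c) (h : Cx G c w w' a b q q' p p' r s) {u u' d d' α β w₂ a₂ : V}
    (hB : Blk G c u u' d d' α β) (hN : N3 G α u d u') (hu : u' ∈ Qs G c 1)
    (hw₂ : w₂ = u ∨ w₂ = d) (ha₂ : a₂ = α ∨ a₂ = β) {v : V}
    (hv : v = u' ∨ v = u ∨ v = α) (ht : Tc G c {w, a, q, p'} v) :
    KS G c w w' q' p' r s (w₂, a₂) := by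
  have hc := hP.nice
  have huα : G.Adj u α := n32 hB.nb
  have huβ : G.Adj u β := n33 hB.nb
  have hdα : G.Adj d α := n32 hB.nd
  have hdβ : G.Adj d β := n33 hB.nd
  have hcα : c α = false := blk_two hc huα.symm hdα.symm hB.ne (qc hB.b0) (qc hB.d0)
  have hα0 : IsB0 G c α := Q0_nb hc hB.b0 huα hcα
  have hnoa : ∀ t, G.Adj u t → G.Adj d t → t = a → False := by
    intro t h1 h2 h3
    rw [h3] at h1 h2
    exact hB.ne ((h.src_a hB.b0 h1).trans (h.src_a hB.d0 h2).symm)
  have huw : u ≠ w := by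
    intro hh
    have h1 : G.Adj u a := by rw [hh]; exact n32 h.nw
    rcases n3m hB.nb h1 with h2 | h2 | h2
    · have h3 := h.a0.1
      rw [h2, qc hu] at h3
      exact absurd h3 (by simp)
    · exact hnoa α huα hdα h2.symm
    · exact hnoa β huβ hdβ h2.symm
  have hdw : d ≠ w := by
    intro hh
    have h1 : G.Adj d a := by rw [hh]; exact n32 h.nw
    rcases n3m hB.nd h1 with h2 | h2 | h2
    · have h3 := h.a0.1
      rw [h2, ← hB.md.2, qc hB.d0] at h3
      exact absurd h3 (by simp)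
    · exact hnoa α huα hdα h2.symm
    · exact hnoa β huβ hdβ h2.symm
  have hw2w : w₂ ≠ w := by
    rcases hw₂ with rfl | rfl
    · exact huw
    · exact hdw
  have fin : (u = w' ∨ d = w') → KS G c w w' q' p' r s (w₂, a₂) := by
    intro hh
    refine Or.inr (Or.inl ⟨?_, hw2w, ?_⟩)
    · rcases hh with rfl | rfl
      · exact hB.b0
      · exact hB.d0
    · show G.Adj w' a₂
      rcases hh with hh | hh
      · rw [← hh]
        rcases ha₂ with rfl | rfl
        · exact huα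
        · exact huβ
      · rw [← hh]
        rcases ha₂ with rfl | rfl
        · exact hdα
        · exact hdβ
  have hu' : u' = w' → False := fun hh => huw (h.mate' hc (ma_symm hB.mb) hh)
  have adjW : G.Adj α w' → KS G c w w' q' p' r s (w₂, a₂) := by
    intro hh
    rcases n3m hN hh with h1 | h1 | h1
    · exact fin (Or.inl h1.symm)
    · exact fin (Or.inr h1.symm)
    · exact (hu' h1.symm).elim
  have adjr : ∀ t, (t = r ∨ t = s) → G.Adj α t → KS G c w w' q' p' r s (w₂, a₂) := by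
    intro t ht hat
    refine adjW ?_
    have hW : IsW1 G c t := by
      rcases n3m hN hat with h1 | h1 | h1
      · rw [h1]; exact qW hB.b0
      · rw [h1]; exact qW hB.d0
      · rw [h1]; exact qW hu
    rw [← h.rW hW rfl ht]
    exact hat
  have hαb : α = b → KS G c w w' q' p' r s (w₂, a₂) := by
    intro hh
    rw [hh] at huα
    rcases h.src_b hP hB.b0 huα with h1 | h1
    · exact (huw h1).elim
    · exact fin (Or.inl h1)
  rcases hv with rfl | rfl | rfl
  · rcases h.tQ1 hP hu ht with h1 | h1 | h1 | h1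
    · exact (hu' h1).elim
    · exfalso
      have h2 : G.Adj v a := by rw [h1]; exact (n32 h.na).symm
      exact hnoa α huα hdα (q1_B0 hP.cub hu (n33 hN).symm h2 hα0 h.a0)
    · exfalso
      have h2 : G.Adj v a := by rw [h1]; exact (n33 h.na).symm
      exact hnoa α huα hdα (q1_B0 hP.cub hu (n33 hN).symm h2 hα0 h.a0)
    · exact hαb (q1_B0 hP.cub hu (n33 hN).symm h1 hα0 h.b0)
  · rcases h.tSrc hP hB.b0 ht with h1 | h1
    · exact (huw h1).elim
    · exact fin (Or.inl h1)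
  · rcases h.tB0 hP hα0 ht with h1 | h1 | h1 | h1 | h1
    · exact (hnoa v huα hdα h1).elim
    · exact hαb h1
    · exact adjW h1
    · exact adjr r (Or.inl rfl) h1
    · exact adjr s (Or.inr rfl) h1

end Kill

/-- the slots of a source and of its twin -/
theorem twin_card (hP : PF G c) {u u' : V} (hu : u ∈ Qs G c 0) (hm : MA G c u u') :
    ∃ S : Finset (V × V), S.card ≤ 4 ∧ ∀ t : V × V, t.1 ∈ Qs G c 0 → t.1 ≠ u' →
      G.Adj t.1 t.2 → c t.2 = false → G.Adj u t.2 → t ∈ S := by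
  have hc := hP.nice
  obtain ⟨α, β, hαβ, hα, hβ, hcα, hcβ, hN⟩ := mate_nbs hP.cub hc hm
  have hcα' : c α = false := by rw [qc hu] at hcα; simpa using hcα
  have hcβ' : c β = false := by rw [qc hu] at hcβ; simpa using hcβ
  have huα : G.Adj u α := (hN α).2 (by simp)
  have huβ : G.Adj u β := (hN β).2 (by simp)
  have h2 : ∀ t : V × V, c t.2 = false → G.Adj u t.2 → t.2 = α ∨ t.2 = β := by
    intro t ht hut
    rcases (hN _).1 hut with h | h | h
    · rw [h, ← hm.2, qc hu] at ht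
      exact absurd ht (by simp)
    · exact Or.inl h
    · exact Or.inr h
  have tw : ∀ v : V, v ∈ Qs G c 0 → v ≠ u' → v ≠ u → ∀ γ, c γ = false → G.Adj u γ →
      G.Adj v γ → G.Adj v α ∧ G.Adj v β := by
    intro v hv h1 h3 γ _ h5 h6
    have hna : ¬ G.Adj u v := fun hh =>
      h1 (nice_uniq hc ⟨hh, by rw [qc hu, qc hv]⟩ hm)
    exact ⟨hP.two u v γ α hu hv (fun hh => h3 hh.symm) hna h5 h6 huα hcα',
      hP.two u v γ β hu hv (fun hh => h3 hh.symm) hna h5 h6 huβ hcβ'⟩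
  by_cases hex : ∃ t₀, t₀ ∈ Qs G c 0 ∧ t₀ ≠ u' ∧ t₀ ≠ u ∧ G.Adj t₀ α
  · obtain ⟨t₀, k1, k2, k3, k4⟩ := hex
    obtain ⟨g1, g2⟩ := tw t₀ k1 k2 k3 α hcα' huα k4
    obtain ⟨t', ht'⟩ := md1_ex (qW k1).2
    have hct' : c t' = true := by rw [← ht'.2]; exact qc k1
    have hBlk : Blk G c u u' t₀ t' α β := by
      have hna : ¬ G.Adj u t₀ := fun hh =>
        k2 (nice_uniq hc ⟨hh, by rw [qc hu, qc k1]⟩ hm)
      have hne : u ≠ t₀ := fun hh => k3 hh.symm
      refine { b0 := hu, d0 := k1, ne := hne, na := hna, mb := hm, md := ht',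
               nb := ⟨hα.symm, hβ.symm, hαβ, hN⟩, nd := ?_ }
      have e1 : t' ≠ α := by
        intro hh
        rw [hh, hcα'] at hct'
        exact absurd hct' (by simp)
      have e2 : t' ≠ β := by
        intro hh
        rw [hh, hcβ'] at hct'
        exact absurd hct' (by simp)
      obtain ⟨z, hz⟩ := N3_of hP.cub ht'.1 g1 e1
      have : β = z := by
        rcases n3m hz g2 with h | h | h
        · exact absurd h.symm e2
        · exact absurd h.symm hαβ
        · exact h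
      rw [← this] at hz
      exact hz
    refine ⟨({u, t₀} : Finset V) ×ˢ ({α, β} : Finset V), ?_, ?_⟩
    · rw [Finset.card_product]
      exact Nat.mul_le_mul Finset.card_le_two Finset.card_le_two
    · intro t h3 h4 h5 h6 h7
      rw [Finset.mem_product]
      refine ⟨?_, by simpa using h2 t h6 h7⟩
      simp only [Finset.mem_insert, Finset.mem_singleton]
      by_contra hh
      push Not at hh
      obtain ⟨g3, g4⟩ := tw t.1 h3 h4 hh.1 t.2 h6 h7 h5
      exact hP.k23 _ _ _ _ _ _ t.1 hBlk hh.1 hh.2 g3 g4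
  · refine ⟨({u} : Finset V) ×ˢ ({α, β} : Finset V), ?_, ?_⟩
    · rw [Finset.card_product, Finset.card_singleton]
      have : ({α, β} : Finset V).card ≤ 2 := Finset.card_le_two
      omega
    · intro t h3 h4 h5 h6 h7
      rw [Finset.mem_product]
      refine ⟨?_, by simpa using h2 t h6 h7⟩
      rw [Finset.mem_singleton]
      by_contra hh
      obtain ⟨g3, -⟩ := tw t.1 h3 h4 hh t.2 h6 h7 h5
      exact hex ⟨t.1, h3, h4, hh, g3⟩

theorem ev2 (hP : PF G c) (x y : V) : (Ev G c x ∪ Ev G c y).card ≤ 2 := by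
  have h1 := Ev_card hP x
  have h2 := Ev_card hP y
  have h3 := Finset.card_union_le (Ev G c x) (Ev G c y)
  omega

theorem slot_basic (hc : Nice G c) {F : Finset V} {s : V × V} (h : Alive G c F s) :
    s.1 ∈ Qs G c 0 ∧ G.Adj s.1 s.2 ∧ c s.2 = false := by
  obtain ⟨s1, s2⟩ := s
  have hB : ∀ b b' d d' α β : V, Blk G c b b' d d' α β → c α = false ∧ c β = false := by
    intro b b' d d' α β h
    exact ⟨blk_two hc (n32 h.nb).symm (n32 h.nd).symm h.ne (qc h.b0) (qc h.d0),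
      blk_two hc (n33 h.nb).symm (n33 h.nd).symm h.ne (qc h.b0) (qc h.d0)⟩
  rcases h with ⟨n, K, h1, -⟩ | ⟨n, H, τ, e, h1, -⟩
  · generalize hx : s1 = x1 at h1
    generalize hy : s2 = y1 at h1
    cases h1 with
    | ex1 b b' d d' α β y z h p w hp _ _ _ _ _ _ _ _ hw =>
      subst hx; subst hy
      rcases hw with rfl | rfl
      · exact ⟨hp.b0, n32 hp.nb, (hB _ _ _ _ _ _ hp.toBlk).1⟩
      · exact ⟨hp.d0, n32 hp.nd, (hB _ _ _ _ _ _ hp.toBlk).1⟩
    | d0 w w' a y hw hm hn _ =>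
      subst hx; subst hy
      exact ⟨hw, (n31 hn).symm, blk_two hc (n31 hn) (n32 hn) hn.1 (qc hw) (by rw [← hm.2, qc hw])⟩
    | blk b b' d d' α β y z u w hp _ _ hw =>
      subst hx; subst hy
      rcases hw with rfl | rfl
      · exact ⟨hp.b0, n32 hp.nb, (hB _ _ _ _ _ _ hp.toBlk).1⟩
      · exact ⟨hp.d0, n32 hp.nd, (hB _ _ _ _ _ _ hp.toBlk).1⟩
    | e w a x y hw hn hx0 _ =>
      subst hx; subst hy
      exact ⟨hw, (n31 hn).symm, blk_two hc (n31 hn) (n32 hn) hn.1 (qc hw) hx0.1⟩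
    | x3 w w' a q q' p p' r s hw _ hn _ hq _ _ _ _ _ _ _ =>
      subst hx; subst hy
      exact ⟨hw, (n31 hn).symm, blk_two hc (n31 hn) (n32 hn) hn.1 (qc hw) (qc hq)⟩
  · generalize hx : s1 = x1 at h1
    generalize hy : s2 = y1 at h1
    cases h1 with
    | m w w' a x x' y hw _ hn hq _ _ _ =>
      subst hx; subst hy
      exact ⟨hw, (n31 hn).symm, blk_two hc (n31 hn) (n32 hn) hn.1 (qc hw) (qc hq)⟩
    | x4 w w' a q q' p p' r r' s hw _ hn _ hq _ _ _ _ _ _ _ _ =>
      subst hx; subst hy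
      exact ⟨hw, (n31 hn).symm, blk_two hc (n31 hn) (n32 hn) hn.1 (qc hw) (qc hq)⟩
    | hs b b' d d' α β w a hb _ _ hw ha =>
      subst hx; subst hy
      have h2 := hB _ _ _ _ _ _ hb
      rcases hw with rfl | rfl <;> rcases ha with rfl | rfl
      · exact ⟨hb.b0, n32 hb.nb, h2.1⟩
      · exact ⟨hb.b0, n33 hb.nb, h2.2⟩
      · exact ⟨hb.d0, n32 hb.nd, h2.1⟩
      · exact ⟨hb.d0, n33 hb.nd, h2.2⟩
    | d1 w w' a x x' hw hw' _ hn _ _ =>
      subst hx; subst hy
      exact ⟨hw, (n31 hn).symm, blk_two hc (n31 hn) (n32 hn) hn.1 (qc hw) (qc hw')⟩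

section Main

variable {w w' a b q q' p p' r s : V}

/-- a killed slot is one of the listed slots -/
theorem Cx.kill (hP : PF G c) (h : Cx G c w w' a b q q' p p' r s) {F0 : Finset V}
    (hZ : ZD G c {w, a, q, p'} F0) (hn : NoA G c 4 F0) (he : ∀ n, NoE G c n F0) {t : V × V}
    (ht : Alive G c F0 t) (ht' : ¬ Alive G c (F0 ∪ {w, a, q, p'}) t) :
    KS G c w w' q' p' r s t := by
  have hc := hP.nice
  obtain ⟨t1, t2⟩ := t
  have hwZ : ZD G c {w} F0 := ZD_mono (by simp) hZ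
  have noe : ∀ n w₂ a₂ H τ e, CrB G c n w₂ a₂ H τ e → ZD G c (insert τ H) F0 → e ≠ w := by
    intro n w₂ a₂ H τ e h1 h2 h3
    exact he n w₂ a₂ H τ e h1 h2 (by rw [h3]; exact h.w0) (by rw [h3]; exact hwZ)
  have tc : ∀ K : Finset V, ZD G c K F0 → ¬ ZD G c K (F0 ∪ {w, a, q, p'}) →
      ∃ v ∈ K, Tc G c {w, a, q, p'} v := by
    intro K h1 h2
    exact touch hc fun h3 => h2 (ZD_union.2 ⟨h1, h3⟩)
  rcases ht with ⟨n, K, h1, h2⟩ | ⟨n, H, τ, e, h1, h2⟩
  · have h4 := hn n _ _ K h1 h2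
    have h3 : ¬ ZD G c K (F0 ∪ {w, a, q, p'}) := fun h3 => ht' (Or.inl ⟨n, K, h1, h3⟩)
    obtain ⟨v, hv, hvt⟩ := tc K h2 h3
    generalize hx : t1 = x1 at h1
    generalize hy : t2 = y1 at h1
    cases h1 with
    | ex1 b b' d d' α β y z h p w hp _ _ _ _ _ _ _ _ hw => omega
    | d0 w w' a y hw hm hn _ => omega
    | blk b b' d d' α β y z u w hp _ _ hw => omega
    | e w a x y hw hn hx0 _ => omega
    | x3 w₂ w₂' a₂ q₂ q₂' p₂ p₂' r₂ s₂ k0 km kn kq kq1 kq1' kqp kpp kc knp kr ks =>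
      subst hx; subst hy
      refine h.killX hP ⟨k0, kn, kq, kq1, kq1', kqp, kpp, kc⟩ ?_ (v := v) (by simpa using hv) hvt
      intro hh
      have hw2 : w' = w₂' → t1 = w := fun h5 => h.mate' hc (ma_symm km) h5.symm
      rcases n3m knp hh with h5 | h5 | h5
      · have h6 := h.cw'
        rw [h5, kc] at h6
        exact absurd h6 (by simp)
      · rcases kr with h6 | h6
        · rw [← h5] at h6
          exact (w0w1' h6 (h.wW1' hc)).elim
        · exact hw2 (h5.trans h6)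
      · rcases ks with h6 | h6
        · rw [← h5] at h6
          exact (w0w1' h6 (h.wW1' hc)).elim
        · exact hw2 (h5.trans h6)
  · have h3 : ¬ ZD G c (insert τ H) (F0 ∪ {w, a, q, p'}) :=
      fun h3 => ht' (Or.inr ⟨n, H, τ, e, h1, h3⟩)
    obtain ⟨v, hv, hvt⟩ := tc _ h2 h3
    have hew := noe n _ _ H τ e h1 h2
    generalize hx : t1 = x1 at h1
    generalize hy : t2 = y1 at h1
    cases h1 with
    | m w₂ w₂' a₂ x x' y k0 km kn kx _ kxx ky =>
      subst hx; subst hy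
      exact h.killM hP k0 km kn kx kxx ky hew (by simpa using hv) hvt
    | x4 w₂ w₂' a₂ q₂ q₂' p₂ p₂' r₂ r₂' s₂ k0 km kn kq kq1 kq1' kqp kpp kc knp kr krr ks =>
      subst hx; subst hy
      have hv' : v = t1 ∨ v = t2 ∨ v = τ ∨ v = p₂' := by
        simp only [Finset.mem_insert, Finset.mem_singleton] at hv
        rcases hv with h5 | h5 | h5 | h5 | h5
        · exact Or.inr (Or.inr (Or.inl h5))
        · exact Or.inl h5
        · exact Or.inr (Or.inl h5)
        · exact Or.inr (Or.inr (Or.inl h5))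
        · exact Or.inr (Or.inr (Or.inr h5))
      refine h.killX hP ⟨k0, kn, kq, kq1, kq1', kqp, kpp, kc⟩ ?_ (v := v) hv' hvt
      intro hh
      have hw2 : w' = w₂' → t1 = w := fun h5 => h.mate' hc (ma_symm km) h5.symm
      rcases n3m knp hh with h5 | h5 | h5
      · have h6 := h.cw'
        rw [h5, kc] at h6
        exact absurd h6 (by simp)
      · exact (hew (h.mate' hc krr h5.symm)).elim
      · rcases ks with h6 | h6
        · rw [← h5] at h6
          exact (w0w1' h6 (h.wW1' hc)).elim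
        · exact hw2 (h5.trans h6)
    | hs u u' d d' α β w₂ a₂ kb kn ku kw ka =>
      subst hx; subst hy
      exact h.killH hP kb kn ku kw ka (by simpa using hv) hvt
    | d1 w₂ w₂' a₂ x x' k0 k0' km kn kx kxx =>
      subst hx; subst hy
      exact h.killD hP k0 k0' km kn kx kxx hew (by simpa using hv) hvt

theorem Cx.card (hP : PF G c) (h : Cx G c w w' a b q q' p p' r s) {F0 : Finset V}
    (hZ : ZD G c {w, a, q, p'} F0) (hn : NoA G c 4 F0) (he : ∀ n, NoE G c n F0) :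
    (AL G c F0 \ AL G c (F0 ∪ {w, a, q, p'})).card ≤ 12 := by
  have hc := hP.nice
  obtain ⟨S, hS, hS'⟩ : ∃ S : Finset (V × V), S.card ≤ 4 ∧ ∀ t : V × V, w' ∈ Qs G c 0 →
      t.1 ∈ Qs G c 0 → t.1 ≠ w → G.Adj t.1 t.2 → c t.2 = false → G.Adj w' t.2 → t ∈ S := by
    by_cases hw' : w' ∈ Qs G c 0
    · obtain ⟨S, h1, h2⟩ := twin_card hP hw' (ma_symm h.mw)
      exact ⟨S, h1, fun t _ => h2 t⟩
    · exact ⟨∅, by simp, fun t h1 => absurd h1 hw'⟩
  obtain ⟨π, hπ, hπ'⟩ := q1_exB1 h.q1'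
  obtain ⟨r1, r2, -, -, -, hr⟩ := cub1 hP.cub (n32 h.np).symm
  obtain ⟨s1, s2, -, -, -, hs⟩ := cub1 hP.cub (n33 h.np).symm
  have hsub : (AL G c F0 \ AL G c (F0 ∪ {w, a, q, p'})) ⊆
      ((({(w, a), (w, b)} : Finset (V × V)) ∪ S) ∪ (Ev G c π ∪ (Ev G c r1 ∪ Ev G c r2))) ∪
        (Ev G c s1 ∪ Ev G c s2) := by
    intro t ht
    rw [Finset.mem_sdiff] at ht
    obtain ⟨h1, h2⟩ := ht
    have h1' : Alive G c F0 t := (Finset.mem_filter.1 h1).2
    have h2' : ¬ Alive G c (F0 ∪ {w, a, q, p'}) t := fun hh =>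
      h2 (Finset.mem_filter.2 ⟨Finset.mem_univ _, hh⟩)
    obtain ⟨b1, b2, b3⟩ := slot_basic hc h1'
    simp only [Finset.mem_union]
    rcases h.kill hP hZ hn he h1' h2' with h3 | ⟨h3, h4, h5⟩ | ⟨v, h3, h4 | h4 | h4⟩
    · have h4 : t.2 = a ∨ t.2 = b := by
        rw [h3] at b2
        rcases n3m h.nw b2 with h5 | h5 | h5
        · rw [h5, h.cw'] at b3
          exact absurd b3 (by simp)
        · exact Or.inl h5
        · exact Or.inr h5
      left; left; left
      rw [Finset.mem_insert, Finset.mem_singleton]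
      rcases h4 with h4 | h4
      · exact Or.inl (Prod.ext h3 h4)
      · exact Or.inr (Prod.ext h3 h4)
    · left; left; right
      exact hS' t h3 b1 h4 b2 b3 h5
    · left; right; left
      rw [← q1_B1 h.q1' h4.1 hπ h4.2 hπ']
      exact mem_Ev.2 h3
    · left; right; right
      rcases (hr v).1 h4.1 with h5 | h5 | h5
      · exact absurd h5 h4.2
      · left; rw [← h5]; exact mem_Ev.2 h3
      · right; rw [← h5]; exact mem_Ev.2 h3
    · right
      rcases (hs v).1 h4.1 with h5 | h5 | h5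
      · exact absurd h5 h4.2
      · left; rw [← h5]; exact mem_Ev.2 h3
      · right; rw [← h5]; exact mem_Ev.2 h3
  have c1 := Finset.card_le_card hsub
  have c2 := Finset.card_union_le ((({(w, a), (w, b)} : Finset (V × V)) ∪ S) ∪
    (Ev G c π ∪ (Ev G c r1 ∪ Ev G c r2))) (Ev G c s1 ∪ Ev G c s2)
  have c3 := Finset.card_union_le (({(w, a), (w, b)} : Finset (V × V)) ∪ S)
    (Ev G c π ∪ (Ev G c r1 ∪ Ev G c r2))
  have c4 := Finset.card_union_le ({(w, a), (w, b)} : Finset (V × V)) S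
  have c5 := Finset.card_union_le (Ev G c π) (Ev G c r1 ∪ Ev G c r2)
  have c6 : ({(w, a), (w, b)} : Finset (V × V)).card ≤ 2 := Finset.card_le_two
  have c7 := ev2 hP r1 r2
  have c8 := ev2 hP s1 s2
  have c9 := Ev_card hP π
  omega

end Main

end PkS6

open PkS6

theorem stmt_S6 : Stmt_S6 := by
  intro V _ G c hP F0 r hr hn he hex
  obtain ⟨w, a, K, hK, hZ⟩ := hex
  have hc := hP.nice
  have hG := hP.h3 4 w a K hK (by norm_num)
  cases hK with
  | x3 _ w' _ q q' p p' r s k0 km kn kq kq1 kq1' kqp kpp kc knp kr ks =>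
    have hca : c a = false := blk_two hc (n31 kn) (n32 kn) kn.1 (qc k0) (qc kq1)
    have ha0 : IsB0 G c a := Q0_nb hc k0 (n31 kn).symm hca
    have hcw' : c w' = true := by rw [← km.2]; exact qc k0
    have hwa : w' ≠ a := by
      intro hh
      rw [hh, hca] at hcw'
      exact absurd hcw' (by simp)
    obtain ⟨b, hb⟩ := N3_of hP.cub km.1 (n31 kn).symm hwa
    have hcb : c b = false := by
      by_contra hh
      have hh' : c b = true := by simpa using hh
      exact hb.2.1 (nice_uniq hc km ⟨n33 hb, by rw [qc k0, hh']⟩)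
    have hb0 : IsB0 G c b := Q0_nb hc k0 (n33 hb) hcb
    have hq'a : q' ≠ a := by
      intro hh
      have h1 := qc kq1'
      rw [hh, hca] at h1
      exact absurd h1 (by simp)
    obtain ⟨p₁, hp₁⟩ := N3_of hP.cub kq.1 (n32 kn).symm hq'a
    have hpp : p = p₁ := by
      rcases n3m hp₁ kqp with h1 | h1 | h1
      · rw [h1, qc kq1'] at kc
        exact absurd kc (by simp)
      · rw [h1] at kpp
        exact (md0_no ha0.2 kpp).elim
      · exact h1
    rw [← hpp] at hp₁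
    have hC : Cx G c w w' a b q q' p p' r s :=
      ⟨k0, km, kn, kq, kq1, kq1', kqp, kpp, kc, knp, kr, ks, hb, ha0, hb0, hp₁⟩
    refine ⟨{w, a, q, p'}, 1, 1, le_refl 1, hr, hZ, ?_, ?_, Or.inr (hC.card hP hZ hn he)⟩
    · have : ((-2 * (((1 : ℕ) : ℤ) - ((1 : ℕ) : ℤ)), ((1 : ℕ) : ℤ), 0) : ℤ × ℤ × ℤ) = (0, 1, 0) := by
        norm_num
      rw [this]
      exact hG
    · have : blk G c {w, a, q, p'} ≤ 2 := by
        unfold blk
        refine le_trans (Finset.card_le_card (t := {w, w'}) ?_) Finset.card_le_two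
        intro v hv
        rw [Finset.mem_filter] at hv
        obtain ⟨u, hu, hut⟩ := touch hc hv.2
        rw [Finset.mem_singleton] at hu
        rw [hu] at hut
        rw [Finset.mem_insert, Finset.mem_singleton]
        exact hC.tSrc hP hv.1 hut
      omega

end

end Pool.Agent.Work.MP_1e13ac_W
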