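import Pool.Agent.Work.MP_1e13ac_W.PkS7c

/-!
# MP_1e13ac_co, full statement, level `k ≥ 2`: final stage (helper45)
-/

set_option autoImplicit false
set_option linter.unusedSectionVars false

namespace Pool.Agent.Work.MP_1e13ac_W

open Classical Finset Pool.Agent.Work.MP_1e13ac_Bis

noncomputable section

namespace PkS7

variable {V : Type} [Fintype V] {G : SimpleGraph V} {c : V → Bool} {F0 : Finset V}

/-! ## Unions over lists -/

def unF (f : V → Finset (V × V)) (T : List V) : Finset (V × V) :=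
  T.foldr (fun x S => f x ∪ S) ∅

theorem mem_unF (f : V → Finset (V × V)) (T : List V) (s : V × V) :
    s ∈ unF f T ↔ ∃ x ∈ T, s ∈ f x := by
  induction T with
  | nil => simp [unF]
  | cons a T ih =>
    have e : unF f (a :: T) = f a ∪ unF f T := rfl
    rw [e, Finset.mem_union, ih]
    simp

theorem card_unF (f : V → Finset (V × V)) (T : List V) (κ : ℕ)
    (h : ∀ x ∈ T, (f x).card ≤ κ) : (unF f T).card ≤ κ * T.length := by
  induction T with
  | nil => simp [unF]
  | cons a T ih =>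
    have e : unF f (a :: T) = f a ∪ unF f T := rfl
    have h1 := Finset.card_union_le (f a) (unF f T)
    have h2 := h a (by simp)
    have h3 := ih fun x hx => h x (by simp [hx])
    rw [e, List.length_cons, Nat.mul_add, Nat.mul_one]
    omega

/-! ## Tokens -/

theorem crb_tag {n : ℕ} {w a : V} {H : Finset V} {τ e : V} (h : CrB G c n w a H τ e) :
    n = 5 ∨ n = 6 ∨ n = 7 ∨ n = 8 := by
  cases h <;> simp

theorem x4_ins {w a : V} {H : Finset V} {τ e : V} (h : CrB G c 6 w a H τ e) :
    insert τ H = H := by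
  cases h with
  | x4 => exact Finset.insert_eq_of_mem (by simp)

theorem greedy_tok (N : ℕ → Prop) (m : ℕ) : ∀ (k : ℕ) (T0 : List V), T0.length + k = m →
    T0.Pairwise (fun x y => ZD G c {x} {y}) → ∃ T1 : List V, (T1 ++ T0).length ≤ m ∧
      (T1 ++ T0).Pairwise (fun x y => ZD G c {x} {y}) ∧
      (∀ x ∈ T1, ∃ n s H e, N n ∧ HC G c F0 n s H x e) ∧
      ((T1 ++ T0).length = m ∨ ∀ n s H τ e, N n → HC G c F0 n s H τ e →
        ∃ x ∈ T1 ++ T0, ¬ ZD G c (insert τ H) {x}) := by
  intro k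
  induction k with
  | zero =>
    intro T0 h1 h2
    exact ⟨[], by simp; omega, by simpa using h2, by simp, Or.inl (by simp; omega)⟩
  | succ k ih =>
    intro T0 h1 h2
    by_cases hex : ∃ n s H τ e, N n ∧ HC G c F0 n s H τ e ∧
        ∀ x ∈ T0, ZD G c (insert τ H) {x}
    · obtain ⟨n, s, H, τ, e, h3, h4, h5⟩ := hex
      obtain ⟨T1, g1, g2, g3, g4⟩ := ih (τ :: T0) (by rw [List.length_cons]; omega) (by
        rw [List.pairwise_cons]
        exact ⟨fun x hx => ZD_mono (by simp) (h5 x hx), h2⟩)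
      have e1 : (T1 ++ [τ]) ++ T0 = T1 ++ (τ :: T0) := by simp
      refine ⟨T1 ++ [τ], ?_, ?_, ?_, ?_⟩
      · rw [e1]
        exact g1
      · rw [e1]
        exact g2
      · intro x hx
        rw [List.mem_append, List.mem_singleton] at hx
        rcases hx with hx | hx
        · exact g3 x hx
        · rw [hx]
          exact ⟨n, s, H, e, h3, h4⟩
      · rw [e1]
        exact g4
    · push Not at hex
      exact ⟨[], by simp; omega, by simpa using h2, by simp, Or.inr (by simpa using hex)⟩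

/-! ## Halves -/

/-- slots with an alive half core with a tag in `N` -/
def HA (G : SimpleGraph V) (c : V → Bool) (F0 : Finset V) (N : ℕ → Prop) (T : List V)
    (L : List (Finset V)) : Finset (V × V) :=
  univ.filter fun s => ∃ n H τ e, N n ∧ HC G c F0 n s H τ e ∧ (∀ x ∈ T, ZD G c H {x}) ∧
    ∀ A ∈ L, ZD G c H A

theorem mem_HA {N : ℕ → Prop} {T : List V} {L : List (Finset V)} {s : V × V} :
    s ∈ HA G c F0 N T L ↔ ∃ n H τ e, N n ∧ HC G c F0 n s H τ e ∧ (∀ x ∈ T, ZD G c H {x}) ∧
    ∀ A ∈ L, ZD G c H A := by simp [HA]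

theorem greedy_half (N : ℕ → Prop) (κ : ℕ) (hκ1 : 1 ≤ κ)
    (hκ : ∀ n s H τ e, N n → HC G c F0 n s H τ e → HalfOK G c F0 H κ) (T : List V) :
    ∀ (k : ℕ) (L0 : List (Finset V)), κ * k ≤ (HA G c F0 N T L0).card →
      L0.Pairwise (fun A B => ZD G c A B) → ∃ L1 : List (Finset V), L1.length = k ∧
        (L1 ++ L0).Pairwise (fun A B => ZD G c A B) ∧
        ∀ H ∈ L1, ∃ n s τ e, N n ∧ HC G c F0 n s H τ e ∧ ∀ x ∈ T, ZD G c H {x} := by
  intro k
  induction k with
  | zero =>
    intro L0 _ h2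
    exact ⟨[], rfl, by simpa using h2, by simp⟩
  | succ k ih =>
    intro L0 h1 h2
    have h3 : κ * (k + 1) = κ * k + κ := by ring
    have h4 : (HA G c F0 N T L0).Nonempty := by
      rw [← Finset.card_pos]
      omega
    obtain ⟨s, hs⟩ := h4
    obtain ⟨n, H, τ, e, g1, g2, g3, g4⟩ := mem_HA.1 hs
    have hsub : HA G c F0 N T L0 ⊆ HA G c F0 N T (H :: L0) ∪ HK G c F0 H := by
      intro s' hs'
      obtain ⟨n', H', τ', e', k1, k2, k3, k4⟩ := mem_HA.1 hs'
      rw [Finset.mem_union]
      by_cases hz : ZD G c H' H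
      · left
        refine mem_HA.2 ⟨n', H', τ', e', k1, k2, k3, ?_⟩
        intro A hA
        rcases List.mem_cons.1 hA with e1 | e1
        · rw [e1]
          exact hz
        · exact k4 A e1
      · right
        exact mem_HK.2 ⟨n', H', τ', e', k2, hz⟩
    have c1 := Finset.card_le_card hsub
    have c2 := Finset.card_union_le (HA G c F0 N T (H :: L0)) (HK G c F0 H)
    have c3 := (hκ n s H τ e g1 g2).1
    obtain ⟨L1, f1, f2, f3⟩ := ih (H :: L0) (by omega) (by
      rw [List.pairwise_cons]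
      exact ⟨g4, h2⟩)
    have e1 : (L1 ++ [H]) ++ L0 = L1 ++ (H :: L0) := by simp
    refine ⟨L1 ++ [H], by simp [f1], ?_, ?_⟩
    · rw [e1]
      exact f2
    · intro A hA
      rw [List.mem_append, List.mem_singleton] at hA
      rcases hA with hA | hA
      · exact f3 A hA
      · rw [hA]
        exact ⟨n, s, τ, e, g1, g2, g3⟩

theorem sum_const {α : Type} (L : List α) (v : ℤ × ℤ × ℤ) :
    (L.map fun _ => v).sum = ((L.length : ℤ) * v.1, (L.length : ℤ) * v.2.1,
      (L.length : ℤ) * v.2.2) := by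
  induction L with
  | nil =>
    simp
    rfl
  | cons a L ih =>
    rw [List.map_cons, List.sum_cons, ih, List.length_cons]
    refine Prod.ext ?_ (Prod.ext ?_ ?_)
    · simp only [Prod.fst_add]
      push_cast
      ring
    · simp only [Prod.snd_add, Prod.fst_add]
      push_cast
      ring
    · simp only [Prod.snd_add]
      push_cast
      ring

theorem sum_le {α : Type} (L : List α) (f : α → ℕ) (κ : ℕ) (h : ∀ x ∈ L, f x ≤ κ) :
    (L.map f).sum ≤ κ * L.length := by
  induction L with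
  | nil => simp
  | cons a L ih =>
    rw [List.map_cons, List.sum_cons, List.length_cons, Nat.mul_add, Nat.mul_one]
    have h1 := h a (by simp)
    have h2 := ih fun x hx => h x (by simp [hx])
    omega

/-- tokens and halves give the final list -/
theorem final_of (h : Fin7 G c F0) {m : ℕ} {T : List V} {L : List (Finset V)}
    (hT : T.length = m) (hL : L.length = m) (hTp : T.Pairwise (fun x y => ZD G c {x} {y}))
    (hLp : L.Pairwise (fun A B => ZD G c A B))
    (hT1 : ∀ x ∈ T, ∃ n s H e, HC G c F0 n s H x e)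
    (hTb : ∀ x ∈ T, blk G c {x} ≤ 3)
    (hL1 : ∀ H ∈ L, ∃ n s τ e, HC G c F0 n s H τ e ∧ ∀ x ∈ T, ZD G c H {x})
    (hLb : ∀ H ∈ L, blk G c H ≤ 3) : Final G c F0 m := by
  refine ⟨(T.map fun x => (({x} : Finset V), ((-2, -2, -2) : ℤ × ℤ × ℤ))) ++
    (L.map fun H => (H, ((0, 2, 2) : ℤ × ℤ × ℤ))), ?_, ?_, ?_, ?_⟩
  · intro p hp
    rw [List.mem_append, List.mem_map, List.mem_map] at hp
    rcases hp with ⟨x, hx, rfl⟩ | ⟨H, hH, rfl⟩
    · obtain ⟨n, s, H, e, h1⟩ := hT1 x hx
      exact ⟨h.pf.t4 n s.1 s.2 H x e h1.1, ZD_mono (by simp) h1.2⟩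
    · obtain ⟨n, s, τ, e, h1, -⟩ := hL1 H hH
      exact ⟨h.pf.h4 n s.1 s.2 H τ e h1.1, ZD_mono (Finset.subset_insert _ _) h1.2⟩
  · rw [List.pairwise_append]
    refine ⟨?_, ?_, ?_⟩
    · rw [List.pairwise_map]
      exact hTp
    · rw [List.pairwise_map]
      exact hLp
    · intro p hp q hq
      rw [List.mem_map] at hp hq
      obtain ⟨x, hx, rfl⟩ := hp
      obtain ⟨H, hH, rfl⟩ := hq
      obtain ⟨n, s, τ, e, -, h2⟩ := hL1 H hH
      exact ZD_symm (h2 x hx)
  · rw [List.map_append, List.map_map, List.map_map, List.sum_append]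
    have e1 : (List.map (Prod.snd ∘ fun x => (({x} : Finset V), ((-2, -2, -2) : ℤ × ℤ × ℤ))) T) =
        T.map fun _ => ((-2, -2, -2) : ℤ × ℤ × ℤ) := rfl
    have e2 : (List.map (Prod.snd ∘ fun H : Finset V => (H, ((0, 2, 2) : ℤ × ℤ × ℤ))) L) =
        L.map fun _ => ((0, 2, 2) : ℤ × ℤ × ℤ) := rfl
    rw [e1, e2, sum_const, sum_const, hT, hL]
    refine Prod.ext ?_ (Prod.ext ?_ ?_)
    · simp only [Prod.fst_add]
      ring
    · simp only [Prod.snd_add, Prod.fst_add]
      ring
    · simp only [Prod.snd_add]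
      ring
  · have e3 : ((T.map fun x => (({x} : Finset V), ((-2, -2, -2) : ℤ × ℤ × ℤ))).map
        fun p => blk G c p.1) = T.map fun x => blk G c {x} := by
      rw [List.map_map]
      exact List.map_congr_left fun x _ => rfl
    have e4 : ((L.map fun H => (H, ((0, 2, 2) : ℤ × ℤ × ℤ))).map
        fun p => blk G c p.1) = L.map fun H => blk G c H := by
      rw [List.map_map]
      exact List.map_congr_left fun x _ => rfl
    rw [List.map_append, e3, e4, List.sum_append]
    have c1 := sum_le T (fun x => blk G c {x}) 3 hTb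
    have c2 := sum_le L (fun H => blk G c H) 3 hLb
    rw [hT] at c1
    rw [hL] at c2
    omega

theorem final7 (h : Fin7 G c F0) {m : ℕ} (hcard : 12 * m ≤ (AL G c F0).card) :
    Final G c F0 m := by
  obtain ⟨T1, a1, a2, a3, a4⟩ := greedy_tok (G := G) (c := c) (F0 := F0) (fun n => n = 6) m m []
    (by simp) (by simp)
  rw [List.append_nil] at a1 a2 a4
  obtain ⟨T2, b1, b2, b3, b4⟩ := greedy_tok (G := G) (c := c) (F0 := F0)
    (fun n => n = 5 ∨ n = 7) m (m - T1.length) T1 (by omega) a2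
  obtain ⟨T3, d1, d2, d3, d4⟩ := greedy_tok (G := G) (c := c) (F0 := F0)
    (fun n => n = 8) m (m - (T2 ++ T1).length) (T2 ++ T1) (by omega) b2
  have l2 : (T2 ++ T1).length = T2.length + T1.length := by simp
  have l3 : (T3 ++ (T2 ++ T1)).length = T3.length + (T2.length + T1.length) := by simp
  have k1 : ∀ x ∈ T1, TokOK G c F0 x 2 0 := by
    intro x hx
    obtain ⟨n, s, H, e, hn, hh⟩ := a3 x hx
    rw [hn] at hh
    exact tok6 h hh
  have k2 : ∀ x ∈ T2, TokOK G c F0 x 4 1 := by
    intro x hx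
    obtain ⟨n, s, H, e, hn, hh⟩ := b3 x hx
    rcases hn with hn | hn
    · rw [hn] at hh
      exact tok5 h hh
    · rw [hn] at hh
      exact tok7 h hh
  have k3 : ∀ x ∈ T3, TokOK G c F0 x 6 1 := by
    intro x hx
    obtain ⟨n, s, H, e, hn, hh⟩ := d3 x hx
    rw [hn] at hh
    exact tok8 h hh
  have kall : ∀ x ∈ T3 ++ (T2 ++ T1), (FK G c F0 {x}).card ≤ 12 ∧ blk G c {x} ≤ 3 := by
    intro x hx
    rw [List.mem_append, List.mem_append] at hx
    rcases hx with hx | hx | hx
    · exact ⟨(k3 x hx).2.1, (k3 x hx).2.2.2⟩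
    · exact ⟨(k2 x hx).2.1, (k2 x hx).2.2.2⟩
    · exact ⟨(k1 x hx).2.1, (k1 x hx).2.2.2⟩
  have hcore : ∀ x ∈ T3 ++ (T2 ++ T1), ∃ n s H e, HC G c F0 n s H x e := by
    intro x hx
    rw [List.mem_append, List.mem_append] at hx
    rcases hx with hx | hx | hx
    · obtain ⟨n, s, H, e, -, hh⟩ := d3 x hx
      exact ⟨n, s, H, e, hh⟩
    · obtain ⟨n, s, H, e, -, hh⟩ := b3 x hx
      exact ⟨n, s, H, e, hh⟩
    · obtain ⟨n, s, H, e, -, hh⟩ := a3 x hx
      exact ⟨n, s, H, e, hh⟩
  -- all tokens are there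
  have hlen : (T3 ++ (T2 ++ T1)).length = m := by
    by_contra hne
    have hd := d4.resolve_left hne
    have hb := b4.resolve_left (by omega)
    have ha := a4.resolve_left (by omega)
    have hsub : AL G c F0 ⊆ unF (fun x => FK G c F0 {x}) (T3 ++ (T2 ++ T1)) := by
      intro s hs
      obtain ⟨K, hK⟩ := mem_AL.1 hs
      obtain ⟨n, H, τ, e, h1, h2⟩ := Cor.hc h hK
      rw [mem_unF]
      have hex : ∃ x ∈ T3 ++ (T2 ++ T1), ¬ ZD G c (insert τ H) {x} := by
        rcases crb_tag h1.1 with hn | hn | hn | hn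
        · obtain ⟨x, h3, h4⟩ := hb n s H τ e (Or.inl hn) h1
          exact ⟨x, List.mem_append_right _ h3, h4⟩
        · obtain ⟨x, h3, h4⟩ := ha n s H τ e hn h1
          exact ⟨x, List.mem_append_right _ (List.mem_append_right _ h3), h4⟩
        · obtain ⟨x, h3, h4⟩ := hb n s H τ e (Or.inr hn) h1
          exact ⟨x, List.mem_append_right _ h3, h4⟩
        · exact hd n s H τ e hn h1
      obtain ⟨x, h3, h4⟩ := hex
      exact ⟨x, h3, mem_FK.2 ⟨_, h1.cor, h4⟩⟩
    have c1 := Finset.card_le_card hsub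
    have c2 := card_unF (fun x => FK G c F0 {x}) (T3 ++ (T2 ++ T1)) 12 fun x hx => (kall x hx).1
    omega
  -- half-alive slots
  have hkill : ∀ N : ℕ → Prop, (∀ s, s ∈ HA G c F0 (fun _ => True) (T3 ++ (T2 ++ T1)) [] →
      s ∈ HA G c F0 N (T3 ++ (T2 ++ T1)) []) →
      (AL G c F0).card ≤ (HA G c F0 N (T3 ++ (T2 ++ T1)) []).card +
        (6 * T3.length + 4 * T2.length + 2 * T1.length) := by
    intro N hN
    have hsub : AL G c F0 ⊆ HA G c F0 N (T3 ++ (T2 ++ T1)) [] ∪
        (unF (fun x => HK G c F0 {x}) T3 ∪ (unF (fun x => HK G c F0 {x}) T2 ∪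
          unF (fun x => HK G c F0 {x}) T1)) := by
      intro s hs
      obtain ⟨K, hK⟩ := mem_AL.1 hs
      obtain ⟨n, H, τ, e, h1, -⟩ := Cor.hc h hK
      simp only [Finset.mem_union, mem_unF]
      by_cases hex : ∃ x ∈ T3 ++ (T2 ++ T1), ¬ ZD G c H {x}
      · right
        obtain ⟨x, h3, h4⟩ := hex
        have h5 : s ∈ HK G c F0 {x} := mem_HK.2 ⟨n, H, τ, e, h1, h4⟩
        rw [List.mem_append, List.mem_append] at h3
        rcases h3 with h3 | h3 | h3
        · exact Or.inl ⟨x, h3, h5⟩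
        · exact Or.inr (Or.inl ⟨x, h3, h5⟩)
        · exact Or.inr (Or.inr ⟨x, h3, h5⟩)
      · left
        push Not at hex
        exact hN s (mem_HA.2 ⟨n, H, τ, e, trivial, h1, hex, by simp⟩)
    have c1 := Finset.card_le_card hsub
    have c2 := Finset.card_union_le (HA G c F0 N (T3 ++ (T2 ++ T1)) [])
        (unF (fun x => HK G c F0 {x}) T3 ∪ (unF (fun x => HK G c F0 {x}) T2 ∪
          unF (fun x => HK G c F0 {x}) T1))
    have c3 := Finset.card_union_le (unF (fun x => HK G c F0 {x}) T3)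
      (unF (fun x => HK G c F0 {x}) T2 ∪ unF (fun x => HK G c F0 {x}) T1)
    have c4 := Finset.card_union_le (unF (fun x => HK G c F0 {x}) T2)
      (unF (fun x => HK G c F0 {x}) T1)
    have c5 := card_unF (fun x => HK G c F0 {x}) T3 6 fun x hx => (k3 x hx).1
    have c6 := card_unF (fun x => HK G c F0 {x}) T2 4 fun x hx => (k2 x hx).1
    have c7 := card_unF (fun x => HK G c F0 {x}) T1 2 fun x hx => (k1 x hx).1
    omega
  -- the halves
  have hend : ∀ (N : ℕ → Prop) (κ : ℕ), 1 ≤ κ →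
      (∀ n s H τ e, N n → HC G c F0 n s H τ e → HalfOK G c F0 H κ) →
      κ * m ≤ (HA G c F0 N (T3 ++ (T2 ++ T1)) []).card → Final G c F0 m := by
    intro N κ hκ1 hκ hc1
    obtain ⟨L, f1, f2, f3⟩ := greedy_half N κ hκ1 hκ (T3 ++ (T2 ++ T1)) m [] hc1 (by simp)
    rw [List.append_nil] at f2
    refine final_of h hlen f1 d2 f2 hcore (fun x hx => (kall x hx).2) ?_ ?_
    · intro H hH
      obtain ⟨n, s, τ, e, -, g2, g3⟩ := f3 H hH
      exact ⟨n, s, τ, e, g2, g3⟩
    · intro H hH
      obtain ⟨n, s, τ, e, g1, g2, g3⟩ := f3 H hH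
      exact (hκ n s H τ e g1 g2).2
  have mono : ∀ {H : Finset V} {κ κ' : ℕ}, HalfOK G c F0 H κ → κ ≤ κ' → HalfOK G c F0 H κ' :=
    fun hh hk => ⟨hh.1.trans hk, hh.2⟩
  have no6 : T1.length < m → ∀ s H τ e, HC G c F0 6 s H τ e →
      (∀ x ∈ T3 ++ (T2 ++ T1), ZD G c H {x}) → False := by
    intro hlt s H τ e hh hz
    obtain ⟨x, h3, h4⟩ := (a4.resolve_left (by omega)) 6 s H τ e rfl hh
    rw [x4_ins hh.1] at h4
    exact h4 (hz x (List.mem_append_right _ (List.mem_append_right _ h3)))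
  by_cases hT3 : T3.length = 0
  · by_cases hT2 : T2.length = 0
    · -- only X4 tokens
      refine hend (fun _ => True) 10 (by norm_num) ?_ ?_
      · intro n s H τ e _ hh
        rcases crb_tag hh.1 with hn | hn | hn | hn <;> rw [hn] at hh
        · exact mono (half5 h hh) (by norm_num)
        · exact half6 h hh
        · exact mono (half7 h hh) (by norm_num)
        · exact mono (half8 h hh) (by norm_num)
      · have := hkill (fun _ => True) (fun s hs => hs)
        omega
    · -- X4, M, house tokens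
      refine hend (fun n => n ≠ 6) 8 (by norm_num) ?_ ?_
      · intro n s H τ e hn6 hh
        rcases crb_tag hh.1 with hn | hn | hn | hn
        · rw [hn] at hh
          exact half5 h hh
        · exact absurd hn hn6
        · rw [hn] at hh
          exact mono (half7 h hh) (by norm_num)
        · rw [hn] at hh
          exact mono (half8 h hh) (by norm_num)
      · have := hkill (fun n => n ≠ 6) (by
          intro s hs
          obtain ⟨n, H, τ, e, -, g2, g3, g4⟩ := mem_HA.1 hs
          refine mem_HA.2 ⟨n, H, τ, e, ?_, g2, g3, g4⟩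
          intro hn
          rw [hn] at g2
          exact no6 (by omega) s H τ e g2 g3)
        omega
  · -- a D1 token was used
    have hlt : (T2 ++ T1).length < m := by omega
    have hb := b4.resolve_left (by omega)
    have hsub : HA G c F0 (fun _ => True) (T3 ++ (T2 ++ T1)) [] ⊆
        HA G c F0 (fun n => n = 7 ∨ n = 8) (T3 ++ (T2 ++ T1)) [] ∪
          (unF (fun x => BM G c F0 x) T2 ∪ unF (fun x => BM G c F0 x) T1) := by
      intro s hs
      obtain ⟨n, H, τ, e, -, g2, g3, g4⟩ := mem_HA.1 hs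
      simp only [Finset.mem_union, mem_unF]
      rcases crb_tag g2.1 with hn | hn | hn | hn
      · right
        obtain ⟨x, h3, h4⟩ := hb n s H τ e (Or.inl hn) g2
        have h5 : s ∈ BM G c F0 x := by
          rw [hn] at g2
          exact mem_BM.2 ⟨H, τ, e, g2, g3 x (List.mem_append_right _ h3), h4⟩
        rw [List.mem_append] at h3
        rcases h3 with h3 | h3
        · exact Or.inl ⟨x, h3, h5⟩
        · exact Or.inr ⟨x, h3, h5⟩
      · rw [hn] at g2
        exact (no6 (by omega) s H τ e g2 g3).elim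
      · exact Or.inl (mem_HA.2 ⟨n, H, τ, e, Or.inl hn, g2, g3, g4⟩)
      · exact Or.inl (mem_HA.2 ⟨n, H, τ, e, Or.inr hn, g2, g3, g4⟩)
    refine hend (fun n => n = 7 ∨ n = 8) 6 (by norm_num) ?_ ?_
    · intro n s H τ e hn hh
      rcases hn with hn | hn <;> rw [hn] at hh
      · exact half7 h hh
      · exact half8 h hh
    · have c0 := hkill (fun _ => True) (fun s hs => hs)
      have c1 := Finset.card_le_card hsub
      have c2 := Finset.card_union_le
        (HA G c F0 (fun n => n = 7 ∨ n = 8) (T3 ++ (T2 ++ T1)) [])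
        (unF (fun x => BM G c F0 x) T2 ∪ unF (fun x => BM G c F0 x) T1)
      have c3 := Finset.card_union_le (unF (fun x => BM G c F0 x) T2)
        (unF (fun x => BM G c F0 x) T1)
      have c4 := card_unF (fun x => BM G c F0 x) T2 1 fun x hx => (k2 x hx).2.2.1
      have c5 := card_unF (fun x => BM G c F0 x) T1 0 fun x hx => (k1 x hx).2.2.1
      omega

end PkS7

theorem stmt_S7 : Stmt_S7 := by
  intro V _ G c hP F0 r hcard hA hE
  exact PkS7.final7 ⟨hP, hA, hE⟩ hcard

end

end Pool.Agent.Work.MP_1e13ac_W
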