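import Pool.Agent.Work.MP_1e13ac_W.L2Sound

/-!
# MP_1e13ac_co, full statement: World 2 and its certificates (helper80)

World 2: `c` is nice, minimises `F2`, has level `k ≥ 2`; no nice minimiser of `F2` has level 0,
and `(3 k + #T1, k, -#Q0)` is lexicographically minimal.
-/

set_option autoImplicit false
set_option linter.unusedSectionVars false

namespace Pool.Agent.Work.MP_1e13ac_W

open Classical Finset Pool.Agent.Work.MP_1e13ac_Bis

noncomputable section

variable {V : Type} [Fintype V] {G : SimpleGraph V} {c : V → Bool} {k : ℕ}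

/-- World 2 -/
structure World2 (G : SimpleGraph V) (c : V → Bool) (k : ℕ) : Prop where
  nice : Nice G c
  lev2 : lev c = 2 * (k : ℤ)
  k2 : 2 ≤ k
  min : ∀ c', F2 G c ≤ F2 G c'
  low : ∀ c', Nice G c' → F2 G c' = F2 G c → 2 ≤ |lev c'|
  lex : ∀ (c' : V → Bool) (m : ℕ), Nice G c' → F2 G c' = F2 G c → lev c' = 2 * (m : ℤ) →
    3 * k + (T1s G c).card < 3 * m + (T1s G c').card ∨
      (3 * k + (T1s G c).card = 3 * m + (T1s G c').card ∧
        (k < m ∨ (k = m ∧ (Qs G c' 0).card ≤ (Qs G c 0).card)))
  bad : ¬ Good' G

section Main

variable {A : PL} {col non F : ℕ} {e : ℕ → V}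

theorem World2.viol (hG : Cub G) (hW : World2 G c k) (h : Emb G c A col non e)
    (hF : cmpR A F = true) (hv : viol2R A col F = true) : False := by
  have h1 := h.smd hG hF
  have h2 := h.lev hG hF
  have h3 := hW.min (flp (FS A F e) c)
  have h4 := hW.k2
  unfold F2 at h3
  rw [hW.lev2] at h2 h3
  unfold viol2R at hv
  rw [andB_iff, bleN_iff, bleN_iff, lenL_eq] at hv
  obtain ⟨h5, h6⟩ := hv
  have h5' : smR A (Nat.xor col F) + 2 * A.length + 1 ≤ smR A col + 2 * sjR A col F := h5
  have h6' : smR A (Nat.xor col F) + 2 * sjR A col F + 1 ≤ smR A col + (8 + 2 * A.length) := h6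
  have e1 : |(2 : ℤ) * (k : ℤ)| = 2 * (k : ℤ) := abs_of_nonneg (by positivity)
  rw [e1] at h3
  rcases le_total 0 (Pool.Agent.Work.MP_1e13ac_W.lev (flp (FS A F e) c)) with h7 | h7
  · rw [abs_of_nonneg h7] at h3
    omega
  · rw [abs_of_nonpos h7] at h3
    omega

theorem World2.down (hG : Cub G) (hW : World2 G c k) (h : Emb G c A col non e)
    (hF : cmpR A F = true) (hv : down2R A col F = true) : False := by
  have h1 := h.smd hG hF
  have h2 := h.lev hG hF
  have h3 := hW.min (flp (FS A F e) c)
  have h4 := hW.k2
  have ht := h.t1 hG hF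
  unfold down2R at hv
  rw [andB_iff, andB_iff, andB_iff, andB_iff, andB_iff, bleN_iff, bleN_iff, bleN_iff, bleN_iff,
    bleN_iff, lenL_eq] at hv
  obtain ⟨h5, h6, h7, h8, h9, h10⟩ := hv
  have hn := h.nice hG hW.nice hF h5
  have hlow := hW.low _ hn
  have h6' : A.length + 1 ≤ sjR A col F := h6
  have h7' : sjR A col F ≤ 2 + A.length := h7
  have h8' : smR A (Nat.xor col F) + 2 * A.length ≤ smR A col + 2 * sjR A col F := h8
  have h9' : smR A (Nat.xor col F) + 2 * sjR A col F ≤ smR A col + (8 + 2 * A.length) := h9
  have h10' : t1aR A (Nat.xor col F) F + 3 * A.length ≤ t1bR A col F + 3 * sjR A col F := h10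
  unfold F2 at h3 hlow
  rw [hW.lev2] at h2 h3 hlow
  have e1 : |(2 : ℤ) * (k : ℤ)| = 2 * (k : ℤ) := abs_of_nonneg (by positivity)
  rw [e1] at h3 hlow
  by_cases hm : (Pool.Agent.Work.MP_1e13ac_W.lev (flp (FS A F e) c)) ≤ 0
  · have hm0 : Pool.Agent.Work.MP_1e13ac_W.lev (flp (FS A F e) c) = 0 := by omega
    rw [hm0, abs_zero] at h3 hlow
    have := hlow (by omega)
    omega
  · have h12 : ∃ m : ℕ, Pool.Agent.Work.MP_1e13ac_W.lev (flp (FS A F e) c) = 2 * (m : ℤ) :=
      ⟨k + A.length - sjR A col F, by omega⟩
    obtain ⟨m, hm2⟩ := h12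
    have h13 : |Pool.Agent.Work.MP_1e13ac_W.lev (flp (FS A F e) c)| = 2 * (m : ℤ) := by
      rw [hm2]
      exact abs_of_nonneg (by positivity)
    rw [h13] at h3
    have h14 := hW.lex _ m hn (by
      unfold F2
      rw [h13, hW.lev2, e1]
      omega) hm2
    omega

theorem World2.up (hG : Cub G) (hW : World2 G c k) (h : Emb G c A col non e)
    (hF : cmpR A F = true) (hv : up2R A col F = true) : False := by
  have h1 := h.smd hG hF
  have h2 := h.lev hG hF
  have h3 := hW.min (flp (FS A F e) c)
  have ht := h.t1 hG hF
  unfold up2R at hv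
  rw [andB_iff, andB_iff, andB_iff, bleN_iff, bleN_iff, bleN_iff, lenL_eq] at hv
  obtain ⟨h5, h6, h7, h8⟩ := hv
  have hn := h.nice hG hW.nice hF h5
  have h6' : sjR A col F ≤ A.length := h6
  have h7' : smR A (Nat.xor col F) + 2 * A.length ≤ smR A col + 2 * sjR A col F := h7
  have h8' : t1aR A (Nat.xor col F) F + 3 * A.length + 1 ≤ t1bR A col F + 3 * sjR A col F := h8
  unfold F2 at h3
  rw [hW.lev2] at h2 h3
  have e1 : |(2 : ℤ) * (k : ℤ)| = 2 * (k : ℤ) := abs_of_nonneg (by positivity)
  rw [e1] at h3
  have h12 : ∃ m : ℕ, Pool.Agent.Work.MP_1e13ac_W.lev (flp (FS A F e) c) = 2 * (m : ℤ) :=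
    ⟨k + A.length - sjR A col F, by omega⟩
  obtain ⟨m, hm2⟩ := h12
  have h13 : |Pool.Agent.Work.MP_1e13ac_W.lev (flp (FS A F e) c)| = 2 * (m : ℤ) := by
    rw [hm2]
    exact abs_of_nonneg (by positivity)
  rw [h13] at h3
  have h14 := hW.lex _ m hn (by
    unfold F2
    rw [h13, hW.lev2, e1]
    omega) hm2
  omega

theorem World2.q02 (hG : Cub G) (hW : World2 G c k) (h : Emb G c A col non e)
    (hF : cmpR A F = true) (hv : q02R A col F = true) : False := by
  have h1 := h.smd hG hF
  have h2 := h.lev hG hF
  have h3 := hW.min (flp (FS A F e) c)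
  have ht := h.t1 hG hF
  unfold q02R at hv
  rw [andB_iff, andB_iff, andB_iff, andB_iff, beqN_iff, bleN_iff, bleN_iff, bleN_iff,
    lenL_eq] at hv
  obtain ⟨h5, h6, h7, h8, h9⟩ := hv
  have hn := h.nice hG hW.nice hF h5
  have hq := h.q0 hG hW.nice hF hn
  have h9' : qLoss A col (Nat.xor col F) + 1 ≤ qGain A col (Nat.xor col F) := h9
  unfold F2 at h3
  rw [hW.lev2] at h2 h3
  have h7' : smR A (Nat.xor col F) ≤ smR A col := h7
  have h8' : t1aR A (Nat.xor col F) F ≤ t1bR A col F := h8
  have hm2 : Pool.Agent.Work.MP_1e13ac_W.lev (flp (FS A F e) c) = 2 * (k : ℤ) := by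
    rw [h6] at h2
    omega
  rw [hm2] at h3
  have h14 := hW.lex _ k hn (by
    unfold F2
    rw [hm2, hW.lev2]
    omega) hm2
  omega

theorem lf2_sound (hG : Cub G) (hW : World2 G c k) (A : PL) (col non act : ℕ) (e : ℕ → V)
    (hl : lf2 A col non act = true) (h : Emb G c A col non e) : False := by
  unfold lf2 at hl
  rw [andB_iff] at hl
  obtain ⟨hF, hl⟩ := hl
  generalize Nat.mod act (nat_lit 8) = m at hl
  match m, hl with
  | 0, hl => exact hW.viol hG h hF hl
  | 1, hl => exact hW.down hG h hF hl
  | 2, hl => exact hW.up hG h hF hl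
  | 3, hl => exact hW.q02 hG h hF hl
  | k + 4, hl => exact absurd hl (by simp)

end Main

/-! ## Certificates with distinguished vertices -/

/-- the children cover all cases, old vertices are kept -/
theorem kids_soundK (hG : Cub G) (hc : Nice G c) {A : PL} {col v : ℕ} (hv : v < A.length)
    (hA : A.length ≤ 30) (hlv : (glR A v).length < 3) {e : ℕ → V} :
    ∀ (L : PL) (u non : ℕ), u + L.length = A.length → (∀ i, glR L i = glR A (u + i)) →
      Emb G c A col non e → (∀ w < u, G.Adj (e v) (e w) → w ∈ glR A v) →
      ∃ P ∈ kidsR A col v (glR A v) A.length L u non, ∃ e', Emb G c P.A P.col P.non e' ∧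
        A.length ≤ P.A.length ∧ ∀ i < A.length, e' i = e i := by
  intro L
  induction L with
  | nil =>
    intro u non hu _ hE hadj
    have hu' : u = A.length := by simpa using hu
    subst hu'
    obtain ⟨y, hy1, hy2⟩ := hE.missing hG hv hlv
    have hy3 : ∀ i < A.length, e i ≠ y := by
      intro i hi hh
      exact hy2 i (hadj i hi (hh ▸ hy1)) hh
    have hyc : c y ≠ c (e v) := by
      intro hh
      obtain ⟨j, hj, hj'⟩ := hE.mono v hv y ⟨hy1, hh.symm⟩
      exact hy2 j hj hj'
    have ek : kidsR A col v (glR A v) A.length [] A.length non =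
      [⟨appL (addAt A.length A v) [[v]],
        Nat.lor col (Bool.rec (motive := fun _ => Nat) (bitN A.length) (nat_lit 0) (tb col v)), non⟩,
       ⟨appL (addAt A.length A v) [[v, A.length + 1], [A.length]],
        Nat.lor col (Bool.rec (motive := fun _ => Nat)
          (Nat.lor (bitN A.length) (bitN (A.length + 1))) (nat_lit 0) (tb col v)), non⟩] := rfl
    rw [ek]
    by_cases hm : ∃ z, MA G c y z
    · obtain ⟨z, hz⟩ := hm
      refine ⟨_, List.mem_cons_of_mem _ (List.mem_singleton.2 rfl),
        (fun i => if i = A.length then y else if i = A.length + 1 then z else e i), ?_, ?_, ?_⟩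
      · show Emb G c (appL (addAt A.length A v) [[v, A.length + 1], [A.length]]) _ non _
        rw [appL_eq]
        refine hE.new2 hv hy1 hy3 ?_ hyc hz (fun w hw => nice_uniq hc hw hz)
          (fun w hw => nice_uniq hc hw (ma_symm hz))
        intro i hi hh
        obtain ⟨j, hj, hj'⟩ := hE.mono i hi y (hh ▸ ma_symm hz)
        exact hy3 j (hE.adj i hi j hj).1 hj'
      · show A.length ≤ (appL (addAt A.length A v) [[v, A.length + 1], [A.length]]).length
        rw [appL_eq, List.length_append, addAt_len]
        omega
      · intro i hi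
        show (if i = A.length then y else if i = A.length + 1 then z else e i) = e i
        rw [if_neg (by omega), if_neg (by omega)]
    · refine ⟨_, List.mem_cons_self, (fun i => if i = A.length then y else e i), ?_, ?_, ?_⟩
      · show Emb G c (appL (addAt A.length A v) [[v]]) _ non _
        rw [appL_eq]
        exact hE.new1 hv hy1 hy3 fun z hz => hm ⟨z, hz⟩
      · show A.length ≤ (appL (addAt A.length A v) [[v]]).length
        rw [appL_eq, List.length_append, addAt_len]
        omega
      · intro i hi
        show (if i = A.length then y else e i) = e i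
        rw [if_neg (by omega)]
  | cons l L ih =>
    intro u non hu hL hE hadj
    have hul : u < A.length := by
      rw [List.length_cons] at hu
      omega
    have hl : l = glR A u := by
      have := hL 0
      simpa [glR_eq] using this
    have hL' : ∀ i, glR L i = glR A (u + 1 + i) := by
      intro i
      have h1 := hL (i + 1)
      have e1 : u + (i + 1) = u + 1 + i := by omega
      rw [e1] at h1
      rw [← h1]
      rfl
    have hlen' : u + 1 + L.length = A.length := by
      rw [List.length_cons] at hu
      omega
    have ek : kidsR A col v (glR A v) A.length (l :: L) u non =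
      (Bool.rec (motive := fun _ => List Pt) (kidsR A col v (glR A v) A.length L (u + 1) non)
      (⟨addAt v (addAt u A v) u, col, non⟩ ::
        kidsR A col v (glR A v) A.length L (u + 1) (Nat.lor non (pairB v u)))
      (candB col non v (glR A v) u l) : List Pt) := rfl
    rw [ek]
    by_cases hadjvu : G.Adj (e v) (e u)
    · by_cases hmem : u ∈ glR A v
      · have hcand : candB col non v (glR A v) u l = false := by
          by_contra hh
          have hh' : candB col non v (glR A v) u l = true := by simpa using hh
          unfold candB at hh'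
          rw [andB_iff, andB_iff, andB_iff] at hh'
          have h1 := hh'.2.2.1
          rw [notB_iff] at h1
          have h2 := (memR_iff u (glR A v)).2 hmem
          rw [h1] at h2
          exact absurd h2 (by simp)
        rw [hcand]
        refine ih (u + 1) non hlen' hL' hE ?_
        intro w hw hvw
        by_cases hwu : w = u
        · rw [hwu]
          exact hmem
        · exact hadj w (by omega) hvw
      · have hcand : candB col non v (glR A v) u l = true := by
          unfold candB
          rw [andB_iff, andB_iff, andB_iff, notB_iff, notB_iff, notB_iff]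
          refine ⟨?_, ?_, ?_, ?_⟩
          · by_contra hh
            have hh' : eqB (tb col u) (tb col v) = true := by simpa using hh
            rw [eqB_iff, ← hE.colr u hul, ← hE.colr v hv] at hh'
            obtain ⟨j, hj, hj'⟩ := hE.mono v hv (e u) ⟨hadjvu, hh'.symm⟩
            have := hE.inj j (hE.adj v hv j hj).1 u hul hj'
            exact hmem (this ▸ hj)
          · rw [bleN_iff]
            have e1 : Nat.succ (lenN l) = l.length + 1 := by rw [lenN_eq]
            rw [e1]
            by_contra hh
            have hh1 : ¬ (l.length + 1 ≤ 3) := hh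
            have h3 : 3 ≤ (glR A u).length := by
              rw [← hl]
              omega
            obtain ⟨j, hj, hj'⟩ := hE.compl hG hul h3 hadjvu.symm
            have := hE.inj j (hE.adj u hul j hj).1 v hv hj'
            subst this
            exact hmem (hE.adj u hul j hj).2.2
          · by_contra hh
            have hh' : memR u (glR A v) = true := by simpa using hh
            exact hmem ((memR_iff _ _).1 hh')
          · by_contra hh
            have hh' : tb non (32 * v + u) = true := by simpa using hh
            exact (hE.non v (by omega) u (by omega) hh').2.2 hadjvu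
        rw [hcand]
        refine ⟨_, List.mem_cons_self, e, hE.join hul hv hadjvu hmem, ?_, fun i _ => rfl⟩
        show A.length ≤ (addAt v (addAt u A v) u).length
        rw [addAt_len, addAt_len]
    · have hrest : ∀ non', Emb G c A col non' e →
          ∃ P ∈ kidsR A col v (glR A v) A.length L (u + 1) non',
            ∃ e', Emb G c P.A P.col P.non e' ∧ A.length ≤ P.A.length ∧
              ∀ i < A.length, e' i = e i := by
        intro non' hE'
        refine ih (u + 1) non' hlen' hL' hE' ?_
        intro w hw hvw
        by_cases hwu : w = u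
        · subst hwu
          exact absurd hvw hadjvu
        · exact hadj w (by omega) hvw
      cases hcand : candB col non v (glR A v) u l
      · exact hrest non hE
      · obtain ⟨P, hP, h1⟩ := hrest _ (hE.excl hul hv hA hadjvu)
        exact ⟨P, List.mem_cons_of_mem _ hP, h1⟩

/-- soundness of the checker with distinguished vertices: in a leaf `e` agrees with `e0` on the
first `n0` indices; the leaf predicate implies `X` -/
theorem run_soundK (hG : Cub G) (hc : Nice G c) {lf : PL → ℕ → ℕ → ℕ → Bool} (X : Prop)
    (n0 : ℕ) (e0 : ℕ → V)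
    (hlf : ∀ A col non act e, lf A col non act = true → Emb G c A col non e → n0 ≤ A.length →
      (∀ i < n0, e i = e0 i) → X) :
    ∀ (S : List It) (g : List Pt), run lf S g = true →
      ∀ P ∈ g, ∀ e, Emb G c P.A P.col P.non e → n0 ≤ P.A.length → (∀ i < n0, e i = e0 i) → X := by
  intro S
  induction S with
  | nil =>
    intro g hg P hP
    cases g with
    | nil => simp at hP
    | cons Q gs => exact absurd hg (by simp [run])
  | cons it S ih =>
    intro g hg P hP e hE hn0 he0
    cases g with
    | nil => simp at hP
    | cons Q gs =>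
      obtain ⟨A, col, non, act⟩ := it
      obtain ⟨A', col', non'⟩ := Q
      have ek : run lf (⟨A, col, non, act⟩ :: S) (⟨A', col', non'⟩ :: gs) =
        andB (andB (eqLL A' A) (andB (Nat.beq col' col) (Nat.beq non' non)))
          (Bool.rec (motive := fun _ => Bool)
            (andB (lf A col non (Nat.div act (nat_lit 2))) (run lf S gs))
            (andB (Nat.ble (lenL A) (nat_lit 30))
              (andB (Nat.ble (Nat.succ (Nat.div act (nat_lit 2))) (lenL A))
                (andB (Nat.ble (Nat.succ (lenN (glR A (Nat.div act (nat_lit 2))))) (nat_lit 3))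
                  (run lf S (appP (kidsR A col (Nat.div act (nat_lit 2))
                    (glR A (Nat.div act (nat_lit 2))) (lenL A) A (nat_lit 0) non) gs)))))
            (Nat.beq (Nat.mod act (nat_lit 2)) (nat_lit 1))) := rfl
      rw [ek, andB_iff, andB_iff, andB_iff, eqLL_iff, beqN_iff, beqN_iff] at hg
      obtain ⟨⟨h1, h2, h3⟩, h4⟩ := hg
      subst h1 h2 h3
      cases h5 : Nat.beq (Nat.mod act (nat_lit 2)) (nat_lit 1)
      · rw [h5] at h4
        have h4' : andB (lf A' col' non' (Nat.div act (nat_lit 2))) (run lf S gs) = true := h4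
        rw [andB_iff] at h4'
        rcases List.mem_cons.1 hP with hP | hP
        · subst hP
          exact hlf _ _ _ _ _ h4'.1 hE hn0 he0
        · exact ih gs h4'.2 P hP e hE hn0 he0
      · rw [h5] at h4
        have h4' : andB (Nat.ble (lenL A') (nat_lit 30))
              (andB (Nat.ble (Nat.succ (Nat.div act (nat_lit 2))) (lenL A'))
                (andB (Nat.ble (Nat.succ (lenN (glR A' (Nat.div act (nat_lit 2))))) (nat_lit 3))
                  (run lf S (appP (kidsR A' col' (Nat.div act (nat_lit 2))
                    (glR A' (Nat.div act (nat_lit 2))) (lenL A') A' (nat_lit 0) non') gs)))) = true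
          := h4
        rw [andB_iff, andB_iff, andB_iff, bleN_iff, bleN_iff, bleN_iff, lenN_eq, lenL_eq,
          appP_eq] at h4'
        obtain ⟨h6, h7, h8, h9⟩ := h4'
        rcases List.mem_cons.1 hP with hP | hP
        · subst hP
          obtain ⟨P', hP', e', hE', hl', he'⟩ := kids_soundK hG hc
            (v := Nat.div act (nat_lit 2)) h7 h6 h8 A' 0 non' (by simp) (by simp) hE
            (by intro w hw; omega)
          exact ih _ h9 P' (List.mem_append_left _ hP') e' hE' (hn0.trans hl')
            fun i hi => (he' i (hi.trans_le hn0)).trans (he0 i hi)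
        · exact ih _ h9 P (List.mem_append_right _ hP) e hE hn0 he0

/-- certificates in World 2 -/
theorem World2.cert (hG : Cub G) (hW : World2 G c k) {S : List It} {A : PL} {col non : ℕ}
    {e : ℕ → V} (hr : run lf2 S [⟨A, col, non⟩] = true) (h : Emb G c A col non e) : False :=
  run_sound hG hW.nice (fun A col non act e => lf2_sound hG hW A col non act e) S _ hr
    ⟨A, col, non⟩ (by simp) e h

end

end Pool.Agent.Work.MP_1e13ac_W
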