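import Pool.Agent.Work.MP_1e13ac_W.L1Defs
import Pool.Agent.Work.MP_1e13ac_W.L2World
import Pool.Agent.Work.MP_1e13ac_Bis.MAIN
import Pool.Agent.Work.MP_1e13ac_Bis.EVEN
import Pool.Agent.Work.MP_1e13ac_Bis.ISO

/-!
# MP_1e13ac_co, full statement: final assembly (helper56)

* `stmt_CONN`: reduction to connected graphs;
* `exists_world`: a connected cubic graph without good colouring has a level-1 world or a World 2;
* `assembly`: the combinatorial form of the full statement from the two worlds;
* `frozen`: the form of the frozen statement.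
-/

set_option autoImplicit false
set_option linter.unusedSectionVars false

namespace Pool.Agent.Work.MP_1e13ac_W

open Classical Finset Pool.Agent.Work.MP_1e13ac_Bis

noncomputable section

/-! ## Reduction to connected graphs -/

theorem good_split {V : Type} [Fintype V] (G : SimpleGraph V) (p : V → Prop)
    (hp : ∀ x y, G.Adj x y → (p x ↔ p y))
    (h1 : Good' (G.comap (Subtype.val : {x : V // p x} → V)))
    (h2 : Good' (G.comap (Subtype.val : {x : V // ¬ p x} → V))) : Good' G := by
  have L1 : MAIN.Loc (G.comap (Subtype.val : {x : V // p x} → V)) G Subtype.val := by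
    refine ⟨Subtype.val_injective, fun x y => Iff.rfl, fun x y hxy => ?_⟩
    exact ⟨⟨y, (hp _ _ hxy).1 x.2⟩, rfl⟩
  have L2 : MAIN.Loc (G.comap (Subtype.val : {x : V // ¬ p x} → V)) G Subtype.val := by
    refine ⟨Subtype.val_injective, fun x y => Iff.rfl, fun x y hxy => ?_⟩
    exact ⟨⟨y, fun h => x.2 ((hp _ _ hxy).2 h)⟩, rfl⟩
  obtain ⟨c1, hc1, s1⟩ := h1
  obtain ⟨c2, hc2, s2⟩ := h2
  set c : V → Bool := fun y => if h : p y then c1 ⟨y, h⟩ else c2 ⟨y, h⟩ with hc
  have e1 : ∀ x : {x : V // p x}, c (Subtype.val x) = xor false (c1 x) := by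
    intro x
    rw [hc]
    simp only
    rw [dif_pos x.2]
    simp
  have e2 : ∀ x : {x : V // ¬ p x}, c (Subtype.val x) = xor false (c2 x) := by
    intro x
    rw [hc]
    simp only
    rw [dif_neg x.2]
    simp
  refine ⟨c, ⟨?_, ?_⟩, ?_⟩
  · intro y
    by_cases hy : p y
    · rw [show y = Subtype.val (⟨y, hy⟩ : {x : V // p x}) from rfl, L1.md e1]
      exact hc1.deg _
    · rw [show y = Subtype.val (⟨y, hy⟩ : {x : V // ¬ p x}) from rfl, L2.md e2]
      exact hc2.deg _
  · intro y
    by_cases hy : p y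
    · exact L1.nb4 e1 hc1 ⟨y, hy⟩
    · exact L2.nb4 e2 hc2 ⟨y, hy⟩
  · have hsum : ∀ f : V → ℤ, ∑ y, f y = ∑ x : {x : V // p x}, f (Subtype.val x) +
        ∑ x : {x : V // ¬ p x}, f (Subtype.val x) := by
      intro f
      exact (Fintype.sum_subtype_add_sum_subtype p f).symm
    have t1 := L1.stsum e1
    have t2 := L2.stsum e2
    rw [s1] at t1
    rw [s2] at t2
    simp only [Prod.mk.injEq, Prod.fst_zero, Prod.snd_zero, mul_zero] at t1 t2
    obtain ⟨a1, a2, a3⟩ := t1
    obtain ⟨b1, b2, b3⟩ := t2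
    unfold st
    rw [hsum (fun y => sg (c y)), hsum (fun y => locP G c y), hsum (fun y => locQ G c y),
      a1, a2, a3, b1, b2, b3]
    rfl

theorem stmt_CONN : Stmt_CONN := by
  intro hconn
  have main : ∀ n : ℕ, ∀ (V : Type) [Fintype V] (G : SimpleGraph V), Fintype.card V = n →
      Cub G → Good' G := by
    intro n
    induction n using Nat.strong_induction_on with
    | _ n ih =>
    intro V _ G hn hG
    rcases isEmpty_or_nonempty V with he | he
    · refine ⟨fun _ => true, ⟨fun x => (he.false x).elim, fun x => (he.false x).elim⟩, ?_⟩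
      unfold st
      simp
    · obtain ⟨v⟩ := he
      by_cases hr : ∀ y, G.Reachable v y
      · haveI : Nonempty V := ⟨v⟩
        exact hconn V G hG (SimpleGraph.Connected.mk fun x y => (hr x).symm.trans (hr y))
      · push Not at hr
        obtain ⟨w, hw⟩ := hr
        obtain ⟨p, hpd⟩ : ∃ p : V → Prop, ∀ y, p y ↔ G.Reachable v y :=
          ⟨fun y => G.Reachable v y, fun y => Iff.rfl⟩
        have hp : ∀ x y, G.Adj x y → (p x ↔ p y) := fun x y hxy => by
          rw [hpd, hpd]
          exact ⟨fun h => h.trans hxy.reachable, fun h => h.trans hxy.symm.reachable⟩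
        have hpw : ¬ p w := fun h => hw ((hpd w).1 h)
        have hpv : ¬ ¬ p v := fun h => h ((hpd v).2 (SimpleGraph.Reachable.refl _))
        refine good_split G p hp ?_ ?_
        · refine ih (Fintype.card {x : V // p x}) ?_ _ _ rfl ?_
          · rw [← hn]
            exact Fintype.card_subtype_lt hpw
          · have L1 : MAIN.Loc (G.comap (Subtype.val : {x : V // p x} → V)) G
                Subtype.val := by
              refine ⟨Subtype.val_injective, fun x y => Iff.rfl, fun x y hxy => ?_⟩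
              exact ⟨⟨y, (hp _ _ hxy).1 x.2⟩, rfl⟩
            exact L1.cub hG
        · refine ih (Fintype.card {x : V // ¬ p x}) ?_ _ _ rfl ?_
          · rw [← hn]
            exact Fintype.card_subtype_lt hpv
          · have L2 : MAIN.Loc (G.comap (Subtype.val : {x : V // ¬ p x} → V)) G
                Subtype.val := by
              refine ⟨Subtype.val_injective, fun x y => Iff.rfl, fun x y hxy => ?_⟩
              exact ⟨⟨y, fun h => x.2 ((hp _ _ hxy).2 h)⟩, rfl⟩
            exact L2.cub hG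
  intro V _ G hG
  exact main _ V G rfl hG

/-! ## Existence of nice minimisers -/

section Ex

variable {V : Type} [Fintype V] {G : SimpleGraph V}

theorem mdF_eq (G : SimpleGraph V) (c : V → Bool) (x : V) :
    (md G c x : ℤ) = ∑ y, if MA G c x y then 1 else 0 := by
  unfold md
  rw [Finset.card_filter]
  push_cast
  rfl

theorem ma_comm (G : SimpleGraph V) (c : V → Bool) (x y : V) : MA G c x y ↔ MA G c y x :=
  ⟨ma_symm, ma_symm⟩

theorem md_flip_self (hG : Cub G) (c : V → Bool) (x : V) :
    (md G (flp {x} c) x : ℤ) = 3 - md G c x := by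
  have h := hG x
  have h1 : md G (flp {x} c) x + md G c x = (nbs G x).card := by
    unfold md nbs
    rw [add_comm, ← Finset.card_filter_add_card_filter_not (s := univ.filter fun y => G.Adj x y)
      (fun y => c x = c y)]
    congr 1
    · congr 1
      ext y
      simp [MA]
    · congr 1
      ext y
      simp only [MA, Finset.mem_filter, Finset.mem_univ, true_and]
      refine and_congr_right fun hxy => ?_
      rw [flp_in (Finset.mem_singleton_self x), flp_out (by simp [hxy.ne'])]
      cases c x <;> cases c y <;> simp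
  omega

/-- the sum of the monochromatic degrees without the vertex `x` -/
theorem smd_split (G : SimpleGraph V) (c : V → Bool) (x : V) :
    smd G c = (∑ a ∈ univ.erase x, ∑ b ∈ univ.erase x, if MA G c a b then (1 : ℤ) else 0) +
      2 * md G c x := by
  have h0 : ¬ MA G c x x := fun h => h.1.ne rfl
  have key : ∀ f : V → ℤ, ∑ a, f a = ∑ a ∈ univ.erase x, f a + f x := fun f =>
    (Finset.sum_erase_add _ _ (Finset.mem_univ x)).symm
  have e1 : smd G c = ∑ a, ∑ b, if MA G c a b then (1 : ℤ) else 0 := by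
    unfold smd
    exact Finset.sum_congr rfl fun a _ => mdF_eq G c a
  have e2 : ∑ a ∈ univ.erase x, ∑ b, (if MA G c a b then (1 : ℤ) else 0) =
      (∑ a ∈ univ.erase x, ∑ b ∈ univ.erase x, if MA G c a b then (1 : ℤ) else 0) +
        ∑ a ∈ univ.erase x, if MA G c a x then (1 : ℤ) else 0 := by
    rw [← Finset.sum_add_distrib]
    exact Finset.sum_congr rfl fun a _ => key _
  have e3 : ∑ a ∈ univ.erase x, (if MA G c a x then (1 : ℤ) else 0) = md G c x := by
    rw [mdF_eq, key (fun y => if MA G c x y then (1 : ℤ) else 0), if_neg h0, add_zero]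
    refine Finset.sum_congr rfl fun a _ => ?_
    rw [ma_comm]
  rw [e1, key, e2, e3, ← mdF_eq]
  ring

theorem smd_flip (hG : Cub G) (c : V → Bool) (x : V) :
    smd G (flp {x} c) = smd G c + 6 - 4 * md G c x := by
  rw [smd_split G (flp {x} c) x, smd_split G c x, md_flip_self hG]
  have e : (∑ a ∈ univ.erase x, ∑ b ∈ univ.erase x, if MA G (flp {x} c) a b then (1 : ℤ) else 0) =
      ∑ a ∈ univ.erase x, ∑ b ∈ univ.erase x, if MA G c a b then (1 : ℤ) else 0 := by
    refine Finset.sum_congr rfl fun a ha => Finset.sum_congr rfl fun b hb => ?_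
    have ha' : a ∉ ({x} : Finset V) := by
      rw [Finset.mem_singleton]
      exact Finset.ne_of_mem_erase ha
    have hb' : b ∉ ({x} : Finset V) := by
      rw [Finset.mem_singleton]
      exact Finset.ne_of_mem_erase hb
    unfold MA
    rw [flp_out ha', flp_out hb']
  rw [e]
  ring

theorem lev_flip (c : V → Bool) (x : V) : lev (flp {x} c) = lev c - 2 * sg (c x) := by
  have key : ∀ f : V → ℤ, ∑ a, f a = ∑ a ∈ univ.erase x, f a + f x := fun f =>
    (Finset.sum_erase_add _ _ (Finset.mem_univ x)).symm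
  unfold lev
  rw [key, key (fun x => sg (c x)), flp_in (Finset.mem_singleton_self x)]
  have e : ∑ a ∈ univ.erase x, sg (flp {x} c a) = ∑ a ∈ univ.erase x, sg (c a) := by
    refine Finset.sum_congr rfl fun a ha => ?_
    rw [flp_out]
    rw [Finset.mem_singleton]
    exact Finset.ne_of_mem_erase ha
  rw [e]
  cases c x <;> simp [sg] <;> ring

/-- an `F2`-minimiser with minimal sum of monochromatic degrees is nice -/
theorem exists_nice_min (hG : Cub G) : ∃ c : V → Bool, Nice G c ∧ ∀ c', F2 G c ≤ F2 G c' := by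
  obtain ⟨c0, -, h0⟩ := Finset.exists_min_image (univ : Finset (V → Bool)) (fun c => F2 G c)
    ⟨fun _ => true, Finset.mem_univ _⟩
  obtain ⟨c, hc, h1⟩ := Finset.exists_min_image
    ((univ : Finset (V → Bool)).filter fun c => F2 G c = F2 G c0) (fun c => smd G c)
    ⟨c0, Finset.mem_filter.2 ⟨Finset.mem_univ _, rfl⟩⟩
  have hcF : F2 G c = F2 G c0 := (Finset.mem_filter.1 hc).2
  refine ⟨c, ?_, fun c' => by rw [hcF]; exact h0 c' (Finset.mem_univ _)⟩
  intro x
  by_contra hx
  have hx2 : 2 ≤ md G c x := by omega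
  have h2 := smd_flip hG c x
  have h3 := lev_flip c x
  have h4 : |lev (flp {x} c)| ≤ |lev c| + 2 := by
    rw [h3]
    refine (abs_sub _ _).trans ?_
    have : |2 * sg (c x)| = 2 := by
      cases c x <;> simp [sg]
    rw [this]
  have h5 := h0 (flp {x} c) (Finset.mem_univ _)
  have h6 : F2 G (flp {x} c) = F2 G c0 := by
    refine le_antisymm ?_ h5
    rw [← hcF]
    unfold F2
    rw [h2]
    have : (2 : ℤ) ≤ md G c x := by exact_mod_cast hx2
    linarith
  have h7 := h1 (flp {x} c) (Finset.mem_filter.2 ⟨Finset.mem_univ _, h6⟩)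
  rw [h2] at h7
  have : (2 : ℤ) ≤ md G c x := by exact_mod_cast hx2
  linarith

/-- exchange of the colours -/
def opp (c : V → Bool) : V → Bool := fun x => !(c x)

theorem MA_opp (c : V → Bool) (x y : V) : MA G (opp c) x y ↔ MA G c x y := by
  unfold MA opp
  cases c x <;> cases c y <;> simp

theorem md_opp (c : V → Bool) (x : V) : md G (opp c) x = md G c x :=
  md_congr fun y => MA_opp c x y

theorem lev_opp (c : V → Bool) : lev (opp c) = - lev c := by
  unfold lev
  rw [← Finset.sum_neg_distrib]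
  refine Finset.sum_congr rfl fun x _ => ?_
  unfold opp
  cases c x <;> simp [sg]

theorem F2_opp (c : V → Bool) : F2 G (opp c) = F2 G c := by
  unfold F2 smd
  rw [lev_opp, abs_neg]
  simp only [md_opp]

theorem nice_opp {c : V → Bool} (h : Nice G c) : Nice G (opp c) := fun x => by
  rw [md_opp]
  exact h x

theorem lev_even (hG : Cub G) {c : V → Bool} (h : Nice G c) : (2 : ℤ) ∣ lev c := by
  have h1 := (stmt_EVEN V G hG c (valid_of_nice h)).1
  rw [st_of_nice h] at h1
  exact h1

/-- the lexicographically minimal colouring -/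
theorem exists_world (hG : Cub G) (hbad : ¬ Good' G) :
    (∃ c : V → Bool, WL1 G c) ∨ ∃ (c : V → Bool) (k : ℕ), World2 G c k := by
  obtain ⟨c0, hn0, hm0⟩ := exists_nice_min hG
  have hlev : ∀ c', Nice G c' → 2 ≤ |lev c'| := by
    intro c' hn
    have h1 : lev c' ≠ 0 := fun h => hbad (good_of_nice hn h)
    obtain ⟨m, hm⟩ := lev_even hG hn
    rw [hm, abs_mul]
    have h2 : m ≠ 0 := by
      rintro rfl
      exact h1 (by rw [hm]; ring)
    have h3 : 1 ≤ |m| := Int.one_le_abs h2
    have h4 : |(2 : ℤ)| = 2 := by norm_num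
    rw [h4]
    linarith
  -- candidates
  set Cd : Finset ((V → Bool) × ℕ) :=
    (univ : Finset (V → Bool)) ×ˢ (Finset.range (Fintype.card V + 1)) with hCd
  set Cn := Cd.filter fun q => Nice G q.1 ∧ F2 G q.1 = F2 G c0 ∧ lev q.1 = 2 * (q.2 : ℤ) ∧ 1 ≤ q.2
    with hCn
  have hbound : ∀ (c' : V → Bool) (m : ℕ), lev c' = 2 * (m : ℤ) → m < Fintype.card V + 1 := by
    intro c' m h
    have h1 : lev c' ≤ ∑ _x : V, (1 : ℤ) := by
      unfold lev
      refine Finset.sum_le_sum fun x _ => ?_
      cases c' x <;> simp [sg]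
    rw [Finset.sum_const, Finset.card_univ, nsmul_eq_mul, mul_one] at h1
    omega
  have hmem : ∀ (c' : V → Bool) (m : ℕ), Nice G c' → F2 G c' = F2 G c0 → lev c' = 2 * (m : ℤ) →
      (c', m) ∈ Cn := by
    intro c' m h1 h2 h3
    rw [hCn, Finset.mem_filter, hCd, Finset.mem_product]
    refine ⟨⟨Finset.mem_univ _, Finset.mem_range.2 (hbound c' m h3)⟩, h1, h2, h3, ?_⟩
    have h4 := hlev c' h1
    rw [h3, abs_of_nonneg (by positivity)] at h4
    show 1 ≤ m
    omega
  have hne : Cn.Nonempty := by
    rcases le_total 0 (lev c0) with h | h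
    · obtain ⟨m, hm⟩ := lev_even hG hn0
      have hm0' : 0 ≤ m := by omega
      obtain ⟨m', rfl⟩ := Int.eq_ofNat_of_zero_le hm0'
      exact ⟨(c0, m'), hmem _ _ hn0 rfl hm⟩
    · obtain ⟨m, hm⟩ := lev_even hG (nice_opp hn0)
      rw [lev_opp] at hm
      have hm0' : 0 ≤ m := by omega
      obtain ⟨m', rfl⟩ := Int.eq_ofNat_of_zero_le hm0'
      refine ⟨(opp c0, m'), hmem _ _ (nice_opp hn0) (F2_opp c0) ?_⟩
      rw [lev_opp, hm]
  obtain ⟨⟨c, k⟩, hck, hmin⟩ := Finset.exists_min_image Cn
    (fun q => toLex (3 * q.2 + (T1s G q.1).card,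
      toLex (q.2, Fintype.card V - (Qs G q.1 0).card))) hne
  obtain ⟨-, hn, hF, hl, hk1⟩ := Finset.mem_filter.1 hck
  simp only at hn hF hl hk1
  have hminF : ∀ c', F2 G c ≤ F2 G c' := fun c' => by rw [hF]; exact hm0 c'
  have hq : ∀ c' : V → Bool, (Qs G c' 0).card ≤ Fintype.card V := fun c' =>
    (Finset.card_le_univ _)
  have hlex : ∀ (c' : V → Bool) (m : ℕ), Nice G c' → F2 G c' = F2 G c → lev c' = 2 * (m : ℤ) →
      3 * k + (T1s G c).card < 3 * m + (T1s G c').card ∨
      (3 * k + (T1s G c).card = 3 * m + (T1s G c').card ∧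
        (k < m ∨ (k = m ∧ (Qs G c' 0).card ≤ (Qs G c 0).card))) := by
    intro c' m h1 h2 h3
    have h4 := hmin (c', m) (hmem c' m h1 (h2.trans hF) h3)
    simp only [Prod.Lex.toLex_le_toLex] at h4
    have h5 := hq c
    have h6 := hq c'
    rcases h4 with h | ⟨h, h' | ⟨h', h''⟩⟩
    · exact Or.inl h
    · exact Or.inr ⟨h, Or.inl h'⟩
    · refine Or.inr ⟨h, Or.inr ⟨h', ?_⟩⟩
      omega
  rcases Nat.lt_or_ge k 2 with h | h
  · have hk : k = 1 := by omega
    subst hk
    refine Or.inl ⟨c, hn, by rw [hl]; norm_num, hminF, fun c' h1 _ => hlev c' h1, ?_, hbad⟩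
    intro c' m h1 h2 h3
    have := hlex c' m h1 h2 h3
    simpa using this
  · exact Or.inr ⟨c, k, hn, hl, h, hminF, fun c' h1 _ => hlev c' h1, hlex, hbad⟩

end Ex

/-! ## Assembly -/

theorem assembly (hL1 : Stmt_L1)
    (hW2 : ∀ (V : Type) [Fintype V] (G : SimpleGraph V) (c : V → Bool) (k : ℕ), Cub G →
      World2 G c k → False) :
    ∀ (V : Type) [Fintype V] (G : SimpleGraph V), Cub G → Good' G := by
  refine stmt_CONN fun V _ G hG hconn => ?_
  by_contra hbad
  rcases exists_world hG hbad with ⟨c, hc⟩ | ⟨c, k, hc⟩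
  · exact hL1 V G hG hconn c hc
  · exact hW2 V G c k hG hc

theorem cub_of_reg {V : Type} [Fintype V] [DecidableEq V] (G : SimpleGraph V)
    [DecidableRel G.Adj] (h : G.IsRegularOfDegree 3) : Cub G := by
  intro x
  have h1 := h x
  rw [← SimpleGraph.card_neighborFinset_eq_degree] at h1
  rw [← h1]
  congr 1
  ext y
  simp [nbs]

/-- the form of the frozen statement -/
theorem frozen (hL1 : Stmt_L1)
    (hW2 : ∀ (V : Type) [Fintype V] (G : SimpleGraph V) (c : V → Bool) (k : ℕ), Cub G →
      World2 G c k → False) :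
    ∀ (V : Type) [Fintype V] [DecidableEq V] (G : SimpleGraph V) [DecidableRel G.Adj],
      G.IsRegularOfDegree 3 →
      ∃ S : Set V,
        S.ncard = Sᶜ.ncard ∧
        (∀ c : (G.induce S).ConnectedComponent, c.supp.ncard ≤ 4) ∧
        (∀ c : (G.induce Sᶜ).ConnectedComponent, c.supp.ncard ≤ 4) ∧
        (G.induce S).IsAcyclic ∧
        (∀ v, ((G.induce S).neighborSet v).ncard ≤ 2) ∧
        (G.induce Sᶜ).IsAcyclic ∧
        (∀ v, ((G.induce Sᶜ).neighborSet v).ncard ≤ 2) ∧
        Nonempty (G.induce S ≃g G.induce Sᶜ) := by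
  intro V _ _ G _ hG
  have hc := cub_of_reg G hG
  exact stmt_ISO V G hc (assembly hL1 hW2 V G hc)

end

end Pool.Agent.Work.MP_1e13ac_W
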