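import Pool.Agent.Work.MP_1e13ac_W.PkMain

/-!
# MP_1e13ac_co, full statement, level `k ≥ 2`: tools for the stages (helper80)
-/

set_option autoImplicit false
set_option linter.unusedSectionVars false

namespace Pool.Agent.Work.MP_1e13ac_W

open Classical Finset Pool.Agent.Work.MP_1e13ac_Bis

noncomputable section

variable {V : Type} [Fintype V] {G : SimpleGraph V} {c : V → Bool}

/-! ## Neighbourhoods -/

theorem N3.adj {a x y z : V} (h : N3 G a x y z) : G.Adj a x ∧ G.Adj a y ∧ G.Adj a z :=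
  ⟨(h.2.2.2 x).2 (by simp), (h.2.2.2 y).2 (by simp), (h.2.2.2 z).2 (by simp)⟩

theorem N3.mem {a x y z t : V} (h : N3 G a x y z) (ht : G.Adj a t) : t = x ∨ t = y ∨ t = z :=
  (h.2.2.2 t).1 ht

theorem N3.mem' {a x y z t : V} (h : N3 G a x y z) (ht : G.Adj t a) : t = x ∨ t = y ∨ t = z :=
  h.mem ht.symm

theorem N3.swap {a x y z : V} (h : N3 G a x y z) : N3 G a y x z :=
  ⟨h.1.symm, h.2.2.1, h.2.1, fun t => by rw [h.2.2.2 t]; tauto⟩

theorem N3.rot {a x y z : V} (h : N3 G a x y z) : N3 G a y z x :=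
  ⟨h.2.2.1, h.1.symm, h.2.1.symm, fun t => by rw [h.2.2.2 t]; tauto⟩

theorem N3.swap' {a x y z : V} (h : N3 G a x y z) : N3 G a x z y :=
  ⟨h.2.1, h.1, h.2.2.1.symm, fun t => by rw [h.2.2.2 t]; tauto⟩

/-- third neighbour -/
theorem N3.third {a x y z z' : V} (h : N3 G a x y z) (h' : N3 G a x y z') : z = z' := by
  rcases h'.mem h.adj.2.2 with e | e | e
  · exact absurd e.symm h.2.1
  · exact absurd e.symm h.2.2.1
  · exact e

theorem N3_of (hG : Cub G) {a x y : V} (hx : G.Adj a x) (hy : G.Adj a y) (hxy : x ≠ y) :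
    ∃ z, N3 G a x y z := by
  obtain ⟨z, h1, h2, h3⟩ := cub2 hG hx hy hxy
  exact ⟨z, hxy, h1.symm, h2.symm, h3⟩

theorem N3_of3 (hG : Cub G) {a x y z : V} (hx : G.Adj a x) (hy : G.Adj a y) (hz : G.Adj a z)
    (h1 : x ≠ y) (h2 : x ≠ z) (h3 : y ≠ z) : N3 G a x y z := by
  obtain ⟨t, ht⟩ := N3_of hG hx hy h1
  rcases ht.mem hz with e | e | e
  · exact absurd e.symm h2
  · exact absurd e.symm h3
  · rw [e]
    exact ht

theorem N3_of1 (hG : Cub G) {a x : V} (hx : G.Adj a x) : ∃ y z, N3 G a x y z := by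
  obtain ⟨y, z, h1, h2, h3, h4⟩ := cub1 hG hx
  exact ⟨y, z, h2.symm, h3.symm, h1, h4⟩

theorem col_ne {x y : V} (h : G.Adj x y) (h1 : ¬ MA G c x y) : c x ≠ c y :=
  fun hh => h1 ⟨h, hh⟩

theorem W_of_B {x y : V} (h : G.Adj x y) (hx : IsB0 G c x) : c y = true := by
  by_contra hh
  have hy : c y = false := by simpa using hh
  exact md0_no hx.2 ⟨h, by rw [hx.1, hy]⟩

theorem B_of_W {x y : V} (h : G.Adj x y) (hx : IsW0 G c x) : c y = false := by
  by_contra hh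
  have hy : c y = true := by simpa using hh
  exact md0_no hx.2 ⟨h, by rw [hx.1, hy]⟩

theorem B0_not_B1 {x : V} (h0 : IsB0 G c x) (h1 : IsB1 G c x) : False := by
  have := h0.2
  rw [h1.2] at this
  exact absurd this (by norm_num)

theorem W0_not_W1 {x : V} (h0 : IsW0 G c x) (h1 : IsW1 G c x) : False := by
  have := h0.2
  rw [h1.2] at this
  exact absurd this (by norm_num)

theorem B0_or_B1 (hc : Nice G c) {x : V} (h : c x = false) : IsB0 G c x ∨ IsB1 G c x := by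
  have h1 := hc x
  by_cases h2 : md G c x = 0
  · exact Or.inl ⟨h, h2⟩
  · exact Or.inr ⟨h, by omega⟩

theorem W0_or_W1 (hc : Nice G c) {x : V} (h : c x = true) : IsW0 G c x ∨ IsW1 G c x := by
  have h1 := hc x
  by_cases h2 : md G c x = 0
  · exact Or.inl ⟨h, h2⟩
  · exact Or.inr ⟨h, by omega⟩

theorem W1_of_MA (hc : Nice G c) {x y : V} (h : MA G c x y) (hx : c x = true) : IsW1 G c x :=
  ⟨hx, md1_of hc h⟩

theorem B1_of_MA (hc : Nice G c) {x y : V} (h : MA G c x y) (hx : c x = false) : IsB1 G c x :=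
  ⟨hx, md1_of hc h⟩

/-- number of neighbours in `B1` of a vertex in `W1` -/
theorem nB1_cases {x x' a b : V} (hx : IsW1 G c x)
    (hm : MA G c x x') (hN : N3 G x x' a b) :
    nB1 G c x = (if IsB1 G c a then 1 else 0) + (if IsB1 G c b then 1 else 0) := by
  unfold nB1
  have e : (nbs G x).filter (fun y => IsB1 G c y) = ({a, b} : Finset V).filter
      (fun y => IsB1 G c y) := by
    ext y
    rw [Finset.mem_filter, Finset.mem_filter, mem_nbs, hN.2.2.2 y]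
    constructor
    · rintro ⟨rfl | rfl | rfl, h⟩
      · exfalso
        have h1 := hm.2
        rw [hx.1, h.1] at h1
        exact absurd h1 (by simp)
      · exact ⟨by simp, h⟩
      · exact ⟨by simp, h⟩
    · rintro ⟨h1, h⟩
      rw [Finset.mem_insert, Finset.mem_singleton] at h1
      exact ⟨Or.inr h1, h⟩
  rw [e, Finset.filter_insert, Finset.filter_singleton]
  by_cases ha : IsB1 G c a <;> by_cases hb : IsB1 G c b <;> simp [ha, hb, hN.2.2.1]

theorem mate_ex {x : V} (hx : IsW1 G c x) : ∃ x', MA G c x x' := md1_ex hx.2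

/-- the neighbours of a source -/
theorem Q0_N3 (hG : Cub G) (hc : Nice G c) {w : V} (hw : w ∈ Qs G c 0) :
    ∃ w' a b, MA G c w w' ∧ N3 G w w' a b ∧ IsB0 G c a ∧ IsB0 G c b := by
  have hw1 := (mem_Qs.1 hw).1
  obtain ⟨w', hm⟩ := mate_ex hw1
  obtain ⟨a, b, h1, h2, h3, h4, h5, h6⟩ := mate_nbs hG hc hm
  have hN : N3 G w w' a b := ⟨h2.symm, h3.symm, h1, h6⟩
  have ha : c a = false := by
    rw [hw1.1] at h4
    simpa using h4
  have hb : c b = false := by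
    rw [hw1.1] at h5
    simpa using h5
  exact ⟨w', a, b, hm, hN, Q0_nb hc hw hN.adj.2.1 ha, Q0_nb hc hw hN.adj.2.2 hb⟩

/-- the neighbours of a source, one black neighbour given -/
theorem Q0_N3' (hG : Cub G) (hc : Nice G c) {w w' a : V} (hw : w ∈ Qs G c 0)
    (hm : MA G c w w') (ha : G.Adj w a) (hca : c a = false) :
    IsB0 G c a ∧ ∃ b, N3 G w w' a b ∧ IsB0 G c b := by
  have hw1 := (mem_Qs.1 hw).1
  have hne : w' ≠ a := by
    rintro rfl
    have := hm.2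
    rw [hw1.1, hca] at this
    exact absurd this (by simp)
  obtain ⟨b, hb⟩ := N3_of hG hm.1 ha hne
  refine ⟨Q0_nb hc hw ha hca, b, hb, Q0_nb hc hw hb.adj.2.2 ?_⟩
  by_contra hh
  have hb' : c b = true := by simpa using hh
  exact hb.2.1 (nice_uniq hc hm ⟨hb.adj.2.2, by rw [hw1.1, hb']⟩)

/-- the neighbours of a vertex of `Q1` -/
theorem Q1_N3 (hG : Cub G) (hc : Nice G c) {x : V} (hx : x ∈ Qs G c 1) :
    ∃ x' a g, MA G c x x' ∧ N3 G x x' a g ∧ IsB0 G c a ∧ IsB1 G c g := by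
  obtain ⟨hx1, hn⟩ := mem_Qs.1 hx
  obtain ⟨x', hm⟩ := mate_ex hx1
  obtain ⟨a, b, h1, h2, h3, h4, h5, h6⟩ := mate_nbs hG hc hm
  have hN : N3 G x x' a b := ⟨h2.symm, h3.symm, h1, h6⟩
  have ha : c a = false := by
    rw [hx1.1] at h4
    simpa using h4
  have hb : c b = false := by
    rw [hx1.1] at h5
    simpa using h5
  rw [nB1_cases hx1 hm hN] at hn
  rcases B0_or_B1 hc ha with ha0 | ha1
  · rcases B0_or_B1 hc hb with hb0 | hb1
    · rw [if_neg (fun h => B0_not_B1 ha0 h), if_neg (fun h => B0_not_B1 hb0 h)] at hn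
      exact absurd hn (by norm_num)
    · exact ⟨x', a, b, hm, hN, ha0, hb1⟩
  · rcases B0_or_B1 hc hb with hb0 | hb1
    · exact ⟨x', b, a, hm, hN.swap', hb0, ha1⟩
    · rw [if_pos ha1, if_pos hb1] at hn
      exact absurd hn (by norm_num)

/-- the neighbours of a vertex of `Q2` -/
theorem Q2_N3 (hG : Cub G) (hc : Nice G c) {x : V} (hx : x ∈ Qs G c 2) :
    ∃ x' a g, MA G c x x' ∧ N3 G x x' a g ∧ IsB1 G c a ∧ IsB1 G c g := by
  obtain ⟨hx1, hn⟩ := mem_Qs.1 hx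
  obtain ⟨x', hm⟩ := mate_ex hx1
  obtain ⟨a, b, h1, h2, h3, h4, h5, h6⟩ := mate_nbs hG hc hm
  have hN : N3 G x x' a b := ⟨h2.symm, h3.symm, h1, h6⟩
  rw [nB1_cases hx1 hm hN] at hn
  by_cases ha : IsB1 G c a
  · by_cases hb : IsB1 G c b
    · exact ⟨x', a, b, hm, hN, ha, hb⟩
    · rw [if_pos ha, if_neg hb] at hn
      exact absurd hn (by norm_num)
  · by_cases hb : IsB1 G c b
    · rw [if_neg ha, if_pos hb] at hn
      exact absurd hn (by norm_num)
    · rw [if_neg ha, if_neg hb] at hn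
      exact absurd hn (by norm_num)

/-- classes of `W1` -/
theorem W1_cases (hG : Cub G) (hc : Nice G c) {x : V} (hx : IsW1 G c x) :
    x ∈ Qs G c 0 ∨ x ∈ Qs G c 1 ∨ x ∈ Qs G c 2 := by
  obtain ⟨x', hm⟩ := mate_ex hx
  obtain ⟨a, b, h1, h2, h3, h4, h5, h6⟩ := mate_nbs hG hc hm
  have hN : N3 G x x' a b := ⟨h2.symm, h3.symm, h1, h6⟩
  have hn := nB1_cases hx hm hN
  by_cases ha : IsB1 G c a
  · by_cases hb : IsB1 G c b
    · rw [if_pos ha, if_pos hb] at hn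
      exact Or.inr (Or.inr (mem_Qs.2 ⟨hx, hn⟩))
    · rw [if_pos ha, if_neg hb] at hn
      exact Or.inr (Or.inl (mem_Qs.2 ⟨hx, hn⟩))
  · by_cases hb : IsB1 G c b
    · rw [if_neg ha, if_pos hb] at hn
      exact Or.inr (Or.inl (mem_Qs.2 ⟨hx, hn⟩))
    · rw [if_neg ha, if_neg hb] at hn
      exact Or.inl (mem_Qs.2 ⟨hx, hn⟩)

/-- a vertex of `W1` with a neighbour in `B0` which is not a source is in `Q1` -/
theorem Q1_of (hG : Cub G) (hc : Nice G c) {x a : V} (hx : IsW1 G c x) (h : G.Adj x a)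
    (ha : IsB0 G c a) (h0 : x ∉ Qs G c 0) : x ∈ Qs G c 1 := by
  rcases W1_cases hG hc hx with h1 | h1 | h1
  · exact absurd h1 h0
  · exact h1
  · obtain ⟨x', u, v, hm, hN, hu, hv⟩ := Q2_N3 hG hc h1
    rcases hN.mem h with e | e | e
    · subst e
      have := hm.2
      rw [hx.1, ha.1] at this
      exact absurd this (by simp)
    · subst e
      exact absurd hu fun h => B0_not_B1 ha h
    · subst e
      exact absurd hv fun h => B0_not_B1 ha h

theorem Q_disj {x : V} {i j : ℕ} (h1 : x ∈ Qs G c i) (h2 : x ∈ Qs G c j) : i = j := by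
  rw [← (mem_Qs.1 h1).2, (mem_Qs.1 h2).2]

/-- the unique neighbour in `B0` of a vertex of `Q1` -/
theorem Q1_B0 (hG : Cub G) (hc : Nice G c) {x a b : V} (hx : x ∈ Qs G c 1) (h1 : G.Adj x a)
    (ha : IsB0 G c a) (h2 : G.Adj x b) (hb : IsB0 G c b) : a = b := by
  obtain ⟨x', u, g, hm, hN, hu, hg⟩ := Q1_N3 hG hc hx
  have key : ∀ t, G.Adj x t → IsB0 G c t → t = u := by
    intro t h3 h4
    rcases hN.mem h3 with e | e | e
    · subst e
      have := hm.2
      rw [(mem_Qs.1 hx).1.1, h4.1] at this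
      exact absurd this (by simp)
    · exact e
    · subst e
      exact absurd hg fun h => B0_not_B1 h4 h
  rw [key a h1 ha, key b h2 hb]

/-- sources have no neighbour in `B1` -/
theorem Q0_noB1 (hc : Nice G c) {w g : V} (hw : w ∈ Qs G c 0) (hg : IsB1 G c g) :
    ¬ G.Adj w g := fun h => B0_not_B1 (Q0_nb hc hw h hg.1) hg

/-! ## Touch -/

/-- zones meet -/
theorem touch (hc : Nice G c) {K F : Finset V} (h : ¬ ZD G c K F) :
    ∃ v ∈ K, ∃ z ∈ Zn G c F, v = z ∨ (G.Adj v z ∧ c v ≠ c z) := by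
  unfold ZD at h
  rw [Finset.not_disjoint_iff] at h
  obtain ⟨x, hx, hx'⟩ := h
  have key : ∀ y ∈ NF G K, y ∈ Zn G c F →
      ∃ v ∈ K, ∃ z ∈ Zn G c F, v = z ∨ (G.Adj v z ∧ c v ≠ c z) := by
    intro y hy hyF
    rcases mem_NF.1 hy with h1 | ⟨v, hv, h1⟩
    · exact ⟨y, h1, y, hyF, Or.inl rfl⟩
    · by_cases h2 : c v = c y
      · exact ⟨v, hv, v, Zn_mate hc hyF ⟨h1.symm, h2.symm⟩, Or.inl rfl⟩
      · exact ⟨v, hv, y, hyF, Or.inr ⟨h1, h2⟩⟩
  rcases mem_Zn.1 hx with h1 | ⟨y, hy, h1⟩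
  · exact key x h1 hx'
  · exact key y hy (Zn_mate hc hx' (ma_symm h1))

/-- zones meet (converse) -/
theorem not_ZD {K F : Finset V} {v z : V} (hv : v ∈ K) (hz : z ∈ Zn G c F)
    (h : v = z ∨ G.Adj v z) : ¬ ZD G c K F := by
  intro hd
  rcases h with rfl | h
  · exact Finset.disjoint_left.1 hd (F_sub_Zn hv) hz
  · exact Finset.disjoint_left.1 hd (nb_Zn hv h) hz

/-! ## Alive cores -/

/-- `K` is an alive core of the slot `(w, a)` -/
def Cor (G : SimpleGraph V) (c : V → Bool) (F0 : Finset V) (s : V × V) (K : Finset V) : Prop :=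
  ((∃ n, CrA G c n s.1 s.2 K) ∨ ∃ n H τ e, CrB G c n s.1 s.2 H τ e ∧ K = insert τ H) ∧
    ZD G c K F0

theorem alive_iff {F0 : Finset V} {s : V × V} : Alive G c F0 s ↔ ∃ K, Cor G c F0 s K := by
  constructor
  · rintro (⟨n, K, h1, h2⟩ | ⟨n, H, τ, e, h1, h2⟩)
    · exact ⟨K, Or.inl ⟨n, h1⟩, h2⟩
    · exact ⟨_, Or.inr ⟨n, H, τ, e, h1, rfl⟩, h2⟩
  · rintro ⟨K, ⟨n, h1⟩ | ⟨n, H, τ, e, h1, rfl⟩, h2⟩
    · exact Or.inl ⟨n, K, h1, h2⟩
    · exact Or.inr ⟨n, H, τ, e, h1, h2⟩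

theorem mem_AL {F0 : Finset V} {s : V × V} : s ∈ AL G c F0 ↔ ∃ K, Cor G c F0 s K := by
  unfold AL
  rw [Finset.mem_filter, alive_iff]
  simp

/-- the alive slots with a core touching `z` -/
def Jz (G : SimpleGraph V) (c : V → Bool) (F0 : Finset V) (z : V) : Finset (V × V) :=
  univ.filter fun s => ∃ K, Cor G c F0 s K ∧ ∃ v ∈ K, v = z ∨ (G.Adj v z ∧ c v ≠ c z)

/-- the alive slots with a core containing `p` -/
def Cn (G : SimpleGraph V) (c : V → Bool) (F0 : Finset V) (p : V) : Finset (V × V) :=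
  univ.filter fun s => ∃ K, Cor G c F0 s K ∧ p ∈ K

/-- the alive slots of the source `w` -/
def HS (G : SimpleGraph V) (c : V → Bool) (F0 : Finset V) (w : V) : Finset (V × V) :=
  univ.filter fun s => s.1 = w ∧ ∃ K, Cor G c F0 s K

theorem mem_Jz {F0 : Finset V} {z : V} {s : V × V} : s ∈ Jz G c F0 z ↔
    ∃ K, Cor G c F0 s K ∧ ∃ v ∈ K, v = z ∨ (G.Adj v z ∧ c v ≠ c z) := by simp [Jz]

theorem mem_Cn {F0 : Finset V} {p : V} {s : V × V} : s ∈ Cn G c F0 p ↔
    ∃ K, Cor G c F0 s K ∧ p ∈ K := by simp [Cn]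

theorem mem_HS {F0 : Finset V} {w : V} {s : V × V} : s ∈ HS G c F0 w ↔
    s.1 = w ∧ ∃ K, Cor G c F0 s K := by simp [HS]

/-- the killed slots -/
theorem killed_sub (hc : Nice G c) (F0 F : Finset V) :
    AL G c F0 \ AL G c (F0 ∪ F) ⊆ (Zn G c F).biUnion (Jz G c F0) := by
  intro s hs
  rw [Finset.mem_sdiff, mem_AL, mem_AL] at hs
  obtain ⟨⟨K, hK⟩, h2⟩ := hs
  have h3 : ¬ ZD G c K F := by
    intro hd
    exact h2 ⟨K, hK.1, ZD_union.2 ⟨hK.2, hd⟩⟩
  obtain ⟨v, hv, z, hz, h4⟩ := touch hc h3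
  exact Finset.mem_biUnion.2 ⟨z, hz, mem_Jz.2 ⟨K, hK, v, hv, h4⟩⟩

/-- colours in a pair of twins -/
theorem Blk.bl (hc : Nice G c) {b b' d d' α β : V} (h : Blk G c b b' d d' α β) :
    IsB0 G c α ∧ IsB0 G c β := by
  have hb := (mem_Qs.1 h.b0).1.1
  have key : ∀ t, G.Adj b t → t ≠ b' → IsB0 G c t := by
    intro t ht hne
    refine Q0_nb hc h.b0 ht ?_
    by_contra hh
    have h1 : c t = true := by simpa using hh
    exact hne (nice_uniq hc h.mb ⟨ht, by rw [hb, h1]⟩).symm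
  exact ⟨key α h.nb.adj.2.1 h.nb.1.symm, key β h.nb.adj.2.2 h.nb.2.1.symm⟩

theorem Blk.symm {b b' d d' α β : V} (h : Blk G c b b' d d' α β) : Blk G c d d' b b' α β :=
  ⟨h.d0, h.b0, h.ne.symm, fun e => h.na e.symm, h.md, h.mb, h.nd, h.nb⟩

theorem Blk.flip {b b' d d' α β : V} (h : Blk G c b b' d d' α β) : Blk G c b b' d d' β α :=
  ⟨h.b0, h.d0, h.ne, h.na, h.mb, h.md, h.nb.swap', h.nd.swap'⟩

theorem PBlk.symm {b b' d d' α β y z : V} (h : PBlk G c b b' d d' α β y z) :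
    PBlk G c d d' b b' α β y z :=
  ⟨h.toBlk.symm, h.nα.swap, h.nβ.swap, h.y0, h.z0⟩

theorem PBlk.flip {b b' d d' α β y z : V} (h : PBlk G c b b' d d' α β y z) :
    PBlk G c b b' d d' β α z y :=
  ⟨h.toBlk.flip, h.nβ, h.nα, h.z0, h.y0⟩

/-- a house -/
def House (G : SimpleGraph V) (c : V → Bool) (b b' d d' α β : V) : Prop :=
  Blk G c b b' d d' α β ∧ N3 G α b d b' ∧ b' ∈ Qs G c 1

theorem black_nb {w w' a x y : V} (hc : Nice G c) (hw : w ∈ Qs G c 0) (hm : MA G c w w')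
    (hN : N3 G a w x y) (hne : a ≠ w') : IsB0 G c a := by
  refine Q0_nb hc hw hN.adj.1.symm ?_
  by_contra hh
  have h1 : c a = true := by simpa using hh
  exact hne (nice_uniq hc hm ⟨hN.adj.1.symm, by rw [(mem_Qs.1 hw).1.1, h1]⟩).symm

/-- the slots are pairs of a source and a neighbour in `B0` -/
theorem Cor.slot (hc : Nice G c) {F0 : Finset V} {s : V × V} {K : Finset V}
    (h : Cor G c F0 s K) : s.1 ∈ Qs G c 0 ∧ G.Adj s.1 s.2 ∧ IsB0 G c s.2 := by
  obtain ⟨w, a⟩ := s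
  obtain ⟨⟨n, h1⟩ | ⟨n, H, τ, e, h1, -⟩, -⟩ := h
  · cases h1 with
    | ex1 b b' d d' α β y z h p w hB _ _ _ _ _ _ _ _ hw =>
      rcases hw with rfl | rfl
      · exact ⟨hB.b0, hB.nb.adj.2.1, (hB.toBlk.bl hc).1⟩
      · exact ⟨hB.d0, hB.nd.adj.2.1, (hB.toBlk.bl hc).1⟩
    | d0 w w' a y h1 h2 h3 h4 =>
      refine ⟨h1, h3.adj.1.symm, black_nb hc h1 h2 h3 ?_⟩
      rintro rfl
      exact G.irrefl h3.adj.2.1
    | blk b b' d d' α β y z u w hB _ _ hw =>
      rcases hw with rfl | rfl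
      · exact ⟨hB.b0, hB.nb.adj.2.1, (hB.toBlk.bl hc).1⟩
      · exact ⟨hB.d0, hB.nd.adj.2.1, (hB.toBlk.bl hc).1⟩
    | e w a x y h1 h2 h3 _ =>
      exact ⟨h1, h2.adj.1.symm, Q0_nb hc h1 h2.adj.1.symm (B_of_W h2.adj.2.1.symm h3)⟩
    | x3 w w' a q q' p p' r s h1 h2 h3 h4 h5 _ _ _ _ _ _ _ =>
      refine ⟨h1, h3.adj.1.symm, black_nb hc h1 h2 h3 ?_⟩
      rintro rfl
      have e1 := nice_uniq hc (ma_symm h2) ⟨h3.adj.2.1, by
        rw [← h2.2, (mem_Qs.1 h1).1.1, (mem_Qs.1 h5).1.1]⟩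
      exact h3.1 e1
  · cases h1 with
    | m w w' a x x' y h1 h2 h3 h4 h5 h6 h7 =>
      refine ⟨h1, h3.adj.1.symm, black_nb hc h1 h2 h3 ?_⟩
      rintro rfl
      exact h3.1 (nice_uniq hc (ma_symm h2) ⟨h3.adj.2.1, by
        rw [← h2.2, (mem_Qs.1 h1).1.1, (mem_Qs.1 h4).1.1]⟩)
    | x4 w w' a q q' p p' r r' s h1 h2 h3 h4 h5 _ _ _ _ _ _ _ _ =>
      refine ⟨h1, h3.adj.1.symm, black_nb hc h1 h2 h3 ?_⟩
      rintro rfl
      exact h3.1 (nice_uniq hc (ma_symm h2) ⟨h3.adj.2.1, by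
        rw [← h2.2, (mem_Qs.1 h1).1.1, (mem_Qs.1 h5).1.1]⟩)
    | hs b b' d d' α β w a hB _ _ hw ha =>
      rcases hw with rfl | rfl <;> rcases ha with rfl | rfl
      · exact ⟨hB.b0, hB.nb.adj.2.1, (hB.bl hc).1⟩
      · exact ⟨hB.b0, hB.nb.adj.2.2, (hB.bl hc).2⟩
      · exact ⟨hB.d0, hB.nd.adj.2.1, (hB.bl hc).1⟩
      · exact ⟨hB.d0, hB.nd.adj.2.2, (hB.bl hc).2⟩
    | d1 w w' a x x' h1 h2 h3 h4 h5 _ =>
      refine ⟨h1, h4.adj.1.symm, black_nb hc h1 h3 h4 ?_⟩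
      rintro rfl
      exact G.irrefl h4.adj.2.1

/-- the vertices of an alive core -/
theorem Cor.cases {F0 : Finset V} (hA : NoA G c 1 F0) {s : V × V}
    {K : Finset V} (h : Cor G c F0 s K) {v : V} (hv : v ∈ K) :
    v = s.1 ∨ v = s.2 ∨ (v ∈ Qs G c 1 ∧ G.Adj v s.2) ∨
    (∃ q q' p, Xc G c s.1 s.2 q q' p v ∧ K = {s.1, s.2, q, v}) ∨
    (∃ b b' d d' α β, House G c b b' d d' α β ∧ (s.1 = b ∨ s.1 = d) ∧ (s.2 = α ∨ s.2 = β) ∧
      K = {b', b, α} ∧ (v = b ∨ v = α ∨ v = b')) ∨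
    ∃ b b' d d' β y z u, PBlk G c b b' d d' s.2 β y z ∧ (u = b' ∨ u = d') ∧ u ∈ Qs G c 0 ∧
      (s.1 = b ∨ s.1 = d) ∧ K = {b, d, s.2, u} ∧ (v = b ∨ v = d ∨ v = u) := by
  obtain ⟨w, a⟩ := s
  obtain ⟨⟨n, h1⟩ | ⟨n, H, τ, e, h1, rfl⟩, hz⟩ := h
  · have hn := hA n w a K h1 hz
    cases h1 with
    | ex1 b b' d d' α β y z h p w hB _ _ _ _ _ _ _ _ hw => exact absurd hn (by norm_num)
    | d0 w w' a y h1 h2 h3 h4 =>
      rw [Finset.mem_insert, Finset.mem_singleton] at hv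
      rcases hv with rfl | rfl
      · exact Or.inl rfl
      · exact Or.inr (Or.inl rfl)
    | blk b b' d d' α β y z u w hB hu hu0 hw =>
      rw [Finset.mem_insert, Finset.mem_insert, Finset.mem_insert, Finset.mem_singleton] at hv
      rcases hv with rfl | rfl | rfl | rfl
      · exact Or.inr (Or.inr (Or.inr (Or.inr (Or.inr
          ⟨_, _, _, _, _, _, _, _, hB, hu, hu0, hw, rfl, Or.inl rfl⟩))))
      · exact Or.inr (Or.inr (Or.inr (Or.inr (Or.inr
          ⟨_, _, _, _, _, _, _, _, hB, hu, hu0, hw, rfl, Or.inr (Or.inl rfl)⟩))))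
      · exact Or.inr (Or.inl rfl)
      · exact Or.inr (Or.inr (Or.inr (Or.inr (Or.inr
          ⟨_, _, _, _, _, _, _, _, hB, hu, hu0, hw, rfl, Or.inr (Or.inr rfl)⟩))))
    | e w a x y h1 h2 h3 _ =>
      rw [Finset.mem_insert, Finset.mem_singleton] at hv
      rcases hv with rfl | rfl
      · exact Or.inl rfl
      · exact Or.inr (Or.inl rfl)
    | x3 w w' a q q' p p' r s h1 h2 h3 h4 h5 h6 h7 h8 h9 h10 h11 h12 =>
      rw [Finset.mem_insert, Finset.mem_insert, Finset.mem_insert, Finset.mem_singleton] at hv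
      rcases hv with rfl | rfl | rfl | rfl
      · exact Or.inl rfl
      · exact Or.inr (Or.inl rfl)
      · exact Or.inr (Or.inr (Or.inl ⟨h5, h3.adj.2.1.symm⟩))
      · exact Or.inr (Or.inr (Or.inr (Or.inl ⟨q, q', p, ⟨h1, h3, h4, h5, h6, h7, h8, h9⟩, rfl⟩)))
  · cases h1 with
    | m w w' a x x' y h1 h2 h3 h4 h5 h6 h7 =>
      rw [Finset.mem_insert, Finset.mem_insert, Finset.mem_singleton] at hv
      rcases hv with rfl | rfl | rfl
      · exact Or.inr (Or.inr (Or.inl ⟨h4, h3.adj.2.1.symm⟩))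
      · exact Or.inl rfl
      · exact Or.inr (Or.inl rfl)
    | x4 w w' a q q' p p' r r' s h1 h2 h3 h4 h5 h6 h7 h8 h9 _ _ _ _ =>
      have e1 : insert τ ({w, a, τ, p'} : Finset V) = {w, a, τ, p'} := by
        ext t
        simp only [Finset.mem_insert, Finset.mem_singleton]
        tauto
      have hv' : v ∈ ({w, a, τ, p'} : Finset V) := by
        rw [← e1]
        exact hv
      rw [Finset.mem_insert, Finset.mem_insert, Finset.mem_insert, Finset.mem_singleton] at hv'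
      rcases hv' with rfl | rfl | rfl | rfl
      · exact Or.inl rfl
      · exact Or.inr (Or.inl rfl)
      · exact Or.inr (Or.inr (Or.inl ⟨h5, h3.adj.2.1.symm⟩))
      · exact Or.inr (Or.inr (Or.inr (Or.inl ⟨_, q', p, ⟨h1, h3, h4, h5, h6, h7, h8, h9⟩, e1⟩)))
    | hs b b' d d' α β w a hB hN hb hw ha =>
      rw [Finset.mem_insert, Finset.mem_insert, Finset.mem_singleton] at hv
      refine Or.inr (Or.inr (Or.inr (Or.inr (Or.inl
        ⟨_, _, _, _, _, _, ⟨hB, hN, hb⟩, hw, ha, rfl, ?_⟩))))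
      rcases hv with rfl | rfl | rfl
      · exact Or.inr (Or.inr rfl)
      · exact Or.inl rfl
      · exact Or.inr (Or.inl rfl)
    | d1 w w' a x x' h1 h2 h3 h4 h5 _ =>
      rw [Finset.mem_insert, Finset.mem_insert, Finset.mem_singleton] at hv
      rcases hv with rfl | rfl | rfl
      · exact Or.inr (Or.inr (Or.inl ⟨h5, h4.adj.2.2.symm⟩))
      · exact Or.inl rfl
      · exact Or.inr (Or.inl rfl)

/-! ## Colours of the vertices in the configurations -/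

theorem Q0_W {w : V} (h : w ∈ Qs G c 0) : c w = true := (mem_Qs.1 h).1.1

theorem Q1_W {w : V} (h : w ∈ Qs G c 1) : c w = true := (mem_Qs.1 h).1.1

theorem MA_W {x y : V} (h : MA G c x y) (hx : c x = true) : c y = true := by rw [← h.2, hx]

theorem MA_B {x y : V} (h : MA G c x y) (hx : c x = false) : c y = false := by rw [← h.2, hx]

theorem WB {x : V} (h1 : c x = true) (h2 : c x = false) : False := by
  rw [h1] at h2
  exact absurd h2 (by simp)

theorem Q0_W0 {x : V} (h1 : x ∈ Qs G c 0) (h2 : IsW0 G c x) : False := W0_not_W1 h2 (mem_Qs.1 h1).1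

theorem Q1_W0 {x : V} (h1 : x ∈ Qs G c 1) (h2 : IsW0 G c x) : False := W0_not_W1 h2 (mem_Qs.1 h1).1

theorem Q0_Q1 {x : V} (h1 : x ∈ Qs G c 0) (h2 : x ∈ Qs G c 1) : False :=
  absurd (Q_disj h1 h2) (by norm_num)

theorem Q0_Q2 {x : V} (h1 : x ∈ Qs G c 0) (h2 : x ∈ Qs G c 2) : False :=
  absurd (Q_disj h1 h2) (by norm_num)

theorem Q1_Q2 {x : V} (h1 : x ∈ Qs G c 1) (h2 : x ∈ Qs G c 2) : False :=
  absurd (Q_disj h1 h2) (by norm_num)

theorem Xc.B1 (hc : Nice G c) {w a q q' p p' : V} (h : Xc G c w a q q' p p') :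
    IsB1 G c p ∧ IsB1 G c p' :=
  ⟨B1_of_MA hc h.pp h.pb, B1_of_MA hc (ma_symm h.pp) (MA_B h.pp h.pb)⟩

/-- twins -/
def Tw (G : SimpleGraph V) (c : V → Bool) (u v : V) : Prop :=
  u ∈ Qs G c 0 ∧ v ∈ Qs G c 0 ∧ u ≠ v ∧ ¬ G.Adj u v ∧
    ∀ q, c q = false → (G.Adj u q ↔ G.Adj v q)

theorem Tw.symm {u v : V} (h : Tw G c u v) : Tw G c v u :=
  ⟨h.2.1, h.1, h.2.2.1.symm, fun hh => h.2.2.2.1 hh.symm, fun q hq => (h.2.2.2.2 q hq).symm⟩

/-- two sources with a common black neighbour -/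
theorem PF.src (h : PF G c) {u v p : V} (hu : u ∈ Qs G c 0) (hv : v ∈ Qs G c 0)
    (h1 : G.Adj u p) (h2 : G.Adj v p) : u = v ∨ G.Adj u v ∨ Tw G c u v := by
  by_cases e : u = v
  · exact Or.inl e
  by_cases e2 : G.Adj u v
  · exact Or.inr (Or.inl e2)
  refine Or.inr (Or.inr ⟨hu, hv, e, e2, fun q hq => ⟨fun h3 => ?_, fun h3 => ?_⟩⟩)
  · exact h.two u v p q hu hv e e2 h1 h2 h3 hq
  · exact h.two v u p q hv hu (Ne.symm e) (fun hh => e2 hh.symm) h2 h1 h3 hq

/-- the configuration of twins -/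
theorem Tw.blk (h : PF G c) {u v : V} (ht : Tw G c u v) :
    ∃ u' v' α β, Blk G c u u' v v' α β := by
  obtain ⟨u', α, β, h1, h2, h3, h4⟩ := Q0_N3 h.cub h.nice ht.1
  obtain ⟨v', hv'⟩ := mate_ex (mem_Qs.1 ht.2.1).1
  have ha := (ht.2.2.2.2 α h3.1).1 h2.adj.2.1
  have hb := (ht.2.2.2.2 β h4.1).1 h2.adj.2.2
  have hv1 : c v' = true := MA_W hv' (Q0_W ht.2.1)
  refine ⟨u', v', α, β, ht.1, ht.2.1, ht.2.2.1, ht.2.2.2.1, h1, hv', h2, ?_⟩
  refine N3_of3 h.cub hv'.1 ha hb ?_ ?_ h2.2.2.1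
  · rintro rfl
    exact WB hv1 h3.1
  · rintro rfl
    exact WB hv1 h4.1

/-- the twin is unique -/
theorem Tw.uniq (h : PF G c) {u v v' : V} (h1 : Tw G c u v) (h2 : Tw G c u v') : v = v' := by
  obtain ⟨u', w', α, β, hB⟩ := h1.blk h
  by_contra hne
  have hb := hB.bl h.nice
  have h3 := (h2.2.2.2.2 α hb.1.1).1 hB.nb.adj.2.1
  have h4 := (h2.2.2.2.2 β hb.2.1).1 hB.nb.adj.2.2
  exact h.k23 _ _ _ _ _ _ v' hB h2.2.2.1.symm (Ne.symm hne) h3 h4

theorem Blk.tw {b b' d d' α β : V} (hB : Blk G c b b' d d' α β) : Tw G c b d := by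
  refine ⟨hB.b0, hB.d0, hB.ne, hB.na, fun q hq => ⟨fun h1 => ?_, fun h1 => ?_⟩⟩
  · rcases hB.nb.mem h1 with e | e | e
    · subst e
      exact (WB (MA_W hB.mb (Q0_W hB.b0)) hq).elim
    · subst e
      exact hB.nd.adj.2.1
    · subst e
      exact hB.nd.adj.2.2
  · rcases hB.nd.mem h1 with e | e | e
    · subst e
      exact (WB (MA_W hB.md (Q0_W hB.d0)) hq).elim
    · subst e
      exact hB.nb.adj.2.1
    · subst e
      exact hB.nb.adj.2.2

/-! ## Kill sets -/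

theorem cn_B0 {F0 : Finset V} (hc : Nice G c) (hA : NoA G c 1 F0) {p : V} (hp : IsB0 G c p)
    {s : V × V} (hs : s ∈ Cn G c F0 p) : G.Adj s.1 p ∧ (s.2 = p ∨
      ∃ b b' d d' β, House G c b b' d d' p β ∧ (s.1 = b ∨ s.1 = d) ∧ (s.2 = p ∨ s.2 = β)) := by
  obtain ⟨K, hK, hpK⟩ := mem_Cn.1 hs
  have hsl := hK.slot hc
  rcases hK.cases hA hpK with e | e | ⟨e, -⟩ | ⟨q, q', p0, hX, -⟩ |
    ⟨b, b', d, d', α, β, hH, h1, h2, -, e⟩ | ⟨b, b', d, d', β, y, z, u, hB, hu, hu0, h1, -, e⟩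
  · subst e
    exact (WB (Q0_W hsl.1) hp.1).elim
  · subst e
    exact ⟨hsl.2.1, Or.inl rfl⟩
  · exact (WB (Q1_W e) hp.1).elim
  · exact (B0_not_B1 hp (hX.B1 hc).2).elim
  · rcases e with e | e | e
    · subst e
      exact (WB (Q0_W hH.1.b0) hp.1).elim
    · subst e
      refine ⟨?_, Or.inr ⟨b, b', d, d', β, hH, h1, h2⟩⟩
      rcases h1 with e | e
      · rw [e]
        exact hH.1.nb.adj.2.1
      · rw [e]
        exact hH.1.nd.adj.2.1
    · subst e
      exact (WB (Q1_W hH.2.2) hp.1).elim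
  · rcases e with e | e | e
    · subst e
      exact (WB (Q0_W hB.b0) hp.1).elim
    · subst e
      exact (WB (Q0_W hB.d0) hp.1).elim
    · subst e
      exact (WB (Q0_W hu0) hp.1).elim

/-- a block core with the option `u` -/
def OptB (G : SimpleGraph V) (c : V → Bool) (F0 : Finset V) (s : V × V) (u : V) : Prop :=
  ∃ b b' d d' β y z, PBlk G c b b' d d' s.2 β y z ∧ (u = b' ∨ u = d') ∧ u ∈ Qs G c 0 ∧
    (s.1 = b ∨ s.1 = d) ∧ ZD G c {b, d, s.2, u} F0

theorem Blk.adjα {b b' d d' α β w : V} (hB : Blk G c b b' d d' α β) (h : w = b ∨ w = d) :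
    G.Adj w α ∧ G.Adj w β := by
  rcases h with e | e
  · rw [e]
    exact ⟨hB.nb.adj.2.1, hB.nb.adj.2.2⟩
  · rw [e]
    exact ⟨hB.nd.adj.2.1, hB.nd.adj.2.2⟩

/-- the kill set of a vertex in `B0` -/
theorem jz_B0 (h : PF G c) {F0 : Finset V} (hA : NoA G c 1 F0) {z : V} (hz : IsB0 G c z)
    {s : V × V} (hs : s ∈ Jz G c F0 z) :
    G.Adj s.1 z ∨ ∃ u, OptB G c F0 s u ∧ G.Adj u z := by
  obtain ⟨K, hK, v, hv, hvz⟩ := mem_Jz.1 hs
  rcases hvz with rfl | ⟨hvz, hcol⟩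
  · exact Or.inl (cn_B0 h.nice hA hz (mem_Cn.2 ⟨K, hK, hv⟩)).1
  have hcv : c v = true := by
    rw [hz.1] at hcol
    simpa using hcol
  have hsl := hK.slot h.nice
  have key : ∀ b b' d d' α β, Blk G c b b' d d' α β → (s.1 = b ∨ s.1 = d) → G.Adj b z →
      G.Adj s.1 z := by
    intro b b' d d' α β hB h1 h2
    rcases hB.nb.mem h2 with e | e | e
    · subst e
      exact (WB (MA_W hB.mb (Q0_W hB.b0)) hz.1).elim
    · rw [e]
      exact (hB.adjα h1).1
    · rw [e]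
      exact (hB.adjα h1).2
  rcases hK.cases hA hv with e | e | ⟨e, e2⟩ | ⟨q, q', p0, hX, -⟩ |
    ⟨b, b', d, d', α, β, hH, h1, h2, -, e⟩ | ⟨b, b', d, d', β, y, z, u, hB, hu, hu0, h1, e1, e⟩
  · subst e
    exact Or.inl hvz
  · subst e
    exact (WB hcv hsl.2.2.1).elim
  · have := Q1_B0 h.cub h.nice e hvz hz e2 hsl.2.2
    rw [this]
    exact Or.inl hsl.2.1
  · exact (WB hcv (hX.B1 h.nice).2.1).elim
  · rcases e with e | e | e
    · subst e
      exact Or.inl (key _ _ _ _ _ _ hH.1 h1 hvz)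
    · subst e
      exact (WB hcv (hH.1.bl h.nice).1.1).elim
    · subst e
      have := Q1_B0 h.cub h.nice hH.2.2 hvz hz hH.2.1.adj.2.2.symm (hH.1.bl h.nice).1
      rw [this]
      exact Or.inl (hH.1.adjα h1).1
  · rcases e with e | e | e
    · subst e
      exact Or.inl (key _ _ _ _ _ _ hB.toBlk h1 hvz)
    · subst e
      exact Or.inl (key _ _ _ _ _ _ hB.toBlk.symm h1.symm hvz)
    · subst e
      refine Or.inr ⟨v, ⟨b, b', d, d', β, y, z, hB, hu, hu0, h1, ?_⟩, hvz⟩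
      rw [← e1]
      exact hK.2

/-- the kill set of a vertex in `W0` -/
theorem jz_W0 (h : PF G c) {F0 : Finset V} (hA : NoA G c 1 F0) {z : V} (hz : IsW0 G c z)
    {s : V × V} (hs : s ∈ Jz G c F0 z) : ∃ p, G.Adj z p ∧ s ∈ Cn G c F0 p := by
  obtain ⟨K, hK, v, hv, hvz⟩ := mem_Jz.1 hs
  have hsl := hK.slot h.nice
  rcases hvz with rfl | ⟨hvz, hcol⟩
  · exfalso
    rcases hK.cases hA hv with e | e | ⟨e, -⟩ | ⟨q, q', p0, hX, -⟩ |
      ⟨b, b', d, d', α, β, hH, h1, h2, -, e⟩ | ⟨b, b', d, d', β, y, z, u, hB, hu, hu0, h1, -, e⟩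
    · subst e
      exact Q0_W0 hsl.1 hz
    · subst e
      exact WB hz.1 hsl.2.2.1
    · exact Q1_W0 e hz
    · exact WB hz.1 (hX.B1 h.nice).2.1
    · rcases e with e | e | e
      · subst e
        exact Q0_W0 hH.1.b0 hz
      · subst e
        exact WB hz.1 (hH.1.bl h.nice).1.1
      · subst e
        exact Q1_W0 hH.2.2 hz
    · rcases e with e | e | e
      · subst e
        exact Q0_W0 hB.b0 hz
      · subst e
        exact Q0_W0 hB.d0 hz
      · subst e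
        exact Q0_W0 hu0 hz
  · exact ⟨v, hvz.symm, mem_Cn.2 ⟨K, hK, hv⟩⟩

/-- only the X core of the mate contains a vertex of `B1` -/
theorem cn_B1 {F0 : Finset V} (hc : Nice G c) (hA : NoA G c 1 F0) {p : V} (hp : IsB1 G c p)
    {s : V × V} (hs : s ∈ Cn G c F0 p) :
    ∃ q q' p0, Xc G c s.1 s.2 q q' p0 p ∧ Cor G c F0 s {s.1, s.2, q, p} := by
  obtain ⟨K, hK, hpK⟩ := mem_Cn.1 hs
  have hsl := hK.slot hc
  rcases hK.cases hA hpK with e | e | ⟨e, -⟩ | ⟨q, q', p0, hX, e⟩ |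
    ⟨b, b', d, d', α, β, hH, h1, h2, -, e⟩ | ⟨b, b', d, d', β, y, z, u, hB, hu, hu0, h1, -, e⟩
  · subst e
    exact (WB (Q0_W hsl.1) hp.1).elim
  · subst e
    exact (B0_not_B1 hsl.2.2 hp).elim
  · exact (WB (Q1_W e) hp.1).elim
  · refine ⟨q, q', p0, hX, ?_⟩
    rw [← e]
    exact hK
  · rcases e with e | e | e
    · subst e
      exact (WB (Q0_W hH.1.b0) hp.1).elim
    · subst e
      exact (B0_not_B1 (hH.1.bl hc).1 hp).elim
    · subst e
      exact (WB (Q1_W hH.2.2) hp.1).elim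
  · rcases e with e | e | e
    · subst e
      exact (WB (Q0_W hB.b0) hp.1).elim
    · subst e
      exact (WB (Q0_W hB.d0) hp.1).elim
    · subst e
      exact (WB (Q0_W hu0) hp.1).elim

/-- the X configuration is determined by `p'` -/
theorem Xc.uniq (h : PF G c) {w a q q' p p' w₂ a₂ q₂ q₂' p₂ : V}
    (h1 : Xc G c w a q q' p p') (h2 : Xc G c w₂ a₂ q₂ q₂' p₂ p') : w = w₂ ∧ a = a₂ := by
  have e1 : p = p₂ := nice_uniq h.nice (ma_symm h1.pp) (ma_symm h2.pp)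
  subst e1
  have hB := h1.B1 h.nice
  have e2 : q = q₂ := by
    by_contra hne
    have h3 := h.rule1 p q q₂ hB.1 h1.qp.symm h2.qp.symm hne (mem_Qs.1 h1.q1).1 (mem_Qs.1 h2.q1).1
    have e3 : q' = q₂ := nice_uniq h.nice h1.qq ⟨h3, by rw [Q1_W h1.q1, Q1_W h2.q1]⟩
    subst e3
    exact h.xpi _ _ _ _ _ _ h1 h2.qp
  subst e2
  have e3 : q' = q₂' := nice_uniq h.nice h1.qq h2.qq
  subst e3
  have ha : IsB0 G c a := by
    refine Q0_nb h.nice h1.w0 h1.na.adj.1.symm ?_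
    by_contra hh
    have hca : c a = true := by simpa using hh
    have e4 := nice_uniq h.nice (x := a) (y := w) (z := q)
      ⟨h1.na.adj.1, by rw [hca, Q0_W h1.w0]⟩ ⟨h1.na.adj.2.1, by rw [hca, Q1_W h1.q1]⟩
    exact h1.na.1 e4
  have ha₂ : IsB0 G c a₂ := by
    refine Q0_nb h.nice h2.w0 h2.na.adj.1.symm ?_
    by_contra hh
    have hca : c a₂ = true := by simpa using hh
    have e4 := nice_uniq h.nice (x := a₂) (y := w₂) (z := q)
      ⟨h2.na.adj.1, by rw [hca, Q0_W h2.w0]⟩ ⟨h2.na.adj.2.1, by rw [hca, Q1_W h2.q1]⟩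
    exact h2.na.1 e4
  have e5 := Q1_B0 h.cub h.nice h1.q1 h1.na.adj.2.1.symm ha h2.na.adj.2.1.symm ha₂
  subst e5
  exact ⟨h1.na.rot.third h2.na.rot, rfl⟩

theorem cn_B1_card (h : PF G c) {F0 : Finset V} (hA : NoA G c 1 F0) {p : V} (hp : IsB1 G c p) :
    (Cn G c F0 p).card ≤ 1 := by
  rw [Finset.card_le_one]
  intro s hs t ht
  obtain ⟨q, q', p0, h1, -⟩ := cn_B1 h.nice hA hp hs
  obtain ⟨r, r', p1, h2, -⟩ := cn_B1 h.nice hA hp ht
  obtain ⟨e1, e2⟩ := h1.uniq h h2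
  exact Prod.ext e1 e2

/-- a vertex in `B0` with a neighbour in `W0`: at most one core (types E, M) -/
theorem cn_W0_card (h : PF G c) {F0 : Finset V} (hA : NoA G c 3 F0) {p z : V} (hp : IsB0 G c p)
    (hz : IsW0 G c z) (hpz : G.Adj p z) : (Cn G c F0 p).card ≤ 1 := by
  have hA1 : NoA G c 1 F0 := fun m w a K h1 h2 => le_trans (by norm_num) (hA m w a K h1 h2)
  have key : ∀ s ∈ Cn G c F0 p, ∀ t, t ∈ Qs G c 0 → G.Adj t p → t = s.1 := by
    intro s hs t ht htp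
    by_contra hne
    obtain ⟨h1, h2⟩ := cn_B0 h.nice hA1 hp hs
    have hsp : s.2 = p := by
      rcases h2 with h2 | ⟨b, b', d, d', β, hH, h3, h4⟩
      · exact h2
      · exfalso
        rcases hH.2.1.mem hpz with e | e | e
        · subst e
          exact Q0_W0 hH.1.b0 hz
        · subst e
          exact Q0_W0 hH.1.d0 hz
        · subst e
          exact Q1_W0 hH.2.2 hz
    obtain ⟨K, hK, hpK⟩ := mem_Cn.1 hs
    have hz1 : z ≠ s.1 := by
      rintro rfl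
      exact Q0_W0 (hK.slot h.nice).1 hz
    have hz2 : z ≠ t := by
      rintro rfl
      exact Q0_W0 ht hz
    obtain ⟨w, a⟩ := s
    simp only at hsp h1 hne hz1
    subst hsp
    have hN : N3 G a w t z := N3_of3 h.cub h1.symm htp.symm hpz (Ne.symm hne) hz1.symm hz2.symm
    obtain ⟨⟨n, g1⟩ | ⟨n, H, τ, e, g1, rfl⟩, g2⟩ := hK
    · have hn := hA n w a K g1 g2
      cases g1 with
      | ex1 => exact absurd hn (by norm_num)
      | d0 => exact absurd hn (by norm_num)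
      | blk => exact absurd hn (by norm_num)
      | e w a x y g3 g4 g5 g6 =>
        rcases g4.mem hN.adj.2.1 with e | e | e
        · exact hN.1 e.symm
        · subst e
          exact Q0_W0 ht g5
        · subst e
          exact Q0_W0 ht g6
      | x3 w w' a q q' p p' r s g3 g4 g5 g6 g7 g8 =>
        rcases g5.mem hN.adj.2.1 with e | e | e
        · exact hN.1 e.symm
        · subst e
          exact Q0_Q1 ht g7
        · subst e
          exact Q0_Q1 ht g8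
    · cases g1 with
      | m w w' a x x' y g3 g4 g5 g6 g7 g8 g9 =>
        rcases hN.mem g5.adj.2.1 with e | e | e
        · exact g5.1 e.symm
        · subst e
          exact Q0_Q1 ht g6
        · subst e
          exact Q1_W0 g6 hz
      | x4 w w' a q q' p p' r r' s g3 g4 g5 g6 g7 g8 =>
        rcases g5.mem hN.adj.2.1 with e | e | e
        · exact hN.1 e.symm
        · subst e
          exact Q0_Q1 ht g7
        · subst e
          exact Q0_Q1 ht g8
      | hs b b' d d' α β w a g3 g4 g5 g6 g7 =>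
        have hal : a = α := by
          rcases g7 with e | e
          · exact e
          · subst e
            rw [Finset.mem_insert, Finset.mem_insert, Finset.mem_singleton] at hpK
            rcases hpK with e | e | e
            · subst e
              exact (WB (Q1_W g5) hp.1).elim
            · subst e
              exact (WB (Q0_W g3.b0) hp.1).elim
            · exact e
        subst hal
        rcases g4.mem hpz with e | e | e
        · subst e
          exact Q0_W0 g3.b0 hz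
        · subst e
          exact Q0_W0 g3.d0 hz
        · subst e
          exact Q1_W0 g5 hz
      | d1 w w' a x x' g3 g4 g5 g6 g7 g8 =>
        rcases hN.mem g6.adj.2.2 with e | e | e
        · exact g6.2.1 e.symm
        · subst e
          exact Q0_Q1 ht g7
        · subst e
          exact Q1_W0 g7 hz
  rw [Finset.card_le_one]
  intro s hs t ht
  obtain ⟨h1, h2⟩ := cn_B0 h.nice hA1 hp hs
  obtain ⟨h3, h4⟩ := cn_B0 h.nice hA1 hp ht
  obtain ⟨K, hK, hpK⟩ := mem_Cn.1 ht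
  have e1 := key s hs t.1 (hK.slot h.nice).1 h3
  have no : ∀ b b' d d' β, ¬ House G c b b' d d' p β := by
    intro b b' d d' β hH
    rcases hH.2.1.mem hpz with e | e | e
    · subst e
      exact Q0_W0 hH.1.b0 hz
    · subst e
      exact Q0_W0 hH.1.d0 hz
    · subst e
      exact Q1_W0 hH.2.2 hz
  have e2 : s.2 = p := by
    rcases h2 with e | ⟨b, b', d, d', β, hH, -⟩
    · exact e
    · exact (no _ _ _ _ _ hH).elim
  have e3 : t.2 = p := by
    rcases h4 with e | ⟨b, b', d, d', β, hH, -⟩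
    · exact e
    · exact (no _ _ _ _ _ hH).elim
  exact Prod.ext e1.symm (by rw [e2, e3])

/-- the black neighbours of a vertex in `W0`: at most one core each -/
theorem cn_W0_card' (h : PF G c) {F0 : Finset V} (hA : NoA G c 3 F0) {p z : V}
    (hz : IsW0 G c z) (hpz : G.Adj z p) : (Cn G c F0 p).card ≤ 1 := by
  rcases B0_or_B1 h.nice (B_of_W hpz hz) with h1 | h1
  · exact cn_W0_card h hA h1 hz hpz.symm
  · exact cn_B1_card h (fun m w a K h1 h2 => le_trans (by norm_num) (hA m w a K h1 h2)) h1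

/-- the kill set of a vertex in `W0` -/
theorem jz_W0_sub (h : PF G c) {F0 : Finset V} (hA : NoA G c 1 F0) {z p₁ p₂ p₃ : V}
    (hz : IsW0 G c z) (hN : N3 G z p₁ p₂ p₃) :
    Jz G c F0 z ⊆ Cn G c F0 p₁ ∪ Cn G c F0 p₂ ∪ Cn G c F0 p₃ := by
  intro s hs
  obtain ⟨p, h1, h2⟩ := jz_W0 h hA hz hs
  rw [Finset.mem_union, Finset.mem_union]
  rcases hN.mem h1 with rfl | rfl | rfl
  · exact Or.inl (Or.inl h2)
  · exact Or.inl (Or.inr h2)
  · exact Or.inr h2

/-- the kill set of a vertex in `B1` -/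
theorem jz_B1 (h : PF G c) {F0 : Finset V} (hA : NoA G c 1 F0) {z : V} (hz : IsB1 G c z)
    {s : V × V} (hs : s ∈ Jz G c F0 z) :
    s ∈ Cn G c F0 z ∨ ∃ v ∈ Qs G c 1, G.Adj z v ∧ s ∈ Cn G c F0 v := by
  obtain ⟨K, hK, v, hv, hvz⟩ := mem_Jz.1 hs
  rcases hvz with rfl | ⟨hvz, hcol⟩
  · exact Or.inl (mem_Cn.2 ⟨K, hK, hv⟩)
  refine Or.inr ⟨v, ?_, hvz.symm, mem_Cn.2 ⟨K, hK, hv⟩⟩
  have hcv : c v = true := by
    rw [hz.1] at hcol
    simpa using hcol
  have hsl := hK.slot h.nice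
  rcases hK.cases hA hv with e | e | ⟨e, -⟩ | ⟨q, q', p0, hX, -⟩ |
    ⟨b, b', d, d', α, β, hH, h1, h2, -, e⟩ | ⟨b, b', d, d', β, y, z, u, hB, hu, hu0, h1, -, e⟩
  · subst e
    exact (Q0_noB1 h.nice hsl.1 hz hvz).elim
  · subst e
    exact (WB hcv hsl.2.2.1).elim
  · exact e
  · exact (WB hcv (hX.B1 h.nice).2.1).elim
  · rcases e with e | e | e
    · subst e
      exact (Q0_noB1 h.nice hH.1.b0 hz hvz).elim
    · subst e
      exact (WB hcv (hH.1.bl h.nice).1.1).elim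
    · subst e
      exact hH.2.2
  · rcases e with e | e | e
    · subst e
      exact (Q0_noB1 h.nice hB.b0 hz hvz).elim
    · subst e
      exact (Q0_noB1 h.nice hB.d0 hz hvz).elim
    · subst e
      exact (Q0_noB1 h.nice hu0 hz hvz).elim

/-- cores containing a vertex of `Q1` -/
theorem cn_Q1 {F0 : Finset V} (hc : Nice G c) (hA : NoA G c 1 F0) {v : V} (hv : v ∈ Qs G c 1)
    {s : V × V} (hs : s ∈ Cn G c F0 v) : G.Adj v s.2 ∨
      ∃ b d d' α β, House G c b v d d' α β ∧ (s.1 = b ∨ s.1 = d) ∧ (s.2 = α ∨ s.2 = β) := by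
  obtain ⟨K, hK, hvK⟩ := mem_Cn.1 hs
  have hsl := hK.slot hc
  rcases hK.cases hA hvK with e | e | ⟨-, e⟩ | ⟨q, q', p0, hX, -⟩ |
    ⟨b, b', d, d', α, β, hH, h1, h2, -, e⟩ | ⟨b, b', d, d', β, y, z, u, hB, hu, hu0, h1, -, e⟩
  · subst e
    exact (Q0_Q1 hsl.1 hv).elim
  · subst e
    exact (WB (Q1_W hv) hsl.2.2.1).elim
  · exact Or.inl e
  · exact (WB (Q1_W hv) (hX.B1 hc).2.1).elim
  · rcases e with e | e | e
    · subst e
      exact (Q0_Q1 hH.1.b0 hv).elim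
    · subst e
      exact (WB (Q1_W hv) (hH.1.bl hc).1.1).elim
    · subst e
      exact Or.inr ⟨b, d, d', α, β, hH, h1, h2⟩
  · rcases e with e | e | e
    · subst e
      exact (Q0_Q1 hB.b0 hv).elim
    · subst e
      exact (Q0_Q1 hB.d0 hv).elim
    · subst e
      exact (Q0_Q1 hu0 hv).elim

/-- no core contains a vertex of `Q2` -/
theorem cn_Q2 {F0 : Finset V} (hc : Nice G c) (hA : NoA G c 1 F0) {v : V} (hv : v ∈ Qs G c 2)
    {s : V × V} (hs : s ∈ Cn G c F0 v) : False := by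
  obtain ⟨K, hK, hvK⟩ := mem_Cn.1 hs
  have hsl := hK.slot hc
  have hvW := (mem_Qs.1 hv).1.1
  rcases hK.cases hA hvK with e | e | ⟨e, -⟩ | ⟨q, q', p0, hX, -⟩ |
    ⟨b, b', d, d', α, β, hH, h1, h2, -, e⟩ | ⟨b, b', d, d', β, y, z, u, hB, hu, hu0, h1, -, e⟩
  · subst e
    exact Q0_Q2 hsl.1 hv
  · subst e
    exact WB hvW hsl.2.2.1
  · exact Q1_Q2 e hv
  · exact WB hvW (hX.B1 hc).2.1
  · rcases e with e | e | e
    · subst e
      exact Q0_Q2 hH.1.b0 hv
    · subst e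
      exact WB hvW (hH.1.bl hc).1.1
    · subst e
      exact Q1_Q2 hH.2.2 hv
  · rcases e with e | e | e
    · subst e
      exact Q0_Q2 hB.b0 hv
    · subst e
      exact Q0_Q2 hB.d0 hv
    · subst e
      exact Q0_Q2 hu0 hv

/-- the kill set of a vertex in `Q2` -/
theorem jz_Q2_sub (h : PF G c) {F0 : Finset V} (hA : NoA G c 1 F0) {z z' g₁ g₂ : V}
    (hz : z ∈ Qs G c 2) (hm : MA G c z z') (hN : N3 G z z' g₁ g₂) :
    Jz G c F0 z ⊆ Cn G c F0 g₁ ∪ Cn G c F0 g₂ := by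
  intro s hs
  obtain ⟨K, hK, v, hv, hvz⟩ := mem_Jz.1 hs
  rcases hvz with rfl | ⟨hvz, hcol⟩
  · exact (cn_Q2 h.nice hA hz (mem_Cn.2 ⟨K, hK, hv⟩)).elim
  · rw [Finset.mem_union]
    rcases hN.mem hvz.symm with e | e | e
    · subst e
      exact (hcol hm.2.symm).elim
    · subst e
      exact Or.inl (mem_Cn.2 ⟨K, hK, hv⟩)
    · subst e
      exact Or.inr (mem_Cn.2 ⟨K, hK, hv⟩)

theorem jz_Q2_card (h : PF G c) {F0 : Finset V} (hA : NoA G c 1 F0) {z : V}
    (hz : z ∈ Qs G c 2) : (Jz G c F0 z).card ≤ 2 := by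
  obtain ⟨z', g₁, g₂, hm, hN, h1, h2⟩ := Q2_N3 h.cub h.nice hz
  have h3 := Finset.card_le_card (jz_Q2_sub h hA hz hm hN)
  have h4 := Finset.card_union_le (Cn G c F0 g₁) (Cn G c F0 g₂)
  have h5 := cn_B1_card h hA h1
  have h6 := cn_B1_card h hA h2
  omega

/-- no alive house with `b' = z` -/
def NoH (G : SimpleGraph V) (c : V → Bool) (z : V) : Prop :=
  ∀ b d d' α β, ¬ House G c b z d d' α β

/-- the slots at `v` -/
def At (G : SimpleGraph V) (c : V → Bool) (F0 : Finset V) (v : V) : Finset (V × V) :=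
  (AL G c F0).filter fun s => s.2 = v

theorem mem_At {F0 : Finset V} {v : V} {s : V × V} : s ∈ At G c F0 v ↔
    (∃ K, Cor G c F0 s K) ∧ s.2 = v := by
  unfold At
  rw [Finset.mem_filter, mem_AL]

/-- the kill set of a vertex in `Q1` -/
theorem jz_Q1_sub (h : PF G c) {F0 : Finset V} (hA : NoA G c 1 F0) {z z' v g : V}
    (hz : z ∈ Qs G c 1) (hH : NoH G c z) (hm : MA G c z z') (hN : N3 G z z' v g)
    (hv : IsB0 G c v) : Jz G c F0 z ⊆ At G c F0 v ∪ Cn G c F0 g := by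
  intro s hs
  obtain ⟨K, hK, t, ht, htz⟩ := mem_Jz.1 hs
  have hsl := hK.slot h.nice
  rw [Finset.mem_union]
  rcases htz with rfl | ⟨htz, hcol⟩
  · rcases cn_Q1 h.nice hA hz (mem_Cn.2 ⟨K, hK, ht⟩) with e | ⟨b, d, d', α, β, hh, -⟩
    · exact Or.inl (mem_At.2 ⟨⟨K, hK⟩,
        Q1_B0 h.cub h.nice hz e hsl.2.2 hN.adj.2.1 hv⟩)
    · exact (hH _ _ _ _ _ hh).elim
  · rcases hN.mem htz.symm with e | e | e
    · subst e
      exact (hcol hm.2.symm).elim
    · subst e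
      left
      rcases (cn_B0 h.nice hA hv (mem_Cn.2 ⟨K, hK, ht⟩)).2 with e | ⟨b, b', d, d', β, hh, h1, h2⟩
      · exact mem_At.2 ⟨⟨K, hK⟩, e⟩
      · exfalso
        rcases hh.2.1.mem htz with e | e | e
        · subst e
          exact Q0_Q1 hh.1.b0 hz
        · subst e
          exact Q0_Q1 hh.1.d0 hz
        · subst e
          exact hH _ _ _ _ _ hh
    · subst e
      exact Or.inr (mem_Cn.2 ⟨K, hK, ht⟩)

theorem jz_Q1_card (h : PF G c) {F0 : Finset V} (hA : NoA G c 1 F0) {z : V}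
    (hz : z ∈ Qs G c 1) (hH : NoH G c z) : (Jz G c F0 z).card ≤ 2 := by
  obtain ⟨z', v, g, hm, hN, hv, hg⟩ := Q1_N3 h.cub h.nice hz
  have h3 := Finset.card_le_card (jz_Q1_sub h hA hz hH hm hN hv)
  have h4 := Finset.card_union_le (At G c F0 v) (Cn G c F0 g)
  have h5 := cn_B1_card h hA hg
  obtain ⟨t₁, t₂, hv3⟩ := N3_of1 h.cub hN.adj.2.1.symm
  have h6 : At G c F0 v ⊆ {(t₁, v), (t₂, v)} := by
    intro s hs
    obtain ⟨⟨K, hK⟩, e⟩ := mem_At.1 hs
    have hsl := hK.slot h.nice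
    rw [e] at hsl
    rw [Finset.mem_insert, Finset.mem_singleton]
    rcases hv3.mem hsl.2.1.symm with e1 | e1 | e1
    · exact (Q0_Q1 (e1 ▸ hsl.1) hz).elim
    · exact Or.inl (Prod.ext e1 e)
    · exact Or.inr (Prod.ext e1 e)
  have h7 : (At G c F0 v).card ≤ 2 := (Finset.card_le_card h6).trans Finset.card_le_two
  by_cases h8 : Cn G c F0 g = ∅
  · rw [h8] at h3 h4
    rw [Finset.card_empty] at h4
    omega
  · obtain ⟨t, ht⟩ := Finset.nonempty_iff_ne_empty.2 h8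
    obtain ⟨q, q', p0, hX, -⟩ := cn_B1 h.nice hA hg ht
    have h9 : (At G c F0 v).card ≤ 1 := by
      rw [Finset.card_le_one]
      intro s hs s' hs'
      obtain ⟨⟨K, hK⟩, e⟩ := mem_At.1 hs
      obtain ⟨⟨K', hK'⟩, e'⟩ := mem_At.1 hs'
      have g1 := hK.slot h.nice
      have g2 := hK'.slot h.nice
      rw [e] at g1
      rw [e'] at g2
      have e1 := h.f1 _ _ _ _ _ _ z v s.1 hX hN.adj.2.2.symm (mem_Qs.1 hz).1 hN.adj.2.1 hv g1.1
        g1.2.1
      have e2 := h.f1 _ _ _ _ _ _ z v s'.1 hX hN.adj.2.2.symm (mem_Qs.1 hz).1 hN.adj.2.1 hv g2.1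
        g2.2.1
      exact Prod.ext (e1.trans e2.symm) (e.trans e'.symm)
    omega

/-- the kill set of a vertex in `W1` which is not a source -/
theorem jz_W1_card (h : PF G c) {F0 : Finset V} (hA : NoA G c 1 F0) {z : V}
    (hz : IsW1 G c z) (h0 : z ∉ Qs G c 0) (hH : NoH G c z) : (Jz G c F0 z).card ≤ 2 := by
  rcases W1_cases h.cub h.nice hz with h1 | h1 | h1
  · exact absurd h1 h0
  · exact jz_Q1_card h hA h1 hH
  · exact jz_Q2_card h hA h1

/-- the kill set of a source -/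
theorem jz_Q0 (h : PF G c) {F0 : Finset V} (hA : NoA G c 1 F0) {z : V} (hz : z ∈ Qs G c 0)
    {s : V × V} (hs : s ∈ Jz G c F0 z) :
    s.1 = z ∨ G.Adj s.1 z ∨ Tw G c s.1 z ∨ OptB G c F0 s z := by
  obtain ⟨K, hK, v, hv, hvz⟩ := mem_Jz.1 hs
  have hsl := hK.slot h.nice
  rcases hvz with rfl | ⟨hvz, hcol⟩
  · rcases hK.cases hA hv with e | e | ⟨e, -⟩ | ⟨q, q', p0, hX, -⟩ |
      ⟨b, b', d, d', α, β, hH, h1, h2, -, e⟩ |
      ⟨b, b', d, d', β, y, z, u, hB, hu, hu0, h1, e1, e⟩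
    · exact Or.inl e.symm
    · subst e
      exact (WB (Q0_W hz) hsl.2.2.1).elim
    · exact (Q0_Q1 hz e).elim
    · exact (WB (Q0_W hz) (hX.B1 h.nice).2.1).elim
    · rcases e with e | e | e
      · subst e
        rcases h1 with e | e
        · exact Or.inl e
        · rw [e]
          exact Or.inr (Or.inr (Or.inl hH.1.tw.symm))
      · subst e
        exact (WB (Q0_W hz) (hH.1.bl h.nice).1.1).elim
      · subst e
        exact (Q0_Q1 hz hH.2.2).elim
    · rcases e with e | e | e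
      · subst e
        rcases h1 with e | e
        · exact Or.inl e
        · rw [e]
          exact Or.inr (Or.inr (Or.inl hB.toBlk.tw.symm))
      · subst e
        rcases h1 with e | e
        · rw [e]
          exact Or.inr (Or.inr (Or.inl hB.toBlk.tw))
        · exact Or.inl e
      · subst e
        refine Or.inr (Or.inr (Or.inr ⟨b, b', d, d', β, y, z, hB, hu, hu0, h1, ?_⟩))
        rw [← e1]
        exact hK.2
  · have hcv : c v = false := by
      rw [Q0_W hz] at hcol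
      simpa using hcol
    have hv0 := Q0_nb h.nice hz hvz.symm hcv
    have h1 := (cn_B0 h.nice hA hv0 (mem_Cn.2 ⟨K, hK, hv⟩)).1
    rcases h.src hsl.1 hz h1 hvz.symm with e | e | e
    · exact Or.inl e
    · exact Or.inr (Or.inl e)
    · exact Or.inr (Or.inr (Or.inl e))

/-- block cores are dead -/
theorem no_OptB {F0 : Finset V} (hA : NoA G c 3 F0) {s : V × V} {u : V} :
    ¬ OptB G c F0 s u := by
  rintro ⟨b, b', d, d', β, y, z, hB, hu, hu0, h1, hz⟩
  have := hA 2 s.1 s.2 _ (CrA.blk b b' d d' s.2 β y z u s.1 hB hu hu0 h1) hz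
  exact absurd this (by norm_num)

/-- the slots of a source -/
theorem HS_sub (h : PF G c) {F0 : Finset V} {w w' a b : V} (hm : MA G c w w')
    (hN : N3 G w w' a b) : HS G c F0 w ⊆ {(w, a), (w, b)} := by
  intro s hs
  obtain ⟨e, K, hK⟩ := mem_HS.1 hs
  have hsl := hK.slot h.nice
  rw [e] at hsl
  rw [Finset.mem_insert, Finset.mem_singleton]
  rcases hN.mem hsl.2.1 with e1 | e1 | e1
  · exfalso
    exact WB (MA_W hm (Q0_W hsl.1)) (e1 ▸ hsl.2.2.1)
  · exact Or.inl (Prod.ext e e1)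
  · exact Or.inr (Prod.ext e e1)

theorem HS_card (h : PF G c) {F0 : Finset V} (w : V) : (HS G c F0 w).card ≤ 2 := by
  by_cases hw : w ∈ Qs G c 0
  · obtain ⟨w', a, b, hm, hN, -, -⟩ := Q0_N3 h.cub h.nice hw
    exact (Finset.card_le_card (HS_sub h hm hN)).trans Finset.card_le_two
  · have : HS G c F0 w = ∅ := by
      rw [Finset.eq_empty_iff_forall_notMem]
      intro s hs
      obtain ⟨e, K, hK⟩ := mem_HS.1 hs
      exact hw (e ▸ (hK.slot h.nice).1)
    rw [this]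
    simp

/-! ## Blocked sources -/

theorem blk_mem (h : PF G c) {F : Finset V} {s : V} (hs : s ∈ Qs G c 0)
    (hb : ¬ ZD G c {s} F) : s ∈ Zn G c F ∨ ∃ z ∈ Zn G c F, IsB0 G c z ∧ G.Adj s z := by
  obtain ⟨v, hv, z, hz, h1⟩ := touch h.nice hb
  rw [Finset.mem_singleton] at hv
  subst hv
  rcases h1 with rfl | ⟨h1, h2⟩
  · exact Or.inl hz
  · refine Or.inr ⟨z, hz, Q0_nb h.nice hs h1 ?_, h1⟩
    rw [Q0_W hs] at h2
    simpa using h2.symm

/-- bound for the number of blocked sources -/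
theorem blk_le {F : Finset V} {S : Finset V}
    (hS : ∀ s ∈ Qs G c 0, ¬ ZD G c {s} F → s ∈ S) : blk G c F ≤ S.card := by
  refine Finset.card_le_card fun s hs => ?_
  rw [Finset.mem_filter] at hs
  exact hS s hs.1 hs.2

theorem blk_T3 (h : PF G c) (s : V) (hs : s ∈ Qs G c 0) : blk G c {s} ≤ 3 := by
  obtain ⟨s', a, b, hm, hN, ha, hb⟩ := Q0_N3 h.cub h.nice hs
  have key : ∀ t ∈ Qs G c 0, ¬ ZD G c {t} {s} → t = s ∨ t = s' ∨ Tw G c t s := by
    intro t ht hz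
    rcases blk_mem h ht hz with h1 | ⟨z, h1, h2, h3⟩
    · rcases Q0_zone h.nice hs h1 with e | e | ⟨-, e⟩
      · exact Or.inl e
      · exact Or.inr (Or.inl (nice_uniq h.nice e hm))
      · exact (WB (Q0_W ht) e.1).elim
    · rcases Q0_zone h.nice hs h1 with e | e | ⟨e, -⟩
      · subst e
        exact (WB (Q0_W hs) h2.1).elim
      · exact (WB (MA_W e (Q0_W hs)) h2.1).elim
      · rcases h.src ht hs h3 e with e1 | e1 | e1
        · exact Or.inl e1
        · exact Or.inr (Or.inl (nice_uniq h.nice ⟨e1.symm, by rw [Q0_W ht, Q0_W hs]⟩ hm))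
        · exact Or.inr (Or.inr e1)
  by_cases htw : ∃ t, Tw G c t s
  · obtain ⟨t, ht⟩ := htw
    refine (blk_le (S := {s, s', t}) ?_).trans Finset.card_le_three
    intro u hu hz
    rw [Finset.mem_insert, Finset.mem_insert, Finset.mem_singleton]
    rcases key u hu hz with e | e | e
    · exact Or.inl e
    · exact Or.inr (Or.inl e)
    · exact Or.inr (Or.inr (e.symm.uniq h ht.symm))
  · refine (blk_le (S := {s, s', s'}) ?_).trans Finset.card_le_three
    intro u hu hz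
    rw [Finset.mem_insert, Finset.mem_insert, Finset.mem_singleton]
    rcases key u hu hz with e | e | e
    · exact Or.inl e
    · exact Or.inr (Or.inl e)
    · exact (htw ⟨u, e⟩).elim

end

end Pool.Agent.Work.MP_1e13ac_W
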