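import Pool.Agent.Work.MP_1e13ac_W.BlkPay
import Pool.Agent.Work.MP_1e13ac_W.PkBase

/-!
# MP_1e13ac_co, World 2: at least `12 k` slots have a core (helper87)
-/

set_option autoImplicit false
set_option linter.unusedSectionVars false

namespace Pool.Agent.Work.MP_1e13ac_W

open Classical Finset Pool.Agent.Work.MP_1e13ac_Bis

noncomputable section

variable {V : Type} [Fintype V] {G : SimpleGraph V} {c : V → Bool} {k : ℕ}

open CntAux T1C T1G BK

/-- a vertex of `W1` outside `Q0` has a neighbour in `B1` -/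
theorem notQ0_B1 {x : V} (hx : IsW1 G c x) (h : x ∉ Qs G c 0) : ∃ u, G.Adj x u ∧ IsB1 G c u := by
  by_contra hcon
  push Not at hcon
  refine h (Finset.mem_filter.2 ⟨Finset.mem_univ _, hx, ?_⟩)
  rw [nB1_eq, nn_zero]
  exact hcon

theorem PBlk.toBK (hc : Nice G c) {b b' d d' α β y z : V} (h : PBlk G c b b' d d' α β y z)
    (hb : b' ∉ Qs G c 0) (hd : d' ∉ Qs G c 0) : BK G c b b' d d' α β y z := by
  have h1 := (Finset.mem_filter.1 h.b0).2.1
  have h2 := (Finset.mem_filter.1 h.d0).2.1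
  have n1 := h.nb
  have n2 := h.nd
  have cb' : c b' = true := MAc h.mb h1.1
  have cd' : c d' = true := MAc h.md h2.1
  have black : ∀ {b b' t : V}, IsW1 G c b → MA G c b b' → G.Adj b t → t ≠ b' → c t = false := by
    intro b b' t hb hm ht hne
    by_contra hh
    have : c t = true := by simpa using hh
    exact hne (nice_uniq hc ⟨ht, by rw [hb.1, this]⟩ hm)
  have ca := black h1 h.mb n1.adj.2.1 n1.1.symm
  have cb := black h1 h.mb n1.adj.2.2 n1.2.1.symm
  refine
    { mb := h.mb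
      mx := h.md
      cb := h1.1
      cx := h2.1
      ca := ca
      cd := cb
      ba := n1.adj.2.1
      bd := n1.adj.2.2
      xa := n2.adj.2.1
      xd := n2.adj.2.2
      ay := h.nα.adj.2.2
      dy := h.nβ.adj.2.2
      bx := h.ne
      ad := n1.2.2.1
      b'x := ?_
      wy := h.y0
      wy' := h.z0
      hb' := notQ0_B1 ⟨cb', ma_md hc (ma_symm h.mb)⟩ hb
      hx' := notQ0_B1 ⟨cd', ma_md hc (ma_symm h.md)⟩ hd }
  rintro rfl
  exact hb h.d0

/-- the slots -/
def Slots (G : SimpleGraph V) (c : V → Bool) : Finset (V × V) :=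
  univ.filter fun s => s.1 ∈ Qs G c 0 ∧ G.Adj s.1 s.2 ∧ c s.2 = false

theorem card_Slots (hG : Cub G) :
    (Slots G c).card = 2 * (Qs G c 0).card := by
  have h1 : (Slots G c).card = ∑ w ∈ Qs G c 0, ((nbs G w).filter fun t => c t = false).card := by
    have h2 : Slots G c = (Qs G c 0).biUnion fun w =>
        ((nbs G w).filter fun t => c t = false).image fun t => (w, t) := by
      ext ⟨w, t⟩
      simp only [Slots, Finset.mem_filter, Finset.mem_univ, true_and, Finset.mem_biUnion,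
        Finset.mem_image, mem_nbs, Prod.mk.injEq]
      constructor
      · rintro ⟨h1, h2, h3⟩
        exact ⟨w, h1, t, ⟨h2, h3⟩, rfl, rfl⟩
      · rintro ⟨w', h1, t', ⟨h2, h3⟩, rfl, rfl⟩
        exact ⟨h1, h2, h3⟩
    rw [h2, Finset.card_biUnion]
    · refine Finset.sum_congr rfl fun w _ => ?_
      exact Finset.card_image_of_injective _ fun t t' h => (Prod.mk.inj h).2
    · intro w _ w' _ hne
      rw [Function.onFun, Finset.disjoint_left]
      rintro ⟨p, q⟩ h1 h2
      obtain ⟨t, _, h3⟩ := Finset.mem_image.1 h1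
      obtain ⟨t', _, h4⟩ := Finset.mem_image.1 h2
      exact hne ((Prod.mk.inj h3).1.trans (Prod.mk.inj h4).1.symm)
  rw [h1, Finset.sum_congr rfl (g := fun _ => 2), Finset.sum_const, smul_eq_mul, mul_comm]
  intro w hw
  have hW := (Finset.mem_filter.1 hw).2.1
  have h3 := opp_white hG hW
  unfold nn at h3
  rw [← h3]
  congr 1
  ext t
  simp

theorem mem_AL0 {s : V × V} (h : (∃ n K, CrA G c n s.1 s.2 K) ∨
    ∃ n H τ e, CrB G c n s.1 s.2 H τ e) : s ∈ AL G c ∅ := by
  have hz : ∀ K, ZD G c K ∅ := by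
    intro K
    unfold ZD
    rw [Zn_empty]
    exact Finset.disjoint_empty_right _
  refine Finset.mem_filter.2 ⟨Finset.mem_univ _, ?_⟩
  rcases h with ⟨n, K, h⟩ | ⟨n, H, τ, e, h⟩
  · exact Or.inl ⟨n, K, h, hz K⟩
  · exact Or.inr ⟨n, H, τ, e, h, hz _⟩

/-- a block side without exceptional configuration -/
def Sd (G : SimpleGraph V) (c : V → Bool) (s : V × V) (y : V) : Prop :=
  ∃ b' x x' d y', BK G c s.1 b' x x' s.2 d y y' ∧ ¬ Ex1 G c b' x' y

/-- at least `12 k` slots have a core -/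
theorem World2.pay (hG : Cub G) (hW : World2 G c k) (hP : PF G c) :
    12 * k ≤ (AL G c ∅).card := by
  have hc := hW.nice
  have h1 := hW.q0_sides hG
  have h2 := card_Slots (c := c) hG
  -- slots without core
  have hch : ∀ s ∈ Slots G c \ AL G c ∅, ∃ y, Sd G c s y := by
    rintro ⟨w, a⟩ hs
    obtain ⟨hs1, hs2⟩ := Finset.mem_sdiff.1 hs
    obtain ⟨hw, hwa, ca⟩ := (Finset.mem_filter.1 hs1).2
    rcases hP.slot w a hw hwa ca with h | h | ⟨b', d, d', β, y, z, h, hb, hd⟩
    · exact absurd (mem_AL0 (Or.inl h)) hs2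
    · exact absurd (mem_AL0 (Or.inr h)) hs2
    · refine ⟨y, b', d, d', β, z, h.toBK hc hb hd, ?_⟩
      rintro ⟨m, u, p, hm, hu, hyu, hmu, hp, hyp, hmp⟩
      refine hs2 (mem_AL0 (Or.inl ?_))
      rcases hm with rfl | rfl
      · exact ⟨0, _, CrA.ex1 w m d d' a β y z u p w h hb hd hu hyu.symm hmu.symm hp hyp.symm
          hmp.symm (Or.inl rfl)⟩
      · have h' : PBlk G c d m w b' a β y z := h.symm
        exact ⟨0, _, CrA.ex1 d m w b' a β y z u p w h' hd hb hu hyu.symm hmu.symm hp hyp.symm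
          hmp.symm (Or.inr rfl)⟩
  have h5 := Finset.card_sdiff_add_card (Slots G c) (AL G c ∅)
  have h6 : (Slots G c).card ≤ (Slots G c ∪ AL G c ∅).card :=
    Finset.card_le_card Finset.subset_union_left
  rcases (Slots G c \ AL G c ∅).eq_empty_or_nonempty with he | ⟨s0, _⟩
  · rw [he, Finset.card_empty] at h5
    omega
  have : Nonempty V := ⟨s0.1⟩
  choose! f hf using hch
  have h3 : (Slots G c \ AL G c ∅).card ≤
      2 * ((Slots G c \ AL G c ∅).image f).card := by
    refine Finset.card_le_mul_card_image _ 2 ?_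
    intro y hy
    obtain ⟨s, hs, hsy⟩ := Finset.mem_image.1 hy
    obtain ⟨b', x, x', d, y', hB, _⟩ := hf s hs
    rw [hsy] at hB
    refine le_trans (Finset.card_le_card (t := {(s.1, s.2), (x, s.2)}) ?_) Finset.card_le_two
    intro r hr
    obtain ⟨hr1, hr2⟩ := Finset.mem_filter.1 hr
    obtain ⟨p', q, q', e, w', hB', _⟩ := hf r hr1
    rw [hr2] at hB'
    simp only [Finset.mem_insert, Finset.mem_singleton]
    by_cases e1 : s.1 = r.1
    · rw [← e1] at hB'
      obtain ⟨_, _, _, ⟨e2, _, _, _⟩ | ⟨_, _, e3, _⟩⟩ := hW.same_blk hG hB hB'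
      · left
        exact Prod.ext e1.symm e2.symm
      · exact absurd e3 (hW.blk_yy hG hB')
    by_cases e2 : s.1 = q
    · have hB2 := hB'.swap1 hc
      rw [← e2] at hB2
      obtain ⟨_, e4, _, ⟨e3, _, _, _⟩ | ⟨_, _, e3, _⟩⟩ := hW.same_blk hG hB hB2
      · right
        exact Prod.ext e4.symm e3.symm
      · exact absurd e3 (hW.blk_yy hG hB')
    · exact (hW.blk_F7 hG hB hB' e1 e2).elim
  have h4 : ((Slots G c \ AL G c ∅).image f).card ≤ (Sides G c).card := by
    refine Finset.card_le_card ?_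
    intro y hy
    obtain ⟨s, hs, rfl⟩ := Finset.mem_image.1 hy
    obtain ⟨b', x, x', d, y', hB, hE⟩ := hf s hs
    exact Finset.mem_filter.2 ⟨Finset.mem_univ _, s.1, b', x, x', s.2, d, y', hB, hE⟩
  omega

/-- there are at least `6 k` sources -/
theorem World2.q0_6k (hG : Cub G) (hW : World2 G c k) : 6 * k ≤ (Qs G c 0).card := by
  have := hW.q0_sides hG
  omega

end

end Pool.Agent.Work.MP_1e13ac_W
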