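import Pool.Agent.Work.MP_1e13ac_W.PkFacts3
import Pool.Agent.Work.MP_1e13ac_W.PkPay
import Pool.Agent.Work.MP_1e13ac_W.Asm56

/-!
# MP_1e13ac_co, full statement: World 2 is impossible, from the stages (helper80)
-/

set_option autoImplicit false
set_option linter.unusedSectionVars false

namespace Pool.Agent.Work.MP_1e13ac_W

open Classical Finset Pool.Agent.Work.MP_1e13ac_Bis

noncomputable section

/-- World 2 is impossible -/
theorem World2.false_of (s0 : Stmt_S0) (s1 : Stmt_S1) (s2 : Stmt_S2) (s3 : Stmt_S3)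
    (s4 : Stmt_S4) (s5 : Stmt_S5) (s6 : Stmt_S6) (s7 : Stmt_S7) {V : Type} [Fintype V]
    {G : SimpleGraph V} {c : V → Bool} {k : ℕ} (hG : Cub G) (hW : World2 G c k) : False :=
  hW.bad (pk_main (hW.pf hG) s0 s1 s2 s3 s4 s5 s6 s7 (blk_T3 (hW.pf hG)) k hW.lev2
    (hW.q0_6k hG) (hW.pay hG (hW.pf hG)))

/-- the frozen statement from level 1 and the stages -/
theorem frozen_of (hL1 : Stmt_L1) (s0 : Stmt_S0) (s1 : Stmt_S1) (s2 : Stmt_S2) (s3 : Stmt_S3)
    (s4 : Stmt_S4) (s5 : Stmt_S5) (s6 : Stmt_S6) (s7 : Stmt_S7) :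
    ∀ (V : Type) [Fintype V] [DecidableEq V] (G : SimpleGraph V) [DecidableRel G.Adj],
      G.IsRegularOfDegree 3 →
      ∃ S : Set V,
        S.ncard = Sᶜ.ncard ∧
        (∀ c : (G.induce S).ConnectedComponent, c.supp.ncard ≤ 4) ∧
        (∀ c : (G.induce Sᶜ).ConnectedComponent, c.supp.ncard ≤ 4) ∧
        (G.induce S).IsAcyclic ∧
        (∀ v, ((G.induce S).neighborSet v).ncard ≤ 2) ∧
        (G.induce Sᶜ).IsAcyclic ∧
        (∀ v, ((G.induce Sᶜ).neighborSet v).ncard ≤ 2) ∧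
        Nonempty (G.induce S ≃g G.induce Sᶜ) :=
  frozen hL1 fun _ _ _ _ _ hG hW => hW.false_of s0 s1 s2 s3 s4 s5 s6 s7 hG

end

end Pool.Agent.Work.MP_1e13ac_W
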