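import Pool.Agent.Work.MP_1e13ac_Bis.Interface

/-!
# MP_1e13ac_co, full statement: flips, levels, zones (helper50)

`flp F c` flips the colours of `F`; `Zn G c F` (closed neighbourhood of `F` and the mates) is the
zone of `F`. The statistics `st` and validity are additive over sets with disjoint zones.
-/

set_option autoImplicit false
set_option linter.unusedSectionVars false

namespace Pool.Agent.Work.MP_1e13ac_W

open Classical Finset Pool.Agent.Work.MP_1e13ac_Bis

noncomputable section

variable {V : Type} [Fintype V]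

/-- flip the colours of the vertices of `F` -/
def flp (F : Finset V) (c : V → Bool) (x : V) : Bool := if x ∈ F then !(c x) else c x

/-- number of white (`true`) vertices minus number of black vertices -/
def lev (c : V → Bool) : ℤ := ∑ x, sg (c x)

/-- sum of the monochromatic degrees -/
def smd (G : SimpleGraph V) (c : V → Bool) : ℤ := ∑ x, (md G c x : ℤ)

/-- twice (number of monochromatic edges plus half of the imbalance) -/
def F2 (G : SimpleGraph V) (c : V → Bool) : ℤ := smd G c + |lev c|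

/-- monochromatic degrees at most one -/
def Nice (G : SimpleGraph V) (c : V → Bool) : Prop := ∀ x, md G c x ≤ 1

/-- closed neighbourhood -/
def NF (G : SimpleGraph V) (F : Finset V) : Finset V :=
  univ.filter fun x => x ∈ F ∨ ∃ f ∈ F, G.Adj f x

/-- zone: closed neighbourhood and monochromatic neighbours of it -/
def Zn (G : SimpleGraph V) (c : V → Bool) (F : Finset V) : Finset V :=
  univ.filter fun x => x ∈ NF G F ∨ ∃ y ∈ NF G F, MA G c y x

/-- local contribution to the statistics -/
def tt (G : SimpleGraph V) (c : V → Bool) (x : V) : ℤ × ℤ × ℤ :=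
  (sg (c x), locP G c x, locQ G c x)

theorem st_eq (G : SimpleGraph V) (c : V → Bool) : st G c univ = ∑ x, tt G c x := by
  unfold st tt
  refine Prod.ext ?_ (Prod.ext ?_ ?_)
  · simp [Prod.fst_sum]
  · simp [Prod.fst_sum, Prod.snd_sum]
  · simp [Prod.snd_sum]

theorem ma_symm {G : SimpleGraph V} {c : V → Bool} {x y : V} (h : MA G c x y) : MA G c y x :=
  ⟨h.1.symm, h.2.symm⟩

theorem nice_uniq {G : SimpleGraph V} {c : V → Bool} (hc : Nice G c) {x y z : V}
    (h1 : MA G c x y) (h2 : MA G c x z) : y = z := by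
  have h := hc x
  unfold md at h
  exact Finset.card_le_one.1 h y (by simp [h1]) z (by simp [h2])

theorem mem_NF {G : SimpleGraph V} {F : Finset V} {x : V} :
    x ∈ NF G F ↔ x ∈ F ∨ ∃ f ∈ F, G.Adj f x := by
  simp [NF]

theorem mem_Zn {G : SimpleGraph V} {c : V → Bool} {F : Finset V} {x : V} :
    x ∈ Zn G c F ↔ x ∈ NF G F ∨ ∃ y ∈ NF G F, MA G c y x := by
  simp [Zn]

theorem NF_sub_Zn {G : SimpleGraph V} {c : V → Bool} {F : Finset V} {x : V} (h : x ∈ NF G F) :
    x ∈ Zn G c F := mem_Zn.2 (Or.inl h)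

theorem F_sub_Zn {G : SimpleGraph V} {c : V → Bool} {F : Finset V} {x : V} (h : x ∈ F) :
    x ∈ Zn G c F := NF_sub_Zn (mem_NF.2 (Or.inl h))

theorem nb_Zn {G : SimpleGraph V} {c : V → Bool} {F : Finset V} {x y : V} (h : x ∈ F)
    (hxy : G.Adj x y) : y ∈ Zn G c F := NF_sub_Zn (mem_NF.2 (Or.inr ⟨x, h, hxy⟩))

theorem Zn_mate {G : SimpleGraph V} {c : V → Bool} (hc : Nice G c) {F : Finset V} {x y : V}
    (hx : x ∈ Zn G c F) (h : MA G c x y) : y ∈ Zn G c F := by
  rcases mem_Zn.1 hx with h1 | ⟨w, hw, h1⟩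
  · exact mem_Zn.2 (Or.inr ⟨x, h1, h⟩)
  · rw [nice_uniq hc h (ma_symm h1)]
    exact NF_sub_Zn hw

theorem NF_union {G : SimpleGraph V} (A B : Finset V) : NF G (A ∪ B) = NF G A ∪ NF G B := by
  ext x
  simp only [mem_NF, Finset.mem_union]
  constructor
  · rintro ((h | h) | ⟨f, h | h, h'⟩)
    · exact Or.inl (Or.inl h)
    · exact Or.inr (Or.inl h)
    · exact Or.inl (Or.inr ⟨f, h, h'⟩)
    · exact Or.inr (Or.inr ⟨f, h, h'⟩)
  · rintro ((h | ⟨f, h, h'⟩) | (h | ⟨f, h, h'⟩))
    · exact Or.inl (Or.inl h)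
    · exact Or.inr ⟨f, Or.inl h, h'⟩
    · exact Or.inl (Or.inr h)
    · exact Or.inr ⟨f, Or.inr h, h'⟩

theorem Zn_union {G : SimpleGraph V} {c : V → Bool} (A B : Finset V) :
    Zn G c (A ∪ B) = Zn G c A ∪ Zn G c B := by
  ext x
  simp only [mem_Zn, NF_union, Finset.mem_union]
  constructor
  · rintro ((h | h) | ⟨f, h | h, h'⟩)
    · exact Or.inl (Or.inl h)
    · exact Or.inr (Or.inl h)
    · exact Or.inl (Or.inr ⟨f, h, h'⟩)
    · exact Or.inr (Or.inr ⟨f, h, h'⟩)
  · rintro ((h | ⟨f, h, h'⟩) | (h | ⟨f, h, h'⟩))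
    · exact Or.inl (Or.inl h)
    · exact Or.inr ⟨f, Or.inl h, h'⟩
    · exact Or.inl (Or.inr h)
    · exact Or.inr ⟨f, Or.inr h, h'⟩

theorem Zn_empty {G : SimpleGraph V} {c : V → Bool} : Zn G c ∅ = ∅ := by
  ext x
  simp [mem_Zn, mem_NF]

theorem flp_empty (c : V → Bool) : flp ∅ c = c := by
  funext x
  simp [flp]

theorem flp_out {F : Finset V} {c : V → Bool} {x : V} (h : x ∉ F) : flp F c x = c x := by
  simp [flp, h]

theorem flp_in {F : Finset V} {c : V → Bool} {x : V} (h : x ∈ F) : flp F c x = !(c x) := by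
  simp [flp, h]

/-- colours agree near `x` -/
theorem MA_congr {G : SimpleGraph V} {c c' : V → Bool} {x : V} (h0 : c x = c' x)
    (h : ∀ y, G.Adj x y → c y = c' y) (y : V) : MA G c x y ↔ MA G c' x y := by
  unfold MA
  constructor
  · rintro ⟨h1, h2⟩
    exact ⟨h1, by rw [← h0, ← h y h1, h2]⟩
  · rintro ⟨h1, h2⟩
    exact ⟨h1, by rw [h0, h y h1, h2]⟩

theorem md_congr {G : SimpleGraph V} {c c' : V → Bool} {x : V}
    (h : ∀ y, MA G c x y ↔ MA G c' x y) : md G c x = md G c' x := by
  unfold md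
  congr 1
  ext y
  simp [h y]

theorem MA_out {G : SimpleGraph V} {c : V → Bool} {F : Finset V} {x : V} (h : x ∉ NF G F)
    (y : V) : MA G (flp F c) x y ↔ MA G c x y := by
  refine MA_congr (flp_out fun hx => h (mem_NF.2 (Or.inl hx))) ?_ y
  intro z hz
  exact flp_out fun hz' => h (mem_NF.2 (Or.inr ⟨z, hz', hz.symm⟩))

theorem md_out {G : SimpleGraph V} {c : V → Bool} {F : Finset V} {x : V} (h : x ∉ NF G F) :
    md G (flp F c) x = md G c x := md_congr (MA_out h)

theorem notZ {G : SimpleGraph V} {c : V → Bool} {F : Finset V} {x : V} (h : x ∉ Zn G c F) :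
    x ∉ NF G F := fun h' => h (NF_sub_Zn h')

/-- the monochromatic neighbours after the flip of a vertex of the zone are in the zone -/
theorem Zn_closed {G : SimpleGraph V} {c : V → Bool} (hc : Nice G c) {F : Finset V} {x y : V}
    (hx : x ∈ Zn G c F) (h : MA G (flp F c) x y) : y ∈ Zn G c F := by
  by_contra hy
  have h1 : MA G c y x := (MA_out (notZ hy) x).1 (ma_symm h)
  exact hy (Zn_mate hc hx (ma_symm h1))

theorem tt_congr {G : SimpleGraph V} {c c' : V → Bool} {x : V} (h0 : c x = c' x)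
    (h : ∀ y, MA G c x y ↔ MA G c' x y) (h2 : ∀ y, MA G c x y → md G c y = md G c' y) :
    tt G c x = tt G c' x := by
  have h3 : md G c x = md G c' x := md_congr h
  have h4 : (∃ y, MA G c x y ∧ md G c y = 2) ↔ (∃ y, MA G c' x y ∧ md G c' y = 2) := by
    constructor
    · rintro ⟨y, h5, h6⟩
      exact ⟨y, (h y).1 h5, by rw [← h2 y h5, h6]⟩
    · rintro ⟨y, h5, h6⟩
      have h7 := (h y).2 h5
      exact ⟨y, h7, by rw [h2 y h7, h6]⟩
  unfold tt locP locQ
  rw [h0, h3]
  simp only [h4]

theorem tt_out {G : SimpleGraph V} {c : V → Bool} (hc : Nice G c) {F : Finset V} {x : V}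
    (h : x ∉ Zn G c F) : tt G (flp F c) x = tt G c x := by
  refine tt_congr (flp_out fun hx => h (F_sub_Zn hx)) (MA_out (notZ h)) ?_
  intro y hy
  have h1 := (MA_out (notZ h) y).1 hy
  refine md_out fun hy' => h (Zn_mate hc (NF_sub_Zn hy') (ma_symm h1))

section Two

variable {G : SimpleGraph V} {c : V → Bool} {A B : Finset V}

theorem flp_union_l {x : V} (h : x ∉ B) : flp (A ∪ B) c x = flp A c x := by
  simp [flp, h]

theorem flp_union_r {x : V} (h : x ∉ A) : flp (A ∪ B) c x = flp B c x := by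
  simp [flp, h]

theorem two_MA_l (hd : Disjoint (Zn G c A) (Zn G c B)) {x : V} (hx : x ∈ Zn G c A) (y : V) :
    MA G (flp (A ∪ B) c) x y ↔ MA G (flp A c) x y := by
  have hx' : x ∉ Zn G c B := Finset.disjoint_left.1 hd hx
  refine MA_congr (flp_union_l fun h => hx' (F_sub_Zn h)) ?_ y
  intro z hz
  exact flp_union_l fun h => hx' (nb_Zn h hz.symm)

theorem two_MA_r (hd : Disjoint (Zn G c A) (Zn G c B)) {x : V} (hx : x ∈ Zn G c B) (y : V) :
    MA G (flp (A ∪ B) c) x y ↔ MA G (flp B c) x y := by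
  have hx' : x ∉ Zn G c A := Finset.disjoint_right.1 hd hx
  refine MA_congr (flp_union_r fun h => hx' (F_sub_Zn h)) ?_ y
  intro z hz
  exact flp_union_r fun h => hx' (nb_Zn h hz.symm)

theorem two_md_l (hd : Disjoint (Zn G c A) (Zn G c B)) {x : V} (hx : x ∈ Zn G c A) :
    md G (flp (A ∪ B) c) x = md G (flp A c) x := md_congr (two_MA_l hd hx)

theorem two_md_r (hd : Disjoint (Zn G c A) (Zn G c B)) {x : V} (hx : x ∈ Zn G c B) :
    md G (flp (A ∪ B) c) x = md G (flp B c) x := md_congr (two_MA_r hd hx)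

theorem two_tt (hc : Nice G c) (hd : Disjoint (Zn G c A) (Zn G c B)) (x : V) :
    tt G (flp (A ∪ B) c) x - tt G c x =
      (tt G (flp A c) x - tt G c x) + (tt G (flp B c) x - tt G c x) := by
  by_cases h1 : x ∈ Zn G c A
  · have h2 : x ∉ Zn G c B := Finset.disjoint_left.1 hd h1
    have h3 : tt G (flp (A ∪ B) c) x = tt G (flp A c) x := by
      refine tt_congr (flp_union_l fun h => h2 (F_sub_Zn h)) (two_MA_l hd h1) ?_
      intro y hy
      exact two_md_l hd (Zn_closed hc h1 ((two_MA_l hd h1 y).1 hy))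
    rw [h3, tt_out hc h2]
    simp
  · by_cases h2 : x ∈ Zn G c B
    · have h3 : tt G (flp (A ∪ B) c) x = tt G (flp B c) x := by
        refine tt_congr (flp_union_r fun h => h1 (F_sub_Zn h)) (two_MA_r hd h2) ?_
        intro y hy
        exact two_md_r hd (Zn_closed hc h2 ((two_MA_r hd h2 y).1 hy))
      rw [h3, tt_out hc h1]
      simp
    · have h3 : x ∉ Zn G c (A ∪ B) := by
        rw [Zn_union, Finset.mem_union]
        tauto
      rw [tt_out hc h1, tt_out hc h2, tt_out hc h3]
      simp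

theorem two_md (hd : Disjoint (Zn G c A) (Zn G c B)) (x : V) :
    (md G (flp (A ∪ B) c) x : ℤ) - md G c x =
      ((md G (flp A c) x : ℤ) - md G c x) + ((md G (flp B c) x : ℤ) - md G c x) := by
  by_cases h1 : x ∈ Zn G c A
  · have h2 : x ∉ Zn G c B := Finset.disjoint_left.1 hd h1
    rw [two_md_l hd h1, md_out (notZ h2)]
    ring
  · by_cases h2 : x ∈ Zn G c B
    · rw [two_md_r hd h2, md_out (notZ h1)]
      ring
    · have h3 : x ∉ NF G (A ∪ B) := by
        rw [NF_union, Finset.mem_union]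
        rintro (h | h)
        · exact h1 (NF_sub_Zn h)
        · exact h2 (NF_sub_Zn h)
      rw [md_out (notZ h1), md_out (notZ h2), md_out h3]
      ring

theorem two_lev (hd : Disjoint (Zn G c A) (Zn G c B)) :
    lev (flp (A ∪ B) c) - lev c = (lev (flp A c) - lev c) + (lev (flp B c) - lev c) := by
  unfold lev
  rw [← Finset.sum_sub_distrib, ← Finset.sum_sub_distrib, ← Finset.sum_sub_distrib,
    ← Finset.sum_add_distrib]
  refine Finset.sum_congr rfl fun x _ => ?_
  by_cases h1 : x ∈ A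
  · have h2 : x ∉ B := fun h => Finset.disjoint_left.1 hd (F_sub_Zn h1) (F_sub_Zn h)
    rw [flp_union_l h2, flp_out h2]
    ring
  · rw [flp_union_r h1, flp_out h1]
    ring

theorem two_smd (hd : Disjoint (Zn G c A) (Zn G c B)) :
    smd G (flp (A ∪ B) c) - smd G c =
      (smd G (flp A c) - smd G c) + (smd G (flp B c) - smd G c) := by
  unfold smd
  rw [← Finset.sum_sub_distrib, ← Finset.sum_sub_distrib, ← Finset.sum_sub_distrib,
    ← Finset.sum_add_distrib]
  exact Finset.sum_congr rfl fun x _ => two_md hd x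

theorem two_st (hc : Nice G c) (hd : Disjoint (Zn G c A) (Zn G c B)) :
    st G (flp (A ∪ B) c) univ - st G c univ =
      (st G (flp A c) univ - st G c univ) + (st G (flp B c) univ - st G c univ) := by
  rw [st_eq, st_eq, st_eq, st_eq, ← Finset.sum_sub_distrib, ← Finset.sum_sub_distrib,
    ← Finset.sum_sub_distrib, ← Finset.sum_add_distrib]
  exact Finset.sum_congr rfl fun x _ => two_tt hc hd x

theorem two_valid (hc : Nice G c) (hd : Disjoint (Zn G c A) (Zn G c B))
    (hA : Valid G (flp A c)) (hB : Valid G (flp B c)) : Valid G (flp (A ∪ B) c) := by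
  have key : ∀ x, x ∉ Zn G c A → x ∉ Zn G c B → x ∉ NF G (A ∪ B) := by
    intro x h1 h2
    rw [NF_union, Finset.mem_union]
    rintro (h | h)
    · exact h1 (NF_sub_Zn h)
    · exact h2 (NF_sub_Zn h)
  constructor
  · intro x
    by_cases h1 : x ∈ Zn G c A
    · rw [two_md_l hd h1]
      exact hA.deg x
    · by_cases h2 : x ∈ Zn G c B
      · rw [two_md_r hd h2]
        exact hB.deg x
      · rw [md_out (key x h1 h2)]
        exact (hc x).trans (by norm_num)
  · intro x₁ x₂ x₃ x₄ x₅ h12 h23 h34 h45 n13 n24 n35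
    by_cases h1 : x₁ ∈ Zn G c A
    · have g12 := (two_MA_l hd h1 _).1 h12
      have z2 := Zn_closed hc h1 g12
      have g23 := (two_MA_l hd z2 _).1 h23
      have z3 := Zn_closed hc z2 g23
      have g34 := (two_MA_l hd z3 _).1 h34
      have z4 := Zn_closed hc z3 g34
      have g45 := (two_MA_l hd z4 _).1 h45
      exact hA.nb4 _ _ _ _ _ g12 g23 g34 g45 n13 n24 n35
    · by_cases h2 : x₁ ∈ Zn G c B
      · have g12 := (two_MA_r hd h2 _).1 h12
        have z2 := Zn_closed hc h2 g12
        have g23 := (two_MA_r hd z2 _).1 h23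
        have z3 := Zn_closed hc z2 g23
        have g34 := (two_MA_r hd z3 _).1 h34
        have z4 := Zn_closed hc z3 g34
        have g45 := (two_MA_r hd z4 _).1 h45
        exact hB.nb4 _ _ _ _ _ g12 g23 g34 g45 n13 n24 n35
      · have g12 := (MA_out (key x₁ h1 h2) _).1 h12
        have h1' : x₂ ∉ Zn G c A := fun h => h1 (Zn_mate hc h (ma_symm g12))
        have h2' : x₂ ∉ Zn G c B := fun h => h2 (Zn_mate hc h (ma_symm g12))
        have g23 := (MA_out (key x₂ h1' h2') _).1 h23
        exact n13 (nice_uniq hc (ma_symm g12) g23)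

end Two

/-- union of a list of sets -/
def unL (L : List (Finset V)) : Finset V := L.foldr (· ∪ ·) ∅

theorem Zn_unL {G : SimpleGraph V} {c : V → Bool} (L : List (Finset V)) {x : V}
    (h : x ∈ Zn G c (unL L)) : ∃ A ∈ L, x ∈ Zn G c A := by
  induction L with
  | nil =>
    exfalso
    have : unL ([] : List (Finset V)) = ∅ := rfl
    rw [this, Zn_empty] at h
    simp at h
  | cons A L ih =>
    have : unL (A :: L) = A ∪ unL L := rfl
    rw [this, Zn_union, Finset.mem_union] at h
    rcases h with h | h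
    · exact ⟨A, by simp, h⟩
    · obtain ⟨B, hB, h'⟩ := ih h
      exact ⟨B, by simp [hB], h'⟩

theorem valid_of_nice {G : SimpleGraph V} {c : V → Bool} (hc : Nice G c) : Valid G c := by
  constructor
  · intro x
    exact (hc x).trans (by norm_num)
  · intro x₁ x₂ x₃ x₄ x₅ h12 h23 h34 h45 n13 n24 n35
    exact n13 (nice_uniq hc (ma_symm h12) h23)

theorem st_of_nice {G : SimpleGraph V} {c : V → Bool} (hc : Nice G c) :
    st G c univ = (lev c, 0, 0) := by
  unfold st
  refine Prod.ext rfl (Prod.ext ?_ ?_)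
  · refine Finset.sum_eq_zero fun x _ => ?_
    unfold locP
    rw [if_neg]
    have := hc x
    omega
  · refine Finset.sum_eq_zero fun x _ => ?_
    unfold locQ
    rw [if_neg]
    rintro ⟨h, -⟩
    have := hc x
    omega

theorem list_add {G : SimpleGraph V} {c : V → Bool} (hc : Nice G c) (L : List (Finset V))
    (hp : L.Pairwise fun A B => Disjoint (Zn G c A) (Zn G c B))
    (hv : ∀ A ∈ L, Valid G (flp A c)) :
    Valid G (flp (unL L) c) ∧
      st G (flp (unL L) c) univ - st G c univ =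
        (L.map fun A => st G (flp A c) univ - st G c univ).sum ∧
      smd G (flp (unL L) c) - smd G c = (L.map fun A => smd G (flp A c) - smd G c).sum ∧
      lev (flp (unL L) c) - lev c = (L.map fun A => lev (flp A c) - lev c).sum := by
  induction L with
  | nil =>
    have : unL ([] : List (Finset V)) = ∅ := rfl
    rw [this, flp_empty]
    exact ⟨valid_of_nice hc, by simp, by simp, by simp⟩
  | cons A L ih =>
    rw [List.pairwise_cons] at hp
    obtain ⟨h1, h2, h3, h4⟩ := ih hp.2 fun B hB => hv B (by simp [hB])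
    have hd : Disjoint (Zn G c A) (Zn G c (unL L)) := by
      rw [Finset.disjoint_left]
      intro x hx hx'
      obtain ⟨B, hB, h⟩ := Zn_unL L hx'
      exact Finset.disjoint_left.1 (hp.1 B hB) hx h
    have e : unL (A :: L) = A ∪ unL L := rfl
    rw [e]
    refine ⟨two_valid hc hd (hv A (by simp)) h1, ?_, ?_, ?_⟩
    · rw [two_st hc hd, h2]
      simp
    · rw [two_smd hd, h3]
      simp
    · rw [two_lev hd, h4]
      simp

theorem good_of_nice {G : SimpleGraph V} {c : V → Bool} (hc : Nice G c) (h : lev c = 0) :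
    Good' G := ⟨c, valid_of_nice hc, by rw [st_of_nice hc, h]; rfl⟩

end

end Pool.Agent.Work.MP_1e13ac_W
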