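import Pool.Agent.Work.MP_1e13ac_W.L2Defs

/-!
# MP_1e13ac_co, full statement: leaf predicate with genuine outers of T1 (helper80)
-/

set_option autoImplicit false

namespace Pool.Agent.Work.MP_1e13ac_W

noncomputable section

/-- the black vertex `t` is certainly not the top of a T1 -/
def notTopB (A : PL) (c t : Nat) : Bool :=
  anyL (fun s => andB (tb c s) (orB (Nat.beq (mdl c s (glR A s)) (nat_lit 0))
    (anyL (fun m => andB (same c s m) (andB (notB (memR m (glR A t)))
      (orB (Nat.beq (lenN (glR A t)) (nat_lit 3)) (Nat.beq (lenN (glR A m)) (nat_lit 3)))))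
      (glR A s)))) (glR A t)

/-- `u` is certainly a genuine outer of one of the tops -/
def genB (A : PL) (c : Nat) (tops : List Nat) (u : Nat) (l : List Nat) : Bool :=
  andB (notB (tb c u)) (andB (notTopB A c u)
    (andB (anyL (fun t => andB (notB (tb c t)) (notTopB A c t)) l)
      (anyL (fun z => andB (notB (Nat.beq z u))
        (anyL (fun s => andB (tb c s) (andB (Nat.beq (mdl c s (glR A s)) (nat_lit 1))
          (memR z (glR A s)))) l)) tops)))

/-- number of vertices which are certainly genuine outers -/
def genCnt (A : PL) (c : Nat) (tops : List Nat) : Nat :=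
  sumI (fun u l => Bool.rec (motive := fun _ => Nat) (nat_lit 0) (nat_lit 1) (genB A c tops u l))
    A (nat_lit 0)

/-- leaf predicate with the additional kind 4: at least `n` genuine outers -/
def lf2G (tops : List Nat) (n : Nat) (A : PL) (col non act : Nat) : Bool :=
  orB (lf2 A col non act)
    (andB (Nat.beq (Nat.mod act (nat_lit 8)) (nat_lit 4)) (Nat.ble n (genCnt A col tops)))

end

end Pool.Agent.Work.MP_1e13ac_W
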