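import Pool.Agent.Work.MP_1e13ac_W.L2World
import Pool.Agent.Work.MP_1e13ac_W.GDefs

/-!
# MP_1e13ac_co, full statement: genuine outers of T1 (helper80)

`Gen G c z`: the vertices `u ∈ B1`, not a top of a T1 and not the mate of one, adjacent to a
vertex of `W1` which is adjacent to `z`.
-/

set_option autoImplicit false
set_option linter.unusedSectionVars false

namespace Pool.Agent.Work.MP_1e13ac_W

open Classical Finset Pool.Agent.Work.MP_1e13ac_Bis

noncomputable section

variable {V : Type} [Fintype V] {G : SimpleGraph V} {c : V → Bool} {k : ℕ}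

/-- genuine outers of `z` -/
def Gen (G : SimpleGraph V) (c : V → Bool) (z : V) : Finset V :=
  univ.filter fun u => IsB1 G c u ∧ u ≠ z ∧ u ∉ T1s G c ∧ (∀ t, MA G c u t → t ∉ T1s G c) ∧
    ∃ s, IsW1 G c s ∧ G.Adj z s ∧ G.Adj s u

theorem mem_Gen {z u : V} : u ∈ Gen G c z ↔ IsB1 G c u ∧ u ≠ z ∧ u ∉ T1s G c ∧
    (∀ t, MA G c u t → t ∉ T1s G c) ∧ ∃ s, IsW1 G c s ∧ G.Adj z s ∧ G.Adj s u := by
  simp [Gen]

section Main

variable {A : PL} {col non F : ℕ} {e : ℕ → V}

theorem T1_nbs (hG : Cub G) (hc : Nice G c) {t : V} (ht : t ∈ T1s G c) {s : V}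
    (hs : G.Adj t s) (hcs : c s = true) : ∃ m, MA G c s m ∧ G.Adj t m := by
  obtain ⟨hB, p, q, h1, h2, h3, h4⟩ := mem_T1s.1 ht
  obtain ⟨t', ht'⟩ : ∃ y, MA G c t y := by
    have h5 := hB.2
    unfold md at h5
    obtain ⟨y, hy⟩ := Finset.card_eq_one.1 h5
    have : y ∈ univ.filter fun y => MA G c t y := by rw [hy]; simp
    exact ⟨y, (Finset.mem_filter.1 this).2⟩
  have ct' : c t' = false := by rw [← ht'.2]; exact hB.1
  have hpq : p ≠ q := fun h => G.irrefl (h ▸ h3.1)
  have hpt : p ≠ t' := by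
    rintro rfl
    rw [ct'] at h4
    exact absurd h4 (by simp)
  have hqt : q ≠ t' := by
    rintro rfl
    rw [h3.2, ct'] at h4
    exact absurd h4 (by simp)
  have hst : s ≠ t' := by
    rintro rfl
    rw [ct'] at hcs
    exact absurd hcs (by simp)
  -- the three neighbours of `t`
  have hsub : ({t', p, q} : Finset V) ⊆ nbs G t := by
    intro x hx
    simp only [Finset.mem_insert, Finset.mem_singleton] at hx
    rcases hx with rfl | rfl | rfl
    · exact Finset.mem_filter.2 ⟨Finset.mem_univ _, ht'.1⟩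
    · exact Finset.mem_filter.2 ⟨Finset.mem_univ _, h1⟩
    · exact Finset.mem_filter.2 ⟨Finset.mem_univ _, h2⟩
  have hcard : ({t', p, q} : Finset V).card = 3 := by
    rw [Finset.card_insert_of_notMem (by simp [hpt.symm, hqt.symm]),
      Finset.card_insert_of_notMem (by simp [hpq]), Finset.card_singleton]
  have heq := Finset.eq_of_subset_of_card_le hsub (by rw [hcard, hG t])
  have hs' : s ∈ ({t', p, q} : Finset V) := by
    rw [heq]
    exact Finset.mem_filter.2 ⟨Finset.mem_univ _, hs⟩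
  simp only [Finset.mem_insert, Finset.mem_singleton] at hs'
  rcases hs' with h5 | rfl | rfl
  · exact absurd h5 hst
  · exact ⟨q, h3, h2⟩
  · exact ⟨p, ma_symm h3, h1⟩

theorem Emb.notTop (hG : Cub G) (hc : Nice G c) (h : Emb G c A col non e) {t : ℕ}
    (ht : t < A.length) (hn : notTopB A col t = true) : e t ∉ T1s G c := by
  intro hT
  unfold notTopB at hn
  rw [anyL_iff] at hn
  obtain ⟨s, hs, hn⟩ := hn
  rw [andB_iff, orB_iff, beqN_iff, anyL_iff] at hn
  have h1 := h.adj t ht s hs
  obtain ⟨m, hm, htm⟩ := T1_nbs hG hc hT h1.2.1 (by rw [h.colr s h1.1]; exact hn.1)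
  rcases hn.2 with h2 | ⟨m', hm', h2⟩
  · rw [← h.loc.md_eq h1.1] at h2
    exact absurd hm (md0_no h2)
  · rw [andB_iff, andB_iff, notB_iff, orB_iff, beqN_iff, beqN_iff, same_iff] at h2
    have h3 := h.adj s h1.1 m' hm'
    have h4 : MA G c (e s) (e m') := ⟨h3.2.1, by
      rw [h.colr s h1.1, h.colr m' h3.1, h2.1]⟩
    have h5 : m = e m' := nice_uniq hc hm h4
    subst h5
    have h6 : m' ∈ glR A t := by
      rcases h2.2.2 with h7 | h7
      · rw [lenN_eq] at h7
        obtain ⟨j, hj, hj2⟩ := h.compl hG ht (by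
          have h8 : (glR A t).length = 3 := h7
          omega) htm
        have := h.inj j (h.adj t ht j hj).1 m' h3.1 hj2
        rw [← this]
        exact hj
      · rw [lenN_eq] at h7
        obtain ⟨j, hj, hj2⟩ := h.compl hG h3.1 (by
          have h8 : (glR A m').length = 3 := h7
          omega) htm.symm
        have := h.inj j (h.adj m' h3.1 j hj).1 t ht hj2
        rw [this] at hj
        exact (h.adj m' h3.1 t hj).2.2
    have h9 := (memR_iff m' (glR A t)).2 h6
    rw [h2.2.1] at h9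
    exact absurd h9 (by simp)

theorem Emb.gen (hG : Cub G) (hc : Nice G c) (h : Emb G c A col non e) {tops : List ℕ}
    {u : ℕ} (hu : u < A.length) (ht : ∀ z ∈ tops, z < A.length)
    (hn : genB A col tops u (glR A u) = true) : ∃ z ∈ tops, e u ∈ Gen G c (e z) := by
  unfold genB at hn
  rw [andB_iff, andB_iff, andB_iff, notB_iff, anyL_iff, anyL_iff] at hn
  obtain ⟨h1, h2, ⟨t, ht1, h3⟩, ⟨z, hz, h4⟩⟩ := hn
  rw [andB_iff, notB_iff] at h3
  rw [andB_iff, notB_iff, anyL_iff] at h4
  obtain ⟨h4, s, hs, h5⟩ := h4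
  rw [andB_iff, andB_iff, beqN_iff, memR_iff] at h5
  have a1 := h.adj u hu t ht1
  have a2 := h.adj u hu s hs
  have a3 := h.adj s a2.1 z h5.2.2
  have hut : MA G c (e u) (e t) := ⟨a1.2.1, by rw [h.colr u hu, h.colr t a1.1, h1, h3.1]⟩
  have hB : IsB1 G c (e u) := by
    refine ⟨by rw [h.colr u hu]; exact h1, le_antisymm (hc _) ?_⟩
    exact md_pos hut
  refine ⟨z, hz, mem_Gen.2 ⟨hB, ?_, h.notTop hG hc hu h2, ?_, e s, ⟨?_, ?_⟩, a3.2.1.symm,
    a2.2.1.symm⟩⟩
  · intro hh
    have := h.inj u hu z (ht z hz) hh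
    subst this
    have h6 : Nat.beq u u = true := (beqN_iff _ _).2 rfl
    rw [h6] at h4
    exact absurd h4 (by simp)
  · intro t' ht'
    rw [nice_uniq hc ht' hut]
    exact h.notTop hG hc a1.1 h3.2
  · rw [h.colr s a2.1]
    exact h5.1
  · rw [h.loc.md_eq a2.1]
    exact h5.2.1

theorem Emb.genCnt_le (hG : Cub G) (hc : Nice G c) (h : Emb G c A col non e) {tops : List ℕ}
    (ht : ∀ z ∈ tops, z < A.length) :
    genCnt A col tops ≤ (univ.filter fun u => ∃ z ∈ tops, u ∈ Gen G c (e z)).card := by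
  have e2 : genCnt A col tops = ((range A.length).filter fun i =>
      genB A col tops i (glR A i) = true).card := by
    have e1 : genCnt A col tops = ∑ i ∈ range A.length,
        (Bool.rec (motive := fun _ => ℕ) 0 1 (genB A col tops i (glR A i)) : ℕ) := by
      unfold genCnt
      exact sumI0_eq _ _
    rw [e1, Finset.card_filter]
    refine forallN_congr fun i _ => ?_
    cases genB A col tops i (glR A i) <;> simp
  rw [e2, ← Finset.card_image_of_injOn (f := e)]
  · refine Finset.card_le_card ?_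
    intro x hx
    obtain ⟨i, hi', rfl⟩ := Finset.mem_image.1 hx
    rw [Finset.mem_filter, Finset.mem_range] at hi'
    exact Finset.mem_filter.2 ⟨Finset.mem_univ _, h.gen hG hc hi'.1 ht hi'.2⟩
  · intro a ha b hb hab
    have h1 := Finset.mem_coe.1 ha
    have h2 := Finset.mem_coe.1 hb
    rw [Finset.mem_filter, Finset.mem_range] at h1 h2
    exact h.inj a h1.1 b h2.1 hab

end Main

/-- certificates with genuine outers -/
theorem World2.certG (hG : Cub G) (hW : World2 G c k) {S : List It} {A : PL} {col non : ℕ}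
    {e : ℕ → V} (tops : List ℕ) (n : ℕ) (ht : ∀ z ∈ tops, z < A.length)
    (hr : run (lf2G tops n) S [⟨A, col, non⟩] = true) (h : Emb G c A col non e) :
    n ≤ (univ.filter fun u => ∃ z ∈ tops, u ∈ Gen G c (e z)).card := by
  refine run_soundK hG hW.nice (lf := lf2G tops n) _ A.length e ?_ S _ hr ⟨A, col, non⟩
    (by simp) e h le_rfl fun i _ => rfl
  intro A' col' non' act e' hl hE hn0 he
  unfold lf2G at hl
  rw [orB_iff, andB_iff, bleN_iff] at hl
  rcases hl with hl | ⟨-, hl⟩
  · exact (lf2_sound hG hW A' col' non' act e' hl hE).elim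
  · have h1 := hE.genCnt_le hG hW.nice (tops := tops) fun z hz => (ht z hz).trans_le hn0
    have h2 : (univ.filter fun u => ∃ z ∈ tops, u ∈ Gen G c (e' z)) =
        univ.filter fun u => ∃ z ∈ tops, u ∈ Gen G c (e z) := by
      refine Finset.filter_congr fun u _ => ?_
      constructor
      · rintro ⟨z, hz, hu⟩
        exact ⟨z, hz, by rw [← he z (ht z hz)]; exact hu⟩
      · rintro ⟨z, hz, hu⟩
        exact ⟨z, hz, by rw [he z (ht z hz)]; exact hu⟩
    rw [h2] at h1
    exact hl.trans h1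

end

end Pool.Agent.Work.MP_1e13ac_W
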