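/-!
# MP_1e13ac_co, full statement: certificate checker (helper50)

Patterns are coloured partial subgraphs. The functions are written with bare recursors, which the
kernel evaluates faster than compiled structural recursions.
-/

set_option autoImplicit false

namespace Pool.Agent.Work.MP_1e13ac_W

noncomputable section

abbrev PL := List (List Nat)

def tb (x i : Nat) : Bool := Nat.beq (Nat.mod (Nat.shiftRight x i) (nat_lit 2)) (nat_lit 1)

def andB (a b : Bool) : Bool := Bool.rec (motive := fun _ => Bool) false b a

def orB (a b : Bool) : Bool := Bool.rec (motive := fun _ => Bool) b true a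

def notB (a : Bool) : Bool := Bool.rec (motive := fun _ => Bool) true false a

/-- equality of Booleans -/
def eqB (a b : Bool) : Bool := Bool.rec (motive := fun _ => Bool) (notB b) b a

def memR (x : Nat) (l : List Nat) : Bool :=
  List.rec (motive := fun _ => Bool) false (fun y _ ih => orB (Nat.beq x y) ih) l

def glR (L : PL) : Nat → List Nat :=
  List.rec (motive := fun _ => Nat → List Nat) (fun _ => [])
    (fun l _ ih n => Nat.rec (motive := fun _ => List Nat) l (fun k _ => ih k) n) L

def lenN (l : List Nat) : Nat :=
  List.rec (motive := fun _ => Nat) (nat_lit 0) (fun _ _ ih => Nat.succ ih) l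

def lenL (L : PL) : Nat :=
  List.rec (motive := fun _ => Nat) (nat_lit 0) (fun _ _ ih => Nat.succ ih) L

def cntL (f : Nat → Bool) (l : List Nat) : Nat :=
  List.rec (motive := fun _ => Nat) (nat_lit 0)
    (fun x _ ih => Bool.rec (motive := fun _ => Nat) ih (Nat.succ ih) (f x)) l

def allI (f : Nat → List Nat → Bool) (L : PL) : Nat → Bool :=
  List.rec (motive := fun _ => Nat → Bool) (fun _ => true)
    (fun l _ ih i => andB (f i l) (ih (Nat.succ i))) L

def sumI (f : Nat → List Nat → Nat) (L : PL) : Nat → Nat :=
  List.rec (motive := fun _ => Nat → Nat) (fun _ => nat_lit 0)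
    (fun l _ ih i => Nat.add (f i l) (ih (Nat.succ i))) L

def eqL (l : List Nat) : List Nat → Bool :=
  List.rec (motive := fun _ => List Nat → Bool)
    (fun m => List.rec (motive := fun _ => Bool) true (fun _ _ _ => false) m)
    (fun x _ ih m => List.rec (motive := fun _ => Bool) false
      (fun y t _ => andB (Nat.beq x y) (ih t)) m) l

def eqLL (L : PL) : PL → Bool :=
  List.rec (motive := fun _ => PL → Bool)
    (fun m => List.rec (motive := fun _ => Bool) true (fun _ _ _ => false) m)
    (fun x _ ih m => List.rec (motive := fun _ => Bool) false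
      (fun y t _ => andB (eqL x y) (ih t)) m) L

/-- pattern: adjacency lists, colours (bit mask, `1` is white), code of the known
non-adjacencies (`32 * i + j`) -/
structure Pt where
  A : PL
  col : Nat
  non : Nat

/-- item of a script: pattern and action (`2 * v + 1`: expand `v`; even: leaf data) -/
structure It where
  A : PL
  col : Nat
  non : Nat
  act : Nat

/-- add `x` to the entry `v` -/
def addAt (x : Nat) (L : PL) : Nat → PL :=
  List.rec (motive := fun _ => Nat → PL) (fun _ => [])
    (fun l t ih n => Nat.rec (motive := fun _ => PL) ((x :: l) :: t) (fun k _ => l :: ih k) n) L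

/-- append -/
def appL (L M : PL) : PL :=
  List.rec (motive := fun _ => PL) M (fun l _ ih => l :: ih) L

def bitN (i : Nat) : Nat := Nat.shiftLeft (nat_lit 1) i

def pairB (v u : Nat) : Nat :=
  Nat.lor (bitN (Nat.add (Nat.mul (nat_lit 32) v) u)) (bitN (Nat.add (Nat.mul (nat_lit 32) u) v))

/-- is `u` with list `l` a possible further neighbour of `v` with list `lv` -/
def candB (col non v : Nat) (lv : List Nat) (u : Nat) (l : List Nat) : Bool :=
  andB (notB (eqB (tb col u) (tb col v)))
    (andB (Nat.ble (Nat.succ (lenN l)) (nat_lit 3))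
      (andB (notB (memR u lv)) (notB (tb non (Nat.add (Nat.mul (nat_lit 32) v) u)))))

/-- the children of the pattern when a missing neighbour of `v` is resolved -/
def kidsR (A : PL) (col v : Nat) (lv : List Nat) (n : Nat) (L : PL) : Nat → Nat → List Pt :=
  List.rec (motive := fun _ => Nat → Nat → List Pt)
    (fun _ non =>
      [⟨appL (addAt n A v) [[v]],
        Nat.lor col (Bool.rec (motive := fun _ => Nat) (bitN n) (nat_lit 0) (tb col v)), non⟩,
       ⟨appL (addAt n A v) [[v, Nat.succ n], [n]],
        Nat.lor col (Bool.rec (motive := fun _ => Nat)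
          (Nat.lor (bitN n) (bitN (Nat.succ n))) (nat_lit 0) (tb col v)), non⟩])
    (fun l _ ih u non => Bool.rec (motive := fun _ => List Pt) (ih (Nat.succ u) non)
      (⟨addAt v (addAt u A v) u, col, non⟩ :: ih (Nat.succ u) (Nat.lor non (pairB v u)))
      (candB col non v lv u l)) L

def appP (L M : List Pt) : List Pt :=
  List.rec (motive := fun _ => List Pt) M (fun l _ ih => l :: ih) L

/-- the script checker with a stack of goals; `lf` is the leaf predicate -/
def run (lf : PL → Nat → Nat → Nat → Bool) (S : List It) : List Pt → Bool :=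
  List.rec (motive := fun _ => List Pt → Bool)
    (fun g => List.rec (motive := fun _ => Bool) true (fun _ _ _ => false) g)
    (fun it _ ih g => List.rec (motive := fun _ => Bool) false
      (fun Q gs _ => It.rec (motive := fun _ => Bool) (fun A col non act =>
        andB (Pt.rec (motive := fun _ => Bool) (fun A' col' non' =>
            andB (eqLL A' A) (andB (Nat.beq col' col) (Nat.beq non' non))) Q)
          (Bool.rec (motive := fun _ => Bool)
            (andB (lf A col non (Nat.div act (nat_lit 2))) (ih gs))
            (andB (Nat.ble (lenL A) (nat_lit 30))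
              (andB (Nat.ble (Nat.succ (Nat.div act (nat_lit 2))) (lenL A))
                (andB (Nat.ble (Nat.succ (lenN (glR A (Nat.div act (nat_lit 2))))) (nat_lit 3))
                  (ih (appP (kidsR A col (Nat.div act (nat_lit 2))
                    (glR A (Nat.div act (nat_lit 2))) (lenL A) A (nat_lit 0) non) gs)))))
            (Nat.beq (Nat.mod act (nat_lit 2)) (nat_lit 1)))) it) g) S

/-! ## Evaluation of a set `F` -/

def same (c i j : Nat) : Bool := eqB (tb c i) (tb c j)

/-- monochromatic degree of `i` with neighbour list `l` -/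
def mdl (c i : Nat) (l : List Nat) : Nat := cntL (fun j => same c i j) l

/-- number of monochromatic neighbours with monochromatic degree two -/
def m2l (A : PL) (c i : Nat) (l : List Nat) : Nat :=
  cntL (fun j => andB (same c i j) (Nat.beq (mdl c j (glR A j)) (nat_lit 2))) l

/-- all vertices of `F` are complete -/
def cmpR (A : PL) (F : Nat) : Bool :=
  allI (fun i l => orB (notB (tb F i)) (Nat.beq (lenN l) (nat_lit 3))) A (nat_lit 0)

def validR (A : PL) (c : Nat) : Bool :=
  allI (fun i l => andB (Nat.ble (mdl c i l) (nat_lit 2))
    (orB (notB (Nat.beq (mdl c i l) (nat_lit 2))) (Nat.ble (m2l A c i l) (nat_lit 1)))) A (nat_lit 0)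

/-- sum of the monochromatic degrees -/
def smR (A : PL) (c : Nat) : Nat := sumI (fun i l => mdl c i l) A (nat_lit 0)

/-- `n + j` where `j` is the number of white minus the number of black vertices of `F` -/
def sjR (A : PL) (c F : Nat) : Nat :=
  sumI (fun i _ => Bool.rec (motive := fun _ => Nat) (nat_lit 1)
    (Bool.rec (motive := fun _ => Nat) (nat_lit 0) (nat_lit 2) (tb c i)) (tb F i)) A (nat_lit 0)

/-- `n` plus the sum of `locP` -/
def spR (A : PL) (c : Nat) : Nat :=
  sumI (fun i l => Bool.rec (motive := fun _ => Nat) (nat_lit 1)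
    (Bool.rec (motive := fun _ => Nat) (nat_lit 0) (nat_lit 2) (tb c i))
    (Nat.beq (mdl c i l) (nat_lit 2))) A (nat_lit 0)

/-- `n` plus the sum of `locQ` -/
def sqR (A : PL) (c : Nat) : Nat :=
  sumI (fun i l => Bool.rec (motive := fun _ => Nat) (nat_lit 1)
    (Bool.rec (motive := fun _ => Nat) (nat_lit 0) (nat_lit 2) (tb c i))
    (andB (Nat.beq (mdl c i l) (nat_lit 2)) (Nat.ble (nat_lit 1) (m2l A c i l)))) A (nat_lit 0)

end

end Pool.Agent.Work.MP_1e13ac_W
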