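import Mathlib
import Pool.Agent.Work.MP_1e13ac_W.Defs

/-!
# MP_1e13ac_co, full statement: conditions on root patterns (helper50)
-/

set_option autoImplicit false

namespace Pool.Agent.Work.MP_1e13ac_W

/-- the vertices `i`, `j` are distinguished -/
def Dis (A : PL) (col : ℕ) (D : List (ℕ × ℕ)) (I : List ℕ) (i j : ℕ) : Prop :=
  j ≤ i ∨ (i, j) ∈ D ∨ tb col i ≠ tb col j ∨ (i ∈ I ∧ j ∉ I) ∨ (i ∉ I ∧ j ∈ I) ∨ j ∈ glR A i

noncomputable instance (A : PL) (col : ℕ) (D : List (ℕ × ℕ)) (I : List ℕ) (i j : ℕ) :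
    Decidable (Dis A col D I i j) := by
  unfold Dis
  infer_instance

/-- decidable conditions on a root pattern: `E` edges, `D` pairs to be distinguished,
`I` isolated vertices -/
def Chk (A : PL) (col : ℕ) (E D : List (ℕ × ℕ)) (I : List ℕ) : Prop :=
  (∀ i < A.length, (glR A i).Nodup ∧ ∀ j ∈ glR A i, j < A.length ∧ i ∈ glR A j ∧ j ≠ i) ∧
  col < 2 ^ A.length ∧
  (∀ i < A.length, ∀ j ∈ glR A i, i < j → (i, j) ∈ E) ∧
  (∀ i < A.length, i ∈ I ∨ ∃ j ∈ glR A i, tb col i = tb col j) ∧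
  (∀ i < A.length, ∀ j < A.length, Dis A col D I i j)

noncomputable instance (A : PL) (col : ℕ) (E D : List (ℕ × ℕ)) (I : List ℕ) :
    Decidable (Chk A col E D I) := by
  unfold Chk
  infer_instance

end Pool.Agent.Work.MP_1e13ac_W
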