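import Pool.Agent.Work.MP_1e13ac_W.Zone
import Pool.Agent.Work.MP_1e13ac_W.Root

/-!
# MP_1e13ac_co, full statement: World 1, soundness of the leaf predicate (helper50)
-/

set_option autoImplicit false
set_option linter.unusedSectionVars false

namespace Pool.Agent.Work.MP_1e13ac_W

open Classical Finset Pool.Agent.Work.MP_1e13ac_Bis

noncomputable section

variable {V : Type} [Fintype V] {G : SimpleGraph V} {c : V → Bool}

/-! ## Neighbours in cubic graphs -/

theorem mem_nbs {x y : V} : y ∈ nbs G x ↔ G.Adj x y := by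
  simp [nbs]

theorem cub1 (hG : Cub G) {x y : V} (h : G.Adj x y) :
    ∃ a b, a ≠ b ∧ a ≠ y ∧ b ≠ y ∧ ∀ z, G.Adj x z ↔ z = y ∨ z = a ∨ z = b := by
  have h1 : ((nbs G x).erase y).card = 2 := by
    rw [Finset.card_erase_of_mem (mem_nbs.2 h), hG x]
  obtain ⟨a, b, hab, he⟩ := Finset.card_eq_two.1 h1
  have ha : a ∈ (nbs G x).erase y := by rw [he]; simp
  have hb : b ∈ (nbs G x).erase y := by rw [he]; simp
  rw [Finset.mem_erase] at ha hb
  refine ⟨a, b, hab, ha.1, hb.1, fun z => ?_⟩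
  constructor
  · intro hz
    by_cases hzy : z = y
    · exact Or.inl hzy
    · have : z ∈ (nbs G x).erase y := Finset.mem_erase.2 ⟨hzy, mem_nbs.2 hz⟩
      rw [he] at this
      simpa using Or.inr this
  · rintro (rfl | rfl | rfl)
    · exact h
    · exact mem_nbs.1 ha.2
    · exact mem_nbs.1 hb.2

theorem cub2 (hG : Cub G) {x y z : V} (h : G.Adj x y) (h' : G.Adj x z) (hyz : y ≠ z) :
    ∃ a, a ≠ y ∧ a ≠ z ∧ ∀ w, G.Adj x w ↔ w = y ∨ w = z ∨ w = a := by
  obtain ⟨a, b, hab, ha, hb, hN⟩ := cub1 hG h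
  rcases (hN z).1 h' with hz | hz | hz
  · exact absurd hz.symm hyz
  · subst hz
    exact ⟨b, hb, fun hh => hab hh.symm, hN⟩
  · subst hz
    refine ⟨a, ha, hab, fun w => ?_⟩
    rw [hN w]
    constructor
    · rintro (h1 | h1 | h1)
      · exact Or.inl h1
      · exact Or.inr (Or.inr h1)
      · exact Or.inr (Or.inl h1)
    · rintro (h1 | h1 | h1)
      · exact Or.inl h1
      · exact Or.inr (Or.inr h1)
      · exact Or.inr (Or.inl h1)

theorem md1_ex {x : V} (h : md G c x = 1) : ∃ y, MA G c x y := by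
  unfold md at h
  obtain ⟨y, hy⟩ := Finset.card_eq_one.1 h
  exact ⟨y, (Finset.mem_filter.1 (by rw [hy]; simp : y ∈ univ.filter fun y => MA G c x y)).2⟩

/-- the neighbours of a matched vertex -/
theorem mate_nbs (hG : Cub G) (hc : Nice G c) {x x' : V} (h : MA G c x x') :
    ∃ a b, a ≠ b ∧ a ≠ x' ∧ b ≠ x' ∧ c a ≠ c x ∧ c b ≠ c x ∧
      ∀ z, G.Adj x z ↔ z = x' ∨ z = a ∨ z = b := by
  obtain ⟨a, b, hab, ha, hb, hN⟩ := cub1 hG h.1
  refine ⟨a, b, hab, ha, hb, ?_, ?_, hN⟩
  · intro hh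
    exact ha (nice_uniq hc ⟨(hN a).2 (Or.inr (Or.inl rfl)), hh.symm⟩ h)
  · intro hh
    exact hb (nice_uniq hc ⟨(hN b).2 (Or.inr (Or.inr rfl)), hh.symm⟩ h)

/-! ## Embeddings from lists -/

theorem emb_mk (hc : Nice G c) {A : PL} {col : ℕ} (vs : List V) (d : V)
    (E D : List (ℕ × ℕ)) (I : List ℕ) (hlen : vs.length = A.length) (hchk : Chk A col E D I)
    (hE : ∀ e ∈ E, G.Adj (vs.getD e.1 d) (vs.getD e.2 d))
    (hD : ∀ e ∈ D, vs.getD e.1 d ≠ vs.getD e.2 d)
    (hI : ∀ i ∈ I, md G c (vs.getD i d) = 0)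
    (hcol : vs.map c = (List.range A.length).map fun i => tb col i) :
    Emb G c A col 0 (fun i => vs.getD i d) := by
  obtain ⟨hwf, hcolt, hE', hI', hD'⟩ := hchk
  have hcol' : ∀ i < A.length, c (vs.getD i d) = tb col i := by
    intro i hi
    have h1 : (vs.map c)[i]? = ((List.range A.length).map fun i => tb col i)[i]? := by rw [hcol]
    rw [List.getElem?_map, List.getElem?_map, List.getElem?_range hi] at h1
    rw [List.getD_eq_getElem?_getD]
    have h2 : vs[i]? = some (vs[i]'(by omega)) := List.getElem?_eq_getElem (by omega)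
    rw [h2] at h1 ⊢
    simpa using h1
  have hadj' : ∀ i < A.length, ∀ j ∈ glR A i, G.Adj (vs.getD i d) (vs.getD j d) := by
    intro i hi j hj
    obtain ⟨h1, h2, h3⟩ := (hwf i hi).2 j hj
    rcases lt_trichotomy i j with h | h | h
    · exact hE (i, j) (hE' i hi j hj h)
    · exact absurd h.symm h3
    · exact (hE (j, i) (hE' j h1 i h2 h)).symm
  have hmd : ∀ i < A.length, i ∉ I → md G c (vs.getD i d) ≠ 0 := by
    intro i hi hiI h0
    rcases hI' i hi with h | ⟨j, hj, h⟩
    · exact hiI h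
    · refine md0_no h0 (y := vs.getD j d) ⟨hadj' i hi j hj, ?_⟩
      rw [hcol' i hi, hcol' j ((hwf i hi).2 j hj).1, h]
  have hne : ∀ i < A.length, ∀ j < A.length, i < j → vs.getD i d ≠ vs.getD j d := by
    intro i hi j hj hij hh
    rcases hD' i hi j hj with h | h | h | ⟨h1, h2⟩ | ⟨h1, h2⟩ | h
    · omega
    · exact hD (i, j) h hh
    · rw [← hcol' i hi, ← hcol' j hj, hh] at h
      exact h rfl
    · exact hmd j hj h2 (hh ▸ hI i h1)
    · exact hmd i hi h1 (hh ▸ hI j h2)
    · exact G.irrefl (hh ▸ hadj' i hi j h)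
  refine ⟨?_, ?_, fun i hi => (hwf i hi).1, hcol', ?_, ?_, ?_⟩
  · intro i hi j hj hij
    rcases lt_trichotomy i j with h | h | h
    · exact absurd hij (hne i hi j hj h)
    · exact h
    · exact absurd hij.symm (hne j hj i hi h)
  · intro i hi j hj
    exact ⟨((hwf i hi).2 j hj).1, hadj' i hi j hj, ((hwf i hi).2 j hj).2.1⟩
  · intro i hi
    by_contra hh
    have h1 : 2 ^ A.length ≤ 2 ^ i := Nat.pow_le_pow_right (by norm_num) (by omega)
    rw [tb_eq, Nat.testBit_lt_two_pow (by omega)] at hi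
    exact absurd hi (by simp)
  · intro i hi y hy
    rcases hI' i hi with h | ⟨j, hj, h⟩
    · exact absurd hy (md0_no (hI i h))
    · refine ⟨j, hj, ?_⟩
      refine nice_uniq hc ⟨hadj' i hi j hj, ?_⟩ hy
      show c (vs.getD i d) = c (vs.getD j d)
      rw [hcol' i hi, hcol' j ((hwf i hi).2 j hj).1, h]
  · intro i _ j _ hij
    rw [tb_zero] at hij
    exact absurd hij (by simp)

theorem FS_eq {A : PL} {F : ℕ} {e : ℕ → V} (S : Finset ℕ)
    (h : ((range A.length).filter fun i => tb F i = true) = S) : FS A F e = S.image e := by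
  unfold FS
  rw [h]

/-! ## The T3 token -/

/-- all four neighbours of a matched pair vertex -/
theorem T3_tok (hG : Cub G) (hc : Nice G c) {x : V} (hx : x ∈ Qs G c 0) :
    Valid G (flp {x} c) ∧ st G (flp {x} c) univ - st G c univ = (-2, -1, 0) := by
  have hw := (mem_Qs.1 hx).1
  obtain ⟨x', hx'⟩ := md1_ex hw.2
  obtain ⟨a, b, hab, ha, hb, hca, hcb, hN⟩ := mate_nbs hG hc hx'
  rw [hw.1] at hca hcb
  have hca' : c a = false := by simpa using hca
  have hcb' : c b = false := by simpa using hcb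
  have hxa : G.Adj x a := (hN a).2 (by simp)
  have hxb : G.Adj x b := (hN b).2 (by simp)
  have ma := Q0_nb hc hx hxa hca'
  have mb := Q0_nb hc hx hxb hcb'
  have hE : Emb G c [[1, 2, 3], [0], [0], [0]] 3 0 (fun i => [x, x', a, b].getD i x) := by
    refine emb_mk hc [x, x', a, b] x [(0, 1), (0, 2), (0, 3)] [(2, 3)] [2, 3] rfl (by decide)
      ?_ ?_ ?_ ?_
    · simp [hx'.1, hxa, hxb]
    · simp [hab]
    · simp [ma.2, mb.2]
    · simp [hw.1, ← hx'.2, hca', hcb']
      decide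
  have hF : cmpR [[1, 2, 3], [0], [0], [0]] 1 = true := by decide
  have hS : FS [[1, 2, 3], [0], [0], [0]] 1 (fun i => [x, x', a, b].getD i x) = {x} := by
    rw [FS_eq {0} (by decide)]
    simp
  have h1 := hE.valid hG hc hF (by decide)
  have h2 := hE.stD hG hc hF
  rw [hS] at h1 h2
  refine ⟨h1, ?_⟩
  rw [h2]
  decide

end

end Pool.Agent.Work.MP_1e13ac_W
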