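import Pool.Agent.Work.MP_1e13ac_W.T1Count
import Pool.Agent.Work.MP_1e13ac_W.L2Gen
import Pool.Agent.Work.MP_1e13ac_W.C2T1
import Pool.Agent.Work.MP_1e13ac_W.C2TT
import Pool.Agent.Work.MP_1e13ac_W.W1Leaf

/-!
# MP_1e13ac_co, World 2: the hypotheses of the count of the T1 (helper87)
-/

set_option autoImplicit false
set_option linter.unusedSectionVars false

namespace Pool.Agent.Work.MP_1e13ac_W

open Classical Finset Pool.Agent.Work.MP_1e13ac_Bis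

noncomputable section

/-! ## Two small certificates -/

/-- the rule: `bbwwww:0-1,0-2,0-3,2-4,3-5` -/
def cRule2 : List It :=
  [⟨[[1,2,3],[0],[0,4],[0,5],[2],[3]], 60, 0, 5⟩,
   ⟨[[1,2,3],[2,0],[1,0,4],[0,5],[2],[3]], 60, 0, 7⟩,
   ⟨[[1,2,3],[3,2,0],[1,0,4],[1,0,5],[2],[3]], 60, 0, 208⟩,
   ⟨[[1,2,3],[2,0],[1,0,4],[6,0,5],[2],[3],[3]], 60, 158456325028528675221447639040, 208⟩,
   ⟨[[1,2,3],[2,0],[1,0,4],[6,0,5],[2],[3],[3,7],[6]], 60, 158456325028528675221447639040, 208⟩,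
   ⟨[[1,2,3],[0],[6,0,4],[0,5],[2],[3],[2]], 60, 36893488164598972416, 7⟩,
   ⟨[[1,2,3],[3,0],[6,0,4],[1,0,5],[2],[3],[2]], 60, 36893488164598972416, 208⟩,
   ⟨[[1,2,3],[0],[6,0,4],[6,0,5],[2],[3],[3,2]], 60, 158456325065422163386046611456, 208⟩,
   ⟨[[1,2,3],[0],[6,0,4],[7,0,5],[2],[3],[2],[3]], 60, 50216813883093446110686315390890390054797183325085135536128, 208⟩,
   ⟨[[1,2,3],[0],[6,0,4],[7,0,5],[2],[3],[2],[3,8],[7]], 60, 50216813883093446110686315390890390054797183325085135536128, 208⟩,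
   ⟨[[1,2,3],[0],[6,0,4],[0,5],[2],[3],[2,7],[6]], 60, 36893488164598972416, 7⟩,
   ⟨[[1,2,3],[3,0],[6,0,4],[1,0,5],[2],[3],[2,7],[6]], 60, 36893488164598972416, 208⟩,
   ⟨[[1,2,3],[0],[6,0,4],[6,0,5],[2],[3],[3,2,7],[6]], 60, 158456325065422163386046611456, 208⟩,
   ⟨[[1,2,3],[0],[6,0,4],[7,0,5],[2],[3],[2,7],[3,6]], 60, 50216813883093446110686315390890390054797183325085135536128, 208⟩,
   ⟨[[1,2,3],[0],[6,0,4],[8,0,5],[2],[3],[2,7],[6],[3]], 60, 215679573387421932240429566806843360790128750236947598385887643172864, 208⟩,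
   ⟨[[1,2,3],[0],[6,0,4],[8,0,5],[2],[3],[2,7],[6],[3,9],[8]], 60, 215679573387421932240429566806843360790128750236947598385887643172864, 208⟩]

theorem cRule2_ok : run lf2 cRule2 [⟨[[1,2,3],[0],[0,4],[0,5],[2],[3]], 60, 0⟩] = true := by
  decide +kernel

/-- two T1 on one white pair: `bbwwbb:0-1,0-2,0-3,2-3,2-4,3-4,4-5` -/
def cDia2 : List It := [⟨[[1,2,3],[0],[0,4,3],[0,4,2],[2,3,5],[4]], 12, 0, 464⟩]

theorem cDia2_ok : run lf2 cDia2 [⟨[[1,2,3],[0],[0,4,3],[0,4,2],[2,3,5],[4]], 12, 0⟩] = true := by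
  decide +kernel

variable {V : Type} [Fintype V] {G : SimpleGraph V} {c : V → Bool} {k : ℕ}

open CntAux T1C

namespace T1G

theorem MAc {x y : V} (h : MA G c x y) {b : Bool} (hx : c x = b) : c y = b := by
  rw [← h.2, hx]

theorem ne_of_mates (hc : Nice G c) {x x' y y' : V} (h1 : MA G c x x') (h2 : MA G c y y')
    (hxy : x ≠ y) (hx'y : x' ≠ y) : x ≠ y' ∧ x' ≠ y' := by
  refine ⟨?_, ?_⟩
  · rintro rfl
    exact hx'y (nice_uniq hc h1 (ma_symm h2))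
  · rintro rfl
    exact hxy (nice_uniq hc (ma_symm h1) (ma_symm h2))

/-- the vertices of a T1 -/
theorem T1_vs (hc : Nice G c) {z : V} (hz : z ∈ T1s G c) :
    ∃ p q, G.Adj z p ∧ G.Adj z q ∧ MA G c p q ∧ IsW1 G c p ∧ IsW1 G c q := by
  obtain ⟨_, p, q, h1, h2, h3, h4⟩ := (Finset.mem_filter.1 hz).2
  exact ⟨p, q, h1, h2, h3, ⟨h4, ma_md hc h3⟩, ⟨MAc h3 h4, ma_md hc (ma_symm h3)⟩⟩

theorem ex_of_card {P : V → Prop} {i : DecidablePred P} (h : 1 ≤ (univ.filter P).card) :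
    ∃ u, P u := by
  obtain ⟨u, hu⟩ := Finset.card_pos.1 (Nat.lt_of_lt_of_le Nat.zero_lt_one h)
  exact ⟨u, (Finset.mem_filter.1 hu).2⟩

theorem ex2_of_card {P : V → Prop} {i : DecidablePred P} (h : 2 ≤ (univ.filter P).card) :
    ∃ u w, u ≠ w ∧ P u ∧ P w := by
  obtain ⟨u, hu, w, hw, huw⟩ := Finset.one_lt_card.1 (Nat.lt_of_lt_of_le Nat.one_lt_two h)
  exact ⟨u, w, huw, (Finset.mem_filter.1 hu).2, (Finset.mem_filter.1 hw).2⟩

theorem gen_of {z u : V} (hz : z ∈ T1s G c) (h : u ∈ Gen G c z) :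
    ∃ s, GenR G c z s u := by
  obtain ⟨h1, h2, h3, h4, s, h5, h6, h7⟩ := mem_Gen.1 h
  refine ⟨s, hz, h6, h5, h7, h1, h3, ?_⟩
  rintro ⟨t, t1, t2⟩
  exact h4 t (ma_symm t2) t1

end T1G

open T1G

theorem World2.rule1 (hG : Cub G) (hW : World2 G c k) : Rule1 G c := by
  intro z p q hz hzp hzq hpq hp hq
  by_contra hadj
  obtain ⟨z', hz'⟩ := mate_exists hz.2
  obtain ⟨p', hp'⟩ := mate_exists hp.2
  obtain ⟨q', hq'⟩ := mate_exists hq.2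
  have h1 : p' ≠ q := by
    rintro rfl
    exact hadj hp'.1
  obtain ⟨h2, h3⟩ := ne_of_mates hW.nice hp' hq' hpq h1
  have cz' := MAc hz' hz.1
  have cp' := MAc hp' hp.1
  have cq' := MAc hq' hq.1
  refine hW.cert hG cRule2_ok (e := fun i => [z, z', p, q, p', q'].getD i z) ?_
  refine emb_mk hW.nice [z, z', p, q, p', q'] z [(0, 1), (0, 2), (0, 3), (2, 4), (3, 5)]
    [(2, 3), (2, 5), (3, 4), (4, 5)] [] rfl (by decide) ?_ ?_ ?_ ?_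
  · simp [hz'.1, hzp, hzq, hp'.1, hq'.1]
  · simp [hpq, h2, h1.symm, h3]
  · simp
  · simp [hz.1, hp.1, hq.1, cz', cp', cq']
    decide

/-- two T1, the tops of which are not mates, have no common white vertex -/
theorem World2.diamond (hG : Cub G) (hW : World2 G c k) {z₁ z₂ : V} (h1 : z₁ ∈ T1s G c)
    (h2 : z₂ ∈ T1s G c) (hne : z₁ ≠ z₂) (hm : ¬ MA G c z₁ z₂) {p : V} (hp : IsW1 G c p)
    (hp1 : G.Adj z₁ p) (hp2 : G.Adj z₂ p) : False := by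
  have hc := hW.nice
  have hR := hW.rule1 hG
  have aux : ∀ z ∈ T1s G c, G.Adj z p → ∃ q, MA G c p q ∧ G.Adj z q := by
    intro z hz hzp
    obtain ⟨r, s, a1, a2, a3, a4, a5⟩ := T1_vs hc hz
    by_cases e : r = p
    · rw [e] at a3
      exact ⟨s, a3, a2⟩
    · refine ⟨r, ⟨hR z p r (T1_B1 hz) hzp a1 (fun h => e h.symm) hp a4, ?_⟩, a1⟩
      rw [hp.1, a4.1]
  obtain ⟨q, q1, q2⟩ := aux z₁ h1 hp1
  obtain ⟨q', q1', q2'⟩ := aux z₂ h2 hp2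
  have e := nice_uniq hc q1' q1
  subst e
  obtain ⟨z₁', m1⟩ := mate_exists (T1_B1 h1).2
  obtain ⟨z₂', m2⟩ := mate_exists (T1_B1 h2).2
  have n1 : z₁' ≠ z₂ := by
    rintro rfl
    exact hm m1
  obtain ⟨n2, n3⟩ := ne_of_mates hc m1 m2 hne n1
  have cq := MAc q1 hp.1
  have b1 := (T1_B1 h1).1
  have b2 := (T1_B1 h2).1
  have c1 := MAc m1 b1
  have c2 := MAc m2 b2
  refine hW.cert hG cDia2_ok (e := fun i => [z₁, z₁', p, q', z₂, z₂'].getD i z₁) ?_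
  refine emb_mk hc [z₁, z₁', p, q', z₂, z₂'] z₁
    [(0, 1), (0, 2), (0, 3), (2, 3), (2, 4), (3, 4), (4, 5)]
    [(0, 4), (0, 5), (1, 4), (1, 5)] [] rfl (by decide) ?_ ?_ ?_ ?_
  · simp [m1.1, hp1, q2, q1.1, hp2.symm, q2'.symm, m2.1]
  · simp [hne, n1, n2, n3]
  · simp
  · simp [b1, b2, c1, c2, hp.1, cq]
    decide

/-- the certified facts on T1 -/
structure T1Facts (G : SimpleGraph V) (c : V → Bool) : Prop where
  rule1 : Rule1 G c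
  dia : ∀ z₁ ∈ T1s G c, ∀ z₂ ∈ T1s G c, z₁ ≠ z₂ → ¬ MA G c z₁ z₂ → ∀ p, IsW1 G c p →
    G.Adj z₁ p → G.Adj z₂ p → False
  p1 : ∀ e, Emb G c [[1,2,3],[0,4],[0,3],[0,2],[1,5,6],[4],[4]] 60 0 e →
    ∃ u, u ∈ Gen G c (e 0)
  dsp : ∀ e, Emb G c [[1,2,3],[0,4],[0,3],[0,2],[1,5,7],[4],[7,8,9],[4,6],[6,9],[6,8]] 828 0 e →
    ∃ u, u ∈ Gen G c (e 0) ∨ u ∈ Gen G c (e 6)
  tt : ∀ e, Emb G c [[1,2,3],[0,4,5],[0,3],[0,2],[1,5],[1,4]] 60 0 e →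
    ∃ u w, u ≠ w ∧ (u ∈ Gen G c (e 0) ∨ u ∈ Gen G c (e 1)) ∧
      (w ∈ Gen G c (e 0) ∨ w ∈ Gen G c (e 1))

theorem T1Facts.hypS (hG : Cub G) (hc : Nice G c) (hF : T1Facts G c) : HypS G c := by
  intro z hz z' v hzz' hz' hv hvW hTw hn
  obtain ⟨p, q, zp, zq, pq, hp, hq⟩ := T1_vs hc hz
  obtain ⟨v', hvv'⟩ := mate_exists hvW.2
  have hzB := T1_B1 hz
  have hz'B := mate_B1 hc hz hzz'
  -- the third neighbour of `v`
  have hbl := opp_white hG hvW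
  obtain ⟨a, b, hab, ha, hb⟩ := two_exist (G := G) (P := fun y => c y = false) (x := v) (by rw [hbl])
  have hw : ∃ w, w ≠ z' ∧ G.Adj v w ∧ c w = false := by
    by_cases e : a = z'
    · exact ⟨b, by rw [← e]; exact hab.symm, hb.1, hb.2⟩
    · exact ⟨a, e, ha.1, ha.2⟩
  obtain ⟨w, w1, w2, w3⟩ := hw
  have hw0 : md G c w = 0 := by
    have h0 := hc w
    by_contra hne
    have hwB : IsB1 G c w := ⟨w3, by omega⟩
    have : 2 ≤ nn G (fun y => IsB1 G c y) v := two_le w1 ⟨w2, hwB⟩ ⟨hv.symm, hz'B⟩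
    rw [nB1_eq] at hn
    omega
  have vp : p ≠ v := by
    rintro rfl
    exact hTw ⟨z, hz, zp, hp⟩
  have vq : q ≠ v := by
    rintro rfl
    exact hTw ⟨z, hz, zq, hq⟩
  obtain ⟨vp', vq'⟩ := ne_of_mates hc pq hvv' vp vq
  have cz' := MAc hzz' hzB.1
  have cv' := MAc hvv' hvW.1
  have hE : Emb G c [[1,2,3],[0,4],[0,3],[0,2],[1,5,6],[4],[4]] 60 0
      (fun i => [z, z', p, q, v, v', w].getD i z) := by
    refine emb_mk hc [z, z', p, q, v, v', w] z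
      [(0, 1), (0, 2), (0, 3), (1, 4), (2, 3), (4, 5), (4, 6)]
      [(2, 4), (2, 5), (3, 4), (3, 5)] [6] rfl (by decide) ?_ ?_ ?_ ?_
    · simp [hzz'.1, zp, zq, hv, pq.1, hvv'.1, w2]
    · simp [vp, vq, vp', vq']
    · simp [hw0]
    · simp [hzB.1, cz', hp.1, hq.1, hvW.1, cv', w3]
      decide
  obtain ⟨u, hu⟩ := hF.p1 _ hE
  obtain ⟨s, hs⟩ := gen_of hz (show u ∈ Gen G c z from hu)
  exact ⟨s, u, hs⟩

theorem T1Facts.hypDS (hc : Nice G c) (hF : T1Facts G c) : HypDS G c := by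
  intro z₁ h1 z₂ h2 hne z₁' z₂' v m1 m2 n1 n2 a1 a2 hv hTw
  obtain ⟨p₁, q₁, zp1, zq1, pq1, hp1, hq1⟩ := T1_vs hc h1
  obtain ⟨p₂, q₂, zp2, zq2, pq2, hp2, hq2⟩ := T1_vs hc h2
  obtain ⟨v', hvv'⟩ := mate_exists hv.2
  have b1 := T1_B1 h1
  have b2 := T1_B1 h2
  have c1 := MAc m1 b1.1
  have c2 := MAc m2 b2.1
  have cv' := MAc hvv' hv.1
  have e1 : z₁' ≠ z₂ := fun e => n1 (e ▸ h2)
  obtain ⟨e2, e3⟩ := ne_of_mates hc m1 m2 hne e1
  have hm : ¬ MA G c z₁ z₂ := fun h => e1 (nice_uniq hc m1 h)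
  have f1 : p₁ ≠ v := by
    rintro rfl
    exact hTw ⟨z₁, h1, zp1, hp1⟩
  have f2 : q₁ ≠ v := by
    rintro rfl
    exact hTw ⟨z₁, h1, zq1, hq1⟩
  have f3 : p₂ ≠ v := by
    rintro rfl
    exact hTw ⟨z₂, h2, zp2, hp2⟩
  have f4 : q₂ ≠ v := by
    rintro rfl
    exact hTw ⟨z₂, h2, zq2, hq2⟩
  obtain ⟨f5, f6⟩ := ne_of_mates hc pq1 hvv' f1 f2
  obtain ⟨f7, f8⟩ := ne_of_mates hc pq2 hvv' f3 f4
  have g1 : p₁ ≠ p₂ := fun e => hF.dia z₁ h1 z₂ h2 hne hm p₁ hp1 zp1 (e ▸ zp2)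
  have g2 : q₁ ≠ p₂ := fun e => hF.dia z₁ h1 z₂ h2 hne hm q₁ hq1 zq1 (e ▸ zp2)
  obtain ⟨g3, g4⟩ := ne_of_mates hc pq1 pq2 g1 g2
  have hE : Emb G c [[1,2,3],[0,4],[0,3],[0,2],[1,5,7],[4],[7,8,9],[4,6],[6,9],[6,8]] 828 0
      (fun i => [z₁, z₁', p₁, q₁, v, v', z₂, z₂', p₂, q₂].getD i z₁) := by
    refine emb_mk hc [z₁, z₁', p₁, q₁, v, v', z₂, z₂', p₂, q₂] z₁
      [(0, 1), (0, 2), (0, 3), (1, 4), (2, 3), (4, 5), (4, 7), (6, 7), (6, 8), (6, 9), (8, 9)]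
      [(2, 4), (2, 5), (3, 4), (3, 5), (2, 8), (2, 9), (3, 8), (3, 9), (4, 8), (4, 9), (5, 8),
        (5, 9), (0, 6), (0, 7), (1, 6), (1, 7)] [] rfl (by decide) ?_ ?_ ?_ ?_
    · simp [m1.1, zp1, zq1, a1, pq1.1, hvv'.1, a2.symm, m2.1, zp2, zq2, pq2.1]
    · simp [f1, f2, f3.symm, f4.symm, f5, f6, f7.symm, f8.symm, g1, g2, g3, g4, hne, e1, e2, e3]
    · simp
    · simp [b1.1, b2.1, c1, c2, hp1.1, hp2.1, hq1.1, hq2.1, hv.1, cv']
      decide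
  obtain ⟨u, hu⟩ := hF.dsp _ hE
  rcases hu with hu | hu
  · obtain ⟨s, hs⟩ := gen_of h1 (show u ∈ Gen G c z₁ from hu)
    exact ⟨s, u, Or.inl hs⟩
  · obtain ⟨s, hs⟩ := gen_of h2 (show u ∈ Gen G c z₂ from hu)
    exact ⟨s, u, Or.inr hs⟩

theorem T1Facts.hypTT (hG : Cub G) (hc : Nice G c) (hF : T1Facts G c) : HypTT G c := by
  intro z₁ h1 z₂ h2 m hK
  obtain ⟨p₁, q₁, zp1, zq1, pq1, hp1, hq1⟩ := T1_vs hc h1
  obtain ⟨p₂, q₂, zp2, zq2, pq2, hp2, hq2⟩ := T1_vs hc h2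
  have b1 := T1_B1 h1
  have b2 := T1_B1 h2
  have g1 : p₁ ≠ p₂ := fun e => hK ⟨h1, h2, m, p₁, zp1, e ▸ zp2, hp1⟩
  have g2 : q₁ ≠ p₂ := fun e => hK ⟨h1, h2, m, q₁, zq1, e ▸ zp2, hq1⟩
  obtain ⟨g3, g4⟩ := ne_of_mates hc pq1 pq2 g1 g2
  have hE : Emb G c [[1,2,3],[0,4,5],[0,3],[0,2],[1,5],[1,4]] 60 0
      (fun i => [z₁, z₂, p₁, q₁, p₂, q₂].getD i z₁) := by
    refine emb_mk hc [z₁, z₂, p₁, q₁, p₂, q₂] z₁
      [(0, 1), (0, 2), (0, 3), (1, 4), (1, 5), (2, 3), (4, 5)]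
      [(2, 4), (2, 5), (3, 4), (3, 5)] [] rfl (by decide) ?_ ?_ ?_ ?_
    · simp [m.1, zp1, zq1, pq1.1, zp2, zq2, pq2.1]
    · simp [g1, g2, g3, g4]
    · simp
    · simp [b1.1, b2.1, hp1.1, hp2.1, hq1.1, hq2.1]
      decide
  obtain ⟨u, w, huw, hu, hw⟩ := hF.tt _ hE
  have key : ∀ u, (u ∈ Gen G c z₁ ∨ u ∈ Gen G c z₂) →
      ∃ s, GenR G c z₁ s u ∨ GenR G c z₂ s u := by
    rintro u hu
    rcases hu with hu | hu
    · obtain ⟨s, hs⟩ := gen_of h1 (show u ∈ Gen G c z₁ from hu)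
      exact ⟨s, Or.inl hs⟩
    · obtain ⟨s, hs⟩ := gen_of h2 (show u ∈ Gen G c z₂ from hu)
      exact ⟨s, Or.inr hs⟩
  obtain ⟨s, hs⟩ := key u hu
  obtain ⟨t, ht⟩ := key w hw
  refine ⟨s, t, ?_, ⟨u, hs⟩, ⟨w, ht⟩⟩
  rintro rfl
  -- `s` has the black neighbours `z`, `u` and `w`
  have main : ∀ z y, GenR G c z s u → GenR G c y s w → False := by
    intro z y a b
    have e := gen_uniq hG a b
    subst e
    obtain ⟨a1, a2, a3, a4, a5, a6, a7⟩ := a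
    obtain ⟨_, _, _, b4, b5, b6, _⟩ := b
    rcases B1_two hG a3 huw a4 a5 b4 b5 a2.symm (T1_B1 a1) with e | e
    · exact a6 (e ▸ a1)
    · exact b6 (e ▸ a1)
  rcases hs with hs | hs
  · rcases ht with ht | ht
    · exact main _ _ hs ht
    · exact main _ _ hs ht
  · rcases ht with ht | ht
    · exact main _ _ hs ht
    · exact main _ _ hs ht

/-- the hypotheses on attachments give a function `ρ` -/
theorem T1Facts.exists_rho (hG : Cub G) (hc : Nice G c) (hF : T1Facts G c) :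
    ∃ ρ, RhoOK G c ρ :=
  Pool.Agent.Work.MP_1e13ac_W.exists_rho hG hc (hF.hypS hG hc) (hF.hypDS hc)

theorem T1Facts.q0_free (hG : Cub G) (hc : Nice G c) (hF : T1Facts G c) {ρ : V → V}
    (hρ : RhoOK G c ρ) (D : Finset V) (hD : ∀ x ∈ D, FreeR G c ρ x) :
    3 * lev c + D.card ≤ (Qs G c 0).card :=
  Pool.Agent.Work.MP_1e13ac_W.q0_free hG hc hF.rule1 hρ (hF.hypTT hG hc) D hD

/-! ## World 2 -/

theorem World2.t1facts (hG : Cub G) (hW : World2 G c k) : T1Facts G c := by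
  refine ⟨hW.rule1 hG, ?_, ?_, ?_, ?_⟩
  · intro z₁ h1 z₂ h2 hne hm p hp hp1 hp2
    exact hW.diamond hG h1 h2 hne hm hp hp1 hp2
  · intro e hE
    obtain ⟨u, i, hi, hu⟩ := ex_of_card (hW.certG hG [0] 1 (by simp) cP1_ok hE)
    rw [List.mem_singleton] at hi
    subst hi
    exact ⟨u, hu⟩
  · intro e hE
    obtain ⟨u, i, hi, hu⟩ := ex_of_card (hW.certG hG [0, 6] 1 (by simp) cDSP_ok hE)
    simp only [List.mem_cons, List.not_mem_nil, or_false] at hi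
    rcases hi with rfl | rfl
    · exact ⟨u, Or.inl hu⟩
    · exact ⟨u, Or.inr hu⟩
  · intro e hE
    obtain ⟨u, w, huw, ⟨i, hi, hu⟩, j, hj, hw⟩ :=
      ex2_of_card (hW.certG hG [0, 1] 2 (by simp) cTT2_ok hE)
    simp only [List.mem_cons, List.not_mem_nil, or_false] at hi hj
    refine ⟨u, w, huw, ?_, ?_⟩
    · rcases hi with rfl | rfl
      · exact Or.inl hu
      · exact Or.inr hu
    · rcases hj with rfl | rfl
      · exact Or.inl hw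
      · exact Or.inr hw

theorem World2.exists_rho (hG : Cub G) (hW : World2 G c k) : ∃ ρ, RhoOK G c ρ :=
  (hW.t1facts hG).exists_rho hG hW.nice

/-- there are at least `6 k + |D|` sources when the vertices of `D` are free -/
theorem World2.q0_free (hG : Cub G) (hW : World2 G c k) {ρ : V → V} (hρ : RhoOK G c ρ)
    (D : Finset V) (hF : ∀ x ∈ D, FreeR G c ρ x) : 6 * k + D.card ≤ (Qs G c 0).card := by
  have h := (hW.t1facts hG).q0_free hG hW.nice hρ D hF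
  rw [hW.lev2] at h
  omega

end

end Pool.Agent.Work.MP_1e13ac_W
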