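import Pool.Agent.Work.MP_1e13ac_W.L2Gen
import Pool.Agent.Work.MP_1e13ac_W.T1Glue
import Pool.Agent.Work.MP_1e13ac_W.C2Blk

/-!
# MP_1e13ac_co, World 2: blocks `C4` and their outer vertices (helper87)
-/

set_option autoImplicit false
set_option linter.unusedSectionVars false

namespace Pool.Agent.Work.MP_1e13ac_W

open Classical Finset Pool.Agent.Work.MP_1e13ac_Bis

noncomputable section

variable {V : Type} [Fintype V] {G : SimpleGraph V} {c : V → Bool} {k : ℕ}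

/-- block: the sources `b`, `x` have the same black neighbours `a`, `d`; the third neighbours `y`,
`y'` of `a`, `d` are in `W0`; the mates `b'`, `x'` of `b`, `x` are no sources -/
structure BK (G : SimpleGraph V) (c : V → Bool) (b b' x x' a d y y' : V) : Prop where
  mb : MA G c b b'
  mx : MA G c x x'
  cb : c b = true
  cx : c x = true
  ca : c a = false
  cd : c d = false
  ba : G.Adj b a
  bd : G.Adj b d
  xa : G.Adj x a
  xd : G.Adj x d
  ay : G.Adj a y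
  dy : G.Adj d y'
  bx : b ≠ x
  ad : a ≠ d
  b'x : b' ≠ x
  wy : IsW0 G c y
  wy' : IsW0 G c y'
  hb' : ∃ h, G.Adj b' h ∧ IsB1 G c h
  hx' : ∃ h, G.Adj x' h ∧ IsB1 G c h

open CntAux T1C T1G

/-- a cubic vertex with three known neighbours -/
theorem nb3 (hG : Cub G) {v p q r : V} (hp : G.Adj v p) (hq : G.Adj v q) (hr : G.Adj v r)
    (hpq : p ≠ q) (hpr : p ≠ r) (hqr : q ≠ r) (w : V) (hw : G.Adj v w) :
    w = p ∨ w = q ∨ w = r := by
  have h1 : ({p, q, r} : Finset V).card = 3 := Finset.card_eq_three.2 ⟨p, q, r, hpq, hpr, hqr, rfl⟩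
  have h2 : ({p, q, r} : Finset V) ⊆ nbs G v := by
    intro t ht
    simp only [Finset.mem_insert, Finset.mem_singleton] at ht
    rw [mem_nbs]
    rcases ht with rfl | rfl | rfl
    · exact hp
    · exact hq
    · exact hr
  have h3 := Finset.eq_of_subset_of_card_le h2 (by rw [h1, hG v])
  have h4 : w ∈ ({p, q, r} : Finset V) := by rw [h3, mem_nbs]; exact hw
  simpa using h4

theorem md0_of {v : V} (h : ∀ w, G.Adj v w → c w ≠ c v) : md G c v = 0 := by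
  unfold md
  rw [Finset.card_eq_zero, Finset.filter_eq_empty_iff]
  intro w _ hw
  exact h w hw.1 hw.2.symm

section B

variable {b b' x x' a d y y' : V}

namespace BK

theorem cb' (h : BK G c b b' x x' a d y y') : c b' = true := MAc h.mb h.cb

theorem cx' (h : BK G c b b' x x' a d y y') : c x' = true := MAc h.mx h.cx

theorem wb (hc : Nice G c) (h : BK G c b b' x x' a d y y') : IsW1 G c b :=
  ⟨h.cb, ma_md hc h.mb⟩

theorem wx (hc : Nice G c) (h : BK G c b b' x x' a d y y') : IsW1 G c x :=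
  ⟨h.cx, ma_md hc h.mx⟩

theorem wb' (hc : Nice G c) (h : BK G c b b' x x' a d y y') : IsW1 G c b' :=
  ⟨h.cb', ma_md hc (ma_symm h.mb)⟩

theorem wx' (hc : Nice G c) (h : BK G c b b' x x' a d y y') : IsW1 G c x' :=
  ⟨h.cx', ma_md hc (ma_symm h.mx)⟩

theorem w0w1 {u v : V} (hu : IsW0 G c u) (hv : IsW1 G c v) : u ≠ v := by
  rintro rfl
  have h1 := hu.2
  have h2 := hv.2
  omega

theorem yb (hc : Nice G c) (h : BK G c b b' x x' a d y y') : y ≠ b := w0w1 h.wy (h.wb hc)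

theorem yx (hc : Nice G c) (h : BK G c b b' x x' a d y y') : y ≠ x := w0w1 h.wy (h.wx hc)

theorem bx' (hc : Nice G c) (h : BK G c b b' x x' a d y y') : b ≠ x' :=
  (ne_of_mates hc h.mb h.mx h.bx h.b'x).1

theorem b'x' (hc : Nice G c) (h : BK G c b b' x x' a d y y') : b' ≠ x' :=
  (ne_of_mates hc h.mb h.mx h.bx h.b'x).2

theorem swap1 (hc : Nice G c) (h : BK G c b b' x x' a d y y') : BK G c x x' b b' a d y y' where
  mb := h.mx
  mx := h.mb
  cb := h.cx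
  cx := h.cb
  ca := h.ca
  cd := h.cd
  ba := h.xa
  bd := h.xd
  xa := h.ba
  xd := h.bd
  ay := h.ay
  dy := h.dy
  bx := h.bx.symm
  ad := h.ad
  b'x := (h.bx' hc).symm
  wy := h.wy
  wy' := h.wy'
  hb' := h.hx'
  hx' := h.hb'

theorem swap2 (h : BK G c b b' x x' a d y y') : BK G c b b' x x' d a y' y where
  mb := h.mb
  mx := h.mx
  cb := h.cb
  cx := h.cx
  ca := h.cd
  cd := h.ca
  ba := h.bd
  bd := h.ba
  xa := h.xd
  xd := h.xa
  ay := h.dy
  dy := h.ay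
  bx := h.bx
  ad := h.ad.symm
  b'x := h.b'x
  wy := h.wy'
  wy' := h.wy
  hb' := h.hb'
  hx' := h.hx'

theorem ne_wb {u v : V} (hu : c u = true) (hv : c v = false) : u ≠ v := by
  rintro rfl
  rw [hu] at hv
  exact absurd hv (by simp)

theorem nb_a (hG : Cub G) (hc : Nice G c) (h : BK G c b b' x x' a d y y') (w : V)
    (hw : G.Adj a w) : w = b ∨ w = x ∨ w = y :=
  nb3 hG h.ba.symm h.xa.symm h.ay h.bx (h.yb hc).symm (h.yx hc).symm w hw

theorem nb_d (hG : Cub G) (hc : Nice G c) (h : BK G c b b' x x' a d y y') (w : V)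
    (hw : G.Adj d w) : w = b ∨ w = x ∨ w = y' :=
  h.swap2.nb_a hG hc w hw

theorem nb_b (hG : Cub G) (h : BK G c b b' x x' a d y y') (w : V)
    (hw : G.Adj b w) : w = b' ∨ w = a ∨ w = d :=
  nb3 hG h.mb.1 h.ba h.bd (ne_wb h.cb' h.ca) (ne_wb h.cb' h.cd) h.ad w hw

theorem nb_x (hG : Cub G) (h : BK G c b b' x x' a d y y') (w : V)
    (hw : G.Adj x w) : w = x' ∨ w = a ∨ w = d :=
  nb3 hG h.mx.1 h.xa h.xd (ne_wb h.cx' h.ca) (ne_wb h.cx' h.cd) h.ad w hw

theorem md_a (hG : Cub G) (hc : Nice G c) (h : BK G c b b' x x' a d y y') : md G c a = 0 := by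
  refine md0_of fun w hw => ?_
  rw [h.ca]
  rcases h.nb_a hG hc w hw with rfl | rfl | rfl
  · rw [h.cb]; simp
  · rw [h.cx]; simp
  · rw [h.wy.1]; simp

theorem md_d (hG : Cub G) (hc : Nice G c) (h : BK G c b b' x x' a d y y') : md G c d = 0 :=
  h.swap2.md_a hG hc

theorem B1a (hG : Cub G) (hc : Nice G c) (h : BK G c b b' x x' a d y y') {u : V}
    (hu : IsB1 G c u) : u ≠ a := by
  rintro rfl
  have := h.md_a hG hc
  have := hu.2
  omega

theorem B1d (hG : Cub G) (hc : Nice G c) (h : BK G c b b' x x' a d y y') {u : V}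
    (hu : IsB1 G c u) : u ≠ d := h.swap2.B1a hG hc hu

/-- a vertex of `B1` is not adjacent to `b` -/
theorem nB1b (hG : Cub G) (hc : Nice G c) (h : BK G c b b' x x' a d y y') {u : V}
    (hu : IsB1 G c u) : ¬ G.Adj u b := by
  intro hub
  rcases h.nb_b hG u hub.symm with e | e | e
  · have := h.cb'
    rw [← e, hu.1] at this
    exact absurd this (by simp)
  · exact h.B1a hG hc hu e
  · exact h.B1d hG hc hu e

theorem nB1x (hG : Cub G) (hc : Nice G c) (h : BK G c b b' x x' a d y y') {u : V}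
    (hu : IsB1 G c u) : ¬ G.Adj u x := (h.swap1 hc).nB1b hG hc hu

end BK

open BK

theorem World2.blk_yy (hG : Cub G) (hW : World2 G c k) (h : BK G c b b' x x' a d y y') :
    y ≠ y' := by
  rintro rfl
  have hc := hW.nice
  refine hW.cert hG cK23_ok (e := fun i => [b, b', x, x', a, d, y].getD i b) ?_
  refine emb_mk hc [b, b', x, x', a, d, y] b
    [(0, 1), (2, 3), (0, 4), (0, 5), (2, 4), (2, 5), (4, 6), (5, 6)]
    [(0, 2), (0, 3), (1, 2), (1, 3), (4, 5)] [4, 5, 6] rfl (by decide) ?_ ?_ ?_ ?_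
  · simp [h.mb.1, h.mx.1, h.ba, h.bd, h.xa, h.xd, h.ay, h.dy]
  · simp [h.bx, h.bx' hc, h.b'x, h.b'x' hc, h.ad]
  · simp [h.md_a hG hc, h.md_d hG hc, h.wy.2]
  · simp [h.cb, h.cb', h.cx, h.cx', h.ca, h.cd, h.wy.1]
    decide

/-- a neighbour `h ∈ B1` of an outer vertex has no other neighbour in `W1` than `b'`, `x'` -/
theorem World2.blk_X1 (hG : Cub G) (hW : World2 G c k) (h : BK G c b b' x x' a d y y')
    {u w : V} (hu : IsB1 G c u) (hyu : G.Adj y u) (huw : G.Adj u w) (hw : IsW1 G c w) :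
    w = b' ∨ w = x' := by
  have hc := hW.nice
  by_contra hcon
  push Not at hcon
  obtain ⟨n1, n2⟩ := hcon
  obtain ⟨u', huu'⟩ := mate_exists hu.2
  obtain ⟨w', hww'⟩ := mate_exists hw.2
  have cu' := MAc huu' hu.1
  have cw' := MAc hww' hw.1
  have n3 : b ≠ w := by
    rintro rfl
    exact h.nB1b hG hc hu huw
  have n4 : x ≠ w := by
    rintro rfl
    exact h.nB1x hG hc hu huw
  obtain ⟨n5, n6⟩ := ne_of_mates hc h.mb hww' n3 n1.symm
  obtain ⟨n7, n8⟩ := ne_of_mates hc h.mx hww' n4 n2.symm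
  refine hW.cert hG cX1_ok (e := fun i => [b, b', x, x', a, d, y, u, u', w, w'].getD i b) ?_
  refine emb_mk hc [b, b', x, x', a, d, y, u, u', w, w'] b
    [(0, 1), (2, 3), (0, 4), (0, 5), (2, 4), (2, 5), (4, 6), (6, 7), (7, 8), (7, 9), (9, 10)]
    [(0, 2), (0, 3), (1, 2), (1, 3), (4, 5), (0, 9), (0, 10), (1, 9), (1, 10), (2, 9), (2, 10),
      (3, 9), (3, 10)] [4, 5, 6] rfl (by decide) ?_ ?_ ?_ ?_
  · simp [h.mb.1, h.mx.1, h.ba, h.bd, h.xa, h.xd, h.ay, hyu, huu'.1, huw, hww'.1]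
  · simp [h.bx, h.bx' hc, h.b'x, h.b'x' hc, h.ad, n1.symm, n2.symm, n3, n4, n5, n6, n7, n8]
  · simp [h.md_a hG hc, h.md_d hG hc, h.wy.2]
  · simp [h.cb, h.cb', h.cx, h.cx', h.ca, h.cd, h.wy.1, hu.1, cu', hw.1, cw']
    decide

theorem World2.blk_F3 (hG : Cub G) (hW : World2 G c k) (h : BK G c b b' x x' a d y y')
    {u v : V} (hu : IsB1 G c u) (hv : IsB1 G c v) (huv : u ≠ v) (hm : ¬ MA G c u v)
    (h1 : G.Adj y u) (h2 : G.Adj y v) (h3 : G.Adj b' u) (h4 : G.Adj b' v) : False := by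
  have hc := hW.nice
  obtain ⟨u', huu'⟩ := mate_exists hu.2
  obtain ⟨v', hvv'⟩ := mate_exists hv.2
  have cu' := MAc huu' hu.1
  have cv' := MAc hvv' hv.1
  have n1 : u' ≠ v := by
    rintro rfl
    exact hm huu'
  obtain ⟨n2, n3⟩ := ne_of_mates hc huu' hvv' huv n1
  refine hW.cert hG cF3_ok (e := fun i => [b, b', x, x', a, d, y, u, u', v, v'].getD i b) ?_
  refine emb_mk hc [b, b', x, x', a, d, y, u, u', v, v'] b
    [(0, 1), (2, 3), (0, 4), (0, 5), (2, 4), (2, 5), (4, 6), (6, 7), (7, 8), (6, 9), (9, 10),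
      (1, 7), (1, 9)]
    [(0, 2), (0, 3), (1, 2), (1, 3), (4, 5), (7, 9), (7, 10), (8, 9), (8, 10)] [4, 5, 6] rfl
    (by decide) ?_ ?_ ?_ ?_
  · simp [h.mb.1, h.mx.1, h.ba, h.bd, h.xa, h.xd, h.ay, h1, huu'.1, h2, hvv'.1, h3, h4]
  · simp [h.bx, h.bx' hc, h.b'x, h.b'x' hc, h.ad, huv, n1, n2, n3]
  · simp [h.md_a hG hc, h.md_d hG hc, h.wy.2]
  · simp [h.cb, h.cb', h.cx, h.cx', h.ca, h.cd, h.wy.1, hu.1, cu', hv.1, cv']
    decide

theorem World2.blk_F4 (hG : Cub G) (hW : World2 G c k) (h : BK G c b b' x x' a d y y')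
    {u v : V} (hu : IsB1 G c u) (hv : IsB1 G c v) (huv : u ≠ v) (hm : ¬ MA G c u v)
    (h1 : G.Adj y u) (h2 : G.Adj y v) (h3 : G.Adj b' u) (h4 : G.Adj x' v) : False := by
  have hc := hW.nice
  obtain ⟨u', huu'⟩ := mate_exists hu.2
  obtain ⟨v', hvv'⟩ := mate_exists hv.2
  have cu' := MAc huu' hu.1
  have cv' := MAc hvv' hv.1
  have n1 : u' ≠ v := by
    rintro rfl
    exact hm huu'
  obtain ⟨n2, n3⟩ := ne_of_mates hc huu' hvv' huv n1
  refine hW.cert hG cF4_ok (e := fun i => [b, b', x, x', a, d, y, u, u', v, v'].getD i b) ?_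
  refine emb_mk hc [b, b', x, x', a, d, y, u, u', v, v'] b
    [(0, 1), (2, 3), (0, 4), (0, 5), (2, 4), (2, 5), (4, 6), (6, 7), (7, 8), (6, 9), (9, 10),
      (1, 7), (3, 9)]
    [(0, 2), (0, 3), (1, 2), (1, 3), (4, 5), (7, 9), (7, 10), (8, 9), (8, 10)] [4, 5, 6] rfl
    (by decide) ?_ ?_ ?_ ?_
  · simp [h.mb.1, h.mx.1, h.ba, h.bd, h.xa, h.xd, h.ay, h1, huu'.1, h2, hvv'.1, h3, h4]
  · simp [h.bx, h.bx' hc, h.b'x, h.b'x' hc, h.ad, huv, n1, n2, n3]
  · simp [h.md_a hG hc, h.md_d hG hc, h.wy.2]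
  · simp [h.cb, h.cb', h.cx, h.cx', h.ca, h.cd, h.wy.1, hu.1, cu', hv.1, cv']
    decide

theorem World2.blk_F5 (hG : Cub G) (hW : World2 G c k) (h : BK G c b b' x x' a d y y')
    {u v : V} (hu : IsB1 G c u) (hv : IsB1 G c v) (huv : u ≠ v) (hm : ¬ MA G c u v)
    (h1 : G.Adj y u) (h2 : G.Adj b' u) (h3 : G.Adj y' v) (h4 : G.Adj b' v) : False := by
  have hc := hW.nice
  obtain ⟨u', huu'⟩ := mate_exists hu.2
  obtain ⟨v', hvv'⟩ := mate_exists hv.2
  have cu' := MAc huu' hu.1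
  have cv' := MAc hvv' hv.1
  have n1 : u' ≠ v := by
    rintro rfl
    exact hm huu'
  obtain ⟨n2, n3⟩ := ne_of_mates hc huu' hvv' huv n1
  have hyy := hW.blk_yy hG h
  refine hW.cert hG cF5_ok (e := fun i => [b, b', x, x', a, d, y, y', u, u', v, v'].getD i b) ?_
  refine emb_mk hc [b, b', x, x', a, d, y, y', u, u', v, v'] b
    [(0, 1), (2, 3), (0, 4), (0, 5), (2, 4), (2, 5), (4, 6), (5, 7), (6, 8), (8, 9), (1, 8),
      (7, 10), (10, 11), (1, 10)]
    [(0, 2), (0, 3), (1, 2), (1, 3), (4, 5), (6, 7), (8, 10), (8, 11), (9, 10), (9, 11)]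
    [4, 5, 6, 7] rfl (by decide) ?_ ?_ ?_ ?_
  · simp [h.mb.1, h.mx.1, h.ba, h.bd, h.xa, h.xd, h.ay, h.dy, h1, huu'.1, h2, hvv'.1, h3, h4]
  · simp [h.bx, h.bx' hc, h.b'x, h.b'x' hc, h.ad, huv, n1, n2, n3, hyy]
  · simp [h.md_a hG hc, h.md_d hG hc, h.wy.2, h.wy'.2]
  · simp [h.cb, h.cb', h.cx, h.cx', h.ca, h.cd, h.wy.1, h.wy'.1, hu.1, cu', hv.1, cv']
    decide

theorem World2.blk_F6s (hG : Cub G) (hW : World2 G c k) (h : BK G c b b' x x' a d y y')
    {u : V} (hu : IsB1 G c u) (h1 : G.Adj y u) (h2 : G.Adj y' u) : False := by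
  have hc := hW.nice
  obtain ⟨u', huu'⟩ := mate_exists hu.2
  have cu' := MAc huu' hu.1
  have hyy := hW.blk_yy hG h
  refine hW.cert hG cF6s_ok (e := fun i => [b, b', x, x', a, d, y, y', u, u'].getD i b) ?_
  refine emb_mk hc [b, b', x, x', a, d, y, y', u, u'] b
    [(0, 1), (2, 3), (0, 4), (0, 5), (2, 4), (2, 5), (4, 6), (5, 7), (6, 8), (8, 9), (7, 8)]
    [(0, 2), (0, 3), (1, 2), (1, 3), (4, 5), (6, 7)]
    [4, 5, 6, 7] rfl (by decide) ?_ ?_ ?_ ?_
  · simp [h.mb.1, h.mx.1, h.ba, h.bd, h.xa, h.xd, h.ay, h.dy, h1, huu'.1, h2]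
  · simp [h.bx, h.bx' hc, h.b'x, h.b'x' hc, h.ad, hyy]
  · simp [h.md_a hG hc, h.md_d hG hc, h.wy.2, h.wy'.2]
  · simp [h.cb, h.cb', h.cx, h.cx', h.ca, h.cd, h.wy.1, h.wy'.1, hu.1, cu']
    decide

/-- every outer vertex has a neighbour in `B1` -/
theorem World2.blk_n1 (hG : Cub G) (hW : World2 G c k) (h : BK G c b b' x x' a d y y') :
    ∃ u, G.Adj y u ∧ IsB1 G c u := by
  have hc := hW.nice
  by_contra hcon
  push Not at hcon
  have hy := h.wy
  -- the two other neighbours of `y`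
  obtain ⟨p, q, hp, hq, hpq, hpa, hqa⟩ : ∃ p q, G.Adj y p ∧ G.Adj y q ∧ p ≠ q ∧ p ≠ a ∧ q ≠ a := by
    have h1 : ((nbs G y).erase a).card = 2 := by
      rw [Finset.card_erase_of_mem (mem_nbs.2 h.ay.symm), hG y]
    obtain ⟨p, q, hpq, he⟩ := Finset.card_eq_two.1 h1
    have hp : p ∈ (nbs G y).erase a := by rw [he]; simp
    have hq : q ∈ (nbs G y).erase a := by rw [he]; simp
    rw [Finset.mem_erase, mem_nbs] at hp hq
    exact ⟨p, q, hp.2, hq.2, hpq, hp.1, hq.1⟩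
  have col : ∀ p, G.Adj y p → c p = false := by
    intro p hp
    by_contra hh
    have : c p = true := by simpa using hh
    have h1 : MA G c y p := ⟨hp, by rw [hy.1, this]⟩
    have h2 := ma_md hc h1
    have h3 := hy.2
    omega
  have m0 : ∀ p, G.Adj y p → md G c p = 0 := by
    intro p hp
    have h1 := hcon p hp
    have h2 := hc p
    by_contra hh
    exact h1 ⟨col p hp, by omega⟩
  have ed : ∀ p, G.Adj y p → p ≠ d := by
    rintro p hp rfl
    rcases h.nb_d hG hc y hp.symm with e | e | e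
    · exact h.yb hc e
    · exact h.yx hc e
    · exact hW.blk_yy hG h e
  obtain ⟨u, hu1, hu⟩ := h.hb'
  obtain ⟨v, hv1, hv⟩ := h.hx'
  obtain ⟨u', huu'⟩ := mate_exists hu.2
  obtain ⟨v', hvv'⟩ := mate_exists hv.2
  have cu' := MAc huu' hu.1
  have cv' := MAc hvv' hv.1
  have huv : u ≠ v := by
    rintro rfl
    have h1 := hW.rule1 hG u b' x' hu hu1.symm hv1.symm (h.b'x' hc) (h.wb' hc) (h.wx' hc)
    have h2 : MA G c b' x' := ⟨h1, by rw [h.cb', h.cx']⟩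
    exact h.bx' hc (nice_uniq hc (ma_symm h.mb) h2)
  by_cases hm : MA G c u v
  · refine hW.cert hG cF1c_ok (e := fun i => [b, b', x, x', a, d, y, p, q, u, v].getD i b) ?_
    refine emb_mk hc [b, b', x, x', a, d, y, p, q, u, v] b
      [(0, 1), (2, 3), (0, 4), (0, 5), (2, 4), (2, 5), (4, 6), (6, 7), (6, 8), (1, 9), (9, 10),
        (3, 10)]
      [(0, 2), (0, 3), (1, 2), (1, 3), (4, 5), (4, 7), (4, 8), (5, 7), (5, 8), (7, 8)]
      [4, 5, 6, 7, 8] rfl (by decide) ?_ ?_ ?_ ?_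
    · simp [h.mb.1, h.mx.1, h.ba, h.bd, h.xa, h.xd, h.ay, hp, hq, hu1, hm.1, hv1]
    · simp [h.bx, h.bx' hc, h.b'x, h.b'x' hc, h.ad, hpa.symm, hqa.symm, (ed p hp).symm,
        (ed q hq).symm, hpq]
    · simp [h.md_a hG hc, h.md_d hG hc, h.wy.2, m0 p hp, m0 q hq]
    · simp [h.cb, h.cb', h.cx, h.cx', h.ca, h.cd, h.wy.1, hu.1, hv.1, col p hp, col q hq]
      decide
  · have n1 : u' ≠ v := by
      rintro rfl
      exact hm huu'
    obtain ⟨n2, n3⟩ := ne_of_mates hc huu' hvv' huv n1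
    refine hW.cert hG cF1a_ok
      (e := fun i => [b, b', x, x', a, d, y, p, q, u, u', v, v'].getD i b) ?_
    refine emb_mk hc [b, b', x, x', a, d, y, p, q, u, u', v, v'] b
      [(0, 1), (2, 3), (0, 4), (0, 5), (2, 4), (2, 5), (4, 6), (6, 7), (6, 8), (1, 9), (9, 10),
        (3, 11), (11, 12)]
      [(0, 2), (0, 3), (1, 2), (1, 3), (4, 5), (4, 7), (4, 8), (5, 7), (5, 8), (7, 8), (9, 11),
        (9, 12), (10, 11), (10, 12)]
      [4, 5, 6, 7, 8] rfl (by decide) ?_ ?_ ?_ ?_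
    · simp [h.mb.1, h.mx.1, h.ba, h.bd, h.xa, h.xd, h.ay, hp, hq, hu1, huu'.1, hv1, hvv'.1]
    · simp [h.bx, h.bx' hc, h.b'x, h.b'x' hc, h.ad, hpa.symm, hqa.symm, (ed p hp).symm,
        (ed q hq).symm, hpq, huv, n1, n2, n3]
    · simp [h.md_a hG hc, h.md_d hG hc, h.wy.2, m0 p hp, m0 q hq]
    · simp [h.cb, h.cb', h.cx, h.cx', h.ca, h.cd, h.wy.1, hu.1, hv.1, cu', cv', col p hp,
        col q hq]
      decide

end B

end

end Pool.Agent.Work.MP_1e13ac_W
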