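import Pool.Agent.Work.MP_1e13ac_W.Blk
import Pool.Agent.Work.MP_1e13ac_W.C2BlkPA

/-!
# MP_1e13ac_co, World 2: impossible surroundings of blocks (helper87)
-/

set_option autoImplicit false
set_option linter.unusedSectionVars false

namespace Pool.Agent.Work.MP_1e13ac_W

open Classical Finset Pool.Agent.Work.MP_1e13ac_Bis

noncomputable section

variable {V : Type} [Fintype V] {G : SimpleGraph V} {c : V → Bool} {k : ℕ}

open CntAux T1C T1G BK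

/-- the top of a T1 has no neighbour in `W0` -/
theorem notop_W0 (hG : Cub G) (hc : Nice G c) {y u : V} (hy : IsW0 G c y) (h : G.Adj y u) :
    u ∉ T1s G c := by
  intro hu
  obtain ⟨p, q, h1, h2, h3, h4, h5⟩ := T1_vs hc hu
  obtain ⟨u', hm⟩ := mate_exists (T1_B1 hu).2
  have cu' := MAc hm (T1_B1 hu).1
  rcases nb3 hG hm.1 h1 h2 (ne_wb h4.1 cu').symm (ne_wb h5.1 cu').symm h3.1.ne y h.symm with
    e | e | e
  · rw [e, IsW0, cu'] at hy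
    exact absurd hy.1 (by simp)
  · exact w0w1 hy h4 e
  · exact w0w1 hy h5 e

/-- pairs of `B1`: the first vertices are no tops -/
theorem pairBT (hc : Nice G c) {u u' t z : V} (hu : MA G c u u') (ht : MA G c z t) (hut : u ≠ t)
    (hz : z ∈ T1s G c) (hun : u ∉ T1s G c) : u ≠ z ∧ u' ≠ t ∧ u' ≠ z := by
  refine ⟨fun e => hun (e ▸ hz), ?_, ?_⟩
  · rintro rfl
    exact hun (nice_uniq hc (ma_symm ht) (ma_symm hu) ▸ hz)
  · rintro rfl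
    exact hut (nice_uniq hc (ma_symm hu) ht)

section B

variable {b b' x x' a d y y' : V}

namespace BK

/-- the two white vertices of a T1 do not belong to the block -/
theorem T1w (hG : Cub G) (hc : Nice G c) (h : BK G c b b' x x' a d y y') {z r s : V}
    (hz : IsB1 G c z) (hr : G.Adj z r) (hs : G.Adj z s) (hrs : MA G c r s) :
    b ≠ r ∧ b' ≠ r ∧ x ≠ r ∧ x' ≠ r := by
  refine ⟨?_, ?_, ?_, ?_⟩
  · rintro rfl
    exact h.nB1b hG hc hz hr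
  · rintro rfl
    exact h.nB1b hG hc hz (nice_uniq hc hrs (ma_symm h.mb) ▸ hs)
  · rintro rfl
    exact h.nB1x hG hc hz hr
  · rintro rfl
    exact h.nB1x hG hc hz (nice_uniq hc hrs (ma_symm h.mx) ▸ hs)

theorem notop_b' (hG : Cub G) (hc : Nice G c) (h : BK G c b b' x x' a d y y') {u : V}
    (hu : G.Adj b' u) : u ∉ T1s G c := by
  intro hT
  obtain ⟨p, q, h1, h2, h3, h4, h5⟩ := T1_vs hc hT
  obtain ⟨u', hm⟩ := mate_exists (T1_B1 hT).2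
  have cu' := MAc hm (T1_B1 hT).1
  rcases nb3 hG hm.1 h1 h2 (ne_wb h4.1 cu').symm (ne_wb h5.1 cu').symm h3.1.ne b' hu.symm with
    e | e | e
  · have := h.cb'
    rw [e, cu'] at this
    exact absurd this (by simp)
  · exact (h.T1w hG hc (T1_B1 hT) h1 h2 h3).2.1 e
  · exact (h.T1w hG hc (T1_B1 hT) h2 h1 (ma_symm h3)).2.1 e

theorem b'_na (hG : Cub G) (hc : Nice G c) (h : BK G c b b' x x' a d y y') {q : V}
    (hq : G.Adj b' q) : q ≠ a := by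
  rintro rfl
  rcases h.nb_a hG hc b' hq.symm with e | e | e
  · exact h.mb.1.ne e.symm
  · exact h.b'x e
  · exact w0w1 h.wy (h.wb' hc) e.symm

theorem b'_nd (hG : Cub G) (hc : Nice G c) (h : BK G c b b' x x' a d y y') {q : V}
    (hq : G.Adj b' q) : q ≠ d := h.swap2.b'_na hG hc hq

end BK

theorem World2.y_nd (hG : Cub G) (hW : World2 G c k) (h : BK G c b b' x x' a d y y') {q : V}
    (hq : G.Adj y q) : q ≠ d := by
  rintro rfl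
  rcases h.nb_d hG hW.nice y hq.symm with e | e | e
  · exact h.yb hW.nice e
  · exact h.yx hW.nice e
  · exact hW.blk_yy hG h e

/-- `b'` and `x'` have no common neighbour in `B1` -/
theorem World2.b'x'_nc (hG : Cub G) (hW : World2 G c k) (h : BK G c b b' x x' a d y y')
    {u : V} (hu : IsB1 G c u) (h1 : G.Adj b' u) (h2 : G.Adj x' u) : False := by
  have hc := hW.nice
  have h1 := hW.rule1 hG u b' x' hu h1.symm h2.symm (h.b'x' hc) (h.wb' hc) (h.wx' hc)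
  have h2 : MA G c b' x' := ⟨h1, by rw [h.cb', h.cx']⟩
  exact h.bx' hc (nice_uniq hc (ma_symm h.mb) h2)

/-- white vertices of different T1 -/
theorem World2.ww (hG : Cub G) (hW : World2 G c k) {z w r s : V} (hz : z ∈ T1s G c)
    (hw : w ∈ T1s G c) (hne : z ≠ w) (hm : ¬ MA G c z w) (hr : G.Adj z r) (hr' : IsW1 G c r)
    (hs : G.Adj w s) : r ≠ s := by
  rintro rfl
  exact hW.diamond hG hz hw hne hm hr' hr hs

theorem nomate_tops (hc : Nice G c) {z w t : V} (ht : MA G c z t) (htn : t ∉ T1s G c)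
    (hw : w ∈ T1s G c) : ¬ MA G c z w := fun h => htn (nice_uniq hc ht h ▸ hw)

theorem World2.blk_C1 (hG : Cub G) (hW : World2 G c k) (h : BK G c b b' x x' a d y y')
    {u p q : V} (hu : IsB1 G c u) (h1 : G.Adj y u) (h2 : G.Adj b' u)
    (h3 : G.Adj y p) (hp : IsB0 G c p) (hpa : p ≠ a) (h4 : G.Adj b' q) (hq : IsB0 G c q)
    (hpq : p ≠ q) : False := by
  have hc := hW.nice
  obtain ⟨u', huu'⟩ := mate_exists hu.2
  have cu' := MAc huu' hu.1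
  refine hW.cert hG cC1_ok (e := fun i => [b, b', x, x', a, d, y, u, u', p, q].getD i b) ?_
  refine emb_mk hc [b, b', x, x', a, d, y, u, u', p, q] b
    [(0, 1), (2, 3), (0, 4), (0, 5), (2, 4), (2, 5), (4, 6), (6, 7), (7, 8), (6, 9), (1, 7),
      (1, 10)]
    [(0, 2), (0, 3), (1, 2), (1, 3), (4, 5), (4, 9), (5, 9), (4, 10), (5, 10), (9, 10)]
    [4, 5, 6, 9, 10] rfl (by decide) ?_ ?_ ?_ ?_
  · simp [h.mb.1, h.mx.1, h.ba, h.bd, h.xa, h.xd, h.ay, h1, huu'.1, h2, h3, h4]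
  · simp [h.bx, h.bx' hc, h.b'x, h.b'x' hc, h.ad, hpa.symm, (hW.y_nd hG h h3).symm,
      (h.b'_na hG hc h4).symm, (h.b'_nd hG hc h4).symm, hpq]
  · simp [h.md_a hG hc, h.md_d hG hc, h.wy.2, hp.2, hq.2]
  · simp [h.cb, h.cb', h.cx, h.cx', h.ca, h.cd, h.wy.1, hu.1, cu', hp.1, hq.1]
    decide

theorem World2.blk_F4Q (hG : Cub G) (hW : World2 G c k) (h : BK G c b b' x x' a d y y')
    {u v q : V} (huv : MA G c u v) (cu : c u = false) (h1 : G.Adj y u) (h2 : G.Adj y v)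
    (h3 : G.Adj b' u) (h4 : G.Adj x' v) (h5 : G.Adj b' q) (hq : IsB0 G c q) : False := by
  have hc := hW.nice
  have cv := MAc huv cu
  refine hW.cert hG cF4Q_ok (e := fun i => [b, b', x, x', a, d, y, u, v, q].getD i b) ?_
  refine emb_mk hc [b, b', x, x', a, d, y, u, v, q] b
    [(0, 1), (2, 3), (0, 4), (0, 5), (2, 4), (2, 5), (4, 6), (6, 7), (7, 8), (6, 8), (1, 7),
      (3, 8), (1, 9)]
    [(0, 2), (0, 3), (1, 2), (1, 3), (4, 5), (4, 9), (5, 9)]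
    [4, 5, 6, 9] rfl (by decide) ?_ ?_ ?_ ?_
  · simp [h.mb.1, h.mx.1, h.ba, h.bd, h.xa, h.xd, h.ay, h1, huv.1, h2, h3, h4, h5]
  · simp [h.bx, h.bx' hc, h.b'x, h.b'x' hc, h.ad, (h.b'_na hG hc h5).symm,
      (h.b'_nd hG hc h5).symm]
  · simp [h.md_a hG hc, h.md_d hG hc, h.wy.2, hq.2]
  · simp [h.cb, h.cb', h.cx, h.cx', h.ca, h.cd, h.wy.1, cu, cv, hq.1]
    decide

theorem World2.blk_F4A (hG : Cub G) (hW : World2 G c k) (h : BK G c b b' x x' a d y y')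
    {u v t z t' z' : V} (huv : MA G c u v) (cu : c u = false) (h1 : G.Adj y u) (h2 : G.Adj y v)
    (h3 : G.Adj b' u) (h4 : G.Adj x' v) (h5 : G.Adj b' t) (hz : z ∈ T1s G c) (hzt : MA G c z t)
    (h6 : G.Adj x' t') (hz' : z' ∈ T1s G c) (hzt' : MA G c z' t') : False := by
  have hc := hW.nice
  have cv := MAc huv cu
  obtain ⟨r, s, zr, zs, rs, hr, hs⟩ := T1_vs hc hz
  obtain ⟨r', s', zr', zs', rs', hr', hs'⟩ := T1_vs hc hz'
  have ht := mate_B1 hc hz hzt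
  have ht' := mate_B1 hc hz' hzt'
  have bz := T1_B1 hz
  have bz' := T1_B1 hz'
  have un := notop_W0 hG hc h.wy h1
  have vn := notop_W0 hG hc h.wy h2
  have tn := h.notop_b' hG hc h5
  have tn' := (h.swap1 hc).notop_b' hG hc h6
  have e1 : u ≠ t := by
    rintro rfl
    exact vn (nice_uniq hc huv (ma_symm hzt) ▸ hz)
  have e2 : u ≠ t' := by
    rintro rfl
    exact vn (nice_uniq hc huv (ma_symm hzt') ▸ hz')
  have e3 : t ≠ t' := by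
    rintro rfl
    exact hW.b'x'_nc hG h ht h5 h6
  obtain ⟨f1, f2, f3⟩ := pairBT hc huv hzt e1 hz un
  obtain ⟨f4, f5, f6⟩ := pairBT hc huv hzt' e2 hz' un
  obtain ⟨f7, f8, f9⟩ := pairBT hc (ma_symm hzt) hzt' e3 hz' tn
  have hm := nomate_tops hc hzt tn hz'
  obtain ⟨g1, g2, g3, g4⟩ := h.T1w hG hc bz zr zs rs
  obtain ⟨g5, g6, g7, g8⟩ := h.T1w hG hc bz zs zr (ma_symm rs)
  obtain ⟨g1', g2', g3', g4'⟩ := h.T1w hG hc bz' zr' zs' rs'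
  obtain ⟨g5', g6', g7', g8'⟩ := h.T1w hG hc bz' zs' zr' (ma_symm rs')
  have w1 := hW.ww hG hz hz' f9 hm zr hr zr'
  have w2 := hW.ww hG hz hz' f9 hm zr hr zs'
  have w3 := hW.ww hG hz hz' f9 hm zs hs zr'
  have w4 := hW.ww hG hz hz' f9 hm zs hs zs'
  refine hW.cert hG cF4A_ok
    (e := fun i => [b, b', x, x', a, d, y, u, v, t, z, r, s, t', z', r', s'].getD i b) ?_
  refine emb_mk hc [b, b', x, x', a, d, y, u, v, t, z, r, s, t', z', r', s'] b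
    [(0, 1), (2, 3), (0, 4), (0, 5), (2, 4), (2, 5), (4, 6), (6, 7), (7, 8), (6, 8), (1, 7),
      (3, 8), (1, 9), (9, 10), (10, 11), (10, 12), (11, 12), (3, 13), (13, 14), (14, 15),
      (14, 16), (15, 16)]
    [(0, 2), (0, 3), (1, 2), (1, 3), (4, 5), (0, 11), (0, 12), (1, 11), (1, 12), (2, 11),
      (2, 12), (3, 11), (3, 12), (0, 15), (0, 16), (1, 15), (1, 16), (2, 15), (2, 16), (3, 15),
      (3, 16), (11, 15), (11, 16), (12, 15), (12, 16), (7, 9), (7, 10), (8, 9), (8, 10),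
      (7, 13), (7, 14), (8, 13), (8, 14), (9, 13), (9, 14), (10, 13), (10, 14)]
    [4, 5, 6] rfl (by decide) ?_ ?_ ?_ ?_
  · simp [h.mb.1, h.mx.1, h.ba, h.bd, h.xa, h.xd, h.ay, h1, huv.1, h2, h3, h4, h5,
      hzt.1.symm, zr, zs, rs.1, h6, hzt'.1.symm, zr', zs', rs'.1]
  · simp [h.bx, h.bx' hc, h.b'x, h.b'x' hc, h.ad, g1, g2, g3, g4, g5, g6, g7, g8, g1', g2',
      g3', g4', g5', g6', g7', g8', w1, w2, w3, w4, e1, e2, e3, f1, f2, f3, f4, f5, f6, f7, f8,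
      f9]
  · simp [h.md_a hG hc, h.md_d hG hc, h.wy.2]
  · simp [h.cb, h.cb', h.cx, h.cx', h.ca, h.cd, h.wy.1, cu, cv, bz.1, bz'.1, ht.1, ht'.1,
      hr.1, hs.1, hr'.1, hs'.1]
    decide

theorem World2.blk_Sa (hG : Cub G) (hW : World2 G c k) (h : BK G c b b' x x' a d y y')
    {u q t z : V} (hu : IsB1 G c u) (h1 : G.Adj y u) (h2 : G.Adj b' u) (h3 : G.Adj b' q)
    (hq : IsB0 G c q) (h4 : G.Adj y t) (hz : z ∈ T1s G c) (hzt : MA G c z t) (hut : u ≠ t) :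
    ∃ r g, GenR G c z r g := by
  have hc := hW.nice
  obtain ⟨u', huu'⟩ := mate_exists hu.2
  have cu' := MAc huu' hu.1
  obtain ⟨r, s, zr, zs, rs, hr, hs⟩ := T1_vs hc hz
  have ht := mate_B1 hc hz hzt
  have bz := T1_B1 hz
  have un := notop_W0 hG hc h.wy h1
  obtain ⟨f1, f2, f3⟩ := pairBT hc huu' hzt hut hz un
  obtain ⟨g1, g2, g3, g4⟩ := h.T1w hG hc bz zr zs rs
  obtain ⟨g5, g6, g7, g8⟩ := h.T1w hG hc bz zs zr (ma_symm rs)
  have hE : Emb G c [[1,4,5],[0,7,9],[3,4,5],[2],[0,2,6],[0,2],[4,7,10],[1,6,8],[7],[1],[6,11],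
      [10,12,13],[11,13],[11,12]] 12367 0
      (fun i => [b, b', x, x', a, d, y, u, u', q, t, z, r, s].getD i b) := by
    refine emb_mk hc [b, b', x, x', a, d, y, u, u', q, t, z, r, s] b
      [(0, 1), (2, 3), (0, 4), (0, 5), (2, 4), (2, 5), (4, 6), (1, 7), (6, 7), (7, 8), (1, 9),
        (6, 10), (10, 11), (11, 12), (11, 13), (12, 13)]
      [(0, 2), (0, 3), (1, 2), (1, 3), (4, 5), (4, 9), (5, 9), (0, 12), (0, 13), (1, 12),
        (1, 13), (2, 12), (2, 13), (3, 12), (3, 13), (7, 10), (7, 11), (8, 10), (8, 11)]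
      [4, 5, 6, 9] rfl (by decide) ?_ ?_ ?_ ?_
    · simp [h.mb.1, h.mx.1, h.ba, h.bd, h.xa, h.xd, h.ay, h1, huu'.1, h2, h3, h4,
        hzt.1.symm, zr, zs, rs.1]
    · simp [h.bx, h.bx' hc, h.b'x, h.b'x' hc, h.ad, g1, g2, g3, g4, g5, g6, g7, g8, f1, f2,
        f3, hut, (h.b'_na hG hc h3).symm, (h.b'_nd hG hc h3).symm]
    · simp [h.md_a hG hc, h.md_d hG hc, h.wy.2, hq.2]
    · simp [h.cb, h.cb', h.cx, h.cx', h.ca, h.cd, h.wy.1, hu.1, cu', hq.1, bz.1, ht.1, hr.1,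
        hs.1]
      decide
  have hC := hW.certG hG [11] 1 (by simp) cSa_ok hE
  obtain ⟨w, i, hi, hw⟩ := ex_of_card hC
  rw [List.mem_singleton] at hi
  subst hi
  obtain ⟨v, hv⟩ := gen_of hz (show w ∈ Gen G c z from hw)
  exact ⟨v, w, hv⟩

theorem World2.blk_Sd (hG : Cub G) (hW : World2 G c k) (h : BK G c b b' x x' a d y y')
    {u p t z : V} (hu : IsB1 G c u) (h1 : G.Adj y u) (h2 : G.Adj b' u) (h3 : G.Adj y p)
    (hp : IsB0 G c p) (hpa : p ≠ a) (h4 : G.Adj b' t) (hz : z ∈ T1s G c) (hzt : MA G c z t)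
    (hut : u ≠ t) : ∃ r g, GenR G c z r g := by
  have hc := hW.nice
  obtain ⟨u', huu'⟩ := mate_exists hu.2
  have cu' := MAc huu' hu.1
  obtain ⟨r, s, zr, zs, rs, hr, hs⟩ := T1_vs hc hz
  have ht := mate_B1 hc hz hzt
  have bz := T1_B1 hz
  have un := notop_W0 hG hc h.wy h1
  obtain ⟨f1, f2, f3⟩ := pairBT hc huu' hzt hut hz un
  obtain ⟨g1, g2, g3, g4⟩ := h.T1w hG hc bz zr zs rs
  obtain ⟨g5, g6, g7, g8⟩ := h.T1w hG hc bz zs zr (ma_symm rs)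
  have hE : Emb G c [[1,4,5],[0,7,10],[3,4,5],[2],[0,2,6],[0,2],[4,7,9],[1,6,8],[7],[6],[1,11],
      [10,12,13],[11,13],[11,12]] 12367 0
      (fun i => [b, b', x, x', a, d, y, u, u', p, t, z, r, s].getD i b) := by
    refine emb_mk hc [b, b', x, x', a, d, y, u, u', p, t, z, r, s] b
      [(0, 1), (2, 3), (0, 4), (0, 5), (2, 4), (2, 5), (4, 6), (1, 7), (6, 7), (7, 8), (6, 9),
        (1, 10), (10, 11), (11, 12), (11, 13), (12, 13)]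
      [(0, 2), (0, 3), (1, 2), (1, 3), (4, 5), (4, 9), (5, 9), (0, 12), (0, 13), (1, 12),
        (1, 13), (2, 12), (2, 13), (3, 12), (3, 13), (7, 10), (7, 11), (8, 10), (8, 11)]
      [4, 5, 6, 9] rfl (by decide) ?_ ?_ ?_ ?_
    · simp [h.mb.1, h.mx.1, h.ba, h.bd, h.xa, h.xd, h.ay, h1, huu'.1, h2, h3, h4,
        hzt.1.symm, zr, zs, rs.1]
    · simp [h.bx, h.bx' hc, h.b'x, h.b'x' hc, h.ad, g1, g2, g3, g4, g5, g6, g7, g8, f1, f2,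
        f3, hut, hpa.symm, (hW.y_nd hG h h3).symm]
    · simp [h.md_a hG hc, h.md_d hG hc, h.wy.2, hp.2]
    · simp [h.cb, h.cb', h.cx, h.cx', h.ca, h.cd, h.wy.1, hu.1, cu', hp.1, bz.1, ht.1, hr.1,
        hs.1]
      decide
  have hC := hW.certG hG [11] 1 (by simp) cSd_ok hE
  obtain ⟨w, i, hi, hw⟩ := ex_of_card hC
  rw [List.mem_singleton] at hi
  subst hi
  obtain ⟨v, hv⟩ := gen_of hz (show w ∈ Gen G c z from hw)
  exact ⟨v, w, hv⟩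

theorem World2.blk_Sc (hG : Cub G) (hW : World2 G c k) (h : BK G c b b' x x' a d y y')
    {u v p t z : V} (hv : v ∈ T1s G c) (hvu : MA G c v u) (h1 : G.Adj y u) (h2 : G.Adj b' u)
    (h3 : G.Adj y p) (hp : IsB0 G c p) (hpa : p ≠ a) (h4 : G.Adj b' t) (hz : z ∈ T1s G c)
    (hzt : MA G c z t) (hut : u ≠ t) : False := by
  have hc := hW.nice
  obtain ⟨r, s, zr, zs, rs, hr, hs⟩ := T1_vs hc hz
  obtain ⟨r', s', zr', zs', rs', hr', hs'⟩ := T1_vs hc hv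
  have ht := mate_B1 hc hz hzt
  have hu := mate_B1 hc hv hvu
  have bz := T1_B1 hz
  have bv := T1_B1 hv
  have un := notop_W0 hG hc h.wy h1
  have tn := h.notop_b' hG hc h4
  obtain ⟨f1, f2, f3⟩ := pairBT hc (ma_symm hvu) hzt hut hz un
  have hm := nomate_tops hc hvu un hz
  obtain ⟨g1, g2, g3, g4⟩ := h.T1w hG hc bz zr zs rs
  obtain ⟨g5, g6, g7, g8⟩ := h.T1w hG hc bz zs zr (ma_symm rs)
  obtain ⟨g1', g2', g3', g4'⟩ := h.T1w hG hc bv zr' zs' rs'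
  obtain ⟨g5', g6', g7', g8'⟩ := h.T1w hG hc bv zs' zr' (ma_symm rs')
  have w1 := hW.ww hG hv hz f3 hm zr' hr' zr
  have w2 := hW.ww hG hv hz f3 hm zr' hr' zs
  have w3 := hW.ww hG hv hz f3 hm zs' hs' zr
  have w4 := hW.ww hG hv hz f3 hm zs' hs' zs
  refine hW.cert hG cSc_ok
    (e := fun i => [b, b', x, x', a, d, y, u, v, r', s', p, t, z, r, s].getD i b) ?_
  refine emb_mk hc [b, b', x, x', a, d, y, u, v, r', s', p, t, z, r, s] b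
    [(0, 1), (2, 3), (0, 4), (0, 5), (2, 4), (2, 5), (4, 6), (1, 7), (6, 7), (7, 8), (8, 9),
      (8, 10), (9, 10), (6, 11), (1, 12), (12, 13), (13, 14), (13, 15), (14, 15)]
    [(0, 2), (0, 3), (1, 2), (1, 3), (4, 5), (4, 11), (5, 11), (0, 9), (0, 10), (1, 9), (1, 10),
      (2, 9), (2, 10), (3, 9), (3, 10), (0, 14), (0, 15), (1, 14), (1, 15), (2, 14), (2, 15),
      (3, 14), (3, 15), (9, 14), (9, 15), (10, 14), (10, 15), (7, 12), (7, 13), (8, 12),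
      (8, 13)] [4, 5, 6, 11] rfl (by decide) ?_ ?_ ?_ ?_
  · simp [h.mb.1, h.mx.1, h.ba, h.bd, h.xa, h.xd, h.ay, h1, hvu.1.symm, h2, h3, h4,
      hzt.1.symm, zr, zs, rs.1, zr', zs', rs'.1]
  · simp [h.bx, h.bx' hc, h.b'x, h.b'x' hc, h.ad, g1, g2, g3, g4, g5, g6, g7, g8, g1', g2',
      g3', g4', g5', g6', g7', g8', w1, w2, w3, w4, f1, f2, f3, hut, hpa.symm,
      (hW.y_nd hG h h3).symm]
  · simp [h.md_a hG hc, h.md_d hG hc, h.wy.2, hp.2]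
  · simp [h.cb, h.cb', h.cx, h.cx', h.ca, h.cd, h.wy.1, hu.1, bv.1, hp.1, bz.1, ht.1, hr.1,
      hs.1, hr'.1, hs'.1]
    decide

theorem World2.blk_PA (hG : Cub G) (hW : World2 G c k) (h : BK G c b b' x x' a d y y')
    {u t z t' z' : V} (hu : IsB1 G c u) (h1 : G.Adj y u) (h2 : G.Adj b' u)
    (h3 : G.Adj y t) (hz : z ∈ T1s G c) (hzt : MA G c z t) (hut : u ≠ t) (hbt : ¬ G.Adj b' t)
    (h4 : G.Adj b' t') (hz' : z' ∈ T1s G c) (hzt' : MA G c z' t') (hut' : u ≠ t') :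
    ∃ r g, GenR G c z r g ∨ GenR G c z' r g := by
  have hc := hW.nice
  obtain ⟨u', huu'⟩ := mate_exists hu.2
  have cu' := MAc huu' hu.1
  obtain ⟨r, s, zr, zs, rs, hr, hs⟩ := T1_vs hc hz
  obtain ⟨r', s', zr', zs', rs', hr', hs'⟩ := T1_vs hc hz'
  have ht := mate_B1 hc hz hzt
  have ht' := mate_B1 hc hz' hzt'
  have bz := T1_B1 hz
  have bz' := T1_B1 hz'
  have un := notop_W0 hG hc h.wy h1
  have tn := notop_W0 hG hc h.wy h3
  have e3 : t ≠ t' := by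
    rintro rfl
    exact hbt h4
  obtain ⟨f1, f2, f3⟩ := pairBT hc huu' hzt hut hz un
  obtain ⟨f4, f5, f6⟩ := pairBT hc huu' hzt' hut' hz' un
  obtain ⟨f7, f8, f9⟩ := pairBT hc (ma_symm hzt) hzt' e3 hz' tn
  have hm := nomate_tops hc hzt tn hz'
  obtain ⟨g1, g2, g3, g4⟩ := h.T1w hG hc bz zr zs rs
  obtain ⟨g5, g6, g7, g8⟩ := h.T1w hG hc bz zs zr (ma_symm rs)
  obtain ⟨g1', g2', g3', g4'⟩ := h.T1w hG hc bz' zr' zs' rs'
  obtain ⟨g5', g6', g7', g8'⟩ := h.T1w hG hc bz' zs' zr' (ma_symm rs')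
  have w1 := hW.ww hG hz hz' f9 hm zr hr zr'
  have w2 := hW.ww hG hz hz' f9 hm zr hr zs'
  have w3 := hW.ww hG hz hz' f9 hm zs hs zr'
  have w4 := hW.ww hG hz hz' f9 hm zs hs zs'
  have hE : Emb G c [[1,4,5],[0,7,13],[3,4,5],[2],[0,2,6],[0,2],[4,7,9],[6,8,1],[7],[6,10],
      [9,11,12],[10,12],[10,11],[1,14],[13,15,16],[14,16],[14,15]] 104527 0
      (fun i => [b, b', x, x', a, d, y, u, u', t, z, r, s, t', z', r', s'].getD i b) := by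
    refine emb_mk hc [b, b', x, x', a, d, y, u, u', t, z, r, s, t', z', r', s'] b
      [(0, 1), (2, 3), (0, 4), (0, 5), (2, 4), (2, 5), (4, 6), (6, 7), (7, 8), (6, 9), (9, 10),
        (10, 11), (10, 12), (11, 12), (1, 7), (1, 13), (13, 14), (14, 15), (14, 16), (15, 16)]
      [(0, 2), (0, 3), (1, 2), (1, 3), (4, 5), (0, 11), (0, 12), (1, 11), (1, 12), (2, 11),
        (2, 12), (3, 11), (3, 12), (0, 15), (0, 16), (1, 15), (1, 16), (2, 15), (2, 16), (3, 15),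
        (3, 16), (11, 15), (11, 16), (12, 15), (12, 16), (7, 9), (7, 10), (8, 9), (8, 10),
        (7, 13), (7, 14), (8, 13), (8, 14), (9, 13), (9, 14), (10, 13), (10, 14)]
      [4, 5, 6] rfl (by decide) ?_ ?_ ?_ ?_
    · simp [h.mb.1, h.mx.1, h.ba, h.bd, h.xa, h.xd, h.ay, h1, huu'.1, h2, h3, h4,
        hzt.1.symm, zr, zs, rs.1, hzt'.1.symm, zr', zs', rs'.1]
    · simp [h.bx, h.bx' hc, h.b'x, h.b'x' hc, h.ad, g1, g2, g3, g4, g5, g6, g7, g8, g1', g2',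
        g3', g4', g5', g6', g7', g8', w1, w2, w3, w4, hut, hut', e3, f1, f2, f3, f4, f5, f6, f7,
        f8, f9]
    · simp [h.md_a hG hc, h.md_d hG hc, h.wy.2]
    · simp [h.cb, h.cb', h.cx, h.cx', h.ca, h.cd, h.wy.1, hu.1, cu', bz.1, bz'.1, ht.1, ht'.1,
        hr.1, hs.1, hr'.1, hs'.1]
      decide
  have hC := hW.certG hG [10, 14] 1 (by simp) cPA_ok hE
  obtain ⟨w, i, hi, hw⟩ := ex_of_card hC
  simp only [List.mem_cons, List.not_mem_nil, or_false] at hi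
  rcases hi with rfl | rfl
  · obtain ⟨v, hv⟩ := gen_of hz (show w ∈ Gen G c z from hw)
    exact ⟨v, w, Or.inl hv⟩
  · obtain ⟨v, hv⟩ := gen_of hz' (show w ∈ Gen G c z' from hw)
    exact ⟨v, w, Or.inr hv⟩

theorem World2.blk_PB (hG : Cub G) (hW : World2 G c k) (h : BK G c b b' x x' a d y y')
    {t₁ z₁ t₂ z₂ t₃ z₃ : V} (h1 : G.Adj y t₁) (hz₁ : z₁ ∈ T1s G c) (ht₁ : MA G c z₁ t₁)
    (h2 : G.Adj y t₂) (h3 : G.Adj b' t₂) (hz₂ : z₂ ∈ T1s G c) (ht₂ : MA G c z₂ t₂)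
    (h4 : G.Adj b' t₃) (hz₃ : z₃ ∈ T1s G c) (ht₃ : MA G c z₃ t₃) (h12 : t₁ ≠ t₂)
    (h23 : t₂ ≠ t₃) (hbt : ¬ G.Adj b' t₁) :
    ∃ r g, GenR G c z₁ r g ∨ GenR G c z₃ r g := by
  have hc := hW.nice
  obtain ⟨r₁, s₁, zr₁, zs₁, rs₁, hr₁, hs₁⟩ := T1_vs hc hz₁
  obtain ⟨r₂, s₂, zr₂, zs₂, rs₂, hr₂, hs₂⟩ := T1_vs hc hz₂
  obtain ⟨r₃, s₃, zr₃, zs₃, rs₃, hr₃, hs₃⟩ := T1_vs hc hz₃
  have b₁ := mate_B1 hc hz₁ ht₁
  have b₂ := mate_B1 hc hz₂ ht₂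
  have b₃ := mate_B1 hc hz₃ ht₃
  have B₁ := T1_B1 hz₁
  have B₂ := T1_B1 hz₂
  have B₃ := T1_B1 hz₃
  have n₁ := notop_W0 hG hc h.wy h1
  have n₂ := notop_W0 hG hc h.wy h2
  have n₃ := h.notop_b' hG hc h4
  have h13 : t₁ ≠ t₃ := by
    rintro rfl
    exact hbt h4
  obtain ⟨f1, f2, f3⟩ := pairBT hc (ma_symm ht₁) ht₂ h12 hz₂ n₁
  obtain ⟨f4, f5, f6⟩ := pairBT hc (ma_symm ht₁) ht₃ h13 hz₃ n₁
  obtain ⟨f7, f8, f9⟩ := pairBT hc (ma_symm ht₂) ht₃ h23 hz₃ n₂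
  have m12 := nomate_tops hc ht₁ n₁ hz₂
  have m13 := nomate_tops hc ht₁ n₁ hz₃
  have m23 := nomate_tops hc ht₂ n₂ hz₃
  obtain ⟨g1, g2, g3, g4⟩ := h.T1w hG hc B₁ zr₁ zs₁ rs₁
  obtain ⟨g5, g6, g7, g8⟩ := h.T1w hG hc B₁ zs₁ zr₁ (ma_symm rs₁)
  obtain ⟨i1, i2, i3, i4⟩ := h.T1w hG hc B₂ zr₂ zs₂ rs₂
  obtain ⟨i5, i6, i7, i8⟩ := h.T1w hG hc B₂ zs₂ zr₂ (ma_symm rs₂)
  obtain ⟨j1, j2, j3, j4⟩ := h.T1w hG hc B₃ zr₃ zs₃ rs₃
  obtain ⟨j5, j6, j7, j8⟩ := h.T1w hG hc B₃ zs₃ zr₃ (ma_symm rs₃)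
  have w1 := hW.ww hG hz₁ hz₂ f3 m12 zr₁ hr₁ zr₂
  have w2 := hW.ww hG hz₁ hz₂ f3 m12 zr₁ hr₁ zs₂
  have w3 := hW.ww hG hz₁ hz₂ f3 m12 zs₁ hs₁ zr₂
  have w4 := hW.ww hG hz₁ hz₂ f3 m12 zs₁ hs₁ zs₂
  have w5 := hW.ww hG hz₁ hz₃ f6 m13 zr₁ hr₁ zr₃
  have w6 := hW.ww hG hz₁ hz₃ f6 m13 zr₁ hr₁ zs₃
  have w7 := hW.ww hG hz₁ hz₃ f6 m13 zs₁ hs₁ zr₃
  have w8 := hW.ww hG hz₁ hz₃ f6 m13 zs₁ hs₁ zs₃
  have w9 := hW.ww hG hz₂ hz₃ f9 m23 zr₂ hr₂ zr₃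
  have wa := hW.ww hG hz₂ hz₃ f9 m23 zr₂ hr₂ zs₃
  have wb := hW.ww hG hz₂ hz₃ f9 m23 zs₂ hs₂ zr₃
  have wc := hW.ww hG hz₂ hz₃ f9 m23 zs₂ hs₂ zs₃
  have hE : Emb G c [[1,4,5],[0,11,15],[3,4,5],[2],[0,2,6],[0,2],[4,7,11],[6,8],[7,9,10],
      [8,10],[8,9],[6,12,1],[11,13,14],[12,14],[12,13],[1,16],[15,17,18],[16,18],[16,17]]
      419407 0 (fun i => [b, b', x, x', a, d, y, t₁, z₁, r₁, s₁, t₂, z₂, r₂, s₂, t₃, z₃, r₃,
        s₃].getD i b) := by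
    refine emb_mk hc [b, b', x, x', a, d, y, t₁, z₁, r₁, s₁, t₂, z₂, r₂, s₂, t₃, z₃, r₃, s₃] b
      [(0, 1), (2, 3), (0, 4), (0, 5), (2, 4), (2, 5), (4, 6), (6, 7), (7, 8), (8, 9), (8, 10),
        (9, 10), (6, 11), (11, 12), (12, 13), (12, 14), (13, 14), (1, 11), (1, 15), (15, 16),
        (16, 17), (16, 18), (17, 18)]
      [(0, 2), (0, 3), (1, 2), (1, 3), (4, 5), (0, 9), (0, 10), (1, 9), (1, 10), (2, 9),
        (2, 10), (3, 9), (3, 10), (0, 13), (0, 14), (1, 13), (1, 14), (2, 13), (2, 14), (3, 13),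
        (3, 14), (0, 17), (0, 18), (1, 17), (1, 18), (2, 17), (2, 18), (3, 17), (3, 18),
        (9, 13), (9, 14), (10, 13), (10, 14), (9, 17), (9, 18), (10, 17), (10, 18), (13, 17),
        (13, 18), (14, 17), (14, 18), (7, 11), (7, 12), (8, 11), (8, 12), (7, 15), (7, 16),
        (8, 15), (8, 16), (11, 15), (11, 16), (12, 15), (12, 16)]
      [4, 5, 6] rfl (by decide) ?_ ?_ ?_ ?_
    · simp [h.mb.1, h.mx.1, h.ba, h.bd, h.xa, h.xd, h.ay, h1, ht₁.1.symm, zr₁, zs₁, rs₁.1, h2,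
        ht₂.1.symm, zr₂, zs₂, rs₂.1, h3, h4, ht₃.1.symm, zr₃, zs₃, rs₃.1]
    · simp [h.bx, h.bx' hc, h.b'x, h.b'x' hc, h.ad, g1, g2, g3, g4, g5, g6, g7, g8, i1, i2, i3,
        i4, i5, i6, i7, i8, j1, j2, j3, j4, j5, j6, j7, j8, w1, w2, w3, w4, w5, w6, w7, w8, w9,
        wa, wb, wc, f1, f2, f3, f4, f5, f6, f7, f8, f9, h12, h13, h23]
    · simp [h.md_a hG hc, h.md_d hG hc, h.wy.2]
    · simp [h.cb, h.cb', h.cx, h.cx', h.ca, h.cd, h.wy.1, b₁.1, b₂.1, b₃.1, B₁.1, B₂.1, B₃.1,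
        hr₁.1, hs₁.1, hr₂.1, hs₂.1, hr₃.1, hs₃.1]
      decide
  have hC := hW.certG hG [8, 16] 1 (by simp) cPB_ok hE
  obtain ⟨w, i, hi, hw⟩ := ex_of_card hC
  simp only [List.mem_cons, List.not_mem_nil, or_false] at hi
  rcases hi with rfl | rfl
  · obtain ⟨v, hv⟩ := gen_of hz₁ (show w ∈ Gen G c z₁ from hw)
    exact ⟨v, w, Or.inl hv⟩
  · obtain ⟨v, hv⟩ := gen_of hz₃ (show w ∈ Gen G c z₃ from hw)
    exact ⟨v, w, Or.inr hv⟩

end B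

end

end Pool.Agent.Work.MP_1e13ac_W
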