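import Pool.Agent.Work.MP_1e13ac_W.Blk2

/-!
# MP_1e13ac_co, World 2: two blocks, the switch of a block (helper87)
-/

set_option autoImplicit false
set_option linter.unusedSectionVars false

namespace Pool.Agent.Work.MP_1e13ac_W

open Classical Finset Pool.Agent.Work.MP_1e13ac_Bis

noncomputable section

variable {V : Type} [Fintype V] {G : SimpleGraph V} {c : V → Bool} {k : ℕ}

open CntAux T1C T1G BK

section B

variable {b b' x x' a d y y' : V}

namespace BK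

/-- the black vertices of different blocks -/
theorem disj_a (hG : Cub G) (hc : Nice G c) (h : BK G c b b' x x' a d y y')
    {p p' q q' e f w w' : V} (h2 : BK G c p p' q q' e f w w') (hbp : b ≠ p) (hbq : b ≠ q) :
    a ≠ e := by
  rintro rfl
  rcases h2.nb_a hG hc b h.ba.symm with e | e | e
  · exact hbp e
  · exact hbq e
  · exact w0w1 h2.wy (h.wb hc) e.symm

theorem disj_ad (hG : Cub G) (hc : Nice G c) (h : BK G c b b' x x' a d y y')
    {p p' q q' e f w w' : V} (h2 : BK G c p p' q q' e f w w') (hbp : b ≠ p) (hbq : b ≠ q) :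
    a ≠ e ∧ a ≠ f ∧ d ≠ e ∧ d ≠ f :=
  ⟨h.disj_a hG hc h2 hbp hbq, h.disj_a hG hc h2.swap2 hbp hbq,
    h.swap2.disj_a hG hc h2 hbp hbq, h.swap2.disj_a hG hc h2.swap2 hbp hbq⟩

theorem disj_x (hG : Cub G) (hc : Nice G c) (h : BK G c b b' x x' a d y y')
    {p p' q q' e f w w' : V} (h2 : BK G c p p' q q' e f w w') (hbp : b ≠ p) (hbq : b ≠ q) :
    x ≠ p := by
  rintro rfl
  obtain ⟨h3, h4, _, _⟩ := h.disj_ad hG hc h2 hbp hbq
  rcases h2.nb_b hG a h.xa with e | e | e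
  · exact ne_wb h2.cb' h.ca e.symm
  · exact h3 e
  · exact h4 e

theorem b'_ne (hG : Cub G) (hc : Nice G c) (h : BK G c b b' x x' a d y y')
    {p p' q q' e f w w' : V} (h2 : BK G c p p' q q' e f w w') : b' ≠ p := by
  rintro rfl
  obtain ⟨u, hu, hu'⟩ := h.hb'
  exact h2.nB1b hG hc hu' hu.symm

end BK

theorem World2.blk_F7 (hG : Cub G) (hW : World2 G c k) (h : BK G c b b' x x' a d y y')
    {p p' q q' e f w' : V} (h2 : BK G c p p' q q' e f y w') (hbp : b ≠ p) (hbq : b ≠ q) :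
    False := by
  have hc := hW.nice
  obtain ⟨e1, e2, e3, e4⟩ := h.disj_ad hG hc h2 hbp hbq
  have e5 := h.disj_x hG hc h2 hbp hbq
  have e6 := h.disj_x hG hc (h2.swap1 hc) hbq hbp
  have n1 := h.b'_ne hG hc h2
  have n2 := h.b'_ne hG hc (h2.swap1 hc)
  have n3 := (h.swap1 hc).b'_ne hG hc h2
  have n4 := (h.swap1 hc).b'_ne hG hc (h2.swap1 hc)
  obtain ⟨m1, m2⟩ := ne_of_mates hc h.mb h2.mb hbp n1
  obtain ⟨m3, m4⟩ := ne_of_mates hc h.mb h2.mx hbq n2
  obtain ⟨m5, m6⟩ := ne_of_mates hc h.mx h2.mb e5 n3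
  obtain ⟨m7, m8⟩ := ne_of_mates hc h.mx h2.mx e6 n4
  refine hW.cert hG cF7_ok
    (e := fun i => [b, b', x, x', a, d, y, p, p', q, q', e, f].getD i b) ?_
  refine emb_mk hc [b, b', x, x', a, d, y, p, p', q, q', e, f] b
    [(0, 1), (2, 3), (0, 4), (0, 5), (2, 4), (2, 5), (4, 6), (7, 8), (9, 10), (7, 11), (7, 12),
      (9, 11), (9, 12), (6, 11)]
    [(0, 2), (0, 3), (1, 2), (1, 3), (4, 5), (7, 9), (7, 10), (8, 9), (8, 10), (0, 7), (0, 8),
      (0, 9), (0, 10), (1, 7), (1, 8), (1, 9), (1, 10), (2, 7), (2, 8), (2, 9), (2, 10), (3, 7),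
      (3, 8), (3, 9), (3, 10), (11, 12), (4, 11), (4, 12), (5, 11), (5, 12)]
    [4, 5, 6, 11, 12] rfl (by decide) ?_ ?_ ?_ ?_
  · simp [h.mb.1, h.mx.1, h.ba, h.bd, h.xa, h.xd, h.ay, h2.mb.1, h2.mx.1, h2.ba, h2.bd, h2.xa,
      h2.xd, h2.ay.symm]
  · simp [h.bx, h.bx' hc, h.b'x, h.b'x' hc, h.ad, h2.bx, h2.bx' hc, h2.b'x, h2.b'x' hc, h2.ad,
      hbp, hbq, e1, e2, e3, e4, e5, e6, n1, n2, n3, n4, m1, m2, m3, m4, m5, m6, m7, m8]
  · simp [h.md_a hG hc, h.md_d hG hc, h.wy.2, h2.md_a hG hc, h2.md_d hG hc]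
  · simp [h.cb, h.cb', h.cx, h.cx', h.ca, h.cd, h.wy.1, h2.cb, h2.cb', h2.cx, h2.cx', h2.ca,
      h2.cd]
    decide

theorem World2.blk_F6 (hG : Cub G) (hW : World2 G c k) (h : BK G c b b' x x' a d y y')
    {p p' q q' e f w w' : V} (h2 : BK G c p p' q q' e f w w') (hbp : b ≠ p) (hbq : b ≠ q)
    {u : V} (hu : IsB1 G c u) (h3 : G.Adj y u) (h4 : G.Adj w u) : False := by
  have hc := hW.nice
  by_cases hyw : y = w
  · subst hyw
    exact hW.blk_F7 hG h h2 hbp hbq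
  obtain ⟨e1, e2, e3, e4⟩ := h.disj_ad hG hc h2 hbp hbq
  have e5 := h.disj_x hG hc h2 hbp hbq
  have e6 := h.disj_x hG hc (h2.swap1 hc) hbq hbp
  have n1 := h.b'_ne hG hc h2
  have n2 := h.b'_ne hG hc (h2.swap1 hc)
  have n3 := (h.swap1 hc).b'_ne hG hc h2
  have n4 := (h.swap1 hc).b'_ne hG hc (h2.swap1 hc)
  obtain ⟨m1, m2⟩ := ne_of_mates hc h.mb h2.mb hbp n1
  obtain ⟨m3, m4⟩ := ne_of_mates hc h.mb h2.mx hbq n2
  obtain ⟨m5, m6⟩ := ne_of_mates hc h.mx h2.mb e5 n3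
  obtain ⟨m7, m8⟩ := ne_of_mates hc h.mx h2.mx e6 n4
  obtain ⟨u', huu'⟩ := mate_exists hu.2
  have cu' := MAc huu' hu.1
  refine hW.cert hG cF6_ok
    (e := fun i => [b, b', x, x', a, d, y, p, p', q, q', e, f, w, u, u'].getD i b) ?_
  refine emb_mk hc [b, b', x, x', a, d, y, p, p', q, q', e, f, w, u, u'] b
    [(0, 1), (2, 3), (0, 4), (0, 5), (2, 4), (2, 5), (4, 6), (7, 8), (9, 10), (7, 11), (7, 12),
      (9, 11), (9, 12), (11, 13), (14, 15), (6, 14), (13, 14)]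
    [(0, 2), (0, 3), (1, 2), (1, 3), (4, 5), (7, 9), (7, 10), (8, 9), (8, 10), (0, 7), (0, 8),
      (0, 9), (0, 10), (1, 7), (1, 8), (1, 9), (1, 10), (2, 7), (2, 8), (2, 9), (2, 10), (3, 7),
      (3, 8), (3, 9), (3, 10), (11, 12), (4, 11), (4, 12), (5, 11), (5, 12), (6, 13)]
    [4, 5, 6, 11, 12, 13] rfl (by decide) ?_ ?_ ?_ ?_
  · simp [h.mb.1, h.mx.1, h.ba, h.bd, h.xa, h.xd, h.ay, h2.mb.1, h2.mx.1, h2.ba, h2.bd, h2.xa,
      h2.xd, h2.ay, huu'.1, h3, h4]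
  · simp [h.bx, h.bx' hc, h.b'x, h.b'x' hc, h.ad, h2.bx, h2.bx' hc, h2.b'x, h2.b'x' hc, h2.ad,
      hbp, hbq, e1, e2, e3, e4, e5, e6, n1, n2, n3, n4, m1, m2, m3, m4, m5, m6, m7, m8, hyw]
  · simp [h.md_a hG hc, h.md_d hG hc, h.wy.2, h2.md_a hG hc, h2.md_d hG hc, h2.wy.2]
  · simp [h.cb, h.cb', h.cx, h.cx', h.ca, h.cd, h.wy.1, h2.cb, h2.cb', h2.cx, h2.cx', h2.ca,
      h2.cd, h2.wy.1, hu.1, cu']
    decide

/-! ## The switch -/

/-- a neutral nice move which does not increase the number of T1 and does not decrease the number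
of sources stays in World 2 -/
theorem World2.move {c' : V → Bool} (hW : World2 G c k) (hn : Nice G c')
    (hs : smd G c' = smd G c) (hl : lev c' = lev c) (ht : (T1s G c').card ≤ (T1s G c).card)
    (hq : (Qs G c 0).card ≤ (Qs G c' 0).card) : World2 G c' k := by
  have hF : F2 G c' = F2 G c := by
    unfold F2
    rw [hs, hl]
  refine ⟨hn, by rw [hl]; exact hW.lev2, hW.k2, ?_, ?_, ?_, hW.bad⟩
  · intro c₂
    rw [hF]
    exact hW.min c₂
  · intro c₂ h1 h2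
    exact hW.low c₂ h1 (by rw [h2, hF])
  · intro c₂ m h1 h2 h3
    have := hW.lex c₂ m h1 (by rw [h2, hF]) h3
    omega

/-- the colouring after the switch of the block -/
def ksw (c : V → Bool) (b x a d : V) : V → Bool := flp {b, x, a, d} c

theorem World2.kswitch (hG : Cub G) (hW : World2 G c k) (h : BK G c b b' x x' a d y y') :
    World2 G (ksw c b x a d) k := by
  have hc := hW.nice
  obtain ⟨u, hu1, hu⟩ := h.hb'
  obtain ⟨v, hv1, hv⟩ := h.hx'
  obtain ⟨u', huu'⟩ := mate_exists hu.2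
  obtain ⟨v', hvv'⟩ := mate_exists hv.2
  have cu' := MAc huu' hu.1
  have cv' := MAc hvv' hv.1
  have huv : u ≠ v := by
    rintro rfl
    exact hW.b'x'_nc hG h hu hu1 hv1
  have hyy := hW.blk_yy hG h
  have main : ∀ (A : PL) (col : ℕ) (e : ℕ → V), Emb G c A col 0 e →
      cmpR A 53 = true → niceR A (Nat.xor col 53) = true →
      smR A (Nat.xor col 53) = smR A col → sjR A col 53 = A.length →
      t1aR A (Nat.xor col 53) 53 ≤ t1bR A col 53 →
      qLoss A col (Nat.xor col 53) ≤ qGain A col (Nat.xor col 53) →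
      FS A 53 e = {b, x, a, d} → World2 G (ksw c b x a d) k := by
    intro A col e hE hF h1 h2 h3 h4 h5 hS
    have hn := hE.nice hG hc hF h1
    have a1 := hE.smd hG hF
    have a2 := hE.lev hG hF
    have a3 := hE.t1 hG hF
    have a4 := hE.q0 hG hc hF hn
    rw [hS] at hn a1 a2 a3 a4
    refine hW.move hn ?_ ?_ ?_ ?_
    · show smd G (flp {b, x, a, d} c) = smd G c
      rw [h2] at a1
      linarith
    · show Pool.Agent.Work.MP_1e13ac_W.lev (flp {b, x, a, d} c) = _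
      rw [h3] at a2
      linarith
    · show (T1s G (flp {b, x, a, d} c)).card ≤ _
      omega
    · show _ ≤ (Qs G (flp {b, x, a, d} c) 0).card
      omega
  by_cases hm : MA G c u v
  · have hE : Emb G c [[1,4,5],[0,8],[3,4,5],[2,9],[0,2,6],[0,2,7],[4],[5],[1,9],[3,8]] 207 0
        (fun i => [b, b', x, x', a, d, y, y', u, v].getD i b) := by
      refine emb_mk hc [b, b', x, x', a, d, y, y', u, v] b
        [(0, 1), (2, 3), (0, 4), (0, 5), (2, 4), (2, 5), (4, 6), (5, 7), (1, 8), (3, 9), (8, 9)]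
        [(0, 2), (0, 3), (1, 2), (1, 3), (4, 5), (6, 7)]
        [4, 5, 6, 7] rfl (by decide) ?_ ?_ ?_ ?_
      · simp [h.mb.1, h.mx.1, h.ba, h.bd, h.xa, h.xd, h.ay, h.dy, hu1, hv1, hm.1]
      · simp [h.bx, h.bx' hc, h.b'x, h.b'x' hc, h.ad, hyy]
      · simp [h.md_a hG hc, h.md_d hG hc, h.wy.2, h.wy'.2]
      · simp [h.cb, h.cb', h.cx, h.cx', h.ca, h.cd, h.wy.1, h.wy'.1, hu.1, hv.1]
        decide
    refine main _ _ _ hE (by decide) (by decide) (by decide) (by decide) (by decide) (by decide) ?_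
    rw [FS_eq {0, 2, 4, 5} (by decide)]
    ext t
    simp only [Finset.mem_image, Finset.mem_insert, Finset.mem_singleton]
    constructor
    · rintro ⟨i, rfl | rfl | rfl | rfl, rfl⟩ <;> simp
    · rintro (rfl | rfl | rfl | rfl)
      · exact ⟨0, by simp, rfl⟩
      · exact ⟨2, by simp, rfl⟩
      · exact ⟨4, by simp, rfl⟩
      · exact ⟨5, by simp, rfl⟩
  · have n1 : u' ≠ v := by
      rintro rfl
      exact hm huu'
    obtain ⟨n2, n3⟩ := ne_of_mates hc huu' hvv' huv n1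
    have hE : Emb G c [[1,4,5],[0,8],[3,4,5],[2,10],[0,2,6],[0,2,7],[4],[5],[1,9],[8],[3,11],[10]]
        207 0 (fun i => [b, b', x, x', a, d, y, y', u, u', v, v'].getD i b) := by
      refine emb_mk hc [b, b', x, x', a, d, y, y', u, u', v, v'] b
        [(0, 1), (2, 3), (0, 4), (0, 5), (2, 4), (2, 5), (4, 6), (5, 7), (1, 8), (8, 9),
          (3, 10), (10, 11)]
        [(0, 2), (0, 3), (1, 2), (1, 3), (4, 5), (6, 7), (8, 10), (8, 11), (9, 10), (9, 11)]
        [4, 5, 6, 7] rfl (by decide) ?_ ?_ ?_ ?_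
      · simp [h.mb.1, h.mx.1, h.ba, h.bd, h.xa, h.xd, h.ay, h.dy, hu1, hv1, huu'.1, hvv'.1]
      · simp [h.bx, h.bx' hc, h.b'x, h.b'x' hc, h.ad, hyy, huv, n1, n2, n3]
      · simp [h.md_a hG hc, h.md_d hG hc, h.wy.2, h.wy'.2]
      · simp [h.cb, h.cb', h.cx, h.cx', h.ca, h.cd, h.wy.1, h.wy'.1, hu.1, hv.1, cu', cv']
        decide
    refine main _ _ _ hE (by decide) (by decide) (by decide) (by decide) (by decide) (by decide) ?_
    rw [FS_eq {0, 2, 4, 5} (by decide)]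
    ext t
    simp only [Finset.mem_image, Finset.mem_insert, Finset.mem_singleton]
    constructor
    · rintro ⟨i, rfl | rfl | rfl | rfl, rfl⟩ <;> simp
    · rintro (rfl | rfl | rfl | rfl)
      · exact ⟨0, by simp, rfl⟩
      · exact ⟨2, by simp, rfl⟩
      · exact ⟨4, by simp, rfl⟩
      · exact ⟨5, by simp, rfl⟩

end B

end

end Pool.Agent.Work.MP_1e13ac_W
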