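import Pool.Agent.Work.MP_1e13ac_W.Blk3

/-!
# MP_1e13ac_co, World 2: transfer between the colourings before and after a switch (helper87)
-/

set_option autoImplicit false
set_option linter.unusedSectionVars false

namespace Pool.Agent.Work.MP_1e13ac_W

open Classical Finset Pool.Agent.Work.MP_1e13ac_Bis

noncomputable section

variable {V : Type} [Fintype V] {G : SimpleGraph V} {c : V → Bool} {k : ℕ}

open CntAux T1C T1G BK

theorem ksw_ksw (c : V → Bool) (b x a d : V) : ksw (ksw c b x a d) a d b x = c := by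
  funext t
  unfold ksw flp
  by_cases h : t ∈ ({b, x, a, d} : Finset V)
  · have h' : t ∈ ({a, d, b, x} : Finset V) := by
      simp only [Finset.mem_insert, Finset.mem_singleton] at h ⊢
      tauto
    rw [if_pos h', if_pos h]
    simp
  · have h' : t ∉ ({a, d, b, x} : Finset V) := by
      simp only [Finset.mem_insert, Finset.mem_singleton] at h ⊢
      tauto
    rw [if_neg h', if_neg h]

theorem ksw_comm1 (c : V → Bool) (b x a d : V) : ksw c x b a d = ksw c b x a d := by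
  unfold ksw
  congr 1
  ext t
  simp only [Finset.mem_insert, Finset.mem_singleton]
  tauto

theorem ksw_comm2 (c : V → Bool) (b x a d : V) : ksw c b x d a = ksw c b x a d := by
  unfold ksw
  congr 1
  ext t
  simp only [Finset.mem_insert, Finset.mem_singleton]
  tauto

theorem ksw_out (c : V → Bool) {b x a d t : V} (h1 : t ≠ b) (h2 : t ≠ x) (h3 : t ≠ a)
    (h4 : t ≠ d) : ksw c b x a d t = c t := by
  rw [ksw, flp_out]
  simp only [Finset.mem_insert, Finset.mem_singleton]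
  tauto

section B

variable {b b' x x' a d y y' : V}

namespace BK

/-- a vertex which is not in the block and not adjacent to it -/
theorem notNF (hG : Cub G) (hc : Nice G c) (h : BK G c b b' x x' a d y y') {v : V}
    (h1 : v ≠ b) (h2 : v ≠ x) (h3 : v ≠ a) (h4 : v ≠ d) (h5 : v ≠ b') (h6 : v ≠ x')
    (h7 : v ≠ y) (h8 : v ≠ y') : v ∉ NF G {b, x, a, d} := by
  rw [mem_NF]
  rintro (hv | ⟨w, hw, hwv⟩)
  · simp only [Finset.mem_insert, Finset.mem_singleton] at hv
    rcases hv with e | e | e | e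
    · exact h1 e
    · exact h2 e
    · exact h3 e
    · exact h4 e
  · simp only [Finset.mem_insert, Finset.mem_singleton] at hw
    rcases hw with rfl | rfl | rfl | rfl
    · rcases h.nb_b hG v hwv with e | e | e
      · exact h5 e
      · exact h3 e
      · exact h4 e
    · rcases h.nb_x hG v hwv with e | e | e
      · exact h6 e
      · exact h3 e
      · exact h4 e
    · rcases h.nb_a hG hc v hwv with e | e | e
      · exact h1 e
      · exact h2 e
      · exact h7 e
    · rcases h.nb_d hG hc v hwv with e | e | e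
      · exact h1 e
      · exact h2 e
      · exact h8 e

theorem k_out {F : Finset V} {v : V} (h : v ∉ NF G F) : flp F c v = c v :=
  flp_out fun hh => h (mem_NF.2 (Or.inl hh))

theorem B1_NF (hG : Cub G) (hc : Nice G c) (h : BK G c b b' x x' a d y y') {u : V}
    (hu : IsB1 G c u) : u ∉ NF G {b, x, a, d} :=
  h.notNF hG hc (ne_wb h.cb hu.1).symm (ne_wb h.cx hu.1).symm (h.B1a hG hc hu)
    (h.B1d hG hc hu) (ne_wb h.cb' hu.1).symm (ne_wb h.cx' hu.1).symm (ne_wb h.wy.1 hu.1).symm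
    (ne_wb h.wy'.1 hu.1).symm

theorem k_B1 (hG : Cub G) (hc : Nice G c) (h : BK G c b b' x x' a d y y') {u : V}
    (hu : IsB1 G c u) : IsB1 G (ksw c b x a d) u := by
  have h1 := h.B1_NF hG hc hu
  exact ⟨by rw [ksw, k_out h1]; exact hu.1, by rw [ksw, md_out h1]; exact hu.2⟩

theorem k_MA (hG : Cub G) (hc : Nice G c) (h : BK G c b b' x x' a d y y') {u v : V}
    (hu : IsB1 G c u) (hm : MA G c u v) : MA G (ksw c b x a d) u v := by
  have h1 := h.B1_NF hG hc hu
  have hv : IsB1 G c v := ⟨MAc hm hu.1, ma_md hc (ma_symm hm)⟩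
  have h2 := h.B1_NF hG hc hv
  exact ⟨hm.1, by rw [ksw, k_out h1, k_out h2]; exact hm.2⟩

theorem T1_NF (hG : Cub G) (hc : Nice G c) (h : BK G c b b' x x' a d y y') {z r s : V}
    (hz : IsB1 G c z) (hr : G.Adj z r) (hs : G.Adj z s) (hrs : MA G c r s)
    (hr1 : IsW1 G c r) : r ∉ NF G {b, x, a, d} := by
  obtain ⟨g1, g2, g3, g4⟩ := h.T1w hG hc hz hr hs hrs
  exact h.notNF hG hc g1.symm g3.symm (ne_wb hr1.1 h.ca) (ne_wb hr1.1 h.cd) g2.symm g4.symm
    (w0w1 h.wy hr1).symm (w0w1 h.wy' hr1).symm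

theorem k_T1 (hG : Cub G) (hc : Nice G c) (h : BK G c b b' x x' a d y y') {z : V}
    (hz : z ∈ T1s G c) : z ∈ T1s G (ksw c b x a d) := by
  obtain ⟨r, s, zr, zs, rs, hr, hs⟩ := T1_vs hc hz
  have h1 := h.T1_NF hG hc (T1_B1 hz) zr zs rs hr
  have h2 := h.T1_NF hG hc (T1_B1 hz) zs zr (ma_symm rs) hs
  refine Finset.mem_filter.2 ⟨Finset.mem_univ _, h.k_B1 hG hc (T1_B1 hz), r, s, zr, zs,
    ⟨rs.1, ?_⟩, ?_⟩
  · rw [ksw, k_out h1, k_out h2]; exact rs.2
  · rw [ksw, k_out h1]; exact hr.1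

theorem k_At (hG : Cub G) (hc : Nice G c) (h : BK G c b b' x x' a d y y') {t : V}
    (ht : IsAt G c t) : IsAt G (ksw c b x a d) t := by
  obtain ⟨z, hz, hzt⟩ := ht
  exact ⟨z, h.k_T1 hG hc hz, h.k_MA hG hc (T1_B1 hz) hzt⟩

theorem k_W1 (hG : Cub G) (hc : Nice G c) (hR : Rule1 G c) (h : BK G c b b' x x' a d y y')
    {z r : V} (hz : z ∈ T1s G c) (hr : G.Adj z r) (hr1 : IsW1 G c r) :
    IsW1 G (ksw c b x a d) r := by
  obtain ⟨p, q, zp, zq, pq, hp, hq⟩ := T1_vs hc hz
  obtain ⟨s, zs, rs⟩ : ∃ s, G.Adj z s ∧ MA G c r s := by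
    by_cases e : p = r
    · subst e
      exact ⟨q, zq, pq⟩
    · exact ⟨p, zp, hR z r p (T1_B1 hz) hr zp (fun e' => e e'.symm) hr1 hp, by
        rw [hr1.1, hp.1]⟩
  have h1 := h.T1_NF hG hc (T1_B1 hz) hr zs rs hr1
  exact ⟨by rw [ksw, k_out h1]; exact hr1.1, by rw [ksw, md_out h1]; exact hr1.2⟩

end BK

/-- after the switch there is the block `a`, `d`; `b`, `x` -/
theorem World2.kblk (hG : Cub G) (hW : World2 G c k) (h : BK G c b b' x x' a d y y') :
    BK G (ksw c b x a d) a y d y' b x b' x' := by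
  have hc := hW.nice
  have hab := ne_wb h.cb h.ca
  have hdb := ne_wb h.cb h.cd
  have hax := ne_wb h.cx h.ca
  have hdx := ne_wb h.cx h.cd
  have kb : ksw c b x a d b = false := by
    rw [ksw, flp_in (by simp), h.cb]; rfl
  have kx : ksw c b x a d x = false := by
    rw [ksw, flp_in (by simp), h.cx]; rfl
  have ka : ksw c b x a d a = true := by
    rw [ksw, flp_in (by simp), h.ca]; rfl
  have kd : ksw c b x a d d = true := by
    rw [ksw, flp_in (by simp), h.cd]; rfl
  have out : ∀ t, t ≠ b → t ≠ x → t ≠ a → t ≠ d → ksw c b x a d t = c t :=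
    fun t h1 h2 h3 h4 => ksw_out c h1 h2 h3 h4
  have ky : ksw c b x a d y = true := by
    rw [out y (h.yb hc) (h.yx hc) (ne_wb h.wy.1 h.ca) (ne_wb h.wy.1 h.cd)]; exact h.wy.1
  have ky' : ksw c b x a d y' = true := by
    rw [out y' (h.swap2.yb hc) (h.swap2.yx hc) (ne_wb h.wy'.1 h.ca) (ne_wb h.wy'.1 h.cd)]
    exact h.wy'.1
  have kW : ∀ {b b' x x' a d y y' : V}, BK G c b b' x x' a d y y' →
      (∀ t, t ≠ b → t ≠ x → t ≠ a → t ≠ d → ksw c b x a d t = c t) →
      ksw c b x a d b = false → IsW0 G (ksw c b x a d) b' := by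
    intro b b' x x' a d y y' h out kb
    have kb' : ksw c b x a d b' = true := by
      rw [out b' h.mb.1.ne.symm h.b'x (ne_wb h.cb' h.ca) (ne_wb h.cb' h.cd)]; exact h.cb'
    refine ⟨kb', md0_of fun w hw => ?_⟩
    rw [kb']
    by_cases e : w = b
    · rw [e, kb]; simp
    · have h1 : c w = false := by
        by_contra hh
        have : c w = true := by simpa using hh
        exact e (nice_uniq hc ⟨hw, by rw [h.cb', this]⟩ (ma_symm h.mb))
      rw [out w e (ne_wb h.cx h1).symm (h.b'_na hG hc hw) (h.b'_nd hG hc hw), h1]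
      simp
  have n1 : ∀ {b b' x x' a d y y' : V}, BK G c b b' x x' a d y y' →
      ∃ u, G.Adj y u ∧ IsB1 G (ksw c b x a d) u := by
    intro b b' x x' a d y y' h
    obtain ⟨u, hu1, hu⟩ := hW.blk_n1 hG h
    exact ⟨u, hu1, h.k_B1 hG hc hu⟩
  have comm1 := ksw_comm1 c b x a d
  have comm2 := ksw_comm2 c b x a d
  have w1 : IsW0 G (ksw c b x a d) b' := kW h out kb
  have w2 : IsW0 G (ksw c b x a d) x' := by
    have h1 := kW (h.swap1 hc) (by
      intro t h1 h2 h3 h4
      rw [comm1]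
      exact out t h2 h1 h3 h4) (by rw [comm1]; exact kx)
    rw [comm1] at h1
    exact h1
  have v1 : ∃ u, G.Adj y u ∧ IsB1 G (ksw c b x a d) u := n1 h
  have v2 : ∃ u, G.Adj y' u ∧ IsB1 G (ksw c b x a d) u := by
    have h1 := n1 h.swap2
    rw [comm2] at h1
    exact h1
  have m1 : MA G (ksw c b x a d) a y := ⟨h.ay, by rw [ka, ky]⟩
  have m2 : MA G (ksw c b x a d) d y' := ⟨h.dy, by rw [kd, ky']⟩
  exact BK.mk m1 m2 ka kd kb kx h.ba.symm h.xa.symm h.bd.symm h.xd.symm h.mb.1 h.mx.1 h.ad h.bx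
    (ne_wb h.wy.1 h.cd) w1 w2 v1 v2

/-- the facts of the colouring before the switch, from those after the switch -/
theorem World2.k_back (hG : Cub G) (hW : World2 G c k) (h : BK G c b b' x x' a d y y') :
    (∀ u, IsB1 G (ksw c b x a d) u ↔ IsB1 G c u) ∧
    (∀ z, z ∈ T1s G (ksw c b x a d) ↔ z ∈ T1s G c) ∧
    (∀ u v, IsB1 G c u → (MA G (ksw c b x a d) u v ↔ MA G c u v)) ∧
    (∀ t, IsAt G (ksw c b x a d) t ↔ IsAt G c t) ∧
    (∀ z r g, GenR G (ksw c b x a d) z r g → GenR G c z r g) := by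
  have hc := hW.nice
  have hW' := hW.kswitch hG h
  have h' := hW.kblk hG h
  have e := ksw_ksw c b x a d
  have r1 : ∀ u, IsB1 G (ksw c b x a d) u ↔ IsB1 G c u := by
    intro u
    constructor
    · intro hu
      have := h'.k_B1 hG hW'.nice hu
      rwa [e] at this
    · exact h.k_B1 hG hc
  have r2 : ∀ z, z ∈ T1s G (ksw c b x a d) ↔ z ∈ T1s G c := by
    intro z
    constructor
    · intro hz
      have := h'.k_T1 hG hW'.nice hz
      rwa [e] at this
    · exact h.k_T1 hG hc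
  have r3 : ∀ u v, IsB1 G c u → (MA G (ksw c b x a d) u v ↔ MA G c u v) := by
    intro u v hu
    constructor
    · intro hm
      have := h'.k_MA hG hW'.nice ((r1 u).2 hu) hm
      rwa [e] at this
    · exact h.k_MA hG hc hu
  have r4 : ∀ t, IsAt G (ksw c b x a d) t ↔ IsAt G c t := by
    intro t
    constructor
    · intro ht
      have := h'.k_At hG hW'.nice ht
      rwa [e] at this
    · exact h.k_At hG hc
  refine ⟨r1, r2, r3, r4, ?_⟩
  rintro z r g ⟨g1, g2, g3, g4, g5, g6, g7⟩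
  have hw := h'.k_W1 hG hW'.nice (hW'.rule1 hG) g1 g2 g3
  rw [e] at hw
  exact ⟨(r2 z).1 g1, g2, hw, g4, (r1 g).1 g5, fun hh => g6 ((r2 g).2 hh),
    fun hh => g7 ((r4 g).2 hh)⟩

/-- if all neighbours of `y` in `B1` are mates of tops, then one of these tops has a generic
outer neighbour -/
theorem World2.blk_S1 (hG : Cub G) (hW : World2 G c k) (h : BK G c b b' x x' a d y y')
    (hall : ∀ u, G.Adj y u → IsB1 G c u → IsAt G c u) :
    ∃ z r g, Attd G c z y ∧ GenR G c z r g := by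
  have hc := hW.nice
  have hW' := hW.kswitch hG h
  have h' := hW.kblk hG h
  obtain ⟨r1, r2, r3, r4, r5⟩ := hW.k_back hG h
  obtain ⟨ρ, hρ⟩ := hW'.exists_rho hG
  have hS : S1 G (ksw c b x a d) y := by
    refine ⟨h'.wb' hW'.nice, ?_, ?_, ?_⟩
    · rintro ⟨z, hz, hzy, _⟩
      exact notop_W0 hG hc h.wy hzy.symm ((r2 z).1 hz)
    · obtain ⟨u, hu1, hu⟩ := hW.blk_n1 hG h
      exact ⟨u, hu1, (r1 u).2 hu⟩
    · intro u hu1 hu
      exact (r4 u).2 (hall u hu1 ((r1 u).1 hu))
  obtain ⟨z, g, ⟨hz, t, hzt, hty⟩, hg⟩ := hρ y hS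
  have hz' := (r2 z).1 hz
  exact ⟨z, ρ y, g, ⟨hz', t, (r3 z t (T1_B1 hz')).1 hzt, hty⟩, r5 _ _ _ hg⟩

end B

end

end Pool.Agent.Work.MP_1e13ac_W
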