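import Pool.Agent.Work.MP_1e13ac_W.Blk4

/-!
# MP_1e13ac_co, World 2: the payment of the sides of blocks (helper87)
-/

set_option autoImplicit false
set_option linter.unusedSectionVars false

namespace Pool.Agent.Work.MP_1e13ac_W

open Classical Finset Pool.Agent.Work.MP_1e13ac_Bis

noncomputable section

variable {V : Type} [Fintype V] {G : SimpleGraph V} {c : V → Bool} {k : ℕ}

open CntAux T1C T1G BK

/-- type A: a neighbour of `y` in `B1` without neighbour in `W1`, no mate of a top -/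
def OwnA (G : SimpleGraph V) (c : V → Bool) (y p : V) : Prop :=
  p ∈ B1p G c ∧ ¬ IsAt G c p ∧ G.Adj y p

/-- type C: generic outer neighbour of a T1, the mate of the top of which is adjacent to `y` and
has no neighbour in `W1` -/
def OwnC (G : SimpleGraph V) (c : V → Bool) (y p : V) : Prop :=
  ∃ z t g, GenR G c z p g ∧ MA G c z t ∧ G.Adj y t ∧ ∀ w, G.Adj t w → ¬ IsW1 G c w

/-- type B: `p`, the mate of a source of the block, with two neighbours in `B1` which are no mates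
of tops, one of them is adjacent to `y` -/
def OwnB (G : SimpleGraph V) (c : V → Bool) (y p : V) : Prop :=
  p ∈ Qs G c 2 ∧ ¬ IsTw G c p ∧ (∀ h, G.Adj p h → IsB1 G c h → ¬ IsAt G c h) ∧
    ∃ u, IsB1 G c u ∧ G.Adj y u ∧ G.Adj p u

/-- type D: generic outer neighbour of a T1 attached to the mate `m` of a source of the block -/
def OwnD (G : SimpleGraph V) (c : V → Bool) (m y p : V) : Prop :=
  ∃ z t g, GenR G c z p g ∧ MA G c z t ∧ G.Adj m t ∧ ∃ u, IsB1 G c u ∧ G.Adj y u ∧ G.Adj m u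

/-- `p` is a free vertex for the side `y` of a block with mates `b'`, `x'` -/
def Own (G : SimpleGraph V) (c : V → Bool) (b' x' y p : V) : Prop :=
  OwnA G c y p ∨ OwnC G c y p ∨
    ((∀ q, ¬ OwnA G c y q ∧ ¬ OwnC G c y q) ∧
      ((p = b' ∧ OwnB G c y p) ∨ (p = x' ∧ OwnB G c y p) ∨ OwnD G c b' y p ∨ OwnD G c x' y p))

/-- exceptional side: `y` and a mate have a common neighbour in `B1` and one in `B0` -/
def Ex1 (G : SimpleGraph V) (c : V → Bool) (b' x' y : V) : Prop :=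
  ∃ m u p, (m = b' ∨ m = x') ∧ IsB1 G c u ∧ G.Adj y u ∧ G.Adj m u ∧ IsB0 G c p ∧ G.Adj y p ∧
    G.Adj m p

theorem Own.swap {b' x' y p : V} (h : Own G c b' x' y p) : Own G c x' b' y p := by
  rcases h with h | h | ⟨h1, h | h | h | h⟩
  · exact Or.inl h
  · exact Or.inr (Or.inl h)
  · exact Or.inr (Or.inr ⟨h1, Or.inr (Or.inl h)⟩)
  · exact Or.inr (Or.inr ⟨h1, Or.inl h⟩)
  · exact Or.inr (Or.inr ⟨h1, Or.inr (Or.inr (Or.inr h))⟩)
  · exact Or.inr (Or.inr ⟨h1, Or.inr (Or.inr (Or.inl h))⟩)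

/-- the third neighbour -/
theorem third (hG : Cub G) {v p q : V} (hp : G.Adj v p) (hq : G.Adj v q) (hpq : p ≠ q) :
    ∃ r, G.Adj v r ∧ r ≠ p ∧ r ≠ q ∧ ∀ w, G.Adj v w → w = p ∨ w = q ∨ w = r := by
  have h1 : ((nbs G v).erase p).card = 2 := by
    rw [Finset.card_erase_of_mem (mem_nbs.2 hp), hG v]
  have h2 : (((nbs G v).erase p).erase q).card = 1 := by
    rw [Finset.card_erase_of_mem (Finset.mem_erase.2 ⟨hpq.symm, mem_nbs.2 hq⟩), h1]
  obtain ⟨r, hr⟩ := Finset.card_eq_one.1 h2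
  have h3 : r ∈ ((nbs G v).erase p).erase q := by rw [hr]; simp
  rw [Finset.mem_erase, Finset.mem_erase, mem_nbs] at h3
  exact ⟨r, h3.2.2, h3.2.1, h3.1, nb3 hG hp hq h3.2.2 hpq h3.2.1.symm h3.1.symm⟩

section B

variable {b b' x x' a d y y' : V}

/-- the third neighbour of `b'` -/
theorem BK.b'3 (hG : Cub G) (hc : Nice G c) (h : BK G c b b' x x' a d y y') {u : V}
    (hu : c u = false) (hbu : G.Adj b' u) :
    ∃ q, G.Adj b' q ∧ q ≠ b ∧ q ≠ u ∧ c q = false ∧ ∀ w, G.Adj b' w → w = b ∨ w = u ∨ w = q := by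
  obtain ⟨q, h1, h2, h3, h4⟩ := third hG h.mb.1.symm hbu (ne_wb h.cb hu)
  refine ⟨q, h1, h2, h3, ?_, h4⟩
  by_contra hh
  have : c q = true := by simpa using hh
  exact h2 (nice_uniq hc ⟨h1, by rw [h.cb', this]⟩ (ma_symm h.mb))

/-- the third neighbour of `y` -/
theorem BK.y3 (hG : Cub G) (hc : Nice G c) (h : BK G c b b' x x' a d y y') {u : V}
    (hu : IsB1 G c u) (hyu : G.Adj y u) :
    ∃ v, G.Adj y v ∧ v ≠ a ∧ v ≠ u ∧ c v = false ∧ ∀ w, G.Adj y w → w = a ∨ w = u ∨ w = v := by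
  obtain ⟨v, h1, h2, h3, h4⟩ := third hG h.ay.symm hyu (h.B1a hG hc hu).symm
  refine ⟨v, h1, h2, h3, ?_, h4⟩
  by_contra hh
  have : c v = true := by simpa using hh
  have h5 : MA G c y v := ⟨h1, by rw [h.wy.1, this]⟩
  have h6 := ma_md hc h5
  have h7 := h.wy.2
  omega

theorem B01 (hc : Nice G c) {v : V} (h : c v = false) : IsB0 G c v ∨ IsB1 G c v := by
  have := hc v
  have : md G c v = 0 ∨ md G c v = 1 := by omega
  rcases this with h1 | h1
  · exact Or.inl ⟨h, h1⟩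
  · exact Or.inr ⟨h, h1⟩

theorem B0_ne_B1 {u v : V} (hu : IsB0 G c u) (hv : IsB1 G c v) : u ≠ v := by
  rintro rfl
  have h1 := hu.2
  have h2 := hv.2
  omega

/-- a neighbour `u ∈ B1` of `y`, not adjacent to `b'`, `x'`, has no neighbour in `W1` -/
theorem World2.unsh (hG : Cub G) (hW : World2 G c k) (h : BK G c b b' x x' a d y y') {u : V}
    (hu : IsB1 G c u) (hyu : G.Adj y u) (h1 : ¬ G.Adj b' u) (h2 : ¬ G.Adj x' u) (w : V)
    (hw : G.Adj u w) : ¬ IsW1 G c w := by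
  intro hw1
  rcases hW.blk_X1 hG h hu hyu hw hw1 with e | e
  · exact h1 (e ▸ hw.symm)
  · exact h2 (e ▸ hw.symm)

/-- step 1: without elements of type A and C an unshared neighbour of `y` is the mate of a top
without generic outer neighbours -/
theorem World2.step1 (hG : Cub G) (hW : World2 G c k) (h : BK G c b b' x x' a d y y')
    (hAC : ∀ q, ¬ OwnA G c y q ∧ ¬ OwnC G c y q) {u : V}
    (hu : IsB1 G c u) (hyu : G.Adj y u) (h1 : ¬ G.Adj b' u) (h2 : ¬ G.Adj x' u) :
    ∃ z ∈ T1s G c, MA G c z u ∧ ∀ r g, ¬ GenR G c z r g := by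
  have h3 := hW.unsh hG h hu hyu h1 h2
  by_cases hAt : IsAt G c u
  · obtain ⟨z, hz, hzu⟩ := hAt
    exact ⟨z, hz, hzu, fun r g hg => (hAC r).2 ⟨z, u, g, hg, hzu, hyu, h3⟩⟩
  · exact absurd ⟨(mem_B1p u).2 ⟨hu, nn_zero.2 fun w hw => h3 w hw⟩, hAt, hyu⟩ (hAC u).1

theorem genR_ntop (hc : Nice G c) {z t : V} (ht : MA G c z t) (htn : t ∉ T1s G c) :
    ∀ z' ∈ T1s G c, ¬ MA G c z z' := fun _ hz' h => htn (nice_uniq hc ht h ▸ hz')

/-- free because the `W1` neighbour of the attachment has a neighbour which is no attachment -/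
theorem World2.free_D (hG : Cub G) (hW : World2 G c k) (h : BK G c b b' x x' a d y y')
    (ρ : V → V) {z t r g : V} (hg : GenR G c z r g) (hzt : MA G c z t) (ht : G.Adj b' t)
    (hn : ¬ S1 G c b' ∨ r ≠ ρ b') : FreeR G c ρ r := by
  have hc := hW.nice
  have htn := h.notop_b' hG hc ht
  refine Or.inr (Or.inr ⟨z, g, hg, genR_ntop hc hzt htn, ?_⟩)
  rintro v hv ⟨_, t', h1, h2⟩
  have e := nice_uniq hc h1 hzt
  subst e
  have e2 : v = b' := uniq_W1 hG hc (hW.rule1 hG) (mate_B1 hc hg.1 hzt) htn h2 hv.1 ht.symm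
    (h.wb' hc)
  subst e2
  rcases hn with hn | hn
  · exact absurd hv hn
  · exact hn

/-- step 3: `y` and `b'` have a common neighbour in `B1` -/
theorem World2.step3 (hG : Cub G) (hW : World2 G c k) (h : BK G c b b' x x' a d y y')
    (ρ : V → V) (hAC : ∀ q, ¬ OwnA G c y q ∧ ¬ OwnC G c y q)
    (hEx : ¬ Ex1 G c b' x' y) {u : V} (hu : IsB1 G c u) (hyu : G.Adj y u) (hbu : G.Adj b' u) :
    ∃ p, FreeR G c ρ p ∧ ((p = b' ∧ OwnB G c y p) ∨ (p = x' ∧ OwnB G c y p) ∨
      OwnD G c b' y p ∨ OwnD G c x' y p) := by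
  have hc := hW.nice
  have hR := hW.rule1 hG
  obtain ⟨q, q1, q2, q3, q4, q5⟩ := h.b'3 hG hc hu.1 hbu
  obtain ⟨v, v1, v2, v3, v4, v5⟩ := h.y3 hG hc hu hyu
  have un := notop_W0 hG hc h.wy hyu
  have vn := notop_W0 hG hc h.wy v1
  have bTw : ¬ IsTw G c b' := by
    rintro ⟨z, hz, hzb, _⟩
    exact h.notop_b' hG hc hzb.symm hz
  have xux : ¬ G.Adj x' u := fun hh => hW.b'x'_nc hG h hu hbu hh
  -- `b'` is free
  have freeB : IsB1 G c q → ¬ IsAt G c u → ¬ IsAt G c q → ∃ p, FreeR G c ρ p ∧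
      ((p = b' ∧ OwnB G c y p) ∨ (p = x' ∧ OwnB G c y p) ∨ OwnD G c b' y p ∨
        OwnD G c x' y p) := by
    intro hq hu' hq'
    have hQ : b' ∈ Qs G c 2 := mem_Q2 hG (h.wb' hc) q3.symm hbu hu q1 hq
    have hall : ∀ w, G.Adj b' w → IsB1 G c w → ¬ IsAt G c w := by
      intro w hw hw1
      rcases q5 w hw with e | e | e
      · have := h.cb
        rw [← e, hw1.1] at this
        exact absurd this (by simp)
      · rw [e]; exact hu'
      · rw [e]; exact hq'
    exact ⟨b', Or.inr (Or.inl ⟨hQ, bTw, hall⟩), Or.inl ⟨rfl, hQ, bTw, hall, u, hu, hyu, hbu⟩⟩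
  -- `b'` is no S1 vertex
  have nS1 : ∀ w, G.Adj b' w → IsB1 G c w → ¬ IsAt G c w → ¬ S1 G c b' :=
    fun w h1 h2 h3 h4 => h3 (h4.2.2.2 w h1 h2)
  have viaD : ∀ {z t r g : V}, GenR G c z r g → MA G c z t → G.Adj b' t →
      (¬ S1 G c b' ∨ r ≠ ρ b') → ∃ p, FreeR G c ρ p ∧
      ((p = b' ∧ OwnB G c y p) ∨ (p = x' ∧ OwnB G c y p) ∨ OwnD G c b' y p ∨
        OwnD G c x' y p) := by
    intro z t r g hg hzt ht hn
    exact ⟨r, hW.free_D hG h ρ hg hzt ht hn,
      Or.inr (Or.inr (Or.inl ⟨z, t, g, hg, hzt, ht, u, hu, hyu, hbu⟩))⟩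
  rcases B01 hc v4 with hv | hv
  · -- `v ∈ B0`
    rcases B01 hc q4 with hq | hq
    · by_cases hqv : v = q
      · subst hqv
        exact absurd ⟨b', u, v, Or.inl rfl, hu, hyu, hbu, hv, v1, q1⟩ hEx
      · exact (hW.blk_C1 hG h hu hyu hbu v1 hv v2 q1 hq hqv).elim
    · by_cases hqAt : IsAt G c q
      · obtain ⟨z, hz, hzq⟩ := hqAt
        by_cases huAt : IsAt G c u
        · obtain ⟨w, hw, hwu⟩ := huAt
          exact (hW.blk_Sc hG h hw hwu hyu hbu v1 hv v2 q1 hz hzq q3.symm).elim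
        · obtain ⟨r, g, hg⟩ := hW.blk_Sd hG h hu hyu hbu v1 hv v2 q1 hz hzq q3.symm
          exact viaD hg hzq q1 (Or.inl (nS1 u hbu hu huAt))
      · by_cases huAt : IsAt G c u
        · obtain ⟨z, r, g, ⟨hz, t, hzt, hty⟩, hg⟩ := hW.blk_S1 hG h (by
            intro w hw hw1
            rcases v5 w hw with e | e | e
            · exact absurd e (h.B1a hG hc hw1)
            · rw [e]; exact huAt
            · rw [e] at hw1; exact absurd rfl (B0_ne_B1 hv hw1))
          have htB := mate_B1 hc hz hzt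
          have e : t = u := by
            rcases v5 t hty.symm with e | e | e
            · exact absurd e (h.B1a hG hc htB)
            · exact e
            · rw [e] at htB; exact absurd rfl (B0_ne_B1 hv htB)
          subst e
          exact viaD hg hzt hbu (Or.inl (nS1 q q1 hq hqAt))
        · exact freeB hq huAt hqAt
  · -- `v ∈ B1`
    by_cases hbv : G.Adj b' v
    · have evq : v = q := by
        rcases q5 v hbv with e | e | e
        · have := h.cb
          rw [← e, hv.1] at this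
          exact absurd this (by simp)
        · exact absurd e v3
        · exact e
      subst evq
      by_cases hm : MA G c u v
      · have huAt : ¬ IsAt G c u := by
          rintro ⟨z, hz, hzu⟩
          exact vn (nice_uniq hc (ma_symm hzu) hm ▸ hz)
        have hvAt : ¬ IsAt G c v := by
          rintro ⟨z, hz, hzv⟩
          exact un (nice_uniq hc (ma_symm hzv) (ma_symm hm) ▸ hz)
        exact freeB hv huAt hvAt
      · exact (hW.blk_F3 hG h hu hv v3.symm hm hyu v1 hbu hbv).elim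
    by_cases hxv : G.Adj x' v
    · by_cases hm : MA G c u v
      · have huAt : ¬ IsAt G c u := by
          rintro ⟨z, hz, hzu⟩
          exact vn (nice_uniq hc (ma_symm hzu) hm ▸ hz)
        have hvAt : ¬ IsAt G c v := by
          rintro ⟨z, hz, hzv⟩
          exact un (nice_uniq hc (ma_symm hzv) (ma_symm hm) ▸ hz)
        rcases B01 hc q4 with hq | hq
        · exact (hW.blk_F4Q hG h hm hu.1 hyu v1 hbu hxv q1 hq).elim
        have hs := h.swap1 hc
        obtain ⟨p, p1, p2, p3, p4, p5⟩ := hs.b'3 hG hc hv.1 hxv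
        rcases B01 hc p4 with hp | hp
        · exact (hW.blk_F4Q hG hs (ma_symm hm) hv.1 v1 hyu hxv hbu p1 hp).elim
        by_cases hqAt : IsAt G c q
        · by_cases hpAt : IsAt G c p
          · obtain ⟨z, hz, hzq⟩ := hqAt
            obtain ⟨w, hw, hwp⟩ := hpAt
            exact (hW.blk_F4A hG h hm hu.1 hyu v1 hbu hxv q1 hz hzq p1 hw hwp).elim
          · have xTw : ¬ IsTw G c x' := by
              rintro ⟨z, hz, hzb, _⟩
              exact hs.notop_b' hG hc hzb.symm hz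
            have hQ : x' ∈ Qs G c 2 := mem_Q2 hG (h.wx' hc) p3.symm hxv hv p1 hp
            have hall : ∀ w, G.Adj x' w → IsB1 G c w → ¬ IsAt G c w := by
              intro w hw hw1
              rcases p5 w hw with e | e | e
              · have := h.cx
                rw [← e, hw1.1] at this
                exact absurd this (by simp)
              · rw [e]; exact hvAt
              · rw [e]; exact hpAt
            exact ⟨x', Or.inr (Or.inl ⟨hQ, xTw, hall⟩),
              Or.inr (Or.inl ⟨rfl, hQ, xTw, hall, v, hv, v1, hxv⟩)⟩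
        · exact freeB hq huAt hqAt
      · exact (hW.blk_F4 hG h hu hv v3.symm hm hyu v1 hbu hxv).elim
    · -- `v` is unshared
      obtain ⟨z₂, hz₂, hzv, hn₂⟩ := hW.step1 hG h hAC hv v1 hbv hxv
      rcases B01 hc q4 with hq | hq
      · obtain ⟨r, g, hg⟩ := hW.blk_Sa hG h hu hyu hbu q1 hq v1 hz₂ hzv v3.symm
        exact (hn₂ r g hg).elim
      by_cases huAt : IsAt G c u
      · -- the top of `u` has a generic outer neighbour
        obtain ⟨z, r, g, ⟨hz, t, hzt, hty⟩, hg⟩ := hW.blk_S1 hG h (by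
          intro w hw hw1
          rcases v5 w hw with e | e | e
          · exact absurd e (h.B1a hG hc hw1)
          · rw [e]; exact huAt
          · rw [e]; exact ⟨z₂, hz₂, hzv⟩)
        have htB := mate_B1 hc hz hzt
        have e : t = u := by
          rcases v5 t hty.symm with e | e | e
          · exact absurd e (h.B1a hG hc htB)
          · exact e
          · rw [e] at hzt
            have e2 : z = z₂ := nice_uniq hc (ma_symm hzt) (ma_symm hzv)
            rw [e2] at hg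
            exact (hn₂ r g hg).elim
        subst e
        by_cases hqAt : IsAt G c q
        · obtain ⟨z₃, hz₃, hz3q⟩ := hqAt
          obtain ⟨r₃, g₃, hg₃⟩ := hW.blk_PB hG h v1 hz₂ hzv hyu hbu hz hzt q1 hz₃ hz3q v3
            q3.symm hbv
          rcases hg₃ with hg₃ | hg₃
          · exact (hn₂ r₃ g₃ hg₃).elim
          · by_cases e : r = ρ b'
            · refine viaD hg₃ hz3q q1 (Or.inr ?_)
              intro e3
              have e4 : r = r₃ := by rw [e, e3]
              rw [← e4] at hg₃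
              have e5 := gen_uniq hG hg hg₃
              rw [e5] at hzt
              exact q3 (nice_uniq hc hz3q hzt)
            · exact viaD hg hzt hbu (Or.inr e)
        · exact viaD hg hzt hbu (Or.inl (nS1 q q1 hq hqAt))
      · by_cases hqAt : IsAt G c q
        · obtain ⟨z₃, hz₃, hz3q⟩ := hqAt
          obtain ⟨r, g, hg | hg⟩ := hW.blk_PA hG h hu hyu hbu v1 hz₂ hzv v3.symm hbv q1 hz₃
            hz3q q3.symm
          · exact (hn₂ r g hg).elim
          · exact viaD hg hz3q q1 (Or.inl (nS1 u hbu hu huAt))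
        · exact freeB hq huAt hqAt

/-- every side which is not exceptional has a free vertex -/
theorem World2.side_ex (hG : Cub G) (hW : World2 G c k) (h : BK G c b b' x x' a d y y')
    (ρ : V → V) (hEx : ¬ Ex1 G c b' x' y) :
    ∃ p, FreeR G c ρ p ∧ Own G c b' x' y p := by
  have hc := hW.nice
  by_cases hA : ∃ q, OwnA G c y q
  · obtain ⟨q, hq⟩ := hA
    exact ⟨q, Or.inl ⟨hq.1, hq.2.1⟩, Or.inl hq⟩
  by_cases hC : ∃ q, OwnC G c y q
  · obtain ⟨q, hq⟩ := hC
    obtain ⟨z, t, g, hg, hzt, hyt, ht⟩ := id hq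
    refine ⟨q, Or.inr (Or.inr ⟨z, g, hg, genR_ntop hc hzt (notop_W0 hG hc h.wy hyt), ?_⟩),
      Or.inr (Or.inl hq)⟩
    rintro v hv ⟨_, t', h1, h2⟩
    have e := nice_uniq hc h1 hzt
    subst e
    exact absurd hv.1 (ht v h2)
  have hAC : ∀ q, ¬ OwnA G c y q ∧ ¬ OwnC G c y q :=
    fun q => ⟨fun hq => hA ⟨q, hq⟩, fun hq => hC ⟨q, hq⟩⟩
  by_cases hb : ∃ u, IsB1 G c u ∧ G.Adj y u ∧ G.Adj b' u
  · obtain ⟨u, hu, hyu, hbu⟩ := hb
    obtain ⟨p, h1, h2⟩ := hW.step3 hG h ρ hAC hEx hu hyu hbu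
    exact ⟨p, h1, Or.inr (Or.inr ⟨hAC, h2⟩)⟩
  by_cases hx : ∃ u, IsB1 G c u ∧ G.Adj y u ∧ G.Adj x' u
  · obtain ⟨u, hu, hyu, hxu⟩ := hx
    obtain ⟨p, h1, h2⟩ := hW.step3 hG (h.swap1 hc) ρ hAC (by
      rintro ⟨m, u, p, hm, h3⟩
      exact hEx ⟨m, u, p, hm.symm, h3⟩) hu hyu hxu
    refine ⟨p, h1, Own.swap (Or.inr (Or.inr ⟨hAC, h2⟩))⟩
  exfalso
  obtain ⟨z, r, g, ⟨hz, t, hzt, hty⟩, hg⟩ := hW.blk_S1 hG h (by
    intro w hw hw1
    obtain ⟨z, hz, hzw, _⟩ := hW.step1 hG h hAC hw1 hw (fun hh => hb ⟨w, hw1, hw, hh⟩)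
      (fun hh => hx ⟨w, hw1, hw, hh⟩)
    exact ⟨z, hz, hzw⟩)
  have htB := mate_B1 hc hz hzt
  obtain ⟨z', hz', hzt', hn⟩ := hW.step1 hG h hAC htB hty.symm
    (fun hh => hb ⟨t, htB, hty.symm, hh⟩) (fun hh => hx ⟨t, htB, hty.symm, hh⟩)
  have e : z = z' := nice_uniq hc (ma_symm hzt) (ma_symm hzt')
  rw [e] at hg
  exact hn r g hg

/-! ## Injectivity -/

theorem GenR.white {z r g : V} (h : GenR G c z r g) : c r = true := h.2.2.1.1

theorem OwnA.black {p : V} (h : OwnA G c y p) : c p = false := ((mem_B1p p).1 h.1).1.1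

/-- the free vertex of a side belongs to a T1 or to the block, or is black -/
theorem own_cases {p : V} (h : Own G c b' x' y p) :
    OwnA G c y p ∨ (∃ z t g, GenR G c z p g ∧ MA G c z t ∧
      ((G.Adj y t ∧ ∀ w, G.Adj t w → ¬ IsW1 G c w) ∨
        ∃ m, (m = b' ∨ m = x') ∧ G.Adj m t ∧ ∃ u, IsB1 G c u ∧ G.Adj y u ∧ G.Adj m u)) ∨
      ((∀ q, ¬ OwnA G c y q ∧ ¬ OwnC G c y q) ∧ (p = b' ∨ p = x') ∧ OwnB G c y p) := by
  rcases h with h | ⟨z, t, g, h1, h2, h3⟩ | ⟨h1, ⟨e, h⟩ | ⟨e, h⟩ | ⟨z, t, g, h2, h3, h4⟩ |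
    ⟨z, t, g, h2, h3, h4⟩⟩
  · exact Or.inl h
  · exact Or.inr (Or.inl ⟨z, t, g, h1, h2, Or.inl h3⟩)
  · exact Or.inr (Or.inr ⟨h1, Or.inl e, h⟩)
  · exact Or.inr (Or.inr ⟨h1, Or.inr e, h⟩)
  · exact Or.inr (Or.inl ⟨z, t, g, h2, h3, Or.inr ⟨b', Or.inl rfl, h4⟩⟩)
  · exact Or.inr (Or.inl ⟨z, t, g, h2, h3, Or.inr ⟨x', Or.inr rfl, h4⟩⟩)

/-- the two sides of a block: `b'` shares neighbours with both -/
theorem World2.both (hG : Cub G) (hW : World2 G c k) (h : BK G c b b' x x' a d y y')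
    {u v : V} (hu : IsB1 G c u) (hyu : G.Adj y u) (hbu : G.Adj b' u) (hv : IsB1 G c v)
    (hyv : G.Adj y' v) (hbv : G.Adj b' v) : MA G c u v := by
  by_contra hm
  have huv : u ≠ v := by
    rintro rfl
    exact hW.blk_F6s hG h hu hyu hyv
  exact hW.blk_F5 hG h hu hv huv hm hyu hbu hyv hbv

theorem World2.both_B (hG : Cub G) (hW : World2 G c k) (h : BK G c b b' x x' a d y y')
    (hAC : ∀ q, ¬ OwnA G c y q ∧ ¬ OwnC G c y q) (hAC' : ∀ q, ¬ OwnA G c y' q ∧ ¬ OwnC G c y' q)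
    {u v : V} (hu : IsB1 G c u) (hyu : G.Adj y u) (hbu : G.Adj b' u) (hv : IsB1 G c v)
    (hyv : G.Adj y' v) (hbv : G.Adj b' v) : False := by
  have hc := hW.nice
  have hm := hW.both hG h hu hyu hbu hv hyv hbv
  have hW' := hW.kswitch hG h
  have h' := hW.kblk hG h
  obtain ⟨r1, r2, r3, r4, r5⟩ := hW.k_back hG h
  have hm' := (r3 u v hu).2 hm
  have hb3 : ∀ w, G.Adj b' w → w = b ∨ w = u ∨ w = v :=
    nb3 hG h.mb.1.symm hbu hbv (ne_wb h.cb hu.1) (ne_wb h.cb hv.1) hm.1.ne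
  -- the third neighbours
  have key : ∀ {b b' x x' a d y y' : V} (h : BK G c b b' x x' a d y y')
      (hAC : ∀ q, ¬ OwnA G c y q ∧ ¬ OwnC G c y q) {u v : V} (hu : IsB1 G c u)
      (hyu : G.Adj y u) (hbu : G.Adj b' u) (hv : IsB1 G c v) (hyv : G.Adj y' v)
      (hbv : G.Adj b' v) (hm : MA G c u v)
      (hb3 : ∀ w, G.Adj b' w → w = b ∨ w = u ∨ w = v),
      ∃ t z, G.Adj y t ∧ z ∈ T1s G c ∧ MA G c z t := by
    intro b b' x x' a d y y' h hAC u v hu hyu hbu hv hyv hbv hm hb3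
    have hW' := hW.kswitch hG h
    have h' := hW.kblk hG h
    obtain ⟨r1, r2, r3, r4, r5⟩ := hW.k_back hG h
    obtain ⟨t, t1, t2, t3, t4, t5⟩ := h.y3 hG hc hu hyu
    have kt : ksw c b x a d t = false := by
      rw [ksw_out c (ne_wb h.cb t4).symm (ne_wb h.cx t4).symm t2 (hW.y_nd hG h t1)]
      exact t4
    rcases B01 hW'.nice kt with ht | ht
    · exact (hW'.blk_F4Q hG h' ((r3 u v hu).2 hm) ((r1 u).2 hu).1 hbu hbv hyu hyv t1 ht).elim
    · have htB := (r1 t).1 ht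
      have tv : t ≠ v := by
        rintro rfl
        exact hW.blk_F6s hG h htB t1 hyv
      have hbt : ¬ G.Adj b' t := by
        intro hh
        rcases hb3 t hh with e | e | e
        · exact ne_wb h.cb t4 e.symm
        · exact t3 e
        · exact tv e
      have hxt : ¬ G.Adj x' t := by
        intro hh
        refine hW.blk_F4 hG h hu htB t3.symm ?_ hyu t1 hbu hh
        intro hmt
        exact tv (nice_uniq hc hmt hm)
      obtain ⟨z, hz, hzt, _⟩ := hW.step1 hG h hAC htB t1 hbt hxt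
      exact ⟨t, z, t1, hz, hzt⟩
  obtain ⟨t, z, t1, hz, hzt⟩ := key h hAC hu hyu hbu hv hyv hbv hm hb3
  obtain ⟨t', z', t1', hz', hzt'⟩ := key h.swap2 hAC' hv hyv hbv hu hyu hbu (ma_symm hm)
    (fun w hw => by
      rcases hb3 w hw with e | e | e
      · exact Or.inl e
      · exact Or.inr (Or.inr e)
      · exact Or.inr (Or.inl e))
  exact hW'.blk_F4A hG h' hm' ((r1 u).2 hu).1 hbu hbv hyu hyv t1 ((r2 z).2 hz)
    ((r3 z t (T1_B1 hz)).2 hzt) t1' ((r2 z').2 hz') ((r3 z' t' (T1_B1 hz')).2 hzt')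

/-- the two sides of one block have different free vertices -/
theorem World2.own_sides (hG : Cub G) (hW : World2 G c k) (h : BK G c b b' x x' a d y y')
    {p : V} (h1 : Own G c b' x' y p) (h2 : Own G c b' x' y' p) : False := by
  have hc := hW.nice
  have hR := hW.rule1 hG
  -- the case of two T1
  have gg : ∀ {z t g z' t' g' : V}, GenR G c z p g → MA G c z t → GenR G c z' p g' →
      MA G c z' t' → t' = t := by
    intro z t g z' t' g' a1 a2 a3 a4
    have e := gen_uniq hG a1 a3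
    subst e
    exact nice_uniq hc a4 a2
  have bsh : ∀ {m u v : V}, (m = b' ∨ m = x') → IsB1 G c u → G.Adj y u → G.Adj m u →
      IsB1 G c v → G.Adj y' v → G.Adj m v → MA G c u v := by
    intro m u v hm hu hyu hmu hv hyv hmv
    rcases hm with rfl | rfl
    · exact hW.both hG h hu hyu hmu hv hyv hmv
    · exact hW.both hG (h.swap1 hc) hu hyu hmu hv hyv hmv
  have wm : ∀ {m : V}, (m = b' ∨ m = x') → IsW1 G c m := by
    intro m hm
    rcases hm with rfl | rfl
    · exact h.wb' hc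
    · exact h.wx' hc
  have nm : ∀ {m t : V}, (m = b' ∨ m = x') → G.Adj m t → t ∉ T1s G c := by
    intro m t hm ht
    rcases hm with rfl | rfl
    · exact h.notop_b' hG hc ht
    · exact (h.swap1 hc).notop_b' hG hc ht
  rcases own_cases h1 with a | ⟨z, t, g, a1, a2, a3⟩ | ⟨a1, a2, a3⟩
  · rcases own_cases h2 with e | ⟨z', t', g', e1, e2, e3⟩ | ⟨e1, e2, e3⟩
    · exact hW.blk_F6s hG h ((mem_B1p p).1 a.1).1 a.2.2 e.2.2
    · exact ne_wb (GenR.white e1) (OwnA.black a) rfl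
    · exact ne_wb (Finset.mem_filter.1 e3.1).2.1.1 (OwnA.black a) rfl
  · rcases own_cases h2 with e | ⟨z', t', g', e1, e2, e3⟩ | ⟨e1, e2, e3⟩
    · exact ne_wb (GenR.white a1) (OwnA.black e) rfl
    · have et := gg a1 a2 e1 e2
      subst et
      have htB := mate_B1 hc a1.1 a2
      rcases a3 with ⟨a3, a4⟩ | ⟨m, hm, hmt, u, hu, hyu, hmu⟩
      · rcases e3 with ⟨e3, e4⟩ | ⟨m', hm', hmt', _⟩
        · exact hW.blk_F6s hG h htB a3 e3
        · exact a4 m' hmt'.symm (wm hm')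
      · rcases e3 with ⟨e3, e4⟩ | ⟨m', hm', hmt', v, hv, hyv, hmv⟩
        · exact e4 m hmt.symm (wm hm)
        · have em : m = m' := uniq_W1 hG hc hR htB (nm hm hmt) hmt.symm (wm hm) hmt'.symm
            (wm hm')
          subst em
          have huv := bsh hm hu hyu hmu hv hyv hmv
          -- `t` is `u` or `v`
          have h5 := B1_two hG (wm hm) huv.1.ne hmu hu hmv hv hmt htB
          rcases h5 with e5 | e5
          · rw [e5] at a2
            exact notop_W0 hG hc h.wy' hyv (nice_uniq hc (ma_symm a2) huv ▸ a1.1)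
          · rw [e5] at a2
            exact notop_W0 hG hc h.wy hyu (nice_uniq hc (ma_symm a2) (ma_symm huv) ▸ a1.1)
    · exact e3.2.1 ⟨z, a1.1, a1.2.1, a1.2.2.1⟩
  · rcases own_cases h2 with e | ⟨z', t', g', e1, e2, e3⟩ | ⟨e1, e2, e3⟩
    · exact ne_wb (Finset.mem_filter.1 a3.1).2.1.1 (OwnA.black e) rfl
    · exact a3.2.1 ⟨z', e1.1, e1.2.1, e1.2.2.1⟩
    · obtain ⟨_, _, _, u, hu, hyu, hpu⟩ := a3
      obtain ⟨_, _, _, v, hv, hyv, hpv⟩ := e3
      rcases a2 with rfl | rfl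
      · exact hW.both_B hG h a1 e1 hu hyu hpu hv hyv hpv
      · exact hW.both_B hG (h.swap1 hc) a1 e1 hu hyu hpu hv hyv hpv

/-- sides of disjoint blocks have different free vertices -/
theorem World2.own_disj (hG : Cub G) (hW : World2 G c k) (h : BK G c b b' x x' a d y y')
    {p p' q q' e f w w' : V} (h2 : BK G c p p' q q' e f w w') (hbp : b ≠ p) (hbq : b ≠ q)
    {r : V} (o1 : Own G c b' x' y r) (o2 : Own G c p' q' w r) : False := by
  have hc := hW.nice
  have hR := hW.rule1 hG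
  have e5 := h.disj_x hG hc h2 hbp hbq
  have e6 := h.disj_x hG hc (h2.swap1 hc) hbq hbp
  have mm : ∀ {m m' : V}, (m = b' ∨ m = x') → (m' = p' ∨ m' = q') → m ≠ m' := by
    intro m m' hm hm' hh
    rcases hm with rfl | rfl
    · rcases hm' with rfl | rfl
      · exact hbp (nice_uniq hc (ma_symm h.mb) (hh ▸ ma_symm h2.mb))
      · exact hbq (nice_uniq hc (ma_symm h.mb) (hh ▸ ma_symm h2.mx))
    · rcases hm' with rfl | rfl
      · exact e5 (nice_uniq hc (ma_symm h.mx) (hh ▸ ma_symm h2.mb))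
      · exact e6 (nice_uniq hc (ma_symm h.mx) (hh ▸ ma_symm h2.mx))
  have wm : ∀ {m : V}, (m = b' ∨ m = x') → IsW1 G c m := by
    intro m hm
    rcases hm with rfl | rfl
    · exact h.wb' hc
    · exact h.wx' hc
  have wm' : ∀ {m : V}, (m = p' ∨ m = q') → IsW1 G c m := by
    intro m hm
    rcases hm with rfl | rfl
    · exact h2.wb' hc
    · exact h2.wx' hc
  have nm : ∀ {m t : V}, (m = b' ∨ m = x') → G.Adj m t → t ∉ T1s G c := by
    intro m t hm ht
    rcases hm with rfl | rfl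
    · exact h.notop_b' hG hc ht
    · exact (h.swap1 hc).notop_b' hG hc ht
  rcases own_cases o1 with a | ⟨z, t, g, a1, a2, a3⟩ | ⟨a1, a2, a3⟩
  · rcases own_cases o2 with e | ⟨z', t', g', e1, e2, e3⟩ | ⟨e1, e2, e3⟩
    · exact hW.blk_F6 hG h h2 hbp hbq ((mem_B1p r).1 a.1).1 a.2.2 e.2.2
    · exact ne_wb (GenR.white e1) (OwnA.black a) rfl
    · exact ne_wb (Finset.mem_filter.1 e3.1).2.1.1 (OwnA.black a) rfl
  · rcases own_cases o2 with e | ⟨z', t', g', e1, e2, e3⟩ | ⟨e1, e2, e3⟩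
    · exact ne_wb (GenR.white a1) (OwnA.black e) rfl
    · have ez := gen_uniq hG a1 e1
      subst ez
      have et := nice_uniq hc e2 a2
      subst et
      have htB := mate_B1 hc a1.1 a2
      rcases a3 with ⟨a3, a4⟩ | ⟨m, hm, hmt, _⟩
      · rcases e3 with ⟨e3, e4⟩ | ⟨m', hm', hmt', _⟩
        · exact hW.blk_F6 hG h h2 hbp hbq htB a3 e3
        · exact a4 m' hmt'.symm (wm' hm')
      · rcases e3 with ⟨e3, e4⟩ | ⟨m', hm', hmt', _⟩
        · exact e4 m hmt.symm (wm hm)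
        · exact mm hm hm' (uniq_W1 hG hc hR htB (nm hm hmt) hmt.symm (wm hm) hmt'.symm
            (wm' hm'))
    · exact e3.2.1 ⟨z, a1.1, a1.2.1, a1.2.2.1⟩
  · rcases own_cases o2 with e | ⟨z', t', g', e1, e2, e3⟩ | ⟨e1, e2, e3⟩
    · exact ne_wb (Finset.mem_filter.1 a3.1).2.1.1 (OwnA.black e) rfl
    · exact a3.2.1 ⟨z', e1.1, e1.2.1, e1.2.2.1⟩
    · exact mm a2 e2 rfl

/-- blocks with a common source -/
theorem World2.same_blk (hG : Cub G) (hW : World2 G c k) (h : BK G c b b' x x' a d y y')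
    {p' q q' e f w w' : V} (h2 : BK G c b p' q q' e f w w') :
    b' = p' ∧ x = q ∧ x' = q' ∧ ((a = e ∧ d = f ∧ y = w ∧ y' = w') ∨
      (a = f ∧ d = e ∧ y = w' ∧ y' = w)) := by
  have hc := hW.nice
  have e1 : b' = p' := nice_uniq hc h.mb h2.mb
  subst e1
  have hx : ∀ {b b' x x' a d y y' q q' f w w' : V}, BK G c b b' x x' a d y y' →
      BK G c b b' q q' a f w w' → x = q ∧ y = w := by
    intro b b' x x' a d y y' q q' f w w' h h2
    have ex : x = q := by
      rcases h2.nb_a hG hc x h.xa.symm with e | e | e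
      · exact absurd e.symm h.bx
      · exact e
      · exact absurd e.symm (w0w1 h2.wy (h.wx hc))
    subst ex
    refine ⟨rfl, ?_⟩
    rcases h2.nb_a hG hc y h.ay with e | e | e
    · exact absurd e (h.yb hc)
    · exact absurd e (h.yx hc)
    · exact e
  rcases h2.nb_b hG a h.ba with e | e | e
  · exact absurd e.symm (ne_wb h.cb' h.ca)
  · subst e
    have hd : d = f := by
      rcases h2.nb_b hG d h.bd with e | e | e
      · exact absurd e.symm (ne_wb h.cb' h.cd)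
      · exact absurd e.symm h.ad
      · exact e
    subst hd
    obtain ⟨e1, e2⟩ := hx h h2
    obtain ⟨_, e3⟩ := hx h.swap2 h2.swap2
    subst e1
    exact ⟨rfl, rfl, nice_uniq hc h.mx h2.mx, Or.inl ⟨rfl, rfl, e2, e3⟩⟩
  · subst e
    have hd : d = e := by
      rcases h2.nb_b hG d h.bd with e | e | e
      · exact absurd e.symm (ne_wb h.cb' h.cd)
      · exact e
      · exact absurd e.symm h.ad
    subst hd
    obtain ⟨e1, e2⟩ := hx h h2.swap2
    obtain ⟨_, e3⟩ := hx h.swap2 h2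
    subst e1
    exact ⟨rfl, rfl, nice_uniq hc h.mx h2.mx, Or.inr ⟨rfl, rfl, e2, e3⟩⟩

/-- the free vertex determines the side -/
theorem World2.own_inj (hG : Cub G) (hW : World2 G c k) (h : BK G c b b' x x' a d y y')
    {p p' q q' e f w w' : V} (h2 : BK G c p p' q q' e f w w')
    {r : V} (o1 : Own G c b' x' y r) (o2 : Own G c p' q' w r) : y = w := by
  have hc := hW.nice
  by_cases hbp : b = p
  · subst hbp
    obtain ⟨e1, e2, e3, e4⟩ := hW.same_blk hG h h2
    subst e1 e2 e3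
    rcases e4 with ⟨_, _, e4, _⟩ | ⟨_, _, _, e4⟩
    · exact e4
    · subst e4
      exact (hW.own_sides hG h o1 o2).elim
  by_cases hbq : b = q
  · subst hbq
    obtain ⟨e1, e2, e3, e4⟩ := hW.same_blk hG h (h2.swap1 hc)
    subst e1 e2 e3
    rcases e4 with ⟨_, _, e4, _⟩ | ⟨_, _, _, e4⟩
    · exact e4
    · subst e4
      exact (hW.own_sides hG h o1 o2.swap).elim
  · exact (hW.own_disj hG h h2 hbp hbq o1 o2).elim

/-- the sides which are paid -/
def Sides (G : SimpleGraph V) (c : V → Bool) : Finset V :=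
  univ.filter fun y => ∃ b b' x x' a d y', BK G c b b' x x' a d y y' ∧ ¬ Ex1 G c b' x' y

/-- every side of a block which is not exceptional has its own free vertex -/
theorem World2.sides (hG : Cub G) (hW : World2 G c k) (ρ : V → V) :
    ∃ π : V → V, (∀ y ∈ Sides G c, FreeR G c ρ (π y) ∧
      ∃ b b' x x' a d y', BK G c b b' x x' a d y y' ∧ Own G c b' x' y (π y)) ∧
      Set.InjOn π (Sides G c) := by
  have hch : ∀ y ∈ Sides G c, ∃ p, FreeR G c ρ p ∧
      ∃ b b' x x' a d y', BK G c b b' x x' a d y y' ∧ Own G c b' x' y p := by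
    intro y hy
    obtain ⟨b, b', x, x', a, d, y', h, hE⟩ := (Finset.mem_filter.1 hy).2
    obtain ⟨p, h1, h2⟩ := hW.side_ex hG h ρ hE
    exact ⟨p, h1, b, b', x, x', a, d, y', h, h2⟩
  choose! π h1 h2 using hch
  refine ⟨π, fun y hy => ⟨h1 y hy, h2 y hy⟩, ?_⟩
  intro y hy w hw hyw
  obtain ⟨b, b', x, x', a, d, y', h, o⟩ := h2 y hy
  obtain ⟨p, p', q, q', e, f, w', h', o'⟩ := h2 w hw
  rw [← hyw] at o'
  exact hW.own_inj hG h h' o o'

/-- at least `6 k + #Sides` sources -/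
theorem World2.q0_sides (hG : Cub G) (hW : World2 G c k) :
    6 * k + (Sides G c).card ≤ (Qs G c 0).card := by
  obtain ⟨ρ, hρ⟩ := hW.exists_rho hG
  obtain ⟨π, h1, h2⟩ := hW.sides hG ρ
  have h3 := hW.q0_free hG hρ ((Sides G c).image π) (by
    intro p hp
    obtain ⟨y, hy, rfl⟩ := Finset.mem_image.1 hp
    exact (h1 y hy).1)
  rw [Finset.card_image_of_injOn h2] at h3
  exact h3

end B

end

end Pool.Agent.Work.MP_1e13ac_W
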