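import Pool.Agent.Work.MP_1e13ac_W.GDefs

/-! MP_1e13ac_co, full statement: certificates for World 2, the neighbours of a black end of a source (helper87) -/

set_option autoImplicit false

namespace Pool.Agent.Work.MP_1e13ac_W

noncomputable section

/-! @wwwwbbb:0-1,2-3,0-4,2-4,0-5,2-6 -/

def cR : List It :=
  [⟨[[1,4,5],[0],[3,4,6],[2],[0,2],[0],[2]], 15, 0, 9⟩,
   ⟨[[1,4,5],[4,0],[3,4,6],[2],[1,0,2],[0],[2]], 15, 0, 338⟩,
   ⟨[[1,4,5],[0],[3,4,6],[4,2],[3,0,2],[0],[2]], 15, 680564733841876926926749214932255899648, 338⟩,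
   ⟨[[1,4,5],[0],[3,4,6],[2],[7,0,2],[0],[2],[4]], 143, 3402823670477035234861975475883104796672, 338⟩,
   ⟨[[1,4,5],[0],[3,4,6],[2],[7,0,2],[0],[2],[4,8],[7]], 399, 3402823670477035234861975475883104796672, 15⟩,
   ⟨[[1,4,5],[0],[3,4,6],[2],[7,0,2],[7,0],[2],[5,4,8],[7]], 399, 3402823670477035234861975475883104796672, 2384⟩,
   ⟨[[1,4,5],[0],[3,4,6],[2],[7,0,2],[0],[7,2],[6,4,8],[7]], 399, 862718293348820473616416692366386578756937315343844521387157998272512, 2384⟩,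
   ⟨[[1,4,5],[0],[3,4,6],[2],[7,0,2],[0],[2],[9,4,8],[7],[7]], 399, 2588154880849930442604600795706623988040295859647542657069185471873024, 2384⟩,
   ⟨[[1,4,5],[0],[3,4,6],[2],[7,0,2],[0],[2],[9,4,8],[7],[7,10],[9]], 399, 2588154880849930442604600795706623988040295859647542657069185471873024, 2384⟩]

theorem cR_ok : run (lf2) cR [⟨[[1,4,5],[0],[3,4,6],[2],[0,2],[0],[2]], 15, 0⟩] = true := by decide +kernel

/-! @wwwwbbww:0-1,2-3,0-4,0-5,2-4,2-5,4-6,6-7 -/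

def cA3b : List It :=
  [⟨[[1,4,5],[0],[3,4,5],[2],[0,2,6],[0,2],[4,7],[6]], 207, 0, 13⟩,
   ⟨[[1,4,5],[0],[3,4,5],[2],[0,2,6],[6,0,2],[5,4,7],[6]], 207, 0, 1872⟩,
   ⟨[[1,4,5],[0],[3,4,5],[2],[0,2,6],[0,2],[8,4,7],[6],[6]], 207, 200867255625909889231923048307681154609117487480828787163136, 1360⟩,
   ⟨[[1,4,5],[0],[3,4,5],[2],[0,2,6],[0,2],[8,4,7],[6],[6,9],[8]], 207, 200867255625909889231923048307681154609117487480828787163136, 1360⟩]

theorem cA3b_ok : run (lf2) cA3b [⟨[[1,4,5],[0],[3,4,5],[2],[0,2,6],[0,2],[4,7],[6]], 207, 0⟩] = true := by decide +kernel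

/-! @wwwwwwbb:0-1,2-3,4-5,0-6,2-6,4-6,0-7 -/

def cA3w : List It :=
  [⟨[[1,6,7],[0],[3,6],[2],[5,6],[4],[0,2,4],[0]], 63, 0, 5⟩,
   ⟨[[1,6,7],[0],[7,3,6],[2],[5,6],[4],[0,2,4],[2,0]], 63, 0, 9⟩,
   ⟨[[1,6,7],[0],[7,3,6],[2],[7,5,6],[4],[0,2,4],[4,2,0]], 63, 0, 1360⟩,
   ⟨[[1,6,7],[0],[7,3,6],[2],[8,5,6],[4],[0,2,4],[2,0],[4]], 63, 431359146674410236714672241435870233744074434083961109448924095053824, 1360⟩,
   ⟨[[1,6,7],[0],[7,3,6],[2],[8,5,6],[4],[0,2,4],[2,0],[4,9],[8]], 63, 431359146674410236714672241435870233744074434083961109448924095053824, 1360⟩,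
   ⟨[[1,6,7],[0],[8,3,6],[2],[5,6],[4],[0,2,4],[0],[2]], 63, 107839786668602559178668060348078522694548577692523473165849263603712, 9⟩,
   ⟨[[1,6,7],[0],[8,3,6],[2],[7,5,6],[4],[0,2,4],[4,0],[2]], 63, 107839786668602559178668060348078522694548577692523473165849263603712, 1360⟩,
   ⟨[[1,6,7],[0],[8,3,6],[2],[8,5,6],[4],[0,2,4],[0],[4,2]], 63, 539198933343012795893340301783948756438623011776484582614773358657536, 1360⟩,
   ⟨[[1,6,7],[0],[8,3,6],[2],[9,5,6],[4],[0,2,4],[0],[2],[4]], 63, 1852673428336258060120148556032346827523380797020632283054429826243916095029248, 1360⟩,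
   ⟨[[1,6,7],[0],[8,3,6],[2],[9,5,6],[4],[0,2,4],[0],[2],[4,10],[9]], 63, 1852673428336258060120148556032346827523380797020632283054429826243916095029248, 1360⟩,
   ⟨[[1,6,7],[0],[8,3,6],[2],[5,6],[4],[0,2,4],[0],[2,9],[8]], 63, 107839786668602559178668060348078522694548577692523473165849263603712, 9⟩,
   ⟨[[1,6,7],[0],[8,3,6],[2],[7,5,6],[4],[0,2,4],[4,0],[2,9],[8]], 63, 107839786668602559178668060348078522694548577692523473165849263603712, 1360⟩,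
   ⟨[[1,6,7],[0],[8,3,6],[2],[8,5,6],[4],[0,2,4],[0],[4,2,9],[8]], 63, 539198933343012795893340301783948756438623011776484582614773358657536, 1360⟩,
   ⟨[[1,6,7],[0],[8,3,6],[2],[9,5,6],[4],[0,2,4],[0],[2,9],[4,8]], 63, 1852673428336258060120148556032346827523380797020632283054429826243916095029248, 1360⟩,
   ⟨[[1,6,7],[0],[8,3,6],[2],[10,5,6],[4],[0,2,4],[0],[2,9],[8],[4]], 63, 7957171784409259702822374030469281997639645240455168847931576406638229577449515427823616, 1360⟩,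
   ⟨[[1,6,7],[0],[8,3,6],[2],[10,5,6],[4],[0,2,4],[0],[2,9],[8],[4,11],[10]], 63, 7957171784409259702822374030469281997639645240455168847931576406638229577449515427823616, 1360⟩]

theorem cA3w_ok : run (lf2) cA3w [⟨[[1,6,7],[0],[3,6],[2],[5,6],[4],[0,2,4],[0]], 63, 0⟩] = true := by decide +kernel

/-! @wwwwbbb:0-1,2-3,0-4,1-4,2-4,0-5,2-6 -/

def cD1S : List It :=
  [⟨[[1,4,5],[0,4],[3,4,6],[2],[0,1,2],[0],[2]], 15, 0, 338⟩]

theorem cD1S_ok : run (lf2) cD1S [⟨[[1,4,5],[0,4],[3,4,6],[2],[0,1,2],[0],[2]], 15, 0⟩] = true := by decide +kernel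

/-! @wwwwbbb:0-1,2-3,0-4,2-4,3-4,0-5,2-6 -/

def cXS : List It :=
  [⟨[[1,4,5],[0],[3,4,6],[2,4],[0,2,3],[0],[2]], 15, 0, 338⟩]

theorem cXS_ok : run (lf2) cXS [⟨[[1,4,5],[0],[3,4,6],[2,4],[0,2,3],[0],[2]], 15, 0⟩] = true := by decide +kernel

/-! @wwwwbbb:0-1,2-3,0-4,0-5,2-4,2-5,4-1,1-6 -/

def cHS : List It :=
  [⟨[[1,4,5],[0,4,6],[3,4,5],[2],[0,2,1],[0,2],[1]], 15, 0, 354⟩]

theorem cHS_ok : run (lf2) cHS [⟨[[1,4,5],[0,4,6],[3,4,5],[2],[0,2,1],[0,2],[1]], 15, 0⟩] = true := by decide +kernel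

/-! @wwwwbb:0-1,2-3,0-4,0-5,2-4,2-5,4-1,5-1 -/

def cHB : List It :=
  [⟨[[1,4,5],[0,4,5],[3,4,5],[2],[0,2,1],[0,2,1]], 15, 0, 880⟩]

theorem cHB_ok : run (lf2) cHB [⟨[[1,4,5],[0,4,5],[3,4,5],[2],[0,2,1],[0,2,1]], 15, 0⟩] = true := by decide +kernel


end

end Pool.Agent.Work.MP_1e13ac_W
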