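import Pool.Agent.Work.MP_1e13ac_W.L2World
import Pool.Agent.Work.MP_1e13ac_W.W1Leaf
import Pool.Agent.Work.MP_1e13ac_W.C2PkC

/-! # MP_1e13ac_co, full statement: certificates for the facts of the packing (helper80) -/

set_option autoImplicit false
set_option linter.unusedSectionVars false

namespace Pool.Agent.Work.MP_1e13ac_W

open Classical Finset Pool.Agent.Work.MP_1e13ac_Bis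

noncomputable section

variable {V : Type} [Fintype V] {G : SimpleGraph V} {c : V → Bool} {k : ℕ}

theorem World2.pkR (hG : Cub G) (hW : World2 G c k) (v0 v1 v2 v3 v4 v5 v6 : V)
    (hE : G.Adj v0 v1 ∧ G.Adj v0 v4 ∧ G.Adj v0 v5 ∧ G.Adj v2 v3 ∧ G.Adj v2 v4 ∧ G.Adj v2 v6)
    (hD : v0 ≠ v2 ∧ v0 ≠ v3 ∧ v1 ≠ v2 ∧ v1 ≠ v3 ∧ v4 ≠ v5 ∧ v4 ≠ v6 ∧ v5 ≠ v6)
    (hI : md G c v4 = 0 ∧ md G c v5 = 0 ∧ md G c v6 = 0)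
    (hC : c v0 = true ∧ c v1 = true ∧ c v2 = true ∧ c v3 = true ∧ c v4 = false ∧ c v5 = false ∧ c v6 = false) : False := by
  obtain ⟨e0, e1, e2, e3, e4, e5⟩ := hE
  obtain ⟨d0, d1, d2, d3, d4, d5, d6⟩ := hD
  obtain ⟨i0, i1, i2⟩ := hI
  obtain ⟨c0, c1, c2, c3, c4, c5, c6⟩ := hC
  refine hW.cert hG pkR_ok (e := fun i => [v0, v1, v2, v3, v4, v5, v6].getD i v0) ?_
  refine emb_mk hW.nice [v0, v1, v2, v3, v4, v5, v6] v0 [(0, 1), (0, 4), (0, 5), (2, 3), (2, 4), (2, 6)]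
    [(0, 2), (0, 3), (1, 2), (1, 3), (4, 5), (4, 6), (5, 6)] [4, 5, 6] rfl (by decide) ?_ ?_ ?_ ?_
  · simp [e0, e1, e2, e3, e4, e5]
  · simp [d0, d1, d2, d3, d4, d5, d6]
  · simp [i0, i1, i2]
  · simp [c0, c1, c2, c3, c4, c5, c6]
    decide

theorem World2.pkA3 (hG : Cub G) (hW : World2 G c k) (v0 v1 v2 v3 v4 v5 v6 v7 : V)
    (hE : G.Adj v0 v1 ∧ G.Adj v0 v6 ∧ G.Adj v0 v7 ∧ G.Adj v2 v3 ∧ G.Adj v2 v6 ∧ G.Adj v4 v5 ∧ G.Adj v4 v6)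
    (hD : v0 ≠ v2 ∧ v0 ≠ v3 ∧ v0 ≠ v4 ∧ v0 ≠ v5 ∧ v1 ≠ v2 ∧ v1 ≠ v3 ∧ v1 ≠ v4 ∧ v1 ≠ v5 ∧ v2 ≠ v4 ∧ v2 ≠ v5 ∧ v3 ≠ v4 ∧ v3 ≠ v5 ∧ v6 ≠ v7)
    (hI : md G c v6 = 0 ∧ md G c v7 = 0)
    (hC : c v0 = true ∧ c v1 = true ∧ c v2 = true ∧ c v3 = true ∧ c v4 = true ∧ c v5 = true ∧ c v6 = false ∧ c v7 = false) : False := by
  obtain ⟨e0, e1, e2, e3, e4, e5, e6⟩ := hE
  obtain ⟨d0, d1, d2, d3, d4, d5, d6, d7, d8, d9, d10, d11, d12⟩ := hD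
  obtain ⟨i0, i1⟩ := hI
  obtain ⟨c0, c1, c2, c3, c4, c5, c6, c7⟩ := hC
  refine hW.cert hG pkA3_ok (e := fun i => [v0, v1, v2, v3, v4, v5, v6, v7].getD i v0) ?_
  refine emb_mk hW.nice [v0, v1, v2, v3, v4, v5, v6, v7] v0 [(0, 1), (0, 6), (0, 7), (2, 3), (2, 6), (4, 5), (4, 6)]
    [(0, 2), (0, 3), (0, 4), (0, 5), (1, 2), (1, 3), (1, 4), (1, 5), (2, 4), (2, 5), (3, 4), (3, 5), (6, 7)] [6, 7] rfl (by decide) ?_ ?_ ?_ ?_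
  · simp [e0, e1, e2, e3, e4, e5, e6]
  · simp [d0, d1, d2, d3, d4, d5, d6, d7, d8, d9, d10, d11, d12]
  · simp [i0, i1]
  · simp [c0, c1, c2, c3, c4, c5, c6, c7]
    decide

theorem World2.pkK23 (hG : Cub G) (hW : World2 G c k) (v0 v1 v2 v3 v4 v5 v6 : V)
    (hE : G.Adj v0 v2 ∧ G.Adj v0 v3 ∧ G.Adj v0 v5 ∧ G.Adj v1 v2 ∧ G.Adj v1 v3 ∧ G.Adj v1 v6 ∧ G.Adj v2 v4 ∧ G.Adj v3 v4)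
    (hD : v0 ≠ v1 ∧ v0 ≠ v6 ∧ v1 ≠ v5 ∧ v2 ≠ v3 ∧ v5 ≠ v6)
    (hI : md G c v2 = 0 ∧ md G c v3 = 0 ∧ md G c v4 = 0)
    (hC : c v0 = true ∧ c v1 = true ∧ c v2 = false ∧ c v3 = false ∧ c v4 = true ∧ c v5 = true ∧ c v6 = true) : False := by
  obtain ⟨e0, e1, e2, e3, e4, e5, e6, e7⟩ := hE
  obtain ⟨d0, d1, d2, d3, d4⟩ := hD
  obtain ⟨i0, i1, i2⟩ := hI
  obtain ⟨c0, c1, c2, c3, c4, c5, c6⟩ := hC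
  refine hW.cert hG pkK23_ok (e := fun i => [v0, v1, v2, v3, v4, v5, v6].getD i v0) ?_
  refine emb_mk hW.nice [v0, v1, v2, v3, v4, v5, v6] v0 [(0, 2), (0, 3), (0, 5), (1, 2), (1, 3), (1, 6), (2, 4), (3, 4)]
    [(0, 1), (0, 6), (1, 5), (2, 3), (5, 6)] [2, 3, 4] rfl (by decide) ?_ ?_ ?_ ?_
  · simp [e0, e1, e2, e3, e4, e5, e6, e7]
  · simp [d0, d1, d2, d3, d4]
  · simp [i0, i1, i2]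
  · simp [c0, c1, c2, c3, c4, c5, c6]
    decide

theorem World2.pkHB (hG : Cub G) (hW : World2 G c k) (v0 v1 v2 v3 v4 v5 : V)
    (hE : G.Adj v0 v1 ∧ G.Adj v0 v4 ∧ G.Adj v0 v5 ∧ G.Adj v1 v4 ∧ G.Adj v1 v5 ∧ G.Adj v2 v3 ∧ G.Adj v2 v4 ∧ G.Adj v2 v5)
    (hD : v0 ≠ v2 ∧ v0 ≠ v3 ∧ v1 ≠ v2 ∧ v1 ≠ v3 ∧ v4 ≠ v5)
    (hI : md G c v4 = 0 ∧ md G c v5 = 0)
    (hC : c v0 = true ∧ c v1 = true ∧ c v2 = true ∧ c v3 = true ∧ c v4 = false ∧ c v5 = false) : False := by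
  obtain ⟨e0, e1, e2, e3, e4, e5, e6, e7⟩ := hE
  obtain ⟨d0, d1, d2, d3, d4⟩ := hD
  obtain ⟨i0, i1⟩ := hI
  obtain ⟨c0, c1, c2, c3, c4, c5⟩ := hC
  refine hW.cert hG pkHB_ok (e := fun i => [v0, v1, v2, v3, v4, v5].getD i v0) ?_
  refine emb_mk hW.nice [v0, v1, v2, v3, v4, v5] v0 [(0, 1), (0, 4), (0, 5), (1, 4), (1, 5), (2, 3), (2, 4), (2, 5)]
    [(0, 2), (0, 3), (1, 2), (1, 3), (4, 5)] [4, 5] rfl (by decide) ?_ ?_ ?_ ?_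
  · simp [e0, e1, e2, e3, e4, e5, e6, e7]
  · simp [d0, d1, d2, d3, d4]
  · simp [i0, i1]
  · simp [c0, c1, c2, c3, c4, c5]
    decide

theorem World2.pkHS (hG : Cub G) (hW : World2 G c k) (v0 v1 v2 v3 v4 v5 v6 : V)
    (hE : G.Adj v0 v1 ∧ G.Adj v0 v4 ∧ G.Adj v0 v5 ∧ G.Adj v1 v4 ∧ G.Adj v1 v6 ∧ G.Adj v2 v3 ∧ G.Adj v2 v4 ∧ G.Adj v2 v5)
    (hD : v0 ≠ v2 ∧ v0 ≠ v3 ∧ v1 ≠ v2 ∧ v1 ≠ v3 ∧ v4 ≠ v5 ∧ v4 ≠ v6 ∧ v5 ≠ v6)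
    (hI : md G c v4 = 0 ∧ md G c v5 = 0 ∧ md G c v6 = 0)
    (hC : c v0 = true ∧ c v1 = true ∧ c v2 = true ∧ c v3 = true ∧ c v4 = false ∧ c v5 = false ∧ c v6 = false) : False := by
  obtain ⟨e0, e1, e2, e3, e4, e5, e6, e7⟩ := hE
  obtain ⟨d0, d1, d2, d3, d4, d5, d6⟩ := hD
  obtain ⟨i0, i1, i2⟩ := hI
  obtain ⟨c0, c1, c2, c3, c4, c5, c6⟩ := hC
  refine hW.cert hG pkHS_ok (e := fun i => [v0, v1, v2, v3, v4, v5, v6].getD i v0) ?_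
  refine emb_mk hW.nice [v0, v1, v2, v3, v4, v5, v6] v0 [(0, 1), (0, 4), (0, 5), (1, 4), (1, 6), (2, 3), (2, 4), (2, 5)]
    [(0, 2), (0, 3), (1, 2), (1, 3), (4, 5), (4, 6), (5, 6)] [4, 5, 6] rfl (by decide) ?_ ?_ ?_ ?_
  · simp [e0, e1, e2, e3, e4, e5, e6, e7]
  · simp [d0, d1, d2, d3, d4, d5, d6]
  · simp [i0, i1, i2]
  · simp [c0, c1, c2, c3, c4, c5, c6]
    decide

theorem World2.pkPi (hG : Cub G) (hW : World2 G c k) (v0 v1 v2 v3 v4 v5 v6 : V)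
    (hE : G.Adj v0 v1 ∧ G.Adj v0 v2 ∧ G.Adj v2 v3 ∧ G.Adj v2 v4 ∧ G.Adj v3 v4 ∧ G.Adj v3 v5 ∧ G.Adj v4 v5 ∧ G.Adj v5 v6)
    (hD : v0 ≠ v3 ∧ v0 ≠ v4 ∧ v1 ≠ v3 ∧ v1 ≠ v4)
    (hI : md G c v2 = 0)
    (hC : c v0 = true ∧ c v1 = true ∧ c v2 = false ∧ c v3 = true ∧ c v4 = true ∧ c v5 = false ∧ c v6 = false) : False := by
  obtain ⟨e0, e1, e2, e3, e4, e5, e6, e7⟩ := hE
  obtain ⟨d0, d1, d2, d3⟩ := hD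
  obtain ⟨c0, c1, c2, c3, c4, c5, c6⟩ := hC
  refine hW.cert hG pkPi_ok (e := fun i => [v0, v1, v2, v3, v4, v5, v6].getD i v0) ?_
  refine emb_mk hW.nice [v0, v1, v2, v3, v4, v5, v6] v0 [(0, 1), (0, 2), (2, 3), (2, 4), (3, 4), (3, 5), (4, 5), (5, 6)]
    [(0, 3), (0, 4), (1, 3), (1, 4)] [2] rfl (by decide) ?_ ?_ ?_ ?_
  · simp [e0, e1, e2, e3, e4, e5, e6, e7]
  · simp [d0, d1, d2, d3]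
  · simp [hI]
  · simp [c0, c1, c2, c3, c4, c5, c6]
    decide

theorem World2.pkTop (hG : Cub G) (hW : World2 G c k) (v0 v1 v2 v3 v4 v5 v6 v7 v8 : V)
    (hE : G.Adj v0 v1 ∧ G.Adj v0 v2 ∧ G.Adj v2 v3 ∧ G.Adj v2 v4 ∧ G.Adj v3 v4 ∧ G.Adj v3 v5 ∧ G.Adj v5 v6 ∧ G.Adj v6 v7 ∧ G.Adj v6 v8 ∧ G.Adj v7 v8)
    (hD : v0 ≠ v3 ∧ v0 ≠ v4 ∧ v0 ≠ v7 ∧ v0 ≠ v8 ∧ v1 ≠ v3 ∧ v1 ≠ v4 ∧ v1 ≠ v7 ∧ v1 ≠ v8 ∧ v3 ≠ v7 ∧ v3 ≠ v8 ∧ v4 ≠ v7 ∧ v4 ≠ v8)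
    (hI : md G c v2 = 0)
    (hC : c v0 = true ∧ c v1 = true ∧ c v2 = false ∧ c v3 = true ∧ c v4 = true ∧ c v5 = false ∧ c v6 = false ∧ c v7 = true ∧ c v8 = true) : False := by
  obtain ⟨e0, e1, e2, e3, e4, e5, e6, e7, e8, e9⟩ := hE
  obtain ⟨d0, d1, d2, d3, d4, d5, d6, d7, d8, d9, d10, d11⟩ := hD
  obtain ⟨c0, c1, c2, c3, c4, c5, c6, c7, c8⟩ := hC
  refine hW.cert hG pkTop_ok (e := fun i => [v0, v1, v2, v3, v4, v5, v6, v7, v8].getD i v0) ?_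
  refine emb_mk hW.nice [v0, v1, v2, v3, v4, v5, v6, v7, v8] v0 [(0, 1), (0, 2), (2, 3), (2, 4), (3, 4), (3, 5), (5, 6), (6, 7), (6, 8), (7, 8)]
    [(0, 3), (0, 4), (0, 7), (0, 8), (1, 3), (1, 4), (1, 7), (1, 8), (3, 7), (3, 8), (4, 7), (4, 8)] [2] rfl (by decide) ?_ ?_ ?_ ?_
  · simp [e0, e1, e2, e3, e4, e5, e6, e7, e8, e9]
  · simp [d0, d1, d2, d3, d4, d5, d6, d7, d8, d9, d10, d11]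
  · simp [hI]
  · simp [c0, c1, c2, c3, c4, c5, c6, c7, c8]
    decide

theorem World2.pkF1o (hG : Cub G) (hW : World2 G c k) (v0 v1 v2 v3 v4 v5 v6 v7 v8 v9 v10 : V)
    (hE : G.Adj v0 v1 ∧ G.Adj v0 v2 ∧ G.Adj v0 v9 ∧ G.Adj v1 v9 ∧ G.Adj v1 v10 ∧ G.Adj v2 v3 ∧ G.Adj v2 v4 ∧ G.Adj v3 v4 ∧ G.Adj v3 v5 ∧ G.Adj v5 v6 ∧ G.Adj v6 v7 ∧ G.Adj v7 v8 ∧ G.Adj v7 v9)
    (hD : v0 ≠ v3 ∧ v0 ≠ v4 ∧ v0 ≠ v7 ∧ v0 ≠ v8 ∧ v1 ≠ v3 ∧ v1 ≠ v4 ∧ v1 ≠ v7 ∧ v1 ≠ v8 ∧ v2 ≠ v9 ∧ v2 ≠ v10 ∧ v3 ≠ v7 ∧ v3 ≠ v8 ∧ v4 ≠ v7 ∧ v4 ≠ v8 ∧ v9 ≠ v10)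
    (hI : md G c v2 = 0 ∧ md G c v9 = 0 ∧ md G c v10 = 0)
    (hC : c v0 = true ∧ c v1 = true ∧ c v2 = false ∧ c v3 = true ∧ c v4 = true ∧ c v5 = false ∧ c v6 = false ∧ c v7 = true ∧ c v8 = true ∧ c v9 = false ∧ c v10 = false) : False := by
  obtain ⟨e0, e1, e2, e3, e4, e5, e6, e7, e8, e9, e10, e11, e12⟩ := hE
  obtain ⟨d0, d1, d2, d3, d4, d5, d6, d7, d8, d9, d10, d11, d12, d13, d14⟩ := hD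
  obtain ⟨i0, i1, i2⟩ := hI
  obtain ⟨c0, c1, c2, c3, c4, c5, c6, c7, c8, c9, c10⟩ := hC
  refine hW.cert hG pkF1o_ok (e := fun i => [v0, v1, v2, v3, v4, v5, v6, v7, v8, v9, v10].getD i v0) ?_
  refine emb_mk hW.nice [v0, v1, v2, v3, v4, v5, v6, v7, v8, v9, v10] v0 [(0, 1), (0, 2), (0, 9), (1, 9), (1, 10), (2, 3), (2, 4), (3, 4), (3, 5), (5, 6), (6, 7), (7, 8), (7, 9)]
    [(0, 3), (0, 4), (0, 7), (0, 8), (1, 3), (1, 4), (1, 7), (1, 8), (2, 9), (2, 10), (3, 7), (3, 8), (4, 7), (4, 8), (9, 10)] [2, 9, 10] rfl (by decide) ?_ ?_ ?_ ?_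
  · simp [e0, e1, e2, e3, e4, e5, e6, e7, e8, e9, e10, e11, e12]
  · simp [d0, d1, d2, d3, d4, d5, d6, d7, d8, d9, d10, d11, d12, d13, d14]
  · simp [i0, i1, i2]
  · simp [c0, c1, c2, c3, c4, c5, c6, c7, c8, c9, c10]
    decide

theorem World2.pkF1m (hG : Cub G) (hW : World2 G c k) (v0 v1 v2 v3 v4 v5 v6 v7 v8 v9 v10 v11 : V)
    (hE : G.Adj v0 v1 ∧ G.Adj v0 v2 ∧ G.Adj v0 v11 ∧ G.Adj v1 v9 ∧ G.Adj v1 v10 ∧ G.Adj v2 v3 ∧ G.Adj v2 v4 ∧ G.Adj v3 v4 ∧ G.Adj v3 v5 ∧ G.Adj v5 v6 ∧ G.Adj v6 v7 ∧ G.Adj v7 v8 ∧ G.Adj v7 v9)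
    (hD : v0 ≠ v3 ∧ v0 ≠ v4 ∧ v0 ≠ v7 ∧ v0 ≠ v8 ∧ v1 ≠ v3 ∧ v1 ≠ v4 ∧ v1 ≠ v7 ∧ v1 ≠ v8 ∧ v2 ≠ v9 ∧ v2 ≠ v10 ∧ v2 ≠ v11 ∧ v3 ≠ v7 ∧ v3 ≠ v8 ∧ v4 ≠ v7 ∧ v4 ≠ v8 ∧ v9 ≠ v10 ∧ v9 ≠ v11 ∧ v10 ≠ v11)
    (hI : md G c v2 = 0 ∧ md G c v9 = 0 ∧ md G c v10 = 0 ∧ md G c v11 = 0)
    (hC : c v0 = true ∧ c v1 = true ∧ c v2 = false ∧ c v3 = true ∧ c v4 = true ∧ c v5 = false ∧ c v6 = false ∧ c v7 = true ∧ c v8 = true ∧ c v9 = false ∧ c v10 = false ∧ c v11 = false) : False := by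
  obtain ⟨e0, e1, e2, e3, e4, e5, e6, e7, e8, e9, e10, e11, e12⟩ := hE
  obtain ⟨d0, d1, d2, d3, d4, d5, d6, d7, d8, d9, d10, d11, d12, d13, d14, d15, d16, d17⟩ := hD
  obtain ⟨i0, i1, i2, i3⟩ := hI
  obtain ⟨c0, c1, c2, c3, c4, c5, c6, c7, c8, c9, c10, c11⟩ := hC
  refine hW.cert hG pkF1m_ok (e := fun i => [v0, v1, v2, v3, v4, v5, v6, v7, v8, v9, v10, v11].getD i v0) ?_
  refine emb_mk hW.nice [v0, v1, v2, v3, v4, v5, v6, v7, v8, v9, v10, v11] v0 [(0, 1), (0, 2), (0, 11), (1, 9), (1, 10), (2, 3), (2, 4), (3, 4), (3, 5), (5, 6), (6, 7), (7, 8), (7, 9)]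
    [(0, 3), (0, 4), (0, 7), (0, 8), (1, 3), (1, 4), (1, 7), (1, 8), (2, 9), (2, 10), (2, 11), (3, 7), (3, 8), (4, 7), (4, 8), (9, 10), (9, 11), (10, 11)] [2, 9, 10, 11] rfl (by decide) ?_ ?_ ?_ ?_
  · simp [e0, e1, e2, e3, e4, e5, e6, e7, e8, e9, e10, e11, e12]
  · simp [d0, d1, d2, d3, d4, d5, d6, d7, d8, d9, d10, d11, d12, d13, d14, d15, d16, d17]
  · simp [i0, i1, i2, i3]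
  · simp [c0, c1, c2, c3, c4, c5, c6, c7, c8, c9, c10, c11]
    decide

theorem World2.pkF1n (hG : Cub G) (hW : World2 G c k) (v0 v1 v2 v3 v4 v5 v6 v7 v8 v9 v10 : V)
    (hE : G.Adj v0 v1 ∧ G.Adj v0 v2 ∧ G.Adj v0 v10 ∧ G.Adj v1 v9 ∧ G.Adj v1 v10 ∧ G.Adj v2 v3 ∧ G.Adj v2 v4 ∧ G.Adj v3 v4 ∧ G.Adj v3 v5 ∧ G.Adj v5 v6 ∧ G.Adj v6 v7 ∧ G.Adj v7 v8 ∧ G.Adj v7 v9)
    (hD : v0 ≠ v3 ∧ v0 ≠ v4 ∧ v0 ≠ v7 ∧ v0 ≠ v8 ∧ v1 ≠ v3 ∧ v1 ≠ v4 ∧ v1 ≠ v7 ∧ v1 ≠ v8 ∧ v2 ≠ v9 ∧ v2 ≠ v10 ∧ v3 ≠ v7 ∧ v3 ≠ v8 ∧ v4 ≠ v7 ∧ v4 ≠ v8 ∧ v9 ≠ v10)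
    (hI : md G c v2 = 0 ∧ md G c v9 = 0 ∧ md G c v10 = 0)
    (hC : c v0 = true ∧ c v1 = true ∧ c v2 = false ∧ c v3 = true ∧ c v4 = true ∧ c v5 = false ∧ c v6 = false ∧ c v7 = true ∧ c v8 = true ∧ c v9 = false ∧ c v10 = false) : False := by
  obtain ⟨e0, e1, e2, e3, e4, e5, e6, e7, e8, e9, e10, e11, e12⟩ := hE
  obtain ⟨d0, d1, d2, d3, d4, d5, d6, d7, d8, d9, d10, d11, d12, d13, d14⟩ := hD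
  obtain ⟨i0, i1, i2⟩ := hI
  obtain ⟨c0, c1, c2, c3, c4, c5, c6, c7, c8, c9, c10⟩ := hC
  refine hW.cert hG pkF1n_ok (e := fun i => [v0, v1, v2, v3, v4, v5, v6, v7, v8, v9, v10].getD i v0) ?_
  refine emb_mk hW.nice [v0, v1, v2, v3, v4, v5, v6, v7, v8, v9, v10] v0 [(0, 1), (0, 2), (0, 10), (1, 9), (1, 10), (2, 3), (2, 4), (3, 4), (3, 5), (5, 6), (6, 7), (7, 8), (7, 9)]
    [(0, 3), (0, 4), (0, 7), (0, 8), (1, 3), (1, 4), (1, 7), (1, 8), (2, 9), (2, 10), (3, 7), (3, 8), (4, 7), (4, 8), (9, 10)] [2, 9, 10] rfl (by decide) ?_ ?_ ?_ ?_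
  · simp [e0, e1, e2, e3, e4, e5, e6, e7, e8, e9, e10, e11, e12]
  · simp [d0, d1, d2, d3, d4, d5, d6, d7, d8, d9, d10, d11, d12, d13, d14]
  · simp [i0, i1, i2]
  · simp [c0, c1, c2, c3, c4, c5, c6, c7, c8, c9, c10]
    decide

theorem World2.pkF1w (hG : Cub G) (hW : World2 G c k) (v0 v1 v2 v3 v4 v5 v6 v7 v8 v9 v10 : V)
    (hE : G.Adj v0 v1 ∧ G.Adj v0 v2 ∧ G.Adj v1 v6 ∧ G.Adj v1 v7 ∧ G.Adj v2 v3 ∧ G.Adj v2 v4 ∧ G.Adj v3 v4 ∧ G.Adj v3 v5 ∧ G.Adj v5 v6 ∧ G.Adj v7 v8 ∧ G.Adj v8 v9 ∧ G.Adj v8 v10)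
    (hD : v0 ≠ v3 ∧ v0 ≠ v4 ∧ v0 ≠ v8 ∧ v0 ≠ v9 ∧ v1 ≠ v3 ∧ v1 ≠ v4 ∧ v1 ≠ v8 ∧ v1 ≠ v9 ∧ v2 ≠ v7 ∧ v2 ≠ v10 ∧ v3 ≠ v8 ∧ v3 ≠ v9 ∧ v4 ≠ v8 ∧ v4 ≠ v9 ∧ v7 ≠ v10)
    (hI : md G c v2 = 0 ∧ md G c v7 = 0 ∧ md G c v10 = 0)
    (hC : c v0 = true ∧ c v1 = true ∧ c v2 = false ∧ c v3 = true ∧ c v4 = true ∧ c v5 = false ∧ c v6 = false ∧ c v7 = false ∧ c v8 = true ∧ c v9 = true ∧ c v10 = false) : False := by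
  obtain ⟨e0, e1, e2, e3, e4, e5, e6, e7, e8, e9, e10, e11⟩ := hE
  obtain ⟨d0, d1, d2, d3, d4, d5, d6, d7, d8, d9, d10, d11, d12, d13, d14⟩ := hD
  obtain ⟨i0, i1, i2⟩ := hI
  obtain ⟨c0, c1, c2, c3, c4, c5, c6, c7, c8, c9, c10⟩ := hC
  refine hW.cert hG pkF1w_ok (e := fun i => [v0, v1, v2, v3, v4, v5, v6, v7, v8, v9, v10].getD i v0) ?_
  refine emb_mk hW.nice [v0, v1, v2, v3, v4, v5, v6, v7, v8, v9, v10] v0 [(0, 1), (0, 2), (1, 6), (1, 7), (2, 3), (2, 4), (3, 4), (3, 5), (5, 6), (7, 8), (8, 9), (8, 10)]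
    [(0, 3), (0, 4), (0, 8), (0, 9), (1, 3), (1, 4), (1, 8), (1, 9), (2, 7), (2, 10), (3, 8), (3, 9), (4, 8), (4, 9), (7, 10)] [2, 7, 10] rfl (by decide) ?_ ?_ ?_ ?_
  · simp [e0, e1, e2, e3, e4, e5, e6, e7, e8, e9, e10, e11]
  · simp [d0, d1, d2, d3, d4, d5, d6, d7, d8, d9, d10, d11, d12, d13, d14]
  · simp [i0, i1, i2]
  · simp [c0, c1, c2, c3, c4, c5, c6, c7, c8, c9, c10]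
    decide

theorem World2.pkF1s (hG : Cub G) (hW : World2 G c k) (v0 v1 v2 v3 v4 v5 v6 v7 v8 v9 v10 v11 : V)
    (hE : G.Adj v0 v1 ∧ G.Adj v0 v2 ∧ G.Adj v0 v11 ∧ G.Adj v2 v3 ∧ G.Adj v2 v4 ∧ G.Adj v3 v4 ∧ G.Adj v3 v5 ∧ G.Adj v5 v6 ∧ G.Adj v6 v7 ∧ G.Adj v7 v8 ∧ G.Adj v7 v9 ∧ G.Adj v8 v9 ∧ G.Adj v8 v10)
    (hD : v0 ≠ v3 ∧ v0 ≠ v4 ∧ v0 ≠ v7 ∧ v0 ≠ v8 ∧ v1 ≠ v3 ∧ v1 ≠ v4 ∧ v1 ≠ v7 ∧ v1 ≠ v8 ∧ v2 ≠ v9 ∧ v2 ≠ v10 ∧ v2 ≠ v11 ∧ v3 ≠ v7 ∧ v3 ≠ v8 ∧ v4 ≠ v7 ∧ v4 ≠ v8 ∧ v9 ≠ v10 ∧ v9 ≠ v11 ∧ v10 ≠ v11)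
    (hI : md G c v2 = 0 ∧ md G c v9 = 0 ∧ md G c v10 = 0 ∧ md G c v11 = 0)
    (hC : c v0 = true ∧ c v1 = true ∧ c v2 = false ∧ c v3 = true ∧ c v4 = true ∧ c v5 = false ∧ c v6 = false ∧ c v7 = true ∧ c v8 = true ∧ c v9 = false ∧ c v10 = false ∧ c v11 = false) : False := by
  obtain ⟨e0, e1, e2, e3, e4, e5, e6, e7, e8, e9, e10, e11, e12⟩ := hE
  obtain ⟨d0, d1, d2, d3, d4, d5, d6, d7, d8, d9, d10, d11, d12, d13, d14, d15, d16, d17⟩ := hD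
  obtain ⟨i0, i1, i2, i3⟩ := hI
  obtain ⟨c0, c1, c2, c3, c4, c5, c6, c7, c8, c9, c10, c11⟩ := hC
  refine hW.cert hG pkF1s_ok (e := fun i => [v0, v1, v2, v3, v4, v5, v6, v7, v8, v9, v10, v11].getD i v0) ?_
  refine emb_mk hW.nice [v0, v1, v2, v3, v4, v5, v6, v7, v8, v9, v10, v11] v0 [(0, 1), (0, 2), (0, 11), (2, 3), (2, 4), (3, 4), (3, 5), (5, 6), (6, 7), (7, 8), (7, 9), (8, 9), (8, 10)]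
    [(0, 3), (0, 4), (0, 7), (0, 8), (1, 3), (1, 4), (1, 7), (1, 8), (2, 9), (2, 10), (2, 11), (3, 7), (3, 8), (4, 7), (4, 8), (9, 10), (9, 11), (10, 11)] [2, 9, 10, 11] rfl (by decide) ?_ ?_ ?_ ?_
  · simp [e0, e1, e2, e3, e4, e5, e6, e7, e8, e9, e10, e11, e12]
  · simp [d0, d1, d2, d3, d4, d5, d6, d7, d8, d9, d10, d11, d12, d13, d14, d15, d16, d17]
  · simp [i0, i1, i2, i3]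
  · simp [c0, c1, c2, c3, c4, c5, c6, c7, c8, c9, c10, c11]
    decide

theorem World2.pkF1g (hG : Cub G) (hW : World2 G c k) (v0 v1 v2 v3 v4 v5 v6 v7 v8 v9 v10 v11 v12 v13 : V)
    (hE : G.Adj v0 v1 ∧ G.Adj v0 v2 ∧ G.Adj v0 v13 ∧ G.Adj v2 v3 ∧ G.Adj v2 v4 ∧ G.Adj v3 v4 ∧ G.Adj v3 v5 ∧ G.Adj v5 v6 ∧ G.Adj v6 v7 ∧ G.Adj v7 v8 ∧ G.Adj v7 v9 ∧ G.Adj v9 v10 ∧ G.Adj v10 v11 ∧ G.Adj v10 v12)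
    (hD : v0 ≠ v3 ∧ v0 ≠ v4 ∧ v0 ≠ v7 ∧ v0 ≠ v8 ∧ v0 ≠ v10 ∧ v0 ≠ v11 ∧ v1 ≠ v3 ∧ v1 ≠ v4 ∧ v1 ≠ v7 ∧ v1 ≠ v8 ∧ v1 ≠ v10 ∧ v1 ≠ v11 ∧ v2 ≠ v9 ∧ v2 ≠ v12 ∧ v2 ≠ v13 ∧ v3 ≠ v7 ∧ v3 ≠ v8 ∧ v3 ≠ v10 ∧ v3 ≠ v11 ∧ v4 ≠ v7 ∧ v4 ≠ v8 ∧ v4 ≠ v10 ∧ v4 ≠ v11 ∧ v7 ≠ v10 ∧ v7 ≠ v11 ∧ v8 ≠ v10 ∧ v8 ≠ v11 ∧ v9 ≠ v12 ∧ v9 ≠ v13 ∧ v12 ≠ v13)
    (hI : md G c v2 = 0 ∧ md G c v9 = 0 ∧ md G c v12 = 0 ∧ md G c v13 = 0)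
    (hC : c v0 = true ∧ c v1 = true ∧ c v2 = false ∧ c v3 = true ∧ c v4 = true ∧ c v5 = false ∧ c v6 = false ∧ c v7 = true ∧ c v8 = true ∧ c v9 = false ∧ c v10 = true ∧ c v11 = true ∧ c v12 = false ∧ c v13 = false) : False := by
  obtain ⟨e0, e1, e2, e3, e4, e5, e6, e7, e8, e9, e10, e11, e12, e13⟩ := hE
  obtain ⟨d0, d1, d2, d3, d4, d5, d6, d7, d8, d9, d10, d11, d12, d13, d14, d15, d16, d17, d18, d19, d20, d21, d22, d23, d24, d25, d26, d27, d28, d29⟩ := hD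
  obtain ⟨i0, i1, i2, i3⟩ := hI
  obtain ⟨c0, c1, c2, c3, c4, c5, c6, c7, c8, c9, c10, c11, c12, c13⟩ := hC
  refine hW.cert hG pkF1g_ok (e := fun i => [v0, v1, v2, v3, v4, v5, v6, v7, v8, v9, v10, v11, v12, v13].getD i v0) ?_
  refine emb_mk hW.nice [v0, v1, v2, v3, v4, v5, v6, v7, v8, v9, v10, v11, v12, v13] v0 [(0, 1), (0, 2), (0, 13), (2, 3), (2, 4), (3, 4), (3, 5), (5, 6), (6, 7), (7, 8), (7, 9), (9, 10), (10, 11), (10, 12)]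
    [(0, 3), (0, 4), (0, 7), (0, 8), (0, 10), (0, 11), (1, 3), (1, 4), (1, 7), (1, 8), (1, 10), (1, 11), (2, 9), (2, 12), (2, 13), (3, 7), (3, 8), (3, 10), (3, 11), (4, 7), (4, 8), (4, 10), (4, 11), (7, 10), (7, 11), (8, 10), (8, 11), (9, 12), (9, 13), (12, 13)] [2, 9, 12, 13] rfl (by decide) ?_ ?_ ?_ ?_
  · simp [e0, e1, e2, e3, e4, e5, e6, e7, e8, e9, e10, e11, e12, e13]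
  · simp [d0, d1, d2, d3, d4, d5, d6, d7, d8, d9, d10, d11, d12, d13, d14, d15, d16, d17, d18, d19, d20, d21, d22, d23, d24, d25, d26, d27, d28, d29]
  · simp [i0, i1, i2, i3]
  · simp [c0, c1, c2, c3, c4, c5, c6, c7, c8, c9, c10, c11, c12, c13]
    decide

theorem World2.pkEn (hG : Cub G) (hW : World2 G c k) (v0 v1 v2 v3 v4 v5 v6 v7 v8 v9 v10 v11 v12 : V)
    (hE : G.Adj v0 v2 ∧ G.Adj v0 v3 ∧ G.Adj v0 v9 ∧ G.Adj v1 v2 ∧ G.Adj v1 v3 ∧ G.Adj v1 v10 ∧ G.Adj v2 v8 ∧ G.Adj v4 v6 ∧ G.Adj v4 v7 ∧ G.Adj v4 v11 ∧ G.Adj v5 v6 ∧ G.Adj v5 v7 ∧ G.Adj v5 v12 ∧ G.Adj v6 v8)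
    (hD : v0 ≠ v1 ∧ v0 ≠ v4 ∧ v0 ≠ v5 ∧ v0 ≠ v10 ∧ v0 ≠ v11 ∧ v0 ≠ v12 ∧ v1 ≠ v4 ∧ v1 ≠ v5 ∧ v1 ≠ v9 ∧ v1 ≠ v11 ∧ v1 ≠ v12 ∧ v2 ≠ v3 ∧ v2 ≠ v6 ∧ v2 ≠ v7 ∧ v3 ≠ v6 ∧ v3 ≠ v7 ∧ v4 ≠ v5 ∧ v4 ≠ v9 ∧ v4 ≠ v10 ∧ v4 ≠ v12 ∧ v5 ≠ v9 ∧ v5 ≠ v10 ∧ v5 ≠ v11 ∧ v6 ≠ v7 ∧ v9 ≠ v10 ∧ v9 ≠ v11 ∧ v9 ≠ v12 ∧ v10 ≠ v11 ∧ v10 ≠ v12 ∧ v11 ≠ v12)
    (hI : md G c v2 = 0 ∧ md G c v3 = 0 ∧ md G c v6 = 0 ∧ md G c v7 = 0 ∧ md G c v8 = 0)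
    (hC : c v0 = true ∧ c v1 = true ∧ c v2 = false ∧ c v3 = false ∧ c v4 = true ∧ c v5 = true ∧ c v6 = false ∧ c v7 = false ∧ c v8 = true ∧ c v9 = true ∧ c v10 = true ∧ c v11 = true ∧ c v12 = true) : False := by
  obtain ⟨e0, e1, e2, e3, e4, e5, e6, e7, e8, e9, e10, e11, e12, e13⟩ := hE
  obtain ⟨d0, d1, d2, d3, d4, d5, d6, d7, d8, d9, d10, d11, d12, d13, d14, d15, d16, d17, d18, d19, d20, d21, d22, d23, d24, d25, d26, d27, d28, d29⟩ := hD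
  obtain ⟨i0, i1, i2, i3, i4⟩ := hI
  obtain ⟨c0, c1, c2, c3, c4, c5, c6, c7, c8, c9, c10, c11, c12⟩ := hC
  refine hW.cert hG pkEn_ok (e := fun i => [v0, v1, v2, v3, v4, v5, v6, v7, v8, v9, v10, v11, v12].getD i v0) ?_
  refine emb_mk hW.nice [v0, v1, v2, v3, v4, v5, v6, v7, v8, v9, v10, v11, v12] v0 [(0, 2), (0, 3), (0, 9), (1, 2), (1, 3), (1, 10), (2, 8), (4, 6), (4, 7), (4, 11), (5, 6), (5, 7), (5, 12), (6, 8)]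
    [(0, 1), (0, 4), (0, 5), (0, 10), (0, 11), (0, 12), (1, 4), (1, 5), (1, 9), (1, 11), (1, 12), (2, 3), (2, 6), (2, 7), (3, 6), (3, 7), (4, 5), (4, 9), (4, 10), (4, 12), (5, 9), (5, 10), (5, 11), (6, 7), (9, 10), (9, 11), (9, 12), (10, 11), (10, 12), (11, 12)] [2, 3, 6, 7, 8] rfl (by decide) ?_ ?_ ?_ ?_
  · simp [e0, e1, e2, e3, e4, e5, e6, e7, e8, e9, e10, e11, e12, e13]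
  · simp [d0, d1, d2, d3, d4, d5, d6, d7, d8, d9, d10, d11, d12, d13, d14, d15, d16, d17, d18, d19, d20, d21, d22, d23, d24, d25, d26, d27, d28, d29]
  · simp [i0, i1, i2, i3, i4]
  · simp [c0, c1, c2, c3, c4, c5, c6, c7, c8, c9, c10, c11, c12]
    decide

theorem World2.pkEx (hG : Cub G) (hW : World2 G c k) (v0 v1 v2 v3 v4 v5 v6 v7 v8 v9 v10 v11 v12 : V)
    (hE : G.Adj v0 v2 ∧ G.Adj v0 v4 ∧ G.Adj v0 v5 ∧ G.Adj v1 v3 ∧ G.Adj v1 v4 ∧ G.Adj v1 v5 ∧ G.Adj v2 v7 ∧ G.Adj v2 v8 ∧ G.Adj v4 v6 ∧ G.Adj v6 v7 ∧ G.Adj v6 v8 ∧ G.Adj v7 v9 ∧ G.Adj v8 v10 ∧ G.Adj v10 v11 ∧ G.Adj v10 v12)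
    (hD : v0 ≠ v1 ∧ v0 ≠ v3 ∧ v0 ≠ v10 ∧ v0 ≠ v11 ∧ v1 ≠ v2 ∧ v1 ≠ v10 ∧ v1 ≠ v11 ∧ v2 ≠ v3 ∧ v2 ≠ v10 ∧ v2 ≠ v11 ∧ v3 ≠ v10 ∧ v3 ≠ v11 ∧ v4 ≠ v5 ∧ v4 ≠ v8 ∧ v4 ≠ v12 ∧ v5 ≠ v8 ∧ v5 ≠ v12 ∧ v8 ≠ v12)
    (hI : md G c v4 = 0 ∧ md G c v5 = 0 ∧ md G c v6 = 0 ∧ md G c v8 = 0 ∧ md G c v12 = 0)
    (hC : c v0 = true ∧ c v1 = true ∧ c v2 = true ∧ c v3 = true ∧ c v4 = false ∧ c v5 = false ∧ c v6 = true ∧ c v7 = false ∧ c v8 = false ∧ c v9 = false ∧ c v10 = true ∧ c v11 = true ∧ c v12 = false) : False := by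
  obtain ⟨e0, e1, e2, e3, e4, e5, e6, e7, e8, e9, e10, e11, e12, e13, e14⟩ := hE
  obtain ⟨d0, d1, d2, d3, d4, d5, d6, d7, d8, d9, d10, d11, d12, d13, d14, d15, d16, d17⟩ := hD
  obtain ⟨i0, i1, i2, i3, i4⟩ := hI
  obtain ⟨c0, c1, c2, c3, c4, c5, c6, c7, c8, c9, c10, c11, c12⟩ := hC
  refine hW.cert hG pkEx_ok (e := fun i => [v0, v1, v2, v3, v4, v5, v6, v7, v8, v9, v10, v11, v12].getD i v0) ?_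
  refine emb_mk hW.nice [v0, v1, v2, v3, v4, v5, v6, v7, v8, v9, v10, v11, v12] v0 [(0, 2), (0, 4), (0, 5), (1, 3), (1, 4), (1, 5), (2, 7), (2, 8), (4, 6), (6, 7), (6, 8), (7, 9), (8, 10), (10, 11), (10, 12)]
    [(0, 1), (0, 3), (0, 10), (0, 11), (1, 2), (1, 10), (1, 11), (2, 3), (2, 10), (2, 11), (3, 10), (3, 11), (4, 5), (4, 8), (4, 12), (5, 8), (5, 12), (8, 12)] [4, 5, 6, 8, 12] rfl (by decide) ?_ ?_ ?_ ?_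
  · simp [e0, e1, e2, e3, e4, e5, e6, e7, e8, e9, e10, e11, e12, e13, e14]
  · simp [d0, d1, d2, d3, d4, d5, d6, d7, d8, d9, d10, d11, d12, d13, d14, d15, d16, d17]
  · simp [i0, i1, i2, i3, i4]
  · simp [c0, c1, c2, c3, c4, c5, c6, c7, c8, c9, c10, c11, c12]
    decide

theorem World2.pkT1v (hG : Cub G) (hW : World2 G c k) (v0 v1 v2 v3 v4 v5 v6 v7 : V)
    (hE : G.Adj v0 v1 ∧ G.Adj v0 v2 ∧ G.Adj v0 v3 ∧ G.Adj v1 v6 ∧ G.Adj v2 v3 ∧ G.Adj v2 v4 ∧ G.Adj v4 v5 ∧ G.Adj v4 v6 ∧ G.Adj v5 v6 ∧ G.Adj v5 v7)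
    (hD : v2 ≠ v5 ∧ v2 ≠ v6 ∧ v3 ≠ v5 ∧ v3 ≠ v6 ∧ v4 ≠ v7)
    (hI : md G c v4 = 0 ∧ md G c v7 = 0)
    (hC : c v0 = false ∧ c v1 = false ∧ c v2 = true ∧ c v3 = true ∧ c v4 = false ∧ c v5 = true ∧ c v6 = true ∧ c v7 = false) : False := by
  obtain ⟨e0, e1, e2, e3, e4, e5, e6, e7, e8, e9⟩ := hE
  obtain ⟨d0, d1, d2, d3, d4⟩ := hD
  obtain ⟨i0, i1⟩ := hI
  obtain ⟨c0, c1, c2, c3, c4, c5, c6, c7⟩ := hC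
  refine hW.cert hG pkT1v_ok (e := fun i => [v0, v1, v2, v3, v4, v5, v6, v7].getD i v0) ?_
  refine emb_mk hW.nice [v0, v1, v2, v3, v4, v5, v6, v7] v0 [(0, 1), (0, 2), (0, 3), (1, 6), (2, 3), (2, 4), (4, 5), (4, 6), (5, 6), (5, 7)]
    [(2, 5), (2, 6), (3, 5), (3, 6), (4, 7)] [4, 7] rfl (by decide) ?_ ?_ ?_ ?_
  · simp [e0, e1, e2, e3, e4, e5, e6, e7, e8, e9]
  · simp [d0, d1, d2, d3, d4]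
  · simp [i0, i1]
  · simp [c0, c1, c2, c3, c4, c5, c6, c7]
    decide

theorem World2.pkT1x (hG : Cub G) (hW : World2 G c k) (v0 v1 v2 v3 v4 v5 v6 v7 : V)
    (hE : G.Adj v0 v1 ∧ G.Adj v0 v2 ∧ G.Adj v0 v3 ∧ G.Adj v1 v6 ∧ G.Adj v2 v3 ∧ G.Adj v2 v4 ∧ G.Adj v4 v5 ∧ G.Adj v5 v6 ∧ G.Adj v5 v7 ∧ G.Adj v6 v7)
    (hD : v2 ≠ v5 ∧ v2 ≠ v6 ∧ v3 ≠ v5 ∧ v3 ≠ v6 ∧ v4 ≠ v7)
    (hI : md G c v4 = 0 ∧ md G c v7 = 0)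
    (hC : c v0 = false ∧ c v1 = false ∧ c v2 = true ∧ c v3 = true ∧ c v4 = false ∧ c v5 = true ∧ c v6 = true ∧ c v7 = false) : False := by
  obtain ⟨e0, e1, e2, e3, e4, e5, e6, e7, e8, e9⟩ := hE
  obtain ⟨d0, d1, d2, d3, d4⟩ := hD
  obtain ⟨i0, i1⟩ := hI
  obtain ⟨c0, c1, c2, c3, c4, c5, c6, c7⟩ := hC
  refine hW.cert hG pkT1x_ok (e := fun i => [v0, v1, v2, v3, v4, v5, v6, v7].getD i v0) ?_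
  refine emb_mk hW.nice [v0, v1, v2, v3, v4, v5, v6, v7] v0 [(0, 1), (0, 2), (0, 3), (1, 6), (2, 3), (2, 4), (4, 5), (5, 6), (5, 7), (6, 7)]
    [(2, 5), (2, 6), (3, 5), (3, 6), (4, 7)] [4, 7] rfl (by decide) ?_ ?_ ?_ ?_
  · simp [e0, e1, e2, e3, e4, e5, e6, e7, e8, e9]
  · simp [d0, d1, d2, d3, d4]
  · simp [i0, i1]
  · simp [c0, c1, c2, c3, c4, c5, c6, c7]
    decide

theorem World2.pkT1s (hG : Cub G) (hW : World2 G c k) (v0 v1 v2 v3 v4 v5 v6 v7 v8 v9 : V)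
    (hE : G.Adj v0 v1 ∧ G.Adj v0 v2 ∧ G.Adj v0 v3 ∧ G.Adj v1 v7 ∧ G.Adj v2 v3 ∧ G.Adj v2 v4 ∧ G.Adj v4 v5 ∧ G.Adj v5 v6 ∧ G.Adj v5 v9 ∧ G.Adj v7 v8 ∧ G.Adj v7 v9)
    (hD : v2 ≠ v5 ∧ v2 ≠ v6 ∧ v2 ≠ v7 ∧ v2 ≠ v8 ∧ v3 ≠ v5 ∧ v3 ≠ v6 ∧ v3 ≠ v7 ∧ v3 ≠ v8 ∧ v4 ≠ v9 ∧ v5 ≠ v7 ∧ v5 ≠ v8 ∧ v6 ≠ v7 ∧ v6 ≠ v8)
    (hI : md G c v4 = 0 ∧ md G c v9 = 0)
    (hC : c v0 = false ∧ c v1 = false ∧ c v2 = true ∧ c v3 = true ∧ c v4 = false ∧ c v5 = true ∧ c v6 = true ∧ c v7 = true ∧ c v8 = true ∧ c v9 = false) : False := by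
  obtain ⟨e0, e1, e2, e3, e4, e5, e6, e7, e8, e9, e10⟩ := hE
  obtain ⟨d0, d1, d2, d3, d4, d5, d6, d7, d8, d9, d10, d11, d12⟩ := hD
  obtain ⟨i0, i1⟩ := hI
  obtain ⟨c0, c1, c2, c3, c4, c5, c6, c7, c8, c9⟩ := hC
  refine hW.cert hG pkT1s_ok (e := fun i => [v0, v1, v2, v3, v4, v5, v6, v7, v8, v9].getD i v0) ?_
  refine emb_mk hW.nice [v0, v1, v2, v3, v4, v5, v6, v7, v8, v9] v0 [(0, 1), (0, 2), (0, 3), (1, 7), (2, 3), (2, 4), (4, 5), (5, 6), (5, 9), (7, 8), (7, 9)]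
    [(2, 5), (2, 6), (2, 7), (2, 8), (3, 5), (3, 6), (3, 7), (3, 8), (4, 9), (5, 7), (5, 8), (6, 7), (6, 8)] [4, 9] rfl (by decide) ?_ ?_ ?_ ?_
  · simp [e0, e1, e2, e3, e4, e5, e6, e7, e8, e9, e10]
  · simp [d0, d1, d2, d3, d4, d5, d6, d7, d8, d9, d10, d11, d12]
  · simp [i0, i1]
  · simp [c0, c1, c2, c3, c4, c5, c6, c7, c8, c9]
    decide

theorem World2.pkT1m (hG : Cub G) (hW : World2 G c k) (v0 v1 v2 v3 v4 v5 v6 v7 v8 v9 : V)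
    (hE : G.Adj v0 v1 ∧ G.Adj v0 v2 ∧ G.Adj v0 v3 ∧ G.Adj v1 v7 ∧ G.Adj v2 v3 ∧ G.Adj v2 v4 ∧ G.Adj v4 v5 ∧ G.Adj v5 v6 ∧ G.Adj v6 v9 ∧ G.Adj v7 v8 ∧ G.Adj v7 v9)
    (hD : v2 ≠ v5 ∧ v2 ≠ v6 ∧ v2 ≠ v7 ∧ v2 ≠ v8 ∧ v3 ≠ v5 ∧ v3 ≠ v6 ∧ v3 ≠ v7 ∧ v3 ≠ v8 ∧ v4 ≠ v9 ∧ v5 ≠ v7 ∧ v5 ≠ v8 ∧ v6 ≠ v7 ∧ v6 ≠ v8)
    (hI : md G c v4 = 0 ∧ md G c v9 = 0)
    (hC : c v0 = false ∧ c v1 = false ∧ c v2 = true ∧ c v3 = true ∧ c v4 = false ∧ c v5 = true ∧ c v6 = true ∧ c v7 = true ∧ c v8 = true ∧ c v9 = false) : False := by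
  obtain ⟨e0, e1, e2, e3, e4, e5, e6, e7, e8, e9, e10⟩ := hE
  obtain ⟨d0, d1, d2, d3, d4, d5, d6, d7, d8, d9, d10, d11, d12⟩ := hD
  obtain ⟨i0, i1⟩ := hI
  obtain ⟨c0, c1, c2, c3, c4, c5, c6, c7, c8, c9⟩ := hC
  refine hW.cert hG pkT1m_ok (e := fun i => [v0, v1, v2, v3, v4, v5, v6, v7, v8, v9].getD i v0) ?_
  refine emb_mk hW.nice [v0, v1, v2, v3, v4, v5, v6, v7, v8, v9] v0 [(0, 1), (0, 2), (0, 3), (1, 7), (2, 3), (2, 4), (4, 5), (5, 6), (6, 9), (7, 8), (7, 9)]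
    [(2, 5), (2, 6), (2, 7), (2, 8), (3, 5), (3, 6), (3, 7), (3, 8), (4, 9), (5, 7), (5, 8), (6, 7), (6, 8)] [4, 9] rfl (by decide) ?_ ?_ ?_ ?_
  · simp [e0, e1, e2, e3, e4, e5, e6, e7, e8, e9, e10]
  · simp [d0, d1, d2, d3, d4, d5, d6, d7, d8, d9, d10, d11, d12]
  · simp [i0, i1]
  · simp [c0, c1, c2, c3, c4, c5, c6, c7, c8, c9]
    decide

theorem World2.pkT1w (hG : Cub G) (hW : World2 G c k) (v0 v1 v2 v3 v4 v5 v6 v7 v8 v9 v10 : V)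
    (hE : G.Adj v0 v1 ∧ G.Adj v0 v2 ∧ G.Adj v0 v3 ∧ G.Adj v1 v6 ∧ G.Adj v2 v3 ∧ G.Adj v2 v4 ∧ G.Adj v4 v5 ∧ G.Adj v5 v6 ∧ G.Adj v6 v7 ∧ G.Adj v7 v8 ∧ G.Adj v8 v9 ∧ G.Adj v8 v10)
    (hD : v2 ≠ v5 ∧ v2 ≠ v6 ∧ v2 ≠ v8 ∧ v2 ≠ v9 ∧ v3 ≠ v5 ∧ v3 ≠ v6 ∧ v3 ≠ v8 ∧ v3 ≠ v9 ∧ v4 ≠ v7 ∧ v4 ≠ v10 ∧ v5 ≠ v8 ∧ v5 ≠ v9 ∧ v6 ≠ v8 ∧ v6 ≠ v9 ∧ v7 ≠ v10)
    (hI : md G c v4 = 0 ∧ md G c v7 = 0 ∧ md G c v10 = 0)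
    (hC : c v0 = false ∧ c v1 = false ∧ c v2 = true ∧ c v3 = true ∧ c v4 = false ∧ c v5 = true ∧ c v6 = true ∧ c v7 = false ∧ c v8 = true ∧ c v9 = true ∧ c v10 = false) : False := by
  obtain ⟨e0, e1, e2, e3, e4, e5, e6, e7, e8, e9, e10, e11⟩ := hE
  obtain ⟨d0, d1, d2, d3, d4, d5, d6, d7, d8, d9, d10, d11, d12, d13, d14⟩ := hD
  obtain ⟨i0, i1, i2⟩ := hI
  obtain ⟨c0, c1, c2, c3, c4, c5, c6, c7, c8, c9, c10⟩ := hC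
  refine hW.cert hG pkT1w_ok (e := fun i => [v0, v1, v2, v3, v4, v5, v6, v7, v8, v9, v10].getD i v0) ?_
  refine emb_mk hW.nice [v0, v1, v2, v3, v4, v5, v6, v7, v8, v9, v10] v0 [(0, 1), (0, 2), (0, 3), (1, 6), (2, 3), (2, 4), (4, 5), (5, 6), (6, 7), (7, 8), (8, 9), (8, 10)]
    [(2, 5), (2, 6), (2, 8), (2, 9), (3, 5), (3, 6), (3, 8), (3, 9), (4, 7), (4, 10), (5, 8), (5, 9), (6, 8), (6, 9), (7, 10)] [4, 7, 10] rfl (by decide) ?_ ?_ ?_ ?_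
  · simp [e0, e1, e2, e3, e4, e5, e6, e7, e8, e9, e10, e11]
  · simp [d0, d1, d2, d3, d4, d5, d6, d7, d8, d9, d10, d11, d12, d13, d14]
  · simp [i0, i1, i2]
  · simp [c0, c1, c2, c3, c4, c5, c6, c7, c8, c9, c10]
    decide

theorem World2.pkT1y (hG : Cub G) (hW : World2 G c k) (v0 v1 v2 v3 v4 v5 v6 v7 v8 v9 v10 : V)
    (hE : G.Adj v0 v1 ∧ G.Adj v0 v2 ∧ G.Adj v0 v3 ∧ G.Adj v1 v7 ∧ G.Adj v2 v3 ∧ G.Adj v2 v4 ∧ G.Adj v4 v5 ∧ G.Adj v5 v6 ∧ G.Adj v7 v8 ∧ G.Adj v7 v9 ∧ G.Adj v8 v9 ∧ G.Adj v8 v10)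
    (hD : v2 ≠ v5 ∧ v2 ≠ v6 ∧ v2 ≠ v7 ∧ v2 ≠ v8 ∧ v3 ≠ v5 ∧ v3 ≠ v6 ∧ v3 ≠ v7 ∧ v3 ≠ v8 ∧ v4 ≠ v9 ∧ v4 ≠ v10 ∧ v5 ≠ v7 ∧ v5 ≠ v8 ∧ v6 ≠ v7 ∧ v6 ≠ v8 ∧ v9 ≠ v10)
    (hI : md G c v4 = 0 ∧ md G c v9 = 0 ∧ md G c v10 = 0)
    (hC : c v0 = false ∧ c v1 = false ∧ c v2 = true ∧ c v3 = true ∧ c v4 = false ∧ c v5 = true ∧ c v6 = true ∧ c v7 = true ∧ c v8 = true ∧ c v9 = false ∧ c v10 = false) : False := by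
  obtain ⟨e0, e1, e2, e3, e4, e5, e6, e7, e8, e9, e10, e11⟩ := hE
  obtain ⟨d0, d1, d2, d3, d4, d5, d6, d7, d8, d9, d10, d11, d12, d13, d14⟩ := hD
  obtain ⟨i0, i1, i2⟩ := hI
  obtain ⟨c0, c1, c2, c3, c4, c5, c6, c7, c8, c9, c10⟩ := hC
  refine hW.cert hG pkT1y_ok (e := fun i => [v0, v1, v2, v3, v4, v5, v6, v7, v8, v9, v10].getD i v0) ?_
  refine emb_mk hW.nice [v0, v1, v2, v3, v4, v5, v6, v7, v8, v9, v10] v0 [(0, 1), (0, 2), (0, 3), (1, 7), (2, 3), (2, 4), (4, 5), (5, 6), (7, 8), (7, 9), (8, 9), (8, 10)]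
    [(2, 5), (2, 6), (2, 7), (2, 8), (3, 5), (3, 6), (3, 7), (3, 8), (4, 9), (4, 10), (5, 7), (5, 8), (6, 7), (6, 8), (9, 10)] [4, 9, 10] rfl (by decide) ?_ ?_ ?_ ?_
  · simp [e0, e1, e2, e3, e4, e5, e6, e7, e8, e9, e10, e11]
  · simp [d0, d1, d2, d3, d4, d5, d6, d7, d8, d9, d10, d11, d12, d13, d14]
  · simp [i0, i1, i2]
  · simp [c0, c1, c2, c3, c4, c5, c6, c7, c8, c9, c10]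
    decide

theorem World2.pkT1g (hG : Cub G) (hW : World2 G c k) (v0 v1 v2 v3 v4 v5 v6 v7 v8 v9 v10 v11 v12 v13 : V)
    (hE : G.Adj v0 v1 ∧ G.Adj v0 v2 ∧ G.Adj v0 v3 ∧ G.Adj v1 v8 ∧ G.Adj v2 v3 ∧ G.Adj v2 v4 ∧ G.Adj v4 v5 ∧ G.Adj v5 v6 ∧ G.Adj v5 v7 ∧ G.Adj v8 v9 ∧ G.Adj v8 v10 ∧ G.Adj v10 v11 ∧ G.Adj v11 v12 ∧ G.Adj v11 v13)
    (hD : v2 ≠ v5 ∧ v2 ≠ v6 ∧ v2 ≠ v8 ∧ v2 ≠ v9 ∧ v2 ≠ v11 ∧ v2 ≠ v12 ∧ v3 ≠ v5 ∧ v3 ≠ v6 ∧ v3 ≠ v8 ∧ v3 ≠ v9 ∧ v3 ≠ v11 ∧ v3 ≠ v12 ∧ v4 ≠ v7 ∧ v4 ≠ v10 ∧ v4 ≠ v13 ∧ v5 ≠ v8 ∧ v5 ≠ v9 ∧ v5 ≠ v11 ∧ v5 ≠ v12 ∧ v6 ≠ v8 ∧ v6 ≠ v9 ∧ v6 ≠ v11 ∧ v6 ≠ v12 ∧ v7 ≠ v10 ∧ v7 ≠ v13 ∧ v8 ≠ v11 ∧ v8 ≠ v12 ∧ v9 ≠ v11 ∧ v9 ≠ v12 ∧ v10 ≠ v13)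
    (hI : md G c v4 = 0 ∧ md G c v7 = 0 ∧ md G c v10 = 0 ∧ md G c v13 = 0)
    (hC : c v0 = false ∧ c v1 = false ∧ c v2 = true ∧ c v3 = true ∧ c v4 = false ∧ c v5 = true ∧ c v6 = true ∧ c v7 = false ∧ c v8 = true ∧ c v9 = true ∧ c v10 = false ∧ c v11 = true ∧ c v12 = true ∧ c v13 = false) : False := by
  obtain ⟨e0, e1, e2, e3, e4, e5, e6, e7, e8, e9, e10, e11, e12, e13⟩ := hE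
  obtain ⟨d0, d1, d2, d3, d4, d5, d6, d7, d8, d9, d10, d11, d12, d13, d14, d15, d16, d17, d18, d19, d20, d21, d22, d23, d24, d25, d26, d27, d28, d29⟩ := hD
  obtain ⟨i0, i1, i2, i3⟩ := hI
  obtain ⟨c0, c1, c2, c3, c4, c5, c6, c7, c8, c9, c10, c11, c12, c13⟩ := hC
  refine hW.cert hG pkT1g_ok (e := fun i => [v0, v1, v2, v3, v4, v5, v6, v7, v8, v9, v10, v11, v12, v13].getD i v0) ?_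
  refine emb_mk hW.nice [v0, v1, v2, v3, v4, v5, v6, v7, v8, v9, v10, v11, v12, v13] v0 [(0, 1), (0, 2), (0, 3), (1, 8), (2, 3), (2, 4), (4, 5), (5, 6), (5, 7), (8, 9), (8, 10), (10, 11), (11, 12), (11, 13)]
    [(2, 5), (2, 6), (2, 8), (2, 9), (2, 11), (2, 12), (3, 5), (3, 6), (3, 8), (3, 9), (3, 11), (3, 12), (4, 7), (4, 10), (4, 13), (5, 8), (5, 9), (5, 11), (5, 12), (6, 8), (6, 9), (6, 11), (6, 12), (7, 10), (7, 13), (8, 11), (8, 12), (9, 11), (9, 12), (10, 13)] [4, 7, 10, 13] rfl (by decide) ?_ ?_ ?_ ?_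
  · simp [e0, e1, e2, e3, e4, e5, e6, e7, e8, e9, e10, e11, e12, e13]
  · simp [d0, d1, d2, d3, d4, d5, d6, d7, d8, d9, d10, d11, d12, d13, d14, d15, d16, d17, d18, d19, d20, d21, d22, d23, d24, d25, d26, d27, d28, d29]
  · simp [i0, i1, i2, i3]
  · simp [c0, c1, c2, c3, c4, c5, c6, c7, c8, c9, c10, c11, c12, c13]
    decide

end

end Pool.Agent.Work.MP_1e13ac_W
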