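import Pool.Agent.Work.MP_1e13ac_W.W1Defs

/-!
# MP_1e13ac_co, World 1: the blocks IDENT and PAY1 (double counting)
-/

set_option autoImplicit false
set_option linter.unusedSectionVars false

namespace Pool.Agent.Work.MP_1e13ac_W

open Classical Finset Pool.Agent.Work.MP_1e13ac_Bis

noncomputable section

variable {V : Type} [Fintype V]

namespace CntAux

theorem mem_nbs {G : SimpleGraph V} {x y : V} : y ∈ nbs G x ↔ G.Adj x y := by simp [nbs]

/-- number of neighbours with a property -/
def nn (G : SimpleGraph V) (P : V → Prop) (x : V) : ℕ := ((nbs G x).filter fun y => P y).card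

theorem double (G : SimpleGraph V) (P Q : V → Prop) [DecidablePred P] [DecidablePred Q] :
    ∑ x ∈ univ.filter P, nn G Q x = ∑ y ∈ univ.filter Q, nn G P y := by
  have h := Finset.sum_card_bipartiteAbove_eq_sum_card_bipartiteBelow
    (s := univ.filter P) (t := univ.filter Q) (fun x y => G.Adj x y)
  have e1 : ∀ x, (Finset.bipartiteAbove (fun x y => G.Adj x y) (univ.filter Q) x).card = nn G Q x := by
    intro x
    unfold nn Finset.bipartiteAbove
    congr 1
    ext y
    simp [nbs, and_comm]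
  have e2 : ∀ y, (Finset.bipartiteBelow (fun x y => G.Adj x y) (univ.filter P) y).card = nn G P y := by
    intro y
    unfold nn Finset.bipartiteBelow
    congr 1
    ext x
    simp [nbs, and_comm, G.adj_comm]
  simp only [e1, e2] at h
  exact h

theorem md_eq (G : SimpleGraph V) (c : V → Bool) (x : V) : md G c x = nn G (fun y => c x = c y) x := by
  unfold md nn nbs MA
  congr 1
  ext y
  simp

theorem opp_eq (G : SimpleGraph V) (hG : Cub G) (c : V → Bool) (x : V) :
    nn G (fun y => c y ≠ c x) x + md G c x = 3 := by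
  rw [md_eq, ← hG x]
  unfold nn
  have h := Finset.card_filter_add_card_filter_not (s := nbs G x) (fun y => c y ≠ c x)
  have e1 : ((nbs G x).filter fun y => c x = c y) = (nbs G x).filter fun y => ¬ (c y ≠ c x) := by
    ext y
    simp only [Finset.mem_filter, ne_eq, not_not]
    constructor
    · rintro ⟨h1, h2⟩; exact ⟨h1, h2.symm⟩
    · rintro ⟨h1, h2⟩; exact ⟨h1, h2.symm⟩
  have e2 : ∀ (P : V → Prop) (i1 i2 : DecidablePred P), (@Finset.filter V P i1 (nbs G x)).card =
      (@Finset.filter V P i2 (nbs G x)).card := by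
    intro P i1 i2
    congr 1
    ext y
    simp
  rw [e2 (fun y => c x = c y) _ inferInstance, e1, ← h]
  congr 1
  · exact e2 _ _ _

theorem nn_congr {G : SimpleGraph V} {P Q : V → Prop} {x : V} (h : ∀ y, G.Adj x y → (P y ↔ Q y)) :
    nn G P x = nn G Q x := by
  unfold nn
  congr 1
  ext y
  simp only [Finset.mem_filter, mem_nbs]
  constructor
  · rintro ⟨h1, h2⟩; exact ⟨h1, (h y h1).1 h2⟩
  · rintro ⟨h1, h2⟩; exact ⟨h1, (h y h1).2 h2⟩

theorem nn_le {G : SimpleGraph V} {P Q : V → Prop} {x : V} (h : ∀ y, G.Adj x y → P y → Q y) :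
    nn G P x ≤ nn G Q x := by
  unfold nn
  refine Finset.card_le_card ?_
  intro y hy
  simp only [Finset.mem_filter, mem_nbs] at hy ⊢
  exact ⟨hy.1, h y hy.1 hy.2⟩

theorem nn_zero {G : SimpleGraph V} {P : V → Prop} {x : V} :
    nn G P x = 0 ↔ ∀ y, G.Adj x y → ¬ P y := by
  unfold nn
  rw [Finset.card_eq_zero, Finset.filter_eq_empty_iff]
  simp [mem_nbs]

/-- white degree of black vertices -/
theorem opp_black {G : SimpleGraph V} (hG : Cub G) {c : V → Bool} {z : V} (hz : IsB1 G c z) :
    nn G (fun y => c y = true) z = 2 := by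
  have h := opp_eq G hG c z
  have e : nn G (fun y => c y ≠ c z) z = nn G (fun y => c y = true) z :=
    nn_congr fun y _ => by rw [hz.1]; simp
  rw [e, hz.2] at h
  omega

theorem opp_white {G : SimpleGraph V} (hG : Cub G) {c : V → Bool} {z : V} (hz : IsW1 G c z) :
    nn G (fun y => c y = false) z = 2 := by
  have h := opp_eq G hG c z
  have e : nn G (fun y => c y ≠ c z) z = nn G (fun y => c y = false) z :=
    nn_congr fun y _ => by rw [hz.1]; simp
  rw [e, hz.2] at h
  omega

theorem nn_W1_le {G : SimpleGraph V} (hG : Cub G) {c : V → Bool} {z : V} (hz : IsB1 G c z) :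
    nn G (fun y => IsW1 G c y) z ≤ 2 := by
  rw [← opp_black hG hz]
  exact nn_le fun y _ h => h.1

theorem nn_B1_le {G : SimpleGraph V} (hG : Cub G) {c : V → Bool} {z : V} (hz : IsW1 G c z) :
    nn G (fun y => IsB1 G c y) z ≤ 2 := by
  rw [← opp_white hG hz]
  exact nn_le fun y _ h => h.1

/-- a neighbour of a vertex with white mate -/
theorem ma_md {G : SimpleGraph V} {c : V → Bool} (hc : Nice G c) {x y : V} (h : MA G c x y) :
    md G c x = 1 := by
  have h1 := hc x
  have h2 : 0 < md G c x := by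
    unfold md
    exact Finset.card_pos.2 ⟨y, by simp [h]⟩
  omega

theorem mate_exists {G : SimpleGraph V} {c : V → Bool} {x : V} (h : md G c x = 1) :
    ∃ y, MA G c x y := by
  unfold md at h
  have h2 : 0 < (univ.filter fun y => MA G c x y).card := by omega
  obtain ⟨y, hy⟩ := Finset.card_pos.1 h2
  exact ⟨y, by simpa using hy⟩

/-- two elements of a filter of card two are all -/
theorem two_of {G : SimpleGraph V} {P : V → Prop} {x p q r : V} (h : nn G P x ≤ 2)
    (hp : G.Adj x p ∧ P p) (hq : G.Adj x q ∧ P q) (hr : G.Adj x r ∧ P r) (hpq : p ≠ q) :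
    r = p ∨ r = q := by
  by_contra hcon
  push Not at hcon
  have h3 : ({p, q, r} : Finset V).card = 3 := by
    rw [Finset.card_eq_three]
    exact ⟨p, q, r, hpq, fun h => hcon.1 h.symm, fun h => hcon.2 h.symm, rfl⟩
  have h4 : ({p, q, r} : Finset V) ⊆ (nbs G x).filter fun y => P y := by
    intro y hy
    simp only [Finset.mem_insert, Finset.mem_singleton] at hy
    simp only [Finset.mem_filter, mem_nbs]
    rcases hy with rfl | rfl | rfl
    · exact hp
    · exact hq
    · exact hr
  have h5 := Finset.card_le_card h4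
  unfold nn at h
  omega

theorem two_exist {G : SimpleGraph V} {P : V → Prop} {x : V} (h : 2 ≤ nn G P x) :
    ∃ p q, p ≠ q ∧ (G.Adj x p ∧ P p) ∧ (G.Adj x q ∧ P q) := by
  unfold nn at h
  obtain ⟨p, hp, q, hq, hpq⟩ := Finset.one_lt_card.1 (by omega : 1 < ((nbs G x).filter fun y => P y).card)
  simp only [Finset.mem_filter, mem_nbs] at hp hq
  exact ⟨p, q, hpq, hp, hq⟩

theorem two_le {G : SimpleGraph V} {P : V → Prop} {x p q : V} (hpq : p ≠ q)
    (hp : G.Adj x p ∧ P p) (hq : G.Adj x q ∧ P q) : 2 ≤ nn G P x := by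
  unfold nn
  refine Finset.one_lt_card.2 ⟨p, ?_, q, ?_, hpq⟩
  · simp only [Finset.mem_filter, mem_nbs]; exact hp
  · simp only [Finset.mem_filter, mem_nbs]; exact hq

theorem mem_T1 {G : SimpleGraph V} (hG : Cub G) {c : V → Bool} (hc : Nice G c) (hR : Rule1 G c) (z : V) :
    z ∈ T1s G c ↔ IsB1 G c z ∧ nn G (fun y => IsW1 G c y) z = 2 := by
  unfold T1s
  simp only [Finset.mem_filter, Finset.mem_univ, true_and]
  constructor
  · rintro ⟨h1, p, q, hp, hq, hm, hw⟩
    refine ⟨h1, le_antisymm (nn_W1_le hG h1) ?_⟩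
    refine two_le (G := G) hm.1.ne ⟨hp, hw, ma_md hc hm⟩ ⟨hq, ?_, ma_md hc (ma_symm hm)⟩
    rw [← hm.2]; exact hw
  · rintro ⟨h1, h2⟩
    obtain ⟨p, q, hpq, ⟨hp, hpw⟩, hq, hqw⟩ := two_exist (by omega : 2 ≤ nn G (fun y => IsW1 G c y) z)
    refine ⟨h1, p, q, hp, hq, ⟨hR z p q h1 hp hq hpq hpw hqw, ?_⟩, hpw.1⟩
    rw [hpw.1, hqw.1]

theorem mem_B1p {G : SimpleGraph V} {c : V → Bool} (z : V) :
    z ∈ B1p G c ↔ IsB1 G c z ∧ nn G (fun y => IsW1 G c y) z = 0 := by
  unfold B1p
  simp only [Finset.mem_filter, Finset.mem_univ, true_and, nn_zero]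

theorem nB1_eq (G : SimpleGraph V) (c : V → Bool) (x : V) : nB1 G c x = nn G (fun y => IsB1 G c y) x :=
  rfl

theorem card_filter_sum (P : V → Prop) [DecidablePred P] : ((univ.filter P).card : ℤ) = ∑ x, if P x then 1 else 0 := by
  rw [Finset.card_filter]
  push_cast
  rfl

/-- cross edges -/
theorem cross (G : SimpleGraph V) (hG : Cub G) (c : V → Bool) (hc : Nice G c) :
    ((univ.filter fun x => IsW1 G c x).card : ℤ) = (univ.filter fun x => IsB1 G c x).card + 3 * lev c := by
  have h := double G (fun x => c x = true) (fun x => c x = false)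
  have e1 : (∑ x ∈ univ.filter (fun x => c x = true), (nn G (fun x => c x = false) x : ℤ)) =
      ∑ x ∈ univ.filter (fun x => c x = true), (3 - (md G c x : ℤ)) := by
    refine Finset.sum_congr rfl fun x hx => ?_
    simp only [Finset.mem_filter, Finset.mem_univ, true_and] at hx
    have h1 := opp_eq G hG c x
    have e : nn G (fun y => c y ≠ c x) x = nn G (fun y => c y = false) x :=
      nn_congr fun y _ => by rw [hx]; simp
    rw [e] at h1
    omega
  have e2 : (∑ x ∈ univ.filter (fun x => c x = false), (nn G (fun x => c x = true) x : ℤ)) =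
      ∑ x ∈ univ.filter (fun x => c x = false), (3 - (md G c x : ℤ)) := by
    refine Finset.sum_congr rfl fun x hx => ?_
    simp only [Finset.mem_filter, Finset.mem_univ, true_and] at hx
    have h1 := opp_eq G hG c x
    have e : nn G (fun y => c y ≠ c x) x = nn G (fun y => c y = true) x :=
      nn_congr fun y _ => by rw [hx]; simp
    rw [e] at h1
    omega
  have h' : (∑ x ∈ univ.filter (fun x => c x = true), (nn G (fun x => c x = false) x : ℤ)) =
      ∑ x ∈ univ.filter (fun x => c x = false), (nn G (fun x => c x = true) x : ℤ) := by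
    exact_mod_cast h
  rw [e1, e2, Finset.sum_filter, Finset.sum_filter] at h'
  rw [card_filter_sum, card_filter_sum]
  have key : (∑ x, if IsW1 G c x then (1 : ℤ) else 0) -
      ((∑ x, if IsB1 G c x then (1 : ℤ) else 0) + 3 * lev c) =
      (∑ x, if c x = false then (3 - (md G c x : ℤ)) else 0) -
        ∑ x, if c x = true then (3 - (md G c x : ℤ)) else 0 := by
    unfold lev
    rw [Finset.mul_sum, ← Finset.sum_add_distrib, ← Finset.sum_sub_distrib,
      ← Finset.sum_sub_distrib]
    refine Finset.sum_congr rfl fun x _ => ?_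
    have h1 := hc x
    unfold IsW1 IsB1 sg
    rcases hcx : c x with _ | _
    · have : md G c x = 0 ∨ md G c x = 1 := by omega
      rcases this with h2 | h2 <;> simp [h2]
    · have : md G c x = 0 ∨ md G c x = 1 := by omega
      rcases this with h2 | h2 <;> simp [h2]
  linarith

theorem sum_two (P : V → Prop) (f : V → ℕ) (hf : ∀ x, P x → f x ≤ 2) :
    ((univ.filter P).card : ℤ) + (univ.filter fun x => P x ∧ f x = 2).card =
      ∑ x ∈ univ.filter P, (f x : ℤ) + (univ.filter fun x => P x ∧ f x = 0).card := by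
  rw [card_filter_sum, card_filter_sum, card_filter_sum, Finset.sum_filter, ← Finset.sum_add_distrib,
    ← Finset.sum_add_distrib]
  refine Finset.sum_congr rfl fun x _ => ?_
  by_cases hP : P x
  · have := hf x hP
    have : f x = 0 ∨ f x = 1 ∨ f x = 2 := by omega
    rcases this with h | h | h <;> simp [hP, h]
  · simp [hP]

end CntAux

open CntAux

theorem stmt_IDENT : Stmt_IDENT := by
  intro V _ G hG c hc hR
  have h1 := cross G hG c hc
  have h2 := sum_two (fun x => IsW1 G c x) (fun x => nB1 G c x) (fun x hx => nn_B1_le hG hx)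
  have h3 := sum_two (fun x => IsB1 G c x) (fun x => nn G (fun y => IsW1 G c y) x)
    (fun x hx => nn_W1_le hG hx)
  have h4 := double G (fun x => IsW1 G c x) (fun x => IsB1 G c x)
  have h4' : (∑ x ∈ univ.filter (fun x => IsW1 G c x), (nB1 G c x : ℤ)) =
      ∑ x ∈ univ.filter (fun x => IsB1 G c x), (nn G (fun y => IsW1 G c y) x : ℤ) := by
    exact_mod_cast h4
  have e2 : (univ.filter fun x => IsB1 G c x ∧ nn G (fun y => IsW1 G c y) x = 2) = T1s G c := by
    ext z
    rw [mem_T1 hG hc hR]
    simp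
  have e0 : (univ.filter fun x => IsB1 G c x ∧ nn G (fun y => IsW1 G c y) x = 0) = B1p G c := by
    ext z
    rw [mem_B1p]
    simp
  rw [e2, e0] at h3
  have f2 : (univ.filter fun x => IsW1 G c x ∧ nB1 G c x = 2) = Qs G c 2 := rfl
  have f0 : (univ.filter fun x => IsW1 G c x ∧ nB1 G c x = 0) = Qs G c 0 := rfl
  rw [f2, f0] at h2
  rw [h4'] at h2
  linarith

theorem stmt_PAY1 : Stmt_PAY1 := by
  intro V _ G hG c hc hR hA
  -- mate
  have hmate : ∀ z, IsB1 G c z → ∃ z', MA G c z z' := fun z hz => mate_exists hz.2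
  set T := T1s G c with hT
  -- split
  set Y := T.filter fun z => ∃ z' ∈ B1p G c, MA G c z z' with hY
  set X := T.filter fun z => ¬ ∃ z' ∈ B1p G c, MA G c z z' with hX
  have hsplit : T.card = Y.card + X.card := by
    rw [hY, hX]
    exact (Finset.card_filter_add_card_filter_not _).symm
  have hYc : Y.card ≤ (B1p G c).card := by
    have hch : ∀ z ∈ Y, ∃ z' ∈ B1p G c, MA G c z z' := fun z hz => (Finset.mem_filter.1 hz).2
    choose! f hf1 hf2 using hch
    refine Finset.card_le_card_of_injOn f (fun z hz => hf1 z hz) ?_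
    intro a ha b hb hab
    have h1 := hf2 a ha
    have h2 := hf2 b hb
    rw [hab] at h1
    exact nice_uniq hc (ma_symm h1) (ma_symm h2)
  -- the pair of a T1
  have hpair : ∀ z ∈ X, ∀ p, G.Adj p z → IsW1 G c p → ∃ p', MA G c p p' ∧ G.Adj p' z ∧ IsW1 G c p' ∧
      (p ∈ Qs G c 2 ∨ p' ∈ Qs G c 2) := by
    intro z hz p hpz hp
    obtain ⟨hzT, hzn⟩ := Finset.mem_filter.1 hz
    have hzB := ((mem_T1 hG hc hR z).1 hzT).1
    have hz2 := ((mem_T1 hG hc hR z).1 hzT).2
    obtain ⟨u, v, huv, hu, hv⟩ := two_exist (by omega : 2 ≤ nn G (fun y => IsW1 G c y) z)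
    have hpq : ∃ p', p' ≠ p ∧ G.Adj z p' ∧ IsW1 G c p' := by
      rcases two_of (P := fun y => IsW1 G c y) (le_of_eq hz2) hu hv ⟨hpz.symm, hp⟩ huv with h | h
      · exact ⟨v, by rw [h]; exact huv.symm, hv.1, hv.2⟩
      · exact ⟨u, by rw [h]; exact huv, hu.1, hu.2⟩
    obtain ⟨p', hne, hzp', hp'⟩ := hpq
    have hadj := hR z p p' hzB hpz.symm hzp' hne.symm hp hp'
    have hma : MA G c p p' := ⟨hadj, by rw [hp.1, hp'.1]⟩
    refine ⟨p', hma, hzp'.symm, hp', ?_⟩
    obtain ⟨z', hz'⟩ := hmate z hzB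
    have hz'B : IsB1 G c z' := ⟨by rw [← hz'.2]; exact hzB.1, ma_md hc (ma_symm hz')⟩
    have : z' ∉ B1p G c := fun h => hzn ⟨z', h, hz'⟩
    rw [mem_B1p] at this
    have hnz : ¬ nn G (fun y => IsW1 G c y) z' = 0 := fun h => this ⟨hz'B, h⟩
    rw [nn_zero] at hnz
    push Not at hnz
    obtain ⟨q, hq1, hq2⟩ := hnz
    have hqq := hA z z' p p' q hzB.1 hz' hpz.symm hzp' hma hp.1 hq1 hq2
    have hzz' : z ≠ z' := hz'.1.ne
    rcases hqq with rfl | rfl
    · left
      refine Finset.mem_filter.2 ⟨Finset.mem_univ _, hp, ?_⟩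
      rw [nB1_eq]
      exact le_antisymm (nn_B1_le hG hp) (two_le hzz' ⟨hpz, hzB⟩ ⟨hq1.symm, hz'B⟩)
    · right
      refine Finset.mem_filter.2 ⟨Finset.mem_univ _, hp', ?_⟩
      rw [nB1_eq]
      exact le_antisymm (nn_B1_le hG hp') (two_le hzz' ⟨hzp'.symm, hzB⟩ ⟨hq1.symm, hz'B⟩)
  have hXc : X.card ≤ (Qs G c 2).card := by
    have hd := double G (fun z => z ∈ X) (fun p => IsW1 G c p)
    have e1 : ∑ z ∈ univ.filter (fun z => z ∈ X), nn G (fun p => IsW1 G c p) z = 2 * X.card := by
      have : (univ.filter fun z => z ∈ X) = X := by ext z; simp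
      rw [this, Finset.sum_congr rfl (g := fun _ => 2), Finset.sum_const, smul_eq_mul, mul_comm]
      intro z hz
      exact ((mem_T1 hG hc hR z).1 (Finset.mem_filter.1 hz).1).2
    -- choose mates
    have hm : ∀ p, ∃ p', IsW1 G c p → MA G c p p' := by
      intro p
      by_cases h : IsW1 G c p
      · obtain ⟨p', hp'⟩ := mate_exists h.2
        exact ⟨p', fun _ => hp'⟩
      · exact ⟨p, fun h' => absurd h' h⟩
    choose m hm using hm
    have e2 : ∑ p ∈ univ.filter (fun p => IsW1 G c p), nn G (fun z => z ∈ X) p ≤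
        ∑ p ∈ univ.filter (fun p => IsW1 G c p),
          ((if p ∈ Qs G c 2 then 1 else 0) + (if m p ∈ Qs G c 2 then 1 else 0)) := by
      refine Finset.sum_le_sum fun p hp => ?_
      simp only [Finset.mem_filter, Finset.mem_univ, true_and] at hp
      have hle : nn G (fun z => z ∈ X) p ≤ 2 := by
        refine le_trans (nn_le (Q := fun z => IsB1 G c z) ?_) (nn_B1_le hG hp)
        intro z _ hz
        exact ((mem_T1 hG hc hR z).1 (Finset.mem_filter.1 hz).1).1
      have hcase : nn G (fun z => z ∈ X) p = 0 ∨ nn G (fun z => z ∈ X) p = 1 ∨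
        nn G (fun z => z ∈ X) p = 2 := by omega
      rcases hcase with h | h | h
      · rw [h]; exact Nat.zero_le _
      · rw [h]
        have : ∃ z, G.Adj p z ∧ z ∈ X := by
          by_contra hcon
          push Not at hcon
          have h0 := (nn_zero (G := G) (P := fun z => z ∈ X) (x := p)).2 hcon
          omega
        obtain ⟨z, hz1, hz2⟩ := this
        obtain ⟨p', hp', _, _, hor⟩ := hpair z hz2 p hz1 hp
        have : m p = p' := nice_uniq hc (hm p hp) hp'
        rw [this]
        rcases hor with h' | h'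
        · simp [h']
        · simp [h']
      · rw [h]
        obtain ⟨z, w, hzw, ⟨hz1, hz2⟩, hw1, hw2⟩ := two_exist (by omega : 2 ≤ nn G (fun z => z ∈ X) p)
        obtain ⟨p', hp', hz', hp'W, _⟩ := hpair z hz2 p hz1 hp
        obtain ⟨p'', hp'', hw', _, _⟩ := hpair w hw2 p hw1 hp
        have e3 : p'' = p' := nice_uniq hc hp'' hp'
        rw [e3] at hw'
        have hzB := ((mem_T1 hG hc hR z).1 (Finset.mem_filter.1 hz2).1).1
        have hwB := ((mem_T1 hG hc hR w).1 (Finset.mem_filter.1 hw2).1).1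
        have : m p = p' := nice_uniq hc (hm p hp) hp'
        rw [this]
        have q1 : p ∈ Qs G c 2 := by
          refine Finset.mem_filter.2 ⟨Finset.mem_univ _, hp, ?_⟩
          rw [nB1_eq]
          exact le_antisymm (nn_B1_le hG hp) (two_le hzw ⟨hz1, hzB⟩ ⟨hw1, hwB⟩)
        have q2 : p' ∈ Qs G c 2 := by
          refine Finset.mem_filter.2 ⟨Finset.mem_univ _, hp'W, ?_⟩
          rw [nB1_eq]
          exact le_antisymm (nn_B1_le hG hp'W) (two_le hzw ⟨hz', hzB⟩ ⟨hw', hwB⟩)
        simp [q1, q2]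
    rw [Finset.sum_add_distrib] at e2
    have e3 : ∑ p ∈ univ.filter (fun p => IsW1 G c p), (if p ∈ Qs G c 2 then 1 else 0) =
        (Qs G c 2).card := by
      rw [Finset.sum_ite, Finset.sum_const_zero, add_zero, Finset.sum_const, smul_eq_mul, mul_one]
      congr 1
      ext p
      simp only [Finset.mem_filter, Finset.mem_univ, true_and, Qs]
      tauto
    have e4 : ∑ p ∈ univ.filter (fun p => IsW1 G c p), (if m p ∈ Qs G c 2 then 1 else 0) ≤
        (Qs G c 2).card := by
      rw [Finset.sum_ite, Finset.sum_const_zero, add_zero, Finset.sum_const, smul_eq_mul, mul_one]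
      refine Finset.card_le_card_of_injOn m ?_ ?_
      · intro p hp
        exact (Finset.mem_filter.1 hp).2
      · intro a ha b hb hab
        have ha' := (Finset.mem_filter.1 (Finset.mem_filter.1 ha).1).2
        have hb' := (Finset.mem_filter.1 (Finset.mem_filter.1 hb).1).2
        have h1 := hm a ha'
        have h2 := hm b hb'
        rw [hab] at h1
        exact nice_uniq hc (ma_symm h1) (ma_symm h2)
    rw [e1] at hd
    rw [e3] at e2
    have : 2 * X.card ≤ 2 * (Qs G c 2).card := by
      calc 2 * X.card = ∑ p ∈ univ.filter (fun p => IsW1 G c p), nn G (fun z => z ∈ X) p := hd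
        _ ≤ _ := e2
        _ ≤ 2 * (Qs G c 2).card := by linarith
    omega
  rw [hsplit]
  omega

end

end Pool.Agent.Work.MP_1e13ac_W
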