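import Pool.Agent.Work.MP_1e13ac_W.Count1

/-!
# MP_1e13ac_co, World 1: the block COUNT2 (final count)
-/

set_option autoImplicit false
set_option linter.unusedSectionVars false

namespace Pool.Agent.Work.MP_1e13ac_W

open Classical Finset Pool.Agent.Work.MP_1e13ac_Bis

noncomputable section

variable {V : Type} [Fintype V]

open CntAux

namespace Cnt2Aux

theorem mem_Qs {G : SimpleGraph V} {c : V → Bool} {i : ℕ} {x : V} :
    x ∈ Qs G c i ↔ IsW1 G c x ∧ nB1 G c x = i := by simp [Qs]

theorem md0_no {G : SimpleGraph V} {c : V → Bool} {x y : V} (h : md G c x = 0) : ¬ MA G c x y := by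
  intro h1
  unfold md at h
  rw [Finset.card_eq_zero, Finset.filter_eq_empty_iff] at h
  exact h (Finset.mem_univ y) h1

/-- black neighbours of sources are in `B0` -/
theorem q0_B0 {G : SimpleGraph V} {c : V → Bool} (hc : Nice G c) {b a : V} (hb : b ∈ Qs G c 0)
    (hba : G.Adj b a) (ha : c a = false) : IsB0 G c a := by
  have h := (mem_Qs.1 hb).2
  rw [nB1_eq, nn_zero] at h
  have h1 := h a hba
  have h2 := hc a
  refine ⟨ha, ?_⟩
  have : md G c a ≠ 1 := fun h3 => h1 ⟨ha, h3⟩
  omega

/-- a vertex of `Q1` has at most one neighbour in `B0` -/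
theorem q1_uniq {G : SimpleGraph V} (hG : Cub G) {c : V → Bool} {v α β : V} (hv : v ∈ Qs G c 1)
    (h1 : G.Adj v α) (h2 : G.Adj v β) (hα : IsB0 G c α) (hβ : IsB0 G c β) : α = β := by
  by_contra hne
  have hv1 := (mem_Qs.1 hv).1
  have h := (mem_Qs.1 hv).2
  rw [nB1_eq] at h
  have : ∃ g, G.Adj v g ∧ IsB1 G c g := by
    by_contra hcon
    push Not at hcon
    have h0 := (nn_zero (G := G) (P := fun y => IsB1 G c y) (x := v)).2 hcon
    omega
  obtain ⟨g, hg, hgB⟩ := this
  have h3 := two_of (G := G) (P := fun y => c y = false) (le_of_eq (opp_white hG hv1))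
    ⟨h1, hα.1⟩ ⟨h2, hβ.1⟩ ⟨hg, hgB.1⟩ hne
  rcases h3 with rfl | rfl
  · have := hgB.2; rw [hα.2] at this; omega
  · have := hgB.2; rw [hβ.2] at this; omega

/-- the two black neighbours of a source -/
theorem q0_two {G : SimpleGraph V} (hG : Cub G) {c : V → Bool} {b : V} (hb : b ∈ Qs G c 0) :
    ∃ a₁ a₂, a₁ ≠ a₂ ∧ G.Adj b a₁ ∧ c a₁ = false ∧ G.Adj b a₂ ∧ c a₂ = false := by
  have hb1 := (mem_Qs.1 hb).1
  obtain ⟨p, q, hpq, ⟨h1, h2⟩, h3, h4⟩ :=
    two_exist (G := G) (P := fun y => c y = false) (x := b) (le_of_eq (opp_white hG hb1).symm)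
  exact ⟨p, q, hpq, h1, h2, h3, h4⟩

theorem q0_two' {G : SimpleGraph V} (hG : Cub G) {c : V → Bool} {b a₁ a₂ r : V} (hb : b ∈ Qs G c 0)
    (hne : a₁ ≠ a₂) (h1 : G.Adj b a₁) (h1' : c a₁ = false) (h2 : G.Adj b a₂) (h2' : c a₂ = false)
    (hr : G.Adj b r) (hr' : c r = false) : r = a₁ ∨ r = a₂ :=
  two_of (G := G) (P := fun y => c y = false) (le_of_eq (opp_white hG (mem_Qs.1 hb).1))
    ⟨h1, h1'⟩ ⟨h2, h2'⟩ ⟨hr, hr'⟩ hne

theorem q01 {G : SimpleGraph V} {c : V → Bool} {b v : V} (hb : b ∈ Qs G c 0) (hv : v ∈ Qs G c 1) :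
    v ≠ b := by
  rintro rfl
  have h1 := (mem_Qs.1 hb).2
  have h2 := (mem_Qs.1 hv).2
  omega

theorem zone_disj {G : SimpleGraph V} {c : V → Bool} (hc : Nice G c) {v b a a2 : V}
    (hv : v ∈ Qs G c 1) (hb : b ∈ Qs G c 0) (hba : G.Adj b a) (ha : c a = false)
    (hba2 : G.Adj b a2) (ha2 : c a2 = false)
    (hall : ∀ r, G.Adj b r → c r = false → r = a ∨ r = a2)
    (h1 : ¬ MA G c b v) (h2 : ¬ G.Adj a v) (h3 : ∀ z, G.Adj a z → ¬ MA G c z v)
    (h4 : ¬ G.Adj a2 v) : Disjoint (Zn G c {b, a}) (Zn G c {v}) := by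
  have hvW := (mem_Qs.1 hv).1
  have hbW := (mem_Qs.1 hb).1
  have haB := q0_B0 hc hb hba ha
  have ha2B := q0_B0 hc hb hba2 ha2
  have hvb := q01 hb hv
  rw [Finset.disjoint_left]
  intro w hw hw'
  rcases hcw : c w with _ | _
  · -- black
    have hw1 : w = a ∨ w = a2 := by
      have key : ∀ y, c y = false → y ∈ NF G {b, a} → y = a ∨ y = a2 := by
        intro y hy hyN
        rw [mem_NF] at hyN
        rcases hyN with h | ⟨f, hf, h⟩
        · simp only [Finset.mem_insert, Finset.mem_singleton] at h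
          rcases h with rfl | rfl
          · rw [hbW.1] at hy; exact absurd hy (by simp)
          · exact Or.inl rfl
        · simp only [Finset.mem_insert, Finset.mem_singleton] at hf
          rcases hf with rfl | rfl
          · exact hall y h hy
          · exact absurd ⟨h, by rw [ha, hy]⟩ (md0_no haB.2)
      rcases mem_Zn.1 hw with h | ⟨y, hy, h⟩
      · exact key w hcw h
      · have hyb : c y = false := by rw [h.2, hcw]
        rcases key y hyb hy with rfl | rfl
        · exact absurd h (md0_no haB.2)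
        · exact absurd h (md0_no ha2B.2)
    have hw0 : md G c w = 0 := by
      rcases hw1 with rfl | rfl
      · exact haB.2
      · exact ha2B.2
    have hvw : G.Adj v w := by
      rcases mem_Zn.1 hw' with h | ⟨y, _, h⟩
      · rw [mem_NF] at h
        rcases h with h | ⟨f, hf, h⟩
        · rw [Finset.mem_singleton] at h
          subst h
          rw [hvW.1] at hcw
          exact absurd hcw (by simp)
        · rw [Finset.mem_singleton] at hf
          subst hf
          exact h
      · exact absurd (ma_symm h) (md0_no hw0)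
    rcases hw1 with rfl | rfl
    · exact h2 hvw.symm
    · exact h4 hvw.symm
  · -- white
    have hw1 : w = v ∨ MA G c v w := by
      have key : ∀ y, c y = true → y ∈ NF G {v} → y = v ∨ MA G c v y := by
        intro y hy hyN
        rw [mem_NF] at hyN
        rcases hyN with h | ⟨f, hf, h⟩
        · rw [Finset.mem_singleton] at h
          exact Or.inl h
        · rw [Finset.mem_singleton] at hf
          subst hf
          exact Or.inr ⟨h, by rw [hvW.1, hy]⟩
      rcases mem_Zn.1 hw' with h | ⟨y, hy, h⟩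
      · exact key w hcw h
      · have hyb : c y = true := by rw [h.2, hcw]
        rcases key y hyb hy with h' | h'
        · rw [h'] at h
          exact Or.inr h
        · exact Or.inl (nice_uniq hc h (ma_symm h'))
    have hvZ : v ∈ Zn G c {b, a} := by
      rcases hw1 with rfl | h
      · exact hw
      · exact Zn_mate hc hw (ma_symm h)
    rcases mem_Zn.1 hvZ with h | ⟨y, hy, h⟩
    · rw [mem_NF] at h
      rcases h with h | ⟨f, hf, h⟩
      · simp only [Finset.mem_insert, Finset.mem_singleton] at h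
        rcases h with h | h
        · exact hvb h
        · have := hvW.1
          rw [h, ha] at this
          exact absurd this (by simp)
      · simp only [Finset.mem_insert, Finset.mem_singleton] at hf
        rcases hf with rfl | rfl
        · exact h1 ⟨h, by rw [hbW.1, hvW.1]⟩
        · exact h2 h
    · rw [mem_NF] at hy
      rcases hy with h' | ⟨f, hf, h'⟩
      · simp only [Finset.mem_insert, Finset.mem_singleton] at h'
        rcases h' with rfl | rfl
        · exact h1 h
        · have := h.2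
          rw [ha, hvW.1] at this
          exact absurd this (by simp)
      · simp only [Finset.mem_insert, Finset.mem_singleton] at hf
        rcases hf with rfl | rfl
        · have hyW : c y = true := by rw [h.2]; exact hvW.1
          have h5 : MA G c f y := ⟨h', by rw [hbW.1, hyW]⟩
          exact hvb (nice_uniq hc h (ma_symm h5))
        · exact h3 y h' h

/-- second black neighbour -/
theorem second {G : SimpleGraph V} (hG : Cub G) {c : V → Bool} {b a : V} (hb : b ∈ Qs G c 0)
    (hba : G.Adj b a) (ha : c a = false) :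
    ∃ a2, a2 ≠ a ∧ G.Adj b a2 ∧ c a2 = false ∧ ∀ r, G.Adj b r → c r = false → r = a ∨ r = a2 := by
  obtain ⟨a₁, a₂, hne, h1, h1', h2, h2'⟩ := q0_two hG hb
  rcases q0_two' hG hb hne h1 h1' h2 h2' hba ha with h | h
  · subst h
    exact ⟨a₂, hne.symm, h2, h2', fun r hr hr' => q0_two' hG hb hne h1 h1' h2 h2' hr hr'⟩
  · subst h
    exact ⟨a₁, hne, h1, h1', fun r hr hr' => (q0_two' hG hb hne h1 h1' h2 h2' hr hr').symm⟩

/-- a slot of type M, T or X: the node has a `Q1` neighbour -/
theorem node_q1 {G : SimpleGraph V} {c : V → Bool} {b a : V}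
    (h : SlM G c b a ∨ SlT G c b a ∨ SlX G c b a) : ∃ x ∈ Qs G c 1, G.Adj a x := by
  rcases h with h | h | h
  · obtain ⟨x, y, _, _, _, hN, hx, _, _⟩ := h
    exact ⟨x, hx, (hN x).2 (Or.inr (Or.inl rfl))⟩
  · obtain ⟨b', x, _, _, _, hN, hx⟩ := h
    exact ⟨x, hx, (hN x).2 (Or.inr (Or.inr rfl))⟩
  · obtain ⟨p, p', _, _, _, hN, hp⟩ := h
    exact ⟨p, hp, (hN p).2 (Or.inr (Or.inl rfl))⟩

theorem nn_lt {G : SimpleGraph V} {P : V → Prop} {a x : V} (h : G.Adj a x) (hx : ¬ P x) :
    nn G P a < (nbs G a).card := by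
  unfold nn
  refine Finset.card_lt_card ⟨fun y hy => (Finset.mem_filter.1 hy).1, fun h' => ?_⟩
  exact hx (Finset.mem_filter.1 (h' (mem_nbs.2 h))).2

theorem deg_ge {G : SimpleGraph V} (hG : Cub G) {x : V} {S : Finset V} (h : ∀ s ∈ S, G.Adj x s) :
    S.card ≤ 3 := by
  rw [← hG x]
  exact Finset.card_le_card fun s hs => mem_nbs.2 (h s hs)

theorem caseI {G : SimpleGraph V} (hG : Cub G) {c : V → Bool} (hc : Nice G c)
    (h6 : 6 ≤ (Qs G c 0).card)
    (hs : ∀ b ∈ Qs G c 0, ∀ a, G.Adj b a → c a = false →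
      SlM G c b a ∨ SlT G c b a ∨ SlX G c b a ∨ SlC G c b a)
    {b a : V} (hb : b ∈ Qs G c 0) (hba : G.Adj b a) (ha : c a = false) (hC : SlC G c b a) :
    ∃ v ∈ Qs G c 1, Disjoint (Zn G c {b, a}) (Zn G c {v}) := by
  obtain ⟨b₂, a₂, y, y₂, hb₂, hbb, hnadj, haa, hN, hN₂, hy, hy₂, hm, hm₂⟩ := hC
  have hba₂ : G.Adj b a₂ := ((hN₂ b).2 (Or.inl rfl)).symm
  have hbW := (mem_Qs.1 hb).1
  have hb₂W := (mem_Qs.1 hb₂).1
  obtain ⟨b', hb'⟩ := mate_exists hbW.2
  obtain ⟨b₂', hb₂'⟩ := mate_exists hb₂W.2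
  have hb'Q := hm b' hb'
  have hb₂'Q := hm₂ b₂' hb₂'
  -- `a₂` is black
  have ha₂ : c a₂ = false := by
    rcases h : c a₂ with _ | _
    · rfl
    · exfalso
      have e1 : MA G c a₂ b := ⟨hba₂.symm, by rw [h, hbW.1]⟩
      have e2 : MA G c a₂ b₂ := ⟨(hN₂ b₂).2 (Or.inr (Or.inl rfl)), by rw [h, hb₂W.1]⟩
      exact hbb (nice_uniq hc e1 e2)
  have hall : ∀ r, G.Adj b r → c r = false → r = a ∨ r = a₂ := fun r hr hr' =>
    q0_two' hG hb haa hba ha hba₂ ha₂ hr hr'
  by_cases hv : ∃ v ∈ Qs G c 1, v ≠ b' ∧ v ≠ b₂'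
  · obtain ⟨v, hvQ, hv1, hv2⟩ := hv
    have hvW := (mem_Qs.1 hvQ).1
    have hvy : v ≠ y := by
      rintro rfl
      have := hvW.2
      rw [hy.2] at this
      omega
    have hvy₂ : v ≠ y₂ := by
      rintro rfl
      have := hvW.2
      rw [hy₂.2] at this
      omega
    have hvb := q01 hb hvQ
    have hvb₂ := q01 hb₂ hvQ
    refine ⟨v, hvQ, zone_disj hc hvQ hb hba ha hba₂ ha₂ hall ?_ ?_ ?_ ?_⟩
    · intro h
      exact hv1 (nice_uniq hc h hb')
    · intro h
      rcases (hN v).1 h with h | h | h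
      · exact hvb h
      · exact hvb₂ h
      · exact hvy h
    · intro z hz hzv
      rcases (hN z).1 hz with h | h | h
      · rw [h] at hzv
        exact hv1 (nice_uniq hc hzv hb')
      · rw [h] at hzv
        exact hv2 (nice_uniq hc hzv hb₂')
      · rw [h] at hzv
        exact md0_no hy.2 hzv
    · intro h
      rcases (hN₂ v).1 h with h | h | h
      · exact hvb h
      · exact hvb₂ h
      · exact hvy₂ h
  · exfalso
    push Not at hv
    have hv' : ∀ v ∈ Qs G c 1, v = b' ∨ v = b₂' := by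
      intro v hvQ
      by_cases h : v = b'
      · exact Or.inl h
      · exact Or.inr (hv v hvQ h)
    -- other sources
    have hoth : ∀ s ∈ Qs G c 0, s ≠ b → s ≠ b₂ → ∀ α, G.Adj s α → c α = false →
        G.Adj α b' ∨ G.Adj α b₂' := by
      intro s hsQ hsb hsb₂ α hsα hα
      have hnC : ¬ SlC G c s α := by
        rintro ⟨_, _, _, _, _, _, _, _, _, _, _, _, hms, _⟩
        obtain ⟨s', hs'⟩ := mate_exists (mem_Qs.1 hsQ).1.2
        have := hv' s' (hms s' hs')
        rcases this with h | h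
        · rw [h] at hs'
          exact hsb (nice_uniq hc (ma_symm hs') (ma_symm hb'))
        · rw [h] at hs'
          exact hsb₂ (nice_uniq hc (ma_symm hs') (ma_symm hb₂'))
      have h3 : SlM G c s α ∨ SlT G c s α ∨ SlX G c s α := by
        rcases hs s hsQ α hsα hα with h | h | h | h
        · exact Or.inl h
        · exact Or.inr (Or.inl h)
        · exact Or.inr (Or.inr h)
        · exact absurd h hnC
      obtain ⟨x, hxQ, hx⟩ := node_q1 h3
      rcases hv' x hxQ with h | h
      · left; rw [← h]; exact hx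
      · right; rw [← h]; exact hx
    set S := ((Qs G c 0).erase b).erase b₂ with hS
    have hScard : 4 ≤ S.card := by
      have h1 := Finset.pred_card_le_card_erase (s := Qs G c 0) (a := b)
      have h2 := Finset.pred_card_le_card_erase (s := (Qs G c 0).erase b) (a := b₂)
      rw [← hS] at h2
      omega
    have hSm : ∀ s ∈ S, s ∈ Qs G c 0 ∧ s ≠ b ∧ s ≠ b₂ := by
      intro s hs'
      rw [hS, Finset.mem_erase, Finset.mem_erase] at hs'
      exact ⟨hs'.2.2, hs'.2.1, hs'.1⟩
    -- first element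
    obtain ⟨s₀, hs₀⟩ := Finset.card_pos.1 (by omega : 0 < S.card)
    obtain ⟨hs₀Q, hs₀b, hs₀b₂⟩ := hSm s₀ hs₀
    obtain ⟨α, β, hαβ, h1, h1', h2, h2'⟩ := q0_two hG hs₀Q
    have hαB := q0_B0 hc hs₀Q h1 h1'
    have hβB := q0_B0 hc hs₀Q h2 h2'
    -- `b'` is adjacent to one of them
    have hb1 : G.Adj α b' ∨ G.Adj β b' := by
      rcases hoth s₀ hs₀Q hs₀b hs₀b₂ α h1 h1' with h | h
      · exact Or.inl h
      · rcases hoth s₀ hs₀Q hs₀b hs₀b₂ β h2 h2' with h' | h'
        · exact Or.inr h'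
        · exact absurd (q1_uniq hG hb₂'Q h.symm h'.symm hαB hβB) hαβ
    -- every source of `S` is adjacent to the `B0` neighbour of `b'`
    have main : ∀ γ, IsB0 G c γ → G.Adj γ b' → ∀ s ∈ S, G.Adj γ s := by
      intro γ hγ hγb s hsS
      obtain ⟨hsQ, hsb, hsb₂⟩ := hSm s hsS
      obtain ⟨α', β', hαβ', g1, g1', g2, g2'⟩ := q0_two hG hsQ
      have hα'B := q0_B0 hc hsQ g1 g1'
      have hβ'B := q0_B0 hc hsQ g2 g2'
      rcases hoth s hsQ hsb hsb₂ α' g1 g1' with h | h
      · have := q1_uniq hG hb'Q h.symm hγb.symm hα'B hγ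
        rw [← this]
        exact g1.symm
      · rcases hoth s hsQ hsb hsb₂ β' g2 g2' with h' | h'
        · have := q1_uniq hG hb'Q h'.symm hγb.symm hβ'B hγ
          rw [← this]
          exact g2.symm
        · exact absurd (q1_uniq hG hb₂'Q h.symm h'.symm hα'B hβ'B) hαβ'
    have : S.card ≤ 3 := by
      rcases hb1 with h | h
      · exact deg_ge hG (main α hαB h)
      · exact deg_ge hG (main β hβB h)
    omega

theorem caseII {G : SimpleGraph V} (hG : Cub G) {c : V → Bool} (hc : Nice G c)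
    (h6 : 6 ≤ (Qs G c 0).card)
    (hs : ∀ b ∈ Qs G c 0, ∀ a, G.Adj b a → c a = false →
      SlM G c b a ∨ SlT G c b a ∨ SlX G c b a) : 6 ≤ (Qs G c 1).card := by
  set N := univ.filter fun a => c a = false ∧ ∃ b ∈ Qs G c 0, G.Adj b a with hN
  have hNB0 : ∀ a ∈ N, IsB0 G c a := by
    intro a ha
    obtain ⟨h1, b, hb, hba⟩ := (Finset.mem_filter.1 ha).2
    exact q0_B0 hc hb hba h1
  -- count
  have hd := double G (fun b => b ∈ Qs G c 0) (fun a => a ∈ N)
  have e0 : (univ.filter fun b => b ∈ Qs G c 0) = Qs G c 0 := by ext x; simp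
  have e0' : (univ.filter fun a => a ∈ N) = N := by ext x; simp
  rw [e0, e0'] at hd
  have e1 : ∑ b ∈ Qs G c 0, nn G (fun a => a ∈ N) b = 2 * (Qs G c 0).card := by
    rw [Finset.sum_congr rfl (g := fun _ => 2), Finset.sum_const, smul_eq_mul, mul_comm]
    intro b hb
    rw [← opp_white hG (mem_Qs.1 hb).1]
    refine nn_congr fun a hba => ?_
    constructor
    · intro h
      exact (Finset.mem_filter.1 h).2.1
    · intro h
      exact Finset.mem_filter.2 ⟨Finset.mem_univ _, h, b, hb, hba⟩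
  have e2 : ∑ a ∈ N, nn G (fun b => b ∈ Qs G c 0) a ≤ 2 * N.card := by
    have : ∑ a ∈ N, nn G (fun b => b ∈ Qs G c 0) a ≤ ∑ _a ∈ N, 2 := by
      refine Finset.sum_le_sum fun a ha => ?_
      obtain ⟨h1, b, hb, hba⟩ := (Finset.mem_filter.1 ha).2
      obtain ⟨x, hx, hax⟩ := node_q1 (hs b hb a hba h1)
      -- `x` is a neighbour which is not in `Q0`
      have hxn : x ∉ Qs G c 0 := fun h => q01 h hx rfl
      have h3 : nn G (fun b => b ∈ Qs G c 0) a < (nbs G a).card := nn_lt hax hxn
      rw [hG a] at h3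
      omega
    rw [Finset.sum_const, smul_eq_mul, mul_comm] at this
    exact this
  have h3 : (Qs G c 0).card ≤ N.card := by omega
  -- injection from the nodes to `Q1`
  have hch : ∀ a ∈ N, ∃ x ∈ Qs G c 1, G.Adj a x := by
    intro a ha
    obtain ⟨h1, b, hb, hba⟩ := (Finset.mem_filter.1 ha).2
    exact node_q1 (hs b hb a hba h1)
  choose! f hf1 hf2 using hch
  have h4 : N.card ≤ (Qs G c 1).card := by
    refine Finset.card_le_card_of_injOn f (fun a ha => hf1 a ha) ?_
    intro a ha a' ha' haa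
    have g1 := hf2 a ha
    have g2 := hf2 a' ha'
    rw [← haa] at g2
    exact q1_uniq hG (hf1 a ha) g1.symm g2.symm (hNB0 a ha) (hNB0 a' ha')
  omega

end Cnt2Aux

open Cnt2Aux

theorem stmt_COUNT2 : Stmt_COUNT2 := by
  intro V _ G hG c hc h6 hs hX
  by_cases hC : ∃ b ∈ Qs G c 0, ∃ a, G.Adj b a ∧ c a = false ∧ SlC G c b a
  · obtain ⟨b, hb, a, hba, ha, hC⟩ := hC
    obtain ⟨v, hv, hd⟩ := caseI hG hc h6 hs hb hba ha hC
    exact ⟨b, hb, a, hba, ha, Or.inr (Or.inr hC), v, hv, hd⟩
  · push Not at hC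
    have hs' : ∀ b ∈ Qs G c 0, ∀ a, G.Adj b a → c a = false →
        SlM G c b a ∨ SlT G c b a ∨ SlX G c b a := by
      intro b hb a hba ha
      rcases hs b hb a hba ha with h | h | h | h
      · exact Or.inl h
      · exact Or.inr (Or.inl h)
      · exact Or.inr (Or.inr h)
      · exact absurd h (hC b hb a hba ha)
    have hQ1 := caseII hG hc h6 hs'
    obtain ⟨b, hb⟩ := Finset.card_pos.1 (by omega : 0 < (Qs G c 0).card)
    obtain ⟨a, hba, ha, hnX⟩ := hX b hb
    have hbW := (mem_Qs.1 hb).1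
    obtain ⟨b', hb'⟩ := mate_exists hbW.2
    obtain ⟨a2, haa2, hba2, ha2, hall⟩ := second hG hb hba ha
    have hMT : SlM G c b a ∨ SlT G c b a := by
      rcases hs' b hb a hba ha with h | h | h
      · exact Or.inl h
      · exact Or.inr h
      · exact absurd h hnX
    -- the neighbourhood of `a`: `x ∈ Q1`, all others are `b`, `b'` or in `W0`
    have hN : ∃ x x', x ∈ Qs G c 1 ∧ MA G c x x' ∧
        ∀ z, G.Adj a z → z = b ∨ z = b' ∨ z = x ∨ md G c z = 0 := by
      rcases hMT with h | h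
      · obtain ⟨x, y, _, _, _, hN, hx, _, hy⟩ := h
        obtain ⟨x', hx'⟩ := mate_exists (mem_Qs.1 hx).1.2
        refine ⟨x, x', hx, hx', fun z hz => ?_⟩
        rcases (hN z).1 hz with h | h | h
        · exact Or.inl h
        · exact Or.inr (Or.inr (Or.inl h))
        · rw [h]; exact Or.inr (Or.inr (Or.inr hy.2))
      · obtain ⟨b'', x, hb'', _, _, hN, hx⟩ := h
        obtain ⟨x', hx'⟩ := mate_exists (mem_Qs.1 hx).1.2
        refine ⟨x, x', hx, hx', fun z hz => ?_⟩
        rcases (hN z).1 hz with h | h | h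
        · exact Or.inl h
        · rw [h, nice_uniq hc hb'' hb']; exact Or.inr (Or.inl rfl)
        · exact Or.inr (Or.inr (Or.inl h))
    obtain ⟨x, x', hx, hx', hN⟩ := hN
    set Bad : Finset V := {b', x, x'} ∪ (nbs G a2).erase b with hBad
    have hBc : Bad.card ≤ 5 := by
      have h1 : ({b', x, x'} : Finset V).card ≤ 3 := Finset.card_le_three
      have h2 : ((nbs G a2).erase b).card = 2 := by
        rw [Finset.card_erase_of_mem (mem_nbs.2 hba2.symm), hG a2]
      have h3 := Finset.card_union_le ({b', x, x'} : Finset V) ((nbs G a2).erase b)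
      rw [← hBad] at h3
      omega
    have : ∃ v ∈ Qs G c 1, v ∉ Bad := by
      by_contra hcon
      push Not at hcon
      have := Finset.card_le_card (fun v hv => hcon v hv : Qs G c 1 ⊆ Bad)
      omega
    obtain ⟨v, hv, hvB⟩ := this
    rw [hBad] at hvB
    simp only [Finset.mem_union, Finset.mem_insert, Finset.mem_singleton, Finset.mem_erase, mem_nbs,
      not_or, not_and] at hvB
    obtain ⟨⟨hv1, hv2, hv3⟩, hv4⟩ := hvB
    have hvb := q01 hb hv
    have hvW := (mem_Qs.1 hv).1
    refine ⟨b, hb, a, hba, ha, ?_, v, hv, zone_disj hc hv hb hba ha hba2 ha2 hall ?_ ?_ ?_ ?_⟩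
    · rcases hMT with h | h
      · exact Or.inl h
      · exact Or.inr (Or.inl h)
    · intro h
      exact hv1 (nice_uniq hc h hb')
    · intro h
      rcases hN v h with h | h | h | h
      · exact hvb h
      · exact hv1 h
      · exact hv2 h
      · have := hvW.2
        omega
    · intro z hz hzv
      rcases hN z hz with h | h | h | h
      · rw [h] at hzv
        exact hv1 (nice_uniq hc hzv hb')
      · rw [h] at hzv
        exact hvb (nice_uniq hc hzv (ma_symm hb'))
      · rw [h] at hzv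
        exact hv3 (nice_uniq hc hzv hx')
      · exact md0_no h hzv
    · exact hv4 hvb

end

end Pool.Agent.Work.MP_1e13ac_W
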