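import Pool.Agent.Work.MP_1e13ac_W.Sound

/-!
# MP_1e13ac_co, full statement: effect of flipping a set of complete vertices (helper50)
-/

set_option autoImplicit false
set_option linter.unusedSectionVars false

namespace Pool.Agent.Work.MP_1e13ac_W

open Classical Finset Pool.Agent.Work.MP_1e13ac_Bis

noncomputable section

variable {V : Type} [Fintype V] {G : SimpleGraph V} {c : V → Bool}

/-- the set of vertices of `G` given by the mask `F` -/
def FS (A : PL) (F : ℕ) (e : ℕ → V) : Finset V :=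
  ((range A.length).filter fun i => tb F i = true).image e

/-- a colouring of a pattern in the graph; all monochromatic neighbours are listed -/
structure Loc (G : SimpleGraph V) (c : V → Bool) (A : PL) (c2 : ℕ) (e : ℕ → V) : Prop where
  inj : ∀ i < A.length, ∀ j < A.length, e i = e j → i = j
  adj : ∀ i < A.length, ∀ j ∈ glR A i, j < A.length ∧ G.Adj (e i) (e j) ∧ i ∈ glR A j
  nodup : ∀ i < A.length, (glR A i).Nodup
  colr : ∀ i < A.length, c (e i) = tb c2 i
  mono : ∀ i < A.length, ∀ y, MA G c (e i) y → ∃ j ∈ glR A i, e j = y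

theorem same_iff (c i j : ℕ) : same c i j = true ↔ tb c i = tb c j := eqB_iff _ _

theorem Loc.ma {A : PL} {c2 : ℕ} {e : ℕ → V} (h : Loc G c A c2 e) {i : ℕ} (hi : i < A.length)
    (y : V) : MA G c (e i) y ↔ ∃ j ∈ glR A i, e j = y ∧ same c2 i j = true := by
  constructor
  · intro hy
    obtain ⟨j, hj, rfl⟩ := h.mono i hi y hy
    refine ⟨j, hj, rfl, ?_⟩
    rw [same_iff, ← h.colr i hi, ← h.colr j (h.adj i hi j hj).1]
    exact hy.2
  · rintro ⟨j, hj, rfl, hs⟩
    rw [same_iff, ← h.colr i hi, ← h.colr j (h.adj i hi j hj).1] at hs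
    exact ⟨(h.adj i hi j hj).2.1, hs⟩

theorem Loc.card_filter {A : PL} {c2 : ℕ} {e : ℕ → V} (h : Loc G c A c2 e) {i : ℕ}
    (hi : i < A.length) (f : ℕ → Bool) (P : V → Prop) [DecidablePred P]
    (hP : ∀ y, P y ↔ ∃ j ∈ glR A i, e j = y ∧ f j = true) :
    (univ.filter fun y => P y).card = cntL f (glR A i) := by
  have h1 : (univ.filter fun y => P y) = ((glR A i).filter f).toFinset.image e := by
    ext y
    simp only [Finset.mem_filter, Finset.mem_univ, true_and, Finset.mem_image, List.mem_toFinset,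
      List.mem_filter, hP]
    constructor
    · rintro ⟨j, h1, h2, h3⟩
      exact ⟨j, ⟨h1, h3⟩, h2⟩
    · rintro ⟨j, ⟨h1, h3⟩, h2⟩
      exact ⟨j, h1, h2, h3⟩
  rw [h1, Finset.card_image_of_injOn, List.toFinset_card_of_nodup ((h.nodup i hi).filter _),
    cntL_eq]
  intro a ha b hb hab
  have ha' : a ∈ glR A i := (List.mem_filter.1 (List.mem_toFinset.1 (by simpa using ha))).1
  have hb' : b ∈ glR A i := (List.mem_filter.1 (List.mem_toFinset.1 (by simpa using hb))).1
  exact h.inj a (h.adj i hi a ha').1 b (h.adj i hi b hb').1 hab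

theorem Loc.md_eq {A : PL} {c2 : ℕ} {e : ℕ → V} (h : Loc G c A c2 e) {i : ℕ}
    (hi : i < A.length) : md G c (e i) = mdl c2 i (glR A i) :=
  h.card_filter hi _ _ fun y => h.ma hi y

theorem Loc.m2_eq {A : PL} {c2 : ℕ} {e : ℕ → V} (h : Loc G c A c2 e) {i : ℕ}
    (hi : i < A.length) :
    (univ.filter fun y => MA G c (e i) y ∧ md G c y = 2).card = m2l A c2 i (glR A i) := by
  refine h.card_filter hi (fun j => andB (same c2 i j) (Nat.beq (mdl c2 j (glR A j)) (nat_lit 2)))
    (fun y => MA G c (e i) y ∧ md G c y = 2) fun y => ?_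
  rw [h.ma hi y]
  constructor
  · rintro ⟨⟨j, h1, h2, h3⟩, h4⟩
    refine ⟨j, h1, h2, ?_⟩
    rw [andB_iff, beqN_iff]
    refine ⟨h3, ?_⟩
    rw [← h.md_eq (h.adj i hi j h1).1, h2, h4]
  · rintro ⟨j, h1, h2, h3⟩
    rw [andB_iff, beqN_iff] at h3
    refine ⟨⟨j, h1, h2, h3.1⟩, ?_⟩
    rw [← h2, h.md_eq (h.adj i hi j h1).1, h3.2]

theorem Emb.loc {A : PL} {col non : ℕ} {e : ℕ → V} (h : Emb G c A col non e) :
    Loc G c A col e := ⟨h.inj, h.adj, h.nodup, h.colr, h.mono⟩

theorem mem_FS {A : PL} {F : ℕ} {e : ℕ → V} {x : V} :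
    x ∈ FS A F e ↔ ∃ i < A.length, tb F i = true ∧ e i = x := by
  unfold FS
  rw [Finset.mem_image]
  constructor
  · rintro ⟨i, hi, h⟩
    rw [Finset.mem_filter, Finset.mem_range] at hi
    exact ⟨i, hi.1, hi.2, h⟩
  · rintro ⟨i, h1, h2, h3⟩
    exact ⟨i, by rw [Finset.mem_filter, Finset.mem_range]; exact ⟨h1, h2⟩, h3⟩

theorem e_mem_FS {A : PL} {F : ℕ} {e : ℕ → V}
    (hinj : ∀ i < A.length, ∀ j < A.length, e i = e j → i = j) {i : ℕ} (hi : i < A.length) :
    e i ∈ FS A F e ↔ tb F i = true := by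
  rw [mem_FS]
  constructor
  · rintro ⟨j, h1, h2, h3⟩
    rw [← hinj j h1 i hi h3]
    exact h2
  · intro h
    exact ⟨i, hi, h, rfl⟩

theorem tb_xor (x y i : ℕ) : tb (Nat.xor x y) i = (tb x i ^^ tb y i) := by
  rw [tb_eq, tb_eq, tb_eq]
  exact Nat.testBit_xor x y i

theorem flp_FS {A : PL} {F col : ℕ} {e : ℕ → V}
    (hinj : ∀ i < A.length, ∀ j < A.length, e i = e j → i = j)
    (hcol : ∀ i < A.length, c (e i) = tb col i) {i : ℕ} (hi : i < A.length) :
    flp (FS A F e) c (e i) = tb (Nat.xor col F) i := by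
  rw [tb_xor]
  by_cases h : tb F i = true
  · rw [flp_in ((e_mem_FS hinj hi).2 h), hcol i hi, h]
    simp
  · rw [flp_out fun hh => h ((e_mem_FS hinj hi).1 hh), hcol i hi]
    simp at h
    rw [h]
    simp

theorem cmpR_iff (A : PL) (F : ℕ) :
    cmpR A F = true ↔ ∀ i < A.length, tb F i = true → (glR A i).length = 3 := by
  unfold cmpR
  have e : allI (fun i l => orB (notB (tb F i)) (Nat.beq (lenN l) (nat_lit 3))) A (nat_lit 0) =
    allI (fun i l => orB (notB (tb F i)) (Nat.beq (lenN l) (nat_lit 3))) A 0 := rfl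
  rw [e, allI0_iff]
  refine forall₂_congr fun i hi => ?_
  rw [orB_iff, notB_iff, beqN_iff, lenN_eq]
  constructor
  · rintro (h | h) h'
    · rw [h] at h'
      exact absurd h' (by simp)
    · exact h
  · intro h
    by_cases h' : tb F i = true
    · exact Or.inr (h h')
    · exact Or.inl (by simpa using h')

section Main

variable {A : PL} {col non F : ℕ} {e : ℕ → V}

theorem Emb.out (hG : Cub G) (h : Emb G c A col non e) (hF : cmpR A F = true) {x : V}
    (hx : ∀ i < A.length, e i ≠ x) : x ∉ NF G (FS A F e) := by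
  rw [cmpR_iff] at hF
  intro hh
  rcases mem_NF.1 hh with h1 | ⟨f, hf, h1⟩
  · obtain ⟨i, hi, -, h2⟩ := mem_FS.1 h1
    exact hx i hi h2
  · obtain ⟨i, hi, h2, rfl⟩ := mem_FS.1 hf
    obtain ⟨j, hj, h3⟩ := h.compl hG hi (by rw [hF i hi h2]) h1
    exact hx j (h.adj i hi j hj).1 h3

theorem Emb.outZ (hG : Cub G) (h : Emb G c A col non e) (hF : cmpR A F = true) {x : V}
    (hx : ∀ i < A.length, e i ≠ x) : x ∉ Zn G c (FS A F e) := by
  intro hh
  rcases mem_Zn.1 hh with h1 | ⟨y, hy, h1⟩
  · exact h.out hG hF hx h1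
  · by_cases hy' : ∀ i < A.length, e i ≠ y
    · exact h.out hG hF hy' hy
    · push Not at hy'
      obtain ⟨i, hi, rfl⟩ := hy'
      obtain ⟨j, hj, h3⟩ := h.mono i hi x h1
      exact hx j (h.adj i hi j hj).1 h3

theorem Emb.locF (hG : Cub G) (h : Emb G c A col non e) (hF : cmpR A F = true) :
    Loc G (flp (FS A F e) c) A (Nat.xor col F) e := by
  have hF' := (cmpR_iff A F).1 hF
  refine ⟨h.inj, h.adj, h.nodup, fun i hi => flp_FS h.inj h.colr hi, ?_⟩
  intro i hi y hy
  by_cases h1 : y ∈ FS A F e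
  · obtain ⟨j, hj, h2, rfl⟩ := mem_FS.1 h1
    obtain ⟨k, hk, h3⟩ := h.compl hG hj (by rw [hF' j hj h2]) hy.1.symm
    have := h.inj k (h.adj j hj k hk).1 i hi h3
    subst this
    exact ⟨j, (h.adj j hj k hk).2.2, rfl⟩
  · by_cases h2 : e i ∈ FS A F e
    · exact h.compl hG hi (by rw [hF' i hi ((e_mem_FS h.inj hi).1 h2)]) hy.1
    · refine h.mono i hi y ⟨hy.1, ?_⟩
      have h3 := hy.2
      rw [flp_out h1, flp_out h2] at h3
      exact h3

theorem validR_iff (A : PL) (c : ℕ) : validR A c = true ↔ ∀ i < A.length,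
    mdl c i (glR A i) ≤ 2 ∧ (mdl c i (glR A i) = 2 → m2l A c i (glR A i) ≤ 1) := by
  unfold validR
  have e : allI (fun i l => andB (Nat.ble (mdl c i l) (nat_lit 2))
    (orB (notB (Nat.beq (mdl c i l) (nat_lit 2))) (Nat.ble (m2l A c i l) (nat_lit 1)))) A
      (nat_lit 0) = allI (fun i l => andB (Nat.ble (mdl c i l) (nat_lit 2))
    (orB (notB (Nat.beq (mdl c i l) (nat_lit 2))) (Nat.ble (m2l A c i l) (nat_lit 1)))) A 0 := rfl
  rw [e, allI0_iff]
  refine forall₂_congr fun i hi => ?_
  rw [andB_iff, orB_iff, notB_iff, bleN_iff, bleN_iff]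
  refine and_congr Iff.rfl ?_
  constructor
  · rintro (h | h) h'
    · rw [(beqN_iff _ _).2 h'] at h
      exact absurd h (by simp)
    · exact h
  · intro h
    by_cases h' : mdl c i (glR A i) = 2
    · exact Or.inr (h h')
    · refine Or.inl ?_
      by_contra hh
      exact h' ((beqN_iff _ _).1 (by simpa using hh))

theorem Emb.valid (hG : Cub G) (hc : Nice G c) (h : Emb G c A col non e)
    (hF : cmpR A F = true) (hv : validR A (Nat.xor col F) = true) :
    Valid G (flp (FS A F e) c) := by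
  have hL := h.locF hG hF
  have hv' := (validR_iff _ _).1 hv
  have hdeg : ∀ x, md G (flp (FS A F e) c) x ≤ 2 := by
    intro x
    by_cases hx : ∀ i < A.length, e i ≠ x
    · rw [md_out (h.out hG hF hx)]
      exact (hc x).trans (by norm_num)
    · push Not at hx
      obtain ⟨i, hi, rfl⟩ := hx
      rw [hL.md_eq hi]
      exact (hv' i hi).1
  have two : ∀ x y z, MA G (flp (FS A F e) c) x y → MA G (flp (FS A F e) c) x z → y ≠ z →
      md G (flp (FS A F e) c) x = 2 := by
    intro x y z h1 h2 h3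
    refine le_antisymm (hdeg x) ?_
    unfold md
    have : ({y, z} : Finset V) ⊆ univ.filter fun w => MA G (flp (FS A F e) c) x w := by
      intro w hw
      rw [Finset.mem_insert, Finset.mem_singleton] at hw
      rcases hw with rfl | rfl
      · exact Finset.mem_filter.2 ⟨Finset.mem_univ _, h1⟩
      · exact Finset.mem_filter.2 ⟨Finset.mem_univ _, h2⟩
    have h4 := Finset.card_le_card this
    rw [Finset.card_pair h3] at h4
    exact h4
  refine ⟨hdeg, ?_⟩
  intro x₁ x₂ x₃ x₄ x₅ h12 h23 h34 h45 n13 n24 n35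
  have m3 := two x₃ x₂ x₄ (ma_symm h23) h34 n24
  have m2 := two x₂ x₁ x₃ (ma_symm h12) h23 n13
  have m4 := two x₄ x₃ x₅ (ma_symm h34) h45 n35
  by_cases hx : ∀ i < A.length, e i ≠ x₃
  · rw [md_out (h.out hG hF hx)] at m3
    have := hc x₃
    omega
  · push Not at hx
    obtain ⟨i, hi, rfl⟩ := hx
    have h5 := (hv' i hi).2 (by rw [← hL.md_eq hi]; exact m3)
    rw [← hL.m2_eq hi] at h5
    have : ({x₂, x₄} : Finset V) ⊆ univ.filter fun y => MA G (flp (FS A F e) c) (e i) y ∧
        md G (flp (FS A F e) c) y = 2 := by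
      intro w hw
      rw [Finset.mem_insert, Finset.mem_singleton] at hw
      rcases hw with rfl | rfl
      · exact Finset.mem_filter.2 ⟨Finset.mem_univ _, ma_symm h23, m2⟩
      · exact Finset.mem_filter.2 ⟨Finset.mem_univ _, h34, m4⟩
    have h6 := Finset.card_le_card this
    rw [Finset.card_pair n24] at h6
    omega

/-- sums over the graph reduce to sums over the pattern -/
theorem Emb.sum_red {M : Type} [AddCommMonoid M] (h : Emb G c A col non e) (g : V → M)
    (hg : ∀ x, (∀ i < A.length, e i ≠ x) → g x = 0) :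
    ∑ x, g x = ∑ i ∈ range A.length, g (e i) := by
  have h1 : ∑ i ∈ range A.length, g (e i) = ∑ x ∈ (range A.length).image e, g x := by
    rw [Finset.sum_image]
    intro a ha b hb hab
    exact h.inj a (by simpa using ha) b (by simpa using hb) hab
  rw [h1]
  symm
  refine Finset.sum_subset (Finset.subset_univ _) ?_
  intro x _ hx
  refine hg x fun i hi hh => hx ?_
  exact Finset.mem_image.2 ⟨i, Finset.mem_range.2 hi, hh⟩

theorem smR_eq (A : PL) (c : ℕ) : smR A c = ∑ i ∈ range A.length, mdl c i (glR A i) := by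
  unfold smR
  exact sumI0_eq _ _

theorem Emb.smd (hG : Cub G) (h : Emb G c A col non e) (hF : cmpR A F = true) :
    smd G (flp (FS A F e) c) - smd G c = (smR A (Nat.xor col F) : ℤ) - smR A col := by
  unfold Pool.Agent.Work.MP_1e13ac_W.smd
  rw [← Finset.sum_sub_distrib, h.sum_red (fun x => (md G (flp (FS A F e) c) x : ℤ) - md G c x)]
  · rw [smR_eq, smR_eq]
    push_cast
    rw [← Finset.sum_sub_distrib]
    refine Finset.sum_congr rfl fun i hi => ?_
    have hi' : i < A.length := by simpa using hi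
    rw [(h.locF hG hF).md_eq hi', h.loc.md_eq hi']
  · intro x hx
    rw [md_out (h.out hG hF hx)]
    ring

theorem Emb.lev (hG : Cub G) (h : Emb G c A col non e) (hF : cmpR A F = true) :
    lev (flp (FS A F e) c) - lev c = 2 * ((A.length : ℤ) - sjR A col F) := by
  unfold Pool.Agent.Work.MP_1e13ac_W.lev
  rw [← Finset.sum_sub_distrib, h.sum_red (fun x => sg (flp (FS A F e) c x) - sg (c x))]
  · have e1 : sjR A col F = ∑ i ∈ range A.length, (Bool.rec (motive := fun _ => Nat) 1
      (Bool.rec (motive := fun _ => Nat) 0 2 (tb col i)) (tb F i) : ℕ) := by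
      unfold sjR
      exact sumI0_eq _ _
    have e2 : (A.length : ℤ) = ∑ i ∈ range A.length, (1 : ℤ) := by simp
    rw [e1, e2]
    push_cast
    rw [← Finset.sum_sub_distrib, Finset.mul_sum]
    refine Finset.sum_congr rfl fun i hi => ?_
    have hi' : i < A.length := by simpa using hi
    rw [flp_FS h.inj h.colr hi', h.colr i hi', tb_xor]
    cases tb col i <;> cases tb F i <;> simp [sg]
  · intro x hx
    rw [flp_out fun hh => h.out hG hF hx (mem_NF.2 (Or.inl hh))]
    ring

theorem Emb.stD (hG : Cub G) (hc : Nice G c) (h : Emb G c A col non e) (hF : cmpR A F = true) :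
    st G (flp (FS A F e) c) univ - st G c univ =
      (2 * ((A.length : ℤ) - sjR A col F), (spR A (Nat.xor col F) : ℤ) - A.length,
        (sqR A (Nat.xor col F) : ℤ) - A.length) := by
  have hL := h.locF hG hF
  have hlev := h.lev hG hF
  have e2 : (A.length : ℤ) = ∑ i ∈ range A.length, (1 : ℤ) := by simp
  have hsum : st G (flp (FS A F e) c) univ - st G c univ =
      ∑ i ∈ range A.length, (tt G (flp (FS A F e) c) (e i) - tt G c (e i)) := by
    rw [st_eq, st_eq, ← Finset.sum_sub_distrib]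
    refine h.sum_red _ fun x hx => ?_
    rw [tt_out hc (h.outZ hG hF hx)]
    simp
  have hP0 : ∀ x, locP G c x = 0 := by
    intro x
    unfold locP
    rw [if_neg]
    have := hc x
    omega
  have hQ0 : ∀ x, locQ G c x = 0 := by
    intro x
    unfold locQ
    rw [if_neg]
    rintro ⟨h1, -⟩
    have := hc x
    omega
  refine Prod.ext ?_ (Prod.ext ?_ ?_)
  · show (st G (flp (FS A F e) c) univ).1 - (st G c univ).1 = _
    exact hlev
  · rw [hsum]
    rw [Prod.snd_sum, Prod.fst_sum]
    show ∑ i ∈ range A.length, (locP G (flp (FS A F e) c) (e i) - locP G c (e i)) =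
      (spR A (Nat.xor col F) : ℤ) - A.length
    have e1 : spR A (Nat.xor col F) = ∑ i ∈ range A.length, (Bool.rec (motive := fun _ => Nat) 1
      (Bool.rec (motive := fun _ => Nat) 0 2 (tb (Nat.xor col F) i))
      (Nat.beq (mdl (Nat.xor col F) i (glR A i)) 2) : ℕ) := by
      unfold spR
      exact sumI0_eq _ _
    rw [e1, e2]
    push_cast
    rw [← Finset.sum_sub_distrib]
    refine Finset.sum_congr rfl fun i hi => ?_
    have hi' : i < A.length := by simpa using hi
    rw [hP0, sub_zero]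
    unfold locP
    rw [hL.md_eq hi', hL.colr i hi']
    by_cases h2 : mdl (Nat.xor col F) i (glR A i) = 2
    · rw [if_pos h2, (beqN_iff _ _).2 h2]
      cases tb (Nat.xor col F) i <;> simp [sg]
    · rw [if_neg h2]
      have : Nat.beq (mdl (Nat.xor col F) i (glR A i)) 2 = false := by
        by_contra hh
        exact h2 ((beqN_iff _ _).1 (by simpa using hh))
      rw [this]
      simp
  · rw [hsum]
    rw [Prod.snd_sum, Prod.snd_sum]
    show ∑ i ∈ range A.length, (locQ G (flp (FS A F e) c) (e i) - locQ G c (e i)) =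
      (sqR A (Nat.xor col F) : ℤ) - A.length
    have e1 : sqR A (Nat.xor col F) = ∑ i ∈ range A.length, (Bool.rec (motive := fun _ => Nat) 1
      (Bool.rec (motive := fun _ => Nat) 0 2 (tb (Nat.xor col F) i))
      (andB (Nat.beq (mdl (Nat.xor col F) i (glR A i)) 2)
        (Nat.ble 1 (m2l A (Nat.xor col F) i (glR A i)))) : ℕ) := by
      unfold sqR
      exact sumI0_eq _ _
    rw [e1, e2]
    push_cast
    rw [← Finset.sum_sub_distrib]
    refine Finset.sum_congr rfl fun i hi => ?_
    have hi' : i < A.length := by simpa using hi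
    rw [hQ0, sub_zero]
    have hex : (∃ y, MA G (flp (FS A F e) c) (e i) y ∧ md G (flp (FS A F e) c) y = 2) ↔
        1 ≤ m2l A (Nat.xor col F) i (glR A i) := by
      rw [← hL.m2_eq hi', Nat.one_le_iff_ne_zero, Finset.card_ne_zero]
      constructor
      · rintro ⟨y, hy⟩
        exact ⟨y, Finset.mem_filter.2 ⟨Finset.mem_univ _, hy⟩⟩
      · rintro ⟨y, hy⟩
        exact ⟨y, (Finset.mem_filter.1 hy).2⟩
    unfold locQ
    rw [hL.md_eq hi', hL.colr i hi']
    by_cases h2 : mdl (Nat.xor col F) i (glR A i) = 2 ∧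
        1 ≤ m2l A (Nat.xor col F) i (glR A i)
    · rw [if_pos ⟨h2.1, hex.2 h2.2⟩, (andB_iff _ _).2 ⟨(beqN_iff _ _).2 h2.1, (bleN_iff _ _).2 h2.2⟩]
      cases tb (Nat.xor col F) i <;> simp [sg]
    · rw [if_neg fun hh => h2 ⟨hh.1, hex.1 hh.2⟩]
      have : andB (Nat.beq (mdl (Nat.xor col F) i (glR A i)) 2)
        (Nat.ble 1 (m2l A (Nat.xor col F) i (glR A i))) = false := by
        by_contra hh
        have hh' := (andB_iff _ _).1 (by simpa using hh)
        exact h2 ⟨(beqN_iff _ _).1 hh'.1, (bleN_iff _ _).1 hh'.2⟩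
      rw [this]
      simp

end Main

end

end Pool.Agent.Work.MP_1e13ac_W
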