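import Pool.Agent.Work.MP_1e13ac_W.PkFinal
import Pool.Agent.Work.MP_1e13ac_W.L1Main
import Pool.Agent.Work.MP_1e13ac_W.PkS0h
import Pool.Agent.Work.MP_1e13ac_W.PkS1
import Pool.Agent.Work.MP_1e13ac_W.PkS24
import Pool.Agent.Work.MP_1e13ac_W.PkS3
import Pool.Agent.Work.MP_1e13ac_W.PkS5
import Pool.Agent.Work.MP_1e13ac_W.PkS6
import Pool.Agent.Work.MP_1e13ac_W.PkS7

/-!
# MP_1e13ac_co: the full theorem, for the corollaries
-/

set_option autoImplicit false

namespace Pool.Agent.Work.MP_1e13ac_W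

/-- every finite cubic graph has a bisection into isomorphic linear forests with components of at
most four vertices -/
theorem full (V : Type) [Fintype V] [DecidableEq V] (G : SimpleGraph V) [DecidableRel G.Adj]
    (hG : G.IsRegularOfDegree 3) :
    ∃ S : Set V,
      S.ncard = Sᶜ.ncard ∧
      (∀ c : (G.induce S).ConnectedComponent, c.supp.ncard ≤ 4) ∧
      (∀ c : (G.induce Sᶜ).ConnectedComponent, c.supp.ncard ≤ 4) ∧
      (G.induce S).IsAcyclic ∧
      (∀ v, ((G.induce S).neighborSet v).ncard ≤ 2) ∧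
      (G.induce Sᶜ).IsAcyclic ∧
      (∀ v, ((G.induce Sᶜ).neighborSet v).ncard ≤ 2) ∧
      Nonempty (G.induce S ≃g G.induce Sᶜ) :=
  frozen_of stmt_L1 stmt_S0 stmt_S1 stmt_S2 stmt_S3 stmt_S4 stmt_S5 stmt_S6 stmt_S7 V G hG

/-- the degrees in an induced subgraph -/
theorem deg_fin {V : Type} [Fintype V] [DecidableEq V] (G : SimpleGraph V) [DecidableRel G.Adj]
    (T : Finset V) (hT : ∀ v : (T : Set V), ((G.induce (T : Set V)).neighborSet v).ncard ≤ 2) :
    ∀ v ∈ T, (T.filter (fun w => G.Adj v w)).card ≤ 2 := by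
  intro v hv
  have h1 := hT ⟨v, hv⟩
  refine le_trans (le_of_eq ?_) h1
  rw [← Set.ncard_image_of_injective _ Subtype.val_injective, ← Set.ncard_coe_finset]
  congr 1
  ext w
  simp only [Finset.coe_filter, Set.mem_setOf_eq, Set.mem_image, SimpleGraph.mem_neighborSet,
    SimpleGraph.comap_adj, Function.Embedding.subtype_apply, Subtype.exists, Finset.mem_coe,
    exists_and_right, exists_eq_right]
  constructor
  · rintro ⟨h2, h3⟩
    exact ⟨h2, h3⟩
  · rintro ⟨h2, h3⟩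
    exact ⟨h2, h3⟩

/-- the theorem with a finite set -/
theorem full_fin (V : Type) [Fintype V] [DecidableEq V] (G : SimpleGraph V) [DecidableRel G.Adj]
    (hG : G.IsRegularOfDegree 3) :
    ∃ S : Finset V,
      S.card = Sᶜ.card ∧
      Nonempty (G.induce (S : Set V) ≃g G.induce ((Sᶜ : Finset V) : Set V)) ∧
      (G.induce (S : Set V)).IsAcyclic ∧
      (G.induce ((Sᶜ : Finset V) : Set V)).IsAcyclic ∧
      (∀ v ∈ S, (S.filter (fun w => G.Adj v w)).card ≤ 2) ∧
      (∀ v ∈ Sᶜ, (Sᶜ.filter (fun w => G.Adj v w)).card ≤ 2) := by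
  classical
  obtain ⟨T, h1, -, -, h2, h3, h4, h5, h6⟩ := full V G hG
  obtain ⟨S, rfl⟩ : ∃ S : Finset V, T = (S : Set V) := ⟨T.toFinset, by simp⟩
  have e : ((S : Set V))ᶜ = ((Sᶜ : Finset V) : Set V) := by simp
  rw [e] at h1 h4 h5 h6
  rw [Set.ncard_coe_finset, Set.ncard_coe_finset] at h1
  exact ⟨S, h1, h6, h2, h4, deg_fin G S h3, deg_fin G Sᶜ h5⟩

end Pool.Agent.Work.MP_1e13ac_W
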