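import Pool.Agent.Work.MP_1e13ac_W.L1Hand

/-!
# MP_1e13ac_co, full statement: level-1 world, no vertex of type `AN` in a connected graph
(helper50)
-/

set_option autoImplicit false
set_option linter.unusedSectionVars false

namespace Pool.Agent.Work.MP_1e13ac_W

open Classical Finset Pool.Agent.Work.MP_1e13ac_Bis

noncomputable section

variable {V : Type} [Fintype V] {G : SimpleGraph V} {c : V → Bool}

/-- the neighbourhood of a vertex of type `AN` -/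
structure AD (G : SimpleGraph V) (c : V → Bool) (a w w' p p' q q' : V) : Prop where
  an : AN G c a
  mw : MA G c w w'
  mp : MA G c p p'
  mq : MA G c q q'
  hN : ∀ z, G.Adj a z ↔ z = w ∨ z = p ∨ z = q
  wp : w ≠ p
  wq : w ≠ q
  pq : p ≠ q

theorem AN.data {a : V} (hG : Cub G) (h : AN G c a) {w : V} (hw : G.Adj a w) :
    ∃ w' p p' q q', AD G c a w w' p p' q q' := by
  obtain ⟨p, q, hpq, hpw, hqw, hN⟩ := cub1 hG hw
  have hap : G.Adj a p := (hN p).2 (by simp)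
  have haq : G.Adj a q := (hN q).2 (by simp)
  obtain ⟨w', hw'⟩ := md1_ex (mem_Qs.1 (h.2.1 w hw).1).1.2
  obtain ⟨p', hp'⟩ := md1_ex (mem_Qs.1 (h.2.1 p hap).1).1.2
  obtain ⟨q', hq'⟩ := md1_ex (mem_Qs.1 (h.2.1 q haq).1).1.2
  exact ⟨w', p, p', q, q', h, hw', hp', hq', hN, hpw.symm, hqw.symm, hpq⟩

namespace AD

variable {a w w' p p' q q' : V} (h : AD G c a w w' p p' q q')

include h

theorem aw : G.Adj a w := (h.hN w).2 (by simp)
theorem ap : G.Adj a p := (h.hN p).2 (by simp)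
theorem aq : G.Adj a q := (h.hN q).2 (by simp)
theorem ww : w ∈ Qs G c 0 := (h.an.2.1 w h.aw).1
theorem pp : p ∈ Qs G c 0 := (h.an.2.1 p h.ap).1
theorem qq : q ∈ Qs G c 0 := (h.an.2.1 q h.aq).1
theorem ww' : w' ∈ Qs G c 0 := (h.an.2.1 w h.aw).2 w' h.mw
theorem pp' : p' ∈ Qs G c 0 := (h.an.2.1 p h.ap).2 p' h.mp
theorem qq' : q' ∈ Qs G c 0 := (h.an.2.1 q h.aq).2 q' h.mq
theorem w'p : w' ≠ p := fun e => h.an.2.2 w p h.aw h.ap (e ▸ h.mw)
theorem w'q : w' ≠ q := fun e => h.an.2.2 w q h.aw h.aq (e ▸ h.mw)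
theorem p'q : p' ≠ q := fun e => h.an.2.2 p q h.ap h.aq (e ▸ h.mp)
theorem p'w : p' ≠ w := fun e => h.an.2.2 p w h.ap h.aw (e ▸ h.mp)
theorem q'w : q' ≠ w := fun e => h.an.2.2 q w h.aq h.aw (e ▸ h.mq)
theorem q'p : q' ≠ p := fun e => h.an.2.2 q p h.aq h.ap (e ▸ h.mq)

theorem swp : AD G c a w w' q q' p p' :=
  ⟨h.an, h.mw, h.mq, h.mp, fun z => by rw [h.hN z]; tauto, h.wq, h.wp, h.pq.symm⟩

end AD

/-- the other black neighbour of a source -/
theorem q0_other (hG : Cub G) (hc : Nice G c) {w a : V} (hw : w ∈ Qs G c 0) (ha : G.Adj w a)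
    (ca : c a = false) : ∃ z, z ≠ a ∧ G.Adj w z ∧ IsB0 G c z ∧
      ∀ y, G.Adj w y → c y = false → y = a ∨ y = z := by
  have hw1 := (mem_Qs.1 hw).1
  obtain ⟨w', hw'⟩ := md1_ex hw1.2
  obtain ⟨z, h1, h2, hN, cz, -⟩ := cls hG hc hw' hw1.1 ha (Q0_nb hc hw ha ca)
  have hwz : G.Adj w z := (hN z).2 (by simp)
  refine ⟨z, h2, hwz, Q0_nb hc hw hwz cz, ?_⟩
  intro y hy cy
  rcases (hN y).1 hy with h | h | h
  · exfalso
    have := MA_col hw' hw1.1
    rw [← h, cy] at this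
    exact absurd this (by simp)
  · exact Or.inl h
  · exact Or.inr h

/-- the neighbour in `B1` of a vertex of `Q1` -/
theorem q1_g {x : V} (hx : x ∈ Qs G c 1) :
    ∃ g g', G.Adj x g ∧ MA G c g g' ∧ c g = false := by
  have h1 := (mem_Qs.1 hx).2
  unfold nB1 at h1
  obtain ⟨g, hg⟩ := Finset.card_eq_one.1 h1
  have hg' : g ∈ (nbs G x).filter fun y => IsB1 G c y := by rw [hg]; simp
  rw [Finset.mem_filter, mem_nbs] at hg'
  obtain ⟨g', hgg⟩ := md1_ex hg'.2.2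
  exact ⟨g, g', hg'.1, hgg, hg'.2.1⟩

theorem q01n {x y : V} (hx : x ∈ Qs G c 0) (hy : y ∈ Qs G c 1) : x ≠ y := by
  rintro rfl
  have h1 := (mem_Qs.1 hx).2
  have h2 := (mem_Qs.1 hy).2
  omega

section Src

variable (hG : Cub G) (hW : WL1 G c)

include hG hW

/-- no second common black neighbour -/
theorem WL1.azz {a w w' p p' q q' z : V} (h : AD G c a w w' p p' q q') (hwz : G.Adj w z)
    (haz : z ≠ a) (cz : c z = false) (hpz : G.Adj p z) : False :=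
  hW.a3zz hG h.mw h.mp h.mq (mem_Qs.1 h.ww).1.1 (mem_Qs.1 h.pp).1.1 (mem_Qs.1 h.qq).1.1 h.an.1
    h.aw h.ap h.aq h.wp h.w'p h.wq h.w'q h.pq h.p'q (Q0_nb hW.nice h.ww hwz cz) haz.symm hwz hpz

/-- the other black neighbour of `w` is not adjacent to `p'` -/
theorem WL1.aw2 {a w w' p p' q q' z : V} (h : AD G c a w w' p p' q q') (hwz : G.Adj w z)
    (haz : z ≠ a) (cz : c z = false) (hpz : G.Adj p' z) (hz : ∀ t, G.Adj z t → IsW1 G c t) :
    False := by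
  have hc := hW.nice
  have cw := (mem_Qs.1 h.ww).1.1
  have cp := (mem_Qs.1 h.pp).1.1
  have cq := (mem_Qs.1 h.qq).1.1
  have cw' := MA_col h.mw cw
  have cp' := MA_col h.mp cp
  have cq' := MA_col h.mq cq
  have hz0 := Q0_nb hc h.ww hwz cz
  obtain ⟨s, hs1, hps, hs0, hsN⟩ := q0_other hG hc h.pp h.ap.symm h.an.1.1
  have zs : z ≠ s := fun e => hW.azz hG h hwz haz cz (e ▸ hps)
  obtain ⟨e1, e2, e3, e4⟩ := pair_ne hc h.mw h.mp h.wp h.w'p
  obtain ⟨f1, f2, f3, f4⟩ := pair_ne hc h.mw h.mq h.wq h.w'q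
  obtain ⟨g1, g2, g3, g4⟩ := pair_ne hc h.mp h.mq h.pq h.p'q
  obtain ⟨t, t1, t2, hNz⟩ := cub2 hG hwz.symm hpz.symm e2
  have hzt : G.Adj z t := (hNz t).2 (by simp)
  have ht := hz t hzt
  obtain ⟨t', ht'⟩ := md1_ex ht.2
  have ct := ht.1
  have ct' := MA_col ht' ct
  have ntp : t ≠ p := by
    rintro rfl
    exact hW.azz hG h hwz haz cz hzt.symm
  have ntq : t ≠ q := by
    rintro rfl
    exact hW.azz hG h.swp hwz haz cz hzt.symm
  have ntw' : t ≠ w' := by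
    rintro rfl
    -- slot of `w` with its mate
    obtain ⟨b', x, h5, h6, h7, h8, h9⟩ := hW.caseT hG h.ww h.mw hz0 h.an.1 haz hwz h.aw.symm
      (x := p') (fun y => by rw [hNz y]; tauto) e2.symm e4.symm
    rcases (h8 p').1 hpz.symm with h10 | h10 | h10
    · exact e2 h10.symm
    · rw [nice_uniq hc h5 h.mw] at h10
      exact e4 h10.symm
    · exact q01n h.pp' (h10 ▸ h9) rfl
  by_cases htq : t = q'
  · subst htq
    refine hW.cert0 hG dA3w2_ok (e := fun i => [w, w', a, p, p', q, t, z, s].getD i w) ?_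
    refine emb_mk hc [w, w', a, p, p', q, t, z, s] w
      [(0, 1), (0, 2), (2, 3), (3, 4), (2, 5), (5, 6), (0, 7), (3, 8), (4, 7), (6, 7)]
      [(0, 3), (0, 4), (1, 3), (1, 4), (0, 5), (0, 6), (1, 5), (1, 6), (3, 5), (3, 6), (4, 5),
        (4, 6), (2, 7), (2, 8), (7, 8)] [2, 7, 8] rfl (by decide) ?_ ?_ ?_ ?_
    · simp [h.mw.1, h.aw.symm, h.ap, h.mp.1, h.aq, h.mq.1, hwz, hps, hpz, hzt.symm]
    · simp [e1, e2, e3, e4, f1, f2, f3, f4, g1, g2, g3, g4, haz.symm, hs1.symm, zs]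
    · simp [h.an.1.2, hz0.2, hs0.2]
    · simp [cw, cp, cq, cw', cp', cq', h.an.1.1, cz, hs0.1]
      decide
  · obtain ⟨i1, i2, i3, i4⟩ := pair_ne hc h.mw ht' t1.symm ntw'.symm
    obtain ⟨j1, j2, j3, j4⟩ := pair_ne hc h.mp ht' ntp.symm t2.symm
    obtain ⟨k1, k2, k3, k4⟩ := pair_ne hc h.mq ht' ntq.symm (Ne.symm htq)
    refine hW.cert0 hG dA3w_ok (e := fun i => [w, w', a, p, p', q, q', z, s, t, t'].getD i w) ?_
    refine emb_mk hc [w, w', a, p, p', q, q', z, s, t, t'] w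
      [(0, 1), (0, 2), (2, 3), (3, 4), (2, 5), (5, 6), (0, 7), (3, 8), (4, 7), (7, 9), (9, 10)]
      [(0, 3), (0, 4), (1, 3), (1, 4), (0, 5), (0, 6), (1, 5), (1, 6), (3, 5), (3, 6), (4, 5),
        (4, 6), (0, 9), (0, 10), (1, 9), (1, 10), (3, 9), (3, 10), (4, 9), (4, 10), (5, 9),
        (5, 10), (6, 9), (6, 10), (2, 7), (2, 8), (7, 8)] [2, 7, 8] rfl (by decide) ?_ ?_ ?_ ?_
    · simp [h.mw.1, h.aw.symm, h.ap, h.mp.1, h.aq, h.mq.1, hwz, hps, hpz, hzt, ht'.1]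
    · simp [e1, e2, e3, e4, f1, f2, f3, f4, g1, g2, g3, g4, i1, i2, i3, i4, j1, j2, j3, j4,
        k1, k2, k3, k4, haz.symm, hs1.symm, zs]
    · simp [h.an.1.2, hz0.2, hs0.2]
    · simp [cw, cp, cq, cw', cp', cq', ct, ct', h.an.1.1, cz, hs0.1]
      decide

/-- the other black neighbour of a neighbour of a vertex of type `AN` is of type `AN` -/
theorem WL1.anext {a w z : V} (h : AN G c a) (haw : G.Adj a w) (hwz : G.Adj w z)
    (cz : c z = false) (haz : z ≠ a) : AN G c z := by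
  have hc := hW.nice
  obtain ⟨w', p, p', q, q', h⟩ := h.data hG haw
  have cw := (mem_Qs.1 h.ww).1.1
  have cp := (mem_Qs.1 h.pp).1.1
  have cq := (mem_Qs.1 h.qq).1.1
  have cw' := MA_col h.mw cw
  have cp' := MA_col h.mp cp
  have cq' := MA_col h.mq cq
  have hz0 := Q0_nb hc h.ww hwz cz
  obtain ⟨s, hs1, hps, hs0, hsN⟩ := q0_other hG hc h.pp h.ap.symm h.an.1.1
  have zs : z ≠ s := fun e => hW.azz hG h hwz haz cz (e ▸ hps)
  obtain ⟨e1, e2, e3, e4⟩ := pair_ne hc h.mw h.mp h.wp h.w'p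
  obtain ⟨f1, f2, f3, f4⟩ := pair_ne hc h.mw h.mq h.wq h.w'q
  obtain ⟨g1, g2, g3, g4⟩ := pair_ne hc h.mp h.mq h.pq h.p'q
  rcases hW.slots hG w h.ww z hwz cz with hs | hs | hs | hs | hs
  · exfalso
    obtain ⟨x, y, d1, d2, d3, hN, hx, hbx, hy⟩ := hs
    have hzx : G.Adj z x := (hN x).2 (by simp)
    have hzy : G.Adj z y := (hN y).2 (by simp)
    obtain ⟨x', hx'⟩ := md1_ex (mem_Qs.1 hx).1.2
    obtain ⟨g, g', hxg, hgg, cg⟩ := q1_g hx
    have cx := (mem_Qs.1 hx).1.1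
    have cx' := MA_col hx' cx
    have cg' := MA_col hgg cg
    obtain ⟨i1, i2, i3, i4⟩ := pair_ne hc h.mw hx' (q01n h.ww hx) (q01n h.ww' hx)
    obtain ⟨j1, j2, j3, j4⟩ := pair_ne hc h.mp hx' (q01n h.pp hx) (q01n h.pp' hx)
    obtain ⟨k1, k2, k3, k4⟩ := pair_ne hc h.mq hx' (q01n h.qq hx) (q01n h.qq' hx)
    refine hW.cert0 hG dA3M_ok
      (e := fun i => [w, w', a, p, p', q, q', z, s, x, x', g, g', y].getD i w) ?_
    refine emb_mk hc [w, w', a, p, p', q, q', z, s, x, x', g, g', y] w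
      [(0, 1), (0, 2), (2, 3), (3, 4), (2, 5), (5, 6), (0, 7), (3, 8), (7, 9), (9, 10), (9, 11),
        (11, 12), (7, 13)]
      [(0, 3), (0, 4), (1, 3), (1, 4), (0, 5), (0, 6), (1, 5), (1, 6), (3, 5), (3, 6), (4, 5),
        (4, 6), (0, 9), (0, 10), (1, 9), (1, 10), (3, 9), (3, 10), (4, 9), (4, 10), (5, 9),
        (5, 10), (6, 9), (6, 10), (2, 7), (2, 8), (7, 8)] [2, 7, 8, 13] rfl (by decide) ?_ ?_ ?_ ?_
    · simp [h.mw.1, h.aw.symm, h.ap, h.mp.1, h.aq, h.mq.1, hwz, hps, hzx, hx'.1, hxg, hgg.1, hzy]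
    · simp [e1, e2, e3, e4, f1, f2, f3, f4, g1, g2, g3, g4, i1, i2, i3, i4, j1, j2, j3, j4,
        k1, k2, k3, k4, haz.symm, hs1.symm, zs]
    · simp [h.an.1.2, hz0.2, hs0.2, hy.2]
    · simp [cw, cp, cq, cw', cp', cq', cx, cx', cg, cg', h.an.1.1, cz, hs0.1, hy.1]
      decide
  · exfalso
    obtain ⟨w'', x, hw'', d1, d2, hN, hx⟩ := hs
    have ew := nice_uniq hc hw'' h.mw
    subst ew
    have hzx : G.Adj z x := (hN x).2 (by simp)
    have hzw : G.Adj z w'' := (hN w'').2 (by simp)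
    obtain ⟨x', hx'⟩ := md1_ex (mem_Qs.1 hx).1.2
    obtain ⟨g, g', hxg, hgg, cg⟩ := q1_g hx
    have cx := (mem_Qs.1 hx).1.1
    have cx' := MA_col hx' cx
    have cg' := MA_col hgg cg
    obtain ⟨i1, i2, i3, i4⟩ := pair_ne hc h.mw hx' (q01n h.ww hx) (q01n h.ww' hx)
    obtain ⟨j1, j2, j3, j4⟩ := pair_ne hc h.mp hx' (q01n h.pp hx) (q01n h.pp' hx)
    obtain ⟨k1, k2, k3, k4⟩ := pair_ne hc h.mq hx' (q01n h.qq hx) (q01n h.qq' hx)
    refine hW.cert0 hG dA3T_ok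
      (e := fun i => [w, w'', a, p, p', q, q', z, s, x, x', g, g'].getD i w) ?_
    refine emb_mk hc [w, w'', a, p, p', q, q', z, s, x, x', g, g'] w
      [(0, 1), (0, 2), (2, 3), (3, 4), (2, 5), (5, 6), (0, 7), (3, 8), (1, 7), (7, 9), (9, 10),
        (9, 11), (11, 12)]
      [(0, 3), (0, 4), (1, 3), (1, 4), (0, 5), (0, 6), (1, 5), (1, 6), (3, 5), (3, 6), (4, 5),
        (4, 6), (0, 9), (0, 10), (1, 9), (1, 10), (3, 9), (3, 10), (4, 9), (4, 10), (5, 9),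
        (5, 10), (6, 9), (6, 10), (2, 7), (2, 8), (7, 8)] [2, 7, 8] rfl (by decide) ?_ ?_ ?_ ?_
    · simp [h.mw.1, h.aw.symm, h.ap, h.mp.1, h.aq, h.mq.1, hwz, hps, hzx, hx'.1, hxg, hgg.1,
        hzw.symm]
    · simp [e1, e2, e3, e4, f1, f2, f3, f4, g1, g2, g3, g4, i1, i2, i3, i4, j1, j2, j3, j4,
        k1, k2, k3, k4, haz.symm, hs1.symm, zs]
    · simp [h.an.1.2, hz0.2, hs0.2]
    · simp [cw, cp, cq, cw', cp', cq', cx, cx', cg, cg', h.an.1.1, cz, hs0.1]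
      decide
  · exfalso
    obtain ⟨x, x', hx', d1, d2, hN, hx, -⟩ := hs
    have hzx : G.Adj z x := (hN x).2 (by simp)
    have hzx' : G.Adj z x' := (hN x').2 (by simp)
    obtain ⟨g, g', hxg, hgg, cg⟩ := q1_g hx
    have cx := (mem_Qs.1 hx).1.1
    have cx' := MA_col hx' cx
    have cg' := MA_col hgg cg
    obtain ⟨i1, i2, i3, i4⟩ := pair_ne hc h.mw hx' (q01n h.ww hx) (q01n h.ww' hx)
    obtain ⟨j1, j2, j3, j4⟩ := pair_ne hc h.mp hx' (q01n h.pp hx) (q01n h.pp' hx)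
    obtain ⟨k1, k2, k3, k4⟩ := pair_ne hc h.mq hx' (q01n h.qq hx) (q01n h.qq' hx)
    refine hW.cert0 hG dA3X_ok
      (e := fun i => [w, w', a, p, p', q, q', z, s, x, x', g, g'].getD i w) ?_
    refine emb_mk hc [w, w', a, p, p', q, q', z, s, x, x', g, g'] w
      [(0, 1), (0, 2), (2, 3), (3, 4), (2, 5), (5, 6), (0, 7), (3, 8), (7, 9), (7, 10), (9, 10),
        (9, 11), (11, 12)]
      [(0, 3), (0, 4), (1, 3), (1, 4), (0, 5), (0, 6), (1, 5), (1, 6), (3, 5), (3, 6), (4, 5),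
        (4, 6), (0, 9), (0, 10), (1, 9), (1, 10), (3, 9), (3, 10), (4, 9), (4, 10), (5, 9),
        (5, 10), (6, 9), (6, 10), (2, 7), (2, 8), (7, 8)] [2, 7, 8] rfl (by decide) ?_ ?_ ?_ ?_
    · simp [h.mw.1, h.aw.symm, h.ap, h.mp.1, h.aq, h.mq.1, hwz, hps, hzx, hx'.1, hxg, hgg.1,
        hzx']
    · simp [e1, e2, e3, e4, f1, f2, f3, f4, g1, g2, g3, g4, i1, i2, i3, i4, j1, j2, j3, j4,
        k1, k2, k3, k4, haz.symm, hs1.symm, zs]
    · simp [h.an.1.2, hz0.2, hs0.2]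
    · simp [cw, cp, cq, cw', cp', cq', cx, cx', cg, cg', h.an.1.1, cz, hs0.1]
      decide
  · exfalso
    obtain ⟨b₂, a₂, y, y₂, hb₂, d1, hnb, haa, hN, hN₂, hy, hy₂⟩ := hs
    have hza : G.Adj z b₂ := (hN b₂).2 (by simp)
    have h2w : G.Adj a₂ w := (hN₂ w).2 (by simp)
    have h2b : G.Adj a₂ b₂ := (hN₂ b₂).2 (by simp)
    have cb₂ := (mem_Qs.1 hb₂).1.1
    have ca₂ : c a₂ = false := by
      rcases h' : c a₂ with _ | _
      · rfl
      · exfalso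
        have t1 : MA G c a₂ w := ⟨h2w, by rw [h', cw]⟩
        have t2 : MA G c a₂ b₂ := ⟨h2b, by rw [h', cb₂]⟩
        exact d1 (nice_uniq hc t1 t2)
    obtain ⟨r, hr1, hr2, hr3, hr4⟩ := q0_other hG hc h.ww h.aw.symm h.an.1.1
    have hzr : z = r := by
      rcases hr4 z hwz cz with h' | h'
      · exact absurd h' haz
      · exact h'
    have ha2 : a₂ = a := by
      rcases hr4 a₂ h2w.symm ca₂ with h' | h'
      · exact h'
      · exact absurd (hzr.trans h'.symm) haa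
    subst ha2
    rcases (h.hN b₂).1 h2b with h' | h' | h'
    · exact d1 h'.symm
    · subst h'
      exact hW.azz hG h hwz haz cz hza.symm
    · subst h'
      exact hW.azz hG h.swp hwz haz cz hza.symm
  · exact hs

/-- the black neighbours of the mate of a neighbour of a vertex of type `AN` are of type `AN` -/
theorem WL1.anmate {a w w' u : V} (h : AN G c a) (haw : G.Adj a w) (hww : MA G c w w')
    (hwu : G.Adj w' u) (cu : c u = false) : AN G c u := by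
  have hc := hW.nice
  obtain ⟨w₁, p, p', q, q', h⟩ := h.data hG haw
  have ew := nice_uniq hc h.mw hww
  subst ew
  have cw := (mem_Qs.1 h.ww).1.1
  have cp := (mem_Qs.1 h.pp).1.1
  have cq := (mem_Qs.1 h.qq).1.1
  have cw' := MA_col h.mw cw
  have cp' := MA_col h.mp cp
  have cq' := MA_col h.mq cq
  have hu0 := Q0_nb hc h.ww' hwu cu
  obtain ⟨z, hz1, hwz, hz0, hzN⟩ := q0_other hG hc h.ww h.aw.symm h.an.1.1
  have hzAN := hW.anext hG h.an h.aw hwz hz0.1 hz1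
  obtain ⟨e1, e2, e3, e4⟩ := pair_ne hc h.mw h.mp h.wp h.w'p
  obtain ⟨f1, f2, f3, f4⟩ := pair_ne hc h.mw h.mq h.wq h.w'q
  obtain ⟨g1, g2, g3, g4⟩ := pair_ne hc h.mp h.mq h.pq h.p'q
  have hua : u ≠ a := by
    rintro rfl
    exact h.an.2.2 w w₁ h.aw hwu.symm h.mw
  have huz : u ≠ z := by
    rintro rfl
    exact hzAN.2.2 w w₁ hwz.symm hwu.symm h.mw
  rcases hW.slots hG w₁ h.ww' u hwu cu with hs | hs | hs | hs | hs
  · exfalso
    obtain ⟨x, y, d1, d2, d3, hN, hx, hbx, hy⟩ := hs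
    have hux : G.Adj u x := (hN x).2 (by simp)
    have huy : G.Adj u y := (hN y).2 (by simp)
    obtain ⟨x', hx'⟩ := md1_ex (mem_Qs.1 hx).1.2
    obtain ⟨g, g', hxg, hgg, cg⟩ := q1_g hx
    have cx := (mem_Qs.1 hx).1.1
    have cx' := MA_col hx' cx
    have cg' := MA_col hgg cg
    obtain ⟨i1, i2, i3, i4⟩ := pair_ne hc h.mw hx' (q01n h.ww hx) (q01n h.ww' hx)
    obtain ⟨j1, j2, j3, j4⟩ := pair_ne hc h.mp hx' (q01n h.pp hx) (q01n h.pp' hx)
    obtain ⟨k1, k2, k3, k4⟩ := pair_ne hc h.mq hx' (q01n h.qq hx) (q01n h.qq' hx)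
    refine hW.cert3M hG [0, 1, 3, 4, 5, 6] dA3pM_ok
      (e := fun i => [w, w₁, a, p, p', q, q', z, u, x, x', g, g', y].getD i w) ?_ ?_
    · refine emb_mk hc [w, w₁, a, p, p', q, q', z, u, x, x', g, g', y] w
        [(0, 1), (0, 2), (2, 3), (3, 4), (2, 5), (5, 6), (0, 7), (1, 8), (8, 9), (9, 10), (9, 11),
          (11, 12), (8, 13)]
        [(0, 3), (0, 4), (1, 3), (1, 4), (0, 5), (0, 6), (1, 5), (1, 6), (3, 5), (3, 6), (4, 5),
          (4, 6), (0, 9), (0, 10), (1, 9), (1, 10), (3, 9), (3, 10), (4, 9), (4, 10), (5, 9),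
          (5, 10), (6, 9), (6, 10), (2, 7), (2, 8), (7, 8)] [2, 7, 8, 13] rfl (by decide)
          ?_ ?_ ?_ ?_
      · simp [h.mw.1, h.aw.symm, h.ap, h.mp.1, h.aq, h.mq.1, hwz, hwu, hux, hx'.1, hxg, hgg.1,
          huy]
      · simp [e1, e2, e3, e4, f1, f2, f3, f4, g1, g2, g3, g4, i1, i2, i3, i4, j1, j2, j3, j4,
          k1, k2, k3, k4, hz1.symm, hua.symm, huz.symm]
      · simp [h.an.1.2, hz0.2, hu0.2, hy.2]
      · simp [cw, cp, cq, cw', cp', cq', cx, cx', cg, cg', h.an.1.1, hz0.1, cu, hy.1]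
        decide
    · simp [h.ww, h.ww', h.pp, h.pp', h.qq, h.qq']
  · exfalso
    obtain ⟨w'', x, hw'', d1, d2, hN, hx⟩ := hs
    have ew := nice_uniq hc hw'' (ma_symm h.mw)
    subst ew
    have huw : G.Adj u w'' := (hN w'').2 (by simp)
    rcases hzN u huw.symm cu with h' | h'
    · exact hua h'
    · exact huz h'
  · exfalso
    obtain ⟨x, x', hx', d1, d2, hN, hx, -⟩ := hs
    have hux : G.Adj u x := (hN x).2 (by simp)
    have hux' : G.Adj u x' := (hN x').2 (by simp)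
    obtain ⟨g, g', hxg, hgg, cg⟩ := q1_g hx
    have cx := (mem_Qs.1 hx).1.1
    have cx' := MA_col hx' cx
    have cg' := MA_col hgg cg
    obtain ⟨i1, i2, i3, i4⟩ := pair_ne hc h.mw hx' (q01n h.ww hx) (q01n h.ww' hx)
    obtain ⟨j1, j2, j3, j4⟩ := pair_ne hc h.mp hx' (q01n h.pp hx) (q01n h.pp' hx)
    obtain ⟨k1, k2, k3, k4⟩ := pair_ne hc h.mq hx' (q01n h.qq hx) (q01n h.qq' hx)
    refine hW.cert3M hG [0, 1, 3, 4, 5, 6] dA3pX_ok
      (e := fun i => [w, w₁, a, p, p', q, q', z, u, x, x', g, g'].getD i w) ?_ ?_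
    · refine emb_mk hc [w, w₁, a, p, p', q, q', z, u, x, x', g, g'] w
        [(0, 1), (0, 2), (2, 3), (3, 4), (2, 5), (5, 6), (0, 7), (1, 8), (8, 9), (8, 10), (9, 10),
          (9, 11), (11, 12)]
        [(0, 3), (0, 4), (1, 3), (1, 4), (0, 5), (0, 6), (1, 5), (1, 6), (3, 5), (3, 6), (4, 5),
          (4, 6), (0, 9), (0, 10), (1, 9), (1, 10), (3, 9), (3, 10), (4, 9), (4, 10), (5, 9),
          (5, 10), (6, 9), (6, 10), (2, 7), (2, 8), (7, 8)] [2, 7, 8] rfl (by decide)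
          ?_ ?_ ?_ ?_
      · simp [h.mw.1, h.aw.symm, h.ap, h.mp.1, h.aq, h.mq.1, hwz, hwu, hux, hx'.1, hxg, hgg.1,
          hux']
      · simp [e1, e2, e3, e4, f1, f2, f3, f4, g1, g2, g3, g4, i1, i2, i3, i4, j1, j2, j3, j4,
          k1, k2, k3, k4, hz1.symm, hua.symm, huz.symm]
      · simp [h.an.1.2, hz0.2, hu0.2]
      · simp [cw, cp, cq, cw', cp', cq', cx, cx', cg, cg', h.an.1.1, hz0.1, cu]
        decide
    · simp [h.ww, h.ww', h.pp, h.pp', h.qq, h.qq']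
  · exfalso
    obtain ⟨b₂, a₂, y, y₂, hb₂, d1, hnb, haa, hN, hN₂, hy, hy₂⟩ := hs
    have hb₂1 := (mem_Qs.1 hb₂).1
    obtain ⟨b₂', hb₂'⟩ := md1_ex hb₂1.2
    have h2w : G.Adj a₂ w₁ := (hN₂ w₁).2 (by simp)
    have h2b : G.Adj a₂ b₂ := (hN₂ b₂).2 (by simp)
    have ca₂ : c a₂ = false := by
      rcases h' : c a₂ with _ | _
      · rfl
      · exfalso
        have t1 : MA G c a₂ w₁ := ⟨h2w, by rw [h', cw']⟩
        have t2 : MA G c a₂ b₂ := ⟨h2b, by rw [h', hb₂1.1]⟩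
        exact d1 (nice_uniq hc t1 t2)
    have ha₂ := Q0_nb hc h.ww' h2w.symm ca₂
    have hwb : w ≠ b₂ := by
      rintro rfl
      exact hnb h.mw.1.symm
    exact hW.blkmate hG (b := w₁) (b' := w) (x := b₂) (x' := b₂') (a := u) (β := a₂) (y := y)
      (z := y₂) (ma_symm h.mw) hb₂' cw' hb₂1.1 hu0 ha₂ haa hN hN₂ hy hy₂ d1 hwb h.ww
  · exact hs

end Src

end

end Pool.Agent.Work.MP_1e13ac_W
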