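import Pool.Agent.Work.MP_1e13ac_W.L1AN

/-!
# MP_1e13ac_co, full statement: the level-1 world is impossible (helper50)
-/

set_option autoImplicit false
set_option linter.unusedSectionVars false

namespace Pool.Agent.Work.MP_1e13ac_W

open Classical Finset Pool.Agent.Work.MP_1e13ac_Bis

noncomputable section

variable {V : Type} [Fintype V] {G : SimpleGraph V} {c : V → Bool}

open CntAux T1C T1G

theorem lev_eq (c : V → Bool) : lev c = ((univ.filter fun x => c x = true).card : ℤ) -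
    (univ.filter fun x => c x = false).card := by
  unfold lev
  rw [Finset.card_filter, Finset.card_filter]
  push_cast
  rw [← Finset.sum_sub_distrib]
  refine Finset.sum_congr rfl fun x _ => ?_
  cases c x <;> simp [sg]

/-- no vertex of type `AN` in a connected graph -/
theorem WL1.noAN (hG : Cub G) (hW : WL1 G c) (hconn : G.Connected) {a : V} (ha : AN G c a) :
    False := by
  have hc := hW.nice
  have step : ∀ u v, (AN G c u ∨ ∃ a, AN G c a ∧ G.Adj a u) → G.Adj u v →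
      (AN G c v ∨ ∃ a, AN G c a ∧ G.Adj a v) := by
    intro u v hu huv
    rcases hu with hu | ⟨a, ha, hau⟩
    · exact Or.inr ⟨u, hu, huv⟩
    · by_cases cv : c v = false
      · left
        by_cases hva : v = a
        · rw [hva]
          exact ha
        · exact hW.anext hG ha hau huv cv hva
      · right
        have cv' : c v = true := by simpa using cv
        have cu := B0_nb ha.1 hau
        have huv' : MA G c u v := ⟨huv, by rw [cu, cv']⟩
        have hvq := (ha.2.1 u hau).2 v huv'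
        obtain ⟨r, s, _, hr, _, cr, _, hN⟩ := mate_nbs hG hc (ma_symm huv')
        have hvr : G.Adj v r := (hN r).2 (by simp)
        rw [cv'] at cr
        have cr' : c r = false := by simpa using cr
        exact ⟨r, hW.anmate hG ha hau huv' hvr cr', hvr.symm⟩
  have all : ∀ v, AN G c v ∨ ∃ a, AN G c a ∧ G.Adj a v := by
    intro v
    obtain ⟨w⟩ := hconn.preconnected a v
    have : ∀ (x y : V) (w : G.Walk x y), (AN G c x ∨ ∃ a, AN G c a ∧ G.Adj a x) →
        (AN G c y ∨ ∃ a, AN G c a ∧ G.Adj a y) := by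
      intro x y w
      induction w with
      | nil => exact fun h => h
      | cons h _ ih => exact fun hx => ih (step _ _ hx h)
    exact this a v w (Or.inl ha)
  have hblack : ∀ v, c v = false → AN G c v := by
    intro v hv
    rcases all v with h | ⟨a, h, hav⟩
    · exact h
    · have := B0_nb h.1 hav
      rw [hv] at this
      exact absurd this (by simp)
  have hwhite : ∀ v, c v = true → v ∈ Qs G c 0 := by
    intro v hv
    rcases all v with h | ⟨a, h, hav⟩
    · rw [h.1.1] at hv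
      exact absurd hv (by simp)
    · exact (h.2.1 v hav).1
  -- counting
  have hd : ∑ x ∈ univ.filter (fun x => c x = true), nn G (fun x => c x = false) x =
      ∑ x ∈ univ.filter (fun x => c x = false), nn G (fun x => c x = true) x := by
    have := double G (fun x => c x = true) (fun x => c x = false)
    convert this
  have hw2 : ∑ x ∈ univ.filter (fun x => c x = true), nn G (fun x => c x = false) x =
      2 * (univ.filter fun x => c x = true).card := by
    rw [Finset.sum_congr rfl (g := fun _ => 2), Finset.sum_const, smul_eq_mul, mul_comm]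
    intro x hx
    have := opp_white hG (mem_Qs.1 (hwhite x (Finset.mem_filter.1 hx).2)).1
    convert this
  have hb3 : ∑ x ∈ univ.filter (fun x => c x = false), nn G (fun x => c x = true) x =
      3 * (univ.filter fun x => c x = false).card := by
    rw [Finset.sum_congr rfl (g := fun _ => 3), Finset.sum_const, smul_eq_mul, mul_comm]
    intro x hx
    have hA := hblack x (Finset.mem_filter.1 hx).2
    have h3 := hG x
    have h4 : nn G (fun y => c y = true) x = (nbs G x).card := by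
      have h5 : nn G (fun y => c y = true) x = nn G (fun _ => True) x :=
        nn_congr fun y hy => ⟨fun _ => trivial, fun _ => B0_nb hA.1 hy⟩
      rw [h5]
      unfold nn
      simp
    rw [h3] at h4
    exact h4
  have hl := lev_eq c
  rw [hW.lev2] at hl
  have h6 : (univ.filter fun x => c x = true).card = 6 := by
    rw [hw2, hb3] at hd
    omega
  -- the six white vertices
  obtain ⟨w, hw⟩ : ∃ w, G.Adj a w := by
    obtain ⟨w, hw⟩ := Finset.card_pos.1 (by rw [hG a]; norm_num : 0 < (nbs G a).card)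
    exact ⟨w, mem_nbs.1 hw⟩
  obtain ⟨w', p, p', q, q', h⟩ := ha.data hG hw
  have cw := (mem_Qs.1 h.ww).1.1
  have cp := (mem_Qs.1 h.pp).1.1
  have cq := (mem_Qs.1 h.qq).1.1
  have cw' := MA_col h.mw cw
  have cp' := MA_col h.mp cp
  have cq' := MA_col h.mq cq
  obtain ⟨e1, e2, e3, e4⟩ := pair_ne hc h.mw h.mp h.wp h.w'p
  obtain ⟨f1, f2, f3, f4⟩ := pair_ne hc h.mw h.mq h.wq h.w'q
  obtain ⟨g1, g2, g3, g4⟩ := pair_ne hc h.mp h.mq h.pq h.p'q
  have n1 : w ≠ w' := h.mw.1.ne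
  have n2 : p ≠ p' := h.mp.1.ne
  have n3 : q ≠ q' := h.mq.1.ne
  have hS : ({w, w', p, p', q, q'} : Finset V).card = 6 := by
    rw [Finset.card_insert_of_notMem (by simp [n1, e1, e2, f1, f2]),
      Finset.card_insert_of_notMem (by simp [e3, e4, f3, f4]),
      Finset.card_insert_of_notMem (by simp [n2, g1, g2]),
      Finset.card_insert_of_notMem (by simp [g3, g4]),
      Finset.card_insert_of_notMem (by simp [n3]), Finset.card_singleton]
  have hsub : ({w, w', p, p', q, q'} : Finset V) ⊆ univ.filter fun x => c x = true := by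
    intro x hx
    simp only [Finset.mem_insert, Finset.mem_singleton] at hx
    rw [Finset.mem_filter]
    refine ⟨Finset.mem_univ _, ?_⟩
    rcases hx with rfl | rfl | rfl | rfl | rfl | rfl <;> assumption
  have heq := Finset.eq_of_subset_of_card_le hsub (by rw [hS, h6])
  obtain ⟨z, hz1, hwz, hz0, hzN⟩ := q0_other hG hc h.ww h.aw.symm h.an.1.1
  have hzA := hblack z hz0.1
  obtain ⟨w₁, r, r', s, s', hz⟩ := hzA.data hG hwz.symm
  have ew := nice_uniq hc hz.mw h.mw
  subst ew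
  have hzt : ∀ t, G.Adj z t → IsW1 G c t := fun t ht => (mem_Qs.1 (hzA.2.1 t ht).1).1
  have hr : r ∈ ({w, w₁, p, p', q, q'} : Finset V) := by
    rw [heq, Finset.mem_filter]
    exact ⟨Finset.mem_univ _, B0_nb hz0 hz.ap⟩
  simp only [Finset.mem_insert, Finset.mem_singleton] at hr
  rcases hr with hr | hr | hr | hr | hr | hr
  · exact hz.wp hr.symm
  · exact hz.w'p hr.symm
  · exact hW.azz hG h hwz hz1 hz0.1 (by rw [← hr]; exact hz.ap.symm)
  · exact hW.aw2 hG h hwz hz1 hz0.1 (by rw [← hr]; exact hz.ap.symm) hzt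
  · exact hW.azz hG h.swp hwz hz1 hz0.1 (by rw [← hr]; exact hz.ap.symm)
  · exact hW.aw2 hG h.swp hwz hz1 hz0.1 (by rw [← hr]; exact hz.ap.symm) hzt

/-- not all sources are in blocks without `Q1` -/
theorem WL1.noCC (hG : Cub G) (hW : WL1 G c) (hQ1 : Qs G c 1 = ∅)
    (hC : ∀ b ∈ Qs G c 0, ∀ a, G.Adj b a → c a = false → SlC2 G c b a) : False := by
  have hc := hW.nice
  have hex : ∀ b ∈ Qs G c 0, ∃ b', MA G c b b' := fun b hb => md1_ex (mem_Qs.1 hb).1.2
  choose! f hf using hex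
  obtain ⟨ρ, hρ⟩ := (hW.t1facts hG).exists_rho hG hW.nice
  have hinj : Set.InjOn f (Qs G c 0 : Set V) := by
    intro x hx y hy hxy
    have h1 := hf x (Finset.mem_coe.1 hx)
    have h2 := hf y (Finset.mem_coe.1 hy)
    rw [hxy] at h1
    exact nice_uniq hc (ma_symm h1) (ma_symm h2)
  have h1 := hW.q0_free hG hρ ((Qs G c 0).image f) ?_
  · rw [Finset.card_image_of_injOn hinj] at h1
    omega
  intro b' hb'
  obtain ⟨b, hb, rfl⟩ := Finset.mem_image.1 hb'
  set b' := f b with hb'd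
  have hbb : MA G c b b' := hf b hb
  have hbw := (mem_Qs.1 hb).1
  have cb := hbw.1
  have cb' := MA_col hbb cb
  have hb'w : IsW1 G c b' := ⟨cb', md1_of hc (ma_symm hbb)⟩
  obtain ⟨a, ar, _, hab', _, ca, _, hNb⟩ := mate_nbs hG hc hbb
  rw [cb] at ca
  have ca' : c a = false := by simpa using ca
  have hba : G.Adj b a := (hNb a).2 (by simp)
  have ha := Q0_nb hc hb hba ca'
  obtain ⟨b₂, a₂, y, y₂, hb₂, d1, hnb, haa, hN, hN₂, hy, hy₂⟩ := hC b hb a hba ca'
  have hb₂w := (mem_Qs.1 hb₂).1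
  obtain ⟨b₂', hb₂'⟩ := md1_ex hb₂w.2
  have cb₂' := MA_col hb₂' hb₂w.1
  have h2w : G.Adj a₂ b := (hN₂ b).2 (by simp)
  have h2b : G.Adj a₂ b₂ := (hN₂ b₂).2 (by simp)
  have h2y : G.Adj a₂ y₂ := (hN₂ y₂).2 (by simp)
  have hab₂ : G.Adj a b₂ := (hN b₂).2 (by simp)
  have hay : G.Adj a y := (hN y).2 (by simp)
  have ca₂ : c a₂ = false := by
    rcases h' : c a₂ with _ | _
    · rfl
    · exfalso
      have t1 : MA G c a₂ b := ⟨h2w, by rw [h', cb]⟩
      have t2 : MA G c a₂ b₂ := ⟨h2b, by rw [h', hb₂w.1]⟩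
      exact d1 (nice_uniq hc t1 t2)
  have ha₂ := Q0_nb hc hb h2w.symm ca₂
  have hb'b₂ : b' ≠ b₂ := fun e => hnb (e ▸ hbb.1)
  obtain ⟨e1, e2, e3, e4⟩ := pair_ne hc hbb hb₂' d1 hb'b₂
  have hn0 : b' ∉ Qs G c 0 := hW.blkmate hG hbb hb₂' cb hb₂w.1 ha ha₂ haa hN hN₂ hy hy₂ d1 hb'b₂
  have hn1 : b' ∉ Qs G c 1 := by
    rw [hQ1]
    simp
  have hnB : nB1 G c b' ≤ 2 := by
    rw [nB1_eq]
    exact nn_B1_le hG hb'w
  have hb'2 : b' ∈ Qs G c 2 := by
    refine mem_Qs.2 ⟨hb'w, ?_⟩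
    have t0 : nB1 G c b' ≠ 0 := fun e => hn0 (mem_Qs.2 ⟨hb'w, e⟩)
    have t1 : nB1 G c b' ≠ 1 := fun e => hn1 (mem_Qs.2 ⟨hb'w, e⟩)
    omega
  -- a black matched vertex is not adjacent to a source
  have hsrc : ∀ {s z : V}, s ∈ Qs G c 0 → IsB1 G c z → ¬ G.Adj z s := by
    intro s z hs hz hadj
    have := (Q0_nb hc hs hadj.symm hz.1).2
    rw [hz.2] at this
    omega
  have hT : ∀ {s s' z : V}, s ∈ Qs G c 0 → MA G c s s' → z ∈ T1s G c → ¬ G.Adj z s' := by
    intro s s' z hs hss hz hadj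
    obtain ⟨r, q, hr, hq, hrq, hr1, hq1⟩ := T1_vs hc hz
    have hzB := T1_B1 hz
    have cs' := MA_col hss (mem_Qs.1 hs).1.1
    have hs'1 : IsW1 G c s' := ⟨cs', md1_of hc (ma_symm hss)⟩
    by_cases h1 : s' = r
    · subst h1
      exact hsrc hs hzB (nice_uniq hc hrq (ma_symm hss) ▸ hq)
    · have h2 := hW.rule1 hG z s' r hzB hadj hr h1 hs'1 hr1
      have h3 : MA G c s' r := ⟨h2, by rw [cs', hr1.1]⟩
      exact hsrc hs hzB (nice_uniq hc h3 (ma_symm hss) ▸ hr)
  refine Or.inr (Or.inl ⟨hb'2, ?_, ?_⟩)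
  · rintro ⟨z, hz, hzb, -⟩
    exact hT hb hbb hz hzb
  · rintro h hbh hhB ⟨z, hz, hzh⟩
    obtain ⟨r, q, hr, hq, hrq, hr1, hq1⟩ := T1_vs hc hz
    have hzB := T1_B1 hz
    have rb : b ≠ r := fun e => hsrc hb hzB (e ▸ hr)
    have rb' : b' ≠ r := fun e => hT hb hbb hz (e ▸ hr)
    have rb₂ : b₂ ≠ r := fun e => hsrc hb₂ hzB (e ▸ hr)
    have rb₂' : b₂' ≠ r := fun e => hT hb₂ hb₂' hz (e ▸ hr)
    obtain ⟨f1, f2, f3, f4⟩ := pair_ne hc hbb hrq rb rb'
    obtain ⟨g1, g2, g3, g4⟩ := pair_ne hc hb₂' hrq rb₂ rb₂'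
    by_cases hyy : y = y₂
    · subst hyy
      refine hW.cert3 hG dCY_ok (e := fun i => [b, b', a, a₂, b₂, b₂', y].getD i b) ?_
      refine emb_mk hc [b, b', a, a₂, b₂, b₂', y] b
        [(0, 1), (0, 2), (0, 3), (2, 4), (3, 4), (4, 5), (2, 6), (3, 6)]
        [(0, 4), (0, 5), (1, 4), (1, 5), (2, 3)] [2, 3, 6] rfl (by decide) ?_ ?_ ?_ ?_
      · simp [hbb.1, hba, h2w.symm, hab₂, h2b, hb₂'.1, hay, h2y]
      · simp [e1, e2, e3, e4, haa]
      · simp [ha.2, ha₂.2, hy.2]
      · simp [cb, cb', hb₂w.1, cb₂', ca', ca₂, hy.1]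
        decide
    · refine hW.cert3 hG dCA_ok
        (e := fun i => [b, b', a, a₂, b₂, b₂', y, y₂, h, z, r, q].getD i b) ?_
      refine emb_mk hc [b, b', a, a₂, b₂, b₂', y, y₂, h, z, r, q] b
        [(0, 1), (0, 2), (0, 3), (2, 4), (3, 4), (4, 5), (2, 6), (3, 7), (1, 8), (8, 9), (9, 10),
          (9, 11), (10, 11)]
        [(0, 4), (0, 5), (1, 4), (1, 5), (0, 10), (0, 11), (1, 10), (1, 11), (4, 10), (4, 11),
          (5, 10), (5, 11), (2, 3), (6, 7)] [2, 3, 6, 7] rfl (by decide) ?_ ?_ ?_ ?_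
      · simp [hbb.1, hba, h2w.symm, hab₂, h2b, hb₂'.1, hay, h2y, hbh, hzh.1.symm, hr, hq, hrq.1]
      · simp [e1, e2, e3, e4, f1, f2, f3, f4, g1, g2, g3, g4, haa, hyy]
      · simp [ha.2, ha₂.2, hy.2, hy₂.2]
      · simp [cb, cb', hb₂w.1, cb₂', ca', ca₂, hy.1, hy₂.1, hhB.1, hzB.1, hr1.1, hq1.1]
        decide

/-- not all slots are exotic -/
theorem WL1.noXX (hG : Cub G) (hW : WL1 G c) (hQ1 : 24 ≤ (Qs G c 1).card)
    (hX : ∀ b ∈ Qs G c 0, ∀ a, G.Adj b a → c a = false → SlX2 G c b a) : False := by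
  have hc := hW.nice
  have h6 := hW.six hG
  obtain ⟨b, hb⟩ := Finset.card_pos.1 (by omega : 0 < (Qs G c 0).card)
  have hbw := (mem_Qs.1 hb).1
  obtain ⟨b', hbb⟩ := md1_ex hbw.2
  have cb := hbw.1
  have cb' := MA_col hbb cb
  obtain ⟨a, β, haβ, ha1, hβ1, ca, cβ, hNb⟩ := mate_nbs hG hW.nice hbb
  rw [cb] at ca cβ
  have ca' : c a = false := by simpa using ca
  have cβ' : c β = false := by simpa using cβ
  have hba : G.Adj b a := (hNb a).2 (by simp)
  have hbβ : G.Adj b β := (hNb β).2 (by simp)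
  have ha := Q0_nb hW.nice hb hba ca'
  have hβ := Q0_nb hW.nice hb hbβ cβ'
  obtain ⟨p, p', hpp, hbp, hbp', hNa, hpq, -⟩ := hX b hb a hba ca'
  obtain ⟨q, q', hqq, hbq, hbq', hNβ, hqq1, -⟩ := hX b hb β hbβ cβ'
  have hap : G.Adj a p := (hNa p).2 (by simp)
  have hap' : G.Adj a p' := (hNa p').2 (by simp)
  have hβq : G.Adj β q := (hNβ q).2 (by simp)
  have hβq' : G.Adj β q' := (hNβ q').2 (by simp)
  have cp := (mem_Qs.1 hpq).1.1
  have cq := (mem_Qs.1 hqq1).1.1
  have cp' := MA_col hpp cp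
  have cq' := MA_col hqq cq
  have hb'p : b' ≠ p := by
    rintro rfl
    exact hbp' (nice_uniq hW.nice (ma_symm hbb) hpp)
  have hb'q : b' ≠ q := by
    rintro rfl
    exact hbq' (nice_uniq hW.nice (ma_symm hbb) hqq)
  obtain ⟨e1, e2, e3, e4⟩ := pair_ne hW.nice hbb hpp hbp hb'p
  obtain ⟨f1, f2, f3, f4⟩ := pair_ne hW.nice hbb hqq hbq hb'q
  -- a vertex of `Q1` has only one neighbour in `B0`
  have key : G.Adj β p → False := by
    intro hβp
    obtain ⟨e, he1, he2, hNp, ce, he⟩ := cls hG hW.nice hpp cp hap.symm ha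
    have hβe : β = e := by
      rcases (hNp β).1 hβp.symm with h | h | h
      · exfalso
        subst h
        rw [cβ'] at cp'
        exact absurd cp' (by simp)
      · exact absurd h.symm haβ
      · exact h
    rcases he with ⟨he, -⟩ | ⟨-, he⟩
    · have := he.2
      rw [← hβe, hβ.2] at this
      exact absurd this (by simp)
    · have h1 := (mem_Qs.1 he).2
      have h2 := (mem_Qs.1 hpq).2
      omega
  have hpq1 : p ≠ q := by
    rintro rfl
    exact key hβq
  have hp'q : p' ≠ q := by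
    intro hh
    have : q' = p := nice_uniq hW.nice hqq (hh ▸ ma_symm hpp)
    exact key (this ▸ hβq')
  obtain ⟨g1, g2, g3, g4⟩ := pair_ne hW.nice hpp hqq hpq1 hp'q
  refine hW.cert hG true true [] (fun _ => h6) (fun _ => hQ1) dX_ok
    (e := fun i => [b, b', a, β, p, p', q, q'].getD i b) ?_ (by simp)
  refine emb_mk hW.nice [b, b', a, β, p, p', q, q'] b
    [(0, 1), (0, 2), (0, 3), (2, 4), (2, 5), (4, 5), (3, 6), (3, 7), (6, 7)]
    [(0, 4), (0, 5), (1, 4), (1, 5), (0, 6), (0, 7), (1, 6), (1, 7), (4, 6), (4, 7), (5, 6),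
      (5, 7), (2, 3)] [2, 3] rfl (by decide) ?_ ?_ ?_ ?_
  · simp [hbb.1, hba, hbβ, hap, hap', hpp.1, hβq, hβq', hqq.1]
  · simp [e1, e2, e3, e4, f1, f2, f3, f4, g1, g2, g3, g4, haβ]
  · simp [ha.2, hβ.2]
  · simp [cb, cb', cp, cp', cq, cq', ca', cβ']
    decide

/-- the level-1 world is impossible -/
theorem level1 (hC : Stmt_COUNT3) : Stmt_L1 := by
  intro V _ G hG hconn c hW
  have h6 := hW.six hG
  have hsl : ∀ b ∈ Qs G c 0, ∀ a, G.Adj b a → c a = false →
      SlM G c b a ∨ SlT G c b a ∨ SlX2 G c b a ∨ SlC2 G c b a := by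
    intro b hb a hba ca
    rcases hW.slots hG b hb a hba ca with h | h | h | h | h
    · exact Or.inl h
    · exact Or.inr (Or.inl h)
    · exact Or.inr (Or.inr (Or.inl h))
    · exact Or.inr (Or.inr (Or.inr h))
    · exact (hW.noAN hG hconn h).elim
  rcases hC V G hG c hW.nice h6 hsl with ⟨b, hb, a, hba, ca, hsl', v, hv, hd⟩ | ⟨h1, h2⟩ | ⟨h1, h2⟩
  · have h4 : Valid G (flp {b, a} c) ∧ st G (flp {b, a} c) univ - st G c univ = (0, 2, 2) := by
      rcases hsl' with ⟨x, y, d1, d2, d3, hN, hx, hbx, hy⟩ | ⟨b', x, hbb, d1, d2, hN, hx⟩ |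
        ⟨x, a₂, y, y₂, hx, d1, hbx, -, hN, -, hy, -⟩
      · exact H4_M hG hW.nice hb hba ca hN d1 hbx (mem_Qs.1 hx).1 hy
      · exact H4_T hG hW.nice hb hba ca hbb hN d1 d2 (mem_Qs.1 hx).1
      · exact H4_M hG hW.nice hb hba ca hN d1 hbx (mem_Qs.1 hx).1 hy
    obtain ⟨v1, v2⟩ := T4_tok hG hW.nice hv
    refine hW.bad ⟨flp ({b, a} ∪ {v}) c, two_valid hW.nice hd h4.1 v1, ?_⟩
    have h11 := two_st hW.nice hd
    rw [h4.2, v2, st_of_nice hW.nice, hW.lev2] at h11
    rw [sub_eq_iff_eq_add.1 h11]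
    rfl
  · exact hW.noCC hG h1 h2
  · exact hW.noXX hG h1 h2

end

end Pool.Agent.Work.MP_1e13ac_W
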