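import Pool.Agent.Work.MP_1e13ac_W.L1LDefs
import Pool.Agent.Work.MP_1e13ac_W.GDefs

/-!
# MP_1e13ac_co, full statement: leaf predicate of the level-1 world with genuine outers of T1
(helper50)
-/

set_option autoImplicit false

namespace Pool.Agent.Work.MP_1e13ac_W

noncomputable section

/-- leaf predicate of the level-1 world with the additional leaf: at least `n` genuine outers -/
def lfLG (tops : List Nat) (n : Nat) (A : PL) (col non act : Nat) : Bool :=
  orB (lfL false false [] A col non act)
    (andB (Nat.beq (Nat.mod act (nat_lit 8)) (nat_lit 7)) (Nat.ble n (genCnt A col tops)))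

end

end Pool.Agent.Work.MP_1e13ac_W
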