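import Pool.Agent.Work.MP_1e13ac_W.W1Sound
import Pool.Agent.Work.MP_1e13ac_W.Cert1

/-!
# MP_1e13ac_co, full statement: World 1, structure of the sources (helper50)
-/

set_option autoImplicit false
set_option linter.unusedSectionVars false

namespace Pool.Agent.Work.MP_1e13ac_W

open Classical Finset Pool.Agent.Work.MP_1e13ac_Bis

noncomputable section

variable {V : Type} [Fintype V] {G : SimpleGraph V} {c : V → Bool}

theorem pair_ne (hc : Nice G c) {x x' y y' : V} (h1 : MA G c x x') (h2 : MA G c y y')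
    (hxy : x ≠ y) (hx'y : x' ≠ y) : x ≠ y ∧ x ≠ y' ∧ x' ≠ y ∧ x' ≠ y' := by
  refine ⟨hxy, ?_, hx'y, ?_⟩
  · rintro rfl
    exact hx'y (nice_uniq hc h1 (ma_symm h2))
  · rintro rfl
    exact hxy (nice_uniq hc (ma_symm h1) (ma_symm h2))

theorem MA_col {x y : V} (h : MA G c x y) {b : Bool} (hx : c x = b) : c y = b := by
  rw [← h.2, hx]

/-- a white matched vertex adjacent to a vertex of `B0` is in `Q0` or `Q1` -/
theorem cls (hG : Cub G) (hc : Nice G c) {x x' a : V} (hx : MA G c x x') (hcx : c x = true)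
    (hxa : G.Adj x a) (ha : IsB0 G c a) :
    ∃ d, d ≠ x' ∧ d ≠ a ∧ (∀ z, G.Adj x z ↔ z = x' ∨ z = a ∨ z = d) ∧ c d = false ∧
      ((IsB1 G c d ∧ x ∈ Qs G c 1) ∨ (IsB0 G c d ∧ x ∈ Qs G c 0)) := by
  have hx'a : x' ≠ a := by
    rintro rfl
    have := MA_col hx hcx
    rw [ha.1] at this
    exact absurd this (by simp)
  obtain ⟨d, hd1, hd2, hN⟩ := cub2 hG hx.1 hxa hx'a
  have hcd : c d = false := by
    by_contra hh
    exact hd1 (nice_uniq hc ⟨(hN d).2 (Or.inr (Or.inr rfl)), by rw [hcx]; symm; simpa using hh⟩ hx)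
  refine ⟨d, hd1, hd2, hN, hcd, ?_⟩
  have hnb : (nbs G x).filter (fun y => IsB1 G c y) = if IsB1 G c d then {d} else ∅ := by
    ext z
    rw [Finset.mem_filter, mem_nbs, hN z]
    constructor
    · rintro ⟨h1, h2⟩
      rcases h1 with rfl | rfl | rfl
      · have := MA_col hx hcx
        rw [h2.1] at this
        exact absurd this (by simp)
      · have h3 := h2.2
        rw [ha.2] at h3
        exact absurd h3 (by simp)
      · rw [if_pos h2]
        simp
    · intro hz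
      split_ifs at hz with h1
      · rw [Finset.mem_singleton] at hz
        subst hz
        exact ⟨by simp, h1⟩
      · simp at hz
  have hd := hc d
  by_cases h0 : md G c d = 0
  · refine Or.inr ⟨⟨hcd, h0⟩, mem_Qs.2 ⟨⟨hcx, md1_of hc hx⟩, ?_⟩⟩
    unfold nB1
    rw [hnb, if_neg]
    · simp
    · rintro ⟨-, h1⟩
      omega
  · refine Or.inl ⟨⟨hcd, by omega⟩, mem_Qs.2 ⟨⟨hcx, md1_of hc hx⟩, ?_⟩⟩
    unfold nB1
    rw [hnb, if_pos ⟨hcd, by omega⟩]
    simp

/-- the neighbours of a vertex of `B0` are white -/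
theorem B0_nb {a x : V} (ha : IsB0 G c a) (h : G.Adj a x) : c x = true := by
  by_contra hh
  exact md0_no ha.2 (y := x) ⟨h, by rw [ha.1]; symm; simpa using hh⟩

/-! ## Rules -/

theorem World1.rule1 (hG : Cub G) (hW : World1 G c) : Rule1 G c := by
  intro z p q hz hzp hzq hpq hp hq
  by_contra hadj
  obtain ⟨z', hz'⟩ := md1_ex hz.2
  obtain ⟨p', hp'⟩ := md1_ex hp.2
  obtain ⟨q', hq'⟩ := md1_ex hq.2
  have h1 : p' ≠ q := by
    rintro rfl
    exact hadj hp'.1
  obtain ⟨-, h2, -, h3⟩ := pair_ne hW.nice hp' hq' hpq h1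
  have cz' := MA_col hz' hz.1
  have cp' := MA_col hp' hp.1
  have cq' := MA_col hq' hq.1
  refine hW.cert hG false (by simp) cRule_ok (e := fun i => [z, z', p, q, p', q'].getD i z) ?_
  refine emb_mk hW.nice [z, z', p, q, p', q'] z [(0, 1), (0, 2), (0, 3), (2, 4), (3, 5)]
    [(2, 3), (2, 5), (3, 4), (4, 5)] [] rfl (by decide) ?_ ?_ ?_ ?_
  · simp [hz'.1, hzp, hzq, hp'.1, hq'.1]
  · simp [hpq, h2, h1.symm, h3]
  · simp
  · simp [hz.1, hp.1, hq.1, cz', cp', cq']
    decide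

/-- swapped rule: two neighbours in `B1` of a vertex of `W1` are adjacent -/
theorem World1.ruleS (hG : Cub G) (hW : World1 G c) {z p q : V} (hz : IsW1 G c z)
    (hzp : G.Adj z p) (hzq : G.Adj z q) (hpq : p ≠ q) (hp : IsB1 G c p) (hq : IsB1 G c q) :
    MA G c p q := by
  refine ⟨?_, by rw [hp.1, hq.1]⟩
  by_contra hadj
  obtain ⟨z', hz'⟩ := md1_ex hz.2
  obtain ⟨p', hp'⟩ := md1_ex hp.2
  obtain ⟨q', hq'⟩ := md1_ex hq.2
  have h1 : p' ≠ q := by
    rintro rfl
    exact hadj hp'.1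
  obtain ⟨-, h2, -, h3⟩ := pair_ne hW.nice hp' hq' hpq h1
  have cz' := MA_col hz' hz.1
  have cp' := MA_col hp' hp.1
  have cq' := MA_col hq' hq.1
  refine hW.cert hG false (by simp) cRuleS_ok (e := fun i => [z, z', p, q, p', q'].getD i z) ?_
  refine emb_mk hW.nice [z, z', p, q, p', q'] z [(0, 1), (0, 2), (0, 3), (2, 4), (3, 5)]
    [(2, 3), (2, 5), (3, 4), (4, 5)] [] rfl (by decide) ?_ ?_ ?_ ?_
  · simp [hz'.1, hzp, hzq, hp'.1, hq'.1]
  · simp [hpq, h2, h1.symm, h3]
  · simp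
  · simp [hz.1, hp.1, hq.1, cz', cp', cq']
    decide

theorem World1.clA (hG : Cub G) (hW : World1 G c) : ClA G c := by
  intro z z' p p' q hz hz' hzp hzp' hpp hp hz'q hq
  by_contra hh
  push Not at hh
  obtain ⟨q', hq'⟩ := md1_ex hq.2
  obtain ⟨h1, h2, h3, h4⟩ := pair_ne hW.nice hpp hq' hh.1.symm hh.2.symm
  have cz' := MA_col hz' hz
  have cp' := MA_col hpp hp
  have cq' := MA_col hq' hq.1
  refine hW.cert hG false (by simp) cA_ok (e := fun i => [z, z', p, p', q, q'].getD i z) ?_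
  refine emb_mk hW.nice [z, z', p, p', q, q'] z
    [(0, 1), (0, 2), (0, 3), (2, 3), (1, 4), (4, 5)]
    [(2, 4), (2, 5), (3, 4), (3, 5)] [] rfl (by decide) ?_ ?_ ?_ ?_
  · simp [hz'.1, hzp, hzp', hpp.1, hz'q, hq'.1]
  · simp [h1, h2, h3, h4]
  · simp
  · simp [hz, hp, hq.1, cz', cp', cq']
    decide

section Src

variable (hG : Cub G) (hW : World1 G c) (hq : 6 ≤ (Qs G c 0).card)

include hG hW hq

theorem World1.noA3 {b b' x x' y y' a : V} (hb : MA G c b b') (hx : MA G c x x')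
    (hy : MA G c y y') (cb : c b = true) (cx : c x = true) (cy : c y = true)
    (ha : IsB0 G c a) (h1 : G.Adj a b) (h2 : G.Adj a x) (h3 : G.Adj a y) (d1 : b ≠ x)
    (d2 : b' ≠ x) (d3 : b ≠ y) (d4 : b' ≠ y) (d5 : x ≠ y) (d6 : x' ≠ y) : False := by
  obtain ⟨e1, e2, e3, e4⟩ := pair_ne hW.nice hb hx d1 d2
  obtain ⟨f1, f2, f3, f4⟩ := pair_ne hW.nice hb hy d3 d4
  obtain ⟨g1, g2, g3, g4⟩ := pair_ne hW.nice hx hy d5 d6
  have cb' := MA_col hb cb
  have cx' := MA_col hx cx
  have cy' := MA_col hy cy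
  refine hW.cert hG true (fun _ => hq) cA3_ok (e := fun i => [b, b', a, x, x', y, y'].getD i b) ?_
  refine emb_mk hW.nice [b, b', a, x, x', y, y'] b
    [(0, 1), (0, 2), (2, 3), (3, 4), (2, 5), (5, 6)]
    [(0, 3), (0, 4), (1, 3), (1, 4), (0, 5), (0, 6), (1, 5), (1, 6), (3, 5), (3, 6), (4, 5),
      (4, 6)] [2] rfl (by decide) ?_ ?_ ?_ ?_
  · simp [hb.1, h1.symm, h2, hx.1, h3, hy.1]
  · simp [e1, e2, e3, e4, f1, f2, f3, f4, g1, g2, g3, g4]
  · simp [ha.2]
  · simp [cb, cx, cy, cb', cx', cy', ha.1]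
    decide

/-- two black neighbours of a source and its mate -/
theorem World1.noCp {b b' x x' a β : V} (hb : MA G c b b') (hx : MA G c x x')
    (cb : c b = true) (cx : c x = true) (ha : IsB0 G c a) (hβ : IsB0 G c β) (haβ : a ≠ β)
    (h1 : G.Adj b a) (h2 : G.Adj b β) (h3 : G.Adj b' a) (h4 : G.Adj x a) (h5 : G.Adj x β)
    (d1 : b ≠ x) (d2 : b' ≠ x) : False := by
  obtain ⟨e1, e2, e3, e4⟩ := pair_ne hW.nice hb hx d1 d2
  have cb' := MA_col hb cb
  have cx' := MA_col hx cx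
  refine hW.cert hG true (fun _ => hq) cCp_ok (e := fun i => [b, b', a, β, x, x'].getD i b) ?_
  refine emb_mk hW.nice [b, b', a, β, x, x'] b
    [(0, 1), (0, 2), (0, 3), (1, 2), (2, 4), (4, 5), (3, 4)]
    [(0, 4), (0, 5), (1, 4), (1, 5), (2, 3)] [2, 3] rfl (by decide) ?_ ?_ ?_ ?_
  · simp [hb.1, h1, h2, h3, h4.symm, hx.1, h5.symm]
  · simp [e1, e2, e3, e4, haβ]
  · simp [ha.2, hβ.2]
  · simp [cb, cx, cb', cx', ha.1, hβ.1]
    decide

/-- slot with the mate of the source -/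
theorem World1.caseT {b b' a β x : V} (hb : b ∈ Qs G c 0) (hbb : MA G c b b')
    (ha : IsB0 G c a) (hβ : IsB0 G c β) (haβ : a ≠ β) (h1 : G.Adj b a) (h2 : G.Adj b β)
    (hN : ∀ z, G.Adj a z ↔ z = b ∨ z = b' ∨ z = x) (d1 : x ≠ b) (d2 : x ≠ b') :
    SlT G c b a := by
  have cb := (mem_Qs.1 hb).1.1
  have cb' := MA_col hbb cb
  have hax : G.Adj a x := (hN x).2 (by simp)
  have hab' : G.Adj a b' := (hN b').2 (by simp)
  have cx := B0_nb ha hax
  by_cases hx0 : md G c x = 0
  · exfalso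
    refine hW.cert hG true (fun _ => hq) cE2_ok (e := fun i => [b, b', a, β, x].getD i b) ?_
    refine emb_mk hW.nice [b, b', a, β, x] b
      [(0, 1), (0, 2), (0, 3), (1, 2), (2, 4)] [(2, 3)] [2, 3, 4] rfl (by decide) ?_ ?_ ?_ ?_
    · simp [hbb.1, h1, h2, hab'.symm, hax]
    · simp [haβ]
    · simp [ha.2, hβ.2, hx0]
    · simp [cb, cx, cb', ha.1, hβ.1]
      decide
  · have hx1 : md G c x = 1 := by
      have := hW.nice x
      omega
    obtain ⟨x', hx'⟩ := md1_ex hx1
    obtain ⟨e, he1, he2, hNx, ce, he⟩ := cls hG hW.nice hx' cx hax.symm ha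
    rcases he with ⟨-, he⟩ | ⟨he, hxq⟩
    · exact ⟨b', x, hbb, d1, d2, hN, he⟩
    · exfalso
      have hxe : G.Adj x e := (hNx e).2 (by simp)
      by_cases heβ : e = β
      · subst heβ
        exact hW.noCp hG hq hbb hx' cb cx ha hβ haβ h1 h2 hab'.symm hax.symm hxe d1.symm d2.symm
      · obtain ⟨e1, e2, e3, e4⟩ := pair_ne hW.nice hbb hx' d1.symm d2.symm
        have cx' := MA_col hx' cx
        refine hW.cert hG true (fun _ => hq) cT_ok
          (e := fun i => [b, b', a, β, x, x', e].getD i b) ?_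
        refine emb_mk hW.nice [b, b', a, β, x, x', e] b
          [(0, 1), (0, 2), (0, 3), (1, 2), (2, 4), (4, 5), (4, 6)]
          [(0, 4), (0, 5), (1, 4), (1, 5), (2, 3), (2, 6), (3, 6)] [2, 3, 6] rfl (by decide)
          ?_ ?_ ?_ ?_
        · simp [hbb.1, h1, h2, hab'.symm, hax, hx'.1, hxe]
        · simp [e1, e2, e3, e4, haβ, he2.symm, Ne.symm heβ]
        · simp [ha.2, hβ.2, he.2]
        · simp [cb, cx, cb', cx', ha.1, hβ.1, ce]
          decide

/-- the mate of a vertex of a block is in `Q1` -/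
theorem World1.blkmate {b b' x x' a β y z : V} (hbb : MA G c b b') (hx' : MA G c x x')
    (cb : c b = true) (cx : c x = true) (ha : IsB0 G c a) (hβ : IsB0 G c β) (haβ : a ≠ β)
    (hNa : ∀ w, G.Adj a w ↔ w = b ∨ w = x ∨ w = y) (hNβ : ∀ w, G.Adj β w ↔ w = b ∨ w = x ∨ w = z)
    (hy : IsW0 G c y) (hz : IsW0 G c z) (d1 : b ≠ x) (d2 : b' ≠ x) : b' ∈ Qs G c 1 := by
  have cb' := MA_col hbb cb
  have cx' := MA_col hx' cx
  obtain ⟨g, h, hgh, hgb, hhb, cg, ch, hN⟩ := mate_nbs hG hW.nice (ma_symm hbb)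
  rw [cb'] at cg ch
  have cg' : c g = false := by simpa using cg
  have ch' : c h = false := by simpa using ch
  obtain ⟨e1, e2, e3, e4⟩ := pair_ne hW.nice hbb hx' d1 d2
  have hb'y : b' ≠ y := by
    rintro rfl
    exact md0_no hy.2 (ma_symm hbb)
  have hb'z : b' ≠ z := by
    rintro rfl
    exact md0_no hz.2 (ma_symm hbb)
  have hb'b : b' ≠ b := hbb.1.ne'
  have nab' : ¬ G.Adj a b' := by
    rw [hNa]
    simp [hb'b, d2, hb'y]
  have nβb' : ¬ G.Adj β b' := by
    rw [hNβ]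
    simp [hb'b, d2, hb'z]
  have hb'g : G.Adj b' g := (hN g).2 (by simp)
  have hb'h : G.Adj b' h := (hN h).2 (by simp)
  have hga : g ≠ a := by
    rintro rfl
    exact nab' hb'g.symm
  have hgβ : g ≠ β := by
    rintro rfl
    exact nβb' hb'g.symm
  have hha : h ≠ a := by
    rintro rfl
    exact nab' hb'h.symm
  have hhβ : h ≠ β := by
    rintro rfl
    exact nβb' hb'h.symm
  have hab : G.Adj a b := (hNa b).2 (by simp)
  have hax : G.Adj a x := (hNa x).2 (by simp)
  have hβb : G.Adj β b := (hNβ b).2 (by simp)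
  have hβx : G.Adj β x := (hNβ x).2 (by simp)
  have mg := hW.nice g
  have mh := hW.nice h
  by_cases hg0 : md G c g = 0
  · obtain ⟨e, he1, he2, hNb', ce, he⟩ := cls hG hW.nice (ma_symm hbb) cb' hb'g ⟨cg', hg0⟩
    rcases he with ⟨-, he⟩ | ⟨he, hxq⟩
    · exact he
    · exfalso
      have heh : e = h := by
        have h1 := (hNb' h).1 hb'h
        rcases h1 with h1 | h1 | h1
        · exact absurd h1 hhb
        · exact absurd h1.symm hgh
        · exact h1.symm
      subst heh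
      refine hW.cert hG true (fun _ => hq) cW1C1_ok
        (e := fun i => [b, b', a, β, x, x', g, e].getD i b) ?_
      refine emb_mk hW.nice [b, b', a, β, x, x', g, e] b
        [(0, 1), (0, 2), (0, 3), (2, 4), (3, 4), (4, 5), (1, 6), (1, 7)]
        [(0, 4), (0, 5), (1, 4), (1, 5), (2, 3), (2, 6), (3, 6), (2, 7), (3, 7), (6, 7)]
        [2, 3, 6, 7] rfl (by decide) ?_ ?_ ?_ ?_
      · simp [hbb.1, hab.symm, hβb.symm, hax, hβx, hx'.1, hb'g, hb'h]
      · simp [e1, e2, e3, e4, haβ, hga.symm, hgβ.symm, hha.symm, hhβ.symm, hgh]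
      · simp [ha.2, hβ.2, he.2, hg0]
      · simp [cb, cx, cb', cx', ha.1, hβ.1, cg', ch']
        decide
  · by_cases hh0 : md G c h = 0
    · obtain ⟨e, he1, he2, hNb', ce, he⟩ := cls hG hW.nice (ma_symm hbb) cb' hb'h ⟨ch', hh0⟩
      rcases he with ⟨-, he⟩ | ⟨he, hxq⟩
      · exact he
      · exfalso
        have heg : e = g := by
          have h1 := (hNb' g).1 hb'g
          rcases h1 with h1 | h1 | h1
          · exact absurd h1 hgb
          · exact absurd h1 hgh
          · exact h1.symm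
        rw [heg] at he
        exact hg0 he.2
    · exfalso
      have hMA := hW.ruleS hG ⟨cb', md1_of hW.nice (ma_symm hbb)⟩ hb'g hb'h hgh
        ⟨cg', by omega⟩ ⟨ch', by omega⟩
      refine hW.cert hG true (fun _ => hq) cC2_ok
        (e := fun i => [b, b', a, β, x, x', g, h].getD i b) ?_
      refine emb_mk hW.nice [b, b', a, β, x, x', g, h] b
        [(0, 1), (0, 2), (0, 3), (2, 4), (3, 4), (4, 5), (1, 6), (1, 7), (6, 7)]
        [(0, 4), (0, 5), (1, 4), (1, 5), (2, 3)]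
        [2, 3] rfl (by decide) ?_ ?_ ?_ ?_
      · simp [hbb.1, hab.symm, hβb.symm, hax, hβx, hx'.1, hb'g, hb'h, hMA.1]
      · simp [e1, e2, e3, e4, haβ]
      · simp [ha.2, hβ.2]
      · simp [cb, cx, cb', cx', ha.1, hβ.1, cg', ch']
        decide

/-- slot with a matched white and an isolated white vertex -/
theorem World1.caseM {b b' a β x y : V} (hb : b ∈ Qs G c 0) (hbb : MA G c b b')
    (ha : IsB0 G c a) (hβ : IsB0 G c β) (haβ : a ≠ β) (h1 : G.Adj b a) (h2 : G.Adj b β)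
    (hN : ∀ z, G.Adj a z ↔ z = b ∨ z = x ∨ z = y) (d1 : b ≠ x) (d2 : b' ≠ x) (d3 : b ≠ y)
    (d4 : x ≠ y) (hx1 : IsW1 G c x) (hy : IsW0 G c y) : SlM G c b a ∨ SlC G c b a := by
  have cb := (mem_Qs.1 hb).1.1
  have cb' := MA_col hbb cb
  have hax : G.Adj a x := (hN x).2 (by simp)
  have hay : G.Adj a y := (hN y).2 (by simp)
  have cx := hx1.1
  obtain ⟨x', hx'⟩ := md1_ex hx1.2
  obtain ⟨e1, e2, e3, e4⟩ := pair_ne hW.nice hbb hx' d1 d2
  have cx' := MA_col hx' cx
  obtain ⟨e, he1, he2, hNx, ce, he⟩ := cls hG hW.nice hx' cx hax.symm ha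
  have nbx : ¬ G.Adj b x := fun hh => d2 (nice_uniq hW.nice hbb ⟨hh, by rw [cb, cx]⟩)
  rcases he with ⟨-, he⟩ | ⟨he, hxq⟩
  · exact Or.inl ⟨x, y, d1, d3, d4, hN, he, nbx, hy⟩
  · right
    have hxe : G.Adj x e := (hNx e).2 (by simp)
    by_cases heβ : e = β
    · subst heβ
      obtain ⟨z, hz1, hz2, hNe⟩ := cub2 hG h2.symm hxe.symm d1
      have hez : G.Adj e z := (hNe z).2 (by simp)
      have cz := B0_nb hβ hez
      by_cases hz0 : md G c z = 0
      · refine ⟨x, e, y, z, hxq, d1, nbx, haβ, hN, hNe, hy, ⟨cz, hz0⟩, ?_, ?_⟩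
        · intro w hw
          rw [nice_uniq hW.nice hw hbb]
          exact hW.blkmate hG hq hbb hx' cb cx ha hβ haβ hN hNe hy ⟨cz, hz0⟩ d1 d2
        · intro w hw
          rw [nice_uniq hW.nice hw hx']
          refine hW.blkmate hG hq (b := x) (b' := x') (x := b) (x' := b') (a := a) (β := e)
            (y := y) (z := z) hx' hbb cx cb ha hβ haβ ?_ ?_ hy ⟨cz, hz0⟩ d1.symm ?_
          · intro w
            rw [hN w]
            tauto
          · intro w
            rw [hNe w]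
            tauto
          · exact e2.symm
      · exfalso
        have hz1' : md G c z = 1 := by
          have := hW.nice z
          omega
        obtain ⟨z', hz'⟩ := md1_ex hz1'
        by_cases hzb' : z = b'
        · subst hzb'
          exact hW.noCp hG hq hbb hx' cb cx hβ ha haβ.symm h2 h1 hez.symm hxe hax.symm d1 d2
        · by_cases hzx' : z = x'
          · subst hzx'
            exact hW.noCp hG hq hx' hbb cx cb hβ ha haβ.symm hxe hax.symm hez.symm h2 h1
              d1.symm e2.symm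
          · exact hW.noA3 hG hq hbb hx' hz' cb cx cz hβ h2.symm hxe.symm hez d1 d2 hz1.symm
              (Ne.symm hzb') hz2.symm (Ne.symm hzx')
    · exfalso
      refine hW.cert hG true (fun _ => hq) cR_ok
        (e := fun i => [b, b', a, β, x, x', e, y].getD i b) ?_
      refine emb_mk hW.nice [b, b', a, β, x, x', e, y] b
        [(0, 1), (0, 2), (0, 3), (2, 4), (4, 5), (4, 6), (2, 7)]
        [(0, 4), (0, 5), (1, 4), (1, 5), (2, 3), (2, 6), (3, 6)] [2, 3, 6, 7] rfl (by decide)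
        ?_ ?_ ?_ ?_
      · simp [hbb.1, h1, h2, hax, hx'.1, hxe, hay]
      · simp [e1, e2, e3, e4, haβ, he2.symm, Ne.symm heβ]
      · simp [ha.2, hβ.2, he.2, hy.2]
      · simp [cb, cx, cb', cx', ha.1, hβ.1, ce, hy.1]
        decide

/-- slot with two matched white vertices -/
theorem World1.caseX {b b' a β x y : V} (hb : b ∈ Qs G c 0) (hbb : MA G c b b')
    (ha : IsB0 G c a) (hβ : IsB0 G c β) (haβ : a ≠ β) (h1 : G.Adj b a) (h2 : G.Adj b β)
    (hN : ∀ z, G.Adj a z ↔ z = b ∨ z = x ∨ z = y) (d1 : b ≠ x) (d2 : b' ≠ x) (d3 : b ≠ y)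
    (d3' : b' ≠ y) (d4 : x ≠ y) (hx1 : IsW1 G c x) (hy1 : IsW1 G c y) : SlX G c b a := by
  have cb := (mem_Qs.1 hb).1.1
  have cb' := MA_col hbb cb
  have hax : G.Adj a x := (hN x).2 (by simp)
  have hay : G.Adj a y := (hN y).2 (by simp)
  have cx := hx1.1
  have cy := hy1.1
  obtain ⟨x', hx'⟩ := md1_ex hx1.2
  obtain ⟨y', hy'⟩ := md1_ex hy1.2
  by_cases hxy : x' = y
  · subst hxy
    obtain ⟨e, he1, he2, hNx, ce, he⟩ := cls hG hW.nice hx' cx hax.symm ha
    obtain ⟨f, hf1, hf2, hNy, cf, hf⟩ := cls hG hW.nice (ma_symm hx') cy hay.symm ha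
    rcases he with ⟨-, he⟩ | ⟨he, hxq⟩
    · exact ⟨x, x', hx', d1, d3, hN, he⟩
    · rcases hf with ⟨-, hf⟩ | ⟨hf, hyq⟩
      · refine ⟨x', x, ma_symm hx', d3, d1, ?_, hf⟩
        intro z
        rw [hN z]
        tauto
      · exfalso
        have hxe : G.Adj x e := (hNx e).2 (by simp)
        have hyf : G.Adj x' f := (hNy f).2 (by simp)
        by_cases heβ : e = β
        · by_cases hfβ : f = β
          · subst heβ
            subst hfβ
            refine hW.cert hG true (fun _ => hq) cW33_ok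
              (e := fun i => [b, b', a, f, x, x'].getD i b) ?_
            refine emb_mk hW.nice [b, b', a, f, x, x'] b
              [(0, 1), (0, 2), (0, 3), (2, 4), (2, 5), (4, 5), (3, 4), (3, 5)]
              [(0, 4), (0, 5), (1, 4), (1, 5), (2, 3)] [2, 3] rfl (by decide) ?_ ?_ ?_ ?_
            · simp [hbb.1, h1, h2, hax, hay, hx'.1, hxe.symm, hyf.symm]
            · simp [d1, d2, d3, d3', haβ]
            · simp [ha.2, hβ.2]
            · simp [cb, cx, cb', cy, ha.1, hβ.1]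
              decide
          · refine hW.cert hG true (fun _ => hq) cWp_ok
              (e := fun i => [b, b', a, β, x', x, f].getD i b) ?_
            refine emb_mk hW.nice [b, b', a, β, x', x, f] b
              [(0, 1), (0, 2), (0, 3), (2, 4), (2, 5), (4, 5), (4, 6)]
              [(0, 4), (0, 5), (1, 4), (1, 5), (2, 3), (2, 6), (3, 6)] [2, 3, 6] rfl (by decide)
              ?_ ?_ ?_ ?_
            · simp [hbb.1, h1, h2, hax, hay, hx'.1.symm, hyf]
            · simp [d1, d2, d3, d3', haβ, hf2.symm, Ne.symm hfβ]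
            · simp [ha.2, hβ.2, hf.2]
            · simp [cb, cx, cb', cy, ha.1, hβ.1, cf]
              decide
        · refine hW.cert hG true (fun _ => hq) cWp_ok
            (e := fun i => [b, b', a, β, x, x', e].getD i b) ?_
          refine emb_mk hW.nice [b, b', a, β, x, x', e] b
            [(0, 1), (0, 2), (0, 3), (2, 4), (2, 5), (4, 5), (4, 6)]
            [(0, 4), (0, 5), (1, 4), (1, 5), (2, 3), (2, 6), (3, 6)] [2, 3, 6] rfl (by decide)
            ?_ ?_ ?_ ?_
          · simp [hbb.1, h1, h2, hax, hay, hx'.1, hxe]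
          · simp [d1, d2, d3, d3', haβ, he2.symm, Ne.symm heβ]
          · simp [ha.2, hβ.2, he.2]
          · simp [cb, cx, cb', cy, ha.1, hβ.1, ce]
            decide
  · exact absurd (hW.noA3 hG hq hbb hx' hy' cb cx cy ha h1.symm hax hay d1 d2 d3 d3' d4 hxy) id

/-- all slots of a source -/
theorem World1.slots : ∀ b ∈ Qs G c 0, ∀ a, G.Adj b a → c a = false →
    SlM G c b a ∨ SlT G c b a ∨ SlX G c b a ∨ SlC G c b a := by
  intro b hb a hba ca
  have hbw := (mem_Qs.1 hb).1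
  have ha := Q0_nb hW.nice hb hba ca
  obtain ⟨b', hbb⟩ := md1_ex hbw.2
  have cb := hbw.1
  have cb' := MA_col hbb cb
  have hb'a : b' ≠ a := by
    rintro rfl
    rw [ca] at cb'
    exact absurd cb' (by simp)
  obtain ⟨β, hβ1, hβ2, hNb⟩ := cub2 hG hbb.1 hba hb'a
  have hbβ : G.Adj b β := (hNb β).2 (by simp)
  have cβ : c β = false := by
    by_contra hh
    exact hβ1 (nice_uniq hW.nice ⟨hbβ, by rw [cb]; symm; simpa using hh⟩ hbb)
  have hβ := Q0_nb hW.nice hb hbβ cβ
  obtain ⟨x, y, hxy, hxb, hyb, hN⟩ := cub1 hG hba.symm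
  have hax : G.Adj a x := (hN x).2 (by simp)
  have hay : G.Adj a y := (hN y).2 (by simp)
  have cx := B0_nb ha hax
  have cy := B0_nb ha hay
  have hN' : ∀ z, G.Adj a z ↔ z = b ∨ z = y ∨ z = x := by
    intro z
    rw [hN z]
    tauto
  by_cases hx' : x = b'
  · subst hx'
    exact Or.inr (Or.inl (hW.caseT hG hq hb hbb ha hβ hβ2.symm hba hbβ hN hyb hxy.symm))
  · by_cases hy' : y = b'
    · subst hy'
      exact Or.inr (Or.inl (hW.caseT hG hq hb hbb ha hβ hβ2.symm hba hbβ hN' hxb hxy))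
    · have mx := hW.nice x
      have my := hW.nice y
      by_cases hx0 : md G c x = 0
      · by_cases hy0 : md G c y = 0
        · exfalso
          refine hW.cert hG true (fun _ => hq) cE1_ok (e := fun i => [b, b', a, β, x, y].getD i b) ?_
          refine emb_mk hW.nice [b, b', a, β, x, y] b
            [(0, 1), (0, 2), (0, 3), (2, 4), (2, 5)] [(2, 3), (4, 5)] [2, 3, 4, 5] rfl (by decide)
            ?_ ?_ ?_ ?_
          · simp [hbb.1, hba, hbβ, hax, hay]
          · simp [hβ2.symm, hxy]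
          · simp [ha.2, hβ.2, hx0, hy0]
          · simp [cb, cx, cb', cy, ca, cβ]
            decide
        · rcases hW.caseM hG hq hb hbb ha hβ hβ2.symm hba hbβ hN' hyb.symm (Ne.symm hy') hxb.symm
            hxy.symm ⟨cy, by omega⟩ ⟨cx, hx0⟩ with h | h
          · exact Or.inl h
          · exact Or.inr (Or.inr (Or.inr h))
      · by_cases hy0 : md G c y = 0
        · rcases hW.caseM hG hq hb hbb ha hβ hβ2.symm hba hbβ hN hxb.symm (Ne.symm hx') hyb.symm
            hxy ⟨cx, by omega⟩ ⟨cy, hy0⟩ with h | h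
          · exact Or.inl h
          · exact Or.inr (Or.inr (Or.inr h))
        · exact Or.inr (Or.inr (Or.inl (hW.caseX hG hq hb hbb ha hβ hβ2.symm hba hbβ hN hxb.symm
            (Ne.symm hx') hyb.symm (Ne.symm hy') hxy ⟨cx, by omega⟩ ⟨cy, by omega⟩)))

/-- a source has a slot which is not exotic -/
theorem World1.notXX : ∀ b ∈ Qs G c 0, ∃ a, G.Adj b a ∧ c a = false ∧ ¬ SlX G c b a := by
  intro b hb
  by_contra hcon
  push Not at hcon
  have hbw := (mem_Qs.1 hb).1
  obtain ⟨b', hbb⟩ := md1_ex hbw.2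
  have cb := hbw.1
  have cb' := MA_col hbb cb
  obtain ⟨a, β, haβ, ha1, hβ1, ca, cβ, hNb⟩ := mate_nbs hG hW.nice hbb
  rw [cb] at ca cβ
  have ca' : c a = false := by simpa using ca
  have cβ' : c β = false := by simpa using cβ
  have hba : G.Adj b a := (hNb a).2 (by simp)
  have hbβ : G.Adj b β := (hNb β).2 (by simp)
  have ha := Q0_nb hW.nice hb hba ca'
  have hβ := Q0_nb hW.nice hb hbβ cβ'
  obtain ⟨p, p', hpp, hbp, hbp', hNa, hpq⟩ := hcon a hba ca'
  obtain ⟨q, q', hqq, hbq, hbq', hNβ, hqq1⟩ := hcon β hbβ cβ'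
  have hap : G.Adj a p := (hNa p).2 (by simp)
  have hap' : G.Adj a p' := (hNa p').2 (by simp)
  have hβq : G.Adj β q := (hNβ q).2 (by simp)
  have hβq' : G.Adj β q' := (hNβ q').2 (by simp)
  have cp := (mem_Qs.1 hpq).1.1
  have cq := (mem_Qs.1 hqq1).1.1
  have cp' := MA_col hpp cp
  have cq' := MA_col hqq cq
  have hb'p : b' ≠ p := by
    rintro rfl
    exact hbp' (nice_uniq hW.nice (ma_symm hbb) hpp)
  have hb'q : b' ≠ q := by
    rintro rfl
    exact hbq' (nice_uniq hW.nice (ma_symm hbb) hqq)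
  obtain ⟨e1, e2, e3, e4⟩ := pair_ne hW.nice hbb hpp hbp hb'p
  obtain ⟨f1, f2, f3, f4⟩ := pair_ne hW.nice hbb hqq hbq hb'q
  -- a vertex of `Q1` has only one neighbour in `B0`
  have key : G.Adj β p → False := by
    intro hβp
    obtain ⟨e, he1, he2, hNp, ce, he⟩ := cls hG hW.nice hpp cp hap.symm ha
    have hβe : β = e := by
      rcases (hNp β).1 hβp.symm with h | h | h
      · exfalso
        subst h
        rw [cβ'] at cp'
        exact absurd cp' (by simp)
      · exact absurd h.symm haβ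
      · exact h
    rcases he with ⟨he, -⟩ | ⟨-, he⟩
    · have := he.2
      rw [← hβe, hβ.2] at this
      exact absurd this (by simp)
    · have h1 := (mem_Qs.1 he).2
      have h2 := (mem_Qs.1 hpq).2
      omega
  have hpq1 : p ≠ q := by
    rintro rfl
    exact key hβq
  have hp'q : p' ≠ q := by
    intro hh
    have : q' = p := nice_uniq hW.nice hqq (hh ▸ ma_symm hpp)
    exact key (this ▸ hβq')
  obtain ⟨g1, g2, g3, g4⟩ := pair_ne hW.nice hpp hqq hpq1 hp'q
  refine hW.cert hG true (fun _ => hq) cX_ok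
    (e := fun i => [b, b', a, β, p, p', q, q'].getD i b) ?_
  refine emb_mk hW.nice [b, b', a, β, p, p', q, q'] b
    [(0, 1), (0, 2), (0, 3), (2, 4), (2, 5), (4, 5), (3, 6), (3, 7), (6, 7)]
    [(0, 4), (0, 5), (1, 4), (1, 5), (0, 6), (0, 7), (1, 6), (1, 7), (4, 6), (4, 7), (5, 6),
      (5, 7), (2, 3)] [2, 3] rfl (by decide) ?_ ?_ ?_ ?_
  · simp [hbb.1, hba, hbβ, hap, hap', hpp.1, hβq, hβq', hqq.1]
  · simp [e1, e2, e3, e4, f1, f2, f3, f4, g1, g2, g3, g4, haβ]
  · simp [ha.2, hβ.2]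
  · simp [cb, cb', cp, cp', cq, cq', ca', cβ']
    decide

end Src

end

end Pool.Agent.Work.MP_1e13ac_W
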