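import Pool.Agent.Work.MP_1e13ac_W.L1T1
import Pool.Agent.Work.MP_1e13ac_W.W1Hand

/-!
# MP_1e13ac_co, full statement: level-1 world, structure of the sources (helper50)
-/

set_option autoImplicit false
set_option linter.unusedSectionVars false

namespace Pool.Agent.Work.MP_1e13ac_W

open Classical Finset Pool.Agent.Work.MP_1e13ac_Bis

noncomputable section

variable {V : Type} [Fintype V] {G : SimpleGraph V} {c : V → Bool}

/-- certificates with the helper `(0, 1, 0)` -/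
theorem WL1.cert3 (hG : Cub G) (hW : WL1 G c) {S : List It} {A : PL} {col non : ℕ} {e : ℕ → V}
    (hr : run (lfL true false []) S [⟨A, col, non⟩] = true) (h : Emb G c A col non e) : False :=
  hW.cert hG true false [] (fun _ => hW.six hG) (by simp) hr h (by simp)

theorem WL1.cert3M (hG : Cub G) (hW : WL1 G c) (M : List ℕ) {S : List It} {A : PL} {col non : ℕ}
    {e : ℕ → V} (hr : run (lfL true false M) S [⟨A, col, non⟩] = true)
    (h : Emb G c A col non e) (hM : ∀ i ∈ M, i < A.length ∧ e i ∈ Qs G c 0) : False :=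
  hW.cert hG true false M (fun _ => hW.six hG) (by simp) hr h hM

/-- a vertex of `B0` all neighbours of which are sources, no mates, the mates are sources -/
def AN (G : SimpleGraph V) (c : V → Bool) (a : V) : Prop :=
  IsB0 G c a ∧ (∀ x, G.Adj a x → x ∈ Qs G c 0 ∧ ∀ x', MA G c x x' → x' ∈ Qs G c 0) ∧
    ∀ x y, G.Adj a x → G.Adj a y → ¬ MA G c x y

section Src

variable (hG : Cub G) (hW : WL1 G c)

include hG hW

/-- two black neighbours of a source and its mate -/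
theorem WL1.noCp {b b' x x' a β : V} (hb : MA G c b b') (hx : MA G c x x')
    (cb : c b = true) (cx : c x = true) (ha : IsB0 G c a) (hβ : IsB0 G c β) (haβ : a ≠ β)
    (h1 : G.Adj b a) (h2 : G.Adj b β) (h3 : G.Adj b' a) (h4 : G.Adj x a) (h5 : G.Adj x β)
    (d1 : b ≠ x) (d2 : b' ≠ x) : False := by
  obtain ⟨e1, e2, e3, e4⟩ := pair_ne hW.nice hb hx d1 d2
  have cb' := MA_col hb cb
  have cx' := MA_col hx cx
  refine hW.cert3 hG dCp_ok (e := fun i => [b, b', a, β, x, x'].getD i b) ?_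
  refine emb_mk hW.nice [b, b', a, β, x, x'] b
    [(0, 1), (0, 2), (0, 3), (1, 2), (2, 4), (4, 5), (3, 4)]
    [(0, 4), (0, 5), (1, 4), (1, 5), (2, 3)] [2, 3] rfl (by decide) ?_ ?_ ?_ ?_
  · simp [hb.1, h1, h2, h3, h4.symm, hx.1, h5.symm]
  · simp [e1, e2, e3, e4, haβ]
  · simp [ha.2, hβ.2]
  · simp [cb, cx, cb', cx', ha.1, hβ.1]
    decide

/-- slot with the mate of the source -/
theorem WL1.caseT {b b' a β x : V} (hb : b ∈ Qs G c 0) (hbb : MA G c b b')
    (ha : IsB0 G c a) (hβ : IsB0 G c β) (haβ : a ≠ β) (h1 : G.Adj b a) (h2 : G.Adj b β)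
    (hN : ∀ z, G.Adj a z ↔ z = b ∨ z = b' ∨ z = x) (d1 : x ≠ b) (d2 : x ≠ b') :
    SlT G c b a := by
  have cb := (mem_Qs.1 hb).1.1
  have cb' := MA_col hbb cb
  have hax : G.Adj a x := (hN x).2 (by simp)
  have hab' : G.Adj a b' := (hN b').2 (by simp)
  have cx := B0_nb ha hax
  by_cases hx0 : md G c x = 0
  · exfalso
    refine hW.cert3 hG dE2_ok (e := fun i => [b, b', a, β, x].getD i b) ?_
    refine emb_mk hW.nice [b, b', a, β, x] b
      [(0, 1), (0, 2), (0, 3), (1, 2), (2, 4)] [(2, 3)] [2, 3, 4] rfl (by decide) ?_ ?_ ?_ ?_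
    · simp [hbb.1, h1, h2, hab'.symm, hax]
    · simp [haβ]
    · simp [ha.2, hβ.2, hx0]
    · simp [cb, cx, cb', ha.1, hβ.1]
      decide
  · have hx1 : md G c x = 1 := by
      have := hW.nice x
      omega
    obtain ⟨x', hx'⟩ := md1_ex hx1
    obtain ⟨e, he1, he2, hNx, ce, he⟩ := cls hG hW.nice hx' cx hax.symm ha
    rcases he with ⟨-, he⟩ | ⟨he, hxq⟩
    · exact ⟨b', x, hbb, d1, d2, hN, he⟩
    · exfalso
      have hxe : G.Adj x e := (hNx e).2 (by simp)
      by_cases heβ : e = β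
      · subst heβ
        exact hW.noCp hG hbb hx' cb cx ha hβ haβ h1 h2 hab'.symm hax.symm hxe d1.symm d2.symm
      · obtain ⟨e1, e2, e3, e4⟩ := pair_ne hW.nice hbb hx' d1.symm d2.symm
        have cx' := MA_col hx' cx
        refine hW.cert3 hG dT_ok (e := fun i => [b, b', a, β, x, x', e].getD i b) ?_
        refine emb_mk hW.nice [b, b', a, β, x, x', e] b
          [(0, 1), (0, 2), (0, 3), (1, 2), (2, 4), (4, 5), (4, 6)]
          [(0, 4), (0, 5), (1, 4), (1, 5), (2, 3), (2, 6), (3, 6)] [2, 3, 6] rfl (by decide)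
          ?_ ?_ ?_ ?_
        · simp [hbb.1, h1, h2, hab'.symm, hax, hx'.1, hxe]
        · simp [e1, e2, e3, e4, haβ, he2.symm, Ne.symm heβ]
        · simp [ha.2, hβ.2, he.2]
        · simp [cb, cx, cb', cx', ha.1, hβ.1, ce]
          decide

/-- two of three pairwise non-adjacent matched neighbours share no second black neighbour -/
theorem WL1.a3zz {b b' x x' y y' a z : V} (hb : MA G c b b') (hx : MA G c x x')
    (hy : MA G c y y') (cb : c b = true) (cx : c x = true) (cy : c y = true)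
    (ha : IsB0 G c a) (h1 : G.Adj a b) (h2 : G.Adj a x) (h3 : G.Adj a y) (d1 : b ≠ x)
    (d2 : b' ≠ x) (d3 : b ≠ y) (d4 : b' ≠ y) (d5 : x ≠ y) (d6 : x' ≠ y)
    (hz : IsB0 G c z) (haz : a ≠ z) (h4 : G.Adj b z) (h5 : G.Adj x z) : False := by
  obtain ⟨e1, e2, e3, e4⟩ := pair_ne hW.nice hb hx d1 d2
  obtain ⟨f1, f2, f3, f4⟩ := pair_ne hW.nice hb hy d3 d4
  obtain ⟨g1, g2, g3, g4⟩ := pair_ne hW.nice hx hy d5 d6
  have cb' := MA_col hb cb
  have cx' := MA_col hx cx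
  have cy' := MA_col hy cy
  refine hW.cert0 hG dA3zz_ok (e := fun i => [b, b', a, x, x', y, y', z].getD i b) ?_
  refine emb_mk hW.nice [b, b', a, x, x', y, y', z] b
    [(0, 1), (0, 2), (2, 3), (3, 4), (2, 5), (5, 6), (0, 7), (3, 7)]
    [(0, 3), (0, 4), (1, 3), (1, 4), (0, 5), (0, 6), (1, 5), (1, 6), (3, 5), (3, 6), (4, 5),
      (4, 6), (2, 7)] [2, 7] rfl (by decide) ?_ ?_ ?_ ?_
  · simp [hb.1, h1.symm, h2, hx.1, h3, hy.1, h4, h5]
  · simp [e1, e2, e3, e4, f1, f2, f3, f4, g1, g2, g3, g4, haz]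
  · simp [ha.2, hz.2]
  · simp [cb, cx, cy, cb', cx', cy', ha.1, hz.1]
    decide

/-- the mate of a vertex of a block is not in `Q0`, and it is adjacent to no attachment -/
theorem WL1.blkmate {b b' x x' a β y z : V} (hbb : MA G c b b') (hx' : MA G c x x')
    (cb : c b = true) (cx : c x = true) (ha : IsB0 G c a) (hβ : IsB0 G c β) (haβ : a ≠ β)
    (hNa : ∀ w, G.Adj a w ↔ w = b ∨ w = x ∨ w = y) (hNβ : ∀ w, G.Adj β w ↔ w = b ∨ w = x ∨ w = z)
    (hy : IsW0 G c y) (hz : IsW0 G c z) (d1 : b ≠ x) (d2 : b' ≠ x) : b' ∉ Qs G c 0 := by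
  intro hb'q
  have cb' := MA_col hbb cb
  have cx' := MA_col hx' cx
  obtain ⟨g, h, hgh, hgb, hhb, cg, ch, hN⟩ := mate_nbs hG hW.nice (ma_symm hbb)
  rw [cb'] at cg ch
  have cg' : c g = false := by simpa using cg
  have ch' : c h = false := by simpa using ch
  obtain ⟨e1, e2, e3, e4⟩ := pair_ne hW.nice hbb hx' d1 d2
  have hb'y : b' ≠ y := by
    rintro rfl
    exact md0_no hy.2 (ma_symm hbb)
  have hb'z : b' ≠ z := by
    rintro rfl
    exact md0_no hz.2 (ma_symm hbb)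
  have hb'b : b' ≠ b := hbb.1.ne'
  have nab' : ¬ G.Adj a b' := by
    rw [hNa]
    simp [hb'b, d2, hb'y]
  have nβb' : ¬ G.Adj β b' := by
    rw [hNβ]
    simp [hb'b, d2, hb'z]
  have hb'g : G.Adj b' g := (hN g).2 (by simp)
  have hb'h : G.Adj b' h := (hN h).2 (by simp)
  have hga : g ≠ a := by
    rintro rfl
    exact nab' hb'g.symm
  have hgβ : g ≠ β := by
    rintro rfl
    exact nβb' hb'g.symm
  have hha : h ≠ a := by
    rintro rfl
    exact nab' hb'h.symm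
  have hhβ : h ≠ β := by
    rintro rfl
    exact nβb' hb'h.symm
  have hab : G.Adj a b := (hNa b).2 (by simp)
  have hax : G.Adj a x := (hNa x).2 (by simp)
  have hβb : G.Adj β b := (hNβ b).2 (by simp)
  have hβx : G.Adj β x := (hNβ x).2 (by simp)
  have mg := Q0_nb hW.nice hb'q hb'g cg'
  have mh := Q0_nb hW.nice hb'q hb'h ch'
  refine hW.cert3 hG dC1_ok (e := fun i => [b, b', a, β, x, x', g, h].getD i b) ?_
  refine emb_mk hW.nice [b, b', a, β, x, x', g, h] b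
    [(0, 1), (0, 2), (0, 3), (2, 4), (3, 4), (4, 5), (1, 6), (1, 7)]
    [(0, 4), (0, 5), (1, 4), (1, 5), (2, 3), (2, 6), (3, 6), (2, 7), (3, 7), (6, 7)]
    [2, 3, 6, 7] rfl (by decide) ?_ ?_ ?_ ?_
  · simp [hbb.1, hab.symm, hβb.symm, hax, hβx, hx'.1, hb'g, hb'h]
  · simp [e1, e2, e3, e4, haβ, hga.symm, hgβ.symm, hha.symm, hhβ.symm, hgh]
  · simp [ha.2, hβ.2, mg.2, mh.2]
  · simp [cb, cx, cb', cx', ha.1, hβ.1, cg', ch']
    decide

/-- slot with a matched white and an isolated white vertex -/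
theorem WL1.caseM {b b' a β x y : V} (hb : b ∈ Qs G c 0) (hbb : MA G c b b')
    (ha : IsB0 G c a) (hβ : IsB0 G c β) (haβ : a ≠ β) (h1 : G.Adj b a) (h2 : G.Adj b β)
    (hN : ∀ z, G.Adj a z ↔ z = b ∨ z = x ∨ z = y) (d1 : b ≠ x) (d2 : b' ≠ x) (d3 : b ≠ y)
    (d4 : x ≠ y) (hx1 : IsW1 G c x) (hy : IsW0 G c y) : SlM G c b a ∨ SlC2 G c b a := by
  have cb := (mem_Qs.1 hb).1.1
  have cb' := MA_col hbb cb
  have hax : G.Adj a x := (hN x).2 (by simp)
  have hay : G.Adj a y := (hN y).2 (by simp)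
  have cx := hx1.1
  obtain ⟨x', hx'⟩ := md1_ex hx1.2
  obtain ⟨e1, e2, e3, e4⟩ := pair_ne hW.nice hbb hx' d1 d2
  have cx' := MA_col hx' cx
  obtain ⟨e, he1, he2, hNx, ce, he⟩ := cls hG hW.nice hx' cx hax.symm ha
  have nbx : ¬ G.Adj b x := fun hh => d2 (nice_uniq hW.nice hbb ⟨hh, by rw [cb, cx]⟩)
  rcases he with ⟨-, he⟩ | ⟨he, hxq⟩
  · exact Or.inl ⟨x, y, d1, d3, d4, hN, he, nbx, hy⟩
  · right
    have hxe : G.Adj x e := (hNx e).2 (by simp)
    by_cases heβ : e = β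
    · subst heβ
      obtain ⟨z, hz1, hz2, hNe⟩ := cub2 hG h2.symm hxe.symm d1
      have hez : G.Adj e z := (hNe z).2 (by simp)
      have cz := B0_nb hβ hez
      by_cases hz0 : md G c z = 0
      · exact ⟨x, e, y, z, hxq, d1, nbx, haβ, hN, hNe, hy, ⟨cz, hz0⟩⟩
      · exfalso
        have hz1' : md G c z = 1 := by
          have := hW.nice z
          omega
        obtain ⟨z', hz'⟩ := md1_ex hz1'
        by_cases hzb' : z = b'
        · subst hzb'
          exact hW.noCp hG hbb hx' cb cx hβ ha haβ.symm h2 h1 hez.symm hxe hax.symm d1 d2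
        · by_cases hzx' : z = x'
          · subst hzx'
            exact hW.noCp hG hx' hbb cx cb hβ ha haβ.symm hxe hax.symm hez.symm h2 h1
              d1.symm e2.symm
          · exact hW.a3zz hG hbb hx' hz' cb cx cz hβ h2.symm hxe.symm hez d1 d2 hz1.symm
              (Ne.symm hzb') hz2.symm (Ne.symm hzx') ha haβ.symm h1 hax.symm
    · exfalso
      refine hW.cert3 hG dR_ok (e := fun i => [b, b', a, β, x, x', e, y].getD i b) ?_
      refine emb_mk hW.nice [b, b', a, β, x, x', e, y] b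
        [(0, 1), (0, 2), (0, 3), (2, 4), (4, 5), (4, 6), (2, 7)]
        [(0, 4), (0, 5), (1, 4), (1, 5), (2, 3), (2, 6), (3, 6)] [2, 3, 6, 7] rfl (by decide)
        ?_ ?_ ?_ ?_
      · simp [hbb.1, h1, h2, hax, hx'.1, hxe, hay]
      · simp [e1, e2, e3, e4, haβ, he2.symm, Ne.symm heβ]
      · simp [ha.2, hβ.2, he.2, hy.2]
      · simp [cb, cx, cb', cx', ha.1, hβ.1, ce, hy.1]
        decide

/-- with a source `b` all matched neighbours of `a` are sources -/
theorem WL1.a3q {b b' x x' y y' a : V} (hbq : b ∈ Qs G c 0) (hb : MA G c b b')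
    (hx : MA G c x x')
    (hy : MA G c y y') (cx : c x = true) (cy : c y = true)
    (ha : IsB0 G c a) (h1 : G.Adj a b) (h2 : G.Adj a x) (h3 : G.Adj a y) (d1 : b ≠ x)
    (d2 : b' ≠ x) (d3 : b ≠ y) (d4 : b' ≠ y) (d5 : x ≠ y) (d6 : x' ≠ y) : x ∈ Qs G c 0 := by
  have cb := (mem_Qs.1 hbq).1.1
  obtain ⟨d, hd1, hd2, hNx, cd, hd⟩ := cls hG hW.nice hx cx h2.symm ha
  rcases hd with ⟨hd, -⟩ | ⟨-, hd⟩
  · exfalso
    obtain ⟨z, hz1, hz2, hNb, cz, hz⟩ := cls hG hW.nice hb cb h1.symm ha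
    have hbz : G.Adj b z := (hNb z).2 (by simp)
    have hz0 := Q0_nb hW.nice hbq hbz cz
    obtain ⟨d', hdd⟩ := md1_ex hd.2
    have cd' := MA_col hdd cd
    have hxd : G.Adj x d := (hNx d).2 (by simp)
    obtain ⟨e1, e2, e3, e4⟩ := pair_ne hW.nice hb hx d1 d2
    obtain ⟨f1, f2, f3, f4⟩ := pair_ne hW.nice hb hy d3 d4
    obtain ⟨g1, g2, g3, g4⟩ := pair_ne hW.nice hx hy d5 d6
    have cb' := MA_col hb cb
    have cx' := MA_col hx cx
    have cy' := MA_col hy cy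
    refine hW.cert0 hG dA3q_ok (e := fun i => [b, b', a, x, x', y, y', z, d, d'].getD i b) ?_
    refine emb_mk hW.nice [b, b', a, x, x', y, y', z, d, d'] b
      [(0, 1), (0, 2), (2, 3), (3, 4), (2, 5), (5, 6), (0, 7), (3, 8), (8, 9)]
      [(0, 3), (0, 4), (1, 3), (1, 4), (0, 5), (0, 6), (1, 5), (1, 6), (3, 5), (3, 6), (4, 5),
        (4, 6), (2, 7)] [2, 7] rfl (by decide) ?_ ?_ ?_ ?_
    · simp [hb.1, h1.symm, h2, hx.1, h3, hy.1, hbz, hxd, hdd.1]
    · simp [e1, e2, e3, e4, f1, f2, f3, f4, g1, g2, g3, g4, hz2.symm]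
    · simp [ha.2, hz0.2]
    · simp [cb, cx, cy, cb', cx', cy', ha.1, cz, cd, cd']
      decide
  · exact hd

/-- the mates of three pairwise non-adjacent sources with a common neighbour are sources -/
theorem WL1.a3m {b b' x x' y y' a : V} (hbq : b ∈ Qs G c 0) (hxq : x ∈ Qs G c 0)
    (hyq : y ∈ Qs G c 0) (hb : MA G c b b') (hx : MA G c x x')
    (hy : MA G c y y') (ha : IsB0 G c a) (h1 : G.Adj a b) (h2 : G.Adj a x) (h3 : G.Adj a y)
    (d1 : b ≠ x) (d2 : b' ≠ x) (d3 : b ≠ y) (d4 : b' ≠ y) (d5 : x ≠ y) (d6 : x' ≠ y) :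
    b' ∈ Qs G c 0 := by
  have cb := (mem_Qs.1 hbq).1.1
  have cx := (mem_Qs.1 hxq).1.1
  have cy := (mem_Qs.1 hyq).1.1
  obtain ⟨e1, e2, e3, e4⟩ := pair_ne hW.nice hb hx d1 d2
  obtain ⟨f1, f2, f3, f4⟩ := pair_ne hW.nice hb hy d3 d4
  obtain ⟨g1, g2, g3, g4⟩ := pair_ne hW.nice hx hy d5 d6
  have cb' := MA_col hb cb
  have cx' := MA_col hx cx
  have cy' := MA_col hy cy
  obtain ⟨z, hz1, hz2, hNb, cz, -⟩ := cls hG hW.nice hb cb h1.symm ha
  obtain ⟨s, hs1, hs2, hNx, cs, -⟩ := cls hG hW.nice hx cx h2.symm ha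
  obtain ⟨t, ht1, ht2, hNy, ct, -⟩ := cls hG hW.nice hy cy h3.symm ha
  have hbz : G.Adj b z := (hNb z).2 (by simp)
  have hxs : G.Adj x s := (hNx s).2 (by simp)
  have hyt : G.Adj y t := (hNy t).2 (by simp)
  have hz0 := Q0_nb hW.nice hbq hbz cz
  have hs0 := Q0_nb hW.nice hxq hxs cs
  have ht0 := Q0_nb hW.nice hyq hyt ct
  have zs : z ≠ s := by
    rintro rfl
    exact hW.a3zz hG hb hx hy cb cx cy ha h1 h2 h3 d1 d2 d3 d4 d5 d6 hz0 hz2.symm hbz hxs
  have zt : z ≠ t := by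
    rintro rfl
    exact hW.a3zz hG hb hy hx cb cy cx ha h1 h3 h2 d3 d4 d1 d2 d5.symm g2.symm hz0 hz2.symm hbz hyt
  have st : s ≠ t := by
    rintro rfl
    exact hW.a3zz hG hx hy hb cx cy cb ha h2 h3 h1 d5 d6 d1.symm e2.symm d3.symm f2.symm hs0
      hs2.symm hxs hyt
  by_contra hcon
  have : ∃ g, G.Adj b' g ∧ IsB1 G c g := by
    by_contra hh
    push Not at hh
    refine hcon (mem_Qs.2 ⟨⟨cb', md1_of hW.nice (ma_symm hb)⟩, ?_⟩)
    unfold nB1
    rw [Finset.card_eq_zero, Finset.filter_eq_empty_iff]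
    intro w hw
    exact hh w (mem_nbs.1 hw)
  obtain ⟨g, hg, hgB⟩ := this
  obtain ⟨g', hgg⟩ := md1_ex hgB.2
  have cg := hgB.1
  have cg' := MA_col hgg cg
  refine hW.cert3M hG [0, 3, 5] dA3m_ok
    (e := fun i => [b, b', a, x, x', y, y', z, s, t, g, g'].getD i b) ?_ ?_
  · refine emb_mk hW.nice [b, b', a, x, x', y, y', z, s, t, g, g'] b
      [(0, 1), (0, 2), (2, 3), (3, 4), (2, 5), (5, 6), (0, 7), (3, 8), (5, 9), (1, 10), (10, 11)]
      [(0, 3), (0, 4), (1, 3), (1, 4), (0, 5), (0, 6), (1, 5), (1, 6), (3, 5), (3, 6), (4, 5),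
        (4, 6), (2, 7), (2, 8), (2, 9), (7, 8), (7, 9), (8, 9)] [2, 7, 8, 9] rfl (by decide)
        ?_ ?_ ?_ ?_
    · simp [hb.1, h1.symm, h2, hx.1, h3, hy.1, hbz, hxs, hyt, hg, hgg.1]
    · simp [e1, e2, e3, e4, f1, f2, f3, f4, g1, g2, g3, g4, hz2.symm, hs2.symm, ht2.symm,
        zs, zt, st]
    · simp [ha.2, hz0.2, hs0.2, ht0.2]
    · simp [cb, cx, cy, cb', cx', cy', ha.1, cz, cs, ct, cg, cg']
      decide
  · simp [hbq, hxq, hyq]

/-- slot with two matched white vertices -/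
theorem WL1.caseX {b b' a β x y : V} (hb : b ∈ Qs G c 0) (hbb : MA G c b b')
    (ha : IsB0 G c a) (h1 : G.Adj b a)
    (hN : ∀ z, G.Adj a z ↔ z = b ∨ z = x ∨ z = y) (d1 : b ≠ x) (d2 : b' ≠ x) (d3 : b ≠ y)
    (d3' : b' ≠ y) (d4 : x ≠ y) (hx1 : IsW1 G c x) (hy1 : IsW1 G c y) :
    SlX2 G c b a ∨ AN G c a := by
  have cb := (mem_Qs.1 hb).1.1
  have cb' := MA_col hbb cb
  have hax : G.Adj a x := (hN x).2 (by simp)
  have hay : G.Adj a y := (hN y).2 (by simp)
  have cx := hx1.1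
  have cy := hy1.1
  obtain ⟨x', hx'⟩ := md1_ex hx1.2
  obtain ⟨y', hy'⟩ := md1_ex hy1.2
  have noQ : ∀ {p q : V}, MA G c p q → c p = true → G.Adj a p → b ≠ p → b ≠ q →
      (∀ z, G.Adj a z ↔ z = b ∨ z = p ∨ z = q) → p ∈ Qs G c 0 → False := by
    intro p q hpq cp hap n1 n2 hNa hp
    obtain ⟨e, he1, he2, hNp, ce, -⟩ := cls hG hW.nice hpq cp hap.symm ha
    have hpe : G.Adj p e := (hNp e).2 (by simp)
    have he := Q0_nb hW.nice hp hpe ce
    obtain ⟨p', r, h5, h6, h7, h8, h9⟩ := hW.caseT hG hp hpq ha he he2.symm hap.symm hpe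
      (x := b) (fun z => by rw [hNa z]; tauto) n1 n2
    -- `r = b`
    have hab : G.Adj a b := h1.symm
    rcases (h8 b).1 hab with h | h | h
    · exact n1 h
    · rw [nice_uniq hW.nice h5 hpq] at h
      exact n2 h
    · rw [← h] at h9
      have t1 := (mem_Qs.1 h9).2
      have t2 := (mem_Qs.1 hb).2
      omega
  by_cases hxy : x' = y
  · left
    subst hxy
    obtain ⟨e, he1, he2, hNx, ce, he⟩ := cls hG hW.nice hx' cx hax.symm ha
    obtain ⟨f, hf1, hf2, hNy, cf, hf⟩ := cls hG hW.nice (ma_symm hx') cy hay.symm ha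
    have hN' : ∀ z, G.Adj a z ↔ z = b ∨ z = x' ∨ z = x := by
      intro z
      rw [hN z]
      tauto
    rcases he with ⟨-, he⟩ | ⟨-, he⟩
    · rcases hf with ⟨-, hf⟩ | ⟨-, hf⟩
      · exact ⟨x, x', hx', d1, d3, hN, he, hf⟩
      · exact (noQ (ma_symm hx') cy hay d3 d1 hN' hf).elim
    · exact (noQ hx' cx hax d1 d3 hN he).elim
  · right
    obtain ⟨e1, e2, e3, e4⟩ := pair_ne hW.nice hbb hx' d1 d2
    obtain ⟨f1, f2, f3, f4⟩ := pair_ne hW.nice hbb hy' d3 d3'
    obtain ⟨g1, g2, g3, g4⟩ := pair_ne hW.nice hx' hy' d4 hxy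
    have hxq := hW.a3q hG hb hbb hx' hy' cx cy ha h1.symm hax hay d1 d2 d3 d3' d4 hxy
    have hyq := hW.a3q hG hb hbb hy' hx' cy cx ha h1.symm hay hax d3 d3' d1 d2 d4.symm g2.symm
    have hb'q := hW.a3m hG hb hxq hyq hbb hx' hy' ha h1.symm hax hay d1 d2 d3 d3' d4 hxy
    have hx'q := hW.a3m hG hxq hb hyq hx' hbb hy' ha hax h1.symm hay d1.symm e2.symm d4 hxy d3 d3'
    have hy'q := hW.a3m hG hyq hb hxq hy' hbb hx' ha hay h1.symm hax d3.symm f2.symm d4.symm
      g2.symm d1 d2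
    refine ⟨ha, ?_, ?_⟩
    · intro w hw
      rcases (hN w).1 hw with rfl | rfl | rfl
      · exact ⟨hb, fun w' hw' => by rw [nice_uniq hW.nice hw' hbb]; exact hb'q⟩
      · exact ⟨hxq, fun w' hw' => by rw [nice_uniq hW.nice hw' hx']; exact hx'q⟩
      · exact ⟨hyq, fun w' hw' => by rw [nice_uniq hW.nice hw' hy']; exact hy'q⟩
    · intro u w hu hw hm
      have key : ∀ {p p' q : V}, MA G c p p' → MA G c p q → p' ≠ q → False := fun h h' hne =>
        hne (nice_uniq hW.nice h h')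
      rcases (hN u).1 hu with rfl | rfl | rfl <;> rcases (hN w).1 hw with rfl | rfl | rfl
      · exact G.irrefl hm.1
      · exact key hbb hm d2
      · exact key hbb hm d3'
      · exact key hx' hm e2.symm
      · exact G.irrefl hm.1
      · exact key hx' hm hxy
      · exact key hy' hm f2.symm
      · exact key hy' hm g2.symm
      · exact G.irrefl hm.1

/-- all slots of a source -/
theorem WL1.slots : ∀ b ∈ Qs G c 0, ∀ a, G.Adj b a → c a = false →
    SlM G c b a ∨ SlT G c b a ∨ SlX2 G c b a ∨ SlC2 G c b a ∨ AN G c a := by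
  intro b hb a hba ca
  have hbw := (mem_Qs.1 hb).1
  have ha := Q0_nb hW.nice hb hba ca
  obtain ⟨b', hbb⟩ := md1_ex hbw.2
  have cb := hbw.1
  have cb' := MA_col hbb cb
  have hb'a : b' ≠ a := by
    rintro rfl
    rw [ca] at cb'
    exact absurd cb' (by simp)
  obtain ⟨β, hβ1, hβ2, hNb⟩ := cub2 hG hbb.1 hba hb'a
  have hbβ : G.Adj b β := (hNb β).2 (by simp)
  have cβ : c β = false := by
    by_contra hh
    exact hβ1 (nice_uniq hW.nice ⟨hbβ, by rw [cb]; symm; simpa using hh⟩ hbb)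
  have hβ := Q0_nb hW.nice hb hbβ cβ
  obtain ⟨x, y, hxy, hxb, hyb, hN⟩ := cub1 hG hba.symm
  have hax : G.Adj a x := (hN x).2 (by simp)
  have hay : G.Adj a y := (hN y).2 (by simp)
  have cx := B0_nb ha hax
  have cy := B0_nb ha hay
  have hN' : ∀ z, G.Adj a z ↔ z = b ∨ z = y ∨ z = x := by
    intro z
    rw [hN z]
    tauto
  by_cases hx' : x = b'
  · subst hx'
    exact Or.inr (Or.inl (hW.caseT hG hb hbb ha hβ hβ2.symm hba hbβ hN hyb hxy.symm))
  · by_cases hy' : y = b'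
    · subst hy'
      exact Or.inr (Or.inl (hW.caseT hG hb hbb ha hβ hβ2.symm hba hbβ hN' hxb hxy))
    · have mx := hW.nice x
      have my := hW.nice y
      by_cases hx0 : md G c x = 0
      · by_cases hy0 : md G c y = 0
        · exfalso
          refine hW.cert3 hG dE1_ok (e := fun i => [b, b', a, β, x, y].getD i b) ?_
          refine emb_mk hW.nice [b, b', a, β, x, y] b
            [(0, 1), (0, 2), (0, 3), (2, 4), (2, 5)] [(2, 3), (4, 5)] [2, 3, 4, 5] rfl (by decide)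
            ?_ ?_ ?_ ?_
          · simp [hbb.1, hba, hbβ, hax, hay]
          · simp [hβ2.symm, hxy]
          · simp [ha.2, hβ.2, hx0, hy0]
          · simp [cb, cx, cb', cy, ca, cβ]
            decide
        · rcases hW.caseM hG hb hbb ha hβ hβ2.symm hba hbβ hN' hyb.symm (Ne.symm hy') hxb.symm
            hxy.symm ⟨cy, by omega⟩ ⟨cx, hx0⟩ with h | h
          · exact Or.inl h
          · exact Or.inr (Or.inr (Or.inr (Or.inl h)))
      · by_cases hy0 : md G c y = 0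
        · rcases hW.caseM hG hb hbb ha hβ hβ2.symm hba hbβ hN hxb.symm (Ne.symm hx') hyb.symm
            hxy ⟨cx, by omega⟩ ⟨cy, hy0⟩ with h | h
          · exact Or.inl h
          · exact Or.inr (Or.inr (Or.inr (Or.inl h)))
        · rcases hW.caseX hG (β := β) hb hbb ha hba hN hxb.symm
            (Ne.symm hx') hyb.symm (Ne.symm hy') hxy ⟨cx, by omega⟩ ⟨cy, by omega⟩ with h | h
          · exact Or.inr (Or.inr (Or.inl h))
          · exact Or.inr (Or.inr (Or.inr (Or.inr h)))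

end Src

end

end Pool.Agent.Work.MP_1e13ac_W
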