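import Pool.Agent.Work.MP_1e13ac_W.L2Defs

/-!
# MP_1e13ac_co, full statement: leaf predicate of the level-1 world (helper50)

`act = kind + 8 F` with kinds
* 0: violation of the minimality of `F2` at level 1,
* 1: nice move to level 0 (`j = 1`, `Δμ ≤ 1`),
* 2: nice move with `j ≤ 0`, `Δμ ≤ j`, `Δ#T1 < 3 j` (as in World 2),
* 3: nice neutral move, `#T1` not up, `#Q0` up,
* 4: solution,
* 5: helper `(0, 1, 0)` with at most five blocked sources,
* 6: helper `(0, 2, 2)` with at most 23 blocked vertices of `W1`,
* 7: a marked vertex has a neighbour in `B1`.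
-/

set_option autoImplicit false

namespace Pool.Agent.Work.MP_1e13ac_W

noncomputable section

/-- violation of the minimality of `F2` at level 1 -/
def viol1R (A : PL) (col F : Nat) : Bool :=
  Nat.ble (Nat.succ (Nat.add (smR A (Nat.xor col F)) (Nat.mul (nat_lit 2)
      (absD (lenL A) (sjR A col F)))))
    (Nat.add (smR A col) (nat_lit 2))

/-- nice move to level 0 -/
def zeroR (A : PL) (col F : Nat) : Bool :=
  andB (niceR A (Nat.xor col F))
    (andB (Nat.beq (sjR A col F) (Nat.succ (lenL A)))
      (Nat.ble (smR A (Nat.xor col F)) (Nat.add (smR A col) (nat_lit 2))))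

/-- black vertex in the zone -/
def bZ (A : PL) (col F i : Nat) (l : List Nat) : Bool :=
  andB (notB (tb col i)) (inZ A col F i l)

/-- possible blocked vertex of `W1` in the pattern -/
def blk4W (A : PL) (col F i : Nat) (l : List Nat) : Bool :=
  andB (tb col i) (andB (Nat.beq (mdl col i l) (nat_lit 1))
    (orB (inZ A col F i l) (anyL (fun j => bZ A col F j (glR A j)) l)))

/-- upper bound for the number of blocked vertices of `W1` -/
def blk4R (A : PL) (col F : Nat) : Nat :=
  sumI (fun i l => Nat.add
    (Bool.rec (motive := fun _ => Nat) (nat_lit 0) (nat_lit 1) (blk4W A col F i l))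
    (Bool.rec (motive := fun _ => Nat) (nat_lit 0) (Nat.sub (nat_lit 3) (lenN l))
      (bZ A col F i l))) A (nat_lit 0)

/-- a helper `(0, 2, 2)` with at most 23 blocked vertices of `W1` -/
def h4R (A : PL) (col F : Nat) : Bool :=
  andB (Nat.beq (sjR A col F) (lenL A))
    (andB (Nat.beq (spR A (Nat.xor col F)) (Nat.add (nat_lit 2) (lenL A)))
      (andB (Nat.beq (sqR A (Nat.xor col F)) (Nat.add (nat_lit 2) (lenL A)))
        (andB (validR A (Nat.xor col F)) (Nat.ble (blk4R A col F) (nat_lit 23)))))

/-- a marked vertex has a listed neighbour in `B1` -/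
def exR (M : List Nat) (A : PL) (col : Nat) : Bool :=
  anyL (fun i => hasB1 A col (glR A i)) M

/-- leaf predicate of the level-1 world -/
def lfL (h3 h4 : Bool) (M : List Nat) (A : PL) (col _non act : Nat) : Bool :=
  Nat.rec (motive := fun _ => Bool)
    (andB (cmpR A (Nat.div act (nat_lit 8))) (viol1R A col (Nat.div act (nat_lit 8))))
    (fun k _ => Nat.rec (motive := fun _ => Bool)
      (andB (cmpR A (Nat.div act (nat_lit 8))) (zeroR A col (Nat.div act (nat_lit 8))))
      (fun k _ => Nat.rec (motive := fun _ => Bool)
        (andB (cmpR A (Nat.div act (nat_lit 8))) (up2R A col (Nat.div act (nat_lit 8))))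
        (fun k _ => Nat.rec (motive := fun _ => Bool)
          (andB (cmpR A (Nat.div act (nat_lit 8))) (q02R A col (Nat.div act (nat_lit 8))))
          (fun k _ => Nat.rec (motive := fun _ => Bool)
            (andB (cmpR A (Nat.div act (nat_lit 8))) (solR A col (Nat.div act (nat_lit 8))))
            (fun k _ => Nat.rec (motive := fun _ => Bool)
              (andB h3 (andB (cmpR A (Nat.div act (nat_lit 8))) (h3R A col (Nat.div act (nat_lit 8)))))
              (fun k _ => Nat.rec (motive := fun _ => Bool)
                (andB h4 (andB (cmpR A (Nat.div act (nat_lit 8)))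
                  (h4R A col (Nat.div act (nat_lit 8)))))
                (fun _ _ => exR M A col) k) k) k) k) k) k)
    (Nat.mod act (nat_lit 8))

end

end Pool.Agent.Work.MP_1e13ac_W
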