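import Pool.Agent.Work.MP_1e13ac_W.W1Hand

/-!
# MP_1e13ac_co, full statement: World 1 is impossible (helper50)
-/

set_option autoImplicit false
set_option linter.unusedSectionVars false

namespace Pool.Agent.Work.MP_1e13ac_W

open Classical Finset Pool.Agent.Work.MP_1e13ac_Bis

noncomputable section

variable {V : Type} [Fintype V] {G : SimpleGraph V} {c : V → Bool}

/-- the T4 token -/
theorem T4_tok (hG : Cub G) (hc : Nice G c) {v : V} (hv : v ∈ Qs G c 1) :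
    Valid G (flp {v} c) ∧ st G (flp {v} c) univ - st G c univ = (-2, -2, -2) := by
  have hvw := (mem_Qs.1 hv).1
  obtain ⟨v', hvv⟩ := md1_ex hvw.2
  have cv := hvw.1
  have cv' := MA_col hvv cv
  -- the neighbour in `B1`
  have h1 := (mem_Qs.1 hv).2
  unfold nB1 at h1
  obtain ⟨g, hg⟩ := Finset.card_eq_one.1 h1
  have hg' : g ∈ (nbs G v).filter fun y => IsB1 G c y := by rw [hg]; simp
  rw [Finset.mem_filter, mem_nbs] at hg'
  obtain ⟨hvg, hgB⟩ := hg'
  obtain ⟨g', hgg⟩ := md1_ex hgB.2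
  have cg := hgB.1
  have cg' := MA_col hgg cg
  have hv'g : v' ≠ g := by
    rintro rfl
    rw [cg] at cv'
    exact absurd cv' (by simp)
  obtain ⟨u, hu1, hu2, hN⟩ := cub2 hG hvv.1 hvg hv'g
  have hvu : G.Adj v u := (hN u).2 (by simp)
  have cu : c u = false := by
    by_contra hh
    exact hu1 (nice_uniq hc ⟨hvu, by rw [cv]; symm; simpa using hh⟩ hvv)
  have mu : md G c u = 0 := by
    by_contra hh
    have h2 := hc u
    have h3 : u ∈ (nbs G v).filter fun y => IsB1 G c y := by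
      rw [Finset.mem_filter, mem_nbs]
      exact ⟨hvu, cu, by omega⟩
    rw [hg, Finset.mem_singleton] at h3
    exact hu2 h3
  have hE : Emb G c [[1, 2, 3], [0], [0], [0, 4], [3]] 3 0
      (fun i => [v, v', u, g, g'].getD i v) := by
    refine emb_mk hc [v, v', u, g, g'] v [(0, 1), (0, 2), (0, 3), (3, 4)] [] [2] rfl (by decide)
      ?_ ?_ ?_ ?_
    · simp [hvv.1, hvu, hvg, hgg.1]
    · simp
    · simp [mu]
    · simp [cv, cv', cu, cg, cg']
      decide
  have hF : cmpR [[1, 2, 3], [0], [0], [0, 4], [3]] 1 = true := by decide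
  have hS : FS [[1, 2, 3], [0], [0], [0, 4], [3]] 1 (fun i => [v, v', u, g, g'].getD i v) = {v} := by
    rw [FS_eq {0} (by decide)]
    simp
  have e1 := hE.valid hG hc hF (by decide)
  have e2 := hE.stD hG hc hF
  rw [hS] at e1 e2
  refine ⟨e1, ?_⟩
  rw [e2]
  decide

/-- the H4 helper of a slot with a matched and an isolated white vertex -/
theorem H4_M (hG : Cub G) (hc : Nice G c) {b a x y : V} (hb : b ∈ Qs G c 0) (hba : G.Adj b a)
    (ca : c a = false) (hN : ∀ z, G.Adj a z ↔ z = b ∨ z = x ∨ z = y) (d1 : b ≠ x)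
    (d2 : ¬ G.Adj b x) (hx : IsW1 G c x) (hy : IsW0 G c y) :
    Valid G (flp {b, a} c) ∧ st G (flp {b, a} c) univ - st G c univ = (0, 2, 2) := by
  have hbw := (mem_Qs.1 hb).1
  have ha := Q0_nb hc hb hba ca
  obtain ⟨b', hbb⟩ := md1_ex hbw.2
  have cb := hbw.1
  have cb' := MA_col hbb cb
  have hb'a : b' ≠ a := by
    rintro rfl
    rw [ca] at cb'
    exact absurd cb' (by simp)
  obtain ⟨β, hβ1, hβ2, hNb⟩ := cub2 hG hbb.1 hba hb'a
  have hbβ : G.Adj b β := (hNb β).2 (by simp)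
  have cβ : c β = false := by
    by_contra hh
    exact hβ1 (nice_uniq hc ⟨hbβ, by rw [cb]; symm; simpa using hh⟩ hbb)
  have hβ := Q0_nb hc hb hbβ cβ
  obtain ⟨x', hxx⟩ := md1_ex hx.2
  have cx := hx.1
  have cx' := MA_col hxx cx
  have hb'x : b' ≠ x := by
    rintro rfl
    exact d2 hbb.1
  obtain ⟨e1, e2, e3, e4⟩ := pair_ne hc hbb hxx d1 hb'x
  have hax : G.Adj a x := (hN x).2 (by simp)
  have hay : G.Adj a y := (hN y).2 (by simp)
  have hE : Emb G c [[1, 2, 3], [0], [0, 4, 6], [0], [2, 5], [4], [2]] 115 0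
      (fun i => [b, b', a, β, x, x', y].getD i b) := by
    refine emb_mk hc [b, b', a, β, x, x', y] b
      [(0, 1), (0, 2), (0, 3), (2, 4), (2, 6), (4, 5)]
      [(0, 4), (0, 5), (1, 4), (1, 5), (2, 3)] [2, 3, 6] rfl (by decide) ?_ ?_ ?_ ?_
    · simp [hbb.1, hba, hbβ, hax, hay, hxx.1]
    · simp [e1, e2, e3, e4, hβ2.symm]
    · simp [ha.2, hβ.2, hy.2]
    · simp [cb, cb', ca, cβ, cx, cx', hy.1]
      decide
  have hF : cmpR [[1, 2, 3], [0], [0, 4, 6], [0], [2, 5], [4], [2]] 5 = true := by decide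
  have hS : FS [[1, 2, 3], [0], [0, 4, 6], [0], [2, 5], [4], [2]] 5
      (fun i => [b, b', a, β, x, x', y].getD i b) = {b, a} := by
    rw [FS_eq {0, 2} (by decide)]
    simp [Finset.image_insert]
  have g1 := hE.valid hG hc hF (by decide)
  have g2 := hE.stD hG hc hF
  rw [hS] at g1 g2
  refine ⟨g1, ?_⟩
  rw [g2]
  decide

/-- the H4 helper of a slot with the mate -/
theorem H4_T (hG : Cub G) (hc : Nice G c) {b b' a x : V} (hb : b ∈ Qs G c 0) (hba : G.Adj b a)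
    (ca : c a = false) (hbb : MA G c b b') (hN : ∀ z, G.Adj a z ↔ z = b ∨ z = b' ∨ z = x)
    (d1 : x ≠ b) (d2 : x ≠ b') (hx : IsW1 G c x) :
    Valid G (flp {b, a} c) ∧ st G (flp {b, a} c) univ - st G c univ = (0, 2, 2) := by
  have hbw := (mem_Qs.1 hb).1
  have ha := Q0_nb hc hb hba ca
  have cb := hbw.1
  have cb' := MA_col hbb cb
  have hb'a : b' ≠ a := by
    rintro rfl
    rw [ca] at cb'
    exact absurd cb' (by simp)
  obtain ⟨β, hβ1, hβ2, hNb⟩ := cub2 hG hbb.1 hba hb'a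
  have hbβ : G.Adj b β := (hNb β).2 (by simp)
  have cβ : c β = false := by
    by_contra hh
    exact hβ1 (nice_uniq hc ⟨hbβ, by rw [cb]; symm; simpa using hh⟩ hbb)
  have hβ := Q0_nb hc hb hbβ cβ
  obtain ⟨x', hxx⟩ := md1_ex hx.2
  have cx := hx.1
  have cx' := MA_col hxx cx
  obtain ⟨e1, e2, e3, e4⟩ := pair_ne hc hbb hxx d1.symm d2.symm
  have hab' : G.Adj a b' := (hN b').2 (by simp)
  have hax : G.Adj a x := (hN x).2 (by simp)
  have hE : Emb G c [[1, 2, 3], [0, 2], [0, 1, 4], [0], [2, 5], [4]] 51 0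
      (fun i => [b, b', a, β, x, x'].getD i b) := by
    refine emb_mk hc [b, b', a, β, x, x'] b
      [(0, 1), (0, 2), (0, 3), (1, 2), (2, 4), (4, 5)]
      [(0, 4), (0, 5), (1, 4), (1, 5), (2, 3)] [2, 3] rfl (by decide) ?_ ?_ ?_ ?_
    · simp [hbb.1, hba, hbβ, hab'.symm, hax, hxx.1]
    · simp [e1, e2, e3, e4, hβ2.symm]
    · simp [ha.2, hβ.2]
    · simp [cb, cb', ca, cβ, cx, cx']
      decide
  have hF : cmpR [[1, 2, 3], [0, 2], [0, 1, 4], [0], [2, 5], [4]] 5 = true := by decide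
  have hS : FS [[1, 2, 3], [0, 2], [0, 1, 4], [0], [2, 5], [4]] 5
      (fun i => [b, b', a, β, x, x'].getD i b) = {b, a} := by
    rw [FS_eq {0, 2} (by decide)]
    simp [Finset.image_insert]
  have g1 := hE.valid hG hc hF (by decide)
  have g2 := hE.stD hG hc hF
  rw [hS] at g1 g2
  refine ⟨g1, ?_⟩
  rw [g2]
  decide

theorem world1_false (hI : Stmt_IDENT) (hP : Stmt_PAY1) (hC : Stmt_COUNT2) (hG : Cub G)
    (hW : World1 G c) : False := by
  have h1 := hI V G hG c hW.nice (hW.rule1 hG)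
  have h2 := hP V G hG c hW.nice (hW.rule1 hG) (hW.clA hG)
  rw [hW.lev2] at h1
  have hq : 6 ≤ (Qs G c 0).card := by omega
  obtain ⟨b, hb, a, hba, ca, hsl, v, hv, hd⟩ := hC V G hG c hW.nice hq
    (hW.slots hG hq) (hW.notXX hG hq)
  have h4 : Valid G (flp {b, a} c) ∧ st G (flp {b, a} c) univ - st G c univ = (0, 2, 2) := by
    rcases hsl with ⟨x, y, d1, d2, d3, hN, hx, hbx, hy⟩ | ⟨b', x, hbb, d1, d2, hN, hx⟩ |
      ⟨x, a₂, y, y₂, hx, d1, hbx, -, hN, -, hy, -, -, -⟩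
    · exact H4_M hG hW.nice hb hba ca hN d1 hbx (mem_Qs.1 hx).1 hy
    · exact H4_T hG hW.nice hb hba ca hbb hN d1 d2 (mem_Qs.1 hx).1
    · exact H4_M hG hW.nice hb hba ca hN d1 hbx (mem_Qs.1 hx).1 hy
  obtain ⟨v1, v2⟩ := T4_tok hG hW.nice hv
  refine hW.bad ⟨flp ({b, a} ∪ {v}) c, two_valid hW.nice hd h4.1 v1, ?_⟩
  have h11 := two_st hW.nice hd
  rw [h4.2, v2, st_of_nice hW.nice, hW.lev2] at h11
  rw [sub_eq_iff_eq_add.1 h11]
  rfl

end

end Pool.Agent.Work.MP_1e13ac_W
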