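import Pool.Agent.Work.MP_1e13ac_W.W1Leaf

/-!
# MP_1e13ac_co, full statement: World 1, soundness of the leaf predicate (helper50)
-/

set_option autoImplicit false
set_option linter.unusedSectionVars false

namespace Pool.Agent.Work.MP_1e13ac_W

open Classical Finset Pool.Agent.Work.MP_1e13ac_Bis

noncomputable section

variable {V : Type} [Fintype V] {G : SimpleGraph V} {c : V → Bool}

/-- World 1: `c` minimises `F2`, its level is one, which is the maximal level of a minimiser, and
the number of tops of T1 is minimal; there is no solution -/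
structure World1 (G : SimpleGraph V) (c : V → Bool) : Prop where
  nice : Nice G c
  lev2 : lev c = 2
  min : ∀ c', F2 G c ≤ F2 G c'
  max : ∀ c', F2 G c' = F2 G c → |lev c'| ≤ 2
  t1 : ∀ c', F2 G c' = F2 G c → lev c' = 2 → (T1s G c).card ≤ (T1s G c').card
  bad : ¬ Good' G

section Main

variable {A : PL} {col non F : ℕ} {e : ℕ → V}

theorem absD_eq (n s : ℕ) : (absD n s : ℤ) = |(n : ℤ) + 1 - s| := by
  unfold absD
  show (((n + 1 - s) + (s - (n + 1)) : ℕ) : ℤ) = _
  rcases le_total s (n + 1) with h | h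
  · have e1 : s - (n + 1) = 0 := by omega
    rw [e1, abs_of_nonneg (by omega)]
    omega
  · have e1 : n + 1 - s = 0 := by omega
    rw [e1, abs_of_nonpos (by omega)]
    omega

theorem World1.viol (hG : Cub G) (hW : World1 G c) (h : Emb G c A col non e)
    (hF : cmpR A F = true) (hv : violR A col F = true) : False := by
  have h1 := h.smd hG hF
  have h2 := h.lev hG hF
  have h3 := hW.min (flp (FS A F e) c)
  have h4 := hW.max (flp (FS A F e) c)
  have h5 := absD_eq A.length (sjR A col F)
  unfold F2 at h3 h4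
  rw [hW.lev2] at h2 h3 h4
  have e1 : Pool.Agent.Work.MP_1e13ac_W.lev (flp (FS A F e) c) =
      2 * ((A.length : ℤ) + 1 - sjR A col F) := by linarith
  have e2 : |Pool.Agent.Work.MP_1e13ac_W.lev (flp (FS A F e) c)| =
      2 * (absD A.length (sjR A col F) : ℤ) := by
    rw [e1, h5, abs_mul]
    norm_num
  rw [e2] at h3 h4
  unfold violR at hv
  rw [bleN_iff, lenL_eq] at hv
  have a2 : |(2 : ℤ)| = 2 := by norm_num
  rw [a2] at h3 h4
  by_cases h6 : 2 ≤ absD A.length (sjR A col F)
  · have e3 : Nat.ble (nat_lit 2) (absD A.length (sjR A col F)) = true := (bleN_iff _ _).2 h6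
    rw [e3] at hv
    have hv' : smR A (Nat.xor col F) + (2 * absD A.length (sjR A col F) + 0) ≤
        smR A col + 2 := hv
    have h7 := h4 (by omega)
    omega
  · have e3 : Nat.ble (nat_lit 2) (absD A.length (sjR A col F)) = false := by
      by_contra hh
      exact h6 ((bleN_iff _ _).1 (by simpa using hh))
    rw [e3] at hv
    have hv' : smR A (Nat.xor col F) + (2 * absD A.length (sjR A col F) + 1) ≤
        smR A col + 2 := hv
    omega

theorem World1.sol (hG : Cub G) (hW : World1 G c) (h : Emb G c A col non e)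
    (hF : cmpR A F = true) (hv : solR A col F = true) : False := by
  unfold solR at hv
  rw [andB_iff, andB_iff, andB_iff, beqN_iff, beqN_iff, beqN_iff, lenL_eq] at hv
  obtain ⟨h1, h2, h3, h4⟩ := hv
  have h5 := h.stD hG hW.nice hF
  rw [h1, h2, h3, st_of_nice hW.nice, hW.lev2] at h5
  refine hW.bad ⟨flp (FS A F e) c, h.valid hG hW.nice hF h4, ?_⟩
  have h6 : st G (flp (FS A F e) c) univ = ((2 * ((A.length : ℤ) - (Nat.succ A.length : ℕ)),
      (A.length : ℤ) - A.length, (A.length : ℤ) - A.length) : ℤ × ℤ × ℤ) + (2, 0, 0) :=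
    sub_eq_iff_eq_add.1 h5
  rw [h6]
  refine Prod.ext ?_ (Prod.ext ?_ ?_)
  · show 2 * ((A.length : ℤ) - (Nat.succ A.length : ℕ)) + 2 = 0
    push_cast
    ring
  · show (A.length : ℤ) - A.length + 0 = 0
    ring
  · show (A.length : ℤ) - A.length + 0 = 0
    ring

theorem World1.h3 (hG : Cub G) (hW : World1 G c) (hq : 6 ≤ (Qs G c 0).card)
    (h : Emb G c A col non e) (hF : cmpR A F = true) (hv : h3R A col F = true) : False := by
  unfold h3R at hv
  rw [andB_iff, andB_iff, andB_iff, andB_iff, beqN_iff, beqN_iff, beqN_iff, bleN_iff,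
    lenL_eq] at hv
  obtain ⟨h1, h2, h3, h4, h5⟩ := hv
  have h6 := h.stD hG hW.nice hF
  rw [h1, h2, h3] at h6
  have h7 := h.blk hG hW.nice hF
  have h8 : ∃ x ∈ Qs G c 0, Disjoint (Zn G c (FS A F e)) (Zn G c {x}) := by
    by_contra hh
    push Not at hh
    have h9 : ((Qs G c 0).filter fun x => ¬ Disjoint (Zn G c (FS A F e)) (Zn G c {x})) =
        Qs G c 0 := Finset.filter_true_of_mem hh
    rw [h9] at h7
    have h10 : blkR A col F ≤ 5 := h5
    omega
  obtain ⟨x, hx, hd⟩ := h8
  obtain ⟨t1, t2⟩ := T3_tok hG hW.nice hx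
  refine hW.bad ⟨flp (FS A F e ∪ {x}) c,
    two_valid hW.nice hd (h.valid hG hW.nice hF h4) t1, ?_⟩
  have h11 := two_st hW.nice hd
  rw [h6, t2, st_of_nice hW.nice, hW.lev2] at h11
  have h12 := sub_eq_iff_eq_add.1 h11
  rw [h12]
  refine Prod.ext ?_ (Prod.ext ?_ ?_)
  · show 2 * ((A.length : ℤ) - A.length) + -2 + 2 = 0
    ring
  · show ((Nat.succ A.length : ℕ) : ℤ) - A.length + -1 + 0 = 0
    push_cast
    ring
  · show (A.length : ℤ) - A.length + 0 + 0 = 0
    ring

theorem World1.phi (hG : Cub G) (hW : World1 G c) (h : Emb G c A col non e)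
    (hF : cmpR A F = true) (hv : phiR A col F = true) : False := by
  unfold phiR at hv
  rw [andB_iff, andB_iff, beqN_iff, bleN_iff, bleN_iff, lenL_eq] at hv
  obtain ⟨h1, h2, h3⟩ := hv
  have h4 := h.smd hG hF
  have h5 := h.lev hG hF
  rw [h1, hW.lev2] at h5
  have h6 : Pool.Agent.Work.MP_1e13ac_W.lev (flp (FS A F e) c) = 2 := by linarith
  have h7 := hW.min (flp (FS A F e) c)
  have h8 := hW.t1 (flp (FS A F e) c)
  unfold F2 at h7 h8
  rw [h6, hW.lev2] at h7 h8
  have h9 := h8 (by omega) rfl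
  have h10 := h.t1 hG hF
  have h11 : t1aR A (Nat.xor col F) F + 1 ≤ t1bR A col F := h3
  omega

theorem lf1_sound (hG : Cub G) (hW : World1 G c) (b : Bool)
    (hq : b = true → 6 ≤ (Qs G c 0).card) (A : PL) (col non act : ℕ) (e : ℕ → V)
    (hl : lf1 b A col non act = true) (h : Emb G c A col non e) : False := by
  unfold lf1 at hl
  rw [andB_iff] at hl
  obtain ⟨hF, hl⟩ := hl
  generalize Nat.mod act (nat_lit 4) = m at hl
  match m, hl with
  | 0, hl => exact hW.viol hG h hF hl
  | 1, hl => exact hW.sol hG h hF hl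
  | 2, hl =>
    have hl' : andB b (h3R A col (Nat.div act (nat_lit 4))) = true := hl
    rw [andB_iff] at hl'
    exact hW.h3 hG (hq hl'.1) h hF hl'.2
  | k + 3, hl => exact hW.phi hG h hF hl

end Main

/-- certificates in World 1 -/
theorem World1.cert (hG : Cub G) (hW : World1 G c) (b : Bool)
    (hq : b = true → 6 ≤ (Qs G c 0).card) {S : List It} {A : PL} {col non : ℕ} {e : ℕ → V}
    (hr : run (lf1 b) S [⟨A, col, non⟩] = true) (h : Emb G c A col non e) : False :=
  run_sound hG hW.nice (fun A col non act e => lf1_sound hG hW b hq A col non act e) S _ hr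
    ⟨A, col, non⟩ (by simp) e h

end

end Pool.Agent.Work.MP_1e13ac_W
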