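import Pool.Agent.Work.MP_1e13ac_W.L2Sound
import Pool.Agent.Work.MP_1e13ac_W.L2World
import Pool.Agent.Work.MP_1e13ac_W.L2Gen
import Pool.Agent.Work.MP_1e13ac_W.W1Sound
import Pool.Agent.Work.MP_1e13ac_W.W1Final
import Pool.Agent.Work.MP_1e13ac_W.L1Defs
import Pool.Agent.Work.MP_1e13ac_W.L1LDefs

/-!
# MP_1e13ac_co, full statement: level-1 world, soundness of the leaf predicate (helper50)
-/

set_option autoImplicit false
set_option linter.unusedSectionVars false

namespace Pool.Agent.Work.MP_1e13ac_W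

open Classical Finset Pool.Agent.Work.MP_1e13ac_Bis

noncomputable section

variable {V : Type} [Fintype V] {G : SimpleGraph V} {c : V → Bool}

section Main

variable {A : PL} {col non F : ℕ} {e : ℕ → V}

/-- the zone of a vertex meets a closed zone only near the vertex -/
theorem zone1 (hc : Nice G c) {F : Finset V} {x y : V} (hy : y ∈ Zn G c {x})
    (hyF : y ∈ Zn G c F) : ∃ z, z ∈ Zn G c F ∧ (z = x ∨ G.Adj x z) := by
  have hN : ∀ z, z ∈ NF G {x} → z = x ∨ G.Adj x z := by
    intro z hz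
    rcases mem_NF.1 hz with h1 | ⟨f, hf, h1⟩
    · exact Or.inl (by simpa using h1)
    · have hfx : f = x := by simpa using hf
      subst hfx
      exact Or.inr h1
  rcases mem_Zn.1 hy with h1 | ⟨z, hz, h1⟩
  · exact ⟨y, hyF, hN y h1⟩
  · exact ⟨z, Zn_mate hc hyF (ma_symm h1), hN z hz⟩

theorem Emb.blk4 (hG : Cub G) (hc : Nice G c) (h : Emb G c A col non e) (hF : cmpR A F = true)
    {S : Finset V} (hS : ∀ x ∈ S, IsW1 G c x) :
    (S.filter fun x => ¬ Disjoint (Zn G c (FS A F e)) (Zn G c {x})).card ≤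
      blk4R A col F := by
  set I := (range A.length).filter fun i => blk4W A col F i (glR A i) = true with hI
  set J := (range A.length).filter fun i => bZ A col F i (glR A i) = true with hJ
  have hb0 : ∀ j < A.length, bZ A col F j (glR A j) = true ↔
      c (e j) = false ∧ e j ∈ Zn G c (FS A F e) := by
    intro j hj
    unfold bZ
    rw [andB_iff, notB_iff, ← h.inZ_iff hG hF hj, h.colr j hj]
  have hsub : (S.filter fun x => ¬ Disjoint (Zn G c (FS A F e)) (Zn G c {x})) ⊆
      I.image e ∪ J.biUnion fun j => (nbs G (e j)) \ (glR A j).toFinset.image e := by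
    intro x hx
    rw [Finset.mem_filter] at hx
    obtain ⟨hq, hd⟩ := hx
    have hw := hS x hq
    rw [Finset.not_disjoint_iff] at hd
    obtain ⟨y, hy1, hy2⟩ := hd
    rw [Finset.mem_union, Finset.mem_biUnion]
    have caseA : x ∈ Zn G c (FS A F e) → x ∈ I.image e := by
      intro hxZ
      have : ¬ ∀ i < A.length, e i ≠ x := fun hh => h.outZ hG hF hh hxZ
      push Not at this
      obtain ⟨i, hi, rfl⟩ := this
      refine Finset.mem_image.2 ⟨i, ?_, rfl⟩
      rw [hI, Finset.mem_filter, Finset.mem_range]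
      refine ⟨hi, ?_⟩
      unfold blk4W
      rw [andB_iff, andB_iff, beqN_iff, orB_iff]
      exact ⟨by rw [← h.colr i hi]; exact hw.1, by rw [← h.loc.md_eq hi]; exact hw.2,
        Or.inl ((h.inZ_iff hG hF hi).1 hxZ)⟩
    obtain ⟨z, hz1, hz2⟩ := zone1 hc hy2 hy1
    rcases hz2 with rfl | hz2
    · exact Or.inl (caseA hz1)
    · by_cases hcz : c z = true
      · exact Or.inl (caseA (Zn_mate hc hz1 ⟨hz2.symm, by rw [hcz, hw.1]⟩))
      · have hcz' : c z = false := by simpa using hcz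
        have : ¬ ∀ i < A.length, e i ≠ z := fun hh => h.outZ hG hF hh hz1
        push Not at this
        obtain ⟨j, hj, rfl⟩ := this
        have hjb := (hb0 j hj).2 ⟨hcz', hz1⟩
        by_cases hx2 : ∃ i ∈ glR A j, e i = x
        · obtain ⟨i, hi, rfl⟩ := hx2
          have h4 := h.adj j hj i hi
          refine Or.inl (Finset.mem_image.2 ⟨i, ?_, rfl⟩)
          rw [hI, Finset.mem_filter, Finset.mem_range]
          refine ⟨h4.1, ?_⟩
          unfold blk4W
          rw [andB_iff, andB_iff, beqN_iff, orB_iff]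
          exact ⟨by rw [← h.colr i h4.1]; exact hw.1, by rw [← h.loc.md_eq h4.1]; exact hw.2,
            Or.inr ((anyL_iff _ _).2 ⟨j, h4.2.2, hjb⟩)⟩
        · refine Or.inr ⟨j, ?_, ?_⟩
          · rw [hJ, Finset.mem_filter, Finset.mem_range]
            exact ⟨hj, hjb⟩
          · rw [Finset.mem_sdiff]
            refine ⟨Finset.mem_filter.2 ⟨Finset.mem_univ _, hz2.symm⟩, ?_⟩
            intro hh
            obtain ⟨i, hi, h5⟩ := Finset.mem_image.1 hh
            exact hx2 ⟨i, List.mem_toFinset.1 hi, h5⟩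
  refine (Finset.card_le_card hsub).trans ((Finset.card_union_le _ _).trans ?_)
  have h1 : (I.image e).card ≤ I.card := Finset.card_image_le
  have h2 : (J.biUnion fun j => (nbs G (e j)) \ (glR A j).toFinset.image e).card ≤
      ∑ j ∈ J, (3 - (glR A j).length) := by
    refine Finset.card_biUnion_le.trans (Finset.sum_le_sum fun j hj => ?_)
    rw [hJ, Finset.mem_filter, Finset.mem_range] at hj
    have h3 : (glR A j).toFinset.image e ⊆ nbs G (e j) := by
      intro x hx
      obtain ⟨i, hi, rfl⟩ := Finset.mem_image.1 hx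
      exact Finset.mem_filter.2 ⟨Finset.mem_univ _, (h.adj j hj.1 i (List.mem_toFinset.1 hi)).2.1⟩
    rw [Finset.card_sdiff_of_subset h3]
    have h4 : ((glR A j).toFinset.image e).card = (glR A j).length := by
      rw [Finset.card_image_of_injOn, List.toFinset_card_of_nodup (h.nodup j hj.1)]
      intro a ha b hb hab
      have ha' : a ∈ glR A j := List.mem_toFinset.1 (by simpa using ha)
      have hb' : b ∈ glR A j := List.mem_toFinset.1 (by simpa using hb)
      exact h.inj a (h.adj j hj.1 a ha').1 b (h.adj j hj.1 b hb').1 hab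
    rw [h4, hG (e j)]
  have h3 : blk4R A col F = I.card + ∑ j ∈ J, (3 - (glR A j).length) := by
    have e1 : blk4R A col F = ∑ i ∈ range A.length,
        ((Bool.rec (motive := fun _ => ℕ) 0 1 (blk4W A col F i (glR A i)) : ℕ) +
        (Bool.rec (motive := fun _ => ℕ) 0 (3 - lenN (glR A i))
          (bZ A col F i (glR A i)) : ℕ)) := by
      unfold blk4R
      exact sumI0_eq _ _
    rw [e1, Finset.sum_add_distrib, hI, hJ, Finset.card_filter, Finset.sum_filter]
    congr 1
    · refine forallN_congr fun i _ => ?_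
      cases blk4W A col F i (glR A i) <;> simp
    · refine forallN_congr fun i _ => ?_
      rw [lenN_eq]
      cases bZ A col F i (glR A i) <;> simp
  omega

theorem WL1.viol (hG : Cub G) (hW : WL1 G c) (h : Emb G c A col non e)
    (hF : cmpR A F = true) (hv : viol1R A col F = true) : False := by
  have h1 := h.smd hG hF
  have h2 := h.lev hG hF
  have h3 := hW.min (flp (FS A F e) c)
  have h5 := absD_eq A.length (sjR A col F)
  unfold F2 at h3
  rw [hW.lev2] at h2 h3
  have e1 : Pool.Agent.Work.MP_1e13ac_W.lev (flp (FS A F e) c) =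
      2 * ((A.length : ℤ) + 1 - sjR A col F) := by linarith
  have e2 : |Pool.Agent.Work.MP_1e13ac_W.lev (flp (FS A F e) c)| =
      2 * (absD A.length (sjR A col F) : ℤ) := by
    rw [e1, h5, abs_mul]
    norm_num
  rw [e2] at h3
  unfold viol1R at hv
  rw [bleN_iff, lenL_eq] at hv
  have a2 : |(2 : ℤ)| = 2 := by norm_num
  rw [a2] at h3
  have hv' : smR A (Nat.xor col F) + 2 * absD A.length (sjR A col F) + 1 ≤ smR A col + 2 := hv
  omega

theorem WL1.zero (hG : Cub G) (hW : WL1 G c) (h : Emb G c A col non e)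
    (hF : cmpR A F = true) (hv : zeroR A col F = true) : False := by
  have h1 := h.smd hG hF
  have h2 := h.lev hG hF
  have h3 := hW.min (flp (FS A F e) c)
  unfold zeroR at hv
  rw [andB_iff, andB_iff, beqN_iff, bleN_iff, lenL_eq] at hv
  obtain ⟨h5, h6, h7⟩ := hv
  have hn := h.nice hG hW.nice hF h5
  have hlow := hW.low _ hn
  rw [h6, hW.lev2] at h2
  have h8 : Pool.Agent.Work.MP_1e13ac_W.lev (flp (FS A F e) c) = 0 := by
    push_cast at h2
    linarith
  have h7' : smR A (Nat.xor col F) ≤ smR A col + 2 := h7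
  unfold F2 at h3 hlow
  have a2 : |(2 : ℤ)| = 2 := by norm_num
  rw [h8, hW.lev2, a2, abs_zero] at h3 hlow
  have := hlow (by omega)
  omega

theorem WL1.up (hG : Cub G) (hW : WL1 G c) (h : Emb G c A col non e)
    (hF : cmpR A F = true) (hv : up2R A col F = true) : False := by
  have h1 := h.smd hG hF
  have h2 := h.lev hG hF
  have h3 := hW.min (flp (FS A F e) c)
  have ht := h.t1 hG hF
  unfold up2R at hv
  rw [andB_iff, andB_iff, andB_iff, bleN_iff, bleN_iff, bleN_iff, lenL_eq] at hv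
  obtain ⟨h5, h6, h7, h8⟩ := hv
  have hn := h.nice hG hW.nice hF h5
  have h6' : sjR A col F ≤ A.length := h6
  have h7' : smR A (Nat.xor col F) + 2 * A.length ≤ smR A col + 2 * sjR A col F := h7
  have h8' : t1aR A (Nat.xor col F) F + 3 * A.length + 1 ≤ t1bR A col F + 3 * sjR A col F := h8
  unfold F2 at h3
  rw [hW.lev2] at h2 h3
  have a2 : |(2 : ℤ)| = 2 := by norm_num
  rw [a2] at h3
  have h12 : ∃ m : ℕ, Pool.Agent.Work.MP_1e13ac_W.lev (flp (FS A F e) c) = 2 * (m : ℤ) :=
    ⟨1 + A.length - sjR A col F, by omega⟩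
  obtain ⟨m, hm2⟩ := h12
  have h13 : |Pool.Agent.Work.MP_1e13ac_W.lev (flp (FS A F e) c)| = 2 * (m : ℤ) := by
    rw [hm2]
    exact abs_of_nonneg (by positivity)
  rw [h13] at h3
  have h14 := hW.lex _ m hn (by
    unfold F2
    rw [h13, hW.lev2, a2]
    omega) hm2
  omega

theorem WL1.q02 (hG : Cub G) (hW : WL1 G c) (h : Emb G c A col non e)
    (hF : cmpR A F = true) (hv : q02R A col F = true) : False := by
  have h1 := h.smd hG hF
  have h2 := h.lev hG hF
  have h3 := hW.min (flp (FS A F e) c)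
  have ht := h.t1 hG hF
  unfold q02R at hv
  rw [andB_iff, andB_iff, andB_iff, andB_iff, beqN_iff, bleN_iff, bleN_iff, bleN_iff,
    lenL_eq] at hv
  obtain ⟨h5, h6, h7, h8, h9⟩ := hv
  have hn := h.nice hG hW.nice hF h5
  have hq := h.q0 hG hW.nice hF hn
  have h9' : qLoss A col (Nat.xor col F) + 1 ≤ qGain A col (Nat.xor col F) := h9
  unfold F2 at h3
  rw [hW.lev2] at h2 h3
  have h7' : smR A (Nat.xor col F) ≤ smR A col := h7
  have h8' : t1aR A (Nat.xor col F) F ≤ t1bR A col F := h8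
  have hm2 : Pool.Agent.Work.MP_1e13ac_W.lev (flp (FS A F e) c) = 2 * ((1 : ℕ) : ℤ) := by
    rw [h6] at h2
    push_cast
    omega
  rw [hm2] at h3
  have h14 := hW.lex _ 1 hn (by
    unfold F2
    rw [hm2, hW.lev2]
    push_cast at h3 ⊢
    omega) hm2
  omega

theorem WL1.sol (hG : Cub G) (hW : WL1 G c) (h : Emb G c A col non e)
    (hF : cmpR A F = true) (hv : solR A col F = true) : False := by
  unfold solR at hv
  rw [andB_iff, andB_iff, andB_iff, beqN_iff, beqN_iff, beqN_iff, lenL_eq] at hv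
  obtain ⟨h1, h2, h3, h4⟩ := hv
  have h5 := h.stD hG hW.nice hF
  rw [h1, h2, h3, st_of_nice hW.nice, hW.lev2] at h5
  refine hW.bad ⟨flp (FS A F e) c, h.valid hG hW.nice hF h4, ?_⟩
  have h6 : st G (flp (FS A F e) c) univ = ((2 * ((A.length : ℤ) - (Nat.succ A.length : ℕ)),
      (A.length : ℤ) - A.length, (A.length : ℤ) - A.length) : ℤ × ℤ × ℤ) + (2, 0, 0) :=
    sub_eq_iff_eq_add.1 h5
  rw [h6]
  refine Prod.ext ?_ (Prod.ext ?_ ?_)
  · show 2 * ((A.length : ℤ) - (Nat.succ A.length : ℕ)) + 2 = 0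
    push_cast
    ring
  · show (A.length : ℤ) - A.length + 0 = 0
    ring
  · show (A.length : ℤ) - A.length + 0 = 0
    ring

theorem WL1.h3 (hG : Cub G) (hW : WL1 G c) (hq : 6 ≤ (Qs G c 0).card)
    (h : Emb G c A col non e) (hF : cmpR A F = true) (hv : h3R A col F = true) : False := by
  unfold h3R at hv
  rw [andB_iff, andB_iff, andB_iff, andB_iff, beqN_iff, beqN_iff, beqN_iff, bleN_iff,
    lenL_eq] at hv
  obtain ⟨h1, h2, h3, h4, h5⟩ := hv
  have h6 := h.stD hG hW.nice hF
  rw [h1, h2, h3] at h6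
  have h7 := h.blk hG hW.nice hF
  have h8 : ∃ x ∈ Qs G c 0, Disjoint (Zn G c (FS A F e)) (Zn G c {x}) := by
    by_contra hh
    push Not at hh
    have h9 : ((Qs G c 0).filter fun x => ¬ Disjoint (Zn G c (FS A F e)) (Zn G c {x})) =
        Qs G c 0 := Finset.filter_true_of_mem hh
    rw [h9] at h7
    have h10 : blkR A col F ≤ 5 := h5
    omega
  obtain ⟨x, hx, hd⟩ := h8
  obtain ⟨t1, t2⟩ := T3_tok hG hW.nice hx
  refine hW.bad ⟨flp (FS A F e ∪ {x}) c,
    two_valid hW.nice hd (h.valid hG hW.nice hF h4) t1, ?_⟩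
  have h11 := two_st hW.nice hd
  rw [h6, t2, st_of_nice hW.nice, hW.lev2] at h11
  have h12 := sub_eq_iff_eq_add.1 h11
  rw [h12]
  refine Prod.ext ?_ (Prod.ext ?_ ?_)
  · show 2 * ((A.length : ℤ) - A.length) + -2 + 2 = 0
    ring
  · show ((Nat.succ A.length : ℕ) : ℤ) - A.length + -1 + 0 = 0
    push_cast
    ring
  · show (A.length : ℤ) - A.length + 0 + 0 = 0
    ring

theorem WL1.h4 (hG : Cub G) (hW : WL1 G c) (hq : 24 ≤ (Qs G c 1).card)
    (h : Emb G c A col non e) (hF : cmpR A F = true) (hv : h4R A col F = true) : False := by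
  unfold h4R at hv
  rw [andB_iff, andB_iff, andB_iff, andB_iff, beqN_iff, beqN_iff, beqN_iff, bleN_iff,
    lenL_eq] at hv
  obtain ⟨h1, h2, h3, h4, h5⟩ := hv
  have h6 := h.stD hG hW.nice hF
  rw [h1, h2, h3] at h6
  have h7 := h.blk4 hG hW.nice hF (S := Qs G c 1) fun x hx => (mem_Qs.1 hx).1
  have h8 : ∃ x ∈ Qs G c 1, Disjoint (Zn G c (FS A F e)) (Zn G c {x}) := by
    by_contra hh
    push Not at hh
    have h9 : ((Qs G c 1).filter fun x => ¬ Disjoint (Zn G c (FS A F e)) (Zn G c {x})) =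
        Qs G c 1 := Finset.filter_true_of_mem hh
    rw [h9] at h7
    have h10 : blk4R A col F ≤ 23 := h5
    omega
  obtain ⟨x, hx, hd⟩ := h8
  obtain ⟨t1, t2⟩ := T4_tok hG hW.nice hx
  refine hW.bad ⟨flp (FS A F e ∪ {x}) c,
    two_valid hW.nice hd (h.valid hG hW.nice hF h4) t1, ?_⟩
  have h11 := two_st hW.nice hd
  rw [h6, t2, st_of_nice hW.nice, hW.lev2] at h11
  have h12 := sub_eq_iff_eq_add.1 h11
  rw [h12]
  have e3 : ((Nat.add (nat_lit 2) A.length : ℕ) : ℤ) = 2 + A.length := by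
    show ((2 + A.length : ℕ) : ℤ) = 2 + A.length
    push_cast
    ring
  refine Prod.ext ?_ (Prod.ext ?_ ?_)
  · show 2 * ((A.length : ℤ) - A.length) + -2 + 2 = 0
    ring
  · show ((Nat.add (nat_lit 2) A.length : ℕ) : ℤ) - A.length + -2 + 0 = 0
    rw [e3]
    ring
  · show ((Nat.add (nat_lit 2) A.length : ℕ) : ℤ) - A.length + -2 + 0 = 0
    rw [e3]
    ring

theorem Emb.exc (hc : Nice G c) {M : List ℕ} (h : Emb G c A col non e)
    (hM : ∀ i ∈ M, i < A.length ∧ e i ∈ Qs G c 0) (hv : exR M A col = true) : False := by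
  unfold exR at hv
  rw [anyL_iff] at hv
  obtain ⟨i, hi, hv⟩ := hv
  obtain ⟨hi2, hq⟩ := hM i hi
  unfold hasB1 at hv
  rw [anyL_iff] at hv
  obtain ⟨j, hj, h1⟩ := hv
  rw [andB_iff, notB_iff, beqN_iff] at h1
  have h3 := h.adj i hi2 j hj
  have h4 := Q0_nb hc hq h3.2.1 (by rw [h.colr j h3.1, h1.1])
  have h5 := h.loc.md_eq h3.1
  rw [h4.2, h1.2] at h5
  have h6 : (0 : ℕ) = 1 := h5
  omega

theorem lfL_sound (hG : Cub G) (hW : WL1 G c) (b3 b4 : Bool) (M : List ℕ)
    (hq3 : b3 = true → 6 ≤ (Qs G c 0).card) (hq4 : b4 = true → 24 ≤ (Qs G c 1).card)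
    (A : PL) (col non act : ℕ) (e : ℕ → V)
    (hl : lfL b3 b4 M A col non act = true) (h : Emb G c A col non e)
    (hM : ∀ i ∈ M, i < A.length ∧ e i ∈ Qs G c 0) : False := by
  unfold lfL at hl
  generalize Nat.mod act (nat_lit 8) = m at hl
  match m, hl with
  | 0, hl =>
    have hl' := (andB_iff _ _).1 hl
    exact hW.viol hG h hl'.1 hl'.2
  | 1, hl =>
    have hl' := (andB_iff _ _).1 hl
    exact hW.zero hG h hl'.1 hl'.2
  | 2, hl =>
    have hl' := (andB_iff _ _).1 hl
    exact hW.up hG h hl'.1 hl'.2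
  | 3, hl =>
    have hl' := (andB_iff _ _).1 hl
    exact hW.q02 hG h hl'.1 hl'.2
  | 4, hl =>
    have hl' := (andB_iff _ _).1 hl
    exact hW.sol hG h hl'.1 hl'.2
  | 5, hl =>
    have hl' := (andB_iff _ _).1 hl
    have hl'' := (andB_iff _ _).1 hl'.2
    exact hW.h3 hG (hq3 hl'.1) h hl''.1 hl''.2
  | 6, hl =>
    have hl' := (andB_iff _ _).1 hl
    have hl'' := (andB_iff _ _).1 hl'.2
    exact hW.h4 hG (hq4 hl'.1) h hl''.1 hl''.2
  | k + 7, hl => exact h.exc hW.nice hM hl

end Main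

/-- certificates in the level-1 world -/
theorem WL1.cert (hG : Cub G) (hW : WL1 G c) (b3 b4 : Bool) (M : List ℕ)
    (hq3 : b3 = true → 6 ≤ (Qs G c 0).card) (hq4 : b4 = true → 24 ≤ (Qs G c 1).card)
    {S : List It} {A : PL} {col non : ℕ} {e : ℕ → V}
    (hr : run (lfL b3 b4 M) S [⟨A, col, non⟩] = true) (h : Emb G c A col non e)
    (hM : ∀ i ∈ M, i < A.length ∧ e i ∈ Qs G c 0) : False := by
  refine run_soundK hG hW.nice (lf := lfL b3 b4 M) _ A.length e ?_ S _ hr ⟨A, col, non⟩
    (by simp) e h le_rfl fun i _ => rfl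
  intro A' col' non' act e' hl hE hn0 he
  refine lfL_sound hG hW b3 b4 M hq3 hq4 A' col' non' act e' hl hE ?_
  intro i hi
  obtain ⟨h1, h2⟩ := hM i hi
  exact ⟨h1.trans_le hn0, by rw [he i h1]; exact h2⟩

end

end Pool.Agent.Work.MP_1e13ac_W
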