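import Pool.Agent.Work.MP_1e13ac_W.T1Glue
import Pool.Agent.Work.MP_1e13ac_W.L1World
import Pool.Agent.Work.MP_1e13ac_W.L1Cert
import Pool.Agent.Work.MP_1e13ac_W.L1CertT
import Pool.Agent.Work.MP_1e13ac_W.L1CertTT

/-!
# MP_1e13ac_co, full statement: level-1 world, the payments of the T1 (helper50)
-/

set_option autoImplicit false
set_option linter.unusedSectionVars false

namespace Pool.Agent.Work.MP_1e13ac_W

open Classical Finset Pool.Agent.Work.MP_1e13ac_Bis

noncomputable section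

variable {V : Type} [Fintype V] {G : SimpleGraph V} {c : V → Bool}

open CntAux T1C T1G

/-- certificates with genuine outers -/
theorem WL1.certG (hG : Cub G) (hW : WL1 G c) {S : List It} {A : PL} {col non : ℕ}
    {e : ℕ → V} (tops : List ℕ) (n : ℕ) (ht : ∀ z ∈ tops, z < A.length)
    (hr : run (lfLG tops n) S [⟨A, col, non⟩] = true) (h : Emb G c A col non e) :
    n ≤ (univ.filter fun u => ∃ z ∈ tops, u ∈ Gen G c (e z)).card := by
  refine run_soundK hG hW.nice (lf := lfLG tops n) _ A.length e ?_ S _ hr ⟨A, col, non⟩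
    (by simp) e h le_rfl fun i _ => rfl
  intro A' col' non' act e' hl hE hn0 he
  unfold lfLG at hl
  rw [orB_iff, andB_iff, bleN_iff] at hl
  rcases hl with hl | ⟨-, hl⟩
  · exact (lfL_sound hG hW false false [] (by simp) (by simp) A' col' non' act e' hl hE
      (by simp)).elim
  · have h1 := hE.genCnt_le hG hW.nice (tops := tops) fun z hz => (ht z hz).trans_le hn0
    have h2 : (univ.filter fun u => ∃ z ∈ tops, u ∈ Gen G c (e' z)) =
        univ.filter fun u => ∃ z ∈ tops, u ∈ Gen G c (e z) := by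
      refine Finset.filter_congr fun u _ => ?_
      constructor
      · rintro ⟨z, hz, hu⟩
        exact ⟨z, hz, by rw [← he z (ht z hz)]; exact hu⟩
      · rintro ⟨z, hz, hu⟩
        exact ⟨z, hz, by rw [he z (ht z hz)]; exact hu⟩
    rw [h2] at h1
    exact hl.trans h1

/-- certificates without marks and helpers -/
theorem WL1.cert0 (hG : Cub G) (hW : WL1 G c) {S : List It} {A : PL} {col non : ℕ} {e : ℕ → V}
    (hr : run (lfL false false []) S [⟨A, col, non⟩] = true) (h : Emb G c A col non e) : False :=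
  hW.cert hG false false [] (by simp) (by simp) hr h (by simp)

theorem WL1.rule1 (hG : Cub G) (hW : WL1 G c) : Rule1 G c := by
  intro z p q hz hzp hzq hpq hp hq
  by_contra hadj
  obtain ⟨z', hz'⟩ := mate_exists hz.2
  obtain ⟨p', hp'⟩ := mate_exists hp.2
  obtain ⟨q', hq'⟩ := mate_exists hq.2
  have h1 : p' ≠ q := by
    rintro rfl
    exact hadj hp'.1
  obtain ⟨h2, h3⟩ := ne_of_mates hW.nice hp' hq' hpq h1
  have cz' := MAc hz' hz.1
  have cp' := MAc hp' hp.1
  have cq' := MAc hq' hq.1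
  refine hW.cert0 hG dRule_ok (e := fun i => [z, z', p, q, p', q'].getD i z) ?_
  refine emb_mk hW.nice [z, z', p, q, p', q'] z [(0, 1), (0, 2), (0, 3), (2, 4), (3, 5)]
    [(2, 3), (2, 5), (3, 4), (4, 5)] [] rfl (by decide) ?_ ?_ ?_ ?_
  · simp [hz'.1, hzp, hzq, hp'.1, hq'.1]
  · simp [hpq, h2, h1.symm, h3]
  · simp
  · simp [hz.1, hp.1, hq.1, cz', cp', cq']
    decide

/-- two T1, the tops of which are not mates, have no common white vertex -/
theorem WL1.diamond (hG : Cub G) (hW : WL1 G c) {z₁ z₂ : V} (h1 : z₁ ∈ T1s G c)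
    (h2 : z₂ ∈ T1s G c) (hne : z₁ ≠ z₂) (hm : ¬ MA G c z₁ z₂) {p : V} (hp : IsW1 G c p)
    (hp1 : G.Adj z₁ p) (hp2 : G.Adj z₂ p) : False := by
  have hc := hW.nice
  have hR := hW.rule1 hG
  have aux : ∀ z ∈ T1s G c, G.Adj z p → ∃ q, MA G c p q ∧ G.Adj z q := by
    intro z hz hzp
    obtain ⟨r, s, a1, a2, a3, a4, a5⟩ := T1_vs hc hz
    by_cases e : r = p
    · rw [e] at a3
      exact ⟨s, a3, a2⟩
    · refine ⟨r, ⟨hR z p r (T1_B1 hz) hzp a1 (fun h => e h.symm) hp a4, ?_⟩, a1⟩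
      rw [hp.1, a4.1]
  obtain ⟨q, q1, q2⟩ := aux z₁ h1 hp1
  obtain ⟨q', q1', q2'⟩ := aux z₂ h2 hp2
  have e := nice_uniq hc q1' q1
  subst e
  obtain ⟨z₁', m1⟩ := mate_exists (T1_B1 h1).2
  obtain ⟨z₂', m2⟩ := mate_exists (T1_B1 h2).2
  have n1 : z₁' ≠ z₂ := by
    rintro rfl
    exact hm m1
  obtain ⟨n2, n3⟩ := ne_of_mates hc m1 m2 hne n1
  have cq := MAc q1 hp.1
  have b1 := (T1_B1 h1).1
  have b2 := (T1_B1 h2).1
  have c1 := MAc m1 b1
  have c2 := MAc m2 b2
  refine hW.cert0 hG dDia_ok (e := fun i => [z₁, z₁', p, q', z₂, z₂'].getD i z₁) ?_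
  refine emb_mk hc [z₁, z₁', p, q', z₂, z₂'] z₁
    [(0, 1), (0, 2), (0, 3), (2, 3), (2, 4), (3, 4), (4, 5)]
    [(0, 4), (0, 5), (1, 4), (1, 5)] [] rfl (by decide) ?_ ?_ ?_ ?_
  · simp [m1.1, hp1, q2, q1.1, hp2.symm, q2'.symm, m2.1]
  · simp [hne, n1, n2, n3]
  · simp
  · simp [b1, b2, c1, c2, hp.1, cq]
    decide

theorem WL1.t1facts (hG : Cub G) (hW : WL1 G c) : T1Facts G c := by
  refine ⟨hW.rule1 hG, ?_, ?_, ?_, ?_⟩
  · intro z₁ h1 z₂ h2 hne hm p hp hp1 hp2
    exact hW.diamond hG h1 h2 hne hm hp hp1 hp2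
  · intro e hE
    obtain ⟨u, i, hi, hu⟩ := ex_of_card (hW.certG hG [0] 1 (by simp) dP1_ok hE)
    rw [List.mem_singleton] at hi
    subst hi
    exact ⟨u, hu⟩
  · intro e hE
    obtain ⟨u, i, hi, hu⟩ := ex_of_card (hW.certG hG [0, 6] 1 (by simp) dDSP_ok hE)
    simp only [List.mem_cons, List.not_mem_nil, or_false] at hi
    rcases hi with rfl | rfl
    · exact ⟨u, Or.inl hu⟩
    · exact ⟨u, Or.inr hu⟩
  · intro e hE
    obtain ⟨u, w, huw, ⟨i, hi, hu⟩, j, hj, hw⟩ :=
      ex2_of_card (hW.certG hG [0, 1] 2 (by simp) dTT_ok hE)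
    simp only [List.mem_cons, List.not_mem_nil, or_false] at hi hj
    refine ⟨u, w, huw, ?_, ?_⟩
    · rcases hi with rfl | rfl
      · exact Or.inl hu
      · exact Or.inr hu
    · rcases hj with rfl | rfl
      · exact Or.inl hw
      · exact Or.inr hw

/-- there are at least `6 + |D|` sources when the vertices of `D` are free -/
theorem WL1.q0_free (hG : Cub G) (hW : WL1 G c) {ρ : V → V} (hρ : RhoOK G c ρ)
    (D : Finset V) (hF : ∀ x ∈ D, FreeR G c ρ x) : 6 + D.card ≤ (Qs G c 0).card := by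
  have h := (hW.t1facts hG).q0_free hG hW.nice hρ D hF
  rw [hW.lev2] at h
  omega

theorem WL1.six (hG : Cub G) (hW : WL1 G c) : 6 ≤ (Qs G c 0).card := by
  obtain ⟨ρ, hρ⟩ := (hW.t1facts hG).exists_rho hG hW.nice
  have := hW.q0_free hG hρ ∅ (by simp)
  simpa using this

end

end Pool.Agent.Work.MP_1e13ac_W
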