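import Pool.Agent.Work.MP_1e13ac_W.ZDefs

/-!
# MP_1e13ac_co, full statement: leaf predicate of World 2 (helper80)

`act = kind + 8 F` with kinds
* 0: violation of f-minimality for every `k ≥ 2`,
* 1: nice move with `1 ≤ j ≤ 2`, `Δμ ≤ j`, `Δ#T1 ≤ 3 j`,
* 2: nice move with `j ≤ 0`, `Δμ ≤ j`, `Δ#T1 < 3 j` (neutral moves and up-moves),
* 3: nice neutral move, `#T1` not up, `#Q0` up.
-/

set_option autoImplicit false

namespace Pool.Agent.Work.MP_1e13ac_W

noncomputable section

/-- all monochromatic degrees of listed vertices are at most one -/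
def niceR (A : PL) (c : Nat) : Bool :=
  allI (fun i l => Nat.ble (mdl c i l) (nat_lit 1)) A (nat_lit 0)

/-- `i` with list `l` could be a source: white, one white neighbour, no listed neighbour in `B1` -/
def q0Q (A : PL) (c i : Nat) (l : List Nat) : Bool :=
  andB (tb c i) (andB (Nat.beq (mdl c i l) (nat_lit 1))
    (notB (anyL (fun j => andB (notB (tb c j)) (notB (Nat.beq (mdl c j (glR A j)) (nat_lit 0)))) l)))

/-- black vertex of monochromatic degree zero in `c1`, not so in `c2` -/
def b0C (c1 c2 i : Nat) (l : List Nat) : Bool :=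
  andB (notB (tb c1 i)) (andB (Nat.beq (mdl c1 i l) (nat_lit 0))
    (notB (andB (notB (tb c2 i)) (Nat.beq (mdl c2 i l) (nat_lit 0)))))

/-- upper bound for the number of sources which are lost -/
def qLoss (A : PL) (c1 c2 : Nat) : Nat :=
  sumI (fun i l => Nat.add
    (Bool.rec (motive := fun _ => Nat) (nat_lit 0) (nat_lit 1)
      (andB (q0Q A c1 i l) (notB (q0Q A c2 i l))))
    (Bool.rec (motive := fun _ => Nat) (nat_lit 0) (Nat.sub (nat_lit 3) (lenN l))
      (b0C c1 c2 i l))) A (nat_lit 0)

/-- lower bound for the number of sources which are gained -/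
def qGain (A : PL) (c1 c2 : Nat) : Nat :=
  sumI (fun i l => Bool.rec (motive := fun _ => Nat) (nat_lit 0) (nat_lit 1)
    (andB (Nat.beq (lenN l) (nat_lit 3)) (andB (q0Q A c2 i l) (notB (q0Q A c1 i l)))))
    A (nat_lit 0)

/-- violation of the minimality of `F2` for every level `k ≥ 2` -/
def viol2R (A : PL) (col F : Nat) : Bool :=
  andB (Nat.ble (Nat.succ (Nat.add (smR A (Nat.xor col F)) (Nat.mul (nat_lit 2) (lenL A))))
      (Nat.add (smR A col) (Nat.mul (nat_lit 2) (sjR A col F))))
    (Nat.ble (Nat.succ (Nat.add (smR A (Nat.xor col F)) (Nat.mul (nat_lit 2) (sjR A col F))))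
      (Nat.add (smR A col) (Nat.add (nat_lit 8) (Nat.mul (nat_lit 2) (lenL A)))))

/-- nice down-move -/
def down2R (A : PL) (col F : Nat) : Bool :=
  andB (niceR A (Nat.xor col F))
    (andB (Nat.ble (Nat.succ (lenL A)) (sjR A col F))
      (andB (Nat.ble (sjR A col F) (Nat.add (nat_lit 2) (lenL A)))
        (andB (Nat.ble (Nat.add (smR A (Nat.xor col F)) (Nat.mul (nat_lit 2) (lenL A)))
            (Nat.add (smR A col) (Nat.mul (nat_lit 2) (sjR A col F))))
          (andB (Nat.ble (Nat.add (smR A (Nat.xor col F)) (Nat.mul (nat_lit 2) (sjR A col F)))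
              (Nat.add (smR A col) (Nat.add (nat_lit 8) (Nat.mul (nat_lit 2) (lenL A)))))
            (Nat.ble (Nat.add (t1aR A (Nat.xor col F) F) (Nat.mul (nat_lit 3) (lenL A)))
              (Nat.add (t1bR A col F) (Nat.mul (nat_lit 3) (sjR A col F))))))))

/-- nice neutral move or up-move -/
def up2R (A : PL) (col F : Nat) : Bool :=
  andB (niceR A (Nat.xor col F))
    (andB (Nat.ble (sjR A col F) (lenL A))
      (andB (Nat.ble (Nat.add (smR A (Nat.xor col F)) (Nat.mul (nat_lit 2) (lenL A)))
          (Nat.add (smR A col) (Nat.mul (nat_lit 2) (sjR A col F))))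
        (Nat.ble (Nat.succ (Nat.add (t1aR A (Nat.xor col F) F) (Nat.mul (nat_lit 3) (lenL A))))
          (Nat.add (t1bR A col F) (Nat.mul (nat_lit 3) (sjR A col F))))))

/-- nice neutral move which increases the number of sources -/
def q02R (A : PL) (col F : Nat) : Bool :=
  andB (niceR A (Nat.xor col F))
    (andB (Nat.beq (sjR A col F) (lenL A))
      (andB (Nat.ble (smR A (Nat.xor col F)) (smR A col))
        (andB (Nat.ble (t1aR A (Nat.xor col F) F) (t1bR A col F))
          (Nat.ble (Nat.succ (qLoss A col (Nat.xor col F))) (qGain A col (Nat.xor col F))))))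

/-- leaf predicate of World 2: `act = kind + 8 F` -/
def lf2 (A : PL) (col _non act : Nat) : Bool :=
  andB (cmpR A (Nat.div act (nat_lit 8)))
    (Nat.rec (motive := fun _ => Bool) (viol2R A col (Nat.div act (nat_lit 8)))
      (fun k _ => Nat.rec (motive := fun _ => Bool) (down2R A col (Nat.div act (nat_lit 8)))
        (fun k _ => Nat.rec (motive := fun _ => Bool) (up2R A col (Nat.div act (nat_lit 8)))
          (fun k _ => Nat.rec (motive := fun _ => Bool) (q02R A col (Nat.div act (nat_lit 8)))
            (fun _ _ => false) k) k) k)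
      (Nat.mod act (nat_lit 8)))

end

end Pool.Agent.Work.MP_1e13ac_W
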