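import Pool.Agent.Work.MP_1e13ac_W.Zone
import Pool.Agent.Work.MP_1e13ac_W.L2Defs

/-!
# MP_1e13ac_co, full statement: World 2, soundness of the leaf predicate (helper80)
-/

set_option autoImplicit false
set_option linter.unusedSectionVars false

namespace Pool.Agent.Work.MP_1e13ac_W

open Classical Finset Pool.Agent.Work.MP_1e13ac_Bis

noncomputable section

variable {V : Type} [Fintype V] {G : SimpleGraph V} {c : V → Bool}

section Main

variable {A : PL} {col non F : ℕ} {e : ℕ → V}

theorem niceR_iff (A : PL) (c : ℕ) :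
    niceR A c = true ↔ ∀ i < A.length, mdl c i (glR A i) ≤ 1 := by
  unfold niceR
  have e : allI (fun i l => Nat.ble (mdl c i l) (nat_lit 1)) A (nat_lit 0) =
    allI (fun i l => Nat.ble (mdl c i l) (nat_lit 1)) A 0 := rfl
  rw [e, allI0_iff]
  exact forall₂_congr fun i hi => bleN_iff _ _

theorem Emb.nice (hG : Cub G) (hc : Nice G c) (h : Emb G c A col non e) (hF : cmpR A F = true)
    (hn : niceR A (Nat.xor col F) = true) : Nice G (flp (FS A F e) c) := by
  intro x
  by_cases hx : ∀ i < A.length, e i ≠ x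
  · rw [md_out (h.out hG hF hx)]
    exact hc x
  · push Not at hx
    obtain ⟨i, hi, rfl⟩ := hx
    rw [(h.locF hG hF).md_eq hi]
    exact (niceR_iff _ _).1 hn i hi

/-! ## The number of sources -/

/-- `e i` is a source iff it is in `W1` and all its black neighbours are in `B0` -/
theorem mem_Q0_iff {c : V → Bool} (hc : Nice G c) {x : V} :
    x ∈ Qs G c 0 ↔ IsW1 G c x ∧ ∀ y, G.Adj x y → c y = false → md G c y = 0 := by
  constructor
  · intro hx
    exact ⟨(mem_Qs.1 hx).1, fun y h1 h2 => (Q0_nb hc hx h1 h2).2⟩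
  · rintro ⟨h1, h2⟩
    refine mem_Qs.2 ⟨h1, ?_⟩
    unfold nB1
    rw [Finset.card_eq_zero, Finset.filter_eq_empty_iff]
    intro y hy hB
    have hxy : G.Adj x y := (Finset.mem_filter.1 hy).2
    have := h2 y hxy hB.1
    have h3 := hB.2
    omega

theorem q0Q_iff {A : PL} {c2 : ℕ} {e : ℕ → V} {c' : V → Bool} (h : Loc G c' A c2 e) {i : ℕ}
    (hi : i < A.length) : q0Q A c2 i (glR A i) = true ↔ IsW1 G c' (e i) ∧
      ∀ j ∈ glR A i, c' (e j) = false → md G c' (e j) = 0 := by
  unfold q0Q IsW1
  rw [andB_iff, andB_iff, beqN_iff, notB_iff, ← h.colr i hi, ← h.md_eq hi, and_assoc]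
  refine and_congr Iff.rfl (and_congr Iff.rfl ?_)
  constructor
  · intro h1 j hj h2
    by_contra h3
    have h4 := h.adj i hi j hj
    have : anyL (fun j => andB (notB (tb c2 j)) (notB (Nat.beq (mdl c2 j (glR A j)) (nat_lit 0))))
        (glR A i) = true := by
      rw [anyL_iff]
      refine ⟨j, hj, ?_⟩
      rw [andB_iff, notB_iff, notB_iff]
      refine ⟨by rw [← h.colr j h4.1]; exact h2, ?_⟩
      by_contra h5
      have h6 : Nat.beq (mdl c2 j (glR A j)) (nat_lit 0) = true := by simpa using h5
      rw [beqN_iff, ← h.md_eq h4.1] at h6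
      exact h3 h6
    rw [h1] at this
    exact absurd this (by simp)
  · intro h1
    by_contra h2
    have h3 : anyL (fun j => andB (notB (tb c2 j)) (notB (Nat.beq (mdl c2 j (glR A j)) (nat_lit 0))))
        (glR A i) = true := by simpa using h2
    rw [anyL_iff] at h3
    obtain ⟨j, hj, h3⟩ := h3
    rw [andB_iff, notB_iff, notB_iff] at h3
    have h4 := h.adj i hi j hj
    have h5 := h1 j hj (by rw [h.colr j h4.1]; exact h3.1)
    rw [h.md_eq h4.1] at h5
    have h6 : Nat.beq (mdl c2 j (glR A j)) (nat_lit 0) = true := (beqN_iff _ _).2 h5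
    rw [h6] at h3
    exact absurd h3.2 (by simp)

theorem Emb.q0 (hG : Cub G) (hc : Nice G c) (h : Emb G c A col non e) (hF : cmpR A F = true)
    (hc' : Nice G (flp (FS A F e) c)) :
    (Qs G c 0).card + qGain A col (Nat.xor col F) ≤
      (Qs G (flp (FS A F e) c) 0).card + qLoss A col (Nat.xor col F) := by
  set c' := flp (FS A F e) c with hcd
  set N := NF G (FS A F e) with hN
  have hL := h.locF hG hF
  have hF' := (cmpR_iff A F).1 hF
  set I := (range A.length).filter fun i => andB (q0Q A col i (glR A i))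
    (notB (q0Q A (Nat.xor col F) i (glR A i))) = true with hI
  set J := (range A.length).filter fun i => b0C col (Nat.xor col F) i (glR A i) = true with hJ
  set K := (range A.length).filter fun i => andB (Nat.beq (lenN (glR A i)) (nat_lit 3))
    (andB (q0Q A (Nat.xor col F) i (glR A i)) (notB (q0Q A col i (glR A i)))) = true with hK
  -- a vertex outside `N` keeps its colour and degree
  have hout : ∀ x, x ∉ N → c' x = c x ∧ md G c' x = md G c x := fun x hx =>
    ⟨flp_out fun hh => hx (mem_NF.2 (Or.inl hh)), md_out hx⟩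
  -- an unlisted neighbour of a listed vertex
  have hunl : ∀ i < A.length, ∀ y, G.Adj (e i) y → (∀ j ∈ glR A i, e j ≠ y) →
      e i ∉ FS A F e ∧ y ∉ FS A F e := by
    intro i hi y hy hj
    constructor
    · intro hh
      obtain ⟨j, h1, h2⟩ := h.compl hG hi (by rw [hF' i hi ((e_mem_FS h.inj hi).1 hh)]) hy
      exact hj j h1 h2
    · intro hh
      obtain ⟨k, hk, hk2, rfl⟩ := mem_FS.1 hh
      obtain ⟨j, h1, h2⟩ := h.compl hG hk (by rw [hF' k hk hk2]) hy.symm
      have := h.inj j (h.adj k hk j h1).1 i hi h2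
      subst this
      exact hj k (h.adj k hk j h1).2.2 rfl
  have hsub : (Qs G c 0) \ (Qs G c' 0) ⊆
      I.image e ∪ J.biUnion fun j => (nbs G (e j)) \ (glR A j).toFinset.image e := by
    intro x hx
    rw [Finset.mem_sdiff, mem_Q0_iff hc, mem_Q0_iff hc'] at hx
    obtain ⟨⟨hw, hb⟩, hn⟩ := hx
    -- the key step
    have key : IsW1 G c' x → ∀ y, G.Adj x y → c' y = false → md G c' y ≠ 0 → c y = false →
        (∀ j < A.length, e j = y → ∀ i ∈ glR A j, e i ≠ x) →
        x ∈ J.biUnion fun j => (nbs G (e j)) \ (glR A j).toFinset.image e := by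
      intro _ y hxy hy1 hy2 hy3 hy4
      have h1 := hb y hxy hy3
      have h2 : y ∈ N := by
        by_contra hh
        rw [(hout y hh).2] at hy2
        exact hy2 h1
      have : ¬ ∀ i < A.length, e i ≠ y := fun hh => h.out hG hF hh h2
      push Not at this
      obtain ⟨j, hj, rfl⟩ := this
      rw [Finset.mem_biUnion]
      refine ⟨j, ?_, ?_⟩
      · rw [hJ, Finset.mem_filter, Finset.mem_range]
        refine ⟨hj, ?_⟩
        unfold b0C
        rw [andB_iff, andB_iff, notB_iff, beqN_iff, notB_iff]
        refine ⟨by rw [← h.colr j hj]; exact hy3, by rw [← h.loc.md_eq hj]; exact h1, ?_⟩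
        by_contra hh
        have hh' : andB (notB (tb (Nat.xor col F) j))
          (Nat.beq (mdl (Nat.xor col F) j (glR A j)) (nat_lit 0)) = true := by simpa using hh
        rw [andB_iff, beqN_iff, ← hL.md_eq hj] at hh'
        exact hy2 hh'.2
      · rw [Finset.mem_sdiff]
        refine ⟨Finset.mem_filter.2 ⟨Finset.mem_univ _, hxy.symm⟩, ?_⟩
        intro hh
        obtain ⟨i, hi, h5⟩ := Finset.mem_image.1 hh
        exact hy4 j hj rfl i (List.mem_toFinset.1 hi) h5
    rw [Finset.mem_union]
    by_cases hx : ∀ i < A.length, e i ≠ x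
    · -- outside the pattern
      have hxN : x ∉ N := h.out hG hF hx
      have hw' : IsW1 G c' x := ⟨by rw [(hout x hxN).1]; exact hw.1,
        by rw [(hout x hxN).2]; exact hw.2⟩
      have : ¬ ∀ y, G.Adj x y → c' y = false → md G c' y = 0 := fun hh => hn ⟨hw', hh⟩
      push Not at this
      obtain ⟨y, hxy, hy1, hy2⟩ := this
      refine Or.inr (key hw' y hxy hy1 hy2 ?_ ?_)
      · have hyF : y ∉ FS A F e := fun hh => hxN (mem_NF.2 (Or.inr ⟨y, hh, hxy.symm⟩))
        rw [← hy1]
        exact (flp_out hyF).symm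
      · intro j hj _ i hi
        exact hx i (h.adj j hj i hi).1
    · push Not at hx
      obtain ⟨i, hi, rfl⟩ := hx
      by_cases hq : q0Q A (Nat.xor col F) i (glR A i) = true
      · rw [q0Q_iff hL hi] at hq
        have : ¬ ∀ y, G.Adj (e i) y → c' y = false → md G c' y = 0 := fun hh => hn ⟨hq.1, hh⟩
        push Not at this
        obtain ⟨y, hxy, hy1, hy2⟩ := this
        have hyl : ∀ j ∈ glR A i, e j ≠ y := by
          rintro j hj rfl
          exact hy2 (hq.2 j hj hy1)
        have h3 := hunl i hi y hxy hyl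
        refine Or.inr (key hq.1 y hxy hy1 hy2 ?_ ?_)
        · rw [← hy1]
          exact (flp_out h3.2).symm
        · rintro j hj rfl k hk hki
          have := h.inj k (h.adj j hj k hk).1 i hi hki
          subst this
          exact hyl j (h.adj j hj k hk).2.2 rfl
      · refine Or.inl (Finset.mem_image.2 ⟨i, ?_, rfl⟩)
        rw [hI, Finset.mem_filter, Finset.mem_range, andB_iff, notB_iff, q0Q_iff h.loc hi]
        exact ⟨hi, ⟨hw, fun j hj hcj => hb _ (h.adj i hi j hj).2.1 hcj⟩, by simpa using hq⟩
  have hsub2 : K.image e ⊆ (Qs G c' 0) \ (Qs G c 0) := by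
    intro x hx
    obtain ⟨i, hi', rfl⟩ := Finset.mem_image.1 hx
    rw [hK, Finset.mem_filter, Finset.mem_range, andB_iff, andB_iff, beqN_iff, notB_iff] at hi'
    obtain ⟨hi, hl, h12, h3⟩ := hi'
    obtain ⟨h1, h2⟩ := (q0Q_iff hL hi).1 h12
    have hl' : (glR A i).length = 3 := by rw [← lenN_eq]; exact hl
    have hcomp : ∀ y, G.Adj (e i) y → ∃ j ∈ glR A i, e j = y := fun y hy =>
      h.compl hG hi (by omega) hy
    rw [Finset.mem_sdiff, mem_Q0_iff hc, mem_Q0_iff hc']
    refine ⟨⟨h1, ?_⟩, ?_⟩
    · intro y hy hcy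
      obtain ⟨j, hj, rfl⟩ := hcomp y hy
      exact h2 j hj hcy
    · rintro ⟨h4, h5⟩
      have : q0Q A col i (glR A i) = true := (q0Q_iff h.loc hi).2
        ⟨h4, fun j hj hcj => h5 _ (h.adj i hi j hj).2.1 hcj⟩
      rw [h3] at this
      exact absurd this (by simp)
  have hloss : qLoss A col (Nat.xor col F) = I.card + ∑ j ∈ J, (3 - (glR A j).length) := by
    have e1 : qLoss A col (Nat.xor col F) = ∑ i ∈ range A.length,
        ((Bool.rec (motive := fun _ => ℕ) 0 1 (andB (q0Q A col i (glR A i))
          (notB (q0Q A (Nat.xor col F) i (glR A i)))) : ℕ) +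
        (Bool.rec (motive := fun _ => ℕ) 0 (3 - lenN (glR A i))
          (b0C col (Nat.xor col F) i (glR A i)) : ℕ)) := by
      unfold qLoss
      exact sumI0_eq _ _
    rw [e1, Finset.sum_add_distrib, hI, hJ, Finset.card_filter, Finset.sum_filter]
    congr 1
    · refine forallN_congr fun i _ => ?_
      cases andB (q0Q A col i (glR A i)) (notB (q0Q A (Nat.xor col F) i (glR A i))) <;> simp
    · refine forallN_congr fun i _ => ?_
      rw [lenN_eq]
      cases b0C col (Nat.xor col F) i (glR A i) <;> simp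
  have hgain : qGain A col (Nat.xor col F) = K.card := by
    have e1 : qGain A col (Nat.xor col F) = ∑ i ∈ range A.length,
        (Bool.rec (motive := fun _ => ℕ) 0 1 (andB (Nat.beq (lenN (glR A i)) 3)
          (andB (q0Q A (Nat.xor col F) i (glR A i)) (notB (q0Q A col i (glR A i))))) : ℕ) := by
      unfold qGain
      exact sumI0_eq _ _
    rw [e1, hK, Finset.card_filter]
    refine forallN_congr fun i _ => ?_
    cases andB (Nat.beq (lenN (glR A i)) 3)
      (andB (q0Q A (Nat.xor col F) i (glR A i)) (notB (q0Q A col i (glR A i)))) <;> simp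
  have h1 : ((Qs G c 0) \ (Qs G c' 0)).card ≤ qLoss A col (Nat.xor col F) := by
    refine (Finset.card_le_card hsub).trans ((Finset.card_union_le _ _).trans ?_)
    rw [hloss]
    refine Nat.add_le_add Finset.card_image_le (Finset.card_biUnion_le.trans
      (Finset.sum_le_sum fun j hj => ?_))
    rw [hJ, Finset.mem_filter, Finset.mem_range] at hj
    have h3 : (glR A j).toFinset.image e ⊆ nbs G (e j) := by
      intro x hx
      obtain ⟨i, hi, rfl⟩ := Finset.mem_image.1 hx
      exact Finset.mem_filter.2 ⟨Finset.mem_univ _, (h.adj j hj.1 i (List.mem_toFinset.1 hi)).2.1⟩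
    rw [Finset.card_sdiff_of_subset h3]
    have h4 : ((glR A j).toFinset.image e).card = (glR A j).length := by
      rw [Finset.card_image_of_injOn, List.toFinset_card_of_nodup (h.nodup j hj.1)]
      intro a ha b hb hab
      have ha' : a ∈ glR A j := List.mem_toFinset.1 (by simpa using ha)
      have hb' : b ∈ glR A j := List.mem_toFinset.1 (by simpa using hb)
      exact h.inj a (h.adj j hj.1 a ha').1 b (h.adj j hj.1 b hb').1 hab
    rw [h4, hG (e j)]
  have h2 : qGain A col (Nat.xor col F) ≤ ((Qs G c' 0) \ (Qs G c 0)).card := by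
    rw [hgain, ← Finset.card_image_of_injOn (s := K) (f := e)]
    · exact Finset.card_le_card hsub2
    · intro a ha b hb hab
      have h1 : a < A.length := by
        have := Finset.mem_coe.1 ha
        rw [hK, Finset.mem_filter, Finset.mem_range] at this
        exact this.1
      have h2 : b < A.length := by
        have := Finset.mem_coe.1 hb
        rw [hK, Finset.mem_filter, Finset.mem_range] at this
        exact this.1
      exact h.inj a h1 b h2 hab
  have h3 := Finset.card_sdiff_add_card_inter (Qs G c 0) (Qs G c' 0)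
  have h4 := Finset.card_sdiff_add_card_inter (Qs G c' 0) (Qs G c 0)
  rw [Finset.inter_comm] at h4
  omega

end Main

end

end Pool.Agent.Work.MP_1e13ac_W
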