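import Pool.Agent.Work.MP_1e13ac_W.W1Defs

/-!
# MP_1e13ac_co, full statement, level `k ≥ 2`: the static packing, definitions (helper80)

A slot is a pair `(w, a)` with `w ∈ Q0` and `a` a black neighbour of `w`. Every slot which is not
paid has a core: a set `K` such that the slot is alive at `F` (the set flipped so far) if the zone
of `K` is disjoint from the zone of `F`. The tags are
0 EX1, 1 D0, 2 block side, 3 E, 4 X3 (`CrA`), 5 M, 6 X4, 7 house, 8 D1 (`CrB`).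
Statistics: `D = (-2 j, p, q)`; T3 is `(-2, -1, 0)`, H3 is `(0, 1, 0)`, H4 is `(0, 2, 2)`,
T4 is `(-2, -2, -2)`, U is `(-2, 0, 0)`.
-/

set_option autoImplicit false
set_option linter.unusedSectionVars false

namespace Pool.Agent.Work.MP_1e13ac_W

open Classical Finset Pool.Agent.Work.MP_1e13ac_Bis

noncomputable section

variable {V : Type} [Fintype V]

/-- the neighbours of `a` are the different vertices `x`, `y`, `z` -/
def N3 (G : SimpleGraph V) (a x y z : V) : Prop :=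
  x ≠ y ∧ x ≠ z ∧ y ≠ z ∧ ∀ t, G.Adj a t ↔ t = x ∨ t = y ∨ t = z

/-- `F` is a valid flip set with the statistics `d` -/
def Gd (G : SimpleGraph V) (c : V → Bool) (F : Finset V) (d : ℤ × ℤ × ℤ) : Prop :=
  Valid G (flp F c) ∧ st G (flp F c) univ - st G c univ = d

/-- twins `b`, `d` in `Q0` (not mates) with mates `b'`, `d'` and black neighbours `α`, `β` -/
structure Blk (G : SimpleGraph V) (c : V → Bool) (b b' d d' α β : V) : Prop where
  b0 : b ∈ Qs G c 0
  d0 : d ∈ Qs G c 0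
  ne : b ≠ d
  na : ¬ G.Adj b d
  mb : MA G c b b'
  md : MA G c d d'
  nb : N3 G b b' α β
  nd : N3 G d d' α β

/-- block: twins, the third neighbours `y`, `z` of `α`, `β` are in `W0` -/
structure PBlk (G : SimpleGraph V) (c : V → Bool) (b b' d d' α β y z : V) : Prop extends
    Blk G c b b' d d' α β where
  nα : N3 G α b d y
  nβ : N3 G β b d z
  y0 : IsW0 G c y
  z0 : IsW0 G c z

/-- cores of the types with helper H3 (and of the block sides) -/
inductive CrA (G : SimpleGraph V) (c : V → Bool) : ℕ → V → V → Finset V → Prop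
  /-- EX1: `b', d' ∉ Q0`, `h ∈ B1` and `p ∈ B0` are adjacent to `y` and `b'` -/
  | ex1 (b b' d d' α β y z h p w : V) : PBlk G c b b' d d' α β y z → b' ∉ Qs G c 0 →
      d' ∉ Qs G c 0 → IsB1 G c h → G.Adj h y → G.Adj h b' → IsB0 G c p → G.Adj p y → G.Adj p b' →
      w = b ∨ w = d → CrA G c 0 w α {b, α, y, h}
  | d0 (w w' a y : V) : w ∈ Qs G c 0 → MA G c w w' → N3 G a w w' y → IsW0 G c y →
      CrA G c 1 w a {w, a}
  | blk (b b' d d' α β y z u w : V) : PBlk G c b b' d d' α β y z → u = b' ∨ u = d' →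
      u ∈ Qs G c 0 → w = b ∨ w = d → CrA G c 2 w α {b, d, α, u}
  | e (w a x y : V) : w ∈ Qs G c 0 → N3 G a w x y → IsW0 G c x → IsW0 G c y →
      CrA G c 3 w a {w, a}
  | x3 (w w' a q q' p p' r s : V) : w ∈ Qs G c 0 → MA G c w w' → N3 G a w q q' → MA G c q q' →
      q ∈ Qs G c 1 → q' ∈ Qs G c 1 → G.Adj q p → MA G c p p' → c p = false → N3 G p' p r s →
      IsW0 G c r ∨ r = w' → IsW0 G c s ∨ s = w' → CrA G c 4 w a {w, a, q, p'}

/-- cores `insert τ H` of the types with helper H4 `= H`, token T4 `= {τ}` and end `e` -/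
inductive CrB (G : SimpleGraph V) (c : V → Bool) : ℕ → V → V → Finset V → V → V → Prop
  | m (w w' a x x' y : V) : w ∈ Qs G c 0 → MA G c w w' → N3 G a w x y → x ∈ Qs G c 1 →
      x ≠ w' → MA G c x x' → IsW0 G c y ∨ (y = w' ∧ w' ∈ Qs G c 1) → CrB G c 5 w a {w, a} x x'
  | x4 (w w' a q q' p p' r r' s : V) : w ∈ Qs G c 0 → MA G c w w' → N3 G a w q q' →
      MA G c q q' → q ∈ Qs G c 1 → q' ∈ Qs G c 1 → G.Adj q p → MA G c p p' → c p = false →
      N3 G p' p r s → r ≠ w' → MA G c r r' → IsW0 G c s ∨ s = w' →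
      CrB G c 6 w a {w, a, q, p'} q r'
  | hs (b b' d d' α β w a : V) : Blk G c b b' d d' α β → N3 G α b d b' → b' ∈ Qs G c 1 →
      w = b ∨ w = d → a = α ∨ a = β → CrB G c 7 w a {b, α} b' d'
  | d1 (w w' a x x' : V) : w ∈ Qs G c 0 → w' ∈ Qs G c 0 → MA G c w w' → N3 G a w w' x →
      x ∈ Qs G c 1 → MA G c x x' → CrB G c 8 w a {w, a} x x'

/-- the zones of `K` and `F` are disjoint -/
def ZD (G : SimpleGraph V) (c : V → Bool) (K F : Finset V) : Prop :=
  Disjoint (Zn G c K) (Zn G c F)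

/-- the slot `s` is alive when `F` has been flipped -/
def Alive (G : SimpleGraph V) (c : V → Bool) (F : Finset V) (s : V × V) : Prop :=
  (∃ n K, CrA G c n s.1 s.2 K ∧ ZD G c K F) ∨
    ∃ n H τ e, CrB G c n s.1 s.2 H τ e ∧ ZD G c (insert τ H) F

/-- the helper of the slot `s` (of type M, X4, house, D1) is unhit -/
def HAlive (G : SimpleGraph V) (c : V → Bool) (F : Finset V) (s : V × V) : Prop :=
  ∃ n H τ e, CrB G c n s.1 s.2 H τ e ∧ ZD G c H F

/-- the alive slots -/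
def AL (G : SimpleGraph V) (c : V → Bool) (F : Finset V) : Finset (V × V) :=
  univ.filter fun s => Alive G c F s

/-- the sources blocked by `F` -/
def blk (G : SimpleGraph V) (c : V → Bool) (F : Finset V) : ℕ :=
  ((Qs G c 0).filter fun s => ¬ ZD G c {s} F).card

/-- one step of the greedy algorithm: `F` gives `j` units together with `t` tokens T3 -/
def Step (G : SimpleGraph V) (c : V → Bool) (F0 : Finset V) (r : ℕ) : Prop :=
  ∃ (F : Finset V) (j t : ℕ), 1 ≤ j ∧ j ≤ r ∧ ZD G c F F0 ∧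
    Gd G c F (-2 * ((j : ℤ) - t), t, 0) ∧ blk G c F + 3 * t ≤ 6 * j ∧
    (j = r ∨ (AL G c F0 \ AL G c (F0 ∪ F)).card ≤ 12 * j)

/-- no alive core with a tag below `n` -/
def NoA (G : SimpleGraph V) (c : V → Bool) (n : ℕ) (F0 : Finset V) : Prop :=
  ∀ m w a K, CrA G c m w a K → ZD G c K F0 → n ≤ m

/-- no alive core of type B and tag `n` whose end is an unblocked source -/
def NoE (G : SimpleGraph V) (c : V → Bool) (n : ℕ) (F0 : Finset V) : Prop :=
  ∀ w a H τ e, CrB G c n w a H τ e → ZD G c (insert τ H) F0 → e ∈ Qs G c 0 → ¬ ZD G c {e} F0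

/-- the final stage: a list of valid sets with pairwise disjoint zones for `r` units -/
def Final (G : SimpleGraph V) (c : V → Bool) (F0 : Finset V) (r : ℕ) : Prop :=
  ∃ L : List (Finset V × (ℤ × ℤ × ℤ)), (∀ p ∈ L, Gd G c p.1 p.2 ∧ ZD G c p.1 F0) ∧
    L.Pairwise (fun p q => ZD G c p.1 q.1) ∧ (L.map Prod.snd).sum = (-2 * (r : ℤ), 0, 0) ∧
    (L.map fun p => blk G c p.1).sum ≤ 6 * r

/-- X configuration -/
structure Xc (G : SimpleGraph V) (c : V → Bool) (w a q q' p p' : V) : Prop where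
  w0 : w ∈ Qs G c 0
  na : N3 G a w q q'
  qq : MA G c q q'
  q1 : q ∈ Qs G c 1
  q1' : q' ∈ Qs G c 1
  qp : G.Adj q p
  pp : MA G c p p'
  pb : c p = false

/-- the facts which are used in the packing -/
structure PF (G : SimpleGraph V) (c : V → Bool) : Prop where
  cub : Cub G
  nice : Nice G c
  rule1 : Rule1 G c
  /-- two sources with a common black neighbour are mates or twins -/
  two : ∀ u v p q, u ∈ Qs G c 0 → v ∈ Qs G c 0 → u ≠ v → ¬ G.Adj u v → G.Adj u p → G.Adj v p →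
    G.Adj u q → c q = false → G.Adj v q
  /-- a black neighbour of a source with two further neighbours in `W1` -/
  a3 : ∀ w a x y, w ∈ Qs G c 0 → c a = false → N3 G a w x y → IsW1 G c x → IsW1 G c y →
    ¬ G.Adj w x → ¬ G.Adj w y → G.Adj x y
  /-- the black neighbours of twins have no third common neighbour -/
  k23 : ∀ b b' d d' α β v, Blk G c b b' d d' α β → v ≠ b → v ≠ d → G.Adj v α → G.Adj v β → False
  /-- in a house `b'` is not a source -/
  hs : ∀ b b' d d' α β, Blk G c b b' d d' α β → G.Adj b' α → b' ∉ Qs G c 0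
  /-- X: the other black neighbours of `q`, `q'` are different -/
  xpi : ∀ w a q q' p p', Xc G c w a q q' p p' → ¬ G.Adj q' p
  /-- X: `p'` is not the top of a T1 -/
  xtop : ∀ w a q q' p p' r r', Xc G c w a q q' p p' → G.Adj p' r → G.Adj p' r' → MA G c r r' →
    c r = true → False
  /-- X: a neighbour in `W1` of `p'` has no foreign source at its neighbour in `B0` -/
  f1 : ∀ w a q q' p p' r v s, Xc G c w a q q' p p' → G.Adj p' r → IsW1 G c r → G.Adj r v →
    IsB0 G c v → s ∈ Qs G c 0 → G.Adj s v → s = w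
  /-- two different blocks with a common outer vertex are linked -/
  ends : ∀ b b' d d' α β y z b₂ b₂' d₂ d₂' α₂ β₂ z₂, PBlk G c b b' d d' α β y z →
    PBlk G c b₂ b₂' d₂ d₂' α₂ β₂ y z₂ → α ≠ α₂ → b₂ = b' ∨ b₂ = d' ∨ d₂ = b' ∨ d₂ = d'
  /-- EX1: there is no source at `p` -/
  ex1 : ∀ b b' d d' α β y z h p s, PBlk G c b b' d d' α β y z → b' ∉ Qs G c 0 →
    d' ∉ Qs G c 0 → IsB1 G c h → G.Adj h y → G.Adj h b' → IsB0 G c p → G.Adj p y →
    G.Adj p b' → s ∈ Qs G c 0 → ¬ G.Adj s p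
  /-- T1: sources near the pair and near the attachment -/
  t1src : ∀ z z' u u' v s x v' s', c z = false → MA G c z z' → G.Adj z u → G.Adj z u' →
    MA G c u u' → c u = true → G.Adj u v → IsB0 G c v → s ∈ Qs G c 0 → G.Adj s v →
    G.Adj z' x → IsW1 G c x → G.Adj x v' → IsB0 G c v' → s' ∈ Qs G c 0 → G.Adj s' v' → False
  /-- helpers H3 -/
  h3 : ∀ n w a K, CrA G c n w a K → n ≠ 2 → Gd G c K (0, 1, 0)
  /-- helpers H4 -/
  h4 : ∀ n w a H τ e, CrB G c n w a H τ e → Gd G c H (0, 2, 2)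
  /-- tokens T4 -/
  t4 : ∀ n w a H τ e, CrB G c n w a H τ e → Gd G c {τ} (-2, -2, -2)
  /-- end units -/
  eu : ∀ n w a H τ e, CrB G c n w a H τ e → e ∈ Qs G c 0 → Gd G c (insert e H) (-2, 0, 0)
  /-- block units -/
  u : ∀ b b' d d' α β y z, PBlk G c b b' d d' α β y z → b' ∈ Qs G c 0 →
    Gd G c {d, α, b'} (-2, 0, 0)
  /-- double units of a linked pair: `b' = b₂` -/
  dd : ∀ b b' d d' α β y z d₂ d₂' α₂ β₂ y₂ z₂, PBlk G c b b' d d' α β y z →
    PBlk G c b' b d₂ d₂' α₂ β₂ y₂ z₂ → y ≠ y₂ → d' ≠ d₂ → d' ∈ Qs G c 0 →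
    Gd G c {b, α, d', d₂, α₂} (-2, 1, 0)
  /-- every slot has a core or is a block side without sources as mates -/
  slot : ∀ w a, w ∈ Qs G c 0 → G.Adj w a → c a = false → (∃ n K, CrA G c n w a K) ∨
    (∃ n H τ e, CrB G c n w a H τ e) ∨
    ∃ b' d d' β y z, PBlk G c w b' d d' a β y z ∧ b' ∉ Qs G c 0 ∧ d' ∉ Qs G c 0

/-! ## Statements of the stages -/

end

/-- stage 0: EX1 -/
def Stmt_S0 : Prop := ∀ (V : Type) [Fintype V] (G : SimpleGraph V) (c : V → Bool), PF G c →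
  ∀ F0 r, 1 ≤ r → (∃ w a K, CrA G c 0 w a K ∧ ZD G c K F0) → Step G c F0 r

/-- stage 1: houses whose end is an unblocked source -/
def Stmt_S1 : Prop := ∀ (V : Type) [Fintype V] (G : SimpleGraph V) (c : V → Bool), PF G c →
  ∀ F0 r, 1 ≤ r → NoA G c 1 F0 → ¬ NoE G c 7 F0 → Step G c F0 r

/-- stage 2: D0 -/
def Stmt_S2 : Prop := ∀ (V : Type) [Fintype V] (G : SimpleGraph V) (c : V → Bool), PF G c →
  ∀ F0 r, 1 ≤ r → NoA G c 1 F0 → NoE G c 7 F0 → (∃ w a K, CrA G c 1 w a K ∧ ZD G c K F0) →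
    Step G c F0 r

/-- stage 3: blocks -/
def Stmt_S3 : Prop := ∀ (V : Type) [Fintype V] (G : SimpleGraph V) (c : V → Bool), PF G c →
  ∀ F0 r, 1 ≤ r → NoA G c 2 F0 → NoE G c 7 F0 → (∃ w a K, CrA G c 2 w a K ∧ ZD G c K F0) →
    Step G c F0 r

/-- stage 4: E -/
def Stmt_S4 : Prop := ∀ (V : Type) [Fintype V] (G : SimpleGraph V) (c : V → Bool), PF G c →
  ∀ F0 r, 1 ≤ r → NoA G c 3 F0 → NoE G c 7 F0 → (∃ w a K, CrA G c 3 w a K ∧ ZD G c K F0) →
    Step G c F0 r

/-- stage 5: M, X4, D1 whose end is an unblocked source -/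
def Stmt_S5 : Prop := ∀ (V : Type) [Fintype V] (G : SimpleGraph V) (c : V → Bool), PF G c →
  ∀ F0 r, 1 ≤ r → NoA G c 4 F0 → NoE G c 7 F0 →
    ¬ (NoE G c 5 F0 ∧ NoE G c 6 F0 ∧ NoE G c 8 F0) → Step G c F0 r

/-- stage 6: X3 -/
def Stmt_S6 : Prop := ∀ (V : Type) [Fintype V] (G : SimpleGraph V) (c : V → Bool), PF G c →
  ∀ F0 r, 1 ≤ r → NoA G c 4 F0 → (∀ n, NoE G c n F0) →
    (∃ w a K, CrA G c 4 w a K ∧ ZD G c K F0) → Step G c F0 r

/-- stage 7: M, X4, houses, D1 -/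
def Stmt_S7 : Prop := ∀ (V : Type) [Fintype V] (G : SimpleGraph V) (c : V → Bool), PF G c →
  ∀ F0 r, 12 * r ≤ (AL G c F0).card → NoA G c 5 F0 → (∀ n, NoE G c n F0) → Final G c F0 r

end Pool.Agent.Work.MP_1e13ac_W
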