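import Pool.Agent.Work.MP_1e13ac_W.C2Pk
import Pool.Agent.Work.MP_1e13ac_W.PkBase
import Pool.Agent.Work.MP_1e13ac_W.T1Glue

/-!
# MP_1e13ac_co, full statement, World 2: the facts of the packing (helper80)
-/

set_option autoImplicit false
set_option linter.unusedSectionVars false

namespace Pool.Agent.Work.MP_1e13ac_W

open Classical Finset Pool.Agent.Work.MP_1e13ac_Bis

noncomputable section

variable {V : Type} [Fintype V] {G : SimpleGraph V} {c : V → Bool} {k : ℕ}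

namespace PkF

open T1G

theorem two (hG : Cub G) (hW : World2 G c k) {u v p q : V} (hu : u ∈ Qs G c 0)
    (hv : v ∈ Qs G c 0) (hne : u ≠ v) (hna : ¬ G.Adj u v) (hup : G.Adj u p) (hvp : G.Adj v p)
    (huq : G.Adj u q) (hq : c q = false) : G.Adj v q := by
  by_contra hvq
  have hc := hW.nice
  obtain ⟨u', hu'⟩ := mate_ex (mem_Qs.1 hu).1
  obtain ⟨v', hv'⟩ := mate_ex (mem_Qs.1 hv).1
  have hpq : p ≠ q := by
    rintro rfl
    exact hvq hvp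
  have cp : c p = false := by
    by_contra hh
    have hp : c p = true := by simpa using hh
    have e1 := nice_uniq hc (x := p) (y := u) (z := v) ⟨hup.symm, by rw [hp, Q0_W hu]⟩
      ⟨hvp.symm, by rw [hp, Q0_W hv]⟩
    exact hne e1
  obtain ⟨h1, b, h2, h3⟩ := Q0_N3' hG hc hu hu' hup cp
  obtain ⟨-, t, h4, h5⟩ := Q0_N3' hG hc hv hv' hvp cp
  have hbq : q = b := by
    rcases h2.mem huq with e | e | e
    · subst e
      exact (WB (MA_W hu' (Q0_W hu)) hq).elim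
    · exact absurd e.symm hpq
    · exact e
  subst hbq
  have hqt : q ≠ t := by
    rintro rfl
    exact hvq h4.adj.2.2
  have g1 : u' ≠ v := by
    rintro rfl
    exact hna hu'.1
  obtain ⟨g2, g3⟩ := ne_of_mates hc hu' hv' hne g1
  exact hW.pkR hG u u' v v' p q t
    ⟨hu'.1, hup, huq, hv'.1, hvp, h4.adj.2.2⟩
    ⟨hne, g2, g1, g3, hpq, h4.2.2.1, hqt⟩ ⟨h1.2, h3.2, h5.2⟩
    ⟨Q0_W hu, MA_W hu' (Q0_W hu), Q0_W hv, MA_W hv' (Q0_W hv), cp, hq, h5.1⟩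

theorem a3 (hG : Cub G) (hW : World2 G c k) {w a x y : V} (hw : w ∈ Qs G c 0) (ha : c a = false)
    (hN : N3 G a w x y) (hx : IsW1 G c x) (hy : IsW1 G c y) (hwx : ¬ G.Adj w x)
    (hwy : ¬ G.Adj w y) : G.Adj x y := by
  by_contra hxy
  have hc := hW.nice
  obtain ⟨w', hw'⟩ := mate_ex (mem_Qs.1 hw).1
  obtain ⟨x', hx'⟩ := mate_ex hx
  obtain ⟨y', hy'⟩ := mate_ex hy
  obtain ⟨h1, b, h2, h3⟩ := Q0_N3' hG hc hw hw' hN.adj.1.symm ha
  have a1 : w' ≠ x := by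
    rintro rfl
    exact hwx hw'.1
  have a2 : w' ≠ y := by
    rintro rfl
    exact hwy hw'.1
  have a3 : x' ≠ y := by
    rintro rfl
    exact hxy hx'.1
  obtain ⟨g1, g2⟩ := ne_of_mates hc hw' hx' hN.1 a1
  obtain ⟨g3, g4⟩ := ne_of_mates hc hw' hy' hN.2.1 a2
  obtain ⟨g5, g6⟩ := ne_of_mates hc hx' hy' hN.2.2.1 a3
  exact hW.pkA3 hG w w' x x' y y' a b
    ⟨hw'.1, hN.adj.1.symm, h2.adj.2.2, hx'.1, hN.adj.2.1.symm, hy'.1, hN.adj.2.2.symm⟩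
    ⟨hN.1, g1, hN.2.1, g3, a1, g2, a2, g4, hN.2.2.1, g5, a3, g6, h2.2.2.1⟩ ⟨h1.2, h3.2⟩
    ⟨Q0_W hw, MA_W hw' (Q0_W hw), hx.1, MA_W hx' hx.1, hy.1, MA_W hy' hy.1, ha, h3.1⟩

/-- distinctness in a pair of twins -/
theorem blk_ne (hc : Nice G c) {b b' d d' α β : V} (hB : Blk G c b b' d d' α β) :
    b ≠ d' ∧ b' ≠ d ∧ b' ≠ d' := by
  have g1 : b' ≠ d := by
    rintro rfl
    exact hB.na hB.mb.1
  obtain ⟨g2, g3⟩ := ne_of_mates hc hB.mb hB.md hB.ne g1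
  exact ⟨g2, g1, g3⟩

theorem k23 (hG : Cub G) (hW : World2 G c k) {b b' d d' α β v : V} (hB : Blk G c b b' d d' α β)
    (hvb : v ≠ b) (hvd : v ≠ d) (h1 : G.Adj v α) (h2 : G.Adj v β) : False := by
  have hc := hW.nice
  have hb := hB.bl hc
  obtain ⟨g1, g2, g3⟩ := blk_ne hc hB
  have hv := W_of_B h1.symm hb.1
  have cb := Q0_W hB.b0
  have cd := Q0_W hB.d0
  have cb' := MA_W hB.mb cb
  have cd' := MA_W hB.md cd
  have hbb : ∀ {b b' d d' : V}, Blk G c b b' d d' α β → G.Adj b' α → G.Adj b' β → False := by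
    intro b b' d d' hB h1 h2
    obtain ⟨g1, g2, g3⟩ := blk_ne hc hB
    have cb := Q0_W hB.b0
    have cd := Q0_W hB.d0
    exact hW.pkHB hG b b' d d' α β
      ⟨hB.mb.1, hB.nb.adj.2.1, hB.nb.adj.2.2, h1, h2, hB.md.1, hB.nd.adj.2.1, hB.nd.adj.2.2⟩
      ⟨hB.ne, g1, g2, g3, hB.nb.2.2.1⟩ ⟨(hB.bl hc).1.2, (hB.bl hc).2.2⟩
      ⟨cb, MA_W hB.mb cb, cd, MA_W hB.md cd, (hB.bl hc).1.1, (hB.bl hc).2.1⟩
  rcases W0_or_W1 hc hv with hv0 | hv1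
  · exact hW.pkK23 hG b d α β v b' d'
      ⟨hB.nb.adj.2.1, hB.nb.adj.2.2, hB.mb.1, hB.nd.adj.2.1, hB.nd.adj.2.2, hB.md.1, h1.symm,
        h2.symm⟩ ⟨hB.ne, g1, g2.symm, hB.nb.2.2.1, g3⟩ ⟨hb.1.2, hb.2.2, hv0.2⟩
      ⟨cb, cd, hb.1.1, hb.2.1, hv, cb', cd'⟩
  · by_cases e1 : G.Adj b v
    · have : b' = v := nice_uniq hc hB.mb ⟨e1, by rw [cb, hv]⟩
      subst this
      exact hbb hB h1 h2
    · by_cases e2 : G.Adj d v
      · have : d' = v := nice_uniq hc hB.md ⟨e2, by rw [cd, hv]⟩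
        subst this
        exact hbb hB.symm h1 h2
      · exact e2 (a3 hG hW hB.b0 hb.1.1 (N3_of3 hG hB.nb.adj.2.1.symm hB.nd.adj.2.1.symm h1.symm
          hB.ne hvb.symm hvd.symm) (mem_Qs.1 hB.d0).1 hv1 hB.na e1)

theorem hs (hG : Cub G) (hW : World2 G c k) {b b' d d' α β : V} (hB : Blk G c b b' d d' α β)
    (h1 : G.Adj b' α) : b' ∉ Qs G c 0 := by
  intro h0
  have hc := hW.nice
  have hb := hB.bl hc
  obtain ⟨g1, g2, g3⟩ := blk_ne hc hB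
  obtain ⟨-, t, h2, h3⟩ := Q0_N3' hG hc h0 (ma_symm hB.mb) h1 hb.1.1
  have hne : β ≠ t := by
    rintro rfl
    exact k23 hG hW hB hB.mb.1.ne' g2 h1 h2.adj.2.2
  have cb := Q0_W hB.b0
  have cd := Q0_W hB.d0
  exact hW.pkHS hG b b' d d' α β t
    ⟨hB.mb.1, hB.nb.adj.2.1, hB.nb.adj.2.2, h1, h2.adj.2.2, hB.md.1, hB.nd.adj.2.1,
      hB.nd.adj.2.2⟩ ⟨hB.ne, g1, g2, g3, hB.nb.2.2.1, h2.2.2.1, hne⟩ ⟨hb.1.2, hb.2.2, h3.2⟩
    ⟨cb, MA_W hB.mb cb, cd, MA_W hB.md cd, hb.1.1, hb.2.1, h3.1⟩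

/-- the surroundings of an X configuration -/
theorem xd (hG : Cub G) (hc : Nice G c) {w a q q' p p' : V} (h : Xc G c w a q q' p p') :
    ∃ w' b, MA G c w w' ∧ N3 G w w' a b ∧ IsB0 G c a ∧ IsB0 G c b ∧ w ≠ q ∧ w ≠ q' ∧ w' ≠ q ∧
      w' ≠ q' ∧ N3 G q q' a p := by
  obtain ⟨w', hw'⟩ := mate_ex (mem_Qs.1 h.w0).1
  have ca : c a = false := by
    by_contra hh
    have hca : c a = true := by simpa using hh
    exact h.na.1 (nice_uniq hc (x := a) (y := w) (z := q) ⟨h.na.adj.1, by rw [hca, Q0_W h.w0]⟩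
      ⟨h.na.adj.2.1, by rw [hca, Q1_W h.q1]⟩)
  obtain ⟨h1, b, h2, h3⟩ := Q0_N3' hG hc h.w0 hw' h.na.adj.1.symm ca
  have e1 : w' ≠ q := by
    rintro rfl
    exact h.na.2.1 (nice_uniq hc (ma_symm hw') h.qq)
  have e2 : w' ≠ q' := by
    rintro rfl
    exact h.na.1 (nice_uniq hc (ma_symm hw') (ma_symm h.qq))
  have e3 : q' ≠ a := by
    rintro rfl
    exact G.irrefl h.na.adj.2.2
  have e4 : q' ≠ p := by
    rintro rfl
    exact WB (Q1_W h.q1') h.pb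
  have e5 : a ≠ p := by
    rintro rfl
    exact B0_not_B1 h1 (h.B1 hc).1
  exact ⟨w', b, hw', h2, h1, h3, h.na.1, h.na.2.1, e1, e2,
    N3_of3 hG h.qq.1 h.na.adj.2.1.symm h.qp e3 e4 e5⟩

theorem xpi (hG : Cub G) (hW : World2 G c k) {w a q q' p p' : V} (h : Xc G c w a q q' p p') :
    ¬ G.Adj q' p := by
  intro h1
  obtain ⟨w', b, h2, h3, h4, h5, e1, e2, e3, e4, -⟩ := xd hG hW.nice h
  exact hW.pkPi hG w w' a q q' p p'
    ⟨h2.1, h.na.adj.1.symm, h.na.adj.2.1, h.na.adj.2.2, h.qq.1, h.qp, h1, h.pp.1⟩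
    ⟨e1, e2, e3, e4⟩ h4.2
    ⟨Q0_W h.w0, MA_W h2 (Q0_W h.w0), h4.1, Q1_W h.q1, Q1_W h.q1', h.pb, MA_B h.pp h.pb⟩

/-- `q` is not adjacent to `p'` -/
theorem xq (hG : Cub G) (hc : Nice G c) {w a q q' p p' : V} (h : Xc G c w a q q' p p') :
    ¬ G.Adj q p' := by
  intro h1
  obtain ⟨w', b, h2, h3, h4, h5, e1, e2, e3, e4, h6⟩ := xd hG hc h
  have hp := h.B1 hc
  rcases h6.mem h1 with e | e | e
  · subst e
    exact WB (Q1_W h.q1') hp.2.1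
  · subst e
    exact B0_not_B1 h4 hp.2
  · subst e
    exact G.irrefl h.pp.1

theorem xtop (hG : Cub G) (hW : World2 G c k) {w a q q' p p' r r' : V}
    (h : Xc G c w a q q' p p') (h1 : G.Adj p' r) (h2 : G.Adj p' r') (h3 : MA G c r r')
    (h4 : c r = true) : False := by
  have hc := hW.nice
  obtain ⟨w', b, g2, g3, g4, g5, e1, e2, e3, e4, -⟩ := xd hG hc h
  have hp := h.B1 hc
  have cr' := MA_W h3 h4
  have f1 : w ≠ r := by
    rintro rfl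
    exact Q0_noB1 hc h.w0 hp.2 h1.symm
  have f1' : w ≠ r' := by
    rintro rfl
    exact Q0_noB1 hc h.w0 hp.2 h2.symm
  have f2 : w' ≠ r := by
    rintro rfl
    exact f1' (nice_uniq hc (ma_symm g2) h3)
  have f2' : w' ≠ r' := by
    rintro rfl
    exact f1 (nice_uniq hc (ma_symm g2) (ma_symm h3))
  have f3 : q ≠ r := by
    rintro rfl
    exact xq hG hc h h1.symm
  have f3' : q ≠ r' := by
    rintro rfl
    exact xq hG hc h h2.symm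
  have f4 : q' ≠ r := by
    rintro rfl
    exact f3' (nice_uniq hc (ma_symm h.qq) h3)
  have f4' : q' ≠ r' := by
    rintro rfl
    exact f3 (nice_uniq hc (ma_symm h.qq) (ma_symm h3))
  exact hW.pkTop hG w w' a q q' p p' r r'
    ⟨g2.1, h.na.adj.1.symm, h.na.adj.2.1, h.na.adj.2.2, h.qq.1, h.qp, h.pp.1, h1, h2, h3.1⟩
    ⟨e1, e2, f1, f1', e3, e4, f2, f2', f3, f3', f4, f4'⟩ g4.2
    ⟨Q0_W h.w0, MA_W g2 (Q0_W h.w0), g4.1, Q1_W h.q1, Q1_W h.q1', h.pb, MA_B h.pp h.pb, h4, cr'⟩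

end PkF

end

end Pool.Agent.Work.MP_1e13ac_W
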