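import Pool.Agent.Work.MP_1e13ac_W.PkFacts

/-!
# MP_1e13ac_co, full statement, World 2: the facts of the packing, part 2 (helper80)
-/

set_option autoImplicit false
set_option linter.unusedSectionVars false

namespace Pool.Agent.Work.MP_1e13ac_W

open Classical Finset Pool.Agent.Work.MP_1e13ac_Bis

noncomputable section

variable {V : Type} [Fintype V] {G : SimpleGraph V} {c : V → Bool} {k : ℕ}

namespace PkF

open T1G

/-- different mates -/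
theorem nm (hc : Nice G c) {x x' y y' : V} (h1 : MA G c x x') (h2 : MA G c y y')
    (hxy : x ≠ y) (hx'y : x' ≠ y) : x ≠ y ∧ x ≠ y' ∧ x' ≠ y ∧ x' ≠ y' :=
  ⟨hxy, (ne_of_mates hc h1 h2 hxy hx'y).1, hx'y, (ne_of_mates hc h1 h2 hxy hx'y).2⟩

theorem f1 (hG : Cub G) (hW : World2 G c k) {w a q q' p p' r v s : V}
    (h : Xc G c w a q q' p p') (h1 : G.Adj p' r) (h2 : IsW1 G c r) (h3 : G.Adj r v)
    (h4 : IsB0 G c v) (h5 : s ∈ Qs G c 0) (h6 : G.Adj s v) : s = w := by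
  by_contra hsw
  have hc := hW.nice
  obtain ⟨w', b, g2, g3, g4, g5, e1, e2, e3, e4, g6⟩ := xd hG hc h
  have hp := h.B1 hc
  have cw := Q0_W h.w0
  have cw' := MA_W g2 cw
  have cq := Q1_W h.q1
  have cq' := Q1_W h.q1'
  have cp' := MA_B h.pp h.pb
  have cs := Q0_W h5
  have hsa : ¬ G.Adj s a := by
    intro hh
    rcases h.na.mem' hh with e | e | e
    · exact hsw e
    · rw [e] at h5
      exact Q0_Q1 h5 h.q1
    · rw [e] at h5
      exact Q0_Q1 h5 h.q1'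
  have hr1 : r ≠ q := by
    rintro rfl
    exact xq hG hc h h1.symm
  have hr2 : r ≠ q' := by
    intro hh
    rw [hh] at h1 h3
    have f1 : q ≠ a := by
      rintro rfl
      exact WB cq g4.1
    have f2 : q ≠ p' := by
      rintro rfl
      exact WB cq cp'
    have f3 : a ≠ p' := by
      rintro rfl
      exact B0_not_B1 g4 hp.2
    rcases (N3_of3 hG h.qq.1.symm h.na.adj.2.2.symm h1.symm f1 f2 f3).mem h3 with e | e | e
    · rw [e] at h4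
      exact WB cq h4.1
    · rw [e] at h6
      exact hsa h6
    · rw [e] at h4
      exact B0_not_B1 h4 hp.2
  obtain ⟨r', hr'⟩ := mate_ex h2
  have cr' := MA_W hr' h2.1
  have hrw : r ≠ w := by
    rintro rfl
    exact Q0_noB1 hc h.w0 hp.2 h1.symm
  have hrv : v ≠ a := by
    rintro rfl
    exact hsa h6
  have hqr := nm hc h.qq hr' hr1.symm hr2.symm
  by_cases hs1 : s = w'
  · subst hs1
    have hr3 : r ≠ s := by
      rintro rfl
      exact Q0_noB1 hc h5 hp.2 h1.symm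
    have hwr := nm hc g2 hr' hrw.symm hr3.symm
    obtain ⟨-, t, k1, k2⟩ := Q0_N3' hG hc h5 (ma_symm g2) h6 h4.1
    have hta : a ≠ t := by
      rintro rfl
      exact hsa k1.adj.2.2
    by_cases hwv : G.Adj w v
    · exact hW.pkF1o hG w s a q q' p p' r r' v t
        ⟨g2.1, h.na.adj.1.symm, hwv, h6, k1.adj.2.2, h.na.adj.2.1, h.na.adj.2.2, h.qq.1, h.qp,
          h.pp.1, h1, hr'.1, h3⟩
        ⟨e1, e2, hwr.1, hwr.2.1, e3, e4, hwr.2.2.1, hwr.2.2.2, hrv.symm, hta, hqr.1, hqr.2.1,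
          hqr.2.2.1, hqr.2.2.2, k1.2.2.1⟩ ⟨g4.2, h4.2, k2.2⟩
        ⟨cw, cw', g4.1, cq, cq', h.pb, cp', h2.1, cr', h4.1, k2.1⟩
    · have hbv : v ≠ b := by
        rintro rfl
        exact hwv g3.adj.2.2
      by_cases htb : t = b
      · subst htb
        exact hW.pkF1n hG w s a q q' p p' r r' v t
          ⟨g2.1, h.na.adj.1.symm, g3.adj.2.2, h6, k1.adj.2.2, h.na.adj.2.1, h.na.adj.2.2, h.qq.1,
            h.qp, h.pp.1, h1, hr'.1, h3⟩
          ⟨e1, e2, hwr.1, hwr.2.1, e3, e4, hwr.2.2.1, hwr.2.2.2, hrv.symm, hta, hqr.1, hqr.2.1,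
            hqr.2.2.1, hqr.2.2.2, k1.2.2.1⟩ ⟨g4.2, h4.2, k2.2⟩
          ⟨cw, cw', g4.1, cq, cq', h.pb, cp', h2.1, cr', h4.1, k2.1⟩
      · exact hW.pkF1m hG w s a q q' p p' r r' v t b
          ⟨g2.1, h.na.adj.1.symm, g3.adj.2.2, h6, k1.adj.2.2, h.na.adj.2.1, h.na.adj.2.2, h.qq.1,
            h.qp, h.pp.1, h1, hr'.1, h3⟩
          ⟨e1, e2, hwr.1, hwr.2.1, e3, e4, hwr.2.2.1, hwr.2.2.2, hrv.symm, hta, g3.2.2.1, hqr.1,
            hqr.2.1, hqr.2.2.1, hqr.2.2.2, k1.2.2.1, hbv, htb⟩ ⟨g4.2, h4.2, k2.2, g5.2⟩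
          ⟨cw, cw', g4.1, cq, cq', h.pb, cp', h2.1, cr', h4.1, k2.1, g5.1⟩
  · obtain ⟨s', hs'⟩ := mate_ex (mem_Qs.1 h5).1
    have cs' := MA_W hs' cs
    obtain ⟨-, t, k1, k2⟩ := Q0_N3' hG hc h5 hs' h6 h4.1
    have hws := nm hc g2 hs' (fun hh => hsw hh.symm) (fun hh => hs1 hh.symm)
    have hsw' : ¬ G.Adj s w := by
      intro hh
      exact hs1 (nice_uniq hc ⟨hh.symm, by rw [cw, cs]⟩ g2)
    have hsb : ¬ G.Adj s b := by
      intro hh
      exact hsa (two hG hW h.w0 h5 (fun hh => hsw hh.symm) (fun hh => hsw' hh.symm) g3.adj.2.2 hh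
        g3.adj.2.1 g4.1)
    have hta : a ≠ t := by
      rintro rfl
      exact hsa k1.adj.2.2
    have htb : t ≠ b := by
      rintro rfl
      exact hsb k1.adj.2.2
    have hvb : v ≠ b := by
      rintro rfl
      exact hsb h6
    have hqs : q ≠ s := by
      rintro rfl
      exact Q0_Q1 h5 h.q1
    have hqs' : q' ≠ s := by
      rintro rfl
      exact Q0_Q1 h5 h.q1'
    have hqq := nm hc h.qq hs' hqs hqs'
    by_cases hrw' : r = w'
    · subst hrw'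
      exact hW.pkF1w hG w r a q q' p p' v s s' t
        ⟨g2.1, h.na.adj.1.symm, h1.symm, h3, h.na.adj.2.1, h.na.adj.2.2, h.qq.1, h.qp, h.pp.1,
          h6.symm, hs'.1, k1.adj.2.2⟩
        ⟨e1, e2, hws.1, hws.2.1, e3, e4, hws.2.2.1, hws.2.2.2, hrv.symm, hta, hqq.1, hqq.2.1,
          hqq.2.2.1, hqq.2.2.2, k1.2.2.1⟩ ⟨g4.2, h4.2, k2.2⟩
        ⟨cw, cw', g4.1, cq, cq', h.pb, cp', h4.1, cs, cs', k2.1⟩
    · have hwr := nm hc g2 hr' hrw.symm (fun hh => hrw' hh.symm)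
      by_cases hsr : s = r'
      · subst hsr
        exact hW.pkF1s hG w w' a q q' p p' r s v t b
          ⟨g2.1, h.na.adj.1.symm, g3.adj.2.2, h.na.adj.2.1, h.na.adj.2.2, h.qq.1, h.qp, h.pp.1,
            h1, hr'.1, h3, h6, k1.adj.2.2⟩
          ⟨e1, e2, hwr.1, hwr.2.1, e3, e4, hwr.2.2.1, hwr.2.2.2, hrv.symm, hta, g3.2.2.1, hqr.1,
            hqr.2.1, hqr.2.2.1, hqr.2.2.2, k1.2.2.1, hvb, htb⟩ ⟨g4.2, h4.2, k2.2, g5.2⟩
          ⟨cw, cw', g4.1, cq, cq', h.pb, cp', h2.1, cr', h4.1, k2.1, g5.1⟩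
      · have hrs : r ≠ s := by
          rintro rfl
          exact Q0_noB1 hc h5 hp.2 h1.symm
        have hrr := nm hc hr' hs' hrs (fun hh => hsr hh.symm)
        exact hW.pkF1g hG w w' a q q' p p' r r' v s s' t b
          ⟨g2.1, h.na.adj.1.symm, g3.adj.2.2, h.na.adj.2.1, h.na.adj.2.2, h.qq.1, h.qp, h.pp.1,
            h1, hr'.1, h3, h6.symm, hs'.1, k1.adj.2.2⟩
          ⟨e1, e2, hwr.1, hwr.2.1, hws.1, hws.2.1, e3, e4, hwr.2.2.1, hwr.2.2.2, hws.2.2.1,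
            hws.2.2.2, hrv.symm, hta, g3.2.2.1, hqr.1, hqr.2.1, hqq.1, hqq.2.1, hqr.2.2.1,
            hqr.2.2.2, hqq.2.2.1, hqq.2.2.2, hrr.1, hrr.2.1, hrr.2.2.1, hrr.2.2.2, k1.2.2.1, hvb,
            htb⟩ ⟨g4.2, h4.2, k2.2, g5.2⟩
          ⟨cw, cw', g4.1, cq, cq', h.pb, cp', h2.1, cr', h4.1, cs, cs', k2.1, g5.1⟩

theorem ends (hG : Cub G) (hW : World2 G c k) {b b' d d' α β y z b₂ b₂' d₂ d₂' α₂ β₂ z₂ : V}
    (h : PBlk G c b b' d d' α β y z) (h' : PBlk G c b₂ b₂' d₂ d₂' α₂ β₂ y z₂) (hne : α ≠ α₂) :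
    b₂ = b' ∨ b₂ = d' ∨ d₂ = b' ∨ d₂ = d' := by
  by_contra hh
  push_neg at hh
  obtain ⟨f1, f2, f3, f4⟩ := hh
  have hc := hW.nice
  have hb := h.toBlk.bl hc
  have hb' := h'.toBlk.bl hc
  obtain ⟨g1, g2, g3⟩ := blk_ne hc h.toBlk
  obtain ⟨g1', g2', g3'⟩ := blk_ne hc h'.toBlk
  have aux : ∀ {b b' d d' α β y z b₂ b₂' d₂ d₂' α₂ β₂ z₂ : V}, PBlk G c b b' d d' α β y z →
      PBlk G c b₂ b₂' d₂ d₂' α₂ β₂ y z₂ → α ≠ α₂ → b ≠ b₂ := by
    intro b b' d d' α β y z b₂ b₂' d₂ d₂' α₂ β₂ z₂ h h' hne hh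
    rw [← hh] at h'
    have e1 : α₂ = β := by
      rcases h.nb.mem h'.nb.adj.2.1 with e | e | e
      · exact (WB (MA_W h.mb (Q0_W h.b0)) (e ▸ (h'.toBlk.bl hc).1.1)).elim
      · exact absurd e.symm hne
      · exact e
    rw [e1] at h'
    exact k23 hG hW h.toBlk h.nα.2.1.symm h.nα.2.2.1.symm h.nα.adj.2.2.symm h'.nα.adj.2.2.symm
  have n1 := aux h h' hne
  have n2 := aux h h'.symm hne
  have n3 := aux h.symm h' hne
  have n4 := aux h.symm h'.symm hne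
  have m1 := nm hc h.mb h'.mb n1 (fun e => f1 e.symm)
  have m2 := nm hc h.mb h'.md n2 (fun e => f3 e.symm)
  have m3 := nm hc h.md h'.mb n3 (fun e => f2 e.symm)
  have m4 := nm hc h.md h'.md n4 (fun e => f4 e.symm)
  have aux2 : ∀ {b b' d d' α β y z b₂ b₂' d₂ d₂' α₂ β₂ z₂ : V}, PBlk G c b b' d d' α β y z →
      PBlk G c b₂ b₂' d₂ d₂' α₂ β₂ y z₂ → b ≠ b₂ → d ≠ b₂ → α ≠ β₂ := by
    intro b b' d d' α β y z b₂ b₂' d₂ d₂' α₂ β₂ z₂ h h' n1 n2 hh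
    have := h'.nb.adj.2.2
    rw [← hh] at this
    rcases h.nα.mem' this with e | e | e
    · exact n1 e.symm
    · exact n2 e.symm
    · rw [e] at h'
      exact Q0_W0 h'.b0 h.y0
  have k1 : α ≠ β₂ := aux2 h h' n1 n3
  have k2 : β ≠ α₂ := fun e => aux2 h' h n1.symm n2.symm e.symm
  have k3 : β ≠ β₂ := by
    intro hh
    have := h'.nb.adj.2.2
    rw [← hh] at this
    rcases h.nβ.mem' this with e | e | e
    · exact n1 e.symm
    · exact n3 e.symm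
    · rw [e] at h'
      exact Q0_W0 h'.b0 h.z0
  exact hW.pkEn hG b d α β b₂ d₂ α₂ β₂ y b' d' b₂' d₂'
    ⟨h.nb.adj.2.1, h.nb.adj.2.2, h.mb.1, h.nd.adj.2.1, h.nd.adj.2.2, h.md.1, h.nα.adj.2.2,
      h'.nb.adj.2.1, h'.nb.adj.2.2, h'.mb.1, h'.nd.adj.2.1, h'.nd.adj.2.2, h'.md.1,
      h'.nα.adj.2.2⟩
    ⟨h.ne, n1, n2, g1, m1.2.1, m2.2.1, n3, n4, g2.symm, m3.2.1, m4.2.1, h.nb.2.2.1, hne, k1, k2,
      k3, h'.ne, m1.2.2.1.symm, m3.2.2.1.symm, g1', m2.2.2.1.symm, m4.2.2.1.symm, g2'.symm,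
      h'.nb.2.2.1, g3, m1.2.2.2, m2.2.2.2, m3.2.2.2, m4.2.2.2, g3'⟩
    ⟨hb.1.2, hb.2.2, hb'.1.2, hb'.2.2, h.y0.2⟩
    ⟨Q0_W h.b0, Q0_W h.d0, hb.1.1, hb.2.1, Q0_W h'.b0, Q0_W h'.d0, hb'.1.1, hb'.2.1, h.y0.1,
      MA_W h.mb (Q0_W h.b0), MA_W h.md (Q0_W h.d0), MA_W h'.mb (Q0_W h'.b0),
      MA_W h'.md (Q0_W h'.d0)⟩

/-- `b'` is not adjacent to `α` in a block -/
theorem pblk_nα (hc : Nice G c) {b b' d d' α β y z : V} (h : PBlk G c b b' d d' α β y z) :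
    ¬ G.Adj b' α ∧ ¬ G.Adj b' β ∧ ¬ G.Adj d' α ∧ ¬ G.Adj d' β := by
  obtain ⟨g1, g2, g3⟩ := blk_ne hc h.toBlk
  have hb' := W1_of_MA hc (ma_symm h.mb) (MA_W h.mb (Q0_W h.b0))
  have hd' := W1_of_MA hc (ma_symm h.md) (MA_W h.md (Q0_W h.d0))
  refine ⟨fun hh => ?_, fun hh => ?_, fun hh => ?_, fun hh => ?_⟩
  · rcases h.nα.mem' hh with e | e | e
    · exact G.irrefl (e ▸ h.mb.1)
    · exact g2 e
    · rw [e] at hb'
      exact W0_not_W1 h.y0 hb'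
  · rcases h.nβ.mem' hh with e | e | e
    · exact G.irrefl (e ▸ h.mb.1)
    · exact g2 e
    · rw [e] at hb'
      exact W0_not_W1 h.z0 hb'
  · rcases h.nα.mem' hh with e | e | e
    · exact g1 e.symm
    · exact G.irrefl (e ▸ h.md.1)
    · rw [e] at hd'
      exact W0_not_W1 h.y0 hd'
  · rcases h.nβ.mem' hh with e | e | e
    · exact g1 e.symm
    · exact G.irrefl (e ▸ h.md.1)
    · rw [e] at hd'
      exact W0_not_W1 h.z0 hd'

theorem ex1 (hG : Cub G) (hW : World2 G c k) {b b' d d' α β y z h p s : V}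
    (hB : PBlk G c b b' d d' α β y z) (h1 : b' ∉ Qs G c 0) (h2 : d' ∉ Qs G c 0)
    (h3 : IsB1 G c h) (h4 : G.Adj h y) (h5 : G.Adj h b') (h6 : IsB0 G c p) (h7 : G.Adj p y)
    (h8 : G.Adj p b') (hs : s ∈ Qs G c 0) : ¬ G.Adj s p := by
  intro hsp
  have hc := hW.nice
  have hb := hB.toBlk.bl hc
  obtain ⟨g1, g2, g3⟩ := blk_ne hc hB.toBlk
  obtain ⟨i1, i2, i3, i4⟩ := pblk_nα hc hB
  have cb := Q0_W hB.b0
  have cd := Q0_W hB.d0
  have cb' := MA_W hB.mb cb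
  have cd' := MA_W hB.md cd
  obtain ⟨hh, hm⟩ := md1_ex h3.2
  have chh := MA_B hm h3.1
  obtain ⟨s', hs'⟩ := mate_ex (mem_Qs.1 hs).1
  have cs := Q0_W hs
  have cs' := MA_W hs' cs
  obtain ⟨-, t, k1, k2⟩ := Q0_N3' hG hc hs hs' hsp h6.1
  have hpα : α ≠ p := by
    rintro rfl
    exact i1 h8.symm
  have hpβ : β ≠ p := by
    rintro rfl
    exact i2 h8.symm
  have hsb : b ≠ s := by
    rintro rfl
    rcases hB.nb.mem hsp with e | e | e
    · exact WB cb' (e ▸ h6.1)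
    · exact hpα e.symm
    · exact hpβ e.symm
  have hsd : d ≠ s := by
    rintro rfl
    rcases hB.nd.mem hsp with e | e | e
    · exact WB cd' (e ▸ h6.1)
    · exact hpα e.symm
    · exact hpβ e.symm
  have hsb' : b' ≠ s := by
    rintro rfl
    exact h1 hs
  have hsd' : d' ≠ s := by
    rintro rfl
    exact h2 hs
  have m1 := nm hc hB.mb hs' hsb hsb'
  have m2 := nm hc hB.md hs' hsd hsd'
  have hsα : ¬ G.Adj s α := by
    intro e
    rcases hB.nα.mem' e with e | e | e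
    · exact hsb e.symm
    · exact hsd e.symm
    · rw [e] at hs
      exact Q0_W0 hs hB.y0
  have hsβ : ¬ G.Adj s β := by
    intro e
    rcases hB.nβ.mem' e with e | e | e
    · exact hsb e.symm
    · exact hsd e.symm
    · rw [e] at hs
      exact Q0_W0 hs hB.z0
  have hα : α ≠ t := by
    rintro rfl
    exact hsα k1.adj.2.2
  have hβ : β ≠ t := by
    rintro rfl
    exact hsβ k1.adj.2.2
  exact hW.pkEx hG b d b' d' α β y h p hh s s' t
    ⟨hB.mb.1, hB.nb.adj.2.1, hB.nb.adj.2.2, hB.md.1, hB.nd.adj.2.1, hB.nd.adj.2.2, h5.symm,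
      h8.symm, hB.nα.adj.2.2, h4.symm, h7.symm, hm.1, hsp.symm, hs'.1, k1.adj.2.2⟩
    ⟨hB.ne, g1, hsb, m1.2.1, g2.symm, hsd, m2.2.1, g3, hsb', m1.2.2.2, hsd', m2.2.2.2,
      hB.nb.2.2.1, hpα, hα, hpβ, hβ, k1.2.2.1⟩ ⟨hb.1.2, hb.2.2, hB.y0.2, h6.2, k2.2⟩
    ⟨cb, cd, cb', cd', hb.1.1, hb.2.1, hB.y0.1, h3.1, h6.1, chh, cs, cs', k2.1⟩

theorem t1src (hG : Cub G) (hW : World2 G c k) {z z' u u' v s x v' s' : V} (h1 : c z = false)
    (h2 : MA G c z z') (h3 : G.Adj z u) (h4 : G.Adj z u') (h5 : MA G c u u') (h6 : c u = true)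
    (h7 : G.Adj u v) (h8 : IsB0 G c v) (h9 : s ∈ Qs G c 0) (h10 : G.Adj s v)
    (h11 : G.Adj z' x) (h12 : IsW1 G c x) (h13 : G.Adj x v') (h14 : IsB0 G c v')
    (h15 : s' ∈ Qs G c 0) (h16 : G.Adj s' v') : False := by
  have hc := hW.nice
  have cu' := MA_W h5 h6
  have hz1 := B1_of_MA hc h2 h1
  have hz1' := B1_of_MA hc (ma_symm h2) (MA_B h2 h1)
  have hu1 := W1_of_MA hc h5 h6
  obtain ⟨x', hx'⟩ := mate_ex h12
  have cx' := MA_W hx' h12.1
  have nu : N3 G u u' z v := by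
    refine N3_of3 hG h5.1 h3.symm h7 ?_ ?_ ?_
    · rintro rfl
      exact WB cu' h1
    · rintro rfl
      exact WB cu' h8.1
    · rintro rfl
      exact B0_not_B1 h8 hz1
  -- `x` is not in the pair
  have aux : ∀ {y y' : V}, G.Adj z y → MA G c y y' → c y = true → x ≠ y := by
    intro y y' k1 k2 k3 hh
    have n1 : y' ≠ z := by
      rintro rfl
      exact WB (MA_W k2 k3) h1
    have n2 : y' ≠ z' := by
      rintro rfl
      exact WB (MA_W k2 k3) (MA_B h2 h1)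
    rw [hh] at h11 h13
    rcases (N3_of3 hG k2.1 k1.symm h11.symm n1 n2 h2.1.ne).mem h13 with e | e | e
    · rw [e] at h14
      exact WB (MA_W k2 k3) h14.1
    · rw [e] at h14
      exact B0_not_B1 h14 hz1
    · rw [e] at h14
      exact B0_not_B1 h14 hz1'
  have hxu : u ≠ x := (aux h3 h5 h6).symm
  have hxu' : u' ≠ x := (aux h4 (ma_symm h5) cu').symm
  have mx := nm hc h5 hx' hxu hxu'
  have nx : N3 G x x' z' v' := by
    refine N3_of3 hG hx'.1 h11.symm h13 ?_ ?_ ?_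
    · rintro rfl
      exact WB cx' hz1'.1
    · rintro rfl
      exact WB cx' h14.1
    · rintro rfl
      exact B0_not_B1 h14 hz1'
  -- sources are not in the pairs
  have srcu : ∀ {t : V}, t ∈ Qs G c 0 → u ≠ t ∧ u' ≠ t ∧ x ≠ t := by
    intro t ht
    refine ⟨?_, ?_, ?_⟩
    · rintro rfl
      exact Q0_noB1 hc ht hz1 h3.symm
    · rintro rfl
      exact Q0_noB1 hc ht hz1 h4.symm
    · rintro rfl
      exact Q0_noB1 hc ht hz1' h11.symm
  have main : ∀ {s : V}, s ∈ Qs G c 0 → G.Adj s v → G.Adj s v' → v ≠ v' → False := by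
    intro s h9 h10 h16 hvv
    obtain ⟨s₁, hs⟩ := mate_ex (mem_Qs.1 h9).1
    have cs := Q0_W h9
    have cs₁ := MA_W hs cs
    obtain ⟨a1, a2, a3⟩ := srcu h9
    have ms := nm hc h5 hs a1 a2
    by_cases hxs : x = s₁
    · subst hxs
      exact hW.pkT1x hG z z' u u' v s x v'
        ⟨h2.1, h3, h4, h11, h5.1, h7, h10.symm, hs.1, h16, h13⟩
        ⟨ms.1, ms.2.1, ms.2.2.1, ms.2.2.2, hvv⟩ ⟨h8.2, h14.2⟩
        ⟨h1, hz1'.1, h6, cu', h8.1, cs, cs₁, h14.1⟩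
    · have mxs := nm hc hs hx' a3.symm (fun hh => hxs hh.symm)
      exact hW.pkT1s hG z z' u u' v s s₁ x x' v'
        ⟨h2.1, h3, h4, h11, h5.1, h7, h10.symm, hs.1, h16, hx'.1, h13⟩
        ⟨ms.1, ms.2.1, hxu, mx.2.1, ms.2.2.1, ms.2.2.2, hxu', mx.2.2.2, hvv, mxs.1, mxs.2.1,
          mxs.2.2.1, mxs.2.2.2⟩ ⟨h8.2, h14.2⟩
        ⟨h1, hz1'.1, h6, cu', h8.1, cs, cs₁, h12.1, cx', h14.1⟩
  obtain ⟨s₁, hs⟩ := mate_ex (mem_Qs.1 h9).1
  have cs := Q0_W h9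
  have cs₁ := MA_W hs cs
  obtain ⟨a1, a2, a3⟩ := srcu h9
  have ms := nm hc h5 hs a1 a2
  obtain ⟨-, t, k1, k2⟩ := Q0_N3' hG hc h9 hs h10 h8.1
  by_cases hvv : v = v'
  · subst hvv
    by_cases hxs : G.Adj s x
    · have e : s₁ = x := nice_uniq hc hs ⟨hxs, by rw [cs, h12.1]⟩
      subst e
      exact hW.pkT1v hG z z' u u' v s s₁ t
        ⟨h2.1, h3, h4, h11, h5.1, h7, h10.symm, h13.symm, hs.1, k1.adj.2.2⟩
        ⟨ms.1, ms.2.1, ms.2.2.1, ms.2.2.2, k1.2.2.1⟩ ⟨h8.2, k2.2⟩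
        ⟨h1, hz1'.1, h6, cu', h8.1, cs, cs₁, k2.1⟩
    · have hsu : ¬ G.Adj s u := by
        intro hh
        exact a2 (nice_uniq hc h5 ⟨hh.symm, by rw [cs, h6]⟩)
      have hux := PkF.a3 hG hW h9 h8.1 (N3_of3 hG h10.symm h7.symm h13.symm a1.symm a3.symm hxu)
        hu1 h12 hsu hxs
      exact hxu' (nice_uniq hc h5 ⟨hux, by rw [h6, h12.1]⟩)
  · by_cases hsv : G.Adj s v'
    · exact main h9 h10 hsv hvv
    · by_cases hsv' : G.Adj s' v
      · exact main h15 hsv' h16 hvv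
      · have hss : s ≠ s' := by
          rintro rfl
          exact hsv h16
        obtain ⟨s₂, hs'⟩ := mate_ex (mem_Qs.1 h15).1
        have cs' := Q0_W h15
        have cs₂ := MA_W hs' cs'
        obtain ⟨b1, b2, b3⟩ := srcu h15
        have ms' := nm hc h5 hs' b1 b2
        obtain ⟨-, t', k1', k2'⟩ := Q0_N3' hG hc h15 hs' h16 h14.1
        by_cases hmm : s₁ = s'
        · subst hmm
          have mxs := nm hc hs hx' a3.symm b3.symm
          exact hW.pkT1m hG z z' u u' v s s₁ x x' v'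
            ⟨h2.1, h3, h4, h11, h5.1, h7, h10.symm, hs.1, h16, hx'.1, h13⟩
            ⟨ms.1, ms.2.1, hxu, mx.2.1, ms.2.2.1, ms.2.2.2, hxu', mx.2.2.2, hvv, mxs.1, mxs.2.1,
              mxs.2.2.1, mxs.2.2.2⟩ ⟨h8.2, h14.2⟩
            ⟨h1, hz1'.1, h6, cu', h8.1, cs, cs₁, h12.1, cx', h14.1⟩
        · have mss := nm hc hs hs' hss hmm
          have hvt' : v ≠ t' := by
            rintro rfl
            exact hsv' k1'.adj.2.2
          by_cases hxs : x = s₁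
          · subst hxs
            exact hW.pkT1w hG z z' u u' v s x v' s' s₂ t'
              ⟨h2.1, h3, h4, h11, h5.1, h7, h10.symm, hs.1, h13, h16.symm, hs'.1, k1'.adj.2.2⟩
              ⟨ms.1, ms.2.1, ms'.1, ms'.2.1, ms.2.2.1, ms.2.2.2, ms'.2.2.1, ms'.2.2.2, hvv, hvt',
                mss.1, mss.2.1, mss.2.2.1, mss.2.2.2, k1'.2.2.1⟩ ⟨h8.2, h14.2, k2'.2⟩
              ⟨h1, hz1'.1, h6, cu', h8.1, cs, cs₁, h14.1, cs', cs₂, k2'.1⟩
          · have mxs := nm hc hs hx' a3.symm (fun hh => hxs hh.symm)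
            by_cases hxs' : x' = s'
            · subst hxs'
              exact hW.pkT1y hG z z' u u' v s s₁ x x' v' t'
                ⟨h2.1, h3, h4, h11, h5.1, h7, h10.symm, hs.1, hx'.1, h13, h16, k1'.adj.2.2⟩
                ⟨ms.1, ms.2.1, hxu, mx.2.1, ms.2.2.1, ms.2.2.2, hxu', mx.2.2.2, hvv, hvt',
                  mxs.1, mxs.2.1, mxs.2.2.1, mxs.2.2.2, k1'.2.2.1⟩ ⟨h8.2, h14.2, k2'.2⟩
                ⟨h1, hz1'.1, h6, cu', h8.1, cs, cs₁, h12.1, cx', h14.1, k2'.1⟩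
            · have mxs' := nm hc hx' hs' b3 hxs'
              have hvt : t ≠ v' := by
                rintro rfl
                exact hsv k1.adj.2.2
              have hns : ¬ G.Adj s s' := by
                intro hh
                exact hmm (nice_uniq hc hs ⟨hh, by rw [cs, cs']⟩)
              have htt : t ≠ t' := by
                rintro rfl
                exact hsv' (two hG hW h9 h15 hss hns k1.adj.2.2 k1'.adj.2.2 h10 h8.1)
              exact hW.pkT1g hG z z' u u' v s s₁ t x x' v' s' s₂ t'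
                ⟨h2.1, h3, h4, h11, h5.1, h7, h10.symm, hs.1, k1.adj.2.2, hx'.1, h13, h16.symm,
                  hs'.1, k1'.adj.2.2⟩
                ⟨ms.1, ms.2.1, hxu, mx.2.1, ms'.1, ms'.2.1, ms.2.2.1, ms.2.2.2, hxu', mx.2.2.2,
                  ms'.2.2.1, ms'.2.2.2, k1.2.2.1, hvv, hvt', mxs.1, mxs.2.1, mss.1, mss.2.1,
                  mxs.2.2.1, mxs.2.2.2, mss.2.2.1, mss.2.2.2, hvt, htt, mxs'.1, mxs'.2.1,
                  mxs'.2.2.1, mxs'.2.2.2, k1'.2.2.1⟩ ⟨h8.2, k2.2, h14.2, k2'.2⟩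
                ⟨h1, hz1'.1, h6, cu', h8.1, cs, cs₁, k2.1, h12.1, cx', h14.1, cs', cs₂, k2'.1⟩

end PkF

end

end Pool.Agent.Work.MP_1e13ac_W
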