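import Pool.Agent.Work.MP_1e13ac_W.PkDefs
import Pool.Agent.Work.MP_1e13ac_W.W1Leaf

/-! # MP_1e13ac_co, full statement: valid sets of the packing (helper80) -/

set_option autoImplicit false
set_option linter.unusedSectionVars false

namespace Pool.Agent.Work.MP_1e13ac_W

open Classical Finset Pool.Agent.Work.MP_1e13ac_Bis

noncomputable section

variable {V : Type} [Fintype V] {G : SimpleGraph V} {c : V → Bool}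

theorem pkvE (hG : Cub G) (hc : Nice G c) (v0 v1 v2 v3 v4 v5 : V)
    (hE : G.Adj v0 v1 ∧ G.Adj v0 v2 ∧ G.Adj v0 v3 ∧ G.Adj v2 v4 ∧ G.Adj v2 v5)
    (hD : v2 ≠ v3 ∧ v4 ≠ v5)
    (hI : md G c v2 = 0 ∧ md G c v3 = 0 ∧ md G c v4 = 0 ∧ md G c v5 = 0)
    (hC : c v0 = true ∧ c v1 = true ∧ c v2 = false ∧ c v3 = false ∧ c v4 = true ∧ c v5 = true) :
    Gd G c {v0, v2} (0, 1, 0) := by
  obtain ⟨e0, e1, e2, e3, e4⟩ := hE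
  obtain ⟨d0, d1⟩ := hD
  obtain ⟨i0, i1, i2, i3⟩ := hI
  obtain ⟨c0, c1, c2, c3, c4, c5⟩ := hC
  have hE : Emb G c [[1,2,3],[0],[0,4,5],[0],[2],[2]] 51 0 (fun i => [v0, v1, v2, v3, v4, v5].getD i v0) := by
    refine emb_mk hc [v0, v1, v2, v3, v4, v5] v0 [(0, 1), (0, 2), (0, 3), (2, 4), (2, 5)]
      [(2, 3), (4, 5)] [2, 3, 4, 5] rfl (by decide) ?_ ?_ ?_ ?_
    · simp [e0, e1, e2, e3, e4]
    · simp [d0, d1]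
    · simp [i0, i1, i2, i3]
    · simp [c0, c1, c2, c3, c4, c5]
      decide
  have hF : cmpR [[1,2,3],[0],[0,4,5],[0],[2],[2]] 5 = true := by decide
  have hS : FS [[1,2,3],[0],[0,4,5],[0],[2],[2]] 5 (fun i => [v0, v1, v2, v3, v4, v5].getD i v0) = {v0, v2} := by
    rw [FS_eq {0, 2} (by decide)]
    simp
  have h1 := hE.valid hG hc hF (by decide)
  have h2 := hE.stD hG hc hF
  rw [hS] at h1 h2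
  refine ⟨h1, ?_⟩
  rw [h2]
  decide

theorem pkvD0 (hG : Cub G) (hc : Nice G c) (v0 v1 v2 v3 v4 : V)
    (hE : G.Adj v0 v1 ∧ G.Adj v0 v2 ∧ G.Adj v0 v3 ∧ G.Adj v1 v2 ∧ G.Adj v2 v4)
    (hD : v2 ≠ v3)
    (hI : md G c v2 = 0 ∧ md G c v3 = 0 ∧ md G c v4 = 0)
    (hC : c v0 = true ∧ c v1 = true ∧ c v2 = false ∧ c v3 = false ∧ c v4 = true) :
    Gd G c {v0, v2} (0, 1, 0) := by
  obtain ⟨e0, e1, e2, e3, e4⟩ := hE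
  obtain ⟨i0, i1, i2⟩ := hI
  obtain ⟨c0, c1, c2, c3, c4⟩ := hC
  have hE : Emb G c [[1,2,3],[0,2],[0,1,4],[0],[2]] 19 0 (fun i => [v0, v1, v2, v3, v4].getD i v0) := by
    refine emb_mk hc [v0, v1, v2, v3, v4] v0 [(0, 1), (0, 2), (0, 3), (1, 2), (2, 4)]
      [(2, 3)] [2, 3, 4] rfl (by decide) ?_ ?_ ?_ ?_
    · simp [e0, e1, e2, e3, e4]
    · simp [hD]
    · simp [i0, i1, i2]
    · simp [c0, c1, c2, c3, c4]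
      decide
  have hF : cmpR [[1,2,3],[0,2],[0,1,4],[0],[2]] 5 = true := by decide
  have hS : FS [[1,2,3],[0,2],[0,1,4],[0],[2]] 5 (fun i => [v0, v1, v2, v3, v4].getD i v0) = {v0, v2} := by
    rw [FS_eq {0, 2} (by decide)]
    simp
  have h1 := hE.valid hG hc hF (by decide)
  have h2 := hE.stD hG hc hF
  rw [hS] at h1 h2
  refine ⟨h1, ?_⟩
  rw [h2]
  decide

theorem pkvX3a (hG : Cub G) (hc : Nice G c) (v0 v1 v2 v3 v4 v5 v6 v7 v8 v9 : V)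
    (hE : G.Adj v0 v1 ∧ G.Adj v0 v2 ∧ G.Adj v0 v3 ∧ G.Adj v2 v4 ∧ G.Adj v2 v5 ∧ G.Adj v4 v5 ∧ G.Adj v4 v6 ∧ G.Adj v6 v7 ∧ G.Adj v7 v8 ∧ G.Adj v7 v9)
    (hD : v0 ≠ v4 ∧ v0 ≠ v5 ∧ v1 ≠ v4 ∧ v1 ≠ v5 ∧ v2 ≠ v3 ∧ v8 ≠ v9)
    (hI : md G c v2 = 0 ∧ md G c v3 = 0 ∧ md G c v8 = 0 ∧ md G c v9 = 0)
    (hC : c v0 = true ∧ c v1 = true ∧ c v2 = false ∧ c v3 = false ∧ c v4 = true ∧ c v5 = true ∧ c v6 = false ∧ c v7 = false ∧ c v8 = true ∧ c v9 = true) :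
    Gd G c {v0, v2, v4, v7} (0, 1, 0) := by
  obtain ⟨e0, e1, e2, e3, e4, e5, e6, e7, e8, e9⟩ := hE
  obtain ⟨d0, d1, d2, d3, d4, d5⟩ := hD
  obtain ⟨i0, i1, i2, i3⟩ := hI
  obtain ⟨c0, c1, c2, c3, c4, c5, c6, c7, c8, c9⟩ := hC
  have hE : Emb G c [[1,2,3],[0],[0,4,5],[0],[2,5,6],[2,4],[4,7],[6,8,9],[7],[7]] 819 0 (fun i => [v0, v1, v2, v3, v4, v5, v6, v7, v8, v9].getD i v0) := by
    refine emb_mk hc [v0, v1, v2, v3, v4, v5, v6, v7, v8, v9] v0 [(0, 1), (0, 2), (0, 3), (2, 4), (2, 5), (4, 5), (4, 6), (6, 7), (7, 8), (7, 9)]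
      [(0, 4), (0, 5), (1, 4), (1, 5), (2, 3), (8, 9)] [2, 3, 8, 9] rfl (by decide) ?_ ?_ ?_ ?_
    · simp [e0, e1, e2, e3, e4, e5, e6, e7, e8, e9]
    · simp [d0, d1, d2, d3, d4, d5]
    · simp [i0, i1, i2, i3]
    · simp [c0, c1, c2, c3, c4, c5, c6, c7, c8, c9]
      decide
  have hF : cmpR [[1,2,3],[0],[0,4,5],[0],[2,5,6],[2,4],[4,7],[6,8,9],[7],[7]] 149 = true := by decide
  have hS : FS [[1,2,3],[0],[0,4,5],[0],[2,5,6],[2,4],[4,7],[6,8,9],[7],[7]] 149 (fun i => [v0, v1, v2, v3, v4, v5, v6, v7, v8, v9].getD i v0) = {v0, v2, v4, v7} := by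
    rw [FS_eq {0, 2, 4, 7} (by decide)]
    simp
  have h1 := hE.valid hG hc hF (by decide)
  have h2 := hE.stD hG hc hF
  rw [hS] at h1 h2
  refine ⟨h1, ?_⟩
  rw [h2]
  decide

theorem pkvX3b (hG : Cub G) (hc : Nice G c) (v0 v1 v2 v3 v4 v5 v6 v7 v8 : V)
    (hE : G.Adj v0 v1 ∧ G.Adj v0 v2 ∧ G.Adj v0 v3 ∧ G.Adj v1 v7 ∧ G.Adj v2 v4 ∧ G.Adj v2 v5 ∧ G.Adj v4 v5 ∧ G.Adj v4 v6 ∧ G.Adj v6 v7 ∧ G.Adj v7 v8)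
    (hD : v0 ≠ v4 ∧ v0 ≠ v5 ∧ v1 ≠ v4 ∧ v1 ≠ v5 ∧ v2 ≠ v3)
    (hI : md G c v2 = 0 ∧ md G c v3 = 0 ∧ md G c v8 = 0)
    (hC : c v0 = true ∧ c v1 = true ∧ c v2 = false ∧ c v3 = false ∧ c v4 = true ∧ c v5 = true ∧ c v6 = false ∧ c v7 = false ∧ c v8 = true) :
    Gd G c {v0, v2, v4, v7} (0, 1, 0) := by
  obtain ⟨e0, e1, e2, e3, e4, e5, e6, e7, e8, e9⟩ := hE
  obtain ⟨d0, d1, d2, d3, d4⟩ := hD
  obtain ⟨i0, i1, i2⟩ := hI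
  obtain ⟨c0, c1, c2, c3, c4, c5, c6, c7, c8⟩ := hC
  have hE : Emb G c [[1,2,3],[0,7],[0,4,5],[0],[2,5,6],[2,4],[4,7],[6,8,1],[7]] 307 0 (fun i => [v0, v1, v2, v3, v4, v5, v6, v7, v8].getD i v0) := by
    refine emb_mk hc [v0, v1, v2, v3, v4, v5, v6, v7, v8] v0 [(0, 1), (0, 2), (0, 3), (1, 7), (2, 4), (2, 5), (4, 5), (4, 6), (6, 7), (7, 8)]
      [(0, 4), (0, 5), (1, 4), (1, 5), (2, 3)] [2, 3, 8] rfl (by decide) ?_ ?_ ?_ ?_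
    · simp [e0, e1, e2, e3, e4, e5, e6, e7, e8, e9]
    · simp [d0, d1, d2, d3, d4]
    · simp [i0, i1, i2]
    · simp [c0, c1, c2, c3, c4, c5, c6, c7, c8]
      decide
  have hF : cmpR [[1,2,3],[0,7],[0,4,5],[0],[2,5,6],[2,4],[4,7],[6,8,1],[7]] 149 = true := by decide
  have hS : FS [[1,2,3],[0,7],[0,4,5],[0],[2,5,6],[2,4],[4,7],[6,8,1],[7]] 149 (fun i => [v0, v1, v2, v3, v4, v5, v6, v7, v8].getD i v0) = {v0, v2, v4, v7} := by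
    rw [FS_eq {0, 2, 4, 7} (by decide)]
    simp
  have h1 := hE.valid hG hc hF (by decide)
  have h2 := hE.stD hG hc hF
  rw [hS] at h1 h2
  refine ⟨h1, ?_⟩
  rw [h2]
  decide

theorem pkvM (hG : Cub G) (hc : Nice G c) (v0 v1 v2 v3 v4 v5 v6 : V)
    (hE : G.Adj v0 v1 ∧ G.Adj v0 v2 ∧ G.Adj v0 v3 ∧ G.Adj v2 v4 ∧ G.Adj v2 v6 ∧ G.Adj v4 v5)
    (hD : v0 ≠ v4 ∧ v0 ≠ v5 ∧ v1 ≠ v4 ∧ v1 ≠ v5 ∧ v2 ≠ v3)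
    (hI : md G c v2 = 0 ∧ md G c v3 = 0 ∧ md G c v6 = 0)
    (hC : c v0 = true ∧ c v1 = true ∧ c v2 = false ∧ c v3 = false ∧ c v4 = true ∧ c v5 = true ∧ c v6 = true) :
    Gd G c {v0, v2} (0, 2, 2) := by
  obtain ⟨e0, e1, e2, e3, e4, e5⟩ := hE
  obtain ⟨d0, d1, d2, d3, d4⟩ := hD
  obtain ⟨i0, i1, i2⟩ := hI
  obtain ⟨c0, c1, c2, c3, c4, c5, c6⟩ := hC
  have hE : Emb G c [[1,2,3],[0],[0,4,6],[0],[2,5],[4],[2]] 115 0 (fun i => [v0, v1, v2, v3, v4, v5, v6].getD i v0) := by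
    refine emb_mk hc [v0, v1, v2, v3, v4, v5, v6] v0 [(0, 1), (0, 2), (0, 3), (2, 4), (2, 6), (4, 5)]
      [(0, 4), (0, 5), (1, 4), (1, 5), (2, 3)] [2, 3, 6] rfl (by decide) ?_ ?_ ?_ ?_
    · simp [e0, e1, e2, e3, e4, e5]
    · simp [d0, d1, d2, d3, d4]
    · simp [i0, i1, i2]
    · simp [c0, c1, c2, c3, c4, c5, c6]
      decide
  have hF : cmpR [[1,2,3],[0],[0,4,6],[0],[2,5],[4],[2]] 5 = true := by decide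
  have hS : FS [[1,2,3],[0],[0,4,6],[0],[2,5],[4],[2]] 5 (fun i => [v0, v1, v2, v3, v4, v5, v6].getD i v0) = {v0, v2} := by
    rw [FS_eq {0, 2} (by decide)]
    simp
  have h1 := hE.valid hG hc hF (by decide)
  have h2 := hE.stD hG hc hF
  rw [hS] at h1 h2
  refine ⟨h1, ?_⟩
  rw [h2]
  decide

theorem pkvMy (hG : Cub G) (hc : Nice G c) (v0 v1 v2 v3 v4 v5 : V)
    (hE : G.Adj v0 v1 ∧ G.Adj v0 v2 ∧ G.Adj v0 v3 ∧ G.Adj v1 v2 ∧ G.Adj v2 v4 ∧ G.Adj v4 v5)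
    (hD : v0 ≠ v4 ∧ v0 ≠ v5 ∧ v1 ≠ v4 ∧ v1 ≠ v5 ∧ v2 ≠ v3)
    (hI : md G c v2 = 0 ∧ md G c v3 = 0)
    (hC : c v0 = true ∧ c v1 = true ∧ c v2 = false ∧ c v3 = false ∧ c v4 = true ∧ c v5 = true) :
    Gd G c {v0, v2} (0, 2, 2) := by
  obtain ⟨e0, e1, e2, e3, e4, e5⟩ := hE
  obtain ⟨d0, d1, d2, d3, d4⟩ := hD
  obtain ⟨i0, i1⟩ := hI
  obtain ⟨c0, c1, c2, c3, c4, c5⟩ := hC
  have hE : Emb G c [[1,2,3],[0,2],[0,4,1],[0],[2,5],[4]] 51 0 (fun i => [v0, v1, v2, v3, v4, v5].getD i v0) := by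
    refine emb_mk hc [v0, v1, v2, v3, v4, v5] v0 [(0, 1), (0, 2), (0, 3), (1, 2), (2, 4), (4, 5)]
      [(0, 4), (0, 5), (1, 4), (1, 5), (2, 3)] [2, 3] rfl (by decide) ?_ ?_ ?_ ?_
    · simp [e0, e1, e2, e3, e4, e5]
    · simp [d0, d1, d2, d3, d4]
    · simp [i0, i1]
    · simp [c0, c1, c2, c3, c4, c5]
      decide
  have hF : cmpR [[1,2,3],[0,2],[0,4,1],[0],[2,5],[4]] 5 = true := by decide
  have hS : FS [[1,2,3],[0,2],[0,4,1],[0],[2,5],[4]] 5 (fun i => [v0, v1, v2, v3, v4, v5].getD i v0) = {v0, v2} := by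
    rw [FS_eq {0, 2} (by decide)]
    simp
  have h1 := hE.valid hG hc hF (by decide)
  have h2 := hE.stD hG hc hF
  rw [hS] at h1 h2
  refine ⟨h1, ?_⟩
  rw [h2]
  decide

theorem pkvT4 (hG : Cub G) (hc : Nice G c) (v0 v1 v2 v3 v4 : V)
    (hE : G.Adj v0 v1 ∧ G.Adj v0 v2 ∧ G.Adj v0 v3 ∧ G.Adj v3 v4)
    (hI : md G c v2 = 0)
    (hC : c v0 = true ∧ c v1 = true ∧ c v2 = false ∧ c v3 = false ∧ c v4 = false) :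
    Gd G c {v0} (-2, -2, -2) := by
  obtain ⟨e0, e1, e2, e3⟩ := hE
  obtain ⟨c0, c1, c2, c3, c4⟩ := hC
  have hE : Emb G c [[1,2,3],[0],[0],[0,4],[3]] 3 0 (fun i => [v0, v1, v2, v3, v4].getD i v0) := by
    refine emb_mk hc [v0, v1, v2, v3, v4] v0 [(0, 1), (0, 2), (0, 3), (3, 4)]
      [] [2] rfl (by decide) ?_ ?_ ?_ ?_
    · simp [e0, e1, e2, e3]
    · simp []
    · simp [hI]
    · simp [c0, c1, c2, c3, c4]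
      decide
  have hF : cmpR [[1,2,3],[0],[0],[0,4],[3]] 1 = true := by decide
  have hS : FS [[1,2,3],[0],[0],[0,4],[3]] 1 (fun i => [v0, v1, v2, v3, v4].getD i v0) = {v0} := by
    rw [FS_eq {0} (by decide)]
    simp
  have h1 := hE.valid hG hc hF (by decide)
  have h2 := hE.stD hG hc hF
  rw [hS] at h1 h2
  refine ⟨h1, ?_⟩
  rw [h2]
  decide

theorem pkvEUM (hG : Cub G) (hc : Nice G c) (v0 v1 v2 v3 v4 v5 v6 v7 v8 : V)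
    (hE : G.Adj v0 v1 ∧ G.Adj v0 v2 ∧ G.Adj v0 v3 ∧ G.Adj v2 v4 ∧ G.Adj v2 v6 ∧ G.Adj v4 v5 ∧ G.Adj v5 v7 ∧ G.Adj v5 v8)
    (hD : v0 ≠ v4 ∧ v0 ≠ v5 ∧ v1 ≠ v4 ∧ v1 ≠ v5 ∧ v2 ≠ v3 ∧ v2 ≠ v7 ∧ v2 ≠ v8 ∧ v3 ≠ v7 ∧ v3 ≠ v8 ∧ v7 ≠ v8)
    (hI : md G c v2 = 0 ∧ md G c v3 = 0 ∧ md G c v6 = 0 ∧ md G c v7 = 0 ∧ md G c v8 = 0)
    (hC : c v0 = true ∧ c v1 = true ∧ c v2 = false ∧ c v3 = false ∧ c v4 = true ∧ c v5 = true ∧ c v6 = true ∧ c v7 = false ∧ c v8 = false) :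
    Gd G c {v5, v0, v2} (-2, 0, 0) := by
  obtain ⟨e0, e1, e2, e3, e4, e5, e6, e7⟩ := hE
  obtain ⟨d0, d1, d2, d3, d4, d5, d6, d7, d8, d9⟩ := hD
  obtain ⟨i0, i1, i2, i3, i4⟩ := hI
  obtain ⟨c0, c1, c2, c3, c4, c5, c6, c7, c8⟩ := hC
  have hE : Emb G c [[1,2,3],[0],[0,4,6],[0],[2,5],[4,7,8],[2],[5],[5]] 115 0 (fun i => [v0, v1, v2, v3, v4, v5, v6, v7, v8].getD i v0) := by
    refine emb_mk hc [v0, v1, v2, v3, v4, v5, v6, v7, v8] v0 [(0, 1), (0, 2), (0, 3), (2, 4), (2, 6), (4, 5), (5, 7), (5, 8)]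
      [(0, 4), (0, 5), (1, 4), (1, 5), (2, 3), (2, 7), (2, 8), (3, 7), (3, 8), (7, 8)] [2, 3, 6, 7, 8] rfl (by decide) ?_ ?_ ?_ ?_
    · simp [e0, e1, e2, e3, e4, e5, e6, e7]
    · simp [d0, d1, d2, d3, d4, d5, d6, d7, d8, d9]
    · simp [i0, i1, i2, i3, i4]
    · simp [c0, c1, c2, c3, c4, c5, c6, c7, c8]
      decide
  have hF : cmpR [[1,2,3],[0],[0,4,6],[0],[2,5],[4,7,8],[2],[5],[5]] 37 = true := by decide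
  have hS : FS [[1,2,3],[0],[0,4,6],[0],[2,5],[4,7,8],[2],[5],[5]] 37 (fun i => [v0, v1, v2, v3, v4, v5, v6, v7, v8].getD i v0) = {v5, v0, v2} := by
    rw [FS_eq {5, 0, 2} (by decide)]
    simp
  have h1 := hE.valid hG hc hF (by decide)
  have h2 := hE.stD hG hc hF
  rw [hS] at h1 h2
  refine ⟨h1, ?_⟩
  rw [h2]
  decide

theorem pkvEUMy (hG : Cub G) (hc : Nice G c) (v0 v1 v2 v3 v4 v5 v6 v7 : V)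
    (hE : G.Adj v0 v1 ∧ G.Adj v0 v2 ∧ G.Adj v0 v3 ∧ G.Adj v1 v2 ∧ G.Adj v2 v4 ∧ G.Adj v4 v5 ∧ G.Adj v5 v6 ∧ G.Adj v5 v7)
    (hD : v0 ≠ v4 ∧ v0 ≠ v5 ∧ v1 ≠ v4 ∧ v1 ≠ v5 ∧ v2 ≠ v3 ∧ v2 ≠ v6 ∧ v2 ≠ v7 ∧ v3 ≠ v6 ∧ v3 ≠ v7 ∧ v6 ≠ v7)
    (hI : md G c v2 = 0 ∧ md G c v3 = 0 ∧ md G c v6 = 0 ∧ md G c v7 = 0)
    (hC : c v0 = true ∧ c v1 = true ∧ c v2 = false ∧ c v3 = false ∧ c v4 = true ∧ c v5 = true ∧ c v6 = false ∧ c v7 = false) :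
    Gd G c {v5, v0, v2} (-2, 0, 0) := by
  obtain ⟨e0, e1, e2, e3, e4, e5, e6, e7⟩ := hE
  obtain ⟨d0, d1, d2, d3, d4, d5, d6, d7, d8, d9⟩ := hD
  obtain ⟨i0, i1, i2, i3⟩ := hI
  obtain ⟨c0, c1, c2, c3, c4, c5, c6, c7⟩ := hC
  have hE : Emb G c [[1,2,3],[0,2],[0,4,1],[0],[2,5],[4,6,7],[5],[5]] 51 0 (fun i => [v0, v1, v2, v3, v4, v5, v6, v7].getD i v0) := by
    refine emb_mk hc [v0, v1, v2, v3, v4, v5, v6, v7] v0 [(0, 1), (0, 2), (0, 3), (1, 2), (2, 4), (4, 5), (5, 6), (5, 7)]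
      [(0, 4), (0, 5), (1, 4), (1, 5), (2, 3), (2, 6), (2, 7), (3, 6), (3, 7), (6, 7)] [2, 3, 6, 7] rfl (by decide) ?_ ?_ ?_ ?_
    · simp [e0, e1, e2, e3, e4, e5, e6, e7]
    · simp [d0, d1, d2, d3, d4, d5, d6, d7, d8, d9]
    · simp [i0, i1, i2, i3]
    · simp [c0, c1, c2, c3, c4, c5, c6, c7]
      decide
  have hF : cmpR [[1,2,3],[0,2],[0,4,1],[0],[2,5],[4,6,7],[5],[5]] 37 = true := by decide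
  have hS : FS [[1,2,3],[0,2],[0,4,1],[0],[2,5],[4,6,7],[5],[5]] 37 (fun i => [v0, v1, v2, v3, v4, v5, v6, v7].getD i v0) = {v5, v0, v2} := by
    rw [FS_eq {5, 0, 2} (by decide)]
    simp
  have h1 := hE.valid hG hc hF (by decide)
  have h2 := hE.stD hG hc hF
  rw [hS] at h1 h2
  refine ⟨h1, ?_⟩
  rw [h2]
  decide

theorem pkvHS (hG : Cub G) (hc : Nice G c) (v0 v1 v2 v3 v4 v5 : V)
    (hE : G.Adj v0 v2 ∧ G.Adj v0 v4 ∧ G.Adj v0 v5 ∧ G.Adj v1 v3 ∧ G.Adj v1 v4 ∧ G.Adj v1 v5 ∧ G.Adj v2 v4)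
    (hD : v0 ≠ v1 ∧ v0 ≠ v3 ∧ v1 ≠ v2 ∧ v2 ≠ v3 ∧ v4 ≠ v5)
    (hI : md G c v4 = 0 ∧ md G c v5 = 0)
    (hC : c v0 = true ∧ c v1 = true ∧ c v2 = true ∧ c v3 = true ∧ c v4 = false ∧ c v5 = false) :
    Gd G c {v0, v4} (0, 2, 2) := by
  obtain ⟨e0, e1, e2, e3, e4, e5, e6⟩ := hE
  obtain ⟨d0, d1, d2, d3, d4⟩ := hD
  obtain ⟨i0, i1⟩ := hI
  obtain ⟨c0, c1, c2, c3, c4, c5⟩ := hC
  have hE : Emb G c [[2,4,5],[3,4,5],[0,4],[1],[0,1,2],[0,1]] 15 0 (fun i => [v0, v1, v2, v3, v4, v5].getD i v0) := by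
    refine emb_mk hc [v0, v1, v2, v3, v4, v5] v0 [(0, 2), (0, 4), (0, 5), (1, 3), (1, 4), (1, 5), (2, 4)]
      [(0, 1), (0, 3), (1, 2), (2, 3), (4, 5)] [4, 5] rfl (by decide) ?_ ?_ ?_ ?_
    · simp [e0, e1, e2, e3, e4, e5, e6]
    · simp [d0, d1, d2, d3, d4]
    · simp [i0, i1]
    · simp [c0, c1, c2, c3, c4, c5]
      decide
  have hF : cmpR [[2,4,5],[3,4,5],[0,4],[1],[0,1,2],[0,1]] 17 = true := by decide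
  have hS : FS [[2,4,5],[3,4,5],[0,4],[1],[0,1,2],[0,1]] 17 (fun i => [v0, v1, v2, v3, v4, v5].getD i v0) = {v0, v4} := by
    rw [FS_eq {0, 4} (by decide)]
    simp
  have h1 := hE.valid hG hc hF (by decide)
  have h2 := hE.stD hG hc hF
  rw [hS] at h1 h2
  refine ⟨h1, ?_⟩
  rw [h2]
  decide

theorem pkvEUHS (hG : Cub G) (hc : Nice G c) (v0 v1 v2 v3 v4 v5 v6 v7 : V)
    (hE : G.Adj v0 v2 ∧ G.Adj v0 v4 ∧ G.Adj v0 v5 ∧ G.Adj v1 v3 ∧ G.Adj v1 v4 ∧ G.Adj v1 v5 ∧ G.Adj v2 v4 ∧ G.Adj v3 v6 ∧ G.Adj v3 v7)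
    (hD : v0 ≠ v1 ∧ v0 ≠ v3 ∧ v1 ≠ v2 ∧ v2 ≠ v3 ∧ v4 ≠ v5 ∧ v4 ≠ v6 ∧ v4 ≠ v7 ∧ v5 ≠ v6 ∧ v5 ≠ v7 ∧ v6 ≠ v7)
    (hI : md G c v4 = 0 ∧ md G c v5 = 0 ∧ md G c v6 = 0 ∧ md G c v7 = 0)
    (hC : c v0 = true ∧ c v1 = true ∧ c v2 = true ∧ c v3 = true ∧ c v4 = false ∧ c v5 = false ∧ c v6 = false ∧ c v7 = false) :
    Gd G c {v3, v0, v4} (-2, 0, 0) := by
  obtain ⟨e0, e1, e2, e3, e4, e5, e6, e7, e8⟩ := hE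
  obtain ⟨d0, d1, d2, d3, d4, d5, d6, d7, d8, d9⟩ := hD
  obtain ⟨i0, i1, i2, i3⟩ := hI
  obtain ⟨c0, c1, c2, c3, c4, c5, c6, c7⟩ := hC
  have hE : Emb G c [[2,4,5],[3,4,5],[0,4],[1,6,7],[0,1,2],[0,1],[3],[3]] 15 0 (fun i => [v0, v1, v2, v3, v4, v5, v6, v7].getD i v0) := by
    refine emb_mk hc [v0, v1, v2, v3, v4, v5, v6, v7] v0 [(0, 2), (0, 4), (0, 5), (1, 3), (1, 4), (1, 5), (2, 4), (3, 6), (3, 7)]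
      [(0, 1), (0, 3), (1, 2), (2, 3), (4, 5), (4, 6), (4, 7), (5, 6), (5, 7), (6, 7)] [4, 5, 6, 7] rfl (by decide) ?_ ?_ ?_ ?_
    · simp [e0, e1, e2, e3, e4, e5, e6, e7, e8]
    · simp [d0, d1, d2, d3, d4, d5, d6, d7, d8, d9]
    · simp [i0, i1, i2, i3]
    · simp [c0, c1, c2, c3, c4, c5, c6, c7]
      decide
  have hF : cmpR [[2,4,5],[3,4,5],[0,4],[1,6,7],[0,1,2],[0,1],[3],[3]] 25 = true := by decide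
  have hS : FS [[2,4,5],[3,4,5],[0,4],[1,6,7],[0,1,2],[0,1],[3],[3]] 25 (fun i => [v0, v1, v2, v3, v4, v5, v6, v7].getD i v0) = {v3, v0, v4} := by
    rw [FS_eq {3, 0, 4} (by decide)]
    simp
  have h1 := hE.valid hG hc hF (by decide)
  have h2 := hE.stD hG hc hF
  rw [hS] at h1 h2
  refine ⟨h1, ?_⟩
  rw [h2]
  decide

theorem pkvX4g (hG : Cub G) (hc : Nice G c) (v0 v1 v2 v3 v4 v5 v6 v7 v8 v9 v10 : V)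
    (hE : G.Adj v0 v1 ∧ G.Adj v0 v2 ∧ G.Adj v0 v3 ∧ G.Adj v2 v4 ∧ G.Adj v2 v5 ∧ G.Adj v4 v5 ∧ G.Adj v4 v6 ∧ G.Adj v6 v7 ∧ G.Adj v7 v8 ∧ G.Adj v7 v10 ∧ G.Adj v8 v9)
    (hD : v0 ≠ v4 ∧ v0 ≠ v5 ∧ v0 ≠ v8 ∧ v0 ≠ v9 ∧ v1 ≠ v4 ∧ v1 ≠ v5 ∧ v1 ≠ v8 ∧ v1 ≠ v9 ∧ v2 ≠ v3 ∧ v4 ≠ v8 ∧ v4 ≠ v9 ∧ v5 ≠ v8 ∧ v5 ≠ v9)
    (hI : md G c v2 = 0 ∧ md G c v3 = 0 ∧ md G c v10 = 0)
    (hC : c v0 = true ∧ c v1 = true ∧ c v2 = false ∧ c v3 = false ∧ c v4 = true ∧ c v5 = true ∧ c v6 = false ∧ c v7 = false ∧ c v8 = true ∧ c v9 = true ∧ c v10 = true) :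
    Gd G c {v0, v2, v4, v7} (0, 2, 2) := by
  obtain ⟨e0, e1, e2, e3, e4, e5, e6, e7, e8, e9, e10⟩ := hE
  obtain ⟨d0, d1, d2, d3, d4, d5, d6, d7, d8, d9, d10, d11, d12⟩ := hD
  obtain ⟨i0, i1, i2⟩ := hI
  obtain ⟨c0, c1, c2, c3, c4, c5, c6, c7, c8, c9, c10⟩ := hC
  have hE : Emb G c [[1,2,3],[0],[0,4,5],[0],[2,5,6],[2,4],[4,7],[6,8,10],[7,9],[8],[7]] 1843 0 (fun i => [v0, v1, v2, v3, v4, v5, v6, v7, v8, v9, v10].getD i v0) := by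
    refine emb_mk hc [v0, v1, v2, v3, v4, v5, v6, v7, v8, v9, v10] v0 [(0, 1), (0, 2), (0, 3), (2, 4), (2, 5), (4, 5), (4, 6), (6, 7), (7, 8), (7, 10), (8, 9)]
      [(0, 4), (0, 5), (0, 8), (0, 9), (1, 4), (1, 5), (1, 8), (1, 9), (2, 3), (4, 8), (4, 9), (5, 8), (5, 9)] [2, 3, 10] rfl (by decide) ?_ ?_ ?_ ?_
    · simp [e0, e1, e2, e3, e4, e5, e6, e7, e8, e9, e10]
    · simp [d0, d1, d2, d3, d4, d5, d6, d7, d8, d9, d10, d11, d12]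
    · simp [i0, i1, i2]
    · simp [c0, c1, c2, c3, c4, c5, c6, c7, c8, c9, c10]
      decide
  have hF : cmpR [[1,2,3],[0],[0,4,5],[0],[2,5,6],[2,4],[4,7],[6,8,10],[7,9],[8],[7]] 149 = true := by decide
  have hS : FS [[1,2,3],[0],[0,4,5],[0],[2,5,6],[2,4],[4,7],[6,8,10],[7,9],[8],[7]] 149 (fun i => [v0, v1, v2, v3, v4, v5, v6, v7, v8, v9, v10].getD i v0) = {v0, v2, v4, v7} := by
    rw [FS_eq {0, 2, 4, 7} (by decide)]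
    simp
  have h1 := hE.valid hG hc hF (by decide)
  have h2 := hE.stD hG hc hF
  rw [hS] at h1 h2
  refine ⟨h1, ?_⟩
  rw [h2]
  decide

theorem pkvX4q (hG : Cub G) (hc : Nice G c) (v0 v1 v2 v3 v4 v5 v6 v7 v8 : V)
    (hE : G.Adj v0 v1 ∧ G.Adj v0 v2 ∧ G.Adj v0 v3 ∧ G.Adj v2 v4 ∧ G.Adj v2 v5 ∧ G.Adj v4 v5 ∧ G.Adj v4 v6 ∧ G.Adj v5 v7 ∧ G.Adj v6 v7 ∧ G.Adj v7 v8)
    (hD : v0 ≠ v4 ∧ v0 ≠ v5 ∧ v1 ≠ v4 ∧ v1 ≠ v5 ∧ v2 ≠ v3)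
    (hI : md G c v2 = 0 ∧ md G c v3 = 0 ∧ md G c v8 = 0)
    (hC : c v0 = true ∧ c v1 = true ∧ c v2 = false ∧ c v3 = false ∧ c v4 = true ∧ c v5 = true ∧ c v6 = false ∧ c v7 = false ∧ c v8 = true) :
    Gd G c {v0, v2, v4, v7} (0, 2, 2) := by
  obtain ⟨e0, e1, e2, e3, e4, e5, e6, e7, e8, e9⟩ := hE
  obtain ⟨d0, d1, d2, d3, d4⟩ := hD
  obtain ⟨i0, i1, i2⟩ := hI
  obtain ⟨c0, c1, c2, c3, c4, c5, c6, c7, c8⟩ := hC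
  have hE : Emb G c [[1,2,3],[0],[0,4,5],[0],[2,5,6],[2,4,7],[4,7],[6,5,8],[7]] 307 0 (fun i => [v0, v1, v2, v3, v4, v5, v6, v7, v8].getD i v0) := by
    refine emb_mk hc [v0, v1, v2, v3, v4, v5, v6, v7, v8] v0 [(0, 1), (0, 2), (0, 3), (2, 4), (2, 5), (4, 5), (4, 6), (5, 7), (6, 7), (7, 8)]
      [(0, 4), (0, 5), (1, 4), (1, 5), (2, 3)] [2, 3, 8] rfl (by decide) ?_ ?_ ?_ ?_
    · simp [e0, e1, e2, e3, e4, e5, e6, e7, e8, e9]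
    · simp [d0, d1, d2, d3, d4]
    · simp [i0, i1, i2]
    · simp [c0, c1, c2, c3, c4, c5, c6, c7, c8]
      decide
  have hF : cmpR [[1,2,3],[0],[0,4,5],[0],[2,5,6],[2,4,7],[4,7],[6,5,8],[7]] 149 = true := by decide
  have hS : FS [[1,2,3],[0],[0,4,5],[0],[2,5,6],[2,4,7],[4,7],[6,5,8],[7]] 149 (fun i => [v0, v1, v2, v3, v4, v5, v6, v7, v8].getD i v0) = {v0, v2, v4, v7} := by
    rw [FS_eq {0, 2, 4, 7} (by decide)]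
    simp
  have h1 := hE.valid hG hc hF (by decide)
  have h2 := hE.stD hG hc hF
  rw [hS] at h1 h2
  refine ⟨h1, ?_⟩
  rw [h2]
  decide

theorem pkvEUX4 (hG : Cub G) (hc : Nice G c) (v0 v1 v2 v3 v4 v5 v6 v7 v8 v9 v10 v11 v12 : V)
    (hE : G.Adj v0 v1 ∧ G.Adj v0 v2 ∧ G.Adj v0 v3 ∧ G.Adj v2 v4 ∧ G.Adj v2 v5 ∧ G.Adj v4 v5 ∧ G.Adj v4 v6 ∧ G.Adj v6 v7 ∧ G.Adj v7 v8 ∧ G.Adj v7 v12 ∧ G.Adj v8 v9 ∧ G.Adj v9 v10 ∧ G.Adj v9 v11)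
    (hD : v0 ≠ v4 ∧ v0 ≠ v5 ∧ v0 ≠ v8 ∧ v0 ≠ v9 ∧ v1 ≠ v4 ∧ v1 ≠ v5 ∧ v1 ≠ v8 ∧ v1 ≠ v9 ∧ v2 ≠ v3 ∧ v2 ≠ v10 ∧ v2 ≠ v11 ∧ v3 ≠ v10 ∧ v3 ≠ v11 ∧ v4 ≠ v8 ∧ v4 ≠ v9 ∧ v5 ≠ v8 ∧ v5 ≠ v9 ∧ v10 ≠ v11)
    (hI : md G c v2 = 0 ∧ md G c v3 = 0 ∧ md G c v10 = 0 ∧ md G c v11 = 0 ∧ md G c v12 = 0)
    (hC : c v0 = true ∧ c v1 = true ∧ c v2 = false ∧ c v3 = false ∧ c v4 = true ∧ c v5 = true ∧ c v6 = false ∧ c v7 = false ∧ c v8 = true ∧ c v9 = true ∧ c v10 = false ∧ c v11 = false ∧ c v12 = true) :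
    Gd G c {v9, v0, v2, v4, v7} (-2, 0, 0) := by
  obtain ⟨e0, e1, e2, e3, e4, e5, e6, e7, e8, e9, e10, e11, e12⟩ := hE
  obtain ⟨d0, d1, d2, d3, d4, d5, d6, d7, d8, d9, d10, d11, d12, d13, d14, d15, d16, d17⟩ := hD
  obtain ⟨i0, i1, i2, i3, i4⟩ := hI
  obtain ⟨c0, c1, c2, c3, c4, c5, c6, c7, c8, c9, c10, c11, c12⟩ := hC
  have hE : Emb G c [[1,2,3],[0],[0,4,5],[0],[2,5,6],[2,4],[4,7],[6,8,12],[7,9],[8,10,11],[9],[9],[7]] 4915 0 (fun i => [v0, v1, v2, v3, v4, v5, v6, v7, v8, v9, v10, v11, v12].getD i v0) := by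
    refine emb_mk hc [v0, v1, v2, v3, v4, v5, v6, v7, v8, v9, v10, v11, v12] v0 [(0, 1), (0, 2), (0, 3), (2, 4), (2, 5), (4, 5), (4, 6), (6, 7), (7, 8), (7, 12), (8, 9), (9, 10), (9, 11)]
      [(0, 4), (0, 5), (0, 8), (0, 9), (1, 4), (1, 5), (1, 8), (1, 9), (2, 3), (2, 10), (2, 11), (3, 10), (3, 11), (4, 8), (4, 9), (5, 8), (5, 9), (10, 11)] [2, 3, 10, 11, 12] rfl (by decide) ?_ ?_ ?_ ?_
    · simp [e0, e1, e2, e3, e4, e5, e6, e7, e8, e9, e10, e11, e12]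
    · simp [d0, d1, d2, d3, d4, d5, d6, d7, d8, d9, d10, d11, d12, d13, d14, d15, d16, d17]
    · simp [i0, i1, i2, i3, i4]
    · simp [c0, c1, c2, c3, c4, c5, c6, c7, c8, c9, c10, c11, c12]
      decide
  have hF : cmpR [[1,2,3],[0],[0,4,5],[0],[2,5,6],[2,4],[4,7],[6,8,12],[7,9],[8,10,11],[9],[9],[7]] 661 = true := by decide
  have hS : FS [[1,2,3],[0],[0,4,5],[0],[2,5,6],[2,4],[4,7],[6,8,12],[7,9],[8,10,11],[9],[9],[7]] 661 (fun i => [v0, v1, v2, v3, v4, v5, v6, v7, v8, v9, v10, v11, v12].getD i v0) = {v9, v0, v2, v4, v7} := by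
    rw [FS_eq {9, 0, 2, 4, 7} (by decide)]
    simp
  have h1 := hE.valid hG hc hF (by decide)
  have h2 := hE.stD hG hc hF
  rw [hS] at h1 h2
  refine ⟨h1, ?_⟩
  rw [h2]
  decide

theorem pkvU (hG : Cub G) (hc : Nice G c) (v0 v1 v2 v3 v4 v5 v6 v7 v8 : V)
    (hE : G.Adj v0 v2 ∧ G.Adj v0 v3 ∧ G.Adj v0 v4 ∧ G.Adj v1 v2 ∧ G.Adj v1 v3 ∧ G.Adj v1 v5 ∧ G.Adj v2 v6 ∧ G.Adj v4 v7 ∧ G.Adj v4 v8)
    (hD : v0 ≠ v1 ∧ v0 ≠ v5 ∧ v1 ≠ v4 ∧ v2 ≠ v3 ∧ v2 ≠ v7 ∧ v2 ≠ v8 ∧ v3 ≠ v7 ∧ v3 ≠ v8 ∧ v4 ≠ v5 ∧ v7 ≠ v8)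
    (hI : md G c v2 = 0 ∧ md G c v3 = 0 ∧ md G c v6 = 0 ∧ md G c v7 = 0 ∧ md G c v8 = 0)
    (hC : c v0 = true ∧ c v1 = true ∧ c v2 = false ∧ c v3 = false ∧ c v4 = true ∧ c v5 = true ∧ c v6 = true ∧ c v7 = false ∧ c v8 = false) :
    Gd G c {v1, v2, v4} (-2, 0, 0) := by
  obtain ⟨e0, e1, e2, e3, e4, e5, e6, e7, e8⟩ := hE
  obtain ⟨d0, d1, d2, d3, d4, d5, d6, d7, d8, d9⟩ := hD
  obtain ⟨i0, i1, i2, i3, i4⟩ := hI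
  obtain ⟨c0, c1, c2, c3, c4, c5, c6, c7, c8⟩ := hC
  have hE : Emb G c [[2,3,4],[2,3,5],[0,1,6],[0,1],[0,7,8],[1],[2],[4],[4]] 115 0 (fun i => [v0, v1, v2, v3, v4, v5, v6, v7, v8].getD i v0) := by
    refine emb_mk hc [v0, v1, v2, v3, v4, v5, v6, v7, v8] v0 [(0, 2), (0, 3), (0, 4), (1, 2), (1, 3), (1, 5), (2, 6), (4, 7), (4, 8)]
      [(0, 1), (0, 5), (1, 4), (2, 3), (2, 7), (2, 8), (3, 7), (3, 8), (4, 5), (7, 8)] [2, 3, 6, 7, 8] rfl (by decide) ?_ ?_ ?_ ?_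
    · simp [e0, e1, e2, e3, e4, e5, e6, e7, e8]
    · simp [d0, d1, d2, d3, d4, d5, d6, d7, d8, d9]
    · simp [i0, i1, i2, i3, i4]
    · simp [c0, c1, c2, c3, c4, c5, c6, c7, c8]
      decide
  have hF : cmpR [[2,3,4],[2,3,5],[0,1,6],[0,1],[0,7,8],[1],[2],[4],[4]] 22 = true := by decide
  have hS : FS [[2,3,4],[2,3,5],[0,1,6],[0,1],[0,7,8],[1],[2],[4],[4]] 22 (fun i => [v0, v1, v2, v3, v4, v5, v6, v7, v8].getD i v0) = {v1, v2, v4} := by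
    rw [FS_eq {1, 2, 4} (by decide)]
    simp
  have h1 := hE.valid hG hc hF (by decide)
  have h2 := hE.stD hG hc hF
  rw [hS] at h1 h2
  refine ⟨h1, ?_⟩
  rw [h2]
  decide

theorem pkvDD (hG : Cub G) (hc : Nice G c) (v0 v1 v2 v3 v4 v5 v6 v7 v8 v9 v10 v11 v12 v13 : V)
    (hE : G.Adj v0 v2 ∧ G.Adj v0 v3 ∧ G.Adj v0 v4 ∧ G.Adj v1 v2 ∧ G.Adj v1 v3 ∧ G.Adj v1 v8 ∧ G.Adj v2 v11 ∧ G.Adj v4 v6 ∧ G.Adj v4 v7 ∧ G.Adj v5 v6 ∧ G.Adj v5 v7 ∧ G.Adj v5 v13 ∧ G.Adj v6 v12 ∧ G.Adj v8 v9 ∧ G.Adj v8 v10)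
    (hD : v0 ≠ v1 ∧ v0 ≠ v5 ∧ v0 ≠ v8 ∧ v0 ≠ v13 ∧ v1 ≠ v4 ∧ v1 ≠ v5 ∧ v1 ≠ v13 ∧ v2 ≠ v3 ∧ v2 ≠ v6 ∧ v2 ≠ v7 ∧ v2 ≠ v9 ∧ v2 ≠ v10 ∧ v3 ≠ v6 ∧ v3 ≠ v7 ∧ v3 ≠ v9 ∧ v3 ≠ v10 ∧ v4 ≠ v5 ∧ v4 ≠ v8 ∧ v4 ≠ v13 ∧ v5 ≠ v8 ∧ v6 ≠ v7 ∧ v6 ≠ v9 ∧ v6 ≠ v10 ∧ v7 ≠ v9 ∧ v7 ≠ v10 ∧ v8 ≠ v13 ∧ v9 ≠ v10 ∧ v11 ≠ v12)
    (hI : md G c v2 = 0 ∧ md G c v3 = 0 ∧ md G c v6 = 0 ∧ md G c v7 = 0 ∧ md G c v9 = 0 ∧ md G c v10 = 0 ∧ md G c v11 = 0 ∧ md G c v12 = 0)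
    (hC : c v0 = true ∧ c v1 = true ∧ c v2 = false ∧ c v3 = false ∧ c v4 = true ∧ c v5 = true ∧ c v6 = false ∧ c v7 = false ∧ c v8 = true ∧ c v9 = false ∧ c v10 = false ∧ c v11 = true ∧ c v12 = true ∧ c v13 = true) :
    Gd G c {v0, v2, v8, v5, v6} (-2, 1, 0) := by
  obtain ⟨e0, e1, e2, e3, e4, e5, e6, e7, e8, e9, e10, e11, e12, e13, e14⟩ := hE
  obtain ⟨d0, d1, d2, d3, d4, d5, d6, d7, d8, d9, d10, d11, d12, d13, d14, d15, d16, d17, d18, d19, d20, d21, d22, d23, d24, d25, d26, d27⟩ := hD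
  obtain ⟨i0, i1, i2, i3, i4, i5, i6, i7⟩ := hI
  obtain ⟨c0, c1, c2, c3, c4, c5, c6, c7, c8, c9, c10, c11, c12, c13⟩ := hC
  have hE : Emb G c [[2,3,4],[2,3,8],[0,1,11],[0,1],[0,6,7],[6,7,13],[4,5,12],[4,5],[1,9,10],[8],[8],[2],[6],[5]] 14643 0 (fun i => [v0, v1, v2, v3, v4, v5, v6, v7, v8, v9, v10, v11, v12, v13].getD i v0) := by
    refine emb_mk hc [v0, v1, v2, v3, v4, v5, v6, v7, v8, v9, v10, v11, v12, v13] v0 [(0, 2), (0, 3), (0, 4), (1, 2), (1, 3), (1, 8), (2, 11), (4, 6), (4, 7), (5, 6), (5, 7), (5, 13), (6, 12), (8, 9), (8, 10)]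
      [(0, 1), (0, 5), (0, 8), (0, 13), (1, 4), (1, 5), (1, 13), (2, 3), (2, 6), (2, 7), (2, 9), (2, 10), (3, 6), (3, 7), (3, 9), (3, 10), (4, 5), (4, 8), (4, 13), (5, 8), (6, 7), (6, 9), (6, 10), (7, 9), (7, 10), (8, 13), (9, 10), (11, 12)] [2, 3, 6, 7, 9, 10, 11, 12] rfl (by decide) ?_ ?_ ?_ ?_
    · simp [e0, e1, e2, e3, e4, e5, e6, e7, e8, e9, e10, e11, e12, e13, e14]
    · simp [d0, d1, d2, d3, d4, d5, d6, d7, d8, d9, d10, d11, d12, d13, d14, d15, d16, d17, d18, d19, d20, d21, d22, d23, d24, d25, d26, d27]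
    · simp [i0, i1, i2, i3, i4, i5, i6, i7]
    · simp [c0, c1, c2, c3, c4, c5, c6, c7, c8, c9, c10, c11, c12, c13]
      decide
  have hF : cmpR [[2,3,4],[2,3,8],[0,1,11],[0,1],[0,6,7],[6,7,13],[4,5,12],[4,5],[1,9,10],[8],[8],[2],[6],[5]] 357 = true := by decide
  have hS : FS [[2,3,4],[2,3,8],[0,1,11],[0,1],[0,6,7],[6,7,13],[4,5,12],[4,5],[1,9,10],[8],[8],[2],[6],[5]] 357 (fun i => [v0, v1, v2, v3, v4, v5, v6, v7, v8, v9, v10, v11, v12, v13].getD i v0) = {v0, v2, v8, v5, v6} := by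
    rw [FS_eq {0, 2, 8, 5, 6} (by decide)]
    simp
  have h1 := hE.valid hG hc hF (by decide)
  have h2 := hE.stD hG hc hF
  rw [hS] at h1 h2
  refine ⟨h1, ?_⟩
  rw [h2]
  decide

theorem pkvEx1 (hG : Cub G) (hc : Nice G c) (v0 v1 v2 v3 v4 v5 v6 v7 v8 v9 : V)
    (hE : G.Adj v0 v2 ∧ G.Adj v0 v4 ∧ G.Adj v0 v5 ∧ G.Adj v1 v3 ∧ G.Adj v1 v4 ∧ G.Adj v1 v5 ∧ G.Adj v2 v7 ∧ G.Adj v2 v8 ∧ G.Adj v4 v6 ∧ G.Adj v6 v7 ∧ G.Adj v6 v8 ∧ G.Adj v7 v9)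
    (hD : v0 ≠ v1 ∧ v0 ≠ v3 ∧ v1 ≠ v2 ∧ v2 ≠ v3 ∧ v4 ≠ v5 ∧ v4 ≠ v8 ∧ v5 ≠ v8)
    (hI : md G c v4 = 0 ∧ md G c v5 = 0 ∧ md G c v6 = 0 ∧ md G c v8 = 0)
    (hC : c v0 = true ∧ c v1 = true ∧ c v2 = true ∧ c v3 = true ∧ c v4 = false ∧ c v5 = false ∧ c v6 = true ∧ c v7 = false ∧ c v8 = false ∧ c v9 = false) :
    Gd G c {v0, v4, v6, v7} (0, 1, 0) := by
  obtain ⟨e0, e1, e2, e3, e4, e5, e6, e7, e8, e9, e10, e11⟩ := hE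
  obtain ⟨d0, d1, d2, d3, d4, d5, d6⟩ := hD
  obtain ⟨i0, i1, i2, i3⟩ := hI
  obtain ⟨c0, c1, c2, c3, c4, c5, c6, c7, c8, c9⟩ := hC
  have hE : Emb G c [[2,4,5],[3,4,5],[0,7,8],[1],[0,1,6],[0,1],[4,7,8],[6,2,9],[6,2],[7]] 79 0 (fun i => [v0, v1, v2, v3, v4, v5, v6, v7, v8, v9].getD i v0) := by
    refine emb_mk hc [v0, v1, v2, v3, v4, v5, v6, v7, v8, v9] v0 [(0, 2), (0, 4), (0, 5), (1, 3), (1, 4), (1, 5), (2, 7), (2, 8), (4, 6), (6, 7), (6, 8), (7, 9)]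
      [(0, 1), (0, 3), (1, 2), (2, 3), (4, 5), (4, 8), (5, 8)] [4, 5, 6, 8] rfl (by decide) ?_ ?_ ?_ ?_
    · simp [e0, e1, e2, e3, e4, e5, e6, e7, e8, e9, e10, e11]
    · simp [d0, d1, d2, d3, d4, d5, d6]
    · simp [i0, i1, i2, i3]
    · simp [c0, c1, c2, c3, c4, c5, c6, c7, c8, c9]
      decide
  have hF : cmpR [[2,4,5],[3,4,5],[0,7,8],[1],[0,1,6],[0,1],[4,7,8],[6,2,9],[6,2],[7]] 209 = true := by decide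
  have hS : FS [[2,4,5],[3,4,5],[0,7,8],[1],[0,1,6],[0,1],[4,7,8],[6,2,9],[6,2],[7]] 209 (fun i => [v0, v1, v2, v3, v4, v5, v6, v7, v8, v9].getD i v0) = {v0, v4, v6, v7} := by
    rw [FS_eq {0, 4, 6, 7} (by decide)]
    simp
  have h1 := hE.valid hG hc hF (by decide)
  have h2 := hE.stD hG hc hF
  rw [hS] at h1 h2
  refine ⟨h1, ?_⟩
  rw [h2]
  decide

end

end Pool.Agent.Work.MP_1e13ac_W
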