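import Pool.Agent.Work.MP_1e13ac_W.PkFacts2
import Pool.Agent.Work.MP_1e13ac_W.PkVal

/-!
# MP_1e13ac_co, full statement, World 2: the facts of the packing, part 3 (helper80)
-/

set_option autoImplicit false
set_option linter.unusedSectionVars false

namespace Pool.Agent.Work.MP_1e13ac_W

open Classical Finset Pool.Agent.Work.MP_1e13ac_Bis

noncomputable section

variable {V : Type} [Fintype V] {G : SimpleGraph V} {c : V → Bool} {k : ℕ}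

namespace PkF

open T1G

/-- a neighbour of a source which has a second white neighbour is black -/
theorem cB (hc : Nice G c) {w a x y : V} (hw : w ∈ Qs G c 0) (hN : N3 G a w x y)
    (hx : c x = true) : c a = false := by
  by_contra hh
  have hca : c a = true := by simpa using hh
  exact hN.1 (nice_uniq hc (x := a) (y := w) (z := x) ⟨hN.adj.1, by rw [hca, Q0_W hw]⟩
    ⟨hN.adj.2.1, by rw [hca, hx]⟩)

/-- the surroundings of a slot -/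
theorem sd (hG : Cub G) (hc : Nice G c) {w w' a x y : V} (hw : w ∈ Qs G c 0) (hm : MA G c w w')
    (hN : N3 G a w x y) (hx : c x = true) :
    ∃ b, N3 G w w' a b ∧ IsB0 G c a ∧ IsB0 G c b ∧ c w = true ∧ c w' = true := by
  obtain ⟨h1, b, h2, h3⟩ := Q0_N3' hG hc hw hm hN.adj.1.symm (cB hc hw hN hx)
  exact ⟨b, h2, h1, h3, Q0_W hw, MA_W hm (Q0_W hw)⟩

theorem t4x (hG : Cub G) (hc : Nice G c) {x : V} (hx : x ∈ Qs G c 1) :
    Gd G c {x} (-2, -2, -2) := by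
  obtain ⟨x', a, g, h1, h2, h3, h4⟩ := Q1_N3 hG hc hx
  obtain ⟨g', hg⟩ := md1_ex h4.2
  exact pkvT4 hG hc x x' a g g' ⟨h2.adj.1, h2.adj.2.1, h2.adj.2.2, hg.1⟩ h3.2
    ⟨Q1_W hx, MA_W h1 (Q1_W hx), h3.1, h4.1, MA_B hg h4.1⟩

/-- data of X4 -/
theorem x4d (hG : Cub G) (hc : Nice G c) (hR : Rule1 G c) {w w' a q q' p p' r r' s : V}
    (hX : Xc G c w a q q' p p') (hm : MA G c w w') (hN : N3 G p' p r s) (hr : r ≠ w')
    (hrr : MA G c r r') (hs : IsW0 G c s ∨ s = w') :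
    IsW0 G c s ∧ IsW1 G c r ∧ r ≠ w ∧ r ≠ q ∧ r' ≠ w := by
  have hp := hX.B1 hc
  have cr : c r = true := by
    by_contra hh
    have hcr : c r = false := by simpa using hh
    exact hN.1 (nice_uniq hc (ma_symm hX.pp) ⟨hN.adj.2.1, by rw [hp.2.1, hcr]⟩)
  have hr1 := W1_of_MA hc hrr cr
  have hrw : r ≠ w := by
    rintro rfl
    exact Q0_noB1 hc hX.w0 hp.2 hN.adj.2.1.symm
  refine ⟨?_, hr1, hrw, ?_, ?_⟩
  · rcases hs with hs | hs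
    · exact hs
    · exfalso
      rw [hs] at hN
      have hw'1 := W1_of_MA hc (ma_symm hm) (MA_W hm (Q0_W hX.w0))
      have := hR p' r w' hp.2 hN.adj.2.1 hN.adj.2.2 hr hr1 hw'1
      exact hrw (nice_uniq hc (ma_symm hm) ⟨this.symm, by rw [hw'1.1, cr]⟩).symm
  · rintro rfl
    exact xq hG hc hX hN.adj.2.1.symm
  · rintro rfl
    exact hr (nice_uniq hc (ma_symm hrr) hm)

theorem h3 (hG : Cub G) (hc : Nice G c) {n : ℕ} {w a : V} {K : Finset V}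
    (h : CrA G c n w a K) (hn : n ≠ 2) : Gd G c K (0, 1, 0) := by
  match n, w, a, K, h, hn with
  | _, _, _, _, CrA.ex1 b b' d d' α β y z h p w hB g1 g2 g3 g4 g5 g6 g7 g8 hw, hn =>
    obtain ⟨h', hh⟩ := md1_ex g3.2
    obtain ⟨n1, n2, n3⟩ := blk_ne hc hB.toBlk
    obtain ⟨i1, i2, i3, i4⟩ := pblk_nα hc hB
    have hb := hB.toBlk.bl hc
    have cb := Q0_W hB.b0
    have cd := Q0_W hB.d0
    have n4 : α ≠ p := by
      rintro rfl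
      exact i1 g8.symm
    have n5 : β ≠ p := by
      rintro rfl
      exact i2 g8.symm
    exact pkvEx1 hG hc b d b' d' α β y h p h'
      ⟨hB.mb.1, hB.nb.adj.2.1, hB.nb.adj.2.2, hB.md.1, hB.nd.adj.2.1, hB.nd.adj.2.2, g5.symm,
        g8.symm, hB.nα.adj.2.2, g4.symm, g7.symm, hh.1⟩
      ⟨hB.ne, n1, n2.symm, n3, hB.nb.2.2.1, n4, n5⟩ ⟨hb.1.2, hb.2.2, hB.y0.2, g6.2⟩
      ⟨cb, cd, MA_W hB.mb cb, MA_W hB.md cd, hb.1.1, hb.2.1, hB.y0.1, g3.1, g6.1, MA_B hh g3.1⟩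
  | _, _, _, _, CrA.d0 w w' a y g1 g2 g3 g4, hn =>
    obtain ⟨b, f1, f2, f3, f4, f5⟩ := sd hG hc g1 g2 g3 (MA_W g2 (Q0_W g1))
    exact pkvD0 hG hc w w' a b y
      ⟨g2.1, f1.adj.2.1, f1.adj.2.2, g3.adj.2.1.symm, g3.adj.2.2⟩ f1.2.2.1
      ⟨f2.2, f3.2, g4.2⟩ ⟨f4, f5, f2.1, f3.1, g4.1⟩
  | _, _, _, _, CrA.blk .., hn => exact absurd rfl hn
  | _, _, _, _, CrA.e w a x y g1 g2 g3 g4, hn =>
    obtain ⟨w', hm⟩ := mate_ex (mem_Qs.1 g1).1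
    obtain ⟨b, f1, f2, f3, f4, f5⟩ := sd hG hc g1 hm g2 g3.1
    exact pkvE hG hc w w' a b x y
      ⟨hm.1, f1.adj.2.1, f1.adj.2.2, g2.adj.2.1, g2.adj.2.2⟩ ⟨f1.2.2.1, g2.2.2.1⟩
      ⟨f2.2, f3.2, g3.2, g4.2⟩ ⟨f4, f5, f2.1, f3.1, g3.1, g4.1⟩
  | _, _, _, _, CrA.x3 w w' a q q' p p' r s g1 g2 g3 g4 g5 g6 g7 g8 g9 g10 g11 g12, hn =>
    have hX : Xc G c w a q q' p p' := ⟨g1, g3, g4, g5, g6, g7, g8, g9⟩
    obtain ⟨w₂, b, k1, k2, k3, k4, e1, e2, e3, e4, e5⟩ := xd hG hc hX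
    have hw := nice_uniq hc k1 g2
    subst hw
    have cw := Q0_W g1
    rcases g11 with g11 | g11
    · rcases g12 with g12 | g12
      · exact pkvX3a hG hc w w₂ a b q q' p p' r s
          ⟨g2.1, k2.adj.2.1, k2.adj.2.2, g3.adj.2.1, g3.adj.2.2, g4.1, g7, g8.1, g10.adj.2.1,
            g10.adj.2.2⟩ ⟨e1, e2, e3, e4, k2.2.2.1, g10.2.2.1⟩ ⟨k3.2, k4.2, g11.2, g12.2⟩
          ⟨cw, MA_W g2 cw, k3.1, k4.1, Q1_W g5, Q1_W g6, g9, MA_B g8 g9, g11.1, g12.1⟩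
      · subst g12
        exact pkvX3b hG hc w s a b q q' p p' r
          ⟨g2.1, k2.adj.2.1, k2.adj.2.2, g10.adj.2.2.symm, g3.adj.2.1, g3.adj.2.2, g4.1, g7,
            g8.1, g10.adj.2.1⟩ ⟨e1, e2, e3, e4, k2.2.2.1⟩ ⟨k3.2, k4.2, g11.2⟩
          ⟨cw, MA_W g2 cw, k3.1, k4.1, Q1_W g5, Q1_W g6, g9, MA_B g8 g9, g11.1⟩
    · subst g11
      rcases g12 with g12 | g12
      · exact pkvX3b hG hc w r a b q q' p p' s
          ⟨g2.1, k2.adj.2.1, k2.adj.2.2, g10.adj.2.1.symm, g3.adj.2.1, g3.adj.2.2, g4.1, g7,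
            g8.1, g10.adj.2.2⟩ ⟨e1, e2, e3, e4, k2.2.2.1⟩ ⟨k3.2, k4.2, g12.2⟩
          ⟨cw, MA_W g2 cw, k3.1, k4.1, Q1_W g5, Q1_W g6, g9, MA_B g8 g9, g12.1⟩
      · exact absurd g12.symm g10.2.2.1

theorem h4 (hG : Cub G) (hc : Nice G c) (hR : Rule1 G c) {n : ℕ} {w a τ e : V} {H : Finset V}
    (h : CrB G c n w a H τ e) : Gd G c H (0, 2, 2) := by
  match n, w, a, H, τ, e, h with
  | _, _, _, _, _, _, CrB.m w w' a x x' y g1 g2 g3 g4 g5 g6 g7 =>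
    obtain ⟨b, f1, f2, f3, f4, f5⟩ := sd hG hc g1 g2 g3 (Q1_W g4)
    have hd := nm hc g2 g6 g3.1 g5.symm
    rcases g7 with g7 | ⟨g7, -⟩
    · exact pkvM hG hc w w' a b x x' y
        ⟨g2.1, f1.adj.2.1, f1.adj.2.2, g3.adj.2.1, g3.adj.2.2, g6.1⟩
        ⟨hd.1, hd.2.1, hd.2.2.1, hd.2.2.2, f1.2.2.1⟩ ⟨f2.2, f3.2, g7.2⟩
        ⟨f4, f5, f2.1, f3.1, Q1_W g4, MA_W g6 (Q1_W g4), g7.1⟩
    · subst g7
      exact pkvMy hG hc w y a b x x'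
        ⟨g2.1, f1.adj.2.1, f1.adj.2.2, g3.adj.2.2.symm, g3.adj.2.1, g6.1⟩
        ⟨hd.1, hd.2.1, hd.2.2.1, hd.2.2.2, f1.2.2.1⟩ ⟨f2.2, f3.2⟩
        ⟨f4, f5, f2.1, f3.1, Q1_W g4, MA_W g6 (Q1_W g4)⟩
  | _, _, _, _, _, _, CrB.x4 w w' a q q' p p' r r' s g1 g2 g3 g4 g5 g6 g7 g8 g9 g10 g11 g12
      g13 =>
    have hX : Xc G c w a q q' p p' := ⟨g1, g3, g4, g5, g6, g7, g8, g9⟩
    obtain ⟨w₂, b, k1, k2, k3, k4, e1, e2, e3, e4, e5⟩ := xd hG hc hX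
    have hw := nice_uniq hc k1 g2
    subst hw
    have cw := Q0_W g1
    obtain ⟨j1, j2, j3, j4, j5⟩ := x4d hG hc hR hX k1 g10 g11 g12 g13
    by_cases hrq : r = q'
    · subst hrq
      exact pkvX4q hG hc w w₂ a b q r p p' s
        ⟨g2.1, k2.adj.2.1, k2.adj.2.2, g3.adj.2.1, g3.adj.2.2, g4.1, g7, g10.adj.2.1.symm, g8.1,
          g10.adj.2.2⟩ ⟨e1, e2, e3, e4, k2.2.2.1⟩ ⟨k3.2, k4.2, j1.2⟩
        ⟨cw, MA_W g2 cw, k3.1, k4.1, Q1_W g5, Q1_W g6, g9, MA_B g8 g9, j1.1⟩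
    · have m1 := nm hc g2 g12 j3.symm (fun hh => g11 hh.symm)
      have m2 := nm hc g4 g12 j4.symm (fun hh => hrq hh.symm)
      exact pkvX4g hG hc w w₂ a b q q' p p' r r' s
        ⟨g2.1, k2.adj.2.1, k2.adj.2.2, g3.adj.2.1, g3.adj.2.2, g4.1, g7, g8.1, g10.adj.2.1,
          g10.adj.2.2, g12.1⟩
        ⟨e1, e2, m1.1, m1.2.1, e3, e4, m1.2.2.1, m1.2.2.2, k2.2.2.1, m2.1, m2.2.1, m2.2.2.1,
          m2.2.2.2⟩ ⟨k3.2, k4.2, j1.2⟩
        ⟨cw, MA_W g2 cw, k3.1, k4.1, Q1_W g5, Q1_W g6, g9, MA_B g8 g9, j2.1, MA_W g12 j2.1,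
          j1.1⟩
  | _, _, _, _, _, _, CrB.hs b b' d d' α β w a g1 g2 g3 g4 g5 =>
    obtain ⟨n1, n2, n3⟩ := blk_ne hc g1
    have hb := g1.bl hc
    have cb := Q0_W g1.b0
    have cd := Q0_W g1.d0
    exact pkvHS hG hc b d b' d' α β
      ⟨g1.mb.1, g1.nb.adj.2.1, g1.nb.adj.2.2, g1.md.1, g1.nd.adj.2.1, g1.nd.adj.2.2,
        g2.adj.2.2.symm⟩ ⟨g1.ne, n1, n2.symm, n3, g1.nb.2.2.1⟩ ⟨hb.1.2, hb.2.2⟩
      ⟨cb, cd, MA_W g1.mb cb, MA_W g1.md cd, hb.1.1, hb.2.1⟩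
  | _, _, _, _, _, _, CrB.d1 w w' a x x' g1 g2 g3 g4 g5 g6 =>
    obtain ⟨b, f1, f2, f3, f4, f5⟩ := sd hG hc g1 g3 g4 (Q0_W g2)
    have hd := nm hc g3 g6 g4.2.1 g4.2.2.1
    exact pkvMy hG hc w w' a b x x'
      ⟨g3.1, f1.adj.2.1, f1.adj.2.2, g4.adj.2.1.symm, g4.adj.2.2, g6.1⟩
      ⟨hd.1, hd.2.1, hd.2.2.1, hd.2.2.2, f1.2.2.1⟩ ⟨f2.2, f3.2⟩
      ⟨f4, f5, f2.1, f3.1, Q1_W g5, MA_W g6 (Q1_W g5)⟩

theorem t4 (hG : Cub G) (hc : Nice G c) {n : ℕ} {w a τ e : V} {H : Finset V}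
    (h : CrB G c n w a H τ e) : Gd G c {τ} (-2, -2, -2) := by
  match n, w, a, H, τ, e, h with
  | _, _, _, _, _, _, CrB.m w w' a x x' y g1 g2 g3 g4 g5 g6 g7 => exact t4x hG hc g4
  | _, _, _, _, _, _, CrB.x4 w w' a q q' p p' r r' s g1 g2 g3 g4 g5 g6 g7 g8 g9 g10 g11 g12
      g13 => exact t4x hG hc g5
  | _, _, _, _, _, _, CrB.hs b b' d d' α β w a g1 g2 g3 g4 g5 => exact t4x hG hc g3
  | _, _, _, _, _, _, CrB.d1 w w' a x x' g1 g2 g3 g4 g5 g6 => exact t4x hG hc g5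

/-- the black neighbours of an end -/
theorem ed (hG : Cub G) (hW : World2 G c k) {w w' a b e : V} (hw : w ∈ Qs G c 0)
    (hm : MA G c w w') (hN : N3 G w w' a b) (ha : IsB0 G c a) (he : e ∈ Qs G c 0)
    (hne : w ≠ e) (hne' : w' ≠ e) (hea : ¬ G.Adj e a) :
    ∃ t u, G.Adj e t ∧ G.Adj e u ∧ IsB0 G c t ∧ IsB0 G c u ∧ t ≠ u ∧ a ≠ t ∧ a ≠ u ∧ b ≠ t ∧
      b ≠ u := by
  have hc := hW.nice
  obtain ⟨e', t, u, h1, h2, h3, h4⟩ := Q0_N3 hG hc he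
  have hwe : ¬ G.Adj w e := by
    intro hh
    exact hne' (nice_uniq hc hm ⟨hh, by rw [Q0_W hw, Q0_W he]⟩)
  have heb : ¬ G.Adj e b := by
    intro hh
    exact hea (two hG hW hw he hne hwe hN.adj.2.2 hh hN.adj.2.1 ha.1)
  refine ⟨t, u, h2.adj.2.1, h2.adj.2.2, h3, h4, h2.2.2.1, ?_, ?_, ?_, ?_⟩
  · rintro rfl
    exact hea h2.adj.2.1
  · rintro rfl
    exact hea h2.adj.2.2
  · rintro rfl
    exact heb h2.adj.2.1
  · rintro rfl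
    exact heb h2.adj.2.2

theorem eu (hG : Cub G) (hW : World2 G c k) (hR : Rule1 G c) {n : ℕ} {w a τ e : V}
    {H : Finset V} (h : CrB G c n w a H τ e) (he : e ∈ Qs G c 0) :
    Gd G c (insert e H) (-2, 0, 0) := by
  have hc := hW.nice
  match n, w, a, H, τ, e, h, he with
  | _, _, _, _, _, _, CrB.m w w' a x x' y g1 g2 g3 g4 g5 g6 g7, he =>
    obtain ⟨b, f1, f2, f3, f4, f5⟩ := sd hG hc g1 g2 g3 (Q1_W g4)
    have hd := nm hc g2 g6 g3.1 g5.symm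
    have hea : ¬ G.Adj x' a := by
      intro hh
      rcases g3.mem' hh with e | e | e
      · exact hd.2.1 e.symm
      · rw [e] at g6
        exact G.irrefl g6.1
      · rcases g7 with g7 | ⟨g7, -⟩
        · rw [e] at he
          exact Q0_W0 he g7
        · exact hd.2.2.2 (e.trans g7).symm
    obtain ⟨t, u, k1, k2, k3, k4, k5, k6, k7, k8, k9⟩ :=
      ed hG hW g1 g2 f1 f2 he hd.2.1 hd.2.2.2 hea
    rcases g7 with g7 | ⟨g7, -⟩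
    · exact pkvEUM hG hc w w' a b x x' y t u
        ⟨g2.1, f1.adj.2.1, f1.adj.2.2, g3.adj.2.1, g3.adj.2.2, g6.1, k1, k2⟩
        ⟨hd.1, hd.2.1, hd.2.2.1, hd.2.2.2, f1.2.2.1, k6, k7, k8, k9, k5⟩
        ⟨f2.2, f3.2, g7.2, k3.2, k4.2⟩
        ⟨f4, f5, f2.1, f3.1, Q1_W g4, MA_W g6 (Q1_W g4), g7.1, k3.1, k4.1⟩
    · subst g7
      exact pkvEUMy hG hc w y a b x x' t u
        ⟨g2.1, f1.adj.2.1, f1.adj.2.2, g3.adj.2.2.symm, g3.adj.2.1, g6.1, k1, k2⟩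
        ⟨hd.1, hd.2.1, hd.2.2.1, hd.2.2.2, f1.2.2.1, k6, k7, k8, k9, k5⟩
        ⟨f2.2, f3.2, k3.2, k4.2⟩
        ⟨f4, f5, f2.1, f3.1, Q1_W g4, MA_W g6 (Q1_W g4), k3.1, k4.1⟩
  | _, _, _, _, _, _, CrB.x4 w w' a q q' p p' r r' s g1 g2 g3 g4 g5 g6 g7 g8 g9 g10 g11 g12
      g13, he =>
    have hX : Xc G c w a q q' p p' := ⟨g1, g3, g4, g5, g6, g7, g8, g9⟩
    obtain ⟨w₂, b, i1, i2, i3, i4, e1, e2, e3, e4, e5⟩ := xd hG hc hX
    have hw := nice_uniq hc i1 g2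
    subst hw
    have cw := Q0_W g1
    obtain ⟨j1, j2, j3, j4, j5⟩ := x4d hG hc hR hX i1 g10 g11 g12 g13
    have hrq : r ≠ q' := by
      rintro rfl
      have := nice_uniq hc g12 (ma_symm g4)
      rw [this] at he
      exact Q0_Q1 he g5
    have m1 := nm hc g2 g12 j3.symm (fun hh => g11 hh.symm)
    have m2 := nm hc g4 g12 j4.symm (fun hh => hrq hh.symm)
    have hea : ¬ G.Adj r' a := by
      intro hh
      rcases g3.mem' hh with e | e | e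
      · exact j5 e
      · exact m2.2.1 e.symm
      · exact m2.2.2.2 e.symm
    obtain ⟨t, u, k1, k2, k3, k4, k5, k6, k7, k8, k9⟩ :=
      ed hG hW g1 g2 i2 i3 he m1.2.1 m1.2.2.2 hea
    exact pkvEUX4 hG hc w w₂ a b q q' p p' r r' t u s
      ⟨g2.1, i2.adj.2.1, i2.adj.2.2, g3.adj.2.1, g3.adj.2.2, g4.1, g7, g8.1, g10.adj.2.1,
        g10.adj.2.2, g12.1, k1, k2⟩
      ⟨e1, e2, m1.1, m1.2.1, e3, e4, m1.2.2.1, m1.2.2.2, i2.2.2.1, k6, k7, k8, k9, m2.1, m2.2.1,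
        m2.2.2.1, m2.2.2.2, k5⟩ ⟨i3.2, i4.2, k3.2, k4.2, j1.2⟩
      ⟨cw, MA_W g2 cw, i3.1, i4.1, Q1_W g5, Q1_W g6, g9, MA_B g8 g9, j2.1, MA_W g12 j2.1, k3.1,
        k4.1, j1.1⟩
  | _, _, _, _, _, _, CrB.hs b b' d d' α β w a g1 g2 g3 g4 g5, he =>
    obtain ⟨n1, n2, n3⟩ := blk_ne hc g1
    have hb := g1.bl hc
    have cb := Q0_W g1.b0
    have cd := Q0_W g1.d0
    have hea : ¬ G.Adj d' α := by
      intro hh
      rcases g2.mem' hh with e | e | e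
      · exact n1 e.symm
      · rw [e] at g1
        exact G.irrefl g1.md.1
      · exact n3 e.symm
    obtain ⟨t, u, k1, k2, k3, k4, k5, k6, k7, k8, k9⟩ :=
      ed hG hW g1.b0 g1.mb g1.nb hb.1 he n1 n3 hea
    exact pkvEUHS hG hc b d b' d' α β t u
      ⟨g1.mb.1, g1.nb.adj.2.1, g1.nb.adj.2.2, g1.md.1, g1.nd.adj.2.1, g1.nd.adj.2.2,
        g2.adj.2.2.symm, k1, k2⟩
      ⟨g1.ne, n1, n2.symm, n3, g1.nb.2.2.1, k6, k7, k8, k9, k5⟩ ⟨hb.1.2, hb.2.2, k3.2, k4.2⟩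
      ⟨cb, cd, MA_W g1.mb cb, MA_W g1.md cd, hb.1.1, hb.2.1, k3.1, k4.1⟩
  | _, _, _, _, _, _, CrB.d1 w w' a x x' g1 g2 g3 g4 g5 g6, he =>
    obtain ⟨b, f1, f2, f3, f4, f5⟩ := sd hG hc g1 g3 g4 (Q0_W g2)
    have hd := nm hc g3 g6 g4.2.1 g4.2.2.1
    have hea : ¬ G.Adj x' a := by
      intro hh
      rcases g4.mem' hh with e | e | e
      · exact hd.2.1 e.symm
      · exact hd.2.2.2 e.symm
      · rw [e] at g6
        exact G.irrefl g6.1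
    obtain ⟨t, u, k1, k2, k3, k4, k5, k6, k7, k8, k9⟩ :=
      ed hG hW g1 g3 f1 f2 he hd.2.1 hd.2.2.2 hea
    exact pkvEUMy hG hc w w' a b x x' t u
      ⟨g3.1, f1.adj.2.1, f1.adj.2.2, g4.adj.2.1.symm, g4.adj.2.2, g6.1, k1, k2⟩
      ⟨hd.1, hd.2.1, hd.2.2.1, hd.2.2.2, f1.2.2.1, k6, k7, k8, k9, k5⟩
      ⟨f2.2, f3.2, k3.2, k4.2⟩
      ⟨f4, f5, f2.1, f3.1, Q1_W g5, MA_W g6 (Q1_W g5), k3.1, k4.1⟩

theorem u (hG : Cub G) (hc : Nice G c) {b b' d d' α β y z : V}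
    (h : PBlk G c b b' d d' α β y z) (h' : b' ∈ Qs G c 0) : Gd G c {d, α, b'} (-2, 0, 0) := by
  obtain ⟨n1, n2, n3⟩ := blk_ne hc h.toBlk
  obtain ⟨i1, i2, i3, i4⟩ := pblk_nα hc h
  have hb := h.toBlk.bl hc
  have cb := Q0_W h.b0
  have cd := Q0_W h.d0
  obtain ⟨e', t, u, h1, h2, h3, h4⟩ := Q0_N3 hG hc h'
  have k1 : α ≠ t := by
    rintro rfl
    exact i1 h2.adj.2.1
  have k2 : α ≠ u := by
    rintro rfl
    exact i1 h2.adj.2.2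
  have k3 : β ≠ t := by
    rintro rfl
    exact i2 h2.adj.2.1
  have k4 : β ≠ u := by
    rintro rfl
    exact i2 h2.adj.2.2
  exact pkvU hG hc b d α β b' d' y t u
    ⟨h.nb.adj.2.1, h.nb.adj.2.2, h.mb.1, h.nd.adj.2.1, h.nd.adj.2.2, h.md.1, h.nα.adj.2.2,
      h2.adj.2.1, h2.adj.2.2⟩ ⟨h.ne, n1, n2.symm, h.nb.2.2.1, k1, k2, k3, k4, n3, h2.2.2.1⟩
    ⟨hb.1.2, hb.2.2, h.y0.2, h3.2, h4.2⟩
    ⟨cb, cd, hb.1.1, hb.2.1, MA_W h.mb cb, MA_W h.md cd, h.y0.1, h3.1, h4.1⟩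

theorem dd (hG : Cub G) (hc : Nice G c) {b b' d d' α β y z d₂ d₂' α₂ β₂ y₂ z₂ : V}
    (h : PBlk G c b b' d d' α β y z) (h' : PBlk G c b' b d₂ d₂' α₂ β₂ y₂ z₂) (hy : y ≠ y₂)
    (hd : d' ≠ d₂) (hd' : d' ∈ Qs G c 0) : Gd G c {b, α, d', d₂, α₂} (-2, 1, 0) := by
  obtain ⟨n1, n2, n3⟩ := blk_ne hc h.toBlk
  obtain ⟨n1', n2', n3'⟩ := blk_ne hc h'.toBlk
  obtain ⟨i1, i2, i3, i4⟩ := pblk_nα hc h
  have hb := h.toBlk.bl hc
  have hb' := h'.toBlk.bl hc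
  have cb := Q0_W h.b0
  have cd := Q0_W h.d0
  have cd₂ := Q0_W h'.d0
  obtain ⟨e', t, u, h1, h2, h3, h4⟩ := Q0_N3 hG hc hd'
  have a1 : α ≠ α₂ := by
    rintro rfl
    exact i1 h'.nb.adj.2.1
  have a2 : α ≠ β₂ := by
    rintro rfl
    exact i1 h'.nb.adj.2.2
  have a3 : β ≠ α₂ := by
    rintro rfl
    exact i2 h'.nb.adj.2.1
  have a4 : β ≠ β₂ := by
    rintro rfl
    exact i2 h'.nb.adj.2.2
  have n4 : d ≠ d₂ := by
    rintro rfl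
    rcases h.nd.mem h'.nd.adj.2.1 with e | e | e
    · exact WB (MA_W h.md cd) (e ▸ hb'.1.1)
    · exact a1 e.symm
    · exact a3 e.symm
  have m := nm hc h.md h'.md n4 hd
  have j1 : ¬ G.Adj d' α₂ := by
    intro hh
    rcases h'.nα.mem' hh with e | e | e
    · exact n3 e.symm
    · exact hd e
    · rw [e] at hd'
      exact Q0_W0 hd' h'.y0
  have j2 : ¬ G.Adj d' β₂ := by
    intro hh
    rcases h'.nβ.mem' hh with e | e | e
    · exact n3 e.symm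
    · exact hd e
    · rw [e] at hd'
      exact Q0_W0 hd' h'.z0
  have k : ∀ {v : V}, ¬ G.Adj d' v → v ≠ t ∧ v ≠ u := by
    intro v hv
    constructor
    · rintro rfl
      exact hv h2.adj.2.1
    · rintro rfl
      exact hv h2.adj.2.2
  exact pkvDD hG hc b d α β b' d₂ α₂ β₂ d' t u y y₂ d₂'
    ⟨h.nb.adj.2.1, h.nb.adj.2.2, h.mb.1, h.nd.adj.2.1, h.nd.adj.2.2, h.md.1, h.nα.adj.2.2,
      h'.nb.adj.2.1, h'.nb.adj.2.2, h'.nd.adj.2.1, h'.nd.adj.2.2, h'.md.1, h'.nα.adj.2.2,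
      h2.adj.2.1, h2.adj.2.2⟩
    ⟨h.ne, n2', n1, n3', n2.symm, n4, m.2.1, h.nb.2.2.1, a1, a2, (k i3).1, (k i3).2, a3, a4,
      (k i4).1, (k i4).2, h'.ne, n3, n1', m.2.2.1.symm, h'.nb.2.2.1, (k j1).1, (k j1).2,
      (k j2).1, (k j2).2, m.2.2.2, h2.2.2.1, hy⟩
    ⟨hb.1.2, hb.2.2, hb'.1.2, hb'.2.2, h3.2, h4.2, h.y0.2, h'.y0.2⟩
    ⟨cb, cd, hb.1.1, hb.2.1, MA_W h.mb cb, cd₂, hb'.1.1, hb'.2.1, MA_W h.md cd, h3.1, h4.1,
      h.y0.1, h'.y0.1, MA_W h'.md cd₂⟩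

theorem slot (hG : Cub G) (hW : World2 G c k) (hR : Rule1 G c) {w a : V}
    (hw : w ∈ Qs G c 0) (hwa : G.Adj w a) (ca : c a = false) : (∃ n K, CrA G c n w a K) ∨
    (∃ n H τ e, CrB G c n w a H τ e) ∨
    ∃ b' d d' β y z, PBlk G c w b' d d' a β y z ∧ b' ∉ Qs G c 0 ∧ d' ∉ Qs G c 0 := by
  have hc := hW.nice
  obtain ⟨w', hm⟩ := mate_ex (mem_Qs.1 hw).1
  obtain ⟨ha, b, hN, hb⟩ := Q0_N3' hG hc hw hm hwa ca
  have cw := Q0_W hw
  have cw' := MA_W hm cw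
  have hw1 := (mem_Qs.1 hw).1
  have hw'1 := W1_of_MA hc (ma_symm hm) cw'
  -- twins
  have tw : ∀ {x x' : V}, x ∈ Qs G c 0 → MA G c x x' → x ≠ w → x ≠ w' → G.Adj x a →
      Blk G c w w' x x' a b := by
    intro x x' hx hxx h1 h2 h3
    have hna : ¬ G.Adj w x := by
      intro hh
      exact h2 (nice_uniq hc hm ⟨hh, by rw [cw, Q0_W hx]⟩).symm
    obtain ⟨-, t, k1, k2⟩ := Q0_N3' hG hc hx hxx h3 ca
    have hxb := two hG hW hw hx (Ne.symm h1) hna hwa h3 hN.adj.2.2 hb.1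
    have hn : N3 G x x' a b := by
      rcases k1.mem hxb with e | e | e
      · exact (WB (MA_W hxx (Q0_W hx)) (e ▸ hb.1)).elim
      · exact absurd e.symm hN.2.2.1
      · rw [e]
        exact k1
    exact ⟨hw, hx, Ne.symm h1, hna, hm, hxx, hN, hn⟩
  -- houses
  have house : ∀ {b b' d d' α β : V}, Blk G c b b' d d' α β → G.Adj b' α →
      (w = b ∨ w = d) → (a = α ∨ a = β) → ∃ n H τ e, CrB G c n w a H τ e := by
    intro b b' d d' α β hB h1 h2 h3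
    obtain ⟨n1, n2, n3⟩ := blk_ne hc hB
    have hb' := W1_of_MA hc (ma_symm hB.mb) (MA_W hB.mb (Q0_W hB.b0))
    refine ⟨7, _, _, _, CrB.hs b b' d d' α β w a hB ?_ (Q1_of hG hc hb' h1 (hB.bl hc).1
      (hs hG hW hB h1)) h2 h3⟩
    exact N3_of3 hG hB.nb.adj.2.1.symm hB.nd.adj.2.1.symm h1.symm hB.ne hB.mb.1.ne n2.symm
  by_cases h1 : G.Adj w' a
  · obtain ⟨y, hy⟩ := N3_of hG hwa.symm h1.symm hm.1.ne
    have cy := W_of_B hy.adj.2.2 ha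
    rcases W0_or_W1 hc cy with hy0 | hy1
    · exact Or.inl ⟨1, _, CrA.d0 w w' a y hw hm hy hy0⟩
    · obtain ⟨y', hyy⟩ := mate_ex hy1
      by_cases hyQ : y ∈ Qs G c 0
      · have hB := tw hyQ hyy hy.2.1.symm hy.2.2.1.symm hy.adj.2.2.symm
        exact Or.inr (Or.inl (house hB h1 (Or.inl rfl) (Or.inl rfl)))
      · have hyQ1 := Q1_of hG hc hy1 hy.adj.2.2.symm ha hyQ
        by_cases hwQ : w' ∈ Qs G c 0
        · exact Or.inr (Or.inl ⟨8, _, _, _, CrB.d1 w w' a y y' hw hwQ hm hy hyQ1 hyy⟩)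
        · have hwQ1 := Q1_of hG hc hw'1 h1 ha hwQ
          exact Or.inr (Or.inl ⟨5, _, _, _, CrB.m w w' a y y' w' hw hm hy.swap' hyQ1
            hy.2.2.1.symm hyy (Or.inr ⟨rfl, hwQ1⟩)⟩)
  · obtain ⟨x, y, hxy⟩ := N3_of1 hG hwa.symm
    have cx := W_of_B hxy.adj.2.1 ha
    have cy := W_of_B hxy.adj.2.2 ha
    have hx' : x ≠ w' := by
      rintro rfl
      exact h1 hxy.adj.2.1.symm
    have hy' : y ≠ w' := by
      rintro rfl
      exact h1 hxy.adj.2.2.symm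
    have hwx : ¬ G.Adj w x := by
      intro hh
      exact hx' (nice_uniq hc hm ⟨hh, by rw [cw, cx]⟩).symm
    have hwy : ¬ G.Adj w y := by
      intro hh
      exact hy' (nice_uniq hc hm ⟨hh, by rw [cw, cy]⟩).symm
    -- one neighbour in `W0`
    have one : ∀ {x y : V}, N3 G a w x y → x ≠ w' → IsW1 G c x → IsW0 G c y →
        (∃ n K, CrA G c n w a K) ∨ (∃ n H τ e, CrB G c n w a H τ e) ∨
        ∃ b' d d' β y z, PBlk G c w b' d d' a β y z ∧ b' ∉ Qs G c 0 ∧ d' ∉ Qs G c 0 := by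
      intro x y hxy hx' hx1 hy0
      obtain ⟨x', hxx⟩ := mate_ex hx1
      by_cases hxQ : x ∈ Qs G c 0
      · have hB := tw hxQ hxx hxy.1.symm hx' hxy.adj.2.1.symm
        obtain ⟨n1, n2, n3⟩ := blk_ne hc hB
        obtain ⟨z, hz⟩ := N3_of hG hB.nb.adj.2.2.symm hB.nd.adj.2.2.symm hB.ne
        have cz := W_of_B hz.adj.2.2 hb
        rcases W0_or_W1 hc cz with hz0 | hz1
        · have hP : PBlk G c w w' x x' a b y z := ⟨hB, hxy, hz, hy0, hz0⟩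
          by_cases g1 : w' ∈ Qs G c 0
          · exact Or.inl ⟨2, _, CrA.blk w w' x x' a b y z w' w hP (Or.inl rfl) g1 (Or.inl rfl)⟩
          · by_cases g2 : x' ∈ Qs G c 0
            · exact Or.inl ⟨2, _, CrA.blk w w' x x' a b y z x' w hP (Or.inr rfl) g2
                (Or.inl rfl)⟩
            · exact Or.inr (Or.inr ⟨w', x, x', b, y, z, hP, g1, g2⟩)
        · by_cases g1 : G.Adj w z
          · have e : w' = z := nice_uniq hc hm ⟨g1, by rw [cw, cz]⟩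
            subst e
            exact Or.inr (Or.inl (house hB.flip hz.adj.2.2.symm (Or.inl rfl) (Or.inr rfl)))
          · have g2 := a3 hG hW hw hb.1 hz hx1 hz1 hB.na g1
            have e : x' = z := nice_uniq hc hxx ⟨g2, by rw [hx1.1, cz]⟩
            subst e
            exact Or.inr (Or.inl (house hB.symm.flip hz.adj.2.2.symm (Or.inr rfl)
              (Or.inr rfl)))
      · have hxQ1 := Q1_of hG hc hx1 hxy.adj.2.1.symm ha hxQ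
        exact Or.inr (Or.inl ⟨5, _, _, _, CrB.m w w' a x x' y hw hm hxy hxQ1 hx' hxx
          (Or.inl hy0)⟩)
    rcases W0_or_W1 hc cx with hx0 | hx1
    · rcases W0_or_W1 hc cy with hy0 | hy1
      · exact Or.inl ⟨3, _, CrA.e w a x y hw hxy hx0 hy0⟩
      · exact one hxy.swap' hy' hy1 hx0
    · rcases W0_or_W1 hc cy with hy0 | hy1
      · exact one hxy hx' hx1 hy0
      · have hadj := a3 hG hW hw ca hxy hx1 hy1 hwx hwy
        have hmx : MA G c x y := ⟨hadj, by rw [cx, cy]⟩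
        by_cases hxQ : x ∈ Qs G c 0
        · have hB := tw hxQ hmx hxy.1.symm hx' hxy.adj.2.1.symm
          exact Or.inr (Or.inl (house hB.symm hxy.adj.2.2.symm (Or.inr rfl) (Or.inl rfl)))
        · by_cases hyQ : y ∈ Qs G c 0
          · have hB := tw hyQ (ma_symm hmx) hxy.2.1.symm hy' hxy.adj.2.2.symm
            exact Or.inr (Or.inl (house hB.symm hxy.adj.2.1.symm (Or.inr rfl) (Or.inl rfl)))
          · have hxQ1 := Q1_of hG hc hx1 hxy.adj.2.1.symm ha hxQ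
            have hyQ1 := Q1_of hG hc hy1 hxy.adj.2.2.symm ha hyQ
            obtain ⟨y₂, a₂, p, j1, j2, j3, j4⟩ := Q1_N3 hG hc hxQ1
            obtain ⟨p', hpp⟩ := md1_ex j4.2
            have hX : Xc G c w a x y p p' :=
              ⟨hw, hxy, hmx, hxQ1, hyQ1, j2.adj.2.2, hpp, j4.1⟩
            have hp' := (hX.B1 hc).2
            obtain ⟨r, s, hrs⟩ := N3_of1 hG hpp.1.symm
            have wh : ∀ {t : V}, G.Adj p' t → t ≠ p → c t = true := by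
              intro t h1 h2
              by_contra hh
              have ct : c t = false := by simpa using hh
              exact h2 (nice_uniq hc (ma_symm hpp) ⟨h1, by rw [hp'.1, ct]⟩).symm
            have cr := wh hrs.adj.2.1 hrs.1.symm
            have cs := wh hrs.adj.2.2 hrs.2.1.symm
            have fin : ∀ {r s : V}, N3 G p' p r s → IsW1 G c r → IsW0 G c s →
                (∃ n K, CrA G c n w a K) ∨ (∃ n H τ e, CrB G c n w a H τ e) ∨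
                ∃ b' d d' β y z, PBlk G c w b' d d' a β y z ∧ b' ∉ Qs G c 0 ∧
                  d' ∉ Qs G c 0 := by
              intro r s hrs hr hs
              by_cases hrw : r = w'
              · exact Or.inl ⟨4, _, CrA.x3 w w' a x y p p' r s hw hm hxy hmx hxQ1 hyQ1
                  j2.adj.2.2 hpp j4.1 hrs (Or.inr hrw) (Or.inl hs)⟩
              · obtain ⟨r', hrr⟩ := mate_ex hr
                exact Or.inr (Or.inl ⟨6, _, _, _, CrB.x4 w w' a x y p p' r r' s hw hm hxy hmx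
                  hxQ1 hyQ1 j2.adj.2.2 hpp j4.1 hrs hrw hrr (Or.inl hs)⟩)
            rcases W0_or_W1 hc cr with hr0 | hr1
            · rcases W0_or_W1 hc cs with hs0 | hs1
              · exact Or.inl ⟨4, _, CrA.x3 w w' a x y p p' r s hw hm hxy hmx hxQ1 hyQ1
                  j2.adj.2.2 hpp j4.1 hrs (Or.inl hr0) (Or.inl hs0)⟩
              · exact fin hrs.swap' hs1 hr0
            · rcases W0_or_W1 hc cs with hs0 | hs1
              · exact fin hrs hr1 hs0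
              · exact (xtop hG hW hX hrs.adj.2.1 hrs.adj.2.2 ⟨hR p' r s hp' hrs.adj.2.1
                  hrs.adj.2.2 hrs.2.2.1 hr1 hs1, by rw [cr, cs]⟩ cr).elim

end PkF

/-- the facts of the packing hold in World 2 -/
theorem World2.pf (hG : Cub G) (hW : World2 G c k) : PF G c where
  cub := hG
  nice := hW.nice
  rule1 := hW.rule1 hG
  two := fun _ _ _ _ h1 h2 h3 h4 h5 h6 h7 h8 => PkF.two hG hW h1 h2 h3 h4 h5 h6 h7 h8
  a3 := fun _ _ _ _ h1 h2 h3 h4 h5 h6 h7 => PkF.a3 hG hW h1 h2 h3 h4 h5 h6 h7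
  k23 := fun _ _ _ _ _ _ _ h1 h2 h3 h4 h5 => PkF.k23 hG hW h1 h2 h3 h4 h5
  hs := fun _ _ _ _ _ _ h1 h2 => PkF.hs hG hW h1 h2
  xpi := fun _ _ _ _ _ _ h => PkF.xpi hG hW h
  xtop := fun _ _ _ _ _ _ _ _ h h1 h2 h3 h4 => PkF.xtop hG hW h h1 h2 h3 h4
  f1 := fun _ _ _ _ _ _ _ _ _ h h1 h2 h3 h4 h5 h6 => PkF.f1 hG hW h h1 h2 h3 h4 h5 h6
  ends := fun _ _ _ _ _ _ _ _ _ _ _ _ _ _ _ h h' hne => PkF.ends hG hW h h' hne
  ex1 := fun _ _ _ _ _ _ _ _ _ _ _ hB h1 h2 h3 h4 h5 h6 h7 h8 h9 =>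
    PkF.ex1 hG hW hB h1 h2 h3 h4 h5 h6 h7 h8 h9
  t1src := fun _ _ _ _ _ _ _ _ _ h1 h2 h3 h4 h5 h6 h7 h8 h9 h10 h11 h12 h13 h14 h15 h16 =>
    PkF.t1src hG hW h1 h2 h3 h4 h5 h6 h7 h8 h9 h10 h11 h12 h13 h14 h15 h16
  h3 := fun _ _ _ _ h hn => PkF.h3 hG hW.nice h hn
  h4 := fun _ _ _ _ _ _ h => PkF.h4 hG hW.nice (hW.rule1 hG) h
  t4 := fun _ _ _ _ _ _ h => PkF.t4 hG hW.nice h
  eu := fun _ _ _ _ _ _ h he => PkF.eu hG hW (hW.rule1 hG) h he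
  u := fun _ _ _ _ _ _ _ _ h h' => PkF.u hG hW.nice h h'
  dd := fun _ _ _ _ _ _ _ _ _ _ _ _ _ _ h h' hy hd hd' => PkF.dd hG hW.nice h h' hy hd hd'
  slot := fun _ _ hw hwa ca => PkF.slot hG hW (hW.rule1 hG) hw hwa ca

end

end Pool.Agent.Work.MP_1e13ac_W
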