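import Pool.Agent.Work.MP_1e13ac_W.PkDefs
import Pool.Agent.Work.MP_1e13ac_W.W1Leaf

/-!
# MP_1e13ac_co, full statement, level `k ≥ 2`: the greedy algorithm (helper80)
-/

set_option autoImplicit false
set_option linter.unusedSectionVars false

namespace Pool.Agent.Work.MP_1e13ac_W

open Classical Finset Pool.Agent.Work.MP_1e13ac_Bis

noncomputable section

variable {V : Type} [Fintype V] {G : SimpleGraph V} {c : V → Bool}

theorem ZD_symm {A B : Finset V} (h : ZD G c A B) : ZD G c B A := Disjoint.symm h

theorem ZD_union {A B C : Finset V} : ZD G c A (B ∪ C) ↔ ZD G c A B ∧ ZD G c A C := by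
  unfold ZD
  rw [Zn_union, Finset.disjoint_union_right]

theorem Zn_mono {A B : Finset V} (h : A ⊆ B) : Zn G c A ⊆ Zn G c B := by
  have e : A ∪ B = B := Finset.union_eq_right.2 h
  rw [← e, Zn_union]
  exact Finset.subset_union_left

theorem ZD_mono {A A' B : Finset V} (h : A' ⊆ A) (hd : ZD G c A B) : ZD G c A' B :=
  Disjoint.mono_left (Zn_mono h) hd

theorem ZD_empty {A : Finset V} : ZD G c A ∅ := by
  unfold ZD
  rw [Zn_empty]
  exact Finset.disjoint_empty_right _

theorem Alive_mono {F F' : Finset V} (h : F ⊆ F') {s : V × V} (ha : Alive G c F' s) :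
    Alive G c F s := by
  rcases ha with ⟨n, K, h1, h2⟩ | ⟨n, H, τ, e, h1, h2⟩
  · exact Or.inl ⟨n, K, h1, ZD_symm (ZD_mono h (ZD_symm h2))⟩
  · exact Or.inr ⟨n, H, τ, e, h1, ZD_symm (ZD_mono h (ZD_symm h2))⟩

theorem AL_mono {F F' : Finset V} (h : F ⊆ F') : AL G c F' ⊆ AL G c F := by
  intro s hs
  unfold AL at hs ⊢
  rw [Finset.mem_filter] at hs ⊢
  exact ⟨Finset.mem_univ _, Alive_mono h hs.2⟩

/-- all units -/
theorem pk_units (h : PF G c) (s0 : Stmt_S0) (s1 : Stmt_S1) (s2 : Stmt_S2) (s3 : Stmt_S3)
    (s4 : Stmt_S4) (s5 : Stmt_S5) (s6 : Stmt_S6) (s7 : Stmt_S7) :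
    ∀ (r : ℕ) (F0 : Finset V), 12 * r ≤ (AL G c F0).card →
      ∃ (L : List (Finset V × (ℤ × ℤ × ℤ))) (t : ℕ), (∀ p ∈ L, Gd G c p.1 p.2 ∧ ZD G c p.1 F0) ∧
        L.Pairwise (fun p q => ZD G c p.1 q.1) ∧
        (L.map Prod.snd).sum = (-2 * ((r : ℤ) - t), (t : ℤ), 0) ∧
        (L.map fun p => blk G c p.1).sum + 3 * t ≤ 6 * r := by
  intro r
  induction r using Nat.strong_induction_on with
  | _ r ih =>
    intro F0 hcard
    by_cases hr : r = 0
    · subst hr
      exact ⟨[], 0, by simp, by simp, by simp; rfl, by simp⟩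
    · have hr1 : 1 ≤ r := by omega
      have key : Step G c F0 r ∨ Final G c F0 r := by
        by_cases h0 : ∃ w a K, CrA G c 0 w a K ∧ ZD G c K F0
        · exact Or.inl (s0 V G c h F0 r hr1 h0)
        have n1 : NoA G c 1 F0 := by
          intro m w a K h1 h2
          by_contra hh
          have : m = 0 := by omega
          subst this
          exact h0 ⟨w, a, K, h1, h2⟩
        by_cases h1 : NoE G c 7 F0
        swap
        · exact Or.inl (s1 V G c h F0 r hr1 n1 h1)
        by_cases h2 : ∃ w a K, CrA G c 1 w a K ∧ ZD G c K F0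
        · exact Or.inl (s2 V G c h F0 r hr1 n1 h1 h2)
        have n2 : NoA G c 2 F0 := by
          intro m w a K h3 h4
          have h5 := n1 m w a K h3 h4
          by_contra hh
          have : m = 1 := by omega
          subst this
          exact h2 ⟨w, a, K, h3, h4⟩
        by_cases h3 : ∃ w a K, CrA G c 2 w a K ∧ ZD G c K F0
        · exact Or.inl (s3 V G c h F0 r hr1 n2 h1 h3)
        have n3 : NoA G c 3 F0 := by
          intro m w a K h4 h5
          have h6 := n2 m w a K h4 h5
          by_contra hh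
          have : m = 2 := by omega
          subst this
          exact h3 ⟨w, a, K, h4, h5⟩
        by_cases h4 : ∃ w a K, CrA G c 3 w a K ∧ ZD G c K F0
        · exact Or.inl (s4 V G c h F0 r hr1 n3 h1 h4)
        have n4 : NoA G c 4 F0 := by
          intro m w a K h5 h6
          have h7 := n3 m w a K h5 h6
          by_contra hh
          have : m = 3 := by omega
          subst this
          exact h4 ⟨w, a, K, h5, h6⟩
        by_cases h5 : NoE G c 5 F0 ∧ NoE G c 6 F0 ∧ NoE G c 8 F0
        swap
        · exact Or.inl (s5 V G c h F0 r hr1 n4 h1 h5)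
        have hall : ∀ n, NoE G c n F0 := by
          intro n w a H τ e hc hd
          have hn : n = 5 ∨ n = 6 ∨ n = 7 ∨ n = 8 := by cases hc <;> simp
          rcases hn with rfl | rfl | rfl | rfl
          · exact h5.1 w a H τ e hc hd
          · exact h5.2.1 w a H τ e hc hd
          · exact h1 w a H τ e hc hd
          · exact h5.2.2 w a H τ e hc hd
        by_cases h6 : ∃ w a K, CrA G c 4 w a K ∧ ZD G c K F0
        · exact Or.inl (s6 V G c h F0 r hr1 n4 hall h6)
        have n5 : NoA G c 5 F0 := by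
          intro m w a K h7 h8
          have h9 := n4 m w a K h7 h8
          by_contra hh
          have : m = 4 := by omega
          subst this
          exact h6 ⟨w, a, K, h7, h8⟩
        exact Or.inr (s7 V G c h F0 r hcard n5 hall)
      rcases key with ⟨F, j, t, hj1, hjr, hz, hg, hb, hk⟩ | ⟨L, h1, h2, h3, h4⟩
      · by_cases hj : j = r
        · subst hj
          refine ⟨[(F, (-2 * ((j : ℤ) - t), (t : ℤ), 0))], t, ?_, by simp, ?_, ?_⟩
          · intro p hp
            rw [List.mem_singleton] at hp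
            subst hp
            exact ⟨hg, hz⟩
          · simp
          · simpa using hb
        · have hk' := hk.resolve_left hj
          have hc2 : 12 * (r - j) ≤ (AL G c (F0 ∪ F)).card := by
            have h1 : (AL G c F0).card ≤ (AL G c F0 \ AL G c (F0 ∪ F)).card +
                (AL G c (F0 ∪ F)).card := by
              have := Finset.card_le_card (show AL G c F0 ⊆
                (AL G c F0 \ AL G c (F0 ∪ F)) ∪ AL G c (F0 ∪ F) by
                  intro x hx
                  rw [Finset.mem_union, Finset.mem_sdiff]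
                  by_cases h : x ∈ AL G c (F0 ∪ F)
                  · exact Or.inr h
                  · exact Or.inl ⟨hx, h⟩)
              exact this.trans (Finset.card_union_le _ _)
            omega
          obtain ⟨L, t', h1, h2, h3, h4⟩ := ih (r - j) (by omega) (F0 ∪ F) hc2
          refine ⟨(F, (-2 * ((j : ℤ) - t), (t : ℤ), 0)) :: L, t + t', ?_, ?_, ?_, ?_⟩
          · intro p hp
            rcases List.mem_cons.1 hp with rfl | hp
            · exact ⟨hg, hz⟩
            · exact ⟨(h1 p hp).1, (ZD_union.1 (h1 p hp).2).1⟩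
          · rw [List.pairwise_cons]
            exact ⟨fun p hp => ZD_symm (ZD_union.1 (h1 p hp).2).2, h2⟩
          · rw [List.map_cons, List.sum_cons, h3]
            refine Prod.ext ?_ (Prod.ext ?_ ?_)
            · simp only [Prod.fst_add]
              push_cast [Nat.cast_sub hjr]
              ring
            · simp only [Prod.snd_add, Prod.fst_add]
              push_cast
              ring
            · simp
          · rw [List.map_cons, List.sum_cons]
            have : r - j + j = r := by omega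
            show blk G c F + (L.map fun p => blk G c p.1).sum + 3 * (t + t') ≤ 6 * r
            omega
      · refine ⟨L, 0, h1, h2, ?_, by simpa using h4⟩
        rw [h3]
        simp

/-- the tokens T3 -/
theorem pk_T3 (h : PF G c) (hT : ∀ s ∈ Qs G c 0, blk G c {s} ≤ 3) : ∀ (t : ℕ) (L : List (Finset V × (ℤ × ℤ × ℤ))) (m : ℕ),
    (∀ p ∈ L, Gd G c p.1 p.2) → L.Pairwise (fun p q => ZD G c p.1 q.1) →
    (L.map fun p => blk G c p.1).sum + 3 * t ≤ m → m ≤ (Qs G c 0).card →
    ∃ L' : List (Finset V × (ℤ × ℤ × ℤ)), (∀ p ∈ L', Gd G c p.1 p.2) ∧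
      L'.Pairwise (fun p q => ZD G c p.1 q.1) ∧
      (L'.map Prod.snd).sum = (L.map Prod.snd).sum + (-2 * (t : ℤ), -(t : ℤ), 0) := by
  intro t
  induction t with
  | zero =>
    intro L m h1 h2 _ _
    exact ⟨L, h1, h2, by simp⟩
  | succ t ih =>
    intro L m h1 h2 h3 h4
    have hex : ∃ s ∈ Qs G c 0, ∀ p ∈ L, ZD G c {s} p.1 := by
      by_contra hh
      push Not at hh
      have hle : ∀ M : List (Finset V × (ℤ × ℤ × ℤ)),
          ((Qs G c 0).filter fun s => ∃ p ∈ M, ¬ ZD G c {s} p.1).card ≤
            (M.map fun p => blk G c p.1).sum := by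
        intro M
        induction M with
        | nil => simp
        | cons p M ihM =>
          have hsub : ((Qs G c 0).filter fun s => ∃ q ∈ p :: M, ¬ ZD G c {s} q.1) ⊆
              ((Qs G c 0).filter fun s => ¬ ZD G c {s} p.1) ∪
                ((Qs G c 0).filter fun s => ∃ q ∈ M, ¬ ZD G c {s} q.1) := by
            intro s hs
            rw [Finset.mem_filter] at hs
            obtain ⟨hs1, q, hq, hs2⟩ := hs
            rw [Finset.mem_union, Finset.mem_filter, Finset.mem_filter]
            rcases List.mem_cons.1 hq with rfl | hq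
            · exact Or.inl ⟨hs1, hs2⟩
            · exact Or.inr ⟨hs1, q, hq, hs2⟩
          refine (Finset.card_le_card hsub).trans ((Finset.card_union_le _ _).trans ?_)
          rw [List.map_cons, List.sum_cons]
          exact Nat.add_le_add (le_refl _) ihM
      have h5 := hle L
      have h6 : ((Qs G c 0).filter fun s => ∃ p ∈ L, ¬ ZD G c {s} p.1) = Qs G c 0 :=
        Finset.filter_true_of_mem fun s hs => hh s hs
      rw [h6] at h5
      omega
    obtain ⟨s, hs, hsd⟩ := hex
    obtain ⟨L', g1, g2, g3⟩ := ih (({s}, (-2, -1, 0)) :: L) m (by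
        intro p hp
        rcases List.mem_cons.1 hp with rfl | hp
        · exact T3_tok h.cub h.nice hs
        · exact h1 p hp) (by
        rw [List.pairwise_cons]
        exact ⟨hsd, h2⟩) (by
        rw [List.map_cons, List.sum_cons]
        have := hT s hs
        show blk G c {s} + (L.map fun p => blk G c p.1).sum + 3 * t ≤ m
        omega) h4
    refine ⟨L', g1, g2, ?_⟩
    rw [g3, List.map_cons, List.sum_cons]
    refine Prod.ext ?_ (Prod.ext ?_ ?_)
    · simp only [Prod.fst_add]
      push_cast
      ring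
    · simp only [Prod.snd_add, Prod.fst_add]
      push_cast
      ring
    · simp

theorem pk_good (h : PF G c) (L : List (Finset V × (ℤ × ℤ × ℤ))) (k : ℕ) (hlev : lev c = 2 * (k : ℤ))
    (h1 : ∀ p ∈ L, Gd G c p.1 p.2) (h2 : L.Pairwise (fun p q => ZD G c p.1 q.1))
    (h3 : (L.map Prod.snd).sum = (-2 * (k : ℤ), 0, 0)) : Good' G := by
  obtain ⟨g1, g2, -, -⟩ := list_add h.nice (L.map Prod.fst) (by
      rw [List.pairwise_map]
      exact h2) (by
      intro A hA
      obtain ⟨p, hp, rfl⟩ := List.mem_map.1 hA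
      exact (h1 p hp).1)
  refine ⟨_, g1, ?_⟩
  have e : ((L.map Prod.fst).map fun A => st G (flp A c) univ - st G c univ) = L.map Prod.snd := by
    rw [List.map_map]
    exact List.map_congr_left fun p hp => (h1 p hp).2
  rw [e, h3, st_of_nice h.nice, hlev] at g2
  rw [sub_eq_iff_eq_add.1 g2]
  refine Prod.ext ?_ (Prod.ext ?_ ?_)
  · simp
  · simp
  · simp

/-- World 2 is impossible -/
theorem pk_main (h : PF G c) (s0 : Stmt_S0) (s1 : Stmt_S1) (s2 : Stmt_S2) (s3 : Stmt_S3)
    (s4 : Stmt_S4) (s5 : Stmt_S5) (s6 : Stmt_S6) (s7 : Stmt_S7)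
    (hT : ∀ s ∈ Qs G c 0, blk G c {s} ≤ 3) (k : ℕ) (hlev : lev c = 2 * (k : ℤ)) (hq : 6 * k ≤ (Qs G c 0).card)
    (ha : 12 * k ≤ (AL G c ∅).card) : Good' G := by
  obtain ⟨L, t, h1, h2, h3, h4⟩ := pk_units h s0 s1 s2 s3 s4 s5 s6 s7 k ∅ ha
  obtain ⟨L', g1, g2, g3⟩ := pk_T3 h hT t L (6 * k) (fun p hp => (h1 p hp).1) h2 h4 hq
  refine pk_good h L' k hlev g1 g2 ?_
  rw [g3, h3]
  refine Prod.ext ?_ (Prod.ext ?_ ?_)
  · simp only [Prod.fst_add]
    ring
  · simp
  · simp

end

end Pool.Agent.Work.MP_1e13ac_W
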