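import Pool.Agent.Work.MP_1e13ac_W.PkS3b

/-!
# MP_1e13ac_co, World 2: stage 3 (blocks) (helper87)
-/

set_option autoImplicit false
set_option linter.unusedSectionVars false

namespace Pool.Agent.Work.MP_1e13ac_W

open Classical Finset Pool.Agent.Work.MP_1e13ac_Bis

noncomputable section

variable {V : Type} [Fintype V] {G : SimpleGraph V} {c : V → Bool} {F0 : Finset V}

/-- the slots killed at a mate -/
def DS (G : SimpleGraph V) (c : V → Bool) (F0 : Finset V) (w : V) : Finset (V × V) :=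
  if w ∈ Qs G c 0 then TS G c F0 w else Jz G c F0 w

theorem TS_sub_DS (hc : Nice G c) (w : V) : TS G c F0 w ⊆ DS G c F0 w := by
  unfold DS
  split_ifs with hw
  · exact Finset.Subset.refl _
  · rw [TS_nosrc hc hw]
    exact Finset.empty_subset _

/-- the kill set of the mate `d'` of the source `d` -/
theorem jz_sub_DS (h : PF G c) (hA : NoA G c 1 F0) {d d' : V} (hm : MA G c d d') :
    Jz G c F0 d' ⊆ DS G c F0 d' ∪ TS G c F0 d := by
  unfold DS
  split_ifs with hw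
  · exact jzQ0_sub h hA hw (ma_symm hm)
  · exact Finset.subset_union_left

theorem PBlk.disj {b b' d d' α β y z : V} (hc : Nice G c) (hB : PBlk G c b b' d d' α β y z)
    {x : V} (h1 : G.Adj b x) (h2 : G.Adj b' x) : False := by
  rcases hB.nb.mem h1 with e | e | e
  · subst e
    exact G.irrefl h2
  · subst e
    exact (hB.nadj hc).1 h2
  · subst e
    exact (hB.nadj hc).2.1 h2

theorem PBlk.DS_card (h : PF G c) (hA : NoA G c 1 F0) {b b' d d' α β y z : V}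
    (hB : PBlk G c b b' d d' α β y z) (hd : d' ∉ Qs G c 0) : (DS G c F0 d').card ≤ 2 := by
  unfold DS
  rw [if_neg hd]
  refine jz_W1_card h hA (W1_of_MA h.nice (ma_symm hB.md) (MA_W hB.md (Q0_W hB.d0))) hd ?_
  intro b₁ d₁ d₁' α₁ β₁ hH
  have e : b₁ = d := nice_uniq h.nice (ma_symm hH.1.mb) (ma_symm hB.md)
  exact (hB.no_house h hH).2 e

theorem DS_card4 (h : PF G c) {d' : V} (hd : d' ∈ Qs G c 0) : (DS G c F0 d').card ≤ 4 := by
  unfold DS
  rw [if_pos hd]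
  exact TS_card h d'

/-- the zone of a unit -/
theorem zone_U (h : PF G c) {b b' d d' α β y z : V} (hB : PBlk G c b b' d d' α β y z)
    (hb' : b' ∈ Qs G c 0) {x : V} (hx : x ∈ Zn G c {d, α, b'}) :
    x = b ∨ x = b' ∨ x = d ∨ x = d' ∨ x = y ∨ (IsB0 G c x ∧ (G.Adj b x ∨ G.Adj b' x)) := by
  have htw := hB.toBlk.tw.2.2.2.2
  rw [Zn_ins, Zn_ins, Finset.mem_union, Finset.mem_union] at hx
  rcases hx with hx | hx | hx
  · rcases Q0_zone h.nice hB.d0 hx with e | e | ⟨e1, e2⟩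
    · exact Or.inr (Or.inr (Or.inl e))
    · exact Or.inr (Or.inr (Or.inr (Or.inl (nice_uniq h.nice e hB.md))))
    · exact Or.inr (Or.inr (Or.inr (Or.inr (Or.inr ⟨e2, Or.inl ((htw x e2.1).2 e1)⟩))))
  · have hα := (hB.toBlk.bl h.nice).1
    rcases B0_zone hα hx with e | e | ⟨t, e1, e2⟩
    · subst e
      exact Or.inr (Or.inr (Or.inr (Or.inr (Or.inr ⟨hα, Or.inl hB.nb.adj.2.1⟩))))
    · rcases hB.nα.mem e with e | e | e
      · exact Or.inl e
      · exact Or.inr (Or.inr (Or.inl e))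
      · exact Or.inr (Or.inr (Or.inr (Or.inr (Or.inl e))))
    · rcases hB.nα.mem e1 with e | e | e
      · subst e
        exact Or.inr (Or.inl (nice_uniq h.nice e2 hB.mb))
      · subst e
        exact Or.inr (Or.inr (Or.inr (Or.inl (nice_uniq h.nice e2 hB.md))))
      · subst e
        exact (md0_no hB.y0.2 e2).elim
  · rcases Q0_zone h.nice hb' hx with e | e | ⟨e1, e2⟩
    · exact Or.inr (Or.inl e)
    · exact Or.inl (nice_uniq h.nice e (ma_symm hB.mb))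
    · exact Or.inr (Or.inr (Or.inr (Or.inr (Or.inr ⟨e2, Or.inr e1⟩))))

/-- the slots killed by a unit -/
theorem kill_U (h : PF G c) (hA : NoA G c 2 F0) {b b' d d' α β y z g₁ g₂ : V}
    (hB : PBlk G c b b' d d' α β y z) (hb' : b' ∈ Qs G c 0) (hN : N3 G y α g₁ g₂) :
    AL G c F0 \ AL G c (F0 ∪ {d, α, b'}) ⊆
      (TS G c F0 b ∪ TS G c F0 b' ∪ DS G c F0 d' ∪ MT G c F0 b') ∪
        (Cn G c F0 g₁ ∪ Cn G c F0 g₂) := by
  have hA1 : NoA G c 1 F0 := NoA_mono (by norm_num) hA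
  have hdb : TS G c F0 d = TS G c F0 b := TS_tw h hB.toBlk.tw.symm
  intro s hs
  obtain ⟨x, hx, hsx⟩ := Finset.mem_biUnion.1 (killed_sub h.nice F0 {d, α, b'} hs)
  simp only [Finset.mem_union]
  rcases zone_U h hB hb' hx with e | e | e | e | e | ⟨e0, e | e⟩
  · subst e
    rcases Finset.mem_union.1 (jzQ0_sub h hA1 hB.b0 hB.mb hsx) with e | e
    · exact Or.inl (Or.inl (Or.inl (Or.inl e)))
    · exact Or.inl (Or.inl (Or.inl (Or.inr e)))
  · subst e
    rcases Finset.mem_union.1 (jzQ0_sub h hA1 hb' (ma_symm hB.mb) hsx) with e | e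
    · exact Or.inl (Or.inl (Or.inl (Or.inr e)))
    · exact Or.inl (Or.inl (Or.inl (Or.inl e)))
  · subst e
    rcases Finset.mem_union.1 (jzQ0_sub h hA1 hB.d0 hB.md hsx) with e | e
    · exact Or.inl (Or.inl (Or.inl (Or.inl (hdb ▸ e))))
    · exact Or.inl (Or.inl (Or.inr (TS_sub_DS h.nice _ e)))
  · subst e
    rcases Finset.mem_union.1 (jz_sub_DS h hA1 hB.md hsx) with e | e
    · exact Or.inl (Or.inl (Or.inr e))
    · exact Or.inl (Or.inl (Or.inl (Or.inl (hdb ▸ e))))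
  · subst e
    have := jz_W0_sub h hA1 hB.y0 hN hsx
    rw [Finset.mem_union, Finset.mem_union] at this
    rcases this with (e | e) | e
    · exact Or.inl (Or.inl (Or.inl (Or.inl (cn_src h hA1 hB.b0 hB.mb hB.nb.adj.2.1
        (hB.toBlk.bl h.nice).1 (hB.nadj h.nice).1 e))))
    · exact Or.inr (Or.inl e)
    · exact Or.inr (Or.inr e)
  · have := jzB0_sub h hA1 hB.b0 hB.mb e e0 (fun hh => hB.disj h.nice e hh) hsx
    rw [Finset.mem_union, Finset.mem_union] at this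
    rcases this with (e | e) | e
    · exact Or.inl (Or.inl (Or.inl (Or.inl e)))
    · exact Or.inl (Or.inl (Or.inl (Or.inr e)))
    · exact Or.inl (Or.inl (Or.inr (TS_sub_DS h.nice _ (MT_sub h hB.toBlk.tw.symm hB.md e))))
  · have := jzB0_sub h hA1 hb' (ma_symm hB.mb) e e0 (fun hh => hB.disj h.nice hh e) hsx
    rw [Finset.mem_union, Finset.mem_union] at this
    rcases this with (e | e) | e
    · exact Or.inl (Or.inl (Or.inl (Or.inr e)))
    · exact Or.inl (Or.inl (Or.inl (Or.inl e)))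
    · exact Or.inl (Or.inr e)

theorem tw_ex (h : PF G c) (w : V) : ∃ t, ∀ s, Tw G c s w → s = t := by
  by_cases ht : ∃ t, Tw G c t w
  · obtain ⟨t, ht⟩ := ht
    exact ⟨t, fun s hs => hs.symm.uniq h ht.symm⟩
  · exact ⟨w, fun s hs => (ht ⟨s, hs⟩).elim⟩

/-- sources at a black neighbour -/
theorem src_at (h : PF G c) {w w' s p : V} (hw : w ∈ Qs G c 0) (hm : MA G c w w')
    (hs : s ∈ Qs G c 0) (h1 : G.Adj w p) (h2 : G.Adj s p) : s = w ∨ s = w' ∨ Tw G c s w := by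
  rcases h.src hs hw h2 h1 with e | e | e
  · exact Or.inl e
  · exact Or.inr (Or.inl (nice_uniq h.nice (ma_of e.symm (Q0_W hw) (Q0_W hs)) hm))
  · exact Or.inr (Or.inr e)

/-- the sources blocked by a unit -/
theorem blk_U (h : PF G c) {b b' d d' α β y z : V} (hB : PBlk G c b b' d d' α β y z)
    (hb' : b' ∈ Qs G c 0) : blk G c {d, α, b'} ≤ 5 := by
  obtain ⟨t, ht⟩ := tw_ex h b'
  have hcard : (insert t ({b, b', d, d'} : Finset V)).card ≤ 5 :=
    (Finset.card_insert_le _ _).trans (Nat.succ_le_succ Finset.card_le_four)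
  refine (blk_le (S := insert t {b, b', d, d'}) ?_).trans hcard
  intro s hs hbl
  simp only [Finset.mem_insert, Finset.mem_singleton]
  have hcb := Q0_W hB.b0
  have hcd := Q0_W hB.d0
  rcases blk_mem h hs hbl with h1 | ⟨x, h1, h2, h3⟩
  · rcases zone_U h hB hb' h1 with e | e | e | e | e | ⟨e0, -⟩
    · exact Or.inr (Or.inl e)
    · exact Or.inr (Or.inr (Or.inl e))
    · exact Or.inr (Or.inr (Or.inr (Or.inl e)))
    · exact Or.inr (Or.inr (Or.inr (Or.inr e)))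
    · exact (Q0_W0 hs (e ▸ hB.y0)).elim
    · exact (WB (Q0_W hs) e0.1).elim
  · rcases zone_U h hB hb' h1 with e | e | e | e | e | ⟨e0, e | e⟩
    · exact (WB (e ▸ hcb) h2.1).elim
    · exact (WB (e ▸ Q0_W hb') h2.1).elim
    · exact (WB (e ▸ hcd) h2.1).elim
    · exact (WB (e ▸ MA_W hB.md hcd) h2.1).elim
    · exact (WB (e ▸ hB.y0.1) h2.1).elim
    · rcases src_at h hB.b0 hB.mb hs e h3 with e | e | e
      · exact Or.inr (Or.inl e)
      · exact Or.inr (Or.inr (Or.inl e))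
      · exact Or.inr (Or.inr (Or.inr (Or.inl (e.symm.uniq h hB.toBlk.tw))))
    · rcases src_at h hb' (ma_symm hB.mb) hs e h3 with e | e | e
      · exact Or.inr (Or.inr (Or.inl e))
      · exact Or.inr (Or.inl e)
      · exact Or.inl (ht s e)

/-- the zone of a double unit -/
theorem zone_DD (h : PF G c) {b b' d d' α β y z d₂ d₂' α₂ β₂ y₂ z₂ : V}
    (hB : PBlk G c b b' d d' α β y z) (hB₂ : PBlk G c b' b d₂ d₂' α₂ β₂ y₂ z₂)
    (hd' : d' ∈ Qs G c 0) {x : V} (hx : x ∈ Zn G c {b, α, d', d₂, α₂}) :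
    x = b ∨ x = b' ∨ x = d ∨ x = d' ∨ x = d₂ ∨ x = d₂' ∨ x = y ∨ x = y₂ ∨
      (IsB0 G c x ∧ (G.Adj b x ∨ G.Adj b' x ∨ G.Adj d' x)) := by
  have htw := hB₂.toBlk.tw.2.2.2.2
  rw [Zn_ins, Zn_ins, Zn_ins, Zn_ins, Finset.mem_union, Finset.mem_union, Finset.mem_union,
    Finset.mem_union] at hx
  rcases hx with hx | hx | hx | hx | hx
  · rcases Q0_zone h.nice hB.b0 hx with e | e | ⟨e1, e2⟩
    · exact Or.inl e
    · exact Or.inr (Or.inl (nice_uniq h.nice e hB.mb))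
    · exact Or.inr (Or.inr (Or.inr (Or.inr (Or.inr (Or.inr (Or.inr (Or.inr
        ⟨e2, Or.inl e1⟩)))))))
  · have hα := (hB.toBlk.bl h.nice).1
    rcases B0_zone hα hx with e | e | ⟨t, e1, e2⟩
    · subst e
      exact Or.inr (Or.inr (Or.inr (Or.inr (Or.inr (Or.inr (Or.inr (Or.inr
        ⟨hα, Or.inl hB.nb.adj.2.1⟩)))))))
    · rcases hB.nα.mem e with e | e | e
      · exact Or.inl e
      · exact Or.inr (Or.inr (Or.inl e))
      · exact Or.inr (Or.inr (Or.inr (Or.inr (Or.inr (Or.inr (Or.inl e))))))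
    · rcases hB.nα.mem e1 with e | e | e
      · subst e
        exact Or.inr (Or.inl (nice_uniq h.nice e2 hB.mb))
      · subst e
        exact Or.inr (Or.inr (Or.inr (Or.inl (nice_uniq h.nice e2 hB.md))))
      · subst e
        exact (md0_no hB.y0.2 e2).elim
  · rcases Q0_zone h.nice hd' hx with e | e | ⟨e1, e2⟩
    · exact Or.inr (Or.inr (Or.inr (Or.inl e)))
    · exact Or.inr (Or.inr (Or.inl (nice_uniq h.nice e (ma_symm hB.md))))
    · exact Or.inr (Or.inr (Or.inr (Or.inr (Or.inr (Or.inr (Or.inr (Or.inr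
        ⟨e2, Or.inr (Or.inr e1)⟩)))))))
  · rcases Q0_zone h.nice hB₂.d0 hx with e | e | ⟨e1, e2⟩
    · exact Or.inr (Or.inr (Or.inr (Or.inr (Or.inl e))))
    · exact Or.inr (Or.inr (Or.inr (Or.inr (Or.inr (Or.inl (nice_uniq h.nice e hB₂.md))))))
    · exact Or.inr (Or.inr (Or.inr (Or.inr (Or.inr (Or.inr (Or.inr (Or.inr
        ⟨e2, Or.inr (Or.inl ((htw x e2.1).2 e1))⟩)))))))
  · have hα := (hB₂.toBlk.bl h.nice).1
    rcases B0_zone hα hx with e | e | ⟨t, e1, e2⟩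
    · subst e
      exact Or.inr (Or.inr (Or.inr (Or.inr (Or.inr (Or.inr (Or.inr (Or.inr
        ⟨hα, Or.inr (Or.inl hB₂.nb.adj.2.1)⟩)))))))
    · rcases hB₂.nα.mem e with e | e | e
      · exact Or.inr (Or.inl e)
      · exact Or.inr (Or.inr (Or.inr (Or.inr (Or.inl e))))
      · exact Or.inr (Or.inr (Or.inr (Or.inr (Or.inr (Or.inr (Or.inr (Or.inl e)))))))
    · rcases hB₂.nα.mem e1 with e | e | e
      · subst e
        exact Or.inl (nice_uniq h.nice e2 hB₂.mb)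
      · subst e
        exact Or.inr (Or.inr (Or.inr (Or.inr (Or.inr (Or.inl (nice_uniq h.nice e2 hB₂.md))))))
      · subst e
        exact (md0_no hB₂.y0.2 e2).elim

/-- the slots killed by a double unit -/
theorem kill_DD (h : PF G c) (hA : NoA G c 2 F0)
    {b b' d d' α β y z d₂ d₂' α₂ β₂ y₂ z₂ g₁ g₂ e₁ e₂ : V}
    (hB : PBlk G c b b' d d' α β y z) (hB₂ : PBlk G c b' b d₂ d₂' α₂ β₂ y₂ z₂)
    (hd' : d' ∈ Qs G c 0) (hN : N3 G y α g₁ g₂) (hN₂ : N3 G y₂ α₂ e₁ e₂) :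
    AL G c F0 \ AL G c (F0 ∪ {b, α, d', d₂, α₂}) ⊆
      (TS G c F0 b ∪ TS G c F0 b' ∪ TS G c F0 d' ∪ DS G c F0 d₂' ∪ MT G c F0 d') ∪
        ((Cn G c F0 g₁ ∪ Cn G c F0 g₂) ∪ (Cn G c F0 e₁ ∪ Cn G c F0 e₂)) := by
  have hA1 : NoA G c 1 F0 := NoA_mono (by norm_num) hA
  have hdb : TS G c F0 d = TS G c F0 b := TS_tw h hB.toBlk.tw.symm
  have hdb₂ : TS G c F0 d₂ = TS G c F0 b' := TS_tw h hB₂.toBlk.tw.symm
  intro s hs
  obtain ⟨x, hx, hsx⟩ := Finset.mem_biUnion.1 (killed_sub h.nice F0 {b, α, d', d₂, α₂} hs)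
  simp only [Finset.mem_union]
  have kb : s ∈ TS G c F0 b → ((((s ∈ TS G c F0 b ∨ s ∈ TS G c F0 b') ∨ s ∈ TS G c F0 d') ∨
      s ∈ DS G c F0 d₂') ∨ s ∈ MT G c F0 d') ∨ (s ∈ Cn G c F0 g₁ ∨ s ∈ Cn G c F0 g₂) ∨
      s ∈ Cn G c F0 e₁ ∨ s ∈ Cn G c F0 e₂ :=
    fun e => Or.inl (Or.inl (Or.inl (Or.inl (Or.inl e))))
  have kb' : s ∈ TS G c F0 b' → ((((s ∈ TS G c F0 b ∨ s ∈ TS G c F0 b') ∨ s ∈ TS G c F0 d') ∨
      s ∈ DS G c F0 d₂') ∨ s ∈ MT G c F0 d') ∨ (s ∈ Cn G c F0 g₁ ∨ s ∈ Cn G c F0 g₂) ∨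
      s ∈ Cn G c F0 e₁ ∨ s ∈ Cn G c F0 e₂ :=
    fun e => Or.inl (Or.inl (Or.inl (Or.inl (Or.inr e))))
  have kd' : s ∈ TS G c F0 d' → ((((s ∈ TS G c F0 b ∨ s ∈ TS G c F0 b') ∨ s ∈ TS G c F0 d') ∨
      s ∈ DS G c F0 d₂') ∨ s ∈ MT G c F0 d') ∨ (s ∈ Cn G c F0 g₁ ∨ s ∈ Cn G c F0 g₂) ∨
      s ∈ Cn G c F0 e₁ ∨ s ∈ Cn G c F0 e₂ :=
    fun e => Or.inl (Or.inl (Or.inl (Or.inr e)))
  have kD : s ∈ DS G c F0 d₂' → ((((s ∈ TS G c F0 b ∨ s ∈ TS G c F0 b') ∨ s ∈ TS G c F0 d') ∨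
      s ∈ DS G c F0 d₂') ∨ s ∈ MT G c F0 d') ∨ (s ∈ Cn G c F0 g₁ ∨ s ∈ Cn G c F0 g₂) ∨
      s ∈ Cn G c F0 e₁ ∨ s ∈ Cn G c F0 e₂ :=
    fun e => Or.inl (Or.inl (Or.inr e))
  rcases zone_DD h hB hB₂ hd' hx with e | e | e | e | e | e | e | e | ⟨e0, e | e | e⟩
  · subst e
    rcases Finset.mem_union.1 (jzQ0_sub h hA1 hB.b0 hB.mb hsx) with e | e
    · exact kb e
    · exact kb' e
  · subst e
    rcases Finset.mem_union.1 (jzQ0_sub h hA1 hB₂.b0 (ma_symm hB.mb) hsx) with e | e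
    · exact kb' e
    · exact kb e
  · subst e
    rcases Finset.mem_union.1 (jzQ0_sub h hA1 hB.d0 hB.md hsx) with e | e
    · exact kb (hdb ▸ e)
    · exact kd' e
  · subst e
    rcases Finset.mem_union.1 (jzQ0_sub h hA1 hd' (ma_symm hB.md) hsx) with e | e
    · exact kd' e
    · exact kb (hdb ▸ e)
  · subst e
    rcases Finset.mem_union.1 (jzQ0_sub h hA1 hB₂.d0 hB₂.md hsx) with e | e
    · exact kb' (hdb₂ ▸ e)
    · exact kD (TS_sub_DS h.nice _ e)
  · subst e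
    rcases Finset.mem_union.1 (jz_sub_DS h hA1 hB₂.md hsx) with e | e
    · exact kD e
    · exact kb' (hdb₂ ▸ e)
  · subst e
    have := jz_W0_sub h hA1 hB.y0 hN hsx
    rw [Finset.mem_union, Finset.mem_union] at this
    rcases this with (e | e) | e
    · exact kb (cn_src h hA1 hB.b0 hB.mb hB.nb.adj.2.1
        (hB.toBlk.bl h.nice).1 (hB.nadj h.nice).1 e)
    · exact Or.inr (Or.inl (Or.inl e))
    · exact Or.inr (Or.inl (Or.inr e))
  · subst e
    have := jz_W0_sub h hA1 hB₂.y0 hN₂ hsx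
    rw [Finset.mem_union, Finset.mem_union] at this
    rcases this with (e | e) | e
    · exact kb' (cn_src h hA1 hB₂.b0 hB₂.mb hB₂.nb.adj.2.1
        (hB₂.toBlk.bl h.nice).1 (hB₂.nadj h.nice).1 e)
    · exact Or.inr (Or.inr (Or.inl e))
    · exact Or.inr (Or.inr (Or.inr e))
  · have := jzB0_sub h hA1 hB.b0 hB.mb e e0 (fun hh => hB.disj h.nice e hh) hsx
    rw [Finset.mem_union, Finset.mem_union] at this
    rcases this with (e | e) | e
    · exact kb e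
    · exact kb' e
    · exact kd' (MT_sub h hB.toBlk.tw.symm hB.md e)
  · have := jzB0_sub h hA1 hB₂.b0 (ma_symm hB.mb) e e0 (fun hh => hB.disj h.nice hh e) hsx
    rw [Finset.mem_union, Finset.mem_union] at this
    rcases this with (e | e) | e
    · exact kb' e
    · exact kb e
    · exact kD (TS_sub_DS h.nice _ (MT_sub h hB₂.toBlk.tw.symm hB₂.md e))
  · have := jzB0_sub h hA1 hd' (ma_symm hB.md) e e0 (fun hh => hB.symm.disj h.nice hh e) hsx
    rw [Finset.mem_union, Finset.mem_union] at this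
    rcases this with (e | e) | e
    · exact kd' e
    · exact kb (hdb ▸ e)
    · exact Or.inl (Or.inr e)

/-- the sources blocked by a double unit -/
theorem blk_DD (h : PF G c) {b b' d d' α β y z d₂ d₂' α₂ β₂ y₂ z₂ : V}
    (hB : PBlk G c b b' d d' α β y z) (hB₂ : PBlk G c b' b d₂ d₂' α₂ β₂ y₂ z₂)
    (hd' : d' ∈ Qs G c 0) : blk G c {b, α, d', d₂, α₂} ≤ 7 := by
  obtain ⟨t, ht⟩ := tw_ex h d'
  have hcard : (insert t (insert d₂ (insert d₂' ({b, b', d, d'} : Finset V)))).card ≤ 7 :=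
    (Finset.card_insert_le _ _).trans (Nat.succ_le_succ ((Finset.card_insert_le _ _).trans
      (Nat.succ_le_succ ((Finset.card_insert_le _ _).trans
        (Nat.succ_le_succ Finset.card_le_four)))))
  refine (blk_le (S := insert t (insert d₂ (insert d₂' {b, b', d, d'}))) ?_).trans hcard
  intro s hs hbl
  simp only [Finset.mem_insert, Finset.mem_singleton]
  have hcb := Q0_W hB.b0
  have hcd := Q0_W hB.d0
  rcases blk_mem h hs hbl with h1 | ⟨x, h1, h2, h3⟩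
  · rcases zone_DD h hB hB₂ hd' h1 with e | e | e | e | e | e | e | e | ⟨e0, -⟩
    · exact Or.inr (Or.inr (Or.inr (Or.inl e)))
    · exact Or.inr (Or.inr (Or.inr (Or.inr (Or.inl e))))
    · exact Or.inr (Or.inr (Or.inr (Or.inr (Or.inr (Or.inl e)))))
    · exact Or.inr (Or.inr (Or.inr (Or.inr (Or.inr (Or.inr e)))))
    · exact Or.inr (Or.inl e)
    · exact Or.inr (Or.inr (Or.inl e))
    · exact (Q0_W0 hs (e ▸ hB.y0)).elim
    · exact (Q0_W0 hs (e ▸ hB₂.y0)).elim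
    · exact (WB (Q0_W hs) e0.1).elim
  · rcases zone_DD h hB hB₂ hd' h1 with e | e | e | e | e | e | e | e | ⟨e0, e | e | e⟩
    · exact (WB (e ▸ hcb) h2.1).elim
    · exact (WB (e ▸ Q0_W hB₂.b0) h2.1).elim
    · exact (WB (e ▸ hcd) h2.1).elim
    · exact (WB (e ▸ Q0_W hd') h2.1).elim
    · exact (WB (e ▸ Q0_W hB₂.d0) h2.1).elim
    · exact (WB (e ▸ MA_W hB₂.md (Q0_W hB₂.d0)) h2.1).elim
    · exact (WB (e ▸ hB.y0.1) h2.1).elim
    · exact (WB (e ▸ hB₂.y0.1) h2.1).elim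
    · rcases src_at h hB.b0 hB.mb hs e h3 with e | e | e
      · exact Or.inr (Or.inr (Or.inr (Or.inl e)))
      · exact Or.inr (Or.inr (Or.inr (Or.inr (Or.inl e))))
      · exact Or.inr (Or.inr (Or.inr (Or.inr (Or.inr (Or.inl
          (e.symm.uniq h hB.toBlk.tw))))))
    · rcases src_at h hB₂.b0 hB₂.mb hs e h3 with e | e | e
      · exact Or.inr (Or.inr (Or.inr (Or.inr (Or.inl e))))
      · exact Or.inr (Or.inr (Or.inr (Or.inl e)))
      · exact Or.inr (Or.inl (e.symm.uniq h hB₂.toBlk.tw))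
    · rcases src_at h hd' (ma_symm hB.md) hs e h3 with e | e | e
      · exact Or.inr (Or.inr (Or.inr (Or.inr (Or.inr (Or.inr e)))))
      · exact Or.inr (Or.inr (Or.inr (Or.inr (Or.inr (Or.inl e)))))
      · exact Or.inl (ht s e)

theorem absorb1 {α : Type} [DecidableEq α] {S B C : Finset α} (hC : C.card ≤ 1 ∨ C ⊆ B)
    (h : S ⊆ B ∪ C) : S.card ≤ B.card + 1 := by
  rcases hC with hC | hC
  · exact (Finset.card_le_card h).trans ((Finset.card_union_le _ _).trans (by omega))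
  · rw [Finset.union_eq_left.2 hC] at h
    exact (Finset.card_le_card h).trans (by omega)

theorem absorb2 {α : Type} [DecidableEq α] {S B C D : Finset α} (hC : C.card ≤ 1 ∨ C ⊆ B)
    (hD : D.card ≤ 1 ∨ D ⊆ B) (h : S ⊆ B ∪ (C ∪ D)) : S.card ≤ B.card + 2 := by
  have h1 : S.card ≤ (B ∪ C).card + 1 := by
    refine absorb1 (C := D) ?_ (by rw [Finset.union_assoc]; exact h)
    rcases hD with hD | hD
    · exact Or.inl hD
    · exact Or.inr (hD.trans Finset.subset_union_left)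
  have h2 : (B ∪ C).card ≤ B.card + 1 := absorb1 hC (Finset.Subset.refl _)
  omega

theorem absorb4 {α : Type} [DecidableEq α] {S B C D C' D' : Finset α}
    (hC : C.card ≤ 1 ∨ C ⊆ B) (hD : D.card ≤ 1 ∨ D ⊆ B) (hC' : C'.card ≤ 1 ∨ C' ⊆ B)
    (hD' : D'.card ≤ 1 ∨ D' ⊆ B) (h : S ⊆ B ∪ ((C ∪ D) ∪ (C' ∪ D'))) :
    S.card ≤ B.card + 4 := by
  have h1 : S.card ≤ (B ∪ (C ∪ D)).card + 2 := by
    refine absorb2 (C := C') (D := D') ?_ ?_ (by rw [Finset.union_assoc]; exact h)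
    · rcases hC' with hC' | hC'
      · exact Or.inl hC'
      · exact Or.inr (hC'.trans Finset.subset_union_left)
    · rcases hD' with hD' | hD'
      · exact Or.inl hD'
      · exact Or.inr (hD'.trans Finset.subset_union_left)
  have h2 : (B ∪ (C ∪ D)).card ≤ B.card + 2 := absorb2 hC hD (Finset.Subset.refl _)
  omega

/-- the number of slots killed by a unit -/
theorem kill_U_card (h : PF G c) (hA : NoA G c 2 F0) {b b' d d' α β y z : V}
    (hB : PBlk G c b b' d d' α β y z) (hb' : b' ∈ Qs G c 0) {n₁ n₂ n₃ n₄ : ℕ}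
    (h1 : (TS G c F0 b).card ≤ n₁) (h2 : (TS G c F0 b').card ≤ n₂)
    (h3 : (DS G c F0 d').card ≤ n₃) (h4 : (MT G c F0 b').card ≤ n₄) :
    (AL G c F0 \ AL G c (F0 ∪ {d, α, b'})).card ≤ n₁ + n₂ + n₃ + n₄ + 2 := by
  obtain ⟨g₁, g₂, hN⟩ := N3_of1 h.cub hB.nα.adj.2.2.symm
  have habs : ∀ g, G.Adj y g → g ≠ α → (Cn G c F0 g).card ≤ 1 ∨ Cn G c F0 g ⊆
      (TS G c F0 b ∪ TS G c F0 b' ∪ DS G c F0 d' ∪ MT G c F0 b') := by
    intro g hg hne
    rcases cn_outer h hA hB hg hne with e | ⟨e, -⟩ | ⟨e, -⟩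
    · exact Or.inl e
    · refine Or.inr fun x hx => ?_
      simp only [Finset.mem_union]
      exact Or.inl (Or.inl (Or.inr (e hx)))
    · refine Or.inr fun x hx => ?_
      simp only [Finset.mem_union]
      exact Or.inl (Or.inr (TS_sub_DS h.nice _ (e hx)))
  have h5 := absorb2 (habs g₁ hN.adj.2.1 hN.1.symm) (habs g₂ hN.adj.2.2 hN.2.1.symm)
    (kill_U h hA hB hb' hN)
  have h6 := Finset.card_union_le (TS G c F0 b ∪ TS G c F0 b' ∪ DS G c F0 d') (MT G c F0 b')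
  have h7 := Finset.card_union_le (TS G c F0 b ∪ TS G c F0 b') (DS G c F0 d')
  have h8 := Finset.card_union_le (TS G c F0 b) (TS G c F0 b')
  omega

/-- a unit step -/
theorem step_U (h : PF G c) {b b' d d' α β y z : V}
    (hB : PBlk G c b b' d d' α β y z) (hb' : b' ∈ Qs G c 0) (zd : ZD G c {d} F0)
    (zα : ZD G c {α} F0) (zb' : ZD G c {b'} F0) {r : ℕ} (hr : 1 ≤ r)
    (hk : 1 = r ∨ (AL G c F0 \ AL G c (F0 ∪ {d, α, b'})).card ≤ 12) : Step G c F0 r := by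
  refine ⟨{d, α, b'}, 1, 0, le_refl 1, hr, ZD_ins.2 ⟨zd, ZD_ins.2 ⟨zα, zb'⟩⟩, ?_, ?_, ?_⟩
  · have := h.u _ _ _ _ _ _ _ _ hB hb'
    have e : ((-2 * (((1 : ℕ) : ℤ) - ((0 : ℕ) : ℤ)), ((0 : ℕ) : ℤ), (0 : ℤ)) : ℤ × ℤ × ℤ) =
        (-2, 0, 0) := by norm_num
    rw [e]
    exact this
  · have := blk_U h hB hb'
    omega
  · rcases hk with hk | hk
    · exact Or.inl hk
    · exact Or.inr (by omega)

/-- a double unit step -/
theorem step_DD (h : PF G c) (hA : NoA G c 2 F0) {b b' d d' α β y z d₂ d₂' α₂ β₂ y₂ z₂ : V}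
    (hB : PBlk G c b b' d d' α β y z) (hB₂ : PBlk G c b' b d₂ d₂' α₂ β₂ y₂ z₂)
    (hy : y ≠ y₂) (hne : d' ≠ d₂) (hd' : d' ∈ Qs G c 0) (zb : ZD G c {b} F0)
    (zα : ZD G c {α} F0) (zd' : ZD G c {d'} F0) (zd₂ : ZD G c {d₂} F0)
    (zα₂ : ZD G c {α₂} F0) {r : ℕ} (hr : 2 ≤ r) : Step G c F0 r := by
  refine ⟨{b, α, d', d₂, α₂}, 2, 1, by norm_num, hr,
    ZD_ins.2 ⟨zb, ZD_ins.2 ⟨zα, ZD_ins.2 ⟨zd', ZD_ins.2 ⟨zd₂, zα₂⟩⟩⟩⟩, ?_, ?_, Or.inr ?_⟩
  · have := h.dd _ _ _ _ _ _ _ _ _ _ _ _ _ _ hB hB₂ hy hne hd'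
    have e : ((-2 * (((2 : ℕ) : ℤ) - ((1 : ℕ) : ℤ)), ((1 : ℕ) : ℤ), (0 : ℤ)) : ℤ × ℤ × ℤ) =
        (-2, 1, 0) := by norm_num
    rw [e]
    exact this
  · have := blk_DD h hB hB₂ hd'
    omega
  · obtain ⟨g₁, g₂, hN⟩ := N3_of1 h.cub hB.nα.adj.2.2.symm
    obtain ⟨e₁, e₂, hN₂⟩ := N3_of1 h.cub hB₂.nα.adj.2.2.symm
    have habs : ∀ g, G.Adj y g → g ≠ α → (Cn G c F0 g).card ≤ 1 ∨ Cn G c F0 g ⊆
        (TS G c F0 b ∪ TS G c F0 b' ∪ TS G c F0 d' ∪ DS G c F0 d₂' ∪ MT G c F0 d') := by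
      intro g hg hne
      rcases cn_outer h hA hB hg hne with e | ⟨e, -⟩ | ⟨e, -⟩
      · exact Or.inl e
      · refine Or.inr fun x hx => ?_
        simp only [Finset.mem_union]
        exact Or.inl (Or.inl (Or.inl (Or.inr (e hx))))
      · refine Or.inr fun x hx => ?_
        simp only [Finset.mem_union]
        exact Or.inl (Or.inl (Or.inr (e hx)))
    have habs₂ : ∀ g, G.Adj y₂ g → g ≠ α₂ → (Cn G c F0 g).card ≤ 1 ∨ Cn G c F0 g ⊆
        (TS G c F0 b ∪ TS G c F0 b' ∪ TS G c F0 d' ∪ DS G c F0 d₂' ∪ MT G c F0 d') := by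
      intro g hg hne
      rcases cn_outer h hA hB₂ hg hne with e | ⟨e, -⟩ | ⟨e, -⟩
      · exact Or.inl e
      · refine Or.inr fun x hx => ?_
        simp only [Finset.mem_union]
        exact Or.inl (Or.inl (Or.inl (Or.inl (e hx))))
      · refine Or.inr fun x hx => ?_
        simp only [Finset.mem_union]
        exact Or.inl (Or.inr (TS_sub_DS h.nice _ (e hx)))
    have h5 := absorb4 (habs g₁ hN.adj.2.1 hN.1.symm) (habs g₂ hN.adj.2.2 hN.2.1.symm)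
      (habs₂ e₁ hN₂.adj.2.1 hN₂.1.symm) (habs₂ e₂ hN₂.adj.2.2 hN₂.2.1.symm)
      (kill_DD h hA hB hB₂ hd' hN hN₂)
    have h6 := Finset.card_union_le
      (TS G c F0 b ∪ TS G c F0 b' ∪ TS G c F0 d' ∪ DS G c F0 d₂') (MT G c F0 d')
    have h7 := Finset.card_union_le (TS G c F0 b ∪ TS G c F0 b' ∪ TS G c F0 d') (DS G c F0 d₂')
    have h8 := Finset.card_union_le (TS G c F0 b ∪ TS G c F0 b') (TS G c F0 d')
    have h9 := Finset.card_union_le (TS G c F0 b) (TS G c F0 b')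
    have i1 := TS_card h (F0 := F0) b
    have i2 := TS_card h (F0 := F0) b'
    have i3 := TS_card h (F0 := F0) d'
    have i4 := MT_card h (F0 := F0) d'
    have i5 : (DS G c F0 d₂').card ≤ 4 := by
      by_cases hh : d₂' ∈ Qs G c 0
      · exact DS_card4 h hh
      · have := hB₂.DS_card h (NoA_mono (by norm_num) hA) hh (F0 := F0)
        omega
    omega

end

end Pool.Agent.Work.MP_1e13ac_W
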