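import Pool.Agent.Work.MP_1e13ac_W.PkS0a
import Pool.Agent.Work.MP_1e13ac_W.PkS3c

/-!
# MP_1e13ac_co, World 2: stage 0 (EX1) (helper10)

`F = K = {b, α, y, h}` gives the helper H3; together with one token T3 this is one unit.
At most two sources are blocked and at most 11 slots are killed.
-/

set_option autoImplicit false
set_option linter.unusedSectionVars false

namespace Pool.Agent.Work.MP_1e13ac_W

open Classical Finset Pool.Agent.Work.MP_1e13ac_Bis

noncomputable section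

variable {V : Type} [Fintype V] {G : SimpleGraph V} {c : V → Bool} {F0 : Finset V}

/-- the configuration EX1 -/
structure ExC (G : SimpleGraph V) (c : V → Bool) (b b' d d' α β y z h p : V) : Prop where
  B : PBlk G c b b' d d' α β y z
  b0 : b' ∉ Qs G c 0
  d0 : d' ∉ Qs G c 0
  h1 : IsB1 G c h
  hy : G.Adj h y
  hb : G.Adj h b'
  p0 : IsB0 G c p
  py : G.Adj p y
  pb : G.Adj p b'

theorem ExC.nosrc (hP : PF G c) {b b' d d' α β y z h p : V}
    (E : ExC G c b b' d d' α β y z h p) {s : V} (hs : s ∈ Qs G c 0) : ¬ G.Adj s p :=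
  hP.ex1 _ _ _ _ _ _ _ _ _ _ _ E.B E.b0 E.d0 E.h1 E.hy E.hb E.p0 E.py E.pb hs

theorem ExC.α0 (hP : PF G c) {b b' d d' α β y z h p : V}
    (E : ExC G c b b' d d' α β y z h p) : IsB0 G c α := (E.B.toBlk.bl hP.nice).1

theorem ExC.β0 (hP : PF G c) {b b' d d' α β y z h p : V}
    (E : ExC G c b b' d d' α β y z h p) : IsB0 G c β := (E.B.toBlk.bl hP.nice).2

theorem ExC.Wb' {b b' d d' α β y z h p : V}
    (E : ExC G c b b' d d' α β y z h p) : c b' = true := MA_W E.B.mb (Q0_W E.B.b0)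

theorem ExC.Wd' {b b' d d' α β y z h p : V}
    (E : ExC G c b b' d d' α β y z h p) : c d' = true := MA_W E.B.md (Q0_W E.B.d0)

theorem ExC.b'1 (hP : PF G c) {b b' d d' α β y z h p : V}
    (E : ExC G c b b' d d' α β y z h p) : b' ∈ Qs G c 1 :=
  Q1_of hP.cub hP.nice (W1_of_MA hP.nice (ma_symm E.B.mb) E.Wb') E.pb.symm E.p0 E.b0

theorem ExC.d'1 (hP : PF G c) {b b' d d' α β y z h p : V}
    (E : ExC G c b b' d d' α β y z h p) : IsW1 G c d' :=
  W1_of_MA hP.nice (ma_symm E.B.md) E.Wd'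

theorem ExC.Ny (hP : PF G c) {b b' d d' α β y z h p : V}
    (E : ExC G c b b' d d' α β y z h p) : N3 G y α h p := by
  refine N3_of3 hP.cub E.B.nα.adj.2.2.symm E.hy.symm E.py.symm ?_ ?_ ?_
  · rintro rfl
    exact B0_not_B1 (E.α0 hP) E.h1
  · rintro rfl
    exact E.nosrc hP E.B.b0 E.B.nb.adj.2.1
  · rintro rfl
    exact B0_not_B1 E.p0 E.h1

theorem ExC.Nb' (hP : PF G c) {b b' d d' α β y z h p : V}
    (E : ExC G c b b' d d' α β y z h p) : N3 G b' b h p := by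
  refine N3_of3 hP.cub E.B.mb.1.symm E.hb.symm E.pb.symm ?_ ?_ ?_
  · rintro rfl
    exact WB (Q0_W E.B.b0) E.h1.1
  · rintro rfl
    exact WB (Q0_W E.B.b0) E.p0.1
  · rintro rfl
    exact B0_not_B1 E.p0 E.h1

theorem ExC.noHb (hP : PF G c) {b b' d d' α β y z h p : V}
    (E : ExC G c b b' d d' α β y z h p) : NoH G c b' := by
  intro u _ _ _ _ hH
  exact (E.B.no_house hP hH).1 (nice_uniq hP.nice (ma_symm hH.1.mb) (ma_symm E.B.mb))

theorem ExC.noHd (hP : PF G c) {b b' d d' α β y z h p : V}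
    (E : ExC G c b b' d d' α β y z h p) : NoH G c d' := by
  intro u _ _ _ _ hH
  exact (E.B.no_house hP hH).2 (nice_uniq hP.nice (ma_symm hH.1.mb) (ma_symm E.B.md))

/-- the mate of `h` -/
theorem ExC.mate (hP : PF G c) {b b' d d' α β y z h p : V}
    (E : ExC G c b b' d d' α β y z h p) : ∃ h', MA G c h h' ∧ N3 G h y b' h' := by
  have hne : y ≠ b' := by
    rintro rfl
    exact Q1_W0 (E.b'1 hP) E.B.y0
  obtain ⟨h', hN⟩ := N3_of hP.cub E.hy E.hb hne
  obtain ⟨m, hm⟩ := md1_ex E.h1.2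
  refine ⟨h', ?_, hN⟩
  rcases hN.mem hm.1 with e | e | e
  · subst e
    exact (WB E.B.y0.1 (MA_B hm E.h1.1)).elim
  · subst e
    exact (WB E.Wb' (MA_B hm E.h1.1)).elim
  · exact e ▸ hm

/-- sources at `α` or `β` -/
theorem ExC.srcα (hP : PF G c) {b b' d d' α β y z h p : V}
    (E : ExC G c b b' d d' α β y z h p) {s : V} (hs : s ∈ Qs G c 0)
    (h1 : G.Adj s α ∨ G.Adj s β) : s = b ∨ s = d := by
  rcases h1 with h1 | h1
  · rcases E.B.nα.mem h1.symm with e | e | e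
    · exact Or.inl e
    · exact Or.inr e
    · exact (Q0_W0 hs (e ▸ E.B.y0)).elim
  · rcases E.B.nβ.mem h1.symm with e | e | e
    · exact Or.inl e
    · exact Or.inr e
    · exact (Q0_W0 hs (e ▸ E.B.z0)).elim

/-- vertices in the zone of one vertex -/
theorem Zn_one {x t : V} (ht : t ∈ Zn G c {x}) :
    t = x ∨ G.Adj x t ∨ ∃ u, (u = x ∨ G.Adj x u) ∧ MA G c u t := by
  have hN : ∀ t, t ∈ NF G {x} → t = x ∨ G.Adj x t := by
    intro t ht
    rcases mem_NF.1 ht with h1 | ⟨f, hf, h1⟩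
    · exact Or.inl (by simpa using h1)
    · have hfx : f = x := by simpa using hf
      subst hfx
      exact Or.inr h1
  rcases mem_Zn.1 ht with h1 | ⟨u, hu, h1⟩
  · rcases hN t h1 with e | e
    · exact Or.inl e
    · exact Or.inr (Or.inl e)
  · exact Or.inr (Or.inr ⟨u, hN u hu, h1⟩)

/-- the zone of the core -/
theorem ExC.zone (hP : PF G c) {b b' d d' α β y z h p h' : V}
    (E : ExC G c b b' d d' α β y z h p) (hm : MA G c h h') (hN : N3 G h y b' h') {x : V}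
    (hx : x ∈ Zn G c {b, α, y, h}) : x = b ∨ x = b' ∨ x = d ∨ x = d' ∨ x = α ∨ x = β ∨ x = y ∨
      x = p ∨ x = h ∨ x = h' := by
  rw [Zn_ins, Zn_ins, Zn_ins, Finset.mem_union, Finset.mem_union, Finset.mem_union] at hx
  rcases hx with hx | hx | hx | hx
  · rcases Q0_zone hP.nice E.B.b0 hx with e | e | ⟨e1, e2⟩
    · exact Or.inl e
    · exact Or.inr (Or.inl (nice_uniq hP.nice e E.B.mb))
    · rcases E.B.nb.mem e1 with e | e | e
      · exact Or.inr (Or.inl e)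
      · exact Or.inr (Or.inr (Or.inr (Or.inr (Or.inl e))))
      · exact Or.inr (Or.inr (Or.inr (Or.inr (Or.inr (Or.inl e)))))
  · rcases B0_zone (E.α0 hP) hx with e | e | ⟨t, e1, e2⟩
    · exact Or.inr (Or.inr (Or.inr (Or.inr (Or.inl e))))
    · rcases E.B.nα.mem e with e | e | e
      · exact Or.inl e
      · exact Or.inr (Or.inr (Or.inl e))
      · exact Or.inr (Or.inr (Or.inr (Or.inr (Or.inr (Or.inr (Or.inl e))))))
    · rcases E.B.nα.mem e1 with e | e | e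
      · subst e
        exact Or.inr (Or.inl (nice_uniq hP.nice e2 E.B.mb))
      · subst e
        exact Or.inr (Or.inr (Or.inr (Or.inl (nice_uniq hP.nice e2 E.B.md))))
      · subst e
        exact (md0_no E.B.y0.2 e2).elim
  · rcases Zn_one hx with e | e | ⟨u, hu, hut⟩
    · exact Or.inr (Or.inr (Or.inr (Or.inr (Or.inr (Or.inr (Or.inl e))))))
    · rcases (E.Ny hP).mem e with e | e | e
      · exact Or.inr (Or.inr (Or.inr (Or.inr (Or.inl e))))
      · exact Or.inr (Or.inr (Or.inr (Or.inr (Or.inr (Or.inr (Or.inr (Or.inr (Or.inl e))))))))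
      · exact Or.inr (Or.inr (Or.inr (Or.inr (Or.inr (Or.inr (Or.inr (Or.inl e)))))))
    · rcases hu with e | e
      · subst e
        exact (md0_no E.B.y0.2 hut).elim
      · rcases (E.Ny hP).mem e with e | e | e
        · subst e
          exact (md0_no (E.α0 hP).2 hut).elim
        · subst e
          exact Or.inr (Or.inr (Or.inr (Or.inr (Or.inr (Or.inr (Or.inr (Or.inr (Or.inr
            (nice_uniq hP.nice hut hm)))))))))
        · subst e
          exact (md0_no E.p0.2 hut).elim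
  · rcases Zn_one hx with e | e | ⟨u, hu, hut⟩
    · exact Or.inr (Or.inr (Or.inr (Or.inr (Or.inr (Or.inr (Or.inr (Or.inr (Or.inl e))))))))
    · rcases hN.mem e with e | e | e
      · exact Or.inr (Or.inr (Or.inr (Or.inr (Or.inr (Or.inr (Or.inl e))))))
      · exact Or.inr (Or.inl e)
      · exact Or.inr (Or.inr (Or.inr (Or.inr (Or.inr (Or.inr (Or.inr (Or.inr (Or.inr e))))))))
    · rcases hu with e | e
      · subst e
        exact Or.inr (Or.inr (Or.inr (Or.inr (Or.inr (Or.inr (Or.inr (Or.inr (Or.inr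
            (nice_uniq hP.nice hut hm)))))))))
      · rcases hN.mem e with e | e | e
        · subst e
          exact (md0_no E.B.y0.2 hut).elim
        · subst e
          exact Or.inl (nice_uniq hP.nice hut (ma_symm E.B.mb))
        · subst e
          exact Or.inr (Or.inr (Or.inr (Or.inr (Or.inr (Or.inr (Or.inr (Or.inr (Or.inl
            (nice_uniq hP.nice hut (ma_symm hm))))))))))

/-- the sources blocked by the core -/
theorem ExC.blk (hP : PF G c) {b b' d d' α β y z h p : V}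
    (E : ExC G c b b' d d' α β y z h p) : blk G c {b, α, y, h} ≤ 2 := by
  obtain ⟨h', hm, hN⟩ := E.mate hP
  refine (blk_le (S := {b, d}) ?_).trans Finset.card_le_two
  intro s hs hbl
  rw [Finset.mem_insert, Finset.mem_singleton]
  have hB1 : IsB1 G c h' := B1_of_MA hP.nice (ma_symm hm) (MA_B hm E.h1.1)
  rcases blk_mem hP hs hbl with h1 | ⟨x, h1, h2, h3⟩
  · rcases E.zone hP hm hN h1 with e | e | e | e | e | e | e | e | e | e
    · exact Or.inl e
    · exact (E.b0 (e ▸ hs)).elim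
    · exact Or.inr e
    · exact (E.d0 (e ▸ hs)).elim
    · exact (WB (Q0_W hs) (e ▸ (E.α0 hP).1)).elim
    · exact (WB (Q0_W hs) (e ▸ (E.β0 hP).1)).elim
    · exact (Q0_W0 hs (e ▸ E.B.y0)).elim
    · exact (WB (Q0_W hs) (e ▸ E.p0.1)).elim
    · exact (WB (Q0_W hs) (e ▸ E.h1.1)).elim
    · exact (WB (Q0_W hs) (e ▸ hB1.1)).elim
  · rcases E.zone hP hm hN h1 with e | e | e | e | e | e | e | e | e | e
    · exact (WB (Q0_W E.B.b0) (e ▸ h2.1)).elim
    · exact (WB E.Wb' (e ▸ h2.1)).elim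
    · exact (WB (Q0_W E.B.d0) (e ▸ h2.1)).elim
    · exact (WB E.Wd' (e ▸ h2.1)).elim
    · exact E.srcα hP hs (Or.inl (e ▸ h3))
    · exact E.srcα hP hs (Or.inr (e ▸ h3))
    · exact (WB E.B.y0.1 (e ▸ h2.1)).elim
    · exact (E.nosrc hP hs (e ▸ h3)).elim
    · exact (B0_not_B1 h2 (e ▸ E.h1)).elim
    · exact (B0_not_B1 h2 (e ▸ hB1)).elim

/-- an alive core is of type EX1 or not -/
theorem Cor.split {s : V × V} {K : Finset V} (hK : Cor G c F0 s K) : NC G c F0 s K ∨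
    ∃ b b' d d' β y z h p, ExC G c b b' d d' s.2 β y z h p ∧ (s.1 = b ∨ s.1 = d) ∧
      K = {b, s.2, y, h} := by
  obtain ⟨w, a⟩ := s
  obtain ⟨⟨n, h1⟩ | h1, hz⟩ := hK
  · by_cases hn : 1 ≤ n
    · exact Or.inl ⟨Or.inl ⟨n, hn, h1⟩, hz⟩
    · have hn0 : n = 0 := by omega
      subst hn0
      cases h1 with
      | ex1 b b' d d' α β y z h p w hB hb0 hd0 hh1 hhy hhb hp0 hpy hpb hw =>
        exact Or.inr ⟨b, b', d, d', β, y, z, h, p, ⟨hB, hb0, hd0, hh1, hhy, hhb, hp0, hpy, hpb⟩,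
          hw, rfl⟩
  · exact Or.inl ⟨Or.inr h1, hz⟩

/-- the slots at `h'` which are not of type EX1 -/
def RQ (G : SimpleGraph V) (c : V → Bool) (F0 : Finset V) (h' : V) : Finset (V × V) :=
  univ.filter fun s => ∃ v ∈ Qs G c 1, G.Adj h' v ∧ s ∈ CnN G c F0 v

/-- the slots of type EX1 with `h = h'` -/
def EXs (G : SimpleGraph V) (c : V → Bool) (h' : V) : Finset (V × V) :=
  univ.filter fun s => ∃ b b' d d' β y z p, ExC G c b b' d d' s.2 β y z h' p ∧
    (s.1 = b ∨ s.1 = d)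

theorem mem_RQ {h' : V} {s : V × V} : s ∈ RQ G c F0 h' ↔
    ∃ v ∈ Qs G c 1, G.Adj h' v ∧ s ∈ CnN G c F0 v := by simp [RQ]

theorem mem_EXs {h' : V} {s : V × V} : s ∈ EXs G c h' ↔
    ∃ b b' d d' β y z p, ExC G c b b' d d' s.2 β y z h' p ∧ (s.1 = b ∨ s.1 = d) := by
  simp [EXs]

/-- a slot is not at `b'` (EX1) -/
theorem ExC.cnb' (hP : PF G c) {b b' d d' α β y z h p : V}
    (E : ExC G c b b' d d' α β y z h p) {s : V × V} (hs : s ∈ CnN G c F0 b') : False := by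
  obtain ⟨K, hK, -⟩ := mem_CnN.1 hs
  have hsl := hK.cor.slot hP.nice
  rcases cn_Q1N hP.nice (E.b'1 hP) hs with e | ⟨_, _, _, _, _, hH, -⟩
  · rcases (E.Nb' hP).mem e with e | e | e
    · exact WB (Q0_W E.B.b0) (e ▸ hsl.2.2.1)
    · exact B0_not_B1 hsl.2.2 (e ▸ E.h1)
    · exact E.nosrc hP hsl.1 (e ▸ hsl.2.1)
  · exact E.noHb hP _ _ _ _ _ hH

/-- two configurations EX1 with the same `h` -/
theorem ExC.same (hP : PF G c) {b b' d d' α β y z h p b₂ b₂' d₂ d₂' α₂ β₂ y₂ z₂ p₂ : V}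
    (E : ExC G c b b' d d' α β y z h p) (E₂ : ExC G c b₂ b₂' d₂ d₂' α₂ β₂ y₂ z₂ h p₂) :
    b₂ = b ∧ d₂ = d ∧ α₂ = α ∧ y₂ = y := by
  obtain ⟨h', hm, hN⟩ := E.mate hP
  have hB1 : IsB1 G c h' := B1_of_MA hP.nice (ma_symm hm) (MA_B hm E.h1.1)
  have ey : y₂ = y := by
    rcases hN.mem E₂.hy with e | e | e
    · exact e
    · exact (Q1_W0 (E.b'1 hP) (e ▸ E₂.B.y0)).elim
    · exact (WB E₂.B.y0.1 (e ▸ hB1.1)).elim
  have eb' : b₂' = b' := by
    rcases hN.mem E₂.hb with e | e | e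
    · exact (Q1_W0 (E₂.b'1 hP) (e ▸ E.B.y0)).elim
    · exact e
    · exact (WB E₂.Wb' (e ▸ hB1.1)).elim
  subst ey
  subst eb'
  have eb : b₂ = b := nice_uniq hP.nice (ma_symm E₂.B.mb) (ma_symm E.B.mb)
  subst eb
  have ed : d₂ = d := E₂.B.toBlk.tw.uniq hP E.B.toBlk.tw
  subst ed
  refine ⟨rfl, rfl, ?_, rfl⟩
  rcases (E.Ny hP).mem E₂.B.nα.adj.2.2.symm with e | e | e
  · exact e
  · exact (B0_not_B1 (E₂.α0 hP) (e ▸ E.h1)).elim
  · exact (E.nosrc hP E.B.b0 (e ▸ E₂.B.nb.adj.2.1)).elim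

/-- the slots at `h'` -/
theorem RE_card (hP : PF G c) {h h' : V} (hm : MA G c h h') (hb : IsB1 G c h) :
    (RQ G c F0 h' ∪ EXs G c h').card ≤ 4 := by
  have hB1 : IsB1 G c h' := B1_of_MA hP.nice (ma_symm hm) (MA_B hm hb.1)
  by_cases h0 : EXs G c h' = ∅
  · rw [h0, Finset.union_empty]
    by_cases hH : ∃ v₁ ∈ Qs G c 1, G.Adj h' v₁ ∧ ∃ b₁ d₁ d₁' α₁ β₁, House G c b₁ v₁ d₁ d₁' α₁ β₁
    · obtain ⟨v₁, hv₁, hav, b₁, d₁, d₁', α₁, β₁, hH⟩ := hH
      refine (Finset.card_le_card ?_).trans (TS_card hP (F0 := F0) b₁)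
      intro s hs
      obtain ⟨v, hv, hvh, hsv⟩ := mem_RQ.1 hs
      obtain ⟨K, hK, -⟩ := mem_CnN.1 hsv
      have hsl := hK.cor.slot hP.nice
      have hvv : v = v₁ := by
        by_contra hne
        have h1 := hP.rule1 h' v v₁ hB1 hvh hav hne (mem_Qs.1 hv).1 (mem_Qs.1 hv₁).1
        have h2 : v = b₁ := nice_uniq hP.nice (ma_of h1.symm (Q1_W hv₁) (Q1_W hv))
          (ma_symm hH.1.mb)
        exact Q0_Q1 hH.1.b0 (h2 ▸ hv)
      subst hvv
      have fin : s.1 = b₁ ∨ s.1 = d₁ → s ∈ TS G c F0 b₁ := by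
        rintro (e | e)
        · exact mem_TS.2 ⟨Or.inl e, K, hK.cor⟩
        · exact mem_TS.2 ⟨Or.inr (e ▸ hH.1.tw.symm), K, hK.cor⟩
      rcases cn_Q1N hP.nice hv hsv with e | ⟨b₂, d₂, d₂', α₂, β₂, hH₂, h1, -⟩
      · have e2 : s.2 = α₁ := Q1_B0 hP.cub hP.nice hv e hsl.2.2 hH.2.1.adj.2.2.symm
          (hH.1.bl hP.nice).1
        rcases hH.2.1.mem (e2 ▸ hsl.2.1.symm) with e3 | e3 | e3
        · exact fin (Or.inl e3)
        · exact fin (Or.inr e3)
        · exact (Q0_Q1 hsl.1 (e3 ▸ hv)).elim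
      · have e1 : b₂ = b₁ := nice_uniq hP.nice (ma_symm hH₂.1.mb) (ma_symm hH.1.mb)
        subst e1
        rcases h1 with e | e
        · exact fin (Or.inl e)
        · exact fin (Or.inr (e.trans (hH₂.1.tw.uniq hP hH.1.tw)))
    · obtain ⟨k₁, k₂, hN⟩ := N3_of1 hP.cub hm.1.symm
      have key : ∀ k, G.Adj h' k →
          ((univ.filter fun s : V × V => k ∈ Qs G c 1 ∧ s ∈ CnN G c F0 k).card ≤ 2) := by
        intro k hk
        by_cases hk1 : k ∈ Qs G c 1
        · obtain ⟨k', ν, g, hmk, hNk, hν, hg⟩ := Q1_N3 hP.cub hP.nice hk1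
          obtain ⟨t₁, t₂, hNν⟩ := N3_of1 hP.cub hNk.adj.2.1.symm
          refine (Finset.card_le_card (t := {(t₁, ν), (t₂, ν)}) ?_).trans Finset.card_le_two
          intro s hs
          obtain ⟨-, -, hs⟩ := Finset.mem_filter.1 hs
          obtain ⟨K, hK, -⟩ := mem_CnN.1 hs
          have hsl := hK.cor.slot hP.nice
          rcases cn_Q1N hP.nice hk1 hs with e | ⟨b₂, d₂, d₂', α₂, β₂, hH₂, -⟩
          · have e2 : s.2 = ν := Q1_B0 hP.cub hP.nice hk1 e hsl.2.2 hNk.adj.2.1 hν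
            rw [Finset.mem_insert, Finset.mem_singleton]
            rcases hNν.mem (e2 ▸ hsl.2.1.symm) with e3 | e3 | e3
            · exact (Q0_Q1 hsl.1 (e3 ▸ hk1)).elim
            · exact Or.inl (Prod.ext e3 e2)
            · exact Or.inr (Prod.ext e3 e2)
          · exact (hH ⟨k, hk1, hk, _, _, _, _, _, hH₂⟩).elim
        · have : (univ.filter fun s : V × V => k ∈ Qs G c 1 ∧ s ∈ CnN G c F0 k) = ∅ := by
            ext s
            simp [hk1]
          rw [this]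
          simp
      have hsub : RQ G c F0 h' ⊆
          (univ.filter fun s : V × V => k₁ ∈ Qs G c 1 ∧ s ∈ CnN G c F0 k₁) ∪
          (univ.filter fun s : V × V => k₂ ∈ Qs G c 1 ∧ s ∈ CnN G c F0 k₂) := by
        intro s hs
        obtain ⟨v, hv, hvh, hsv⟩ := mem_RQ.1 hs
        rw [Finset.mem_union, Finset.mem_filter, Finset.mem_filter]
        rcases hN.mem hvh with e | e | e
        · subst e
          exact (WB (Q1_W hv) hb.1).elim
        · subst e
          exact Or.inl ⟨Finset.mem_univ _, hv, hsv⟩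
        · subst e
          exact Or.inr ⟨Finset.mem_univ _, hv, hsv⟩
      have h1 := Finset.card_le_card hsub
      have h2 := Finset.card_union_le
        (univ.filter fun s : V × V => k₁ ∈ Qs G c 1 ∧ s ∈ CnN G c F0 k₁)
        (univ.filter fun s : V × V => k₂ ∈ Qs G c 1 ∧ s ∈ CnN G c F0 k₂)
      have h3 := key k₁ hN.adj.2.1
      have h4 := key k₂ hN.adj.2.2
      omega
  · obtain ⟨s₀, hs₀⟩ := Finset.nonempty_iff_ne_empty.2 h0
    obtain ⟨b, b', d, d', β, y, z, p, E, -⟩ := mem_EXs.1 hs₀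
    obtain ⟨h₂, hm₂, hN⟩ := E.mate hP
    have hh : h₂ = h := nice_uniq hP.nice hm₂ (ma_symm hm)
    subst hh
    have e0 : RQ G c F0 h' = ∅ := by
      rw [Finset.eq_empty_iff_forall_notMem]
      intro s hs
      obtain ⟨v, hv, hvh, hsv⟩ := mem_RQ.1 hs
      rcases hN.mem hvh with e | e | e
      · exact Q1_W0 hv (e ▸ E.B.y0)
      · subst e
        exact E.cnb' hP hsv
      · exact WB (Q1_W hv) (e ▸ hb.1)
    rw [e0, Finset.empty_union]
    refine (Finset.card_le_card (t := {(b, s₀.2), (d, s₀.2)}) ?_).trans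
      (Finset.card_le_two.trans (by norm_num))
    intro s hs
    obtain ⟨b₂, b₂', d₂, d₂', β₂, y₂, z₂, p₂, E₂, hw⟩ := mem_EXs.1 hs
    obtain ⟨e1, e2, e3, -⟩ := E.same hP E₂
    rw [Finset.mem_insert, Finset.mem_singleton]
    rcases hw with e | e
    · exact Or.inl (Prod.ext (e.trans e1) e3)
    · exact Or.inr (Prod.ext (e.trans e2) e3)

/-- no block core uses `b` as an option -/
theorem ExC.noOpt (hP : PF G c) {b b' d d' α β y z h p : V}
    (E : ExC G c b b' d d' α β y z h p) {s : V × V} {u : V} (hu : u = b ∨ u = d) :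
    ¬ OptB G c F0 s u := by
  rintro ⟨b₁, b₁', d₁, d₁', β₁, y₁, z₁, hB, h1, -, -, -⟩
  have key : ∀ x x', x ∈ Qs G c 0 → MA G c x x' → x' = u → False := by
    intro x x' hx hm e
    subst e
    rcases hu with e | e
    · subst e
      exact E.b0 (nice_uniq hP.nice (ma_symm hm) E.B.mb ▸ hx)
    · subst e
      exact E.d0 (nice_uniq hP.nice (ma_symm hm) E.B.md ▸ hx)
  rcases h1 with e | e
  · exact key b₁ b₁' hB.b0 hB.mb e.symm
  · exact key d₁ d₁' hB.d0 hB.md e.symm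

/-- the slots of `b` and `d` -/
theorem ExC.ts {b b' d d' α β y z h p : V}
    (E : ExC G c b b' d d' α β y z h p) {s : V × V} {K : Finset V} (hK : Cor G c F0 s K)
    (hs : s.1 = b ∨ s.1 = d) : s ∈ TS G c F0 b := by
  rcases hs with e | e
  · exact mem_TS.2 ⟨Or.inl e, K, hK⟩
  · exact mem_TS.2 ⟨Or.inr (e ▸ E.B.toBlk.tw.symm), K, hK⟩

/-- the killed slots with a core which is not of type EX1 -/
theorem ExC.killN (hP : PF G c) {b b' d d' α β y z h p h' : V}
    (E : ExC G c b b' d d' α β y z h p) (hm : MA G c h h') (hN : N3 G h y b' h') {x : V}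
    (hx : x = b ∨ x = b' ∨ x = d ∨ x = d' ∨ x = α ∨ x = β ∨ x = y ∨ x = p ∨ x = h ∨ x = h')
    {s : V × V} (hs : s ∈ JzN G c F0 x) :
    s ∈ TS G c F0 b ∪ (JzN G c F0 d' ∪ (CnN G c F0 h ∪ (RQ G c F0 h' ∪ EXs G c h'))) := by
  obtain ⟨K, hK, -⟩ := mem_JzN.1 hs
  have hsl := hK.cor.slot hP.nice
  have hB1 : IsB1 G c h' := B1_of_MA hP.nice (ma_symm hm) (MA_B hm E.h1.1)
  have fts : s.1 = b ∨ s.1 = d → s ∈ TS G c F0 b ∪
      (JzN G c F0 d' ∪ (CnN G c F0 h ∪ (RQ G c F0 h' ∪ EXs G c h'))) :=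
    fun e => Finset.mem_union_left _ (E.ts hK.cor e)
  have fh : s ∈ CnN G c F0 h → s ∈ TS G c F0 b ∪
      (JzN G c F0 d' ∪ (CnN G c F0 h ∪ (RQ G c F0 h' ∪ EXs G c h'))) :=
    fun e => Finset.mem_union_right _ (Finset.mem_union_right _ (Finset.mem_union_left _ e))
  have opt0 : ∀ u, OptB G c F0 s u → u ∈ Qs G c 0 := by
    rintro u ⟨_, _, _, _, _, _, _, -, -, hu, -⟩
    exact hu
  rcases hx with rfl | rfl | rfl | rfl | rfl | rfl | rfl | rfl | rfl | rfl
  · rcases jz_Q0N hP E.B.b0 hs with e | e | e | e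
    · exact fts (Or.inl e)
    · exact (E.b0 (nice_uniq hP.nice (ma_of e.symm (Q0_W E.B.b0) (Q0_W hsl.1)) E.B.mb ▸
        hsl.1)).elim
    · exact fts (Or.inr (e.symm.uniq hP E.B.toBlk.tw))
    · exact (E.noOpt hP (Or.inl rfl) e).elim
  · have h1 := jz_Q1_subN hP (E.b'1 hP) (E.noHb hP) (ma_symm E.B.mb)
      (E.Nb' hP).swap' E.p0 hs
    exact (by
      rcases Finset.mem_union.1 h1 with e | e
      · obtain ⟨-, e⟩ := mem_At.1 e
        exact (E.nosrc hP hsl.1 (e ▸ hsl.2.1)).elim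
      · exact fh e)
  · rcases jz_Q0N hP E.B.d0 hs with e | e | e | e
    · exact fts (Or.inr e)
    · exact (E.d0 (nice_uniq hP.nice (ma_of e.symm (Q0_W E.B.d0) (Q0_W hsl.1)) E.B.md ▸
        hsl.1)).elim
    · exact fts (Or.inl (e.symm.uniq hP E.B.toBlk.tw.symm))
    · exact (E.noOpt hP (Or.inr rfl) e).elim
  · exact Finset.mem_union_right _ (Finset.mem_union_left _ hs)
  · rcases jz_B0N hP (E.α0 hP) hs with e | ⟨u, e, e1⟩
    · exact fts (E.srcα hP hsl.1 (Or.inl e))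
    · exact (E.noOpt hP (E.srcα hP (opt0 u e) (Or.inl e1)) e).elim
  · rcases jz_B0N hP (E.β0 hP) hs with e | ⟨u, e, e1⟩
    · exact fts (E.srcα hP hsl.1 (Or.inr e))
    · exact (E.noOpt hP (E.srcα hP (opt0 u e) (Or.inr e1)) e).elim
  · obtain ⟨q, hq, hsq⟩ := jz_W0N hP E.B.y0 hs
    rcases (E.Ny hP).mem hq with e | e | e
    · subst e
      exact fts (E.srcα hP hsl.1 (Or.inl (cn_B0N hP.nice (E.α0 hP) hsq).1))
    · exact fh (e ▸ hsq)
    · subst e
      exact (E.nosrc hP hsl.1 (cn_B0N hP.nice E.p0 hsq).1).elim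
  · rcases jz_B0N hP E.p0 hs with e | ⟨u, e, e1⟩
    · exact (E.nosrc hP hsl.1 e).elim
    · exact (E.nosrc hP (opt0 u e) e1).elim
  · rcases jz_B1N hP E.h1 hs with e | ⟨v, hv, hvh, hsv⟩
    · exact fh e
    · rcases hN.mem hvh with e | e | e
      · exact (Q1_W0 hv (e ▸ E.B.y0)).elim
      · subst e
        exact (E.cnb' hP hsv).elim
      · exact (WB (Q1_W hv) (e ▸ hB1.1)).elim
  · rcases jz_B1N hP hB1 hs with e | ⟨v, hv, hvh, hsv⟩
    · exfalso
      obtain ⟨q, q', p0, hX, -⟩ := cn_B1N hP.nice hB1 e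
      have e1 : p0 = h := nice_uniq hP.nice (ma_symm hX.pp) (ma_symm hm)
      subst e1
      rcases hN.mem hX.qp.symm with e2 | e2 | e2
      · exact Q1_W0 hX.q1 (e2 ▸ E.B.y0)
      · subst e2
        exact Q0_Q1 E.B.b0 (nice_uniq hP.nice hX.qq (ma_symm E.B.mb) ▸ hX.q1')
      · exact WB (Q1_W hX.q1) (e2 ▸ hB1.1)
    · exact Finset.mem_union_right _ (Finset.mem_union_right _ (Finset.mem_union_right _
        (Finset.mem_union_left _ (mem_RQ.2 ⟨v, hv, hvh, hsv⟩))))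

/-- the configurations EX1 touched by the zone of the core -/
theorem ExC.killE (hP : PF G c) {b b' d d' α β y z h p h' : V}
    (E : ExC G c b b' d d' α β y z h p) (hm : MA G c h h') (hN : N3 G h y b' h') {x : V}
    (hx : x = b ∨ x = b' ∨ x = d ∨ x = d' ∨ x = α ∨ x = β ∨ x = y ∨ x = p ∨ x = h ∨ x = h')
    {b₂ b₂' d₂ d₂' α₂ β₂ y₂ z₂ h₂ p₂ : V} (E₂ : ExC G c b₂ b₂' d₂ d₂' α₂ β₂ y₂ z₂ h₂ p₂)
    {v : V} (hv : v = b₂ ∨ v = α₂ ∨ v = y₂ ∨ v = h₂) (hvx : v = x ∨ (G.Adj v x ∧ c v ≠ c x)) :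
    (b₂ = b ∨ b₂ = d) ∨ h₂ = h' := by
  have hB1 : IsB1 G c h' := B1_of_MA hP.nice (ma_symm hm) (MA_B hm E.h1.1)
  have hα := E.α0 hP
  have hβ := E.β0 hP
  have hα₂ := E₂.α0 hP
  have hs2 := E₂.B.b0
  have kα : G.Adj b₂ α ∨ G.Adj b₂ β → (b₂ = b ∨ b₂ = d) ∨ h₂ = h' :=
    fun e => Or.inl (E.srcα hP hs2 e)
  have kα2 : α₂ = α ∨ α₂ = β → (b₂ = b ∨ b₂ = d) ∨ h₂ = h' := by
    rintro (e | e)
    · exact kα (Or.inl (e ▸ E₂.B.nb.adj.2.1))
    · exact kα (Or.inr (e ▸ E₂.B.nb.adj.2.1))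
  have kp : α₂ ≠ p := fun e => E.nosrc hP hs2 (e ▸ E₂.B.nb.adj.2.1)
  have ky : y₂ = y → (b₂ = b ∨ b₂ = d) ∨ h₂ = h' := by
    intro e
    rcases (E.Ny hP).mem (e ▸ E₂.B.nα.adj.2.2.symm) with e | e | e
    · exact kα2 (Or.inl e)
    · exact (B0_not_B1 hα₂ (e ▸ E.h1)).elim
    · exact (kp e).elim
  have kh : h₂ = h → (b₂ = b ∨ b₂ = d) ∨ h₂ = h' := by
    intro e
    rcases hN.mem (e ▸ E₂.hy) with e | e | e
    · exact ky e
    · exact (Q1_W0 (E.b'1 hP) (e ▸ E₂.B.y0)).elim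
    · exact (WB E₂.B.y0.1 (e ▸ hB1.1)).elim
  have kd : ∀ t, (t = b ∨ t = d) → d₂ = t → (b₂ = b ∨ b₂ = d) ∨ h₂ = h' := by
    rintro t (rfl | rfl) e
    · subst e
      exact Or.inl (Or.inr (E₂.B.toBlk.tw.symm.uniq hP E.B.toBlk.tw))
    · subst e
      exact Or.inl (Or.inl (E₂.B.toBlk.tw.symm.uniq hP E.B.toBlk.tw.symm))
  have hb'W := (mem_Qs.1 (E.b'1 hP)).1
  have hd'W := E.d'1 hP
  have cb := Q0_W E.B.b0
  have cd := Q0_W E.B.d0
  rcases hv with rfl | rfl | rfl | rfl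
  · -- `v = b₂`
    have cv := Q0_W hs2
    rcases hvx with e | ⟨hadj, hcol⟩
    · rcases hx with rfl | rfl | rfl | rfl | rfl | rfl | rfl | rfl | rfl | rfl
      · exact Or.inl (Or.inl e)
      · exact (E.b0 (e ▸ hs2)).elim
      · exact Or.inl (Or.inr e)
      · exact (E.d0 (e ▸ hs2)).elim
      · exact (WB cv (e ▸ hα.1)).elim
      · exact (WB cv (e ▸ hβ.1)).elim
      · exact (Q0_W0 hs2 (e ▸ E.B.y0)).elim
      · exact (WB cv (e ▸ E.p0.1)).elim
      · exact (WB cv (e ▸ E.h1.1)).elim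
      · exact (WB cv (e ▸ hB1.1)).elim
    · have cx : c x = false := by
        rw [cv] at hcol
        simpa using hcol.symm
      rcases hx with rfl | rfl | rfl | rfl | rfl | rfl | rfl | rfl | rfl | rfl
      · exact (WB cb cx).elim
      · exact (WB E.Wb' cx).elim
      · exact (WB cd cx).elim
      · exact (WB E.Wd' cx).elim
      · exact kα (Or.inl hadj)
      · exact kα (Or.inr hadj)
      · exact (WB E.B.y0.1 cx).elim
      · exact (E.nosrc hP hs2 hadj).elim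
      · exact (Q0_noB1 hP.nice hs2 E.h1 hadj).elim
      · exact (Q0_noB1 hP.nice hs2 hB1 hadj).elim
  · -- `v = α₂`
    rcases hvx with e | ⟨hadj, hcol⟩
    · rcases hx with rfl | rfl | rfl | rfl | rfl | rfl | rfl | rfl | rfl | rfl
      · exact (WB cb (e ▸ hα₂.1)).elim
      · exact (WB E.Wb' (e ▸ hα₂.1)).elim
      · exact (WB cd (e ▸ hα₂.1)).elim
      · exact (WB E.Wd' (e ▸ hα₂.1)).elim
      · exact kα2 (Or.inl e)
      · exact kα2 (Or.inr e)
      · exact (WB E.B.y0.1 (e ▸ hα₂.1)).elim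
      · exact (kp e).elim
      · exact (B0_not_B1 hα₂ (e ▸ E.h1)).elim
      · exact (B0_not_B1 hα₂ (e ▸ hB1)).elim
    · rcases E₂.B.nα.mem hadj with e | e | e
      · rcases hx with rfl | rfl | rfl | rfl | rfl | rfl | rfl | rfl | rfl | rfl
        · exact Or.inl (Or.inl e.symm)
        · exact (E.b0 (e ▸ hs2)).elim
        · exact Or.inl (Or.inr e.symm)
        · exact (E.d0 (e ▸ hs2)).elim
        · exact (WB (Q0_W hs2) (e ▸ hα.1)).elim
        · exact (WB (Q0_W hs2) (e ▸ hβ.1)).elim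
        · exact (Q0_W0 hs2 (e ▸ E.B.y0)).elim
        · exact (WB (Q0_W hs2) (e ▸ E.p0.1)).elim
        · exact (WB (Q0_W hs2) (e ▸ E.h1.1)).elim
        · exact (WB (Q0_W hs2) (e ▸ hB1.1)).elim
      · have hd2 := E₂.B.d0
        rcases hx with rfl | rfl | rfl | rfl | rfl | rfl | rfl | rfl | rfl | rfl
        · exact kd _ (Or.inl rfl) e.symm
        · exact (E.b0 (e ▸ hd2)).elim
        · exact kd _ (Or.inr rfl) e.symm
        · exact (E.d0 (e ▸ hd2)).elim
        · exact (WB (Q0_W hd2) (e ▸ hα.1)).elim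
        · exact (WB (Q0_W hd2) (e ▸ hβ.1)).elim
        · exact (Q0_W0 hd2 (e ▸ E.B.y0)).elim
        · exact (WB (Q0_W hd2) (e ▸ E.p0.1)).elim
        · exact (WB (Q0_W hd2) (e ▸ E.h1.1)).elim
        · exact (WB (Q0_W hd2) (e ▸ hB1.1)).elim
      · have hy2 := E₂.B.y0
        rcases hx with rfl | rfl | rfl | rfl | rfl | rfl | rfl | rfl | rfl | rfl
        · exact (Q0_W0 E.B.b0 (e ▸ hy2)).elim
        · exact (W0_not_W1 (e ▸ hy2) hb'W).elim
        · exact (Q0_W0 E.B.d0 (e ▸ hy2)).elim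
        · exact (W0_not_W1 (e ▸ hy2) hd'W).elim
        · exact (WB hy2.1 (e ▸ hα.1)).elim
        · exact (WB hy2.1 (e ▸ hβ.1)).elim
        · exact ky e.symm
        · exact (WB hy2.1 (e ▸ E.p0.1)).elim
        · exact (WB hy2.1 (e ▸ E.h1.1)).elim
        · exact (WB hy2.1 (e ▸ hB1.1)).elim
  · -- `v = y₂`
    have hy2 := E₂.B.y0
    rcases hvx with e | ⟨hadj, hcol⟩
    · rcases hx with rfl | rfl | rfl | rfl | rfl | rfl | rfl | rfl | rfl | rfl
      · exact (Q0_W0 E.B.b0 (e ▸ hy2)).elim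
      · exact (W0_not_W1 (e ▸ hy2) hb'W).elim
      · exact (Q0_W0 E.B.d0 (e ▸ hy2)).elim
      · exact (W0_not_W1 (e ▸ hy2) hd'W).elim
      · exact (WB hy2.1 (e ▸ hα.1)).elim
      · exact (WB hy2.1 (e ▸ hβ.1)).elim
      · exact ky e
      · exact (WB hy2.1 (e ▸ E.p0.1)).elim
      · exact (WB hy2.1 (e ▸ E.h1.1)).elim
      · exact (WB hy2.1 (e ▸ hB1.1)).elim
    · have cx : c x = false := by
        rw [hy2.1] at hcol
        simpa using hcol.symm
      rcases hx with rfl | rfl | rfl | rfl | rfl | rfl | rfl | rfl | rfl | rfl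
      · exact (WB cb cx).elim
      · exact (WB E.Wb' cx).elim
      · exact (WB cd cx).elim
      · exact (WB E.Wd' cx).elim
      · rcases E.B.nα.mem hadj.symm with e | e | e
        · exact (Q0_W0 E.B.b0 (e ▸ hy2)).elim
        · exact (Q0_W0 E.B.d0 (e ▸ hy2)).elim
        · exact ky e
      · rcases E.B.nβ.mem hadj.symm with e | e | e
        · exact (Q0_W0 E.B.b0 (e ▸ hy2)).elim
        · exact (Q0_W0 E.B.d0 (e ▸ hy2)).elim
        · subst e
          by_cases hne : x = α₂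
          · exact kα2 (Or.inr hne.symm)
          · rcases hP.ends _ _ _ _ _ _ _ _ _ _ _ _ _ _ _ E.B.flip E₂.B hne with e | e | e | e
            · exact (E.b0 (e ▸ hs2)).elim
            · exact (E.d0 (e ▸ hs2)).elim
            · exact (E.b0 (e ▸ E₂.B.d0)).elim
            · exact (E.d0 (e ▸ E₂.B.d0)).elim
      · exact (WB E.B.y0.1 cx).elim
      · rcases (E₂.Ny hP).mem hadj with e | e | e
        · exact (kp e.symm).elim
        · exact (B0_not_B1 E.p0 (e ▸ E₂.h1)).elim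
        · subst e
          have hne : y ≠ b' := by
            rintro rfl
            exact Q1_W0 (E.b'1 hP) E.B.y0
          obtain ⟨t, hNp⟩ := N3_of hP.cub E.py E.pb hne
          have hb2 := (mem_Qs.1 (E₂.b'1 hP)).1
          rcases hNp.mem E₂.py with e1 | e1 | e1
          · exact ky e1
          · exact (W0_not_W1 (e1 ▸ hy2) hb'W).elim
          · rcases hNp.mem E₂.pb with e2 | e2 | e2
            · exact (W0_not_W1 (e2 ▸ E.B.y0) hb2).elim
            · subst e2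
              exact Or.inl (Or.inl (nice_uniq hP.nice (ma_symm E₂.B.mb) (ma_symm E.B.mb)))
            · exact (W0_not_W1 (e1 ▸ hy2) (e2 ▸ hb2)).elim
      · rcases (E₂.Ny hP).mem hadj with e | e | e
        · exact (B0_not_B1 hα₂ (e ▸ E.h1)).elim
        · exact kh e.symm
        · exact (B0_not_B1 E₂.p0 (e ▸ E.h1)).elim
      · rcases (E₂.Ny hP).mem hadj with e | e | e
        · exact (B0_not_B1 hα₂ (e ▸ hB1)).elim
        · exact Or.inr e.symm
        · exact (B0_not_B1 E₂.p0 (e ▸ hB1)).elim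
  · -- `v = h₂`
    have hh2 := E₂.h1
    rcases hvx with e | ⟨hadj, hcol⟩
    · rcases hx with rfl | rfl | rfl | rfl | rfl | rfl | rfl | rfl | rfl | rfl
      · exact (WB cb (e ▸ hh2.1)).elim
      · exact (WB E.Wb' (e ▸ hh2.1)).elim
      · exact (WB cd (e ▸ hh2.1)).elim
      · exact (WB E.Wd' (e ▸ hh2.1)).elim
      · exact (B0_not_B1 hα (e ▸ hh2)).elim
      · exact (B0_not_B1 hβ (e ▸ hh2)).elim
      · exact (WB E.B.y0.1 (e ▸ hh2.1)).elim
      · exact (B0_not_B1 E.p0 (e ▸ hh2)).elim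
      · exact kh e
      · exact Or.inr e
    · have cx : c x = true := by
        rw [hh2.1] at hcol
        simpa using hcol.symm
      rcases hx with rfl | rfl | rfl | rfl | rfl | rfl | rfl | rfl | rfl | rfl
      · exact (Q0_noB1 hP.nice E.B.b0 hh2 hadj.symm).elim
      · rcases (E.Nb' hP).mem hadj.symm with e | e | e
        · exact (WB cb (e ▸ hh2.1)).elim
        · exact kh e
        · exact (B0_not_B1 E.p0 (e ▸ hh2)).elim
      · exact (Q0_noB1 hP.nice E.B.d0 hh2 hadj.symm).elim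
      · obtain ⟨h₂', hm₂, hN₂⟩ := E₂.mate hP
        rcases hN₂.mem hadj with e | e | e
        · exact (W0_not_W1 (e ▸ E₂.B.y0) hd'W).elim
        · subst e
          exact Or.inl (Or.inr (nice_uniq hP.nice (ma_symm E₂.B.mb) (ma_symm E.B.md)))
        · exact (WB cx (e ▸ MA_B hm₂ hh2.1)).elim
      · exact (WB cx hα.1).elim
      · exact (WB cx hβ.1).elim
      · rcases (E.Ny hP).mem hadj.symm with e | e | e
        · exact (B0_not_B1 hα (e ▸ hh2)).elim
        · exact kh e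
        · exact (B0_not_B1 E.p0 (e ▸ hh2)).elim
      · exact (WB cx E.p0.1).elim
      · exact (WB cx E.h1.1).elim
      · exact (WB cx hB1.1).elim

/-- the killed slots -/
theorem ExC.kill (hP : PF G c) {b b' d d' α β y z h p : V}
    (E : ExC G c b b' d d' α β y z h p) :
    (AL G c F0 \ AL G c (F0 ∪ {b, α, y, h})).card ≤ 12 := by
  obtain ⟨h', hm, hN⟩ := E.mate hP
  have hsub : AL G c F0 \ AL G c (F0 ∪ {b, α, y, h}) ⊆
      TS G c F0 b ∪ (JzN G c F0 d' ∪ (CnN G c F0 h ∪ (RQ G c F0 h' ∪ EXs G c h'))) := by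
    intro s hs
    obtain ⟨x, hx, hsx⟩ := Finset.mem_biUnion.1 (killed_sub hP.nice F0 {b, α, y, h} hs)
    have hx' := E.zone hP hm hN hx
    obtain ⟨K, hK, v, hv, hvx⟩ := mem_Jz.1 hsx
    rcases hK.split with hK' | ⟨b₂, b₂', d₂, d₂', β₂, y₂, z₂, h₂, p₂, E₂, hw, rfl⟩
    · exact E.killN hP hm hN hx' (mem_JzN.2 ⟨K, hK', v, hv, hvx⟩)
    · rw [Finset.mem_insert, Finset.mem_insert, Finset.mem_insert, Finset.mem_singleton] at hv
      rcases E.killE hP hm hN hx' E₂ hv hvx with (e | e) | e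
      · refine Finset.mem_union_left _ (E.ts hK ?_)
        subst e
        rcases hw with e | e
        · exact Or.inl e
        · exact Or.inr (e.trans (E₂.B.toBlk.tw.uniq hP E.B.toBlk.tw))
      · refine Finset.mem_union_left _ (E.ts hK ?_)
        subst e
        rcases hw with e | e
        · exact Or.inr e
        · exact Or.inl (e.trans (E₂.B.toBlk.tw.uniq hP E.B.toBlk.tw.symm))
      · subst e
        exact Finset.mem_union_right _ (Finset.mem_union_right _ (Finset.mem_union_right _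
          (Finset.mem_union_right _ (mem_EXs.2 ⟨b₂, b₂', d₂, d₂', β₂, y₂, z₂, p₂, E₂, hw⟩))))
  have h1 := Finset.card_le_card hsub
  have h2 := Finset.card_union_le (TS G c F0 b)
    (JzN G c F0 d' ∪ (CnN G c F0 h ∪ (RQ G c F0 h' ∪ EXs G c h')))
  have h3 := Finset.card_union_le (JzN G c F0 d')
    (CnN G c F0 h ∪ (RQ G c F0 h' ∪ EXs G c h'))
  have h4 := Finset.card_union_le (CnN G c F0 h) (RQ G c F0 h' ∪ EXs G c h')
  have h5 := TS_card hP (F0 := F0) b
  have h6 := jz_W1_cardN hP (F0 := F0) (E.d'1 hP) E.d0 (E.noHd hP)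
  have h7 := cn_B1_cardN hP (F0 := F0) E.h1
  have h8 := RE_card hP (F0 := F0) hm E.h1
  omega

end

/-- stage 0: EX1 -/
theorem stmt_S0 : Stmt_S0 := by
  intro V _ G c hP F0 r hr hE
  obtain ⟨w, a, K, hK, hz⟩ := hE
  have hg := hP.h3 0 w a K hK (by norm_num)
  cases hK with
  | ex1 b b' d d' α β y z h p w hB hb0 hd0 hh1 hhy hhb hp0 hpy hpb hw =>
    have E : ExC G c b b' d d' a β y z h p := ⟨hB, hb0, hd0, hh1, hhy, hhb, hp0, hpy, hpb⟩
    refine ⟨{b, a, y, h}, 1, 1, le_refl 1, hr, hz, ?_, ?_, Or.inr ?_⟩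
    · have e1 : ((-2 * (((1 : ℕ) : ℤ) - ((1 : ℕ) : ℤ)), ((1 : ℕ) : ℤ), (0 : ℤ)) : ℤ × ℤ × ℤ) =
          (0, 1, 0) := by norm_num
      rw [e1]
      exact hg
    · have := E.blk hP
      omega
    · have := E.kill hP (F0 := F0)
      omega

end Pool.Agent.Work.MP_1e13ac_W
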