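import Pool.Agent.Work.MP_1e13ac_W.PkS3a

/-!
# MP_1e13ac_co, World 2: stage 0 (EX1) (helper10)

The first part repeats the lemmas of `PkBase` on kill sets for the cores which are not of type EX1
(`NC`); here EX1 cores may be alive.
-/

set_option autoImplicit false
set_option linter.unusedSectionVars false

namespace Pool.Agent.Work.MP_1e13ac_W

open Classical Finset Pool.Agent.Work.MP_1e13ac_Bis

noncomputable section

variable {V : Type} [Fintype V] {G : SimpleGraph V} {c : V → Bool}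

/-- `K` is an alive core of the slot `s`, not of type EX1 -/
def NC (G : SimpleGraph V) (c : V → Bool) (F0 : Finset V) (s : V × V) (K : Finset V) : Prop :=
  ((∃ n, 1 ≤ n ∧ CrA G c n s.1 s.2 K) ∨ ∃ n H τ e, CrB G c n s.1 s.2 H τ e ∧ K = insert τ H) ∧
    ZD G c K F0

theorem NC.cor {F0 : Finset V} {s : V × V} {K : Finset V} (h : NC G c F0 s K) :
    Cor G c F0 s K := by
  obtain ⟨⟨n, -, h1⟩ | h1, h2⟩ := h
  · exact ⟨Or.inl ⟨n, h1⟩, h2⟩
  · exact ⟨Or.inr h1, h2⟩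

/-- the slots with a core (not EX1) touching `z` -/
def JzN (G : SimpleGraph V) (c : V → Bool) (F0 : Finset V) (z : V) : Finset (V × V) :=
  univ.filter fun s => ∃ K, NC G c F0 s K ∧ ∃ v ∈ K, v = z ∨ (G.Adj v z ∧ c v ≠ c z)

/-- the slots with a core (not EX1) containing `p` -/
def CnN (G : SimpleGraph V) (c : V → Bool) (F0 : Finset V) (p : V) : Finset (V × V) :=
  univ.filter fun s => ∃ K, NC G c F0 s K ∧ p ∈ K

theorem mem_JzN {F0 : Finset V} {z : V} {s : V × V} : s ∈ JzN G c F0 z ↔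
    ∃ K, NC G c F0 s K ∧ ∃ v ∈ K, v = z ∨ (G.Adj v z ∧ c v ≠ c z) := by simp [JzN]

theorem mem_CnN {F0 : Finset V} {p : V} {s : V × V} : s ∈ CnN G c F0 p ↔
    ∃ K, NC G c F0 s K ∧ p ∈ K := by simp [CnN]

theorem NC.cases {F0 : Finset V}  {s : V × V}
    {K : Finset V} (h : NC G c F0 s K) {v : V} (hv : v ∈ K) :
    v = s.1 ∨ v = s.2 ∨ (v ∈ Qs G c 1 ∧ G.Adj v s.2) ∨
    (∃ q q' p, Xc G c s.1 s.2 q q' p v ∧ K = {s.1, s.2, q, v}) ∨
    (∃ b b' d d' α β, House G c b b' d d' α β ∧ (s.1 = b ∨ s.1 = d) ∧ (s.2 = α ∨ s.2 = β) ∧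
      K = {b', b, α} ∧ (v = b ∨ v = α ∨ v = b')) ∨
    ∃ b b' d d' β y z u, PBlk G c b b' d d' s.2 β y z ∧ (u = b' ∨ u = d') ∧ u ∈ Qs G c 0 ∧
      (s.1 = b ∨ s.1 = d) ∧ K = {b, d, s.2, u} ∧ (v = b ∨ v = d ∨ v = u) := by
  obtain ⟨w, a⟩ := s
  obtain ⟨⟨n, hn, h1⟩ | ⟨n, H, τ, e, h1, rfl⟩, hz⟩ := h
  ·     cases h1 with
    | ex1 b b' d d' α β y z h p w hB _ _ _ _ _ _ _ _ hw => exact absurd hn (by norm_num)
    | d0 w w' a y h1 h2 h3 h4 =>
      rw [Finset.mem_insert, Finset.mem_singleton] at hv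
      rcases hv with rfl | rfl
      · exact Or.inl rfl
      · exact Or.inr (Or.inl rfl)
    | blk b b' d d' α β y z u w hB hu hu0 hw =>
      rw [Finset.mem_insert, Finset.mem_insert, Finset.mem_insert, Finset.mem_singleton] at hv
      rcases hv with rfl | rfl | rfl | rfl
      · exact Or.inr (Or.inr (Or.inr (Or.inr (Or.inr
          ⟨_, _, _, _, _, _, _, _, hB, hu, hu0, hw, rfl, Or.inl rfl⟩))))
      · exact Or.inr (Or.inr (Or.inr (Or.inr (Or.inr
          ⟨_, _, _, _, _, _, _, _, hB, hu, hu0, hw, rfl, Or.inr (Or.inl rfl)⟩))))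
      · exact Or.inr (Or.inl rfl)
      · exact Or.inr (Or.inr (Or.inr (Or.inr (Or.inr
          ⟨_, _, _, _, _, _, _, _, hB, hu, hu0, hw, rfl, Or.inr (Or.inr rfl)⟩))))
    | e w a x y h1 h2 h3 _ =>
      rw [Finset.mem_insert, Finset.mem_singleton] at hv
      rcases hv with rfl | rfl
      · exact Or.inl rfl
      · exact Or.inr (Or.inl rfl)
    | x3 w w' a q q' p p' r s h1 h2 h3 h4 h5 h6 h7 h8 h9 h10 h11 h12 =>
      rw [Finset.mem_insert, Finset.mem_insert, Finset.mem_insert, Finset.mem_singleton] at hv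
      rcases hv with rfl | rfl | rfl | rfl
      · exact Or.inl rfl
      · exact Or.inr (Or.inl rfl)
      · exact Or.inr (Or.inr (Or.inl ⟨h5, h3.adj.2.1.symm⟩))
      · exact Or.inr (Or.inr (Or.inr (Or.inl ⟨q, q', p, ⟨h1, h3, h4, h5, h6, h7, h8, h9⟩, rfl⟩)))
  · cases h1 with
    | m w w' a x x' y h1 h2 h3 h4 h5 h6 h7 =>
      rw [Finset.mem_insert, Finset.mem_insert, Finset.mem_singleton] at hv
      rcases hv with rfl | rfl | rfl
      · exact Or.inr (Or.inr (Or.inl ⟨h4, h3.adj.2.1.symm⟩))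
      · exact Or.inl rfl
      · exact Or.inr (Or.inl rfl)
    | x4 w w' a q q' p p' r r' s h1 h2 h3 h4 h5 h6 h7 h8 h9 _ _ _ _ =>
      have e1 : insert τ ({w, a, τ, p'} : Finset V) = {w, a, τ, p'} := by
        ext t
        simp only [Finset.mem_insert, Finset.mem_singleton]
        tauto
      have hv' : v ∈ ({w, a, τ, p'} : Finset V) := by
        rw [← e1]
        exact hv
      rw [Finset.mem_insert, Finset.mem_insert, Finset.mem_insert, Finset.mem_singleton] at hv'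
      rcases hv' with rfl | rfl | rfl | rfl
      · exact Or.inl rfl
      · exact Or.inr (Or.inl rfl)
      · exact Or.inr (Or.inr (Or.inl ⟨h5, h3.adj.2.1.symm⟩))
      · exact Or.inr (Or.inr (Or.inr (Or.inl ⟨_, q', p, ⟨h1, h3, h4, h5, h6, h7, h8, h9⟩, e1⟩)))
    | hs b b' d d' α β w a hB hN hb hw ha =>
      rw [Finset.mem_insert, Finset.mem_insert, Finset.mem_singleton] at hv
      refine Or.inr (Or.inr (Or.inr (Or.inr (Or.inl
        ⟨_, _, _, _, _, _, ⟨hB, hN, hb⟩, hw, ha, rfl, ?_⟩))))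
      rcases hv with rfl | rfl | rfl
      · exact Or.inr (Or.inr rfl)
      · exact Or.inl rfl
      · exact Or.inr (Or.inl rfl)
    | d1 w w' a x x' h1 h2 h3 h4 h5 _ =>
      rw [Finset.mem_insert, Finset.mem_insert, Finset.mem_singleton] at hv
      rcases hv with rfl | rfl | rfl
      · exact Or.inr (Or.inr (Or.inl ⟨h5, h4.adj.2.2.symm⟩))
      · exact Or.inl rfl
      · exact Or.inr (Or.inl rfl)

theorem cn_B0N {F0 : Finset V} (hc : Nice G c)  {p : V} (hp : IsB0 G c p)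
    {s : V × V} (hs : s ∈ CnN G c F0 p) : G.Adj s.1 p ∧ (s.2 = p ∨
      ∃ b b' d d' β, House G c b b' d d' p β ∧ (s.1 = b ∨ s.1 = d) ∧ (s.2 = p ∨ s.2 = β)) := by
  obtain ⟨K, hK, hpK⟩ := mem_CnN.1 hs
  have hsl := hK.cor.slot hc
  rcases hK.cases hpK with e | e | ⟨e, -⟩ | ⟨q, q', p0, hX, -⟩ |
    ⟨b, b', d, d', α, β, hH, h1, h2, -, e⟩ | ⟨b, b', d, d', β, y, z, u, hB, hu, hu0, h1, -, e⟩
  · subst e
    exact (WB (Q0_W hsl.1) hp.1).elim
  · subst e
    exact ⟨hsl.2.1, Or.inl rfl⟩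
  · exact (WB (Q1_W e) hp.1).elim
  · exact (B0_not_B1 hp (hX.B1 hc).2).elim
  · rcases e with e | e | e
    · subst e
      exact (WB (Q0_W hH.1.b0) hp.1).elim
    · subst e
      refine ⟨?_, Or.inr ⟨b, b', d, d', β, hH, h1, h2⟩⟩
      rcases h1 with e | e
      · rw [e]
        exact hH.1.nb.adj.2.1
      · rw [e]
        exact hH.1.nd.adj.2.1
    · subst e
      exact (WB (Q1_W hH.2.2) hp.1).elim
  · rcases e with e | e | e
    · subst e
      exact (WB (Q0_W hB.b0) hp.1).elim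
    · subst e
      exact (WB (Q0_W hB.d0) hp.1).elim
    · subst e
      exact (WB (Q0_W hu0) hp.1).elim

theorem jz_B0N (h : PF G c) {F0 : Finset V}  {z : V} (hz : IsB0 G c z)
    {s : V × V} (hs : s ∈ JzN G c F0 z) :
    G.Adj s.1 z ∨ ∃ u, OptB G c F0 s u ∧ G.Adj u z := by
  obtain ⟨K, hK, v, hv, hvz⟩ := mem_JzN.1 hs
  rcases hvz with rfl | ⟨hvz, hcol⟩
  · exact Or.inl (cn_B0N h.nice hz (mem_CnN.2 ⟨K, hK, hv⟩)).1
  have hcv : c v = true := by
    rw [hz.1] at hcol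
    simpa using hcol
  have hsl := hK.cor.slot h.nice
  have key : ∀ b b' d d' α β, Blk G c b b' d d' α β → (s.1 = b ∨ s.1 = d) → G.Adj b z →
      G.Adj s.1 z := by
    intro b b' d d' α β hB h1 h2
    rcases hB.nb.mem h2 with e | e | e
    · subst e
      exact (WB (MA_W hB.mb (Q0_W hB.b0)) hz.1).elim
    · rw [e]
      exact (hB.adjα h1).1
    · rw [e]
      exact (hB.adjα h1).2
  rcases hK.cases hv with e | e | ⟨e, e2⟩ | ⟨q, q', p0, hX, -⟩ |
    ⟨b, b', d, d', α, β, hH, h1, h2, -, e⟩ | ⟨b, b', d, d', β, y, z, u, hB, hu, hu0, h1, e1, e⟩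
  · subst e
    exact Or.inl hvz
  · subst e
    exact (WB hcv hsl.2.2.1).elim
  · have := Q1_B0 h.cub h.nice e hvz hz e2 hsl.2.2
    rw [this]
    exact Or.inl hsl.2.1
  · exact (WB hcv (hX.B1 h.nice).2.1).elim
  · rcases e with e | e | e
    · subst e
      exact Or.inl (key _ _ _ _ _ _ hH.1 h1 hvz)
    · subst e
      exact (WB hcv (hH.1.bl h.nice).1.1).elim
    · subst e
      have := Q1_B0 h.cub h.nice hH.2.2 hvz hz hH.2.1.adj.2.2.symm (hH.1.bl h.nice).1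
      rw [this]
      exact Or.inl (hH.1.adjα h1).1
  · rcases e with e | e | e
    · subst e
      exact Or.inl (key _ _ _ _ _ _ hB.toBlk h1 hvz)
    · subst e
      exact Or.inl (key _ _ _ _ _ _ hB.toBlk.symm h1.symm hvz)
    · subst e
      refine Or.inr ⟨v, ⟨b, b', d, d', β, y, z, hB, hu, hu0, h1, ?_⟩, hvz⟩
      rw [← e1]
      exact hK.2

theorem jz_W0N (h : PF G c) {F0 : Finset V}  {z : V} (hz : IsW0 G c z)
    {s : V × V} (hs : s ∈ JzN G c F0 z) : ∃ p, G.Adj z p ∧ s ∈ CnN G c F0 p := by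
  obtain ⟨K, hK, v, hv, hvz⟩ := mem_JzN.1 hs
  have hsl := hK.cor.slot h.nice
  rcases hvz with rfl | ⟨hvz, hcol⟩
  · exfalso
    rcases hK.cases hv with e | e | ⟨e, -⟩ | ⟨q, q', p0, hX, -⟩ |
      ⟨b, b', d, d', α, β, hH, h1, h2, -, e⟩ | ⟨b, b', d, d', β, y, z, u, hB, hu, hu0, h1, -, e⟩
    · subst e
      exact Q0_W0 hsl.1 hz
    · subst e
      exact WB hz.1 hsl.2.2.1
    · exact Q1_W0 e hz
    · exact WB hz.1 (hX.B1 h.nice).2.1
    · rcases e with e | e | e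
      · subst e
        exact Q0_W0 hH.1.b0 hz
      · subst e
        exact WB hz.1 (hH.1.bl h.nice).1.1
      · subst e
        exact Q1_W0 hH.2.2 hz
    · rcases e with e | e | e
      · subst e
        exact Q0_W0 hB.b0 hz
      · subst e
        exact Q0_W0 hB.d0 hz
      · subst e
        exact Q0_W0 hu0 hz
  · exact ⟨v, hvz.symm, mem_CnN.2 ⟨K, hK, hv⟩⟩

theorem cn_B1N {F0 : Finset V} (hc : Nice G c)  {p : V} (hp : IsB1 G c p)
    {s : V × V} (hs : s ∈ CnN G c F0 p) :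
    ∃ q q' p0, Xc G c s.1 s.2 q q' p0 p ∧ NC G c F0 s {s.1, s.2, q, p} := by
  obtain ⟨K, hK, hpK⟩ := mem_CnN.1 hs
  have hsl := hK.cor.slot hc
  rcases hK.cases hpK with e | e | ⟨e, -⟩ | ⟨q, q', p0, hX, e⟩ |
    ⟨b, b', d, d', α, β, hH, h1, h2, -, e⟩ | ⟨b, b', d, d', β, y, z, u, hB, hu, hu0, h1, -, e⟩
  · subst e
    exact (WB (Q0_W hsl.1) hp.1).elim
  · subst e
    exact (B0_not_B1 hsl.2.2 hp).elim
  · exact (WB (Q1_W e) hp.1).elim
  · refine ⟨q, q', p0, hX, ?_⟩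
    rw [← e]
    exact hK
  · rcases e with e | e | e
    · subst e
      exact (WB (Q0_W hH.1.b0) hp.1).elim
    · subst e
      exact (B0_not_B1 (hH.1.bl hc).1 hp).elim
    · subst e
      exact (WB (Q1_W hH.2.2) hp.1).elim
  · rcases e with e | e | e
    · subst e
      exact (WB (Q0_W hB.b0) hp.1).elim
    · subst e
      exact (WB (Q0_W hB.d0) hp.1).elim
    · subst e
      exact (WB (Q0_W hu0) hp.1).elim

theorem cn_B1_cardN (h : PF G c) {F0 : Finset V}  {p : V} (hp : IsB1 G c p) :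
    (CnN G c F0 p).card ≤ 1 := by
  rw [Finset.card_le_one]
  intro s hs t ht
  obtain ⟨q, q', p0, h1, -⟩ := cn_B1N h.nice hp hs
  obtain ⟨r, r', p1, h2, -⟩ := cn_B1N h.nice hp ht
  obtain ⟨e1, e2⟩ := h1.uniq h h2
  exact Prod.ext e1 e2

theorem jz_B1N (h : PF G c) {F0 : Finset V}  {z : V} (hz : IsB1 G c z)
    {s : V × V} (hs : s ∈ JzN G c F0 z) :
    s ∈ CnN G c F0 z ∨ ∃ v ∈ Qs G c 1, G.Adj z v ∧ s ∈ CnN G c F0 v := by
  obtain ⟨K, hK, v, hv, hvz⟩ := mem_JzN.1 hs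
  rcases hvz with rfl | ⟨hvz, hcol⟩
  · exact Or.inl (mem_CnN.2 ⟨K, hK, hv⟩)
  refine Or.inr ⟨v, ?_, hvz.symm, mem_CnN.2 ⟨K, hK, hv⟩⟩
  have hcv : c v = true := by
    rw [hz.1] at hcol
    simpa using hcol
  have hsl := hK.cor.slot h.nice
  rcases hK.cases hv with e | e | ⟨e, -⟩ | ⟨q, q', p0, hX, -⟩ |
    ⟨b, b', d, d', α, β, hH, h1, h2, -, e⟩ | ⟨b, b', d, d', β, y, z, u, hB, hu, hu0, h1, -, e⟩
  · subst e
    exact (Q0_noB1 h.nice hsl.1 hz hvz).elim
  · subst e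
    exact (WB hcv hsl.2.2.1).elim
  · exact e
  · exact (WB hcv (hX.B1 h.nice).2.1).elim
  · rcases e with e | e | e
    · subst e
      exact (Q0_noB1 h.nice hH.1.b0 hz hvz).elim
    · subst e
      exact (WB hcv (hH.1.bl h.nice).1.1).elim
    · subst e
      exact hH.2.2
  · rcases e with e | e | e
    · subst e
      exact (Q0_noB1 h.nice hB.b0 hz hvz).elim
    · subst e
      exact (Q0_noB1 h.nice hB.d0 hz hvz).elim
    · subst e
      exact (Q0_noB1 h.nice hu0 hz hvz).elim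

theorem cn_Q1N {F0 : Finset V} (hc : Nice G c)  {v : V} (hv : v ∈ Qs G c 1)
    {s : V × V} (hs : s ∈ CnN G c F0 v) : G.Adj v s.2 ∨
      ∃ b d d' α β, House G c b v d d' α β ∧ (s.1 = b ∨ s.1 = d) ∧ (s.2 = α ∨ s.2 = β) := by
  obtain ⟨K, hK, hvK⟩ := mem_CnN.1 hs
  have hsl := hK.cor.slot hc
  rcases hK.cases hvK with e | e | ⟨-, e⟩ | ⟨q, q', p0, hX, -⟩ |
    ⟨b, b', d, d', α, β, hH, h1, h2, -, e⟩ | ⟨b, b', d, d', β, y, z, u, hB, hu, hu0, h1, -, e⟩
  · subst e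
    exact (Q0_Q1 hsl.1 hv).elim
  · subst e
    exact (WB (Q1_W hv) hsl.2.2.1).elim
  · exact Or.inl e
  · exact (WB (Q1_W hv) (hX.B1 hc).2.1).elim
  · rcases e with e | e | e
    · subst e
      exact (Q0_Q1 hH.1.b0 hv).elim
    · subst e
      exact (WB (Q1_W hv) (hH.1.bl hc).1.1).elim
    · subst e
      exact Or.inr ⟨b, d, d', α, β, hH, h1, h2⟩
  · rcases e with e | e | e
    · subst e
      exact (Q0_Q1 hB.b0 hv).elim
    · subst e
      exact (Q0_Q1 hB.d0 hv).elim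
    · subst e
      exact (Q0_Q1 hu0 hv).elim

theorem cn_Q2N {F0 : Finset V} (hc : Nice G c)  {v : V} (hv : v ∈ Qs G c 2)
    {s : V × V} (hs : s ∈ CnN G c F0 v) : False := by
  obtain ⟨K, hK, hvK⟩ := mem_CnN.1 hs
  have hsl := hK.cor.slot hc
  have hvW := (mem_Qs.1 hv).1.1
  rcases hK.cases hvK with e | e | ⟨e, -⟩ | ⟨q, q', p0, hX, -⟩ |
    ⟨b, b', d, d', α, β, hH, h1, h2, -, e⟩ | ⟨b, b', d, d', β, y, z, u, hB, hu, hu0, h1, -, e⟩
  · subst e
    exact Q0_Q2 hsl.1 hv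
  · subst e
    exact WB hvW hsl.2.2.1
  · exact Q1_Q2 e hv
  · exact WB hvW (hX.B1 hc).2.1
  · rcases e with e | e | e
    · subst e
      exact Q0_Q2 hH.1.b0 hv
    · subst e
      exact WB hvW (hH.1.bl hc).1.1
    · subst e
      exact Q1_Q2 hH.2.2 hv
  · rcases e with e | e | e
    · subst e
      exact Q0_Q2 hB.b0 hv
    · subst e
      exact Q0_Q2 hB.d0 hv
    · subst e
      exact Q0_Q2 hu0 hv

theorem jz_Q2_subN (h : PF G c) {F0 : Finset V}  {z z' g₁ g₂ : V}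
    (hz : z ∈ Qs G c 2) (hm : MA G c z z') (hN : N3 G z z' g₁ g₂) :
    JzN G c F0 z ⊆ CnN G c F0 g₁ ∪ CnN G c F0 g₂ := by
  intro s hs
  obtain ⟨K, hK, v, hv, hvz⟩ := mem_JzN.1 hs
  rcases hvz with rfl | ⟨hvz, hcol⟩
  · exact (cn_Q2N h.nice hz (mem_CnN.2 ⟨K, hK, hv⟩)).elim
  · rw [Finset.mem_union]
    rcases hN.mem hvz.symm with e | e | e
    · subst e
      exact (hcol hm.2.symm).elim
    · subst e
      exact Or.inl (mem_CnN.2 ⟨K, hK, hv⟩)
    · subst e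
      exact Or.inr (mem_CnN.2 ⟨K, hK, hv⟩)

theorem jz_Q2_cardN (h : PF G c) {F0 : Finset V}  {z : V}
    (hz : z ∈ Qs G c 2) : (JzN G c F0 z).card ≤ 2 := by
  obtain ⟨z', g₁, g₂, hm, hN, h1, h2⟩ := Q2_N3 h.cub h.nice hz
  have h3 := Finset.card_le_card (jz_Q2_subN (F0 := F0) h hz hm hN)
  have h4 := Finset.card_union_le (CnN G c F0 g₁) (CnN G c F0 g₂)
  have h5 := cn_B1_cardN (F0 := F0) h h1
  have h6 := cn_B1_cardN (F0 := F0) h h2
  omega

theorem jz_Q1_subN (h : PF G c) {F0 : Finset V}  {z z' v g : V}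
    (hz : z ∈ Qs G c 1) (hH : NoH G c z) (hm : MA G c z z') (hN : N3 G z z' v g)
    (hv : IsB0 G c v) : JzN G c F0 z ⊆ At G c F0 v ∪ CnN G c F0 g := by
  intro s hs
  obtain ⟨K, hK, t, ht, htz⟩ := mem_JzN.1 hs
  have hsl := hK.cor.slot h.nice
  rw [Finset.mem_union]
  rcases htz with rfl | ⟨htz, hcol⟩
  · rcases cn_Q1N h.nice hz (mem_CnN.2 ⟨K, hK, ht⟩) with e | ⟨b, d, d', α, β, hh, -⟩
    · exact Or.inl (mem_At.2 ⟨⟨K, hK.cor⟩,
        Q1_B0 h.cub h.nice hz e hsl.2.2 hN.adj.2.1 hv⟩)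
    · exact (hH _ _ _ _ _ hh).elim
  · rcases hN.mem htz.symm with e | e | e
    · subst e
      exact (hcol hm.2.symm).elim
    · subst e
      left
      rcases (cn_B0N h.nice hv (mem_CnN.2 ⟨K, hK, ht⟩)).2 with e | ⟨b, b', d, d', β, hh, h1, h2⟩
      · exact mem_At.2 ⟨⟨K, hK.cor⟩, e⟩
      · exfalso
        rcases hh.2.1.mem htz with e | e | e
        · subst e
          exact Q0_Q1 hh.1.b0 hz
        · subst e
          exact Q0_Q1 hh.1.d0 hz
        · subst e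
          exact hH _ _ _ _ _ hh
    · subst e
      exact Or.inr (mem_CnN.2 ⟨K, hK, ht⟩)

theorem jz_Q1_cardN (h : PF G c) {F0 : Finset V}  {z : V}
    (hz : z ∈ Qs G c 1) (hH : NoH G c z) : (JzN G c F0 z).card ≤ 2 := by
  obtain ⟨z', v, g, hm, hN, hv, hg⟩ := Q1_N3 h.cub h.nice hz
  have h3 := Finset.card_le_card (jz_Q1_subN (F0 := F0) h hz hH hm hN hv)
  have h4 := Finset.card_union_le (At G c F0 v) (CnN G c F0 g)
  have h5 := cn_B1_cardN (F0 := F0) h hg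
  obtain ⟨t₁, t₂, hv3⟩ := N3_of1 h.cub hN.adj.2.1.symm
  have h6 : At G c F0 v ⊆ {(t₁, v), (t₂, v)} := by
    intro s hs
    obtain ⟨⟨K, hK⟩, e⟩ := mem_At.1 hs
    have hsl := hK.slot h.nice
    rw [e] at hsl
    rw [Finset.mem_insert, Finset.mem_singleton]
    rcases hv3.mem hsl.2.1.symm with e1 | e1 | e1
    · exact (Q0_Q1 (e1 ▸ hsl.1) hz).elim
    · exact Or.inl (Prod.ext e1 e)
    · exact Or.inr (Prod.ext e1 e)
  have h7 : (At G c F0 v).card ≤ 2 := (Finset.card_le_card h6).trans Finset.card_le_two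
  by_cases h8 : CnN G c F0 g = ∅
  · rw [h8] at h3 h4
    rw [Finset.card_empty] at h4
    omega
  · obtain ⟨t, ht⟩ := Finset.nonempty_iff_ne_empty.2 h8
    obtain ⟨q, q', p0, hX, -⟩ := cn_B1N h.nice hg ht
    have h9 : (At G c F0 v).card ≤ 1 := by
      rw [Finset.card_le_one]
      intro s hs s' hs'
      obtain ⟨⟨K, hK⟩, e⟩ := mem_At.1 hs
      obtain ⟨⟨K', hK'⟩, e'⟩ := mem_At.1 hs'
      have g1 := hK.slot h.nice
      have g2 := hK'.slot h.nice
      rw [e] at g1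
      rw [e'] at g2
      have e1 := h.f1 _ _ _ _ _ _ z v s.1 hX hN.adj.2.2.symm (mem_Qs.1 hz).1 hN.adj.2.1 hv g1.1
        g1.2.1
      have e2 := h.f1 _ _ _ _ _ _ z v s'.1 hX hN.adj.2.2.symm (mem_Qs.1 hz).1 hN.adj.2.1 hv g2.1
        g2.2.1
      exact Prod.ext (e1.trans e2.symm) (e.trans e'.symm)
    omega

theorem jz_W1_cardN (h : PF G c) {F0 : Finset V}  {z : V}
    (hz : IsW1 G c z) (h0 : z ∉ Qs G c 0) (hH : NoH G c z) : (JzN G c F0 z).card ≤ 2 := by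
  rcases W1_cases h.cub h.nice hz with h1 | h1 | h1
  · exact absurd h1 h0
  · exact jz_Q1_cardN h h1 hH
  · exact jz_Q2_cardN h h1

theorem jz_Q0N (h : PF G c) {F0 : Finset V}  {z : V} (hz : z ∈ Qs G c 0)
    {s : V × V} (hs : s ∈ JzN G c F0 z) :
    s.1 = z ∨ G.Adj s.1 z ∨ Tw G c s.1 z ∨ OptB G c F0 s z := by
  obtain ⟨K, hK, v, hv, hvz⟩ := mem_JzN.1 hs
  have hsl := hK.cor.slot h.nice
  rcases hvz with rfl | ⟨hvz, hcol⟩
  · rcases hK.cases hv with e | e | ⟨e, -⟩ | ⟨q, q', p0, hX, -⟩ |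
      ⟨b, b', d, d', α, β, hH, h1, h2, -, e⟩ |
      ⟨b, b', d, d', β, y, z, u, hB, hu, hu0, h1, e1, e⟩
    · exact Or.inl e.symm
    · subst e
      exact (WB (Q0_W hz) hsl.2.2.1).elim
    · exact (Q0_Q1 hz e).elim
    · exact (WB (Q0_W hz) (hX.B1 h.nice).2.1).elim
    · rcases e with e | e | e
      · subst e
        rcases h1 with e | e
        · exact Or.inl e
        · rw [e]
          exact Or.inr (Or.inr (Or.inl hH.1.tw.symm))
      · subst e
        exact (WB (Q0_W hz) (hH.1.bl h.nice).1.1).elim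
      · subst e
        exact (Q0_Q1 hz hH.2.2).elim
    · rcases e with e | e | e
      · subst e
        rcases h1 with e | e
        · exact Or.inl e
        · rw [e]
          exact Or.inr (Or.inr (Or.inl hB.toBlk.tw.symm))
      · subst e
        rcases h1 with e | e
        · rw [e]
          exact Or.inr (Or.inr (Or.inl hB.toBlk.tw))
        · exact Or.inl e
      · subst e
        refine Or.inr (Or.inr (Or.inr ⟨b, b', d, d', β, y, z, hB, hu, hu0, h1, ?_⟩))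
        rw [← e1]
        exact hK.2
  · have hcv : c v = false := by
      rw [Q0_W hz] at hcol
      simpa using hcol
    have hv0 := Q0_nb h.nice hz hvz.symm hcv
    have h1 := (cn_B0N h.nice hv0 (mem_CnN.2 ⟨K, hK, hv⟩)).1
    rcases h.src hsl.1 hz h1 hvz.symm with e | e | e
    · exact Or.inl e
    · exact Or.inr (Or.inl e)
    · exact Or.inr (Or.inr (Or.inl e))

end

end Pool.Agent.Work.MP_1e13ac_W
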