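import Pool.Agent.Work.MP_1e13ac_W.PkBase

/-!
# MP_1e13ac_co, World 2: tools for stage 3 (blocks) (helper87)
-/

set_option autoImplicit false
set_option linter.unusedSectionVars false

namespace Pool.Agent.Work.MP_1e13ac_W

open Classical Finset Pool.Agent.Work.MP_1e13ac_Bis

noncomputable section

variable {V : Type} [Fintype V] {G : SimpleGraph V} {c : V → Bool} {F0 : Finset V}

/-! ## Zones -/

theorem ZD_ins {v : V} {K F : Finset V} :
    ZD G c (insert v K) F ↔ ZD G c {v} F ∧ ZD G c K F := by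
  have e : insert v K = {v} ∪ K := Finset.insert_eq v K
  rw [e]
  constructor
  · intro h
    have h' := ZD_union.1 (ZD_symm h)
    exact ⟨ZD_symm h'.1, ZD_symm h'.2⟩
  · rintro ⟨h1, h2⟩
    exact ZD_symm (ZD_union.2 ⟨ZD_symm h1, ZD_symm h2⟩)

theorem Zn_ins {v : V} {K : Finset V} : Zn G c (insert v K) = Zn G c {v} ∪ Zn G c K := by
  have e : insert v K = {v} ∪ K := Finset.insert_eq v K
  rw [e, Zn_union]

/-- the zone of a vertex in `B0` -/
theorem B0_zone {a z : V} (ha : IsB0 G c a) (hz : z ∈ Zn G c {a}) :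
    z = a ∨ G.Adj a z ∨ ∃ x, G.Adj a x ∧ MA G c x z := by
  have hN : ∀ t, t ∈ NF G {a} → t = a ∨ G.Adj a t := by
    intro t ht
    rcases mem_NF.1 ht with h1 | ⟨f, hf, h1⟩
    · exact Or.inl (by simpa using h1)
    · have hfx : f = a := by simpa using hf
      subst hfx
      exact Or.inr h1
  rcases mem_Zn.1 hz with h1 | ⟨t, ht, h1⟩
  · rcases hN z h1 with e | e
    · exact Or.inl e
    · exact Or.inr (Or.inl e)
  · rcases hN t ht with e | e
    · subst e
      exact (md0_no ha.2 h1).elim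
    · exact Or.inr (Or.inr ⟨t, e, h1⟩)

/-! ## Slots of twins -/

/-- the alive slots of `w` and of its twin -/
def TS (G : SimpleGraph V) (c : V → Bool) (F0 : Finset V) (w : V) : Finset (V × V) :=
  univ.filter fun s => (s.1 = w ∨ Tw G c s.1 w) ∧ ∃ K, Cor G c F0 s K

theorem mem_TS {w : V} {s : V × V} : s ∈ TS G c F0 w ↔
    (s.1 = w ∨ Tw G c s.1 w) ∧ ∃ K, Cor G c F0 s K := by simp [TS]

theorem TS_card2 (h : PF G c) {w : V} (hw : ∀ t, ¬ Tw G c t w) : (TS G c F0 w).card ≤ 2 := by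
  refine (Finset.card_le_card ?_).trans (HS_card h (F0 := F0) w)
  intro s hs
  obtain ⟨h1, h2⟩ := mem_TS.1 hs
  rcases h1 with h1 | h1
  · exact mem_HS.2 ⟨h1, h2⟩
  · exact (hw _ h1).elim

theorem TS_card (h : PF G c) (w : V) : (TS G c F0 w).card ≤ 4 := by
  by_cases ht : ∃ t, Tw G c t w
  · obtain ⟨t, ht⟩ := ht
    have h1 : TS G c F0 w ⊆ HS G c F0 w ∪ HS G c F0 t := by
      intro s hs
      obtain ⟨h1, h2⟩ := mem_TS.1 hs
      rw [Finset.mem_union]
      rcases h1 with h1 | h1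
      · exact Or.inl (mem_HS.2 ⟨h1, h2⟩)
      · exact Or.inr (mem_HS.2 ⟨h1.symm.uniq h ht.symm, h2⟩)
    have h2 := Finset.card_le_card h1
    have h3 := Finset.card_union_le (HS G c F0 w) (HS G c F0 t)
    have h4 := HS_card h (F0 := F0) w
    have h5 := HS_card h (F0 := F0) t
    omega
  · have := TS_card2 (F0 := F0) h (w := w) fun t h1 => ht ⟨t, h1⟩
    omega

theorem TS_tw (h : PF G c) {w t : V} (ht : Tw G c t w) : TS G c F0 t = TS G c F0 w := by
  ext s
  rw [mem_TS, mem_TS]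
  refine and_congr ?_ Iff.rfl
  constructor
  · rintro (e | e)
    · rw [e]
      exact Or.inr ht
    · exact Or.inl (e.symm.uniq h ht)
  · rintro (e | e)
    · rw [e]
      exact Or.inr ht.symm
    · exact Or.inl (e.symm.uniq h ht.symm)

/-- the alive slots of the mate of the twin of `w`, and of the twin of this mate -/
def MT (G : SimpleGraph V) (c : V → Bool) (F0 : Finset V) (w : V) : Finset (V × V) :=
  univ.filter fun s => ∃ t m, Tw G c t w ∧ MA G c t m ∧ s ∈ TS G c F0 m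

theorem mem_MT {w : V} {s : V × V} : s ∈ MT G c F0 w ↔
    ∃ t m, Tw G c t w ∧ MA G c t m ∧ s ∈ TS G c F0 m := by simp [MT]

theorem MT_sub (h : PF G c) {w t m : V} (ht : Tw G c t w) (hm : MA G c t m) :
    MT G c F0 w ⊆ TS G c F0 m := by
  intro s hs
  obtain ⟨t', m', h1, h2, h3⟩ := mem_MT.1 hs
  have e : t' = t := h1.symm.uniq h ht.symm
  subst e
  rw [nice_uniq h.nice hm h2]
  exact h3

theorem MT_none {w : V} (hw : ∀ t, ¬ Tw G c t w) : MT G c F0 w = ∅ := by
  rw [Finset.eq_empty_iff_forall_notMem]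
  intro s hs
  obtain ⟨t', m', h1, h2, h3⟩ := mem_MT.1 hs
  exact hw _ h1

theorem MT_card (h : PF G c) (w : V) : (MT G c F0 w).card ≤ 4 := by
  by_cases ht : ∃ t, Tw G c t w
  · obtain ⟨t, ht⟩ := ht
    obtain ⟨m, hm⟩ := mate_ex (mem_Qs.1 ht.1).1
    exact (Finset.card_le_card (MT_sub h ht hm)).trans (TS_card h m)
  · rw [MT_none fun t h1 => ht ⟨t, h1⟩]
    simp

/-- a vertex which is not a source has no slots -/
theorem TS_nosrc (hc : Nice G c) {w : V} (hw : w ∉ Qs G c 0) : TS G c F0 w = ∅ := by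
  rw [Finset.eq_empty_iff_forall_notMem]
  intro s hs
  obtain ⟨h1, K, hK⟩ := mem_TS.1 hs
  rcases h1 with e | e
  · exact hw (e ▸ (hK.slot hc).1)
  · exact hw e.2.1

/-- the slots with a block core using the mate `u` -/
theorem OptB_TS (h : PF G c) {s : V × V} {u u' : V} (hm : MA G c u u')
    (ho : OptB G c F0 s u) : s ∈ TS G c F0 u' := by
  obtain ⟨b, b', d, d', β, y, z, hB, hu, hu0, hs, hz⟩ := ho
  refine mem_TS.2 ⟨?_, _, Or.inl ⟨2, CrA.blk b b' d d' s.2 β y z u s.1 hB hu hu0 hs⟩, hz⟩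
  rcases hu with rfl | rfl
  · rw [nice_uniq h.nice hm (ma_symm hB.mb)]
    rcases hs with e | e
    · exact Or.inl e
    · rw [e]
      exact Or.inr hB.toBlk.tw.symm
  · rw [nice_uniq h.nice hm (ma_symm hB.md)]
    rcases hs with e | e
    · rw [e]
      exact Or.inr hB.toBlk.tw
    · exact Or.inl e

theorem ma_of {x y : V} (h : G.Adj x y) (hx : c x = true) (hy : c y = true) : MA G c x y :=
  ⟨h, by rw [hx, hy]⟩

/-- the kill set of a source -/
theorem jzQ0_sub (h : PF G c) (hA : NoA G c 1 F0) {z z' : V} (hz : z ∈ Qs G c 0)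
    (hm : MA G c z z') : Jz G c F0 z ⊆ TS G c F0 z ∪ TS G c F0 z' := by
  intro s hs
  rw [Finset.mem_union]
  obtain ⟨K, hK, -⟩ := mem_Jz.1 hs
  have hsl := hK.slot h.nice
  rcases jz_Q0 h hA hz hs with e | e | e | e
  · exact Or.inl (mem_TS.2 ⟨Or.inl e, K, hK⟩)
  · right
    refine mem_TS.2 ⟨Or.inl ?_, K, hK⟩
    exact nice_uniq h.nice (ma_of e.symm (Q0_W hz) (Q0_W hsl.1)) hm
  · exact Or.inl (mem_TS.2 ⟨Or.inr e, K, hK⟩)
  · exact Or.inr (OptB_TS h hm e)

/-- the kill set of a black neighbour of the source `w` -/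
theorem jzB0_sub (h : PF G c) (hA : NoA G c 1 F0) {w w' p : V} (hw : w ∈ Qs G c 0)
    (hm : MA G c w w') (hp : G.Adj w p) (hp0 : IsB0 G c p) (hn : ¬ G.Adj w' p) :
    Jz G c F0 p ⊆ TS G c F0 w ∪ TS G c F0 w' ∪ MT G c F0 w := by
  intro s hs
  rw [Finset.mem_union, Finset.mem_union]
  obtain ⟨K, hK, -⟩ := mem_Jz.1 hs
  have hsl := hK.slot h.nice
  rcases jz_B0 h hA hp0 hs with e | ⟨u, hu, hup⟩
  · rcases h.src hsl.1 hw e hp with e1 | e1 | e1
    · exact Or.inl (Or.inl (mem_TS.2 ⟨Or.inl e1, K, hK⟩))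
    · exfalso
      have := nice_uniq h.nice (ma_of e1.symm (Q0_W hw) (Q0_W hsl.1)) hm
      rw [this] at e
      exact hn e
    · exact Or.inl (Or.inl (mem_TS.2 ⟨Or.inr e1, K, hK⟩))
  · have hu0 : u ∈ Qs G c 0 := by
      obtain ⟨b, b', d, d', β, y, z, hB, hu', hu0, hs, hz⟩ := hu
      exact hu0
    rcases h.src hu0 hw hup hp with e1 | e1 | e1
    · subst e1
      exact Or.inl (Or.inr (OptB_TS h hm hu))
    · exfalso
      have := nice_uniq h.nice (ma_of e1.symm (Q0_W hw) (Q0_W hu0)) hm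
      rw [this] at hup
      exact hn hup
    · obtain ⟨m, hm'⟩ := mate_ex (mem_Qs.1 hu0).1
      exact Or.inr (mem_MT.2 ⟨u, m, e1, hm', OptB_TS h hm' hu⟩)

/-! ## Slots with twins -/

/-- the core of a slot the source of which has a twin -/
theorem Cor.twin (h : PF G c) (hA : NoA G c 2 F0) {s : V × V} {K : Finset V}
    (hK : Cor G c F0 s K) {t : V} (ht : Tw G c t s.1) :
    (∃ b' d' β y z u, PBlk G c s.1 b' t d' s.2 β y z ∧ (u = b' ∨ u = d') ∧ u ∈ Qs G c 0 ∧
      ZD G c {s.1} F0 ∧ ZD G c {t} F0 ∧ ZD G c {s.2} F0 ∧ ZD G c {u} F0) ∨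
    ∃ b b' d d' α β, House G c b b' d d' α β ∧ ((s.1 = b ∧ t = d) ∨ (s.1 = d ∧ t = b)) ∧
      (s.2 = α ∨ s.2 = β) ∧ ZD G c (insert b' {b, α}) F0 := by
  obtain ⟨w, a⟩ := s
  have hsl := hK.slot h.nice
  simp only at ht hsl ⊢
  have hta : G.Adj t a := (ht.2.2.2.2 a hsl.2.2.1).2 hsl.2.1
  have ht0 : t ∈ Qs G c 0 := ht.1
  obtain ⟨⟨n, g1⟩ | ⟨n, H, τ, e, g1, rfl⟩, g2⟩ := hK
  · have hn := hA n w a K g1 g2
    cases g1 with
    | ex1 => exact absurd hn (by norm_num)
    | d0 => exact absurd hn (by norm_num)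
    | blk b b' d d' α β y z u w hB hu hu0 hw =>
      left
      rw [ZD_ins, ZD_ins, ZD_ins] at g2
      rcases hw with rfl | rfl
      · have e1 : t = d := ht.symm.uniq h hB.toBlk.tw
        subst e1
        exact ⟨b', d', β, y, z, u, hB, hu, hu0, g2.1, g2.2.1, g2.2.2.1, g2.2.2.2⟩
      · have e1 : t = b := ht.symm.uniq h hB.toBlk.tw.symm
        subst e1
        exact ⟨d', b', β, y, z, u, hB.symm, hu.symm, hu0, g2.2.1, g2.1, g2.2.2.1, g2.2.2.2⟩
    | e w a x y g3 g4 g5 g6 =>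
      exfalso
      rcases g4.mem hta.symm with e | e | e
      · exact ht.2.2.1 e
      · subst e
        exact Q0_W0 ht0 g5
      · subst e
        exact Q0_W0 ht0 g6
    | x3 w w' a q q' p p' r s g3 g4 g5 g6 g7 g8 =>
      exfalso
      rcases g5.mem hta.symm with e | e | e
      · exact ht.2.2.1 e
      · subst e
        exact Q0_Q1 ht0 g7
      · subst e
        exact Q0_Q1 ht0 g8
  · cases g1 with
    | m w w' a x x' y g3 g4 g5 g6 g7 g8 g9 =>
      exfalso
      rcases g5.mem hta.symm with e | e | e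
      · exact ht.2.2.1 e
      · subst e
        exact Q0_Q1 ht0 g6
      · subst e
        rcases g9 with g9 | g9
        · exact Q0_W0 ht0 g9
        · exact Q0_Q1 ht0 (g9.1 ▸ g9.2)
    | x4 w w' a q q' p p' r r' s g3 g4 g5 g6 g7 g8 =>
      exfalso
      rcases g5.mem hta.symm with e | e | e
      · exact ht.2.2.1 e
      · subst e
        exact Q0_Q1 ht0 g7
      · subst e
        exact Q0_Q1 ht0 g8
    | hs b b' d d' α β w a g3 g4 g5 g6 g7 =>
      right
      refine ⟨b, _, d, _, α, β, ⟨g3, g4, g5⟩, ?_, g7, g2⟩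
      rcases g6 with rfl | rfl
      · exact Or.inl ⟨rfl, ht.symm.uniq h g3.tw⟩
      · exact Or.inr ⟨rfl, ht.symm.uniq h g3.tw.symm⟩
    | d1 w w' a x x' g3 g4 g5 g6 g7 g8 =>
      exfalso
      rcases g6.mem hta.symm with e | e | e
      · exact ht.2.2.1 e
      · subst e
        exact ht.2.2.2.1 g5.1.symm
      · subst e
        exact Q0_Q1 ht0 g7

/-- a core contains the source, or the source has a twin -/
theorem Cor.fst {s : V × V} {K : Finset V} (hK : Cor G c F0 s K) :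
    s.1 ∈ K ∨ ∃ t, Tw G c t s.1 := by
  obtain ⟨w, a⟩ := s
  obtain ⟨⟨n, g1⟩ | ⟨n, H, τ, e, g1, rfl⟩, g2⟩ := hK
  · cases g1 with
    | ex1 b b' d d' α β y z h p w hB _ _ _ _ _ _ _ _ hw =>
      rcases hw with rfl | rfl
      · exact Or.inr ⟨_, hB.toBlk.tw.symm⟩
      · exact Or.inr ⟨_, hB.toBlk.tw⟩
    | d0 => exact Or.inl (by simp)
    | blk b b' d d' α β y z u w hB hu hu0 hw =>
      rcases hw with rfl | rfl
      · exact Or.inr ⟨_, hB.toBlk.tw.symm⟩
      · exact Or.inr ⟨_, hB.toBlk.tw⟩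
    | e => exact Or.inl (by simp)
    | x3 => exact Or.inl (by simp)
  · cases g1 with
    | m => exact Or.inl (by simp)
    | x4 => exact Or.inl (by simp)
    | hs b b' d d' α β w a g3 g4 g5 g6 g7 =>
      rcases g6 with rfl | rfl
      · exact Or.inr ⟨_, g3.tw.symm⟩
      · exact Or.inr ⟨_, g3.tw⟩
    | d1 => exact Or.inl (by simp)

/-- the slots of a source the mate of which is unblocked -/
theorem live_blk (h : PF G c) (hA : NoA G c 2 F0) (hE : NoE G c 7 F0) {w w' : V}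
    (hw : w ∈ Qs G c 0) (hz : ZD G c {w} F0) (hm : MA G c w w') {s : V × V}
    (hs : s ∈ TS G c F0 w') {t : V} (ht : Tw G c t w') :
    ∃ t' β y z, PBlk G c w' w t t' s.2 β y z ∧ ZD G c {w'} F0 ∧ ZD G c {t} F0 ∧
      ZD G c {s.2} F0 := by
  obtain ⟨h1, K, hK⟩ := mem_TS.1 hs
  have key : ∀ t, Tw G c t s.1 → (s.1 = w' ∨ t = w') → (∃ b' d' β y z u,
      PBlk G c s.1 b' t d' s.2 β y z ∧ (u = b' ∨ u = d') ∧ u ∈ Qs G c 0 ∧
      ZD G c {s.1} F0 ∧ ZD G c {t} F0 ∧ ZD G c {s.2} F0 ∧ ZD G c {u} F0) := by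
    intro t ht hst
    rcases hK.twin h hA ht with h2 | ⟨b, b₁, d, d₁, α, β, hH, h2, h3, h4⟩
    · exact h2
    · exfalso
      have hs1 : s.1 = b ∨ s.1 = d := by
        rcases h2 with h2 | h2
        · exact Or.inl h2.1
        · exact Or.inr h2.1
      have hw' : w' = b ∨ w' = d := by
        rcases h2 with ⟨e1, e2⟩ | ⟨e1, e2⟩ <;> rcases hst with e3 | e3
        · exact Or.inl (e3.symm.trans e1)
        · exact Or.inr (e3.symm.trans e2)
        · exact Or.inr (e3.symm.trans e1)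
        · exact Or.inl (e3.symm.trans e2)
      rcases hw' with e | e
      · have e1 : w = b₁ := nice_uniq h.nice (ma_symm hm) (e ▸ hH.1.mb)
        subst e1
        exact Q0_Q1 hw hH.2.2
      · have e1 : w = d₁ := nice_uniq h.nice (ma_symm hm) (e ▸ hH.1.md)
        subst e1
        exact hE s.1 s.2 {b, α} b₁ w (CrB.hs b b₁ d w α β s.1 s.2 hH.1 hH.2.1 hH.2.2 hs1 h3) h4
          hw hz
  rcases h1 with h1 | h1
  · obtain ⟨b', d', β, y, z, u, hB, -, -, z1, z2, z3, -⟩ := key t (h1 ▸ ht) (Or.inl h1)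
    rw [h1] at hB z1
    have e1 : w = b' := nice_uniq h.nice (ma_symm hm) hB.mb
    subst e1
    exact ⟨d', β, y, z, hB, z1, z2, z3⟩
  · obtain ⟨b', d', β, y, z, u, hB, -, -, z1, z2, z3, -⟩ := key w' h1.symm (Or.inr rfl)
    have e1 : s.1 = t := h1.symm.uniq h ht.symm
    have e2 : w = d' := nice_uniq h.nice (ma_symm hm) hB.md
    subst e2
    rw [e1] at hB z1
    exact ⟨b', β, y, z, hB.symm, z2, z1, z3⟩

/-- a source with an unblocked mate and a slot is unblocked -/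
theorem TS_free (h : PF G c) (hA : NoA G c 2 F0) (hE : NoE G c 7 F0) {w w' : V}
    (hw : w ∈ Qs G c 0) (hz : ZD G c {w} F0) (hm : MA G c w w') {s : V × V}
    (hs : s ∈ TS G c F0 w') : ZD G c {w'} F0 := by
  by_cases ht : ∃ t, Tw G c t w'
  · obtain ⟨t, ht⟩ := ht
    obtain ⟨t', β, y, z, -, h1, -, -⟩ := live_blk h hA hE hw hz hm hs ht
    exact h1
  · obtain ⟨h1, K, hK⟩ := mem_TS.1 hs
    rcases h1 with h1 | h1
    · rcases hK.fst with h2 | ⟨t, h2⟩
      · have h3 := hK.2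
        rw [← h1]
        exact ZD_mono (Finset.singleton_subset_iff.2 h2) h3
      · exact (ht ⟨t, h1 ▸ h2⟩).elim
    · exact (ht ⟨_, h1⟩).elim

end

end Pool.Agent.Work.MP_1e13ac_W
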