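import Pool.Agent.Work.MP_1e13ac_W.PkS3a

/-!
# MP_1e13ac_co, World 2: kill sets of the units and double units of stage 3 (helper87)
-/

set_option autoImplicit false
set_option linter.unusedSectionVars false

namespace Pool.Agent.Work.MP_1e13ac_W

open Classical Finset Pool.Agent.Work.MP_1e13ac_Bis

noncomputable section

variable {V : Type} [Fintype V] {G : SimpleGraph V} {c : V → Bool} {F0 : Finset V}

theorem NoA_mono {m n : ℕ} (hmn : m ≤ n) (hA : NoA G c n F0) : NoA G c m F0 :=
  fun k w a K h1 h2 => hmn.trans (hA k w a K h1 h2)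

/-- the mates of block twins are not adjacent to the black neighbours -/
theorem PBlk.nadj {b b' d d' α β y z : V} (hc : Nice G c) (hB : PBlk G c b b' d d' α β y z) :
    ¬ G.Adj b' α ∧ ¬ G.Adj b' β ∧ ¬ G.Adj d' α ∧ ¬ G.Adj d' β := by
  have key : ∀ b b' d d' α β y z, PBlk G c b b' d d' α β y z → ¬ G.Adj b' α := by
    intro b b' d d' α β y z hB hh
    rcases hB.nα.mem hh.symm with e | e | e
    · exact hB.mb.1.ne e.symm
    · exact hB.na (e ▸ hB.mb.1)
    · exact W0_not_W1 hB.y0 (e ▸ W1_of_MA hc (ma_symm hB.mb) (MA_W hB.mb (Q0_W hB.b0)))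
  exact ⟨key _ _ _ _ _ _ _ _ hB, key _ _ _ _ _ _ _ _ hB.flip, key _ _ _ _ _ _ _ _ hB.symm,
    key _ _ _ _ _ _ _ _ hB.symm.flip⟩

/-- block twins are in no house -/
theorem PBlk.no_house {b b' d d' α β y z : V} (h : PF G c) (hB : PBlk G c b b' d d' α β y z)
    {b₁ b₁' d₁ d₁' α₁ β₁ : V} (hH : House G c b₁ b₁' d₁ d₁' α₁ β₁) :
    b₁ ≠ b ∧ b₁ ≠ d := by
  have key : ∀ b b' d d' α β y z, PBlk G c b b' d d' α β y z → b₁ ≠ b := by
    intro b b' d d' α β y z hB e
    subst e
    have hα₁ := (hH.1.bl h.nice).1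
    rcases hB.nb.mem hH.1.nb.adj.2.1 with e | e | e
    · subst e
      exact WB (MA_W hB.mb (Q0_W hB.b0)) hα₁.1
    · subst e
      rcases hB.nα.mem hH.2.1.adj.2.2 with e | e | e
      · exact hH.2.1.2.1 e.symm
      · subst e
        exact Q0_Q1 hB.d0 hH.2.2
      · subst e
        exact Q1_W0 hH.2.2 hB.y0
    · subst e
      rcases hB.nβ.mem hH.2.1.adj.2.2 with e | e | e
      · exact hH.2.1.2.1 e.symm
      · subst e
        exact Q0_Q1 hB.d0 hH.2.2
      · subst e
        exact Q1_W0 hH.2.2 hB.z0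
  exact ⟨key _ _ _ _ _ _ _ _ hB, key _ _ _ _ _ _ _ _ hB.symm⟩

/-- if the side `β` is blocked then the block has at most two slots -/
theorem PBlk.one_side (h : PF G c) (hA : NoA G c 2 F0) {b b' d d' α β y z : V}
    (hB : PBlk G c b b' d d' α β y z) (hz : ¬ ZD G c {β} F0) : (TS G c F0 b).card ≤ 2 := by
  have h1 : TS G c F0 b ⊆ {(b, α), (d, α)} := by
    intro s hs
    obtain ⟨h1, K, hK⟩ := mem_TS.1 hs
    have hsl := hK.slot h.nice
    have h2 : s.1 = b ∨ s.1 = d := by
      rcases h1 with h1 | h1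
      · exact Or.inl h1
      · exact Or.inr (h1.symm.uniq h hB.toBlk.tw)
    have h3 : ∃ t, Tw G c t s.1 ∧ (t = b ∨ t = d) := by
      rcases h2 with e | e
      · rw [e]
        exact ⟨d, hB.toBlk.tw.symm, Or.inr rfl⟩
      · rw [e]
        exact ⟨b, hB.toBlk.tw, Or.inl rfl⟩
    obtain ⟨t, ht, ht2⟩ := h3
    have h4 : s.2 = α ∨ s.2 = β := by
      have key : ∀ b b' d d' α β y z, PBlk G c b b' d d' α β y z → s.1 = b → s.2 = α ∨ s.2 = β := by
        intro b b' d d' α β y z hB e
        have h5 := hsl.2.1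
        rw [e] at h5
        rcases hB.nb.mem h5 with e | e | e
        · exfalso
          exact WB (e ▸ MA_W hB.mb (Q0_W hB.b0)) hsl.2.2.1
        · exact Or.inl e
        · exact Or.inr e
      rcases h2 with e | e
      · exact key _ _ _ _ _ _ _ _ hB e
      · exact key _ _ _ _ _ _ _ _ hB.symm e
    have h5 : s.2 = α := by
      rcases h4 with e | e
      · exact e
      · exfalso
        rcases hK.twin h hA ht with ⟨_, _, _, _, _, _, _, _, _, _, _, h5, _⟩ |
          ⟨b₁, b₁', d₁, d₁', α₁, β₁, hH, h5, -⟩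
        · exact hz (e ▸ h5)
        · have h6 := hB.no_house h hH
          rcases h5 with ⟨e1, e2⟩ | ⟨e1, e2⟩
          · rcases h2 with e3 | e3
            · exact h6.1 (e1.symm.trans e3)
            · exact h6.2 (e1.symm.trans e3)
          · rcases ht2 with e3 | e3
            · exact h6.1 (e2.symm.trans e3)
            · exact h6.2 (e2.symm.trans e3)
    rw [Finset.mem_insert, Finset.mem_singleton]
    rcases h2 with e | e
    · exact Or.inl (Prod.ext e h5)
    · exact Or.inr (Prod.ext e h5)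
  exact (Finset.card_le_card h1).trans Finset.card_le_two

/-- a neighbour of a vertex in `W0` has one core, or it is the side of a block -/
theorem cn_alt (h : PF G c) (hA : NoA G c 2 F0) {p z : V} (hz : IsW0 G c z)
    (hpz : G.Adj z p) : (Cn G c F0 p).card ≤ 1 ∨
      ∃ b b' d d' β z', PBlk G c b b' d d' p β z z' := by
  have hA1 : NoA G c 1 F0 := NoA_mono (by norm_num) hA
  rcases B0_or_B1 h.nice (B_of_W hpz hz) with hp | hp
  swap
  · exact Or.inl (cn_B1_card h hA1 hp)
  by_cases hex : ∃ b b' d d' β z', PBlk G c b b' d d' p β z z'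
  · exact Or.inr hex
  left
  have hsp : ∀ s ∈ Cn G c F0 p, s.2 = p := by
    intro s hs
    rcases (cn_B0 h.nice hA1 hp hs).2 with h2 | ⟨b, b', d, d', β, hH, h3, h4⟩
    · exact h2
    · exfalso
      rcases hH.2.1.mem hpz.symm with e | e | e
      · subst e
        exact Q0_W0 hH.1.b0 hz
      · subst e
        exact Q0_W0 hH.1.d0 hz
      · subst e
        exact Q1_W0 hH.2.2 hz
  have key : ∀ s ∈ Cn G c F0 p, ∀ t, t ∈ Qs G c 0 → G.Adj t p → t = s.1 := by
    intro s hs t ht htp
    by_contra hne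
    obtain ⟨h1, -⟩ := cn_B0 h.nice hA1 hp hs
    have hsp' := hsp s hs
    obtain ⟨K, hK, hpK⟩ := mem_Cn.1 hs
    have hz1 : z ≠ s.1 := by
      rintro rfl
      exact Q0_W0 (hK.slot h.nice).1 hz
    have hz2 : z ≠ t := by
      rintro rfl
      exact Q0_W0 ht hz
    obtain ⟨w, a⟩ := s
    simp only at hsp' h1 hne hz1
    subst hsp'
    have hN : N3 G a w t z := N3_of3 h.cub h1.symm htp.symm hpz.symm (Ne.symm hne) hz1.symm
      hz2.symm
    obtain ⟨⟨n, g1⟩ | ⟨n, H, τ, e, g1, rfl⟩, g2⟩ := hK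
    · have hn := hA n w a K g1 g2
      cases g1 with
      | ex1 => exact absurd hn (by norm_num)
      | d0 => exact absurd hn (by norm_num)
      | blk b b' d d' α β y z' u w hB hu hu0 hw =>
        refine hex ⟨b, b', d, d', β, z', ?_⟩
        have e1 : z = y := by
          rcases hB.nα.mem hN.adj.2.2 with e | e | e
          · subst e
            exact (Q0_W0 hB.b0 hz).elim
          · subst e
            exact (Q0_W0 hB.d0 hz).elim
          · exact e
        rw [e1]
        exact hB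
      | e w a x y g3 g4 g5 g6 =>
        rcases g4.mem hN.adj.2.1 with e | e | e
        · exact hN.1 e.symm
        · subst e
          exact Q0_W0 ht g5
        · subst e
          exact Q0_W0 ht g6
      | x3 w w' a q q' p p' r s g3 g4 g5 g6 g7 g8 =>
        rcases g5.mem hN.adj.2.1 with e | e | e
        · exact hN.1 e.symm
        · subst e
          exact Q0_Q1 ht g7
        · subst e
          exact Q0_Q1 ht g8
    · cases g1 with
      | m w w' a x x' y g3 g4 g5 g6 g7 g8 g9 =>
        rcases hN.mem g5.adj.2.1 with e | e | e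
        · exact g5.1 e.symm
        · subst e
          exact Q0_Q1 ht g6
        · subst e
          exact Q1_W0 g6 hz
      | x4 w w' a q q' p p' r r' s g3 g4 g5 g6 g7 g8 =>
        rcases g5.mem hN.adj.2.1 with e | e | e
        · exact hN.1 e.symm
        · subst e
          exact Q0_Q1 ht g7
        · subst e
          exact Q0_Q1 ht g8
      | hs b b' d d' α β w a g3 g4 g5 g6 g7 =>
        have hal : a = α := by
          rcases g7 with e | e
          · exact e
          · subst e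
            rw [Finset.mem_insert, Finset.mem_insert, Finset.mem_singleton] at hpK
            rcases hpK with e | e | e
            · subst e
              exact (WB (Q1_W g5) hp.1).elim
            · subst e
              exact (WB (Q0_W g3.b0) hp.1).elim
            · exact e
        subst hal
        rcases g4.mem hpz.symm with e | e | e
        · subst e
          exact Q0_W0 g3.b0 hz
        · subst e
          exact Q0_W0 g3.d0 hz
        · subst e
          exact Q1_W0 g5 hz
      | d1 w w' a x x' g3 g4 g5 g6 g7 g8 =>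
        rcases hN.mem g6.adj.2.2 with e | e | e
        · exact g6.2.1 e.symm
        · subst e
          exact Q0_Q1 ht g7
        · subst e
          exact Q1_W0 g7 hz
  rw [Finset.card_le_one]
  intro s hs t ht
  obtain ⟨h1, -⟩ := cn_B0 h.nice hA1 hp hs
  obtain ⟨h3, -⟩ := cn_B0 h.nice hA1 hp ht
  obtain ⟨K, hK, hpK⟩ := mem_Cn.1 ht
  have e1 := key s hs t.1 (hK.slot h.nice).1 h3
  exact Prod.ext e1.symm (by rw [hsp s hs, hsp t ht])

/-- the cores at a black neighbour of a source -/
theorem cn_src (h : PF G c) (hA : NoA G c 1 F0) {w w' p : V} (hw : w ∈ Qs G c 0)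
    (hm : MA G c w w') (hp : G.Adj w p) (hp0 : IsB0 G c p) (hn : ¬ G.Adj w' p) :
    Cn G c F0 p ⊆ TS G c F0 w := by
  intro s hs
  obtain ⟨K, hK, -⟩ := mem_Cn.1 hs
  have hsl := hK.slot h.nice
  have e := (cn_B0 h.nice hA hp0 hs).1
  rcases h.src hsl.1 hw e hp with e1 | e1 | e1
  · exact mem_TS.2 ⟨Or.inl e1, K, hK⟩
  · exfalso
    have := nice_uniq h.nice (ma_of e1.symm (Q0_W hw) (Q0_W hsl.1)) hm
    rw [this] at e
    exact hn e
  · exact mem_TS.2 ⟨Or.inr e1, K, hK⟩

/-- another neighbour of the outer vertex `y` of a block: one core, or the slots of a mate -/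
theorem cn_outer (h : PF G c) (hA : NoA G c 2 F0) {b b' d d' α β y z g : V}
    (hB : PBlk G c b b' d d' α β y z) (hg : G.Adj y g) (hne : g ≠ α) :
    (Cn G c F0 g).card ≤ 1 ∨ (Cn G c F0 g ⊆ TS G c F0 b' ∧ b' ∈ Qs G c 0) ∨
      (Cn G c F0 g ⊆ TS G c F0 d' ∧ d' ∈ Qs G c 0) := by
  rcases cn_alt h hA hB.y0 hg with h1 | ⟨b₂, b₂', d₂, d₂', β₂, z₂, hB₂⟩
  · exact Or.inl h1
  · right
    have hA1 : NoA G c 1 F0 := NoA_mono (by norm_num) hA
    have h2 : Cn G c F0 g ⊆ TS G c F0 b₂ :=
      cn_src h hA1 hB₂.b0 hB₂.mb hB₂.nb.adj.2.1 (hB₂.toBlk.bl h.nice).1 (hB₂.nadj h.nice).1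
    have h3 : Cn G c F0 g ⊆ TS G c F0 d₂ :=
      cn_src h hA1 hB₂.d0 hB₂.md hB₂.nd.adj.2.1 (hB₂.toBlk.bl h.nice).1 (hB₂.nadj h.nice).2.2.1
    rcases h.ends _ _ _ _ _ _ _ _ _ _ _ _ _ _ _ hB hB₂ hne.symm with e | e | e | e
    · subst e
      exact Or.inl ⟨h2, hB₂.b0⟩
    · subst e
      exact Or.inr ⟨h2, hB₂.b0⟩
    · subst e
      exact Or.inl ⟨h3, hB₂.d0⟩
    · subst e
      exact Or.inr ⟨h3, hB₂.d0⟩

end

end Pool.Agent.Work.MP_1e13ac_W
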