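import Pool.Agent.Work.MP_1e13ac_W.PkBase

/-!
# MP_1e13ac_co, full statement, level `k ≥ 2`: final stage, half cores (helper45)

`HC F0 n s H τ e`: the slot `s` has the core `insert τ H` (type B), which is unhit by `F0`.
-/

set_option autoImplicit false
set_option linter.unusedSectionVars false

namespace Pool.Agent.Work.MP_1e13ac_W

open Classical Finset Pool.Agent.Work.MP_1e13ac_Bis

noncomputable section

namespace PkS7

variable {V : Type} [Fintype V] {G : SimpleGraph V} {c : V → Bool}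

/-- core of type B which is alive at `F0` -/
def HC (G : SimpleGraph V) (c : V → Bool) (F0 : Finset V) (n : ℕ) (s : V × V) (H : Finset V)
    (τ e : V) : Prop := CrB G c n s.1 s.2 H τ e ∧ ZD G c (insert τ H) F0

/-- hypotheses of the final stage -/
structure Fin7 (G : SimpleGraph V) (c : V → Bool) (F0 : Finset V) : Prop where
  pf : PF G c
  na : NoA G c 5 F0
  ne : ∀ n, NoE G c n F0

variable {F0 : Finset V}

theorem Fin7.na1 (h : Fin7 G c F0) : NoA G c 1 F0 :=
  fun m w a K h1 h2 => le_trans (by norm_num) (h.na m w a K h1 h2)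

theorem Fin7.na3 (h : Fin7 G c F0) : NoA G c 3 F0 :=
  fun m w a K h1 h2 => le_trans (by norm_num) (h.na m w a K h1 h2)

theorem Fin7.noE (h : Fin7 G c F0) {n : ℕ} {s : V × V} {H : Finset V} {τ e : V}
    (hh : HC G c F0 n s H τ e) (he : e ∈ Qs G c 0) : ¬ ZD G c {e} F0 :=
  h.ne n s.1 s.2 H τ e hh.1 hh.2 he

theorem HC.cor {n : ℕ} {s : V × V} {H : Finset V} {τ e : V} (h : HC G c F0 n s H τ e) :
    Cor G c F0 s (insert τ H) := ⟨Or.inr ⟨n, H, τ, e, h.1, rfl⟩, h.2⟩

theorem Cor.hc (h : Fin7 G c F0) {s : V × V} {K : Finset V} (hK : Cor G c F0 s K) :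
    ∃ n H τ e, HC G c F0 n s H τ e ∧ K = insert τ H := by
  obtain ⟨⟨n, h1⟩ | ⟨n, H, τ, e, h1, h3⟩, h2⟩ := hK
  · exfalso
    have h4 := h.na n s.1 s.2 K h1 h2
    obtain ⟨w, a⟩ := s
    cases h1 <;> omega
  · subst h3
    exact ⟨n, H, τ, e, ⟨h1, h2⟩, rfl⟩

theorem HC.slot (hc : Nice G c) {n : ℕ} {s : V × V} {H : Finset V} {τ e : V}
    (h : HC G c F0 n s H τ e) : s.1 ∈ Qs G c 0 ∧ G.Adj s.1 s.2 ∧ IsB0 G c s.2 := h.cor.slot hc

/-- the second source of a house is unhit -/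
theorem zd_twin (hc : Nice G c) {b b' d d' α β : V} (hB : Blk G c b b' d d' α β)
    (hz : ZD G c (insert b' {b, α}) F0) : ZD G c {d} F0 := by
  unfold ZD at hz ⊢
  rw [Finset.disjoint_left] at hz ⊢
  intro y hy
  have hbK : b ∈ insert b' ({b, α} : Finset V) := by simp
  have haK : α ∈ insert b' ({b, α} : Finset V) := by simp
  have hd : d ∈ Zn G c (insert b' {b, α}) := nb_Zn haK hB.nd.adj.2.1.symm
  refine hz ?_
  rcases Q0_zone hc hB.d0 hy with h1 | h1 | ⟨h1, h2⟩
  · rw [h1]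
    exact hd
  · exact Zn_mate hc hd h1
  · rcases hB.nd.mem h1 with e | e | e
    · exfalso
      rw [e] at h2
      exact WB (MA_W hB.md (Q0_W hB.d0)) h2.1
    · rw [e]
      exact nb_Zn hbK hB.nb.adj.2.1
    · rw [e]
      exact nb_Zn hbK hB.nb.adj.2.2

/-- the source of an alive slot is unhit -/
theorem HC.unb (hc : Nice G c) {n : ℕ} {s : V × V} {H : Finset V} {τ e : V}
    (h : HC G c F0 n s H τ e) : ZD G c {s.1} F0 := by
  obtain ⟨w, a⟩ := s
  obtain ⟨h1, h2⟩ := h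
  show ZD G c {w} F0
  cases h1 with
  | m => exact ZD_mono (by simp) h2
  | x4 => exact ZD_mono (by simp) h2
  | hs b b' d d' α β _ _ hB _ _ hw _ =>
    have hw' : w = b ∨ w = d := hw
    rcases hw' with e | e
    · rw [e]
      exact ZD_mono (by simp) h2
    · rw [e]
      exact zd_twin hc hB h2
  | d1 => exact ZD_mono (by simp) h2

/-- alive slots of a twin -/
theorem HC.twin (hP : PF G c) {n : ℕ} {s : V × V} {H : Finset V} {τ e z z' : V}
    (h : HC G c F0 n s H τ e) (ht : Tw G c s.1 z) (hm : MA G c z z') :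
    n = 7 ∧ ZD G c {z} F0 ∧ (z' ∈ Qs G c 1 ∨ z' = e) := by
  have hc := hP.nice
  obtain ⟨w, a⟩ := s
  have hsl := h.slot hc
  obtain ⟨h1, h2⟩ := h
  have hza : G.Adj a z := ((ht.2.2.2.2 a hsl.2.2.1).1 hsl.2.1).symm
  have hwz : w ≠ z := ht.2.2.1
  cases h1 with
  | m _ w' _ x x' y k0 km kn kx _ _ ky =>
    exfalso
    rcases kn.mem hza with e | e | e
    · exact hwz e.symm
    · rw [← e] at kx
      exact Q0_Q1 ht.2.1 kx
    · rcases ky with k | ⟨k1, k2⟩
      · rw [← e] at k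
        exact Q0_W0 ht.2.1 k
      · rw [← k1, ← e] at k2
        exact Q0_Q1 ht.2.1 k2
  | x4 _ w' _ q q' p p' r r' s' k0 km kn kqq kq kq' _ _ _ _ _ _ _ =>
    exfalso
    rcases kn.mem hza with e | e | e
    · exact hwz e.symm
    · rw [← e] at kq
      exact Q0_Q1 ht.2.1 kq
    · rw [← e] at kq'
      exact Q0_Q1 ht.2.1 kq'
  | hs b b' d d' α β _ _ hB hN hb' hw ha =>
    refine ⟨rfl, ?_⟩
    rcases hw with e | e
    · have hzd : z = d := by
        rw [e] at ht
        exact ht.uniq hP hB.tw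
      subst hzd
      exact ⟨zd_twin hc hB h2, Or.inr (nice_uniq hc hm hB.md)⟩
    · have hzb : z = b := by
        rw [e] at ht
        exact ht.uniq hP hB.tw.symm
      subst hzb
      refine ⟨ZD_mono (by simp) h2, Or.inl ?_⟩
      rw [nice_uniq hc hm hB.mb]
      exact hb'
  | d1 _ w' _ x x' k0 k0' km kn kx _ =>
    exfalso
    rcases kn.mem hza with e | e | e
    · exact hwz e.symm
    · rw [← e] at km
      exact ht.2.2.2.1 km.1
    · rw [← e] at kx
      exact Q0_Q1 ht.2.1 kx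

/-! ## touched half cores -/

/-- alive slots with a half core touching `z` -/
def Jh (G : SimpleGraph V) (c : V → Bool) (F0 : Finset V) (z : V) : Finset (V × V) :=
  univ.filter fun s => ∃ n H τ e, HC G c F0 n s H τ e ∧
    ∃ v ∈ H, v = z ∨ (G.Adj v z ∧ c v ≠ c z)

theorem mem_Jh {z : V} {s : V × V} : s ∈ Jh G c F0 z ↔ ∃ n H τ e, HC G c F0 n s H τ e ∧
    ∃ v ∈ H, v = z ∨ (G.Adj v z ∧ c v ≠ c z) := by simp [Jh]

theorem Jh_sub {z : V} : Jh G c F0 z ⊆ Jz G c F0 z := by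
  intro s hs
  obtain ⟨n, H, τ, e, h1, v, h2, h3⟩ := mem_Jh.1 hs
  exact mem_Jz.2 ⟨_, h1.cor, v, Finset.mem_insert_of_mem h2, h3⟩

/-- alive slots with a half core hit by `F` -/
def HK (G : SimpleGraph V) (c : V → Bool) (F0 F : Finset V) : Finset (V × V) :=
  univ.filter fun s => ∃ n H τ e, HC G c F0 n s H τ e ∧ ¬ ZD G c H F

theorem mem_HK {F : Finset V} {s : V × V} : s ∈ HK G c F0 F ↔
    ∃ n H τ e, HC G c F0 n s H τ e ∧ ¬ ZD G c H F := by simp [HK]

theorem HK_sub (hc : Nice G c) {F : Finset V} {s : V × V} (hs : s ∈ HK G c F0 F) :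
    ∃ z ∈ Zn G c F, s ∈ Jh G c F0 z := by
  obtain ⟨n, H, τ, e, h1, h2⟩ := mem_HK.1 hs
  obtain ⟨v, hv, z, hz, h3⟩ := touch hc h2
  exact ⟨z, hz, mem_Jh.2 ⟨n, H, τ, e, h1, v, hv, h3⟩⟩

/-- alive slots with a core hit by `F` -/
def FK (G : SimpleGraph V) (c : V → Bool) (F0 F : Finset V) : Finset (V × V) :=
  univ.filter fun s => ∃ K, Cor G c F0 s K ∧ ¬ ZD G c K F

theorem mem_FK {F : Finset V} {s : V × V} : s ∈ FK G c F0 F ↔
    ∃ K, Cor G c F0 s K ∧ ¬ ZD G c K F := by simp [FK]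

theorem FK_sub (hc : Nice G c) {F : Finset V} {s : V × V} (hs : s ∈ FK G c F0 F) :
    ∃ z ∈ Zn G c F, s ∈ Jz G c F0 z := by
  obtain ⟨K, h1, h2⟩ := mem_FK.1 hs
  obtain ⟨v, hv, z, hz, h3⟩ := touch hc h2
  exact ⟨z, hz, mem_Jz.2 ⟨K, h1, v, hv, h3⟩⟩

/-- touching a vertex in `B0` -/
theorem j_B0 (h : Fin7 G c F0) {z : V} (hz : IsB0 G c z) {s : V × V}
    (hs : s ∈ Jz G c F0 z) : G.Adj s.1 z := by
  rcases jz_B0 h.pf h.na1 hz hs with h1 | ⟨u, h1, -⟩
  · exact h1
  · exact (no_OptB h.na3 h1).elim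

/-- touching a source -/
theorem j_Q0 (h : Fin7 G c F0) {z : V} (hz : z ∈ Qs G c 0) {s : V × V}
    (hs : s ∈ Jz G c F0 z) : s.1 = z ∨ G.Adj s.1 z ∨ Tw G c s.1 z := by
  rcases jz_Q0 h.pf h.na1 hz hs with h1 | h1 | h1 | h1
  · exact Or.inl h1
  · exact Or.inr (Or.inl h1)
  · exact Or.inr (Or.inr h1)
  · exact (no_OptB h.na3 h1).elim

/-- touching a vertex in `Q1` with a source at its neighbour in `B0` -/
theorem j_Q1 (h : Fin7 G c F0) {x ν u : V} (hx : x ∈ Qs G c 1) (hν : IsB0 G c ν)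
    (hxν : G.Adj x ν) (hu : u ∈ Qs G c 0) (huν : G.Adj u ν) {s : V × V}
    (hs : s ∈ Jz G c F0 x) : G.Adj s.1 ν := by
  have hc := h.pf.nice
  obtain ⟨K, hK, v, hv, hvz⟩ := mem_Jz.1 hs
  have hsl := hK.slot hc
  rcases hvz with rfl | ⟨hvz, hcol⟩
  · rcases cn_Q1 hc h.na1 hx (mem_Cn.2 ⟨K, hK, hv⟩) with e | ⟨b, d, d', α, β, hH, h1, -⟩
    · rw [Q1_B0 h.pf.cub hc hx hxν hν e hsl.2.2]
      exact hsl.2.1
    · have e : ν = α := Q1_B0 h.pf.cub hc hx hxν hν hH.2.1.adj.2.2.symm (hH.1.bl hc).1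
      rw [e]
      exact (hH.1.adjα h1).1
  · have hcv : c v = false := by
      rw [Q1_W hx] at hcol
      simpa using hcol
    rcases B0_or_B1 hc hcv with h0 | h1
    · have e : ν = v := Q1_B0 h.pf.cub hc hx hxν hν hvz.symm h0
      rw [e]
      exact (cn_B0 hc h.na1 h0 (mem_Cn.2 ⟨K, hK, hv⟩)).1
    · obtain ⟨q, q', p0, hX, -⟩ := cn_B1 hc h.na1 h1 (mem_Cn.2 ⟨K, hK, hv⟩)
      have e := h.pf.f1 _ _ _ _ _ _ x ν u hX hvz (mem_Qs.1 hx).1 hxν hν hu huν
      rw [← e]
      exact huν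

/-- half cores touching a vertex in `B1` -/
theorem jh_B1 (h : Fin7 G c F0) {z z' : V} (hz : IsB1 G c z) (hm : MA G c z z') {s : V × V}
    (hs : s ∈ Jh G c F0 z) : s ∈ Cn G c F0 z ∨ s ∈ Cn G c F0 z' := by
  have hc := h.pf.nice
  obtain ⟨n, H, τ, e, h1, v, hv, hvz⟩ := mem_Jh.1 hs
  have hsl := h1.slot hc
  have hcor := h1.cor
  have hvz' : v = z ∨ (G.Adj v z ∧ c v = true) := by
    rcases hvz with e | ⟨e1, e2⟩
    · exact Or.inl e
    · refine Or.inr ⟨e1, ?_⟩
      rw [hz.1] at e2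
      simpa using e2
  have src : ∀ u, u ∈ Qs G c 0 → (u = z ∨ (G.Adj u z ∧ c u = true)) → False := by
    intro u hu hh
    rcases hh with e | ⟨e1, -⟩
    · rw [e] at hu
      exact WB (Q0_W hu) hz.1
    · exact Q0_noB1 hc hu hz e1
  have bl : ∀ u, IsB0 G c u → (u = z ∨ (G.Adj u z ∧ c u = true)) → False := by
    intro u hu hh
    rcases hh with e | ⟨-, e2⟩
    · rw [e] at hu
      exact B0_not_B1 hu hz
    · exact WB e2 hu.1
  obtain ⟨w, a⟩ := s
  obtain ⟨h2, h3⟩ := h1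
  cases h2 with
  | m _ w' _ x x' y k0 km kn kx _ _ ky =>
    rw [Finset.mem_insert, Finset.mem_singleton] at hv
    rcases hv with e | e
    · rw [e] at hvz'
      exact (src _ hsl.1 hvz').elim
    · rw [e] at hvz'
      exact (bl _ hsl.2.2 hvz').elim
  | x4 _ w' _ q q' p p' r r' s' k0 km kn kqq kq kq' kqp kpp kp kN krw kr ks =>
    have hX : Xc G c w a τ q' p p' := ⟨k0, kn, kqq, kq, kq', kqp, kpp, kp⟩
    rw [Finset.mem_insert, Finset.mem_insert, Finset.mem_insert, Finset.mem_singleton] at hv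
    rcases hv with e | e | e | e
    · rw [e] at hvz'
      exact (src _ hsl.1 hvz').elim
    · rw [e] at hvz'
      exact (bl _ hsl.2.2 hvz').elim
    · right
      rw [e] at hvz'
      have hpz : p = z := by
        rcases hvz' with e1 | ⟨e1, -⟩
        · rw [e1] at kq
          exact (WB (Q1_W kq) hz.1).elim
        · obtain ⟨t', ν, g, g1, g2, g3, g4⟩ := Q1_N3 h.pf.cub hc kq
          have key : ∀ t, G.Adj τ t → IsB1 G c t → t = g := by
            intro t ht ht1
            rcases g2.mem ht with e2 | e2 | e2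
            · exfalso
              rw [e2] at ht1
              exact WB (MA_W g1 (Q1_W kq)) ht1.1
            · exfalso
              rw [e2] at ht1
              exact B0_not_B1 g3 ht1
            · exact e2
          rw [key z e1 hz, key p kqp (hX.B1 hc).1]
      have hpz' : p' = z' := by
        rw [hpz] at kpp
        exact nice_uniq hc kpp hm
      refine mem_Cn.2 ⟨_, hcor, ?_⟩
      rw [← hpz']
      simp
    · left
      rw [e] at hvz'
      rcases hvz' with e1 | ⟨-, e1⟩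
      · refine mem_Cn.2 ⟨_, hcor, ?_⟩
        rw [← e1]
        simp
      · exact (WB e1 (hX.B1 hc).2.1).elim
  | hs b b' d d' α β _ _ hB hN hb' hw ha =>
    rw [Finset.mem_insert, Finset.mem_singleton] at hv
    rcases hv with e | e
    · rw [e] at hvz'
      exact (src _ hB.b0 hvz').elim
    · rw [e] at hvz'
      exact (bl _ (hB.bl hc).1 hvz').elim
  | d1 _ w' _ x x' k0 k0' km kn kx _ =>
    rw [Finset.mem_insert, Finset.mem_singleton] at hv
    rcases hv with e | e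
    · rw [e] at hvz'
      exact (src _ hsl.1 hvz').elim
    · rw [e] at hvz'
      exact (bl _ hsl.2.2 hvz').elim

/-- half cores touching the mate (not a source) of an unhit source without twin -/
theorem jh_mate (h : Fin7 G c F0) {w w' : V} (hw : w ∈ Qs G c 0) (hm : MA G c w w')
    (hub : ZD G c {w} F0) (hnt : ∀ t, ¬ Tw G c w t) (hw' : w' ∉ Qs G c 0) {s : V × V}
    (hs : s ∈ Jh G c F0 w') : s.1 = w := by
  have hc := h.pf.nice
  obtain ⟨n, H, τ, e, h1, v, hv, hvz⟩ := mem_Jh.1 hs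
  have hsl := h1.slot hc
  have hcw' : c w' = true := MA_W hm (Q0_W hw)
  have hW1 : IsW1 G c w' := W1_of_MA hc (ma_symm hm) hcw'
  have hmate : ∀ x y, MA G c x y → x = w' → y = w := by
    intro x y hxy hx
    rw [hx] at hxy
    exact nice_uniq hc hxy (ma_symm hm)
  have hend : e ≠ w := fun hh => h.noE h1 (by rw [hh]; exact hw) (by rw [hh]; exact hub)
  have hvz' : v = w' ∨ (G.Adj v w' ∧ c v = false) := by
    rcases hvz with e | ⟨e1, e2⟩
    · exact Or.inl e
    · refine Or.inr ⟨e1, ?_⟩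
      rw [hcw'] at e2
      simpa using e2
  have src : ∀ u, u ∈ Qs G c 0 → (u = w' ∨ (G.Adj u w' ∧ c u = false)) → False := by
    intro u hu hh
    rcases hh with e | ⟨-, e2⟩
    · rw [e] at hu
      exact hw' hu
    · exact WB (Q0_W hu) e2
  have bl : ∀ u, IsB0 G c u → (u = w' ∨ (G.Adj u w' ∧ c u = false)) → G.Adj u w' := by
    intro u hu hh
    rcases hh with e | ⟨e1, -⟩
    · rw [e] at hu
      exact (WB hcw' hu.1).elim
    · exact e1
  have nq : ∀ u u', MA G c u u' → u' ∈ Qs G c 1 → u = w' → False := by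
    intro u u' h5 h6 h7
    rw [hmate u u' h5 h7] at h6
    exact Q0_Q1 hw h6
  obtain ⟨w₂, a⟩ := s
  show w₂ = w
  obtain ⟨h2, h3⟩ := h1
  cases h2 with
  | m _ w₂' _ x _ y k0 km kn kx _ kxx ky =>
    rw [Finset.mem_insert, Finset.mem_singleton] at hv
    rcases hv with e | e
    · rw [e] at hvz'
      exact (src _ hsl.1 hvz').elim
    · rw [e] at hvz'
      rcases kn.mem (bl _ hsl.2.2 hvz') with e1 | e1 | e1
      · exact (hw' (by rw [e1]; exact k0)).elim
      · exact (hend (hmate _ _ kxx e1.symm)).elim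
      · rcases ky with k | ⟨k1, -⟩
        · rw [← e1] at k
          exact (W0_not_W1 k hW1).elim
        · exact hmate _ _ (ma_symm km) (k1.symm.trans e1.symm)
  | x4 _ w₂' _ q q' p p' r _ s' k0 km kn kqq kq kq' kqp kpp kp kN krw kr ks =>
    have hX : Xc G c w₂ a τ q' p p' := ⟨k0, kn, kqq, kq, kq', kqp, kpp, kp⟩
    rw [Finset.mem_insert, Finset.mem_insert, Finset.mem_insert, Finset.mem_singleton] at hv
    rcases hv with e | e | e | e
    · rw [e] at hvz'
      exact (src _ hsl.1 hvz').elim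
    · rw [e] at hvz'
      rcases kn.mem (bl _ hsl.2.2 hvz') with e1 | e1 | e1
      · exact (hw' (by rw [e1]; exact k0)).elim
      · exact (nq _ _ kqq kq' e1.symm).elim
      · exact (nq _ _ (ma_symm kqq) kq e1.symm).elim
    · rw [e] at hvz'
      rcases hvz' with e1 | ⟨-, e1⟩
      · exact (nq _ _ kqq kq' e1).elim
      · exact (WB (Q1_W kq) e1).elim
    · rw [e] at hvz'
      rcases hvz' with e1 | ⟨e1, -⟩
      · have := (hX.B1 hc).2.1
        rw [e1] at this
        exact (WB hcw' this).elim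
      · rcases kN.mem e1 with e2 | e2 | e2
        · rw [← e2] at kp
          exact (WB hcw' kp).elim
        · exact (hend (hmate _ _ kr e2.symm)).elim
        · rcases ks with k | k
          · rw [← e2] at k
            exact (W0_not_W1 k hW1).elim
          · exact hmate _ _ (ma_symm km) (k.symm.trans e2.symm)
  | hs b b' d _ α β _ _ hB hN hb' hw₂ ha =>
    rw [Finset.mem_insert, Finset.mem_singleton] at hv
    rcases hv with e | e
    · rw [e] at hvz'
      exact (src _ hB.b0 hvz').elim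
    · rw [e] at hvz'
      rcases hN.mem (bl _ (hB.bl hc).1 hvz') with e1 | e1 | e1
      · exact (hw' (by rw [e1]; exact hB.b0)).elim
      · exact (hw' (by rw [e1]; exact hB.d0)).elim
      · have e2 : b = w := hmate _ _ (ma_symm hB.mb) e1.symm
        exact (hnt d (e2 ▸ hB.tw)).elim
  | d1 _ w₂' _ x _ k0 k0' km kn kx kxx =>
    rw [Finset.mem_insert, Finset.mem_singleton] at hv
    rcases hv with e | e
    · rw [e] at hvz'
      exact (src _ hsl.1 hvz').elim
    · rw [e] at hvz'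
      rcases kn.mem (bl _ hsl.2.2 hvz') with e1 | e1 | e1
      · exact (hw' (by rw [e1]; exact k0)).elim
      · exact (hw' (by rw [e1]; exact k0')).elim
      · exact (hend (hmate _ _ kxx e1.symm)).elim

/-- nothing touches a hit source whose mate is not a source -/
theorem jz_hit (h : Fin7 G c F0) {z z' : V} (hz : z ∈ Qs G c 0) (hm : MA G c z z')
    (hz' : z' ∉ Qs G c 0) (hhit : ¬ ZD G c {z} F0) : Jz G c F0 z = ∅ := by
  have hc := h.pf.nice
  rw [Finset.eq_empty_iff_forall_notMem]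
  intro s hs
  obtain ⟨K, hK, -⟩ := mem_Jz.1 hs
  obtain ⟨n, H, τ, e, h1, -⟩ := Cor.hc h hK
  rcases j_Q0 h hz hs with e | e | e
  · exact hhit (e ▸ h1.unb hc)
  · have h2 : s.1 = z' := nice_uniq hc ⟨e.symm, by rw [Q0_W hz, Q0_W (h1.slot hc).1]⟩ hm
    exact hz' (h2 ▸ (h1.slot hc).1)
  · exact hhit (h1.twin h.pf e hm).2.1

/-- the kill set of an end -/
theorem jz_end (h : Fin7 G c F0) {x x' : V} (hx : x ∉ Qs G c 0) (hm : MA G c x x')
    (hcx : c x = true) (hb : x' ∈ Qs G c 0 → ¬ ZD G c {x'} F0) : (Jz G c F0 x').card ≤ 2 := by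
  have hc := h.pf.nice
  by_cases h0 : x' ∈ Qs G c 0
  · rw [jz_hit h h0 (ma_symm hm) hx (hb h0)]
    simp
  · refine jz_W1_card h.pf h.na1 (W1_of_MA hc (ma_symm hm) (MA_W hm hcx)) h0 ?_
    intro b d d' α β hH
    have : b = x := nice_uniq hc (ma_symm hH.1.mb) (ma_symm hm)
    exact hx (this ▸ hH.1.b0)

end PkS7

end

end Pool.Agent.Work.MP_1e13ac_W
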