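import Pool.Agent.Work.MP_1e13ac_W.PkS7a

/-!
# MP_1e13ac_co, full statement, level `k ≥ 2`: final stage, tokens (helper45)
-/

set_option autoImplicit false
set_option linter.unusedSectionVars false

namespace Pool.Agent.Work.MP_1e13ac_W

open Classical Finset Pool.Agent.Work.MP_1e13ac_Bis

noncomputable section

namespace PkS7

variable {V : Type} [Fintype V] {G : SimpleGraph V} {c : V → Bool} {F0 : Finset V}

/-- data of a token `x` with a source `u` at its neighbour `ν` in `B0` -/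
structure Tk (G : SimpleGraph V) (c : V → Bool) (x x' ν g g' u : V) : Prop where
  x1 : x ∈ Qs G c 1
  mx : MA G c x x'
  nx : N3 G x x' ν g
  ν0 : IsB0 G c ν
  g1 : IsB1 G c g
  mg : MA G c g g'
  u0 : u ∈ Qs G c 0
  uν : G.Adj u ν

/-- alive slots whose source is adjacent to `ν` -/
def NS (G : SimpleGraph V) (c : V → Bool) (F0 : Finset V) (ν : V) : Finset (V × V) :=
  univ.filter fun s => G.Adj s.1 ν ∧ ∃ K, Cor G c F0 s K

theorem mem_NS {ν : V} {s : V × V} : s ∈ NS G c F0 ν ↔ G.Adj s.1 ν ∧ ∃ K, Cor G c F0 s K := by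
  simp [NS]

/-- slots with a token adjacent to `g` -/
def EX (G : SimpleGraph V) (c : V → Bool) (F0 : Finset V) (g : V) : Finset (V × V) :=
  univ.filter fun s => ∃ v ∈ Qs G c 1, G.Adj g v ∧ s ∈ Cn G c F0 v

theorem mem_EX {g : V} {s : V × V} : s ∈ EX G c F0 g ↔
    ∃ v ∈ Qs G c 1, G.Adj g v ∧ s ∈ Cn G c F0 v := by simp [EX]

theorem Cn_cor {v : V} {s : V × V} (h : s ∈ Cn G c F0 v) : ∃ K, Cor G c F0 s K := by
  obtain ⟨K, hK, -⟩ := mem_Cn.1 h
  exact ⟨K, hK⟩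

theorem Cn_Jz {v : V} {s : V × V} (h : s ∈ Cn G c F0 v) : s ∈ Jz G c F0 v := by
  obtain ⟨K, hK, hv⟩ := mem_Cn.1 h
  exact mem_Jz.2 ⟨K, hK, v, hv, Or.inl rfl⟩

theorem Jz_cor {v : V} {s : V × V} (h : s ∈ Jz G c F0 v) : ∃ K, Cor G c F0 s K := by
  obtain ⟨K, hK, -⟩ := mem_Jz.1 h
  exact ⟨K, hK⟩

section Tok

variable {x x' ν g g' u : V}

theorem Tk.g1' (hc : Nice G c) (t : Tk G c x x' ν g g' u) : IsB1 G c g' :=
  B1_of_MA hc (ma_symm t.mg) (MA_B t.mg t.g1.1)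

theorem Tk.cx' (t : Tk G c x x' ν g g' u) : c x' = true := MA_W t.mx (Q1_W t.x1)

theorem Tk.zone (hc : Nice G c) (t : Tk G c x x' ν g g' u) {z : V} (hz : z ∈ Zn G c {x}) :
    z = x ∨ z = x' ∨ z = ν ∨ z = g ∨ z = g' := by
  have key : ∀ y ∈ NF G {x}, y = x ∨ y = x' ∨ y = ν ∨ y = g := by
    intro y hy
    rcases mem_NF.1 hy with h1 | ⟨f, hf, h1⟩
    · rw [Finset.mem_singleton] at h1
      exact Or.inl h1
    · rw [Finset.mem_singleton] at hf
      rw [hf] at h1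
      exact Or.inr (t.nx.mem h1)
  rcases mem_Zn.1 hz with h1 | ⟨y, hy, h1⟩
  · rcases key z h1 with e | e | e | e
    · exact Or.inl e
    · exact Or.inr (Or.inl e)
    · exact Or.inr (Or.inr (Or.inl e))
    · exact Or.inr (Or.inr (Or.inr (Or.inl e)))
  · rcases key y hy with e | e | e | e
    · rw [e] at h1
      exact Or.inr (Or.inl (nice_uniq hc h1 t.mx))
    · rw [e] at h1
      exact Or.inl (nice_uniq hc h1 (ma_symm t.mx))
    · rw [e] at h1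
      exact (md0_no t.ν0.2 h1).elim
    · rw [e] at h1
      exact Or.inr (Or.inr (Or.inr (Or.inr (nice_uniq hc h1 t.mg))))

theorem Tk.inz (t : Tk G c x x' ν g g' u) : x ∈ Zn G c {x} ∧ x' ∈ Zn G c {x} ∧ ν ∈ Zn G c {x} ∧
    g ∈ Zn G c {x} := by
  have hx : x ∈ ({x} : Finset V) := by simp
  exact ⟨F_sub_Zn hx, nb_Zn hx t.nx.adj.1, nb_Zn hx t.nx.adj.2.1, nb_Zn hx t.nx.adj.2.2⟩

theorem Tk.cn_g (h : Fin7 G c F0) (t : Tk G c x x' ν g g' u) {s : V × V}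
    (hs : s ∈ Cn G c F0 g) : G.Adj s.1 ν := by
  obtain ⟨q, q', p0, hX, -⟩ := cn_B1 h.pf.nice h.na1 t.g1 hs
  have e := h.pf.f1 _ _ _ _ _ _ x ν u hX t.nx.adj.2.2.symm (mem_Qs.1 t.x1).1 t.nx.adj.2.1
    t.ν0 t.u0 t.uν
  rw [← e]
  exact t.uν

theorem Tk.cn_g' (h : Fin7 G c F0) (t : Tk G c x x' ν g g' u) {s : V × V}
    (hs : s ∈ Cn G c F0 g') : G.Adj s.1 ν := by
  have hc := h.pf.nice
  obtain ⟨K, hK⟩ := Cn_cor hs
  have hsl := hK.slot hc
  obtain ⟨q, q', p0, hX, -⟩ := cn_B1 hc h.na1 (t.g1' hc) hs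
  have e0 : p0 = g := nice_uniq hc (ma_symm hX.pp) (ma_symm t.mg)
  have hq := hX.qp
  rw [e0] at hq
  have key : G.Adj x s.2 → G.Adj s.1 ν := by
    intro h1
    rw [Q1_B0 h.pf.cub hc t.x1 t.nx.adj.2.1 t.ν0 h1 hsl.2.2]
    exact hsl.2.1
  by_cases hqx : x = q
  · refine key ?_
    rw [hqx]
    exact hX.na.adj.2.1.symm
  · have h1 := h.pf.rule1 g x q t.g1 t.nx.adj.2.2.symm hq.symm hqx (mem_Qs.1 t.x1).1
      (mem_Qs.1 hX.q1).1
    have h2 : MA G c q x := ⟨h1.symm, by rw [Q1_W t.x1, Q1_W hX.q1]⟩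
    have h3 : q' = x := nice_uniq hc hX.qq h2
    refine key ?_
    rw [← h3]
    exact hX.na.adj.2.2.symm

theorem Tk.hk (h : Fin7 G c F0) (t : Tk G c x x' ν g g' u) {s : V × V}
    (hs : s ∈ HK G c F0 {x}) : s ∈ NS G c F0 ν ∪ Jz G c F0 x' := by
  have hc := h.pf.nice
  obtain ⟨z, hz, h1⟩ := HK_sub hc hs
  have h2 := Jh_sub h1
  have hcor := Jz_cor h2
  rw [Finset.mem_union, mem_NS]
  rcases t.zone hc hz with e | e | e | e | e
  · rw [e] at h2
    exact Or.inl ⟨j_Q1 h t.x1 t.ν0 t.nx.adj.2.1 t.u0 t.uν h2, hcor⟩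
  · rw [e] at h2
    exact Or.inr h2
  · rw [e] at h2
    exact Or.inl ⟨j_B0 h t.ν0 h2, hcor⟩
  · rw [e] at h1
    rcases jh_B1 h t.g1 t.mg h1 with h3 | h3
    · exact Or.inl ⟨t.cn_g h h3, hcor⟩
    · exact Or.inl ⟨t.cn_g' h h3, hcor⟩
  · rw [e] at h1
    rcases jh_B1 h (t.g1' hc) (ma_symm t.mg) h1 with h3 | h3
    · exact Or.inl ⟨t.cn_g' h h3, hcor⟩
    · exact Or.inl ⟨t.cn_g h h3, hcor⟩

theorem Tk.fk (h : Fin7 G c F0) (t : Tk G c x x' ν g g' u) {s : V × V}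
    (hs : s ∈ FK G c F0 {x}) : s ∈ (NS G c F0 ν ∪ Jz G c F0 x') ∪ EX G c F0 g' := by
  have hc := h.pf.nice
  obtain ⟨z, hz, h2⟩ := FK_sub hc hs
  have hcor := Jz_cor h2
  rw [Finset.mem_union, Finset.mem_union, mem_NS]
  rcases t.zone hc hz with e | e | e | e | e
  · rw [e] at h2
    exact Or.inl (Or.inl ⟨j_Q1 h t.x1 t.ν0 t.nx.adj.2.1 t.u0 t.uν h2, hcor⟩)
  · rw [e] at h2
    exact Or.inl (Or.inr h2)
  · rw [e] at h2
    exact Or.inl (Or.inl ⟨j_B0 h t.ν0 h2, hcor⟩)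
  · rw [e] at h2
    rcases jz_B1 h.pf h.na1 t.g1 h2 with h3 | ⟨v, h3, h4, h5⟩
    · exact Or.inl (Or.inl ⟨t.cn_g h h3, hcor⟩)
    · by_cases hvx : x = v
      · rw [← hvx] at h5
        exact Or.inl (Or.inl ⟨j_Q1 h t.x1 t.ν0 t.nx.adj.2.1 t.u0 t.uν (Cn_Jz h5), hcor⟩)
      · have h6 := h.pf.rule1 g x v t.g1 t.nx.adj.2.2.symm h4 hvx (mem_Qs.1 t.x1).1
          (mem_Qs.1 h3).1
        have h7 : v = x' := nice_uniq hc ⟨h6, by rw [Q1_W t.x1, Q1_W h3]⟩ t.mx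
        rw [h7] at h5
        exact Or.inl (Or.inr (Cn_Jz h5))
  · rw [e] at h2
    rcases jz_B1 h.pf h.na1 (t.g1' hc) h2 with h3 | ⟨v, h3, h4, h5⟩
    · exact Or.inl (Or.inl ⟨t.cn_g' h h3, hcor⟩)
    · exact Or.inr (mem_EX.2 ⟨v, h3, h4, h5⟩)

/-- a core containing a vertex of `Q1` has a source at the `B0`-neighbour -/
theorem src_at (h : Fin7 G c F0) {v : V} (hv : v ∈ Qs G c 1) {s : V × V}
    (hs : s ∈ Cn G c F0 v) : ∃ μ, IsB0 G c μ ∧ G.Adj v μ ∧ G.Adj s.1 μ := by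
  have hc := h.pf.nice
  obtain ⟨K, hK⟩ := Cn_cor hs
  have hsl := hK.slot hc
  rcases cn_Q1 hc h.na1 hv hs with e | ⟨b, d, d', α, β, hH, h1, -⟩
  · exact ⟨s.2, hsl.2.2, e, hsl.2.1⟩
  · exact ⟨α, (hH.1.bl hc).1, hH.2.1.adj.2.2.symm, (hH.1.adjα h1).1⟩

theorem cn_Q1_card4 (h : Fin7 G c F0) {v : V} (hv : v ∈ Qs G c 1) : (Cn G c F0 v).card ≤ 4 := by
  have hc := h.pf.nice
  obtain ⟨v', ν₁, g₁, hm, hN, hν, hg⟩ := Q1_N3 h.pf.cub hc hv
  by_cases hex : ∃ b d d' α β, House G c b v d d' α β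
  · obtain ⟨b, d, d', α, β, hH⟩ := hex
    have hαν : ν₁ = α := Q1_B0 h.pf.cub hc hv hN.adj.2.1 hν hH.2.1.adj.2.2.symm (hH.1.bl hc).1
    have hsub : Cn G c F0 v ⊆ HS G c F0 b ∪ HS G c F0 d := by
      intro s hs
      obtain ⟨K, hK⟩ := Cn_cor hs
      have hsl := hK.slot hc
      rw [Finset.mem_union, mem_HS, mem_HS]
      have hsα : G.Adj s.1 α := by
        obtain ⟨μ, h1, h2, h3⟩ := src_at h hv hs
        rw [← hαν, Q1_B0 h.pf.cub hc hv hN.adj.2.1 hν h2 h1]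
        exact h3
      rcases hH.2.1.mem hsα.symm with e | e | e
      · exact Or.inl ⟨e, K, hK⟩
      · exact Or.inr ⟨e, K, hK⟩
      · exact (Q0_Q1 hsl.1 (e ▸ hv)).elim
    have h1 := Finset.card_le_card hsub
    have h2 := Finset.card_union_le (HS G c F0 b) (HS G c F0 d)
    have h3 := HS_card h.pf (F0 := F0) b
    have h4 := HS_card h.pf (F0 := F0) d
    omega
  · obtain ⟨t₁, t₂, hν3⟩ := N3_of1 h.pf.cub hN.adj.2.1.symm
    have hsub : Cn G c F0 v ⊆ {(t₁, ν₁), (t₂, ν₁)} := by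
      intro s hs
      obtain ⟨K, hK⟩ := Cn_cor hs
      have hsl := hK.slot hc
      have hs2 : s.2 = ν₁ := by
        rcases cn_Q1 hc h.na1 hv hs with e | ⟨b, d, d', α, β, hH, h1, -⟩
        · exact (Q1_B0 h.pf.cub hc hv hN.adj.2.1 hν e hsl.2.2).symm
        · exact (hex ⟨_, _, _, _, _, hH⟩).elim
      have h1 := hsl.2.1
      rw [hs2] at h1
      rw [Finset.mem_insert, Finset.mem_singleton]
      rcases hν3.mem h1.symm with e | e | e
      · exact (Q0_Q1 hsl.1 (e ▸ hv)).elim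
      · exact Or.inl (Prod.ext e hs2)
      · exact Or.inr (Prod.ext e hs2)
    have h1 := (Finset.card_le_card hsub).trans Finset.card_le_two
    omega

theorem Tk.ex_card (h : Fin7 G c F0) (t : Tk G c x x' ν g g' u) :
    (EX G c F0 g').card ≤ 4 := by
  have hc := h.pf.nice
  by_cases he : EX G c F0 g' = ∅
  · rw [he]
    simp
  · obtain ⟨s, hs⟩ := Finset.nonempty_iff_ne_empty.2 he
    obtain ⟨v, h1, h2, h3⟩ := mem_EX.1 hs
    obtain ⟨μ, h4, h5, h6⟩ := src_at h h1 h3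
    obtain ⟨K, hK⟩ := Cn_cor h3
    have hsl := hK.slot hc
    refine le_trans (Finset.card_le_card ?_) (cn_Q1_card4 h h1)
    intro s' hs'
    obtain ⟨v', k1, k2, k3⟩ := mem_EX.1 hs'
    by_cases hvv : v = v'
    · rw [hvv]
      exact k3
    · exfalso
      have k4 := h.pf.rule1 g' v v' (t.g1' hc) h2 k2 hvv (mem_Qs.1 h1).1 (mem_Qs.1 k1).1
      exact h.pf.t1src g' g v v' μ s.1 x ν u (t.g1' hc).1 (ma_symm t.mg) h2 k2
        ⟨k4, by rw [Q1_W h1, Q1_W k1]⟩ (Q1_W h1) h5 h4 hsl.1 h6 t.nx.adj.2.2.symm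
        (mem_Qs.1 t.x1).1 t.nx.adj.2.1 t.ν0 t.u0 t.uν

/-- slots of type M which are blocked but not killed by `{x}` -/
def BM (G : SimpleGraph V) (c : V → Bool) (F0 : Finset V) (x : V) : Finset (V × V) :=
  univ.filter fun s => ∃ H τ e, HC G c F0 5 s H τ e ∧ ZD G c H {x} ∧ ¬ ZD G c (insert τ H) {x}

theorem mem_BM {x : V} {s : V × V} : s ∈ BM G c F0 x ↔
    ∃ H τ e, HC G c F0 5 s H τ e ∧ ZD G c H {x} ∧ ¬ ZD G c (insert τ H) {x} := by simp [BM]

theorem Tk.bm (h : Fin7 G c F0) (t : Tk G c x x' ν g g' u) {s : V × V}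
    (hs : s ∈ BM G c F0 x) : s.1 ∈ Qs G c 0 ∧ IsB0 G c s.2 ∧ G.Adj s.1 s.2 ∧
      (∀ z ∈ Zn G c {x}, ¬ G.Adj s.1 z) ∧ ∃ τ ∈ Qs G c 1, G.Adj g' τ ∧ G.Adj τ s.2 ∧
      ∀ r, r ∈ Qs G c 0 → G.Adj r s.2 → r = s.1 := by
  have hc := h.pf.nice
  obtain ⟨H, τ, e, h1, h2, h3⟩ := mem_BM.1 hs
  have hsl := h1.slot hc
  obtain ⟨w, a⟩ := s
  obtain ⟨h4, h5⟩ := h1
  have hin := t.inz
  cases h4 with
  | m _ w' _ _ _ y k0 km kn kx kxw kxx ky =>
    have hwH : ∀ z ∈ Zn G c {x}, ¬ G.Adj w z := by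
      intro z hz hwz
      exact not_ZD (by simp) hz (Or.inr hwz) h2
    have haH : ∀ z ∈ Zn G c {x}, ¬ (a = z ∨ G.Adj a z) := by
      intro z hz haz
      exact not_ZD (by simp) hz haz h2
    refine ⟨hsl.1, hsl.2.2, hsl.2.1, hwH, τ, kx, ?_, kn.adj.2.1.symm, ?_⟩
    · obtain ⟨v, hv, z, hz, hvz⟩ := touch hc h3
      rw [Finset.mem_insert] at hv
      rcases hv with rfl | hv
      · have hvx : v ≠ x := fun e => haH x hin.1 (Or.inr (e ▸ kn.adj.2.1))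
        have hvx' : v ≠ x' := fun e => haH x' hin.2.1 (Or.inr (e ▸ kn.adj.2.1))
        have hcv := Q1_W kx
        have key : ∀ y, c y = true → v ≠ y → (v = y ∨ (G.Adj v y ∧ c v ≠ c y)) → False := by
          intro y h6 h7 h8
          rcases h8 with e | ⟨-, e⟩
          · exact h7 e
          · exact e (by rw [hcv, h6])
        have key2 : ∀ y, c y = false → (v = y ∨ (G.Adj v y ∧ c v ≠ c y)) → G.Adj v y := by
          intro y h6 h8
          rcases h8 with e | ⟨e, -⟩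
          · rw [e, h6] at hcv
            exact absurd hcv (by simp)
          · exact e
        rcases t.zone hc hz with e | e | e | e | e
        · rw [e] at hvz
          exact (key x (Q1_W t.x1) hvx hvz).elim
        · rw [e] at hvz
          exact (key x' t.cx' hvx' hvz).elim
        · rw [e] at hvz
          have h6 := key2 ν t.ν0.1 hvz
          exact (haH ν hin.2.2.1 (Or.inl (Q1_B0 h.pf.cub hc kx kn.adj.2.1.symm hsl.2.2 h6
            t.ν0))).elim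
        · exfalso
          rw [e] at hvz
          have h6 := key2 g t.g1.1 hvz
          have h7 := h.pf.rule1 g x v t.g1 t.nx.adj.2.2.symm h6.symm (Ne.symm hvx)
            (mem_Qs.1 t.x1).1 (mem_Qs.1 kx).1
          exact hvx' (nice_uniq hc ⟨h7, by rw [Q1_W t.x1, hcv]⟩ t.mx)
        · rw [e] at hvz
          exact (key2 g' (t.g1' hc).1 hvz).symm
      · exfalso
        rcases hvz with e | ⟨e, -⟩
        · exact not_ZD hv hz (Or.inl e) h2
        · exact not_ZD hv hz (Or.inr e) h2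
    · intro r h6 h7
      rcases kn.mem h7.symm with e | e | e
      · exact e
      · rw [e] at h6
        exact (Q0_Q1 h6 kx).elim
      · rcases ky with k | ⟨k1, k2⟩
        · rw [e] at h6
          exact (Q0_W0 h6 k).elim
        · rw [e, k1] at h6
          exact (Q0_Q1 h6 k2).elim

theorem Tk.bm_card (h : Fin7 G c F0) (t : Tk G c x x' ν g g' u) :
    (BM G c F0 x).card ≤ 1 := by
  have hc := h.pf.nice
  rw [Finset.card_le_one]
  intro s hs s' hs'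
  obtain ⟨h1, h2, h3, -, τ, h4, h5, h6, h7⟩ := t.bm h hs
  obtain ⟨k1, k2, k3, -, τ', k4, k5, k6, k7⟩ := t.bm h hs'
  by_cases hτ : τ = τ'
  · rw [← hτ] at k6
    have e2 : s.2 = s'.2 := Q1_B0 h.pf.cub hc h4 h6 h2 k6 k2
    have e1 : s'.1 = s.1 := h7 s'.1 k1 (by rw [e2]; exact k3)
    exact Prod.ext e1.symm e2
  · exfalso
    have k8 := h.pf.rule1 g' τ τ' (t.g1' hc) h5 k5 hτ (mem_Qs.1 h4).1 (mem_Qs.1 k4).1
    exact h.pf.t1src g' g τ τ' s.2 s.1 x ν u (t.g1' hc).1 (ma_symm t.mg) h5 k5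
      ⟨k8, by rw [Q1_W h4, Q1_W k4]⟩ (Q1_W h4) h6 h2 h1 h3 t.nx.adj.2.2.symm
      (mem_Qs.1 t.x1).1 t.nx.adj.2.1 t.ν0 t.u0 t.uν

/-- the blocked sources of a token -/
theorem blk_tok (hP : PF G c) (t : Tk G c x x' ν g g' u) : blk G c {x} ≤ 3 := by
  have hc := hP.nice
  obtain ⟨t₁, t₂, hν3⟩ := N3_of1 hP.cub t.nx.adj.2.1.symm
  refine (blk_le (S := {x', t₁, t₂}) ?_).trans Finset.card_le_three
  intro s hs hb
  rw [Finset.mem_insert, Finset.mem_insert, Finset.mem_singleton]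
  have hcs := Q0_W hs
  rcases blk_mem hP hs hb with h1 | ⟨z, h1, h2, h3⟩
  · rcases t.zone hc h1 with e | e | e | e | e
    · exact (Q0_Q1 hs (e ▸ t.x1)).elim
    · exact Or.inl e
    · exact (WB hcs (e ▸ t.ν0.1)).elim
    · exact (WB hcs (e ▸ t.g1.1)).elim
    · exact (WB hcs (e ▸ (t.g1' hc).1)).elim
  · rcases t.zone hc h1 with e | e | e | e | e
    · exact (WB (Q1_W t.x1) (e ▸ h2.1)).elim
    · exact (WB t.cx' (e ▸ h2.1)).elim
    · rw [e] at h3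
      rcases hν3.mem h3.symm with e1 | e1 | e1
      · exact (Q0_Q1 hs (e1 ▸ t.x1)).elim
      · exact Or.inr (Or.inl e1)
      · exact Or.inr (Or.inr e1)
    · exact (B0_not_B1 h2 (e ▸ t.g1)).elim
    · exact (B0_not_B1 h2 (e ▸ (t.g1' hc))).elim

end Tok

/-! ## tokens of the four types -/

/-- token data from a vertex of `Q1` -/
theorem tk_of (hP : PF G c) {x x' ν u : V} (hx : x ∈ Qs G c 1) (hm : MA G c x x')
    (hxν : G.Adj x ν) (hν : IsB0 G c ν) (hu : u ∈ Qs G c 0) (huν : G.Adj u ν) :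
    ∃ g g', Tk G c x x' ν g g' u := by
  have hc := hP.nice
  obtain ⟨y, μ, g, h1, h2, h3, h4⟩ := Q1_N3 hP.cub hc hx
  have e1 : y = x' := nice_uniq hc h1 hm
  have e2 : μ = ν := Q1_B0 hP.cub hc hx h2.adj.2.1 h3 hxν hν
  subst e1
  subst e2
  obtain ⟨g', hg'⟩ := md1_ex h4.2
  exact ⟨g, g', hx, hm, h2, h3, h4, hg', hu, huν⟩

/-- conclusion for tokens -/
def TokOK (G : SimpleGraph V) (c : V → Bool) (F0 : Finset V) (x : V) (κ β : ℕ) : Prop :=
  (HK G c F0 {x}).card ≤ κ ∧ (FK G c F0 {x}).card ≤ 12 ∧ (BM G c F0 x).card ≤ β ∧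
    blk G c {x} ≤ 3

theorem tok_fin (h : Fin7 G c F0) {x x' ν g g' u : V} (t : Tk G c x x' ν g g' u) {m : ℕ}
    (hm : ((NS G c F0 ν) ∪ Jz G c F0 x').card ≤ m) (hm8 : m ≤ 8) : TokOK G c F0 x m 1 := by
  refine ⟨(Finset.card_le_card fun s hs => t.hk h hs).trans hm, ?_, t.bm_card h,
    blk_tok h.pf t⟩
  have h1 := Finset.card_le_card fun s hs => t.fk h (s := s) hs
  have h2 := Finset.card_union_le (NS G c F0 ν ∪ Jz G c F0 x') (EX G c F0 g')
  have h3 := t.ex_card h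
  omega

theorem tok5 (h : Fin7 G c F0) {s : V × V} {H : Finset V} {τ e : V}
    (hh : HC G c F0 5 s H τ e) : TokOK G c F0 τ 4 1 := by
  have hc := h.pf.nice
  have hsl := hh.slot hc
  have hne := h.noE hh
  obtain ⟨w, a⟩ := s
  obtain ⟨h1, h2⟩ := hh
  cases h1 with
  | m _ w' _ _ _ y k0 km kn kx kxw kxx ky =>
    obtain ⟨g, g', t⟩ := tk_of h.pf kx kxx kn.adj.2.1.symm hsl.2.2 hsl.1 hsl.2.1
    refine tok_fin h t ?_ (by norm_num)
    have hsub : NS G c F0 a ⊆ HS G c F0 w := by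
      intro s hs
      obtain ⟨g1, K, hK⟩ := mem_NS.1 hs
      have gs := hK.slot hc
      rw [mem_HS]
      refine ⟨?_, K, hK⟩
      rcases kn.mem g1.symm with e | e | e
      · exact e
      · exact (Q0_Q1 gs.1 (e ▸ kx)).elim
      · rcases ky with k | ⟨k1, k2⟩
        · exact (Q0_W0 gs.1 (e ▸ k)).elim
        · exact (Q0_Q1 gs.1 (e ▸ k1 ▸ k2)).elim
    have c1 := Finset.card_union_le (NS G c F0 a) (Jz G c F0 e)
    have c2 := Finset.card_le_card hsub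
    have c3 := HS_card h.pf (F0 := F0) w
    have c4 := jz_end h (fun q => Q0_Q1 q kx) kxx (Q1_W kx) hne
    show ((NS G c F0 a) ∪ Jz G c F0 e).card ≤ 4
    omega

theorem tok8 (h : Fin7 G c F0) {s : V × V} {H : Finset V} {τ e : V}
    (hh : HC G c F0 8 s H τ e) : TokOK G c F0 τ 6 1 := by
  have hc := h.pf.nice
  have hsl := hh.slot hc
  have hne := h.noE hh
  obtain ⟨w, a⟩ := s
  obtain ⟨h1, h2⟩ := hh
  cases h1 with
  | d1 _ w' _ _ _ k0 k0' km kn kx kxx =>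
    obtain ⟨g, g', t⟩ := tk_of h.pf kx kxx kn.adj.2.2.symm hsl.2.2 hsl.1 hsl.2.1
    refine tok_fin h t ?_ (by norm_num)
    have hsub : NS G c F0 a ⊆ HS G c F0 w ∪ HS G c F0 w' := by
      intro s hs
      obtain ⟨g1, K, hK⟩ := mem_NS.1 hs
      have gs := hK.slot hc
      rw [Finset.mem_union, mem_HS, mem_HS]
      rcases kn.mem g1.symm with e | e | e
      · exact Or.inl ⟨e, K, hK⟩
      · exact Or.inr ⟨e, K, hK⟩
      · exact (Q0_Q1 gs.1 (e ▸ kx)).elim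
    have c1 := Finset.card_union_le (NS G c F0 a) (Jz G c F0 e)
    have c2 := Finset.card_le_card hsub
    have c3 := HS_card h.pf (F0 := F0) w
    have c5 := HS_card h.pf (F0 := F0) w'
    have c6 := Finset.card_union_le (HS G c F0 w) (HS G c F0 w')
    have c4 := jz_end h (fun q => Q0_Q1 q kx) kxx (Q1_W kx) hne
    show ((NS G c F0 a) ∪ Jz G c F0 e).card ≤ 6
    omega

theorem tok7 (h : Fin7 G c F0) {s : V × V} {H : Finset V} {τ e : V}
    (hh : HC G c F0 7 s H τ e) : TokOK G c F0 τ 4 1 := by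
  have hc := h.pf.nice
  obtain ⟨w, a⟩ := s
  obtain ⟨h1, h2⟩ := hh
  cases h1 with
  | hs b _ d _ α β _ _ hB hN hb' hw ha =>
    have hbl := hB.bl hc
    obtain ⟨g, g', t⟩ := tk_of h.pf hb' (ma_symm hB.mb) hN.adj.2.2.symm hbl.1 hB.b0
      hB.nb.adj.2.1
    refine tok_fin h t ?_ (by norm_num)
    have hsub : NS G c F0 α ∪ Jz G c F0 b ⊆ HS G c F0 b ∪ HS G c F0 d := by
      intro s hs
      rw [Finset.mem_union] at hs
      have hcor : ∃ K, Cor G c F0 s K := by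
        rcases hs with hs | hs
        · exact (mem_NS.1 hs).2
        · exact Jz_cor hs
      obtain ⟨K, hK⟩ := hcor
      have gs := hK.slot hc
      rw [Finset.mem_union, mem_HS, mem_HS]
      rcases hs with hs | hs
      · rcases hN.mem (mem_NS.1 hs).1.symm with e | e | e
        · exact Or.inl ⟨e, K, hK⟩
        · exact Or.inr ⟨e, K, hK⟩
        · exact (Q0_Q1 gs.1 (e ▸ hb')).elim
      · rcases j_Q0 h hB.b0 hs with e | e | e
        · exact Or.inl ⟨e, K, hK⟩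
        · exfalso
          have e1 : s.1 = τ := nice_uniq hc ⟨e.symm, by rw [Q0_W gs.1, Q0_W hB.b0]⟩ hB.mb
          exact Q0_Q1 gs.1 (e1 ▸ hb')
        · exact Or.inr ⟨e.symm.uniq h.pf hB.tw, K, hK⟩
    have c2 := Finset.card_le_card hsub
    have c3 := HS_card h.pf (F0 := F0) b
    have c5 := HS_card h.pf (F0 := F0) d
    have c6 := Finset.card_union_le (HS G c F0 b) (HS G c F0 d)
    omega

theorem tok6 (h : Fin7 G c F0) {s : V × V} {H : Finset V} {τ e : V}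
    (hh : HC G c F0 6 s H τ e) : TokOK G c F0 τ 2 0 := by
  have hc := h.pf.nice
  have hsl := hh.slot hc
  obtain ⟨w, a⟩ := s
  obtain ⟨h1, h2⟩ := hh
  cases h1 with
  | x4 _ w' _ _ q' p p' r _ s' k0 km kn kqq kq kq' kqp kpp kp kN krw kr ks =>
    have hX : Xc G c w a τ q' p p' := ⟨k0, kn, kqq, kq, kq', kqp, kpp, kp⟩
    have hN : N3 G τ q' a p := by
      refine N3_of3 h.pf.cub kqq.1 kn.adj.2.1.symm kqp ?_ ?_ ?_
      · intro e
        exact WB (Q1_W kq') (e ▸ hsl.2.2.1)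
      · intro e
        exact WB (Q1_W kq') (e ▸ kp)
      · intro e
        exact B0_not_B1 hsl.2.2 (e ▸ (hX.B1 hc).1)
    have t : Tk G c τ q' a p p' w := ⟨kq, kqq, hN, hsl.2.2, (hX.B1 hc).1, kpp, k0, hsl.2.1⟩
    have hsub : NS G c F0 a ∪ Jz G c F0 q' ⊆ HS G c F0 w := by
      intro s hs
      rw [Finset.mem_union] at hs
      have hcor : (∃ K, Cor G c F0 s K) ∧ G.Adj s.1 a := by
        rcases hs with hs | hs
        · exact ⟨(mem_NS.1 hs).2, (mem_NS.1 hs).1⟩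
        · exact ⟨Jz_cor hs, j_Q1 h kq' hsl.2.2 kn.adj.2.2.symm k0 hsl.2.1 hs⟩
      obtain ⟨⟨K, hK⟩, h3⟩ := hcor
      have gs := hK.slot hc
      rw [mem_HS]
      refine ⟨?_, K, hK⟩
      rcases kn.mem h3.symm with e | e | e
      · exact e
      · exact (Q0_Q1 gs.1 (e ▸ kq)).elim
      · exact (Q0_Q1 gs.1 (e ▸ kq')).elim
    have c3 := HS_card h.pf (F0 := F0) w
    obtain ⟨g1, g2, g3, g4⟩ := tok_fin h t ((Finset.card_le_card hsub).trans c3) (by norm_num)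
    refine ⟨g1, g2, ?_, g4⟩
    have : BM G c F0 τ = ∅ := by
      rw [Finset.eq_empty_iff_forall_notMem]
      intro s hs
      obtain ⟨f1, f2, f3, f4, τ', f5, f6, f7, f8⟩ := t.bm h hs
      have e := h.pf.f1 _ _ _ _ _ _ τ' s.2 s.1 hX f6 (mem_Qs.1 f5).1 f7 f2 f1 f3
      refine f4 a t.inz.2.2.1 ?_
      rw [e]
      exact hsl.2.1
    rw [this]
    simp

end PkS7

end

end Pool.Agent.Work.MP_1e13ac_W
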