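import Pool.Agent.Work.MP_1e13ac_W.PkS7b

/-!
# MP_1e13ac_co, full statement, level `k ≥ 2`: final stage, halves (helper45)
-/

set_option autoImplicit false
set_option linter.unusedSectionVars false

namespace Pool.Agent.Work.MP_1e13ac_W

open Classical Finset Pool.Agent.Work.MP_1e13ac_Bis

noncomputable section

namespace PkS7

variable {V : Type} [Fintype V] {G : SimpleGraph V} {c : V → Bool} {F0 : Finset V}

theorem zn_ind {F : Finset V} {S : V → Prop} (h1 : ∀ f ∈ F, S f)
    (h2 : ∀ f ∈ F, ∀ y, G.Adj f y → S y) (h3 : ∀ y, S y → ∀ z, MA G c y z → S z) {z : V}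
    (hz : z ∈ Zn G c F) : S z := by
  have key : ∀ y ∈ NF G F, S y := by
    intro y hy
    rcases mem_NF.1 hy with h4 | ⟨f, hf, h4⟩
    · exact h1 y h4
    · exact h2 f hf y h4
  rcases mem_Zn.1 hz with h4 | ⟨y, hy, h4⟩
  · exact key z h4
  · exact h3 y (key y hy) z h4

/-- an unhit source without twin -/
structure Sr (G : SimpleGraph V) (c : V → Bool) (F0 : Finset V) (w w' a b : V) : Prop where
  w0 : w ∈ Qs G c 0
  mw : MA G c w w'
  nw : N3 G w w' a b
  a0 : IsB0 G c a
  b0 : IsB0 G c b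
  ub : ZD G c {w} F0
  nt : ∀ t, ¬ Tw G c w t

section Src

variable {w w' a b : V}

theorem Sr.cw' (r : Sr G c F0 w w' a b) : c w' = true := MA_W r.mw (Q0_W r.w0)

/-- sources with a common black neighbour -/
theorem Sr.src (hP : PF G c) (r : Sr G c F0 w w' a b) {u z : V} (hu : u ∈ Qs G c 0)
    (hwz : G.Adj w z) (huz : G.Adj u z) : u = w ∨ u = w' := by
  rcases hP.src hu r.w0 huz hwz with e | e | e
  · exact Or.inl e
  · exact Or.inr (nice_uniq hP.nice ⟨e.symm, by rw [Q0_W hu, Q0_W r.w0]⟩ r.mw)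
  · exact (r.nt u e.symm).elim

theorem Sr.jw (h : Fin7 G c F0) (r : Sr G c F0 w w' a b) {s : V × V}
    (hs : s ∈ Jz G c F0 w) : s.1 = w ∨ s.1 = w' := by
  obtain ⟨K, hK⟩ := Jz_cor hs
  have gs := hK.slot h.pf.nice
  rcases j_Q0 h r.w0 hs with e | e | e
  · exact Or.inl e
  · exact Or.inr (nice_uniq h.pf.nice ⟨e.symm, by rw [Q0_W gs.1, Q0_W r.w0]⟩ r.mw)
  · exact (r.nt s.1 e.symm).elim

theorem Sr.jw' (h : Fin7 G c F0) (r : Sr G c F0 w w' a b) {s : V × V}
    (hs : s ∈ Jh G c F0 w') : s.1 = w ∨ s.1 = w' := by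
  have hc := h.pf.nice
  by_cases h0 : w' ∈ Qs G c 0
  · obtain ⟨n, H, τ, e, h1, -⟩ := mem_Jh.1 hs
    have gs := h1.slot hc
    rcases j_Q0 h h0 (Jh_sub hs) with k | k | k
    · exact Or.inr k
    · exact Or.inl (nice_uniq hc ⟨k.symm, by rw [Q0_W gs.1, Q0_W h0]⟩ (ma_symm r.mw))
    · exfalso
      obtain ⟨-, -, k1 | k1⟩ := h1.twin h.pf k (ma_symm r.mw)
      · exact Q0_Q1 r.w0 k1
      · exact h.noE h1 (k1 ▸ r.w0) (k1 ▸ r.ub)
  · exact Or.inl (jh_mate h r.w0 r.mw r.ub r.nt h0 hs)

theorem Sr.jab (h : Fin7 G c F0) (r : Sr G c F0 w w' a b) {z : V} (hz : IsB0 G c z)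
    (hwz : G.Adj w z) {s : V × V} (hs : s ∈ Jz G c F0 z) : s.1 = w ∨ s.1 = w' := by
  obtain ⟨K, hK⟩ := Jz_cor hs
  exact r.src h.pf (hK.slot h.pf.nice).1 hwz (j_B0 h hz hs)

theorem Sr.hs_card (h : Fin7 G c F0) (r : Sr G c F0 w w' a b) :
    (HS G c F0 w ∪ HS G c F0 w').card ≤ 4 := by
  have c1 := Finset.card_union_le (HS G c F0 w) (HS G c F0 w')
  have c2 := HS_card h.pf (F0 := F0) w
  have c3 := HS_card h.pf (F0 := F0) w'
  have := r.w0
  omega

theorem mem_HS2 {w w' : V} {s : V × V} (hs : s.1 = w ∨ s.1 = w') (hK : ∃ K, Cor G c F0 s K) :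
    s ∈ HS G c F0 w ∪ HS G c F0 w' := by
  rw [Finset.mem_union, mem_HS, mem_HS]
  rcases hs with e | e
  · exact Or.inl ⟨e, hK⟩
  · exact Or.inr ⟨e, hK⟩

end Src

/-- the kill set of a vertex of `W0` with the neighbour `a` -/
theorem j_W0 (h : Fin7 G c F0) {y a : V} (hy : IsW0 G c y) (hya : G.Adj y a) :
    ∃ Δ : Finset (V × V), Δ.card ≤ 2 ∧ ∀ s, s ∈ Jz G c F0 y → s ∈ Cn G c F0 a ∨ s ∈ Δ := by
  obtain ⟨y₁, y₂, hN⟩ := N3_of1 h.pf.cub hya
  refine ⟨Cn G c F0 y₁ ∪ Cn G c F0 y₂, ?_, ?_⟩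
  · have c1 := Finset.card_union_le (Cn G c F0 y₁) (Cn G c F0 y₂)
    have c2 := cn_W0_card' h.pf h.na3 hy hN.adj.2.1
    have c3 := cn_W0_card' h.pf h.na3 hy hN.adj.2.2
    omega
  · intro s hs
    have := jz_W0_sub h.pf h.na1 hy hN hs
    rw [Finset.mem_union, Finset.mem_union] at this
    rw [Finset.mem_union]
    tauto

/-- conclusion for halves -/
def HalfOK (G : SimpleGraph V) (c : V → Bool) (F0 : Finset V) (H : Finset V) (κ : ℕ) : Prop :=
  (HK G c F0 H).card ≤ κ ∧ blk G c H ≤ 3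

theorem half5 (h : Fin7 G c F0) {s : V × V} {H : Finset V} {τ e : V}
    (hh : HC G c F0 5 s H τ e) : HalfOK G c F0 H 8 := by
  have hc := h.pf.nice
  have hsl := hh.slot hc
  have hne := h.noE hh
  have hub := hh.unb hc
  have htw := fun t (ht : Tw G c s.1 t) (t' : V) (hm : MA G c t t') => (hh.twin h.pf ht hm).1
  obtain ⟨w, a⟩ := s
  obtain ⟨h1, h2⟩ := hh
  cases h1 with
  | m _ w' _ _ _ y k0 km kn kx kxw kxx ky =>
    obtain ⟨ha0, b, hb, hb0⟩ := Q0_N3' h.pf.cub hc k0 km hsl.2.1 hsl.2.2.1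
    have r : Sr G c F0 w w' a b := by
      refine ⟨k0, km, hb, ha0, hb0, hub, ?_⟩
      intro t ht
      obtain ⟨t', ht'⟩ := mate_ex (mem_Qs.1 ht.2.1).1
      exact absurd (htw t ht t' ht') (by norm_num)
    have hwa : G.Adj w a := hsl.2.1
    have hzone : ∀ z, z ∈ Zn G c {w, a} →
        z = w ∨ z = w' ∨ z = a ∨ z = b ∨ z = τ ∨ z = e ∨ z = y := by
      intro z hz
      refine zn_ind (G := G) (c := c) (F := {w, a})
        (S := fun z => z = w ∨ z = w' ∨ z = a ∨ z = b ∨ z = τ ∨ z = e ∨ z = y) ?_ ?_ ?_ hz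
      · intro f hf
        rw [Finset.mem_insert, Finset.mem_singleton] at hf
        rcases hf with h5 | h5 <;> simp [h5]
      · intro f hf y' hy'
        rw [Finset.mem_insert, Finset.mem_singleton] at hf
        rcases hf with e1 | e1
        · rw [e1] at hy'
          rcases hb.mem hy' with e2 | e2 | e2 <;> simp [e2]
        · rw [e1] at hy'
          rcases kn.mem hy' with e2 | e2 | e2 <;> simp [e2]
      · intro y' hy' z' hz'
        rcases hy' with e1 | e1 | e1 | e1 | e1 | e1 | e1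
        · rw [e1] at hz'
          rw [nice_uniq hc hz' km]; simp
        · rw [e1] at hz'
          rw [nice_uniq hc hz' (ma_symm km)]; simp
        · rw [e1] at hz'
          exact (md0_no ha0.2 hz').elim
        · rw [e1] at hz'
          exact (md0_no hb0.2 hz').elim
        · rw [e1] at hz'
          rw [nice_uniq hc hz' kxx]; simp
        · rw [e1] at hz'
          rw [nice_uniq hc hz' (ma_symm kxx)]; simp
        · rw [e1] at hz'
          rcases ky with k | ⟨k, -⟩
          · exact (md0_no k.2 hz').elim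
          · rw [k] at hz'
            rw [nice_uniq hc hz' (ma_symm km)]; simp
    have hy : ∃ Δ : Finset (V × V), Δ.card ≤ 2 ∧ ∀ s, s ∈ Jh G c F0 y →
        (s.1 = w ∨ s.1 = w') ∨ s ∈ Δ := by
      rcases ky with k | ⟨k, -⟩
      · obtain ⟨Δ, h3, h4⟩ := j_W0 h k kn.adj.2.2.symm
        refine ⟨Δ, h3, fun s hs => ?_⟩
        rcases h4 s (Jh_sub hs) with h5 | h5
        · exact Or.inl (r.jab h ha0 hwa (Cn_Jz h5))
        · exact Or.inr h5
      · refine ⟨∅, by simp, fun s hs => Or.inl ?_⟩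
        rw [k] at hs
        exact r.jw' h hs
    obtain ⟨Δ, hΔ, hΔ'⟩ := hy
    constructor
    · have hsub : HK G c F0 {w, a} ⊆ (HS G c F0 w ∪ HS G c F0 w') ∪ (Jz G c F0 e ∪ Δ) := by
        intro s hs
        obtain ⟨z, hz, h3⟩ := HK_sub hc hs
        have h4 := Jh_sub h3
        have hcor := Jz_cor h4
        rw [Finset.mem_union]
        rcases hzone z hz with e1 | e1 | e1 | e1 | e1 | e1 | e1
        · rw [e1] at h4
          exact Or.inl (mem_HS2 (r.jw h h4) hcor)
        · rw [e1] at h3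
          exact Or.inl (mem_HS2 (r.jw' h h3) hcor)
        · rw [e1] at h4
          exact Or.inl (mem_HS2 (r.jab h ha0 hwa h4) hcor)
        · rw [e1] at h4
          exact Or.inl (mem_HS2 (r.jab h hb0 hb.adj.2.2 h4) hcor)
        · rw [e1] at h4
          obtain ⟨K, hK⟩ := hcor
          exact Or.inl (mem_HS2 (r.src h.pf (hK.slot hc).1 hwa
            (j_Q1 h kx ha0 kn.adj.2.1.symm k0 hwa h4)) ⟨K, hK⟩)
        · rw [e1] at h4
          exact Or.inr (Finset.mem_union_left _ h4)
        · rw [e1] at h3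
          rcases hΔ' s h3 with h5 | h5
          · exact Or.inl (mem_HS2 h5 hcor)
          · exact Or.inr (Finset.mem_union_right _ h5)
      have c1 := Finset.card_le_card hsub
      have c2 := Finset.card_union_le (HS G c F0 w ∪ HS G c F0 w') (Jz G c F0 e ∪ Δ)
      have c3 := Finset.card_union_le (Jz G c F0 e) Δ
      have c4 := r.hs_card h
      have c5 := jz_end h (fun q => Q0_Q1 q kx) kxx (Q1_W kx) hne
      show (HK G c F0 {w, a}).card ≤ 8
      omega
    · refine (blk_le (S := {w, w', e}) ?_).trans Finset.card_le_three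
      intro s hs hb'
      rw [Finset.mem_insert, Finset.mem_insert, Finset.mem_singleton]
      have hcs := Q0_W hs
      have hab : ∀ z, G.Adj w z → G.Adj s z → s = w ∨ s = w' ∨ s = e := by
        intro z h3 h4
        rcases r.src h.pf hs h3 h4 with e1 | e1
        · exact Or.inl e1
        · exact Or.inr (Or.inl e1)
      rcases blk_mem h.pf hs hb' with h3 | ⟨z, h3, h4, h5⟩
      · rcases hzone s h3 with e1 | e1 | e1 | e1 | e1 | e1 | e1
        · exact Or.inl e1
        · exact Or.inr (Or.inl e1)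
        · exact (WB hcs (e1 ▸ ha0.1)).elim
        · exact (WB hcs (e1 ▸ hb0.1)).elim
        · exact (Q0_Q1 hs (e1 ▸ kx)).elim
        · exact Or.inr (Or.inr e1)
        · rcases ky with k | ⟨k, -⟩
          · exact (Q0_W0 hs (e1 ▸ k)).elim
          · exact Or.inr (Or.inl (e1.trans k))
      · rcases hzone z h3 with e1 | e1 | e1 | e1 | e1 | e1 | e1
        · exact (WB (Q0_W k0) (e1 ▸ h4.1)).elim
        · exact (WB r.cw' (e1 ▸ h4.1)).elim
        · rw [e1] at h5
          exact hab a hwa h5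
        · rw [e1] at h5
          exact hab b hb.adj.2.2 h5
        · exact (WB (Q1_W kx) (e1 ▸ h4.1)).elim
        · exact (WB (MA_W kxx (Q1_W kx)) (e1 ▸ h4.1)).elim
        · rcases ky with k | ⟨k, -⟩
          · exact (WB k.1 (e1 ▸ h4.1)).elim
          · exact (WB r.cw' (k ▸ e1 ▸ h4.1)).elim

theorem half8 (h : Fin7 G c F0) {s : V × V} {H : Finset V} {τ e : V}
    (hh : HC G c F0 8 s H τ e) : HalfOK G c F0 H 6 := by
  have hc := h.pf.nice
  have hsl := hh.slot hc
  have hne := h.noE hh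
  have hub := hh.unb hc
  have htw := fun t (ht : Tw G c s.1 t) (t' : V) (hm : MA G c t t') => (hh.twin h.pf ht hm).1
  obtain ⟨w, a⟩ := s
  obtain ⟨h1, h2⟩ := hh
  cases h1 with
  | d1 _ w' _ _ _ k0 k0' km kn kx kxx =>
    obtain ⟨ha0, b, hb, hb0⟩ := Q0_N3' h.pf.cub hc k0 km hsl.2.1 hsl.2.2.1
    have r : Sr G c F0 w w' a b := by
      refine ⟨k0, km, hb, ha0, hb0, hub, ?_⟩
      intro t ht
      obtain ⟨t', ht'⟩ := mate_ex (mem_Qs.1 ht.2.1).1
      exact absurd (htw t ht t' ht') (by norm_num)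
    have hwa : G.Adj w a := hsl.2.1
    have hzone : ∀ z, z ∈ Zn G c {w, a} →
        z = w ∨ z = w' ∨ z = a ∨ z = b ∨ z = τ ∨ z = e := by
      intro z hz
      refine zn_ind (G := G) (c := c) (F := {w, a})
        (S := fun z => z = w ∨ z = w' ∨ z = a ∨ z = b ∨ z = τ ∨ z = e) ?_ ?_ ?_ hz
      · intro f hf
        rw [Finset.mem_insert, Finset.mem_singleton] at hf
        rcases hf with h5 | h5 <;> simp [h5]
      · intro f hf y' hy'
        rw [Finset.mem_insert, Finset.mem_singleton] at hf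
        rcases hf with e1 | e1
        · rw [e1] at hy'
          rcases hb.mem hy' with e2 | e2 | e2 <;> simp [e2]
        · rw [e1] at hy'
          rcases kn.mem hy' with e2 | e2 | e2 <;> simp [e2]
      · intro y' hy' z' hz'
        rcases hy' with e1 | e1 | e1 | e1 | e1 | e1
        · rw [e1] at hz'
          rw [nice_uniq hc hz' km]; simp
        · rw [e1] at hz'
          rw [nice_uniq hc hz' (ma_symm km)]; simp
        · rw [e1] at hz'
          exact (md0_no ha0.2 hz').elim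
        · rw [e1] at hz'
          exact (md0_no hb0.2 hz').elim
        · rw [e1] at hz'
          rw [nice_uniq hc hz' kxx]; simp
        · rw [e1] at hz'
          rw [nice_uniq hc hz' (ma_symm kxx)]; simp
    constructor
    · have hsub : HK G c F0 {w, a} ⊆ (HS G c F0 w ∪ HS G c F0 w') ∪ Jz G c F0 e := by
        intro s hs
        obtain ⟨z, hz, h3⟩ := HK_sub hc hs
        have h4 := Jh_sub h3
        have hcor := Jz_cor h4
        rw [Finset.mem_union]
        rcases hzone z hz with e1 | e1 | e1 | e1 | e1 | e1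
        · rw [e1] at h4
          exact Or.inl (mem_HS2 (r.jw h h4) hcor)
        · rw [e1] at h3
          exact Or.inl (mem_HS2 (r.jw' h h3) hcor)
        · rw [e1] at h4
          exact Or.inl (mem_HS2 (r.jab h ha0 hwa h4) hcor)
        · rw [e1] at h4
          exact Or.inl (mem_HS2 (r.jab h hb0 hb.adj.2.2 h4) hcor)
        · rw [e1] at h4
          obtain ⟨K, hK⟩ := hcor
          exact Or.inl (mem_HS2 (r.src h.pf (hK.slot hc).1 hwa
            (j_Q1 h kx ha0 kn.adj.2.2.symm k0 hwa h4)) ⟨K, hK⟩)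
        · rw [e1] at h4
          exact Or.inr h4
      have c1 := Finset.card_le_card hsub
      have c2 := Finset.card_union_le (HS G c F0 w ∪ HS G c F0 w') (Jz G c F0 e)
      have c4 := r.hs_card h
      have c5 := jz_end h (fun q => Q0_Q1 q kx) kxx (Q1_W kx) hne
      show (HK G c F0 {w, a}).card ≤ 6
      omega
    · refine (blk_le (S := {w, w', e}) ?_).trans Finset.card_le_three
      intro s hs hb'
      rw [Finset.mem_insert, Finset.mem_insert, Finset.mem_singleton]
      have hcs := Q0_W hs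
      have hab : ∀ z, G.Adj w z → G.Adj s z → s = w ∨ s = w' ∨ s = e := by
        intro z h3 h4
        rcases r.src h.pf hs h3 h4 with e1 | e1
        · exact Or.inl e1
        · exact Or.inr (Or.inl e1)
      rcases blk_mem h.pf hs hb' with h3 | ⟨z, h3, h4, h5⟩
      · rcases hzone s h3 with e1 | e1 | e1 | e1 | e1 | e1
        · exact Or.inl e1
        · exact Or.inr (Or.inl e1)
        · exact (WB hcs (e1 ▸ ha0.1)).elim
        · exact (WB hcs (e1 ▸ hb0.1)).elim
        · exact (Q0_Q1 hs (e1 ▸ kx)).elim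
        · exact Or.inr (Or.inr e1)
      · rcases hzone z h3 with e1 | e1 | e1 | e1 | e1 | e1
        · exact (WB (Q0_W k0) (e1 ▸ h4.1)).elim
        · exact (WB r.cw' (e1 ▸ h4.1)).elim
        · rw [e1] at h5
          exact hab a hwa h5
        · rw [e1] at h5
          exact hab b hb.adj.2.2 h5
        · exact (WB (Q1_W kx) (e1 ▸ h4.1)).elim
        · exact (WB (MA_W kxx (Q1_W kx)) (e1 ▸ h4.1)).elim

theorem half7 (h : Fin7 G c F0) {s : V × V} {H : Finset V} {τ e : V}
    (hh : HC G c F0 7 s H τ e) : HalfOK G c F0 H 6 := by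
  have hc := h.pf.nice
  have hne := h.noE hh
  obtain ⟨w, a⟩ := s
  obtain ⟨h1, h2⟩ := hh
  cases h1 with
  | hs b _ d _ α β _ _ hB hN hb' hw ha =>
    have hbl := hB.bl hc
    have hce : c e = true := MA_W hB.md (Q0_W hB.d0)
    have nomate : ∀ s : V × V, (∃ K, Cor G c F0 s K) → e ∈ Qs G c 0 → s.1 ≠ e := by
      rintro s ⟨K, hK⟩ he hse
      obtain ⟨n, H, τ', e', h3, -⟩ := Cor.hc h hK
      exact hne he (hse ▸ h3.unb hc)
    have hzone : ∀ z, z ∈ Zn G c {b, α} →
        z = b ∨ z = τ ∨ z = d ∨ z = e ∨ z = α ∨ z = β := by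
      intro z hz
      refine zn_ind (G := G) (c := c) (F := {b, α})
        (S := fun z => z = b ∨ z = τ ∨ z = d ∨ z = e ∨ z = α ∨ z = β) ?_ ?_ ?_ hz
      · intro f hf
        rw [Finset.mem_insert, Finset.mem_singleton] at hf
        rcases hf with h5 | h5 <;> simp [h5]
      · intro f hf y' hy'
        rw [Finset.mem_insert, Finset.mem_singleton] at hf
        rcases hf with e1 | e1
        · rw [e1] at hy'
          rcases hB.nb.mem hy' with e2 | e2 | e2 <;> simp [e2]
        · rw [e1] at hy'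
          rcases hN.mem hy' with e2 | e2 | e2 <;> simp [e2]
      · intro y' hy' z' hz'
        rcases hy' with e1 | e1 | e1 | e1 | e1 | e1
        · rw [e1] at hz'
          rw [nice_uniq hc hz' hB.mb]; simp
        · rw [e1] at hz'
          rw [nice_uniq hc hz' (ma_symm hB.mb)]; simp
        · rw [e1] at hz'
          rw [nice_uniq hc hz' hB.md]; simp
        · rw [e1] at hz'
          rw [nice_uniq hc hz' (ma_symm hB.md)]; simp
        · rw [e1] at hz'
          exact (md0_no hbl.1.2 hz').elim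
        · rw [e1] at hz'
          exact (md0_no hbl.2.2 hz').elim
    have src : ∀ u z, u ∈ Qs G c 0 → G.Adj b z → G.Adj u z → u = b ∨ u = d := by
      intro u z h3 h4 h5
      rcases h.pf.src h3 hB.b0 h5 h4 with e1 | e1 | e1
      · exact Or.inl e1
      · exfalso
        have e2 : u = τ := nice_uniq hc ⟨e1.symm, by rw [Q0_W h3, Q0_W hB.b0]⟩ hB.mb
        exact Q0_Q1 h3 (e2 ▸ hb')
      · exact Or.inr (e1.symm.uniq h.pf hB.tw)
    have hΔ : ∃ Δ : Finset (V × V), Δ.card ≤ 2 ∧ ∀ s, s ∈ Jz G c F0 e →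
        (s.1 = b ∨ s.1 = d) ∨ s ∈ Δ := by
      by_cases he : e ∈ Qs G c 0
      · refine ⟨∅, by simp, fun s hs => Or.inl ?_⟩
        have hcor := Jz_cor hs
        obtain ⟨K, hK⟩ := hcor
        have gs := hK.slot hc
        rcases j_Q0 h he hs with k | k | k
        · exact (nomate s ⟨K, hK⟩ he k).elim
        · exact Or.inr (nice_uniq hc ⟨k.symm, by rw [Q0_W gs.1, Q0_W he]⟩ (ma_symm hB.md))
        · obtain ⟨n, H, τ', e', h3, -⟩ := Cor.hc h hK
          exact (hne he (h3.twin h.pf k (ma_symm hB.md)).2.1).elim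
      · by_cases hH : NoH G c e
        · exact ⟨Jz G c F0 e, jz_W1_card h.pf h.na1 (W1_of_MA hc (ma_symm hB.md) hce) he hH,
            fun s hs => Or.inr hs⟩
        · unfold NoH at hH
          push Not at hH
          obtain ⟨b₂, d₂, d₂', α₂, β₂, hH⟩ := hH
          refine ⟨∅, by simp, fun s hs => Or.inl ?_⟩
          have e1 : b₂ = d := nice_uniq hc (ma_symm hH.1.mb) (ma_symm hB.md)
          rw [e1] at hH
          have e2 : d₂ = b := hH.1.tw.uniq h.pf hB.tw.symm
          obtain ⟨K, hK⟩ := Jz_cor hs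
          have gs := hK.slot hc
          have h4 := j_Q1 h hH.2.2 (hH.1.bl hc).1 hH.2.1.adj.2.2.symm hH.1.b0
            hH.1.nb.adj.2.1 hs
          rcases hH.2.1.mem h4.symm with e3 | e3 | e3
          · exact Or.inr e3
          · exact Or.inl (e3.trans e2)
          · exact (he (e3 ▸ gs.1)).elim
    obtain ⟨Δ, hΔ, hΔ'⟩ := hΔ
    constructor
    · have hsub : HK G c F0 {b, α} ⊆ (HS G c F0 b ∪ HS G c F0 d) ∪ Δ := by
        intro s hs
        obtain ⟨z, hz, h3⟩ := HK_sub hc hs
        have h4 := Jh_sub h3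
        have hcor := Jz_cor h4
        obtain ⟨K, hK⟩ := hcor
        have gs := hK.slot hc
        rw [Finset.mem_union]
        rcases hzone z hz with e1 | e1 | e1 | e1 | e1 | e1
        · rw [e1] at h4
          rcases j_Q0 h hB.b0 h4 with k | k | k
          · exact Or.inl (mem_HS2 (Or.inl k) ⟨K, hK⟩)
          · exfalso
            have e2 : s.1 = τ := nice_uniq hc ⟨k.symm, by rw [Q0_W gs.1, Q0_W hB.b0]⟩ hB.mb
            exact Q0_Q1 gs.1 (e2 ▸ hb')
          · exact Or.inl (mem_HS2 (Or.inr (k.symm.uniq h.pf hB.tw)) ⟨K, hK⟩)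
        · rw [e1] at h4
          exact Or.inl (mem_HS2 (src _ α gs.1 hB.nb.adj.2.1
            (j_Q1 h hb' hbl.1 hN.adj.2.2.symm hB.b0 hB.nb.adj.2.1 h4)) ⟨K, hK⟩)
        · rw [e1] at h4
          rcases j_Q0 h hB.d0 h4 with k | k | k
          · exact Or.inl (mem_HS2 (Or.inr k) ⟨K, hK⟩)
          · exfalso
            have e2 : s.1 = e := nice_uniq hc ⟨k.symm, by rw [Q0_W gs.1, Q0_W hB.d0]⟩ hB.md
            exact nomate s ⟨K, hK⟩ (e2 ▸ gs.1) e2
          · exact Or.inl (mem_HS2 (Or.inl (k.symm.uniq h.pf hB.tw.symm)) ⟨K, hK⟩)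
        · rw [e1] at h4
          rcases hΔ' s h4 with h5 | h5
          · exact Or.inl (mem_HS2 h5 ⟨K, hK⟩)
          · exact Or.inr h5
        · rw [e1] at h4
          exact Or.inl (mem_HS2 (src _ α gs.1 hB.nb.adj.2.1 (j_B0 h hbl.1 h4)) ⟨K, hK⟩)
        · rw [e1] at h4
          exact Or.inl (mem_HS2 (src _ β gs.1 hB.nb.adj.2.2 (j_B0 h hbl.2 h4)) ⟨K, hK⟩)
      have c1 := Finset.card_le_card hsub
      have c2 := Finset.card_union_le (HS G c F0 b ∪ HS G c F0 d) Δ
      have c3 := Finset.card_union_le (HS G c F0 b) (HS G c F0 d)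
      have c4 := HS_card h.pf (F0 := F0) b
      have c5 := HS_card h.pf (F0 := F0) d
      omega
    · refine (blk_le (S := {b, d, e}) ?_).trans Finset.card_le_three
      intro s hs hb''
      rw [Finset.mem_insert, Finset.mem_insert, Finset.mem_singleton]
      have hcs := Q0_W hs
      have hab : ∀ z, G.Adj b z → G.Adj s z → s = b ∨ s = d ∨ s = e := by
        intro z h3 h4
        rcases src s z hs h3 h4 with e1 | e1
        · exact Or.inl e1
        · exact Or.inr (Or.inl e1)
      rcases blk_mem h.pf hs hb'' with h3 | ⟨z, h3, h4, h5⟩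
      · rcases hzone s h3 with e1 | e1 | e1 | e1 | e1 | e1
        · exact Or.inl e1
        · exact (Q0_Q1 hs (e1 ▸ hb')).elim
        · exact Or.inr (Or.inl e1)
        · exact Or.inr (Or.inr e1)
        · exact (WB hcs (e1 ▸ hbl.1.1)).elim
        · exact (WB hcs (e1 ▸ hbl.2.1)).elim
      · rcases hzone z h3 with e1 | e1 | e1 | e1 | e1 | e1
        · exact (WB (Q0_W hB.b0) (e1 ▸ h4.1)).elim
        · exact (WB (Q1_W hb') (e1 ▸ h4.1)).elim
        · exact (WB (Q0_W hB.d0) (e1 ▸ h4.1)).elim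
        · exact (WB hce (e1 ▸ h4.1)).elim
        · rw [e1] at h5
          exact hab α hB.nb.adj.2.1 h5
        · rw [e1] at h5
          exact hab β hB.nb.adj.2.2 h5

theorem half6 (h : Fin7 G c F0) {s : V × V} {H : Finset V} {τ e : V}
    (hh : HC G c F0 6 s H τ e) : HalfOK G c F0 H 10 := by
  have hc := h.pf.nice
  have hsl := hh.slot hc
  have hne := h.noE hh
  have hub := hh.unb hc
  have htw := fun t (ht : Tw G c s.1 t) (t' : V) (hm : MA G c t t') => (hh.twin h.pf ht hm).1
  obtain ⟨w, a⟩ := s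
  obtain ⟨h1, h2⟩ := hh
  cases h1 with
  | x4 _ w' _ _ q' p p' ρ _ σ k0 km kn kqq kq kq' kqp kpp kp kN krw kr ks =>
    have hX : Xc G c w a τ q' p p' := ⟨k0, kn, kqq, kq, kq', kqp, kpp, kp⟩
    have hB1 := hX.B1 hc
    obtain ⟨ha0, b, hb, hb0⟩ := Q0_N3' h.pf.cub hc k0 km hsl.2.1 hsl.2.2.1
    have r : Sr G c F0 w w' a b := by
      refine ⟨k0, km, hb, ha0, hb0, hub, ?_⟩
      intro t ht
      obtain ⟨t', ht'⟩ := mate_ex (mem_Qs.1 ht.2.1).1
      exact absurd (htw t ht t' ht') (by norm_num)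
    have hwa : G.Adj w a := hsl.2.1
    have hNq : N3 G τ q' a p := by
      refine N3_of3 h.pf.cub kqq.1 kn.adj.2.1.symm kqp ?_ ?_ ?_
      · intro e
        exact WB (Q1_W kq') (e ▸ hsl.2.2.1)
      · intro e
        exact WB (Q1_W kq') (e ▸ kp)
      · intro e
        exact B0_not_B1 hsl.2.2 (e ▸ hB1.1)
    have t : Tk G c τ q' a p p' w := ⟨kq, kqq, hNq, hsl.2.2, hB1.1, kpp, k0, hsl.2.1⟩
    have hρp : G.Adj p' ρ := kN.adj.2.1
    have hcρ : c ρ = true := by
      by_contra hh
      have hh' : c ρ = false := by simpa using hh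
      exact kN.1 (nice_uniq hc (ma_symm kpp) ⟨hρp, by rw [hB1.2.1, hh']⟩)
    have hρW : IsW1 G c ρ := W1_of_MA hc kr hcρ
    have hρ0 : ρ ∉ Qs G c 0 := fun hq => Q0_noB1 hc hq hB1.2 hρp.symm
    have hce : c e = true := MA_W kr hcρ
    have hzone : ∀ z, z ∈ Zn G c {w, a, τ, p'} → z = w ∨ z = w' ∨ z = a ∨ z = b ∨ z = τ ∨
        z = q' ∨ z = p ∨ z = p' ∨ z = ρ ∨ z = e ∨ z = σ := by
      intro z hz
      refine zn_ind (G := G) (c := c) (F := {w, a, τ, p'})
        (S := fun z => z = w ∨ z = w' ∨ z = a ∨ z = b ∨ z = τ ∨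
          z = q' ∨ z = p ∨ z = p' ∨ z = ρ ∨ z = e ∨ z = σ) ?_ ?_ ?_ hz
      · intro f hf
        rw [Finset.mem_insert, Finset.mem_insert, Finset.mem_insert, Finset.mem_singleton] at hf
        rcases hf with h5 | h5 | h5 | h5 <;> simp [h5]
      · intro f hf y' hy'
        rw [Finset.mem_insert, Finset.mem_insert, Finset.mem_insert, Finset.mem_singleton] at hf
        rcases hf with e1 | e1 | e1 | e1
        · rw [e1] at hy'
          rcases hb.mem hy' with e2 | e2 | e2 <;> simp [e2]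
        · rw [e1] at hy'
          rcases kn.mem hy' with e2 | e2 | e2 <;> simp [e2]
        · rw [e1] at hy'
          rcases hNq.mem hy' with e2 | e2 | e2 <;> simp [e2]
        · rw [e1] at hy'
          rcases kN.mem hy' with e2 | e2 | e2 <;> simp [e2]
      · intro y' hy' z' hz'
        rcases hy' with e1 | e1 | e1 | e1 | e1 | e1 | e1 | e1 | e1 | e1 | e1
        · rw [e1] at hz'
          rw [nice_uniq hc hz' km]; simp
        · rw [e1] at hz'
          rw [nice_uniq hc hz' (ma_symm km)]; simp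
        · rw [e1] at hz'
          exact (md0_no ha0.2 hz').elim
        · rw [e1] at hz'
          exact (md0_no hb0.2 hz').elim
        · rw [e1] at hz'
          rw [nice_uniq hc hz' kqq]; simp
        · rw [e1] at hz'
          rw [nice_uniq hc hz' (ma_symm kqq)]; simp
        · rw [e1] at hz'
          rw [nice_uniq hc hz' kpp]; simp
        · rw [e1] at hz'
          rw [nice_uniq hc hz' (ma_symm kpp)]; simp
        · rw [e1] at hz'
          rw [nice_uniq hc hz' kr]; simp
        · rw [e1] at hz'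
          rw [nice_uniq hc hz' (ma_symm kr)]; simp
        · rw [e1] at hz'
          rcases ks with k | k
          · exact (md0_no k.2 hz').elim
          · rw [k] at hz'
            rw [nice_uniq hc hz' (ma_symm km)]; simp
    have hfin : ∀ s : V × V, (∃ K, Cor G c F0 s K) → G.Adj s.1 a → s.1 = w ∨ s.1 = w' := by
      rintro s ⟨K, hK⟩ h3
      exact r.src h.pf (hK.slot hc).1 hwa h3
    have hσ : ∃ Δ : Finset (V × V), Δ.card ≤ 2 ∧ ∀ s, s ∈ Jh G c F0 σ →
        (s.1 = w ∨ s.1 = w') ∨ s ∈ Δ := by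
      rcases ks with k | k
      · obtain ⟨Δ, h3, h4⟩ := j_W0 h k kN.adj.2.2.symm
        refine ⟨Δ, h3, fun s hs => ?_⟩
        rcases h4 s (Jh_sub hs) with h5 | h5
        · exact Or.inl (hfin s (Cn_cor h5) (t.cn_g' h h5))
        · exact Or.inr h5
      · refine ⟨∅, by simp, fun s hs => Or.inl ?_⟩
        rw [k] at hs
        exact r.jw' h hs
    have hρ : ∃ Γ : Finset (V × V), Γ.card ≤ 1 ∧ ∀ s, s ∈ Jz G c F0 ρ →
        (s.1 = w ∨ s.1 = w') ∨ s ∈ Γ := by
      obtain ⟨γ, hγ⟩ := N3_of h.pf.cub kr.1 hρp.symm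
        (fun q => WB hce (q ▸ hB1.2.1))
      have hcγ : c γ = false := by
        by_contra hh
        have hh' : c γ = true := by simpa using hh
        exact hγ.2.1 (nice_uniq hc kr ⟨hγ.adj.2.2, by rw [hcρ, hh']⟩)
      have hf1 : ∀ μ u, IsB0 G c μ → G.Adj ρ μ → u ∈ Qs G c 0 → G.Adj u μ → u = w := by
        intro μ u h3 h4 h5 h6
        exact h.pf.f1 _ _ _ _ _ _ ρ μ u hX hρp hρW h4 h3 h5 h6
      have key : ∀ s, s ∈ Jz G c F0 ρ → s.1 = w ∨ s.1 = w' ∨ s ∈ Cn G c F0 γ := by
        intro s hs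
        obtain ⟨K, hK, v, hv, hvz⟩ := mem_Jz.1 hs
        have gs := hK.slot hc
        rcases hvz with e1 | ⟨e1, e2⟩
        · left
          rw [e1] at hv
          have hcn : s ∈ Cn G c F0 ρ := mem_Cn.2 ⟨K, hK, hv⟩
          rcases W1_cases h.pf.cub hc hρW with h3 | h3 | h3
          · exact (hρ0 h3).elim
          · obtain ⟨μ, h4, h5, h6⟩ := src_at h h3 hcn
            exact hf1 μ s.1 h4 h5 gs.1 h6
          · exact (cn_Q2 hc h.na1 h3 hcn).elim
        · rcases hγ.mem e1.symm with e3 | e3 | e3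
          · exfalso
            rw [e3, hce, hcρ] at e2
            exact e2 rfl
          · rw [e3] at hv
            rcases hfin s ⟨K, hK⟩ (t.cn_g' h (mem_Cn.2 ⟨K, hK, hv⟩)) with h4 | h4
            · exact Or.inl h4
            · exact Or.inr (Or.inl h4)
          · rw [e3] at hv
            exact Or.inr (Or.inr (mem_Cn.2 ⟨K, hK, hv⟩))
      rcases B0_or_B1 hc hcγ with h3 | h3
      · refine ⟨∅, by simp, fun s hs => Or.inl ?_⟩
        rcases key s hs with h4 | h4 | h4
        · exact Or.inl h4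
        · exact Or.inr h4
        · obtain ⟨K, hK⟩ := Cn_cor h4
          exact Or.inl (hf1 γ s.1 h3 hγ.adj.2.2 (hK.slot hc).1 (j_B0 h h3 (Cn_Jz h4)))
      · refine ⟨Cn G c F0 γ, cn_B1_card h.pf h.na1 h3, fun s hs => ?_⟩
        rcases key s hs with h4 | h4 | h4
        · exact Or.inl (Or.inl h4)
        · exact Or.inl (Or.inr h4)
        · exact Or.inr h4
    obtain ⟨Δ, hΔ, hΔ'⟩ := hσ
    obtain ⟨Γ, hΓ, hΓ'⟩ := hρ
    constructor
    · have hsub : HK G c F0 {w, a, τ, p'} ⊆
          (HS G c F0 w ∪ HS G c F0 w') ∪ (Γ ∪ (Jz G c F0 e ∪ Δ)) := by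
        intro s hs
        obtain ⟨z, hz, h3⟩ := HK_sub hc hs
        have h4 := Jh_sub h3
        have hcor := Jz_cor h4
        rw [Finset.mem_union]
        rcases hzone z hz with e1 | e1 | e1 | e1 | e1 | e1 | e1 | e1 | e1 | e1 | e1
        · rw [e1] at h4
          exact Or.inl (mem_HS2 (r.jw h h4) hcor)
        · rw [e1] at h3
          exact Or.inl (mem_HS2 (r.jw' h h3) hcor)
        · rw [e1] at h4
          exact Or.inl (mem_HS2 (r.jab h ha0 hwa h4) hcor)
        · rw [e1] at h4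
          exact Or.inl (mem_HS2 (r.jab h hb0 hb.adj.2.2 h4) hcor)
        · rw [e1] at h4
          exact Or.inl (mem_HS2 (hfin s hcor (j_Q1 h kq ha0 kn.adj.2.1.symm k0 hwa h4)) hcor)
        · rw [e1] at h4
          exact Or.inl (mem_HS2 (hfin s hcor (j_Q1 h kq' ha0 kn.adj.2.2.symm k0 hwa h4)) hcor)
        · rw [e1] at h3
          rcases jh_B1 h hB1.1 kpp h3 with h5 | h5
          · exact Or.inl (mem_HS2 (hfin s hcor (t.cn_g h h5)) hcor)
          · exact Or.inl (mem_HS2 (hfin s hcor (t.cn_g' h h5)) hcor)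
        · rw [e1] at h3
          rcases jh_B1 h hB1.2 (ma_symm kpp) h3 with h5 | h5
          · exact Or.inl (mem_HS2 (hfin s hcor (t.cn_g' h h5)) hcor)
          · exact Or.inl (mem_HS2 (hfin s hcor (t.cn_g h h5)) hcor)
        · rw [e1] at h4
          rcases hΓ' s h4 with h5 | h5
          · exact Or.inl (mem_HS2 h5 hcor)
          · exact Or.inr (Finset.mem_union_left _ h5)
        · rw [e1] at h4
          exact Or.inr (Finset.mem_union_right _ (Finset.mem_union_left _ h4))
        · rw [e1] at h3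
          rcases hΔ' s h3 with h5 | h5
          · exact Or.inl (mem_HS2 h5 hcor)
          · exact Or.inr (Finset.mem_union_right _ (Finset.mem_union_right _ h5))
      have c1 := Finset.card_le_card hsub
      have c2 := Finset.card_union_le (HS G c F0 w ∪ HS G c F0 w') (Γ ∪ (Jz G c F0 e ∪ Δ))
      have c6 := Finset.card_union_le Γ (Jz G c F0 e ∪ Δ)
      have c3 := Finset.card_union_le (Jz G c F0 e) Δ
      have c4 := r.hs_card h
      have c5 := jz_end h hρ0 kr hcρ hne
      show (HK G c F0 {w, a, τ, p'}).card ≤ 10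
      omega
    · refine (blk_le (S := {w, w', e}) ?_).trans Finset.card_le_three
      intro s hs hb'
      rw [Finset.mem_insert, Finset.mem_insert, Finset.mem_singleton]
      have hcs := Q0_W hs
      have hab : ∀ z, G.Adj w z → G.Adj s z → s = w ∨ s = w' ∨ s = e := by
        intro z h3 h4
        rcases r.src h.pf hs h3 h4 with e1 | e1
        · exact Or.inl e1
        · exact Or.inr (Or.inl e1)
      rcases blk_mem h.pf hs hb' with h3 | ⟨z, h3, h4, h5⟩
      · rcases hzone s h3 with e1 | e1 | e1 | e1 | e1 | e1 | e1 | e1 | e1 | e1 | e1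
        · exact Or.inl e1
        · exact Or.inr (Or.inl e1)
        · exact (WB hcs (e1 ▸ ha0.1)).elim
        · exact (WB hcs (e1 ▸ hb0.1)).elim
        · exact (Q0_Q1 hs (e1 ▸ kq)).elim
        · exact (Q0_Q1 hs (e1 ▸ kq')).elim
        · exact (WB hcs (e1 ▸ hB1.1.1)).elim
        · exact (WB hcs (e1 ▸ hB1.2.1)).elim
        · exact (hρ0 (e1 ▸ hs)).elim
        · exact Or.inr (Or.inr e1)
        · rcases ks with k | k
          · exact (Q0_W0 hs (e1 ▸ k)).elim
          · exact Or.inr (Or.inl (e1.trans k))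
      · rcases hzone z h3 with e1 | e1 | e1 | e1 | e1 | e1 | e1 | e1 | e1 | e1 | e1
        · exact (WB (Q0_W k0) (e1 ▸ h4.1)).elim
        · exact (WB r.cw' (e1 ▸ h4.1)).elim
        · rw [e1] at h5
          exact hab a hwa h5
        · rw [e1] at h5
          exact hab b hb.adj.2.2 h5
        · exact (WB (Q1_W kq) (e1 ▸ h4.1)).elim
        · exact (WB (Q1_W kq') (e1 ▸ h4.1)).elim
        · exact (B0_not_B1 h4 (e1 ▸ hB1.1)).elim
        · exact (B0_not_B1 h4 (e1 ▸ hB1.2)).elim
        · exact (WB hcρ (e1 ▸ h4.1)).elim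
        · exact (WB hce (e1 ▸ h4.1)).elim
        · rcases ks with k | k
          · exact (WB k.1 (e1 ▸ h4.1)).elim
          · exact (WB r.cw' (k ▸ e1 ▸ h4.1)).elim

end PkS7

end

end Pool.Agent.Work.MP_1e13ac_W
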