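import Pool.Agent.Work.MP_1e13ac_W.Base
import Pool.Agent.Work.MP_1e13ac_W.Defs

/-!
# MP_1e13ac_co, full statement: soundness of the certificate checker (helper50)
-/

set_option autoImplicit false
set_option linter.unusedSectionVars false

namespace Pool.Agent.Work.MP_1e13ac_W

open Classical Finset Pool.Agent.Work.MP_1e13ac_Bis

/-! ## Specifications of the functions -/

theorem andB_eq (a b : Bool) : andB a b = (a && b) := by cases a <;> rfl

theorem orB_eq (a b : Bool) : orB a b = (a || b) := by cases a <;> rfl

theorem notB_eq (a : Bool) : notB a = !a := by cases a <;> rfl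

theorem eqB_eq (a b : Bool) : eqB a b = (a == b) := by cases a <;> cases b <;> rfl

theorem eqB_iff (a b : Bool) : eqB a b = true ↔ a = b := by cases a <;> cases b <;> decide

theorem andB_iff (a b : Bool) : andB a b = true ↔ a = true ∧ b = true := by
  cases a <;> cases b <;> decide

theorem orB_iff (a b : Bool) : orB a b = true ↔ a = true ∨ b = true := by
  cases a <;> cases b <;> decide

theorem notB_iff (a : Bool) : notB a = true ↔ a = false := by
  cases a <;> decide

theorem beqN_iff (a b : ℕ) : Nat.beq a b = true ↔ a = b :=
  ⟨Nat.eq_of_beq_eq_true, fun h => by rw [h]; exact Nat.beq_refl b⟩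

theorem bleN_iff (a b : ℕ) : Nat.ble a b = true ↔ a ≤ b :=
  ⟨Nat.le_of_ble_eq_true, Nat.ble_eq_true_of_le⟩

theorem tb_eq (x i : ℕ) : tb x i = x.testBit i := by
  have h : tb x i = decide (x >>> i % 2 = 1) := by
    show Nat.beq (x >>> i % 2) 1 = _
    by_cases h : x >>> i % 2 = 1
    · rw [h]
      rfl
    · rw [decide_eq_false h]
      rw [Bool.eq_false_iff]
      intro h1
      exact h (Nat.eq_of_beq_eq_true h1)
  rw [h, Nat.testBit_eq_decide_div_mod_eq, Nat.shiftRight_eq_div_pow]

theorem memR_iff (x : ℕ) (l : List ℕ) : memR x l = true ↔ x ∈ l := by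
  induction l with
  | nil =>
    constructor
    · intro h
      exact absurd h (by simp [memR])
    · intro h
      simp at h
  | cons y t ih =>
    have e : memR x (y :: t) = orB (Nat.beq x y) (memR x t) := rfl
    rw [e, orB_iff, beqN_iff, ih, List.mem_cons]

theorem glR_eq (L : PL) (n : ℕ) : glR L n = L.getD n [] := by
  induction L generalizing n with
  | nil => rfl
  | cons l t ih =>
    cases n with
    | zero => rfl
    | succ n =>
      have e : glR (l :: t) (n + 1) = glR t n := rfl
      rw [e, ih]
      rfl

theorem lenN_eq (l : List ℕ) : lenN l = l.length := by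
  induction l with
  | nil => rfl
  | cons x t ih =>
    have e : lenN (x :: t) = lenN t + 1 := rfl
    rw [e, ih]
    rfl

theorem lenL_eq (L : PL) : lenL L = L.length := by
  induction L with
  | nil => rfl
  | cons x t ih =>
    have e : lenL (x :: t) = lenL t + 1 := rfl
    rw [e, ih]
    rfl

theorem cntL_eq (f : ℕ → Bool) (l : List ℕ) : cntL f l = (l.filter f).length := by
  induction l with
  | nil => rfl
  | cons x t ih =>
    have e : cntL f (x :: t) =
      (Bool.rec (motive := fun _ => ℕ) (cntL f t) (Nat.succ (cntL f t)) (f x) : ℕ) := rfl
    rw [e, ih]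
    cases h : f x
    · rw [List.filter_cons_of_neg (by simp [h])]
    · rw [List.filter_cons_of_pos (by simp [h])]
      rfl

theorem allI_iff (f : ℕ → List ℕ → Bool) (L : PL) (k : ℕ) :
    allI f L k = true ↔ ∀ i < L.length, f (k + i) (glR L i) = true := by
  induction L generalizing k with
  | nil =>
    constructor
    · intro _ i hi
      simp at hi
    · intro _
      rfl
  | cons l t ih =>
    have e : allI f (l :: t) k = andB (f k l) (allI f t (k + 1)) := rfl
    rw [e, andB_iff, ih]
    constructor
    · rintro ⟨h1, h2⟩ i hi
      cases i with
      | zero => exact h1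
      | succ i =>
        have h3 := h2 i (by simpa using hi)
        have e1 : k + 1 + i = k + (i + 1) := by omega
        rw [e1] at h3
        exact h3
    · intro h
      refine ⟨h 0 (by simp), fun i hi => ?_⟩
      have h3 := h (i + 1) (by simpa using hi)
      have e1 : k + 1 + i = k + (i + 1) := by omega
      rw [e1]
      exact h3

theorem allI0_iff (f : ℕ → List ℕ → Bool) (L : PL) :
    allI f L 0 = true ↔ ∀ i < L.length, f i (glR L i) = true := by
  rw [allI_iff]
  simp

theorem sumI_eq (f : ℕ → List ℕ → ℕ) (L : PL) (k : ℕ) :
    sumI f L k = ∑ i ∈ range L.length, f (k + i) (glR L i) := by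
  induction L generalizing k with
  | nil => rfl
  | cons l t ih =>
    have e : sumI f (l :: t) k = f k l + sumI f t (k + 1) := rfl
    rw [e, ih, List.length_cons, Finset.sum_range_succ']
    have e1 : ∀ i ∈ range t.length, f (k + 1 + i) (glR t i) = f (k + (i + 1)) (glR (l :: t) (i + 1)) := by
      intro i _
      have : k + 1 + i = k + (i + 1) := by omega
      rw [this]
      rfl
    rw [Finset.sum_congr rfl e1]
    have e2 : f (k + 0) (glR (l :: t) 0) = f k l := rfl
    rw [e2]
    omega

theorem sumI0_eq (f : ℕ → List ℕ → ℕ) (L : PL) :
    sumI f L 0 = ∑ i ∈ range L.length, f i (glR L i) := by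
  rw [sumI_eq]
  simp

theorem eqL_iff (l m : List ℕ) : eqL l m = true ↔ l = m := by
  induction l generalizing m with
  | nil =>
    cases m with
    | nil => simp [eqL]
    | cons y t =>
      constructor
      · intro h
        exact absurd h (by simp [eqL])
      · intro h
        simp at h
  | cons x l ih =>
    cases m with
    | nil =>
      constructor
      · intro h
        exact absurd h (by simp [eqL])
      · intro h
        simp at h
    | cons y t =>
      have e : eqL (x :: l) (y :: t) = andB (Nat.beq x y) (eqL l t) := rfl
      rw [e, andB_iff, beqN_iff, ih]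
      simp

theorem eqLL_iff (l m : PL) : eqLL l m = true ↔ l = m := by
  induction l generalizing m with
  | nil =>
    cases m with
    | nil => simp [eqLL]
    | cons y t =>
      constructor
      · intro h
        exact absurd h (by simp [eqLL])
      · intro h
        simp at h
  | cons x l ih =>
    cases m with
    | nil =>
      constructor
      · intro h
        exact absurd h (by simp [eqLL])
      · intro h
        simp at h
    | cons y t =>
      have e : eqLL (x :: l) (y :: t) = andB (eqL x y) (eqLL l t) := rfl
      rw [e, andB_iff, eqL_iff, ih]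
      simp

theorem addAt_len (x : ℕ) (L : PL) (v : ℕ) : (addAt x L v).length = L.length := by
  induction L generalizing v with
  | nil => rfl
  | cons l t ih =>
    cases v with
    | zero => rfl
    | succ v =>
      have e : addAt x (l :: t) (v + 1) = l :: addAt x t v := rfl
      rw [e, List.length_cons, ih]
      rfl

theorem addAt_gl (x : ℕ) (L : PL) (v i : ℕ) :
    glR (addAt x L v) i = if i = v ∧ v < L.length then x :: glR L i else glR L i := by
  induction L generalizing v i with
  | nil =>
    have e : addAt x [] v = [] := rfl
    rw [e]
    simp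
  | cons l t ih =>
    cases v with
    | zero =>
      have e : addAt x (l :: t) 0 = (x :: l) :: t := rfl
      rw [e]
      cases i with
      | zero =>
        rw [if_pos ⟨rfl, by simp⟩]
        rfl
      | succ i =>
        rw [if_neg (by simp)]
        rfl
    | succ v =>
      have e : addAt x (l :: t) (v + 1) = l :: addAt x t v := rfl
      rw [e]
      cases i with
      | zero =>
        rw [if_neg (by simp)]
        rfl
      | succ i =>
        have e1 : glR (l :: addAt x t v) (i + 1) = glR (addAt x t v) i := rfl
        have e2 : glR (l :: t) (i + 1) = glR t i := rfl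
        rw [e1, e2, ih]
        simp

theorem appL_eq (L M : PL) : appL L M = L ++ M := by
  induction L with
  | nil => rfl
  | cons l t ih =>
    have e : appL (l :: t) M = l :: appL t M := rfl
    rw [e, ih]
    rfl

theorem appP_eq (L M : List Pt) : appP L M = L ++ M := by
  induction L with
  | nil => rfl
  | cons l t ih =>
    have e : appP (l :: t) M = l :: appP t M := rfl
    rw [e, ih]
    rfl

theorem gl_app_lt (L M : PL) (i : ℕ) (h : i < L.length) : glR (L ++ M) i = glR L i := by
  rw [glR_eq, glR_eq, List.getD_append _ _ _ _ h]

theorem gl_app_ge (L M : PL) (i : ℕ) (h : L.length ≤ i) : glR (L ++ M) i = glR M (i - L.length) := by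
  rw [glR_eq, glR_eq, List.getD_append_right _ _ _ _ h]

theorem gl_out (L : PL) (i : ℕ) (h : L.length ≤ i) : glR L i = [] := by
  rw [glR_eq, List.getD_eq_default _ _ h]

theorem tb_lor (x y i : ℕ) : tb (Nat.lor x y) i = (tb x i || tb y i) := by
  rw [tb_eq, tb_eq, tb_eq]
  exact Nat.testBit_or x y i

theorem tb_bitN (k i : ℕ) : tb (bitN k) i = decide (k = i) := by
  rw [tb_eq]
  have e : bitN k = 1 <<< k := rfl
  rw [e, Nat.one_shiftLeft, Nat.testBit_two_pow]

theorem tb_zero (i : ℕ) : tb 0 i = false := by
  rw [tb_eq]
  simp

theorem tb_pairB (v u k : ℕ) : tb (pairB v u) k = true ↔ k = 32 * v + u ∨ k = 32 * u + v := by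
  have e : pairB v u = Nat.lor (bitN (32 * v + u)) (bitN (32 * u + v)) := rfl
  rw [e, tb_lor, tb_bitN, tb_bitN]
  simp only [Bool.or_eq_true, decide_eq_true_eq]
  constructor
  · rintro (h | h)
    · exact Or.inl h.symm
    · exact Or.inr h.symm
  · rintro (h | h)
    · exact Or.inl h.symm
    · exact Or.inr h.symm

/-! ## Embeddings -/

/-- an embedding of a pattern into a coloured graph; all monochromatic neighbours are listed -/
structure Emb {V : Type} [Fintype V] (G : SimpleGraph V) (c : V → Bool) (A : PL) (col non : ℕ)
    (e : ℕ → V) : Prop where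
  inj : ∀ i < A.length, ∀ j < A.length, e i = e j → i = j
  adj : ∀ i < A.length, ∀ j ∈ glR A i, j < A.length ∧ G.Adj (e i) (e j) ∧ i ∈ glR A j
  nodup : ∀ i < A.length, (glR A i).Nodup
  colr : ∀ i < A.length, c (e i) = tb col i
  colt : ∀ i, tb col i = true → i < A.length
  mono : ∀ i < A.length, ∀ y, MA G c (e i) y → ∃ j ∈ glR A i, e j = y
  non : ∀ i < 32, ∀ j < 32, tb non (32 * i + j) = true →
    i < A.length ∧ j < A.length ∧ ¬ G.Adj (e i) (e j)

section Snd

variable {V : Type} [Fintype V] {G : SimpleGraph V} {c : V → Bool}

theorem card_nbs (hG : Cub G) (x : V) : (univ.filter fun y => G.Adj x y).card = 3 := hG x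

/-- a vertex with three listed neighbours is complete -/
theorem Emb.compl (hG : Cub G) {A : PL} {col non : ℕ} {e : ℕ → V} (h : Emb G c A col non e)
    {i : ℕ} (hi : i < A.length) (h3 : 3 ≤ (glR A i).length) {y : V} (hy : G.Adj (e i) y) :
    ∃ j ∈ glR A i, e j = y := by
  have h1 : (glR A i).toFinset.card = (glR A i).length := List.toFinset_card_of_nodup (h.nodup i hi)
  have h2 : ((glR A i).toFinset.image e).card = (glR A i).toFinset.card := by
    refine Finset.card_image_of_injOn ?_
    intro a ha b hb hab
    have ha' : a ∈ glR A i := List.mem_toFinset.1 (by simpa using ha)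
    have hb' : b ∈ glR A i := List.mem_toFinset.1 (by simpa using hb)
    exact h.inj a (h.adj i hi a ha').1 b (h.adj i hi b hb').1 hab
  have h4 : (glR A i).toFinset.image e ⊆ univ.filter fun y => G.Adj (e i) y := by
    intro x hx
    rw [Finset.mem_image] at hx
    obtain ⟨j, hj, rfl⟩ := hx
    exact Finset.mem_filter.2 ⟨Finset.mem_univ _, (h.adj i hi j (List.mem_toFinset.1 hj)).2.1⟩
  have h5 := Finset.eq_of_subset_of_card_le h4 (by rw [h2, h1, card_nbs hG]; exact h3)
  have h6 : y ∈ (glR A i).toFinset.image e := by
    rw [h5]
    exact Finset.mem_filter.2 ⟨Finset.mem_univ _, hy⟩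
  rw [Finset.mem_image] at h6
  obtain ⟨j, hj, h7⟩ := h6
  exact ⟨j, List.mem_toFinset.1 hj, h7⟩

/-- a vertex with fewer than three listed neighbours has a missing neighbour -/
theorem Emb.missing (hG : Cub G) {A : PL} {col non : ℕ} {e : ℕ → V} (h : Emb G c A col non e)
    {i : ℕ} (hi : i < A.length) (h3 : (glR A i).length < 3) :
    ∃ y, G.Adj (e i) y ∧ ∀ j ∈ glR A i, e j ≠ y := by
  by_contra hc
  push Not at hc
  have h1 : (glR A i).toFinset.card = (glR A i).length := List.toFinset_card_of_nodup (h.nodup i hi)
  have h4 : (univ.filter fun y => G.Adj (e i) y) ⊆ (glR A i).toFinset.image e := by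
    intro x hx
    obtain ⟨j, hj, h5⟩ := hc x (Finset.mem_filter.1 hx).2
    exact Finset.mem_image.2 ⟨j, List.mem_toFinset.2 hj, h5⟩
  have h5 := Finset.card_le_card h4
  have h6 := Finset.card_image_le (s := (glR A i).toFinset) (f := e)
  rw [card_nbs hG] at h5
  omega

/-- add an edge between listed vertices -/
theorem Emb.join {A : PL} {col non : ℕ} {e : ℕ → V} (h : Emb G c A col non e)
    {u v : ℕ} (hu : u < A.length) (hv : v < A.length) (huv : G.Adj (e v) (e u))
    (h1 : u ∉ glR A v) : Emb G c (addAt v (addAt u A v) u) col non e := by
  have hne : u ≠ v := by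
    rintro rfl
    exact G.irrefl huv
  have hlen : (addAt v (addAt u A v) u).length = A.length := by
    rw [addAt_len, addAt_len]
  have hgl : ∀ i, glR (addAt v (addAt u A v) u) i =
      if i = u then v :: glR A i else if i = v then u :: glR A i else glR A i := by
    intro i
    rw [addAt_gl, addAt_gl, addAt_len]
    by_cases h2 : i = u
    · rw [if_pos ⟨h2, hu⟩, if_neg (by omega), if_pos h2]
    · rw [if_neg (by omega), if_neg h2]
      by_cases h3 : i = v
      · rw [if_pos ⟨h3, hv⟩, if_pos h3]
      · rw [if_neg (by omega), if_neg h3]
  have h2 : v ∉ glR A u := fun hh => h1 (h.adj u hu v hh).2.2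
  constructor
  · rw [hlen]
    exact h.inj
  · rw [hlen]
    intro i hi j hj
    rw [hgl] at hj
    rw [hgl]
    by_cases hiu : i = u
    · subst hiu
      rw [if_pos rfl] at hj
      rcases List.mem_cons.1 hj with hj | hj
      · subst hj
        refine ⟨hv, huv.symm, ?_⟩
        rw [if_neg (by omega), if_pos rfl]
        simp
      · obtain ⟨a1, a2, a3⟩ := h.adj i hi j hj
        refine ⟨a1, a2, ?_⟩
        split_ifs <;> simp [a3]
    · rw [if_neg hiu] at hj
      by_cases hiv : i = v
      · subst hiv
        rw [if_pos rfl] at hj
        rcases List.mem_cons.1 hj with hj | hj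
        · subst hj
          refine ⟨hu, huv, ?_⟩
          rw [if_pos rfl]
          simp
        · obtain ⟨a1, a2, a3⟩ := h.adj i hi j hj
          refine ⟨a1, a2, ?_⟩
          split_ifs <;> simp [a3]
      · rw [if_neg hiv] at hj
        obtain ⟨a1, a2, a3⟩ := h.adj i hi j hj
        refine ⟨a1, a2, ?_⟩
        split_ifs <;> simp [a3]
  · rw [hlen]
    intro i hi
    rw [hgl]
    split_ifs with h3 h4
    · subst h3
      exact List.nodup_cons.2 ⟨h2, h.nodup i hi⟩
    · subst h4
      exact List.nodup_cons.2 ⟨h1, h.nodup i hi⟩
    · exact h.nodup i hi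
  · rw [hlen]
    exact h.colr
  · rw [hlen]
    exact h.colt
  · rw [hlen]
    intro i hi y hy
    obtain ⟨j, hj, hj'⟩ := h.mono i hi y hy
    refine ⟨j, ?_, hj'⟩
    rw [hgl]
    split_ifs <;> simp [hj]
  · rw [hlen]
    exact h.non

/-- record a non-adjacency -/
theorem Emb.excl {A : PL} {col non : ℕ} {e : ℕ → V} (h : Emb G c A col non e)
    {u v : ℕ} (hu : u < A.length) (hv : v < A.length) (hA : A.length ≤ 30)
    (huv : ¬ G.Adj (e v) (e u)) : Emb G c A col (Nat.lor non (pairB v u)) e := by
  refine ⟨h.inj, h.adj, h.nodup, h.colr, h.colt, h.mono, ?_⟩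
  intro i hi j hj hij
  rw [tb_lor, Bool.or_eq_true, tb_pairB] at hij
  rcases hij with hij | hij | hij
  · exact h.non i hi j hj hij
  · have e1 : i = v := by omega
    have e2 : j = u := by omega
    subst e1 e2
    exact ⟨hv, hu, huv⟩
  · have e1 : i = u := by omega
    have e2 : j = v := by omega
    subst e1 e2
    exact ⟨hu, hv, fun hh => huv hh.symm⟩

theorem gl_new {A : PL} {v : ℕ} (hv : v < A.length) (M : PL) (i : ℕ) :
    glR (addAt A.length A v ++ M) i =
      if i < A.length then (if i = v then A.length :: glR A i else glR A i)
      else glR M (i - A.length) := by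
  by_cases hi : i < A.length
  · rw [gl_app_lt _ _ _ (by rw [addAt_len]; exact hi), addAt_gl, if_pos hi]
    by_cases h : i = v
    · rw [if_pos ⟨h, hv⟩, if_pos h]
    · rw [if_neg (by omega), if_neg h]
  · rw [gl_app_ge _ _ _ (by rw [addAt_len]; omega), addAt_len, if_neg hi]

/-- new isolated vertex -/
theorem Emb.new1 {A : PL} {col non : ℕ} {e : ℕ → V} (h : Emb G c A col non e)
    {v : ℕ} (hv : v < A.length) {y : V} (hvy : G.Adj (e v) y) (hy : ∀ i < A.length, e i ≠ y)
    (hm : ∀ z, ¬ MA G c y z) :
    Emb G c (addAt A.length A v ++ [[v]])
      (Nat.lor col (Bool.rec (motive := fun _ => Nat) (bitN A.length) (nat_lit 0) (tb col v))) non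
      (fun i => if i = A.length then y else e i) := by
  have hlen : (addAt A.length A v ++ [[v]]).length = A.length + 1 := by
    rw [List.length_append, addAt_len]
    rfl
  have hcy : c y = !(tb col v) := by
    have h1 : c y ≠ c (e v) := fun hh => hm (e v) ⟨hvy.symm, hh⟩
    rw [h.colr v hv] at h1
    cases h2 : c y <;> cases h3 : tb col v <;> simp_all
  have hnl : ∀ i < A.length, ∀ j ∈ glR A i, j ≠ A.length := by
    intro i hi j hj hh
    have := (h.adj i hi j hj).1
    omega
  have hcol : ∀ i, tb (Nat.lor col (Bool.rec (motive := fun _ => Nat) (bitN A.length) (nat_lit 0)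
      (tb col v))) i = (tb col i || (!(tb col v) && decide (A.length = i))) := by
    intro i
    rw [tb_lor]
    cases tb col v
    · show (tb col i || tb (bitN A.length) i) = _
      rw [tb_bitN]
      simp
    · show (tb col i || tb 0 i) = _
      rw [tb_zero]
      simp
  have hcoln : tb col A.length = false := by
    by_contra hh
    have := h.colt A.length (by simpa using hh)
    omega
  constructor
  · rw [hlen]
    intro i hi j hj hij
    by_cases hi' : i = A.length
    · by_cases hj' : j = A.length
      · rw [hi', hj']
      · simp only [hi', if_true, if_neg hj'] at hij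
        exact absurd hij.symm (hy j (by omega))
    · by_cases hj' : j = A.length
      · simp only [hj', if_true, if_neg hi'] at hij
        exact absurd hij (hy i (by omega))
      · simp only [if_neg hi', if_neg hj'] at hij
        exact h.inj i (by omega) j (by omega) hij
  · rw [hlen]
    intro i hi j hj
    rw [gl_new hv] at hj
    by_cases hi' : i < A.length
    · rw [if_pos hi'] at hj
      have hin : i ≠ A.length := by omega
      by_cases hiv : i = v
      · rw [if_pos hiv] at hj
        rcases List.mem_cons.1 hj with hj | hj
        · subst hj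
          refine ⟨by omega, ?_, ?_⟩
          · simp only [if_neg hin, if_true]
            rw [hiv]
            exact hvy
          · rw [gl_new hv, if_neg (by omega)]
            simp [glR_eq, hiv]
        · obtain ⟨a1, a2, a3⟩ := h.adj i hi' j hj
          refine ⟨by omega, ?_, ?_⟩
          · simp only [if_neg hin, if_neg (hnl i hi' j hj)]
            exact a2
          · rw [gl_new hv, if_pos a1]
            split_ifs <;> simp [a3]
      · rw [if_neg hiv] at hj
        obtain ⟨a1, a2, a3⟩ := h.adj i hi' j hj
        refine ⟨by omega, ?_, ?_⟩
        · simp only [if_neg hin, if_neg (hnl i hi' j hj)]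
          exact a2
        · rw [gl_new hv, if_pos a1]
          split_ifs <;> simp [a3]
    · rw [if_neg hi'] at hj
      have hin : i = A.length := by omega
      subst hin
      simp [glR_eq] at hj
      subst hj
      refine ⟨by omega, ?_, ?_⟩
      · have : j ≠ A.length := by omega
        simp only [if_neg this, if_true]
        exact hvy.symm
      · rw [gl_new hv, if_pos hv, if_pos rfl]
        simp
  · rw [hlen]
    intro i hi
    rw [gl_new hv]
    split_ifs with h1 h2
    · exact List.nodup_cons.2 ⟨fun hh => hnl i h1 _ hh rfl, h.nodup i h1⟩
    · exact h.nodup i h1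
    · have : i - A.length = 0 := by omega
      rw [this]
      simp [glR_eq]
  · rw [hlen]
    intro i hi
    rw [hcol]
    by_cases hi' : i = A.length
    · simp only [hi', if_true]
      rw [hcy, hcoln]
      simp
    · simp only [if_neg hi']
      rw [h.colr i (by omega)]
      have : ¬ (A.length = i) := fun hh => hi' hh.symm
      simp [this]
  · rw [hlen]
    intro i hi
    rw [hcol] at hi
    rcases Bool.or_eq_true_iff.1 hi with h1 | h1
    · have := h.colt i h1
      omega
    · simp at h1
      omega
  · rw [hlen]
    intro i hi y' hy'
    by_cases hi' : i = A.length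
    · simp only [hi', if_true] at hy'
      exact absurd hy' (hm y')
    · simp only [if_neg hi'] at hy'
      obtain ⟨j, hj, hj'⟩ := h.mono i (by omega) y' hy'
      refine ⟨j, ?_, ?_⟩
      · rw [gl_new hv, if_pos (by omega)]
        split_ifs <;> simp [hj]
      · simp only [if_neg (hnl i (by omega) j hj)]
        exact hj'
  · rw [hlen]
    intro i hi j hj hij
    obtain ⟨a1, a2, a3⟩ := h.non i hi j hj hij
    refine ⟨by omega, by omega, ?_⟩
    have b1 : i ≠ A.length := by omega
    have b2 : j ≠ A.length := by omega
    simp only [if_neg b1, if_neg b2]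
    exact a3

/-- new matched pair -/
theorem Emb.new2 {A : PL} {col non : ℕ} {e : ℕ → V} (h : Emb G c A col non e)
    {v : ℕ} (hv : v < A.length) {y z : V} (hvy : G.Adj (e v) y) (hy : ∀ i < A.length, e i ≠ y)
    (hz : ∀ i < A.length, e i ≠ z) (hyv : c y ≠ c (e v)) (hyz : MA G c y z)
    (hu1 : ∀ w, MA G c y w → w = z) (hu2 : ∀ w, MA G c z w → w = y) :
    Emb G c (addAt A.length A v ++ [[v, A.length + 1], [A.length]])
      (Nat.lor col (Bool.rec (motive := fun _ => Nat)
        (Nat.lor (bitN A.length) (bitN (A.length + 1))) (nat_lit 0) (tb col v))) non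
      (fun i => if i = A.length then y else if i = A.length + 1 then z else e i) := by
  have hlen : (addAt A.length A v ++ [[v, A.length + 1], [A.length]]).length = A.length + 2 := by
    rw [List.length_append, addAt_len]
    rfl
  have hcy : c y = !(tb col v) := by
    rw [h.colr v hv] at hyv
    cases h2 : c y <;> cases h3 : tb col v <;> simp_all
  have hcz : c z = !(tb col v) := by rw [← hyz.2, hcy]
  have hyzn : y ≠ z := fun hh => G.irrefl (hh ▸ hyz.1)
  have hnl : ∀ i < A.length, ∀ j ∈ glR A i, j ≠ A.length ∧ j ≠ A.length + 1 := by
    intro i hi j hj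
    have := (h.adj i hi j hj).1
    omega
  have hcol : ∀ i, tb (Nat.lor col (Bool.rec (motive := fun _ => Nat)
      (Nat.lor (bitN A.length) (bitN (A.length + 1))) (nat_lit 0) (tb col v))) i =
        (tb col i || (!(tb col v) && (decide (A.length = i) || decide (A.length + 1 = i)))) := by
    intro i
    rw [tb_lor]
    cases tb col v
    · show (tb col i || tb (Nat.lor (bitN A.length) (bitN (A.length + 1))) i) = _
      rw [tb_lor, tb_bitN, tb_bitN]
      simp
    · show (tb col i || tb 0 i) = _
      rw [tb_zero]
      simp
  have hcoln : ∀ k, A.length ≤ k → tb col k = false := by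
    intro k hk
    by_contra hh
    have := h.colt k (by simpa using hh)
    omega
  have gN : glR (addAt A.length A v ++ [[v, A.length + 1], [A.length]]) A.length =
      [v, A.length + 1] := by
    rw [gl_new hv, if_neg (by omega)]
    simp [glR_eq]
  have gN1 : glR (addAt A.length A v ++ [[v, A.length + 1], [A.length]]) (A.length + 1) =
      [A.length] := by
    rw [gl_new hv, if_neg (by omega)]
    have : A.length + 1 - A.length = 1 := by omega
    rw [this]
    simp [glR_eq]
  have e0 : ∀ i, i < A.length → (if i = A.length then y else if i = A.length + 1 then z else e i)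
      = e i := by
    intro i hi
    rw [if_neg (by omega), if_neg (by omega)]
  constructor
  · rw [hlen]
    intro i hi j hj hij
    by_cases hi' : i < A.length
    · simp only [e0 i hi'] at hij
      by_cases hj' : j < A.length
      · simp only [e0 j hj'] at hij
        exact h.inj i hi' j hj' hij
      · by_cases hj2 : j = A.length
        · simp only [hj2, if_true] at hij
          exact absurd hij (hy i hi')
        · have hj3 : j = A.length + 1 := by omega
          simp only [hj3, if_true] at hij
          rw [if_neg (by omega)] at hij
          exact absurd hij (hz i hi')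
    · by_cases hj' : j < A.length
      · simp only [e0 j hj'] at hij
        by_cases hi2 : i = A.length
        · simp only [hi2, if_true] at hij
          exact absurd hij.symm (hy j hj')
        · have hi3 : i = A.length + 1 := by omega
          simp only [hi3, if_true] at hij
          rw [if_neg (by omega)] at hij
          exact absurd hij.symm (hz j hj')
      · by_cases hi2 : i = A.length
        · by_cases hj2 : j = A.length
          · omega
          · have hj3 : j = A.length + 1 := by omega
            simp only [hi2, hj3, if_true] at hij
            rw [if_neg (by omega)] at hij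
            exact absurd hij hyzn
        · have hi3 : i = A.length + 1 := by omega
          by_cases hj2 : j = A.length
          · simp only [hi3, hj2, if_true] at hij
            rw [if_neg (by omega)] at hij
            exact absurd hij.symm hyzn
          · omega
  · rw [hlen]
    intro i hi j hj
    by_cases hi' : i < A.length
    · rw [gl_new hv, if_pos hi'] at hj
      simp only [e0 i hi']
      by_cases hiv : i = v
      · rw [if_pos hiv] at hj
        rcases List.mem_cons.1 hj with hj | hj
        · subst hj
          refine ⟨by omega, ?_, ?_⟩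
          · simp only [if_true]
            rw [hiv]
            exact hvy
          · rw [gN]
            simp [hiv]
        · obtain ⟨a1, a2, a3⟩ := h.adj i hi' j hj
          refine ⟨by omega, ?_, ?_⟩
          · simp only [e0 j a1]
            exact a2
          · rw [gl_new hv, if_pos a1]
            split_ifs <;> simp [a3]
      · rw [if_neg hiv] at hj
        obtain ⟨a1, a2, a3⟩ := h.adj i hi' j hj
        refine ⟨by omega, ?_, ?_⟩
        · simp only [e0 j a1]
          exact a2
        · rw [gl_new hv, if_pos a1]
          split_ifs <;> simp [a3]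
    · by_cases hi2 : i = A.length
      · subst hi2
        rw [gN] at hj
        simp at hj
        rcases hj with hj | hj
        · subst hj
          refine ⟨by omega, ?_, ?_⟩
          · simp only [e0 j hv, if_true]
            exact hvy.symm
          · rw [gl_new hv, if_pos hv, if_pos rfl]
            simp
        · subst hj
          refine ⟨by omega, ?_, ?_⟩
          · simp only [if_true]
            rw [if_neg (by omega)]
            exact hyz.1
          · rw [gN1]
            simp
      · have hi3 : i = A.length + 1 := by omega
        subst hi3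
        rw [gN1] at hj
        simp at hj
        subst hj
        refine ⟨by omega, ?_, ?_⟩
        · simp only [if_true]
          rw [if_neg (by omega)]
          exact hyz.1.symm
        · rw [gN]
          simp
  · rw [hlen]
    intro i hi
    by_cases hi' : i < A.length
    · rw [gl_new hv, if_pos hi']
      split_ifs with h2
      · exact List.nodup_cons.2 ⟨fun hh => (hnl i hi' _ hh).1 rfl, h.nodup i hi'⟩
      · exact h.nodup i hi'
    · by_cases hi2 : i = A.length
      · subst hi2
        rw [gN]
        simp
        omega
      · have hi3 : i = A.length + 1 := by omega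
        subst hi3
        rw [gN1]
        simp
  · rw [hlen]
    intro i hi
    rw [hcol]
    by_cases hi' : i < A.length
    · simp only [e0 i hi']
      rw [h.colr i hi']
      have h1 : ¬ (A.length = i) := by omega
      have h2 : ¬ (A.length + 1 = i) := by omega
      simp [h1, h2]
    · rw [hcoln i (by omega)]
      by_cases hi2 : i = A.length
      · simp only [hi2, if_true]
        rw [hcy]
        simp
      · have hi3 : i = A.length + 1 := by omega
        simp only [hi3, if_true]
        rw [if_neg (by omega), hcz]
        simp
  · rw [hlen]
    intro i hi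
    rw [hcol] at hi
    rcases Bool.or_eq_true_iff.1 hi with h1 | h1
    · have := h.colt i h1
      omega
    · simp at h1
      omega
  · rw [hlen]
    intro i hi y' hy'
    by_cases hi' : i < A.length
    · simp only [e0 i hi'] at hy'
      obtain ⟨j, hj, hj'⟩ := h.mono i hi' y' hy'
      refine ⟨j, ?_, ?_⟩
      · rw [gl_new hv, if_pos hi']
        split_ifs <;> simp [hj]
      · simp only [e0 j (h.adj i hi' j hj).1]
        exact hj'
    · by_cases hi2 : i = A.length
      · simp only [hi2, if_true] at hy'
        refine ⟨A.length + 1, ?_, ?_⟩
        · rw [hi2, gN]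
          simp
        · simp only [if_true]
          rw [if_neg (by omega)]
          exact (hu1 y' hy').symm
      · have hi3 : i = A.length + 1 := by omega
        subst hi3
        simp only [if_true] at hy'
        rw [if_neg (by omega)] at hy'
        refine ⟨A.length, ?_, ?_⟩
        · rw [gN1]
          simp
        · simp only [if_true]
          exact (hu2 y' hy').symm
  · rw [hlen]
    intro i hi j hj hij
    obtain ⟨a1, a2, a3⟩ := h.non i hi j hj hij
    refine ⟨by omega, by omega, ?_⟩
    simp only [e0 i a1, e0 j a2]
    exact a3

/-- the children cover all cases -/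
theorem kids_sound (hG : Cub G) (hc : Nice G c) {A : PL} {col v : ℕ} (hv : v < A.length)
    (hA : A.length ≤ 30) (hlv : (glR A v).length < 3) {e : ℕ → V} :
    ∀ (L : PL) (u non : ℕ), u + L.length = A.length → (∀ i, glR L i = glR A (u + i)) →
      Emb G c A col non e → (∀ w < u, G.Adj (e v) (e w) → w ∈ glR A v) →
      ∃ P ∈ kidsR A col v (glR A v) A.length L u non, ∃ e', Emb G c P.A P.col P.non e' := by
  intro L
  induction L with
  | nil =>
    intro u non hu _ hE hadj
    have hu' : u = A.length := by simpa using hu
    subst hu'
    obtain ⟨y, hy1, hy2⟩ := hE.missing hG hv hlv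
    have hy3 : ∀ i < A.length, e i ≠ y := by
      intro i hi hh
      exact hy2 i (hadj i hi (hh ▸ hy1)) hh
    have hyc : c y ≠ c (e v) := by
      intro hh
      obtain ⟨j, hj, hj'⟩ := hE.mono v hv y ⟨hy1, hh.symm⟩
      exact hy2 j hj hj'
    have ek : kidsR A col v (glR A v) A.length [] A.length non =
      [⟨appL (addAt A.length A v) [[v]],
        Nat.lor col (Bool.rec (motive := fun _ => Nat) (bitN A.length) (nat_lit 0) (tb col v)), non⟩,
       ⟨appL (addAt A.length A v) [[v, A.length + 1], [A.length]],
        Nat.lor col (Bool.rec (motive := fun _ => Nat)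
          (Nat.lor (bitN A.length) (bitN (A.length + 1))) (nat_lit 0) (tb col v)), non⟩] := rfl
    rw [ek]
    by_cases hm : ∃ z, MA G c y z
    · obtain ⟨z, hz⟩ := hm
      refine ⟨_, List.mem_cons_of_mem _ (List.mem_singleton.2 rfl),
        (fun i => if i = A.length then y else if i = A.length + 1 then z else e i), ?_⟩
      show Emb G c (appL (addAt A.length A v) [[v, A.length + 1], [A.length]]) _ non _
      rw [appL_eq]
      refine hE.new2 hv hy1 hy3 ?_ hyc hz (fun w hw => nice_uniq hc hw hz)
        (fun w hw => nice_uniq hc hw (ma_symm hz))
      intro i hi hh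
      obtain ⟨j, hj, hj'⟩ := hE.mono i hi y (hh ▸ ma_symm hz)
      exact hy3 j (hE.adj i hi j hj).1 hj'
    · refine ⟨_, List.mem_cons_self, (fun i => if i = A.length then y else e i), ?_⟩
      show Emb G c (appL (addAt A.length A v) [[v]]) _ non _
      rw [appL_eq]
      exact hE.new1 hv hy1 hy3 fun z hz => hm ⟨z, hz⟩
  | cons l L ih =>
    intro u non hu hL hE hadj
    have hul : u < A.length := by
      rw [List.length_cons] at hu
      omega
    have hl : l = glR A u := by
      have := hL 0
      simpa [glR_eq] using this
    have hL' : ∀ i, glR L i = glR A (u + 1 + i) := by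
      intro i
      have h1 := hL (i + 1)
      have e1 : u + (i + 1) = u + 1 + i := by omega
      rw [e1] at h1
      rw [← h1]
      rfl
    have hlen' : u + 1 + L.length = A.length := by
      rw [List.length_cons] at hu
      omega
    have ek : kidsR A col v (glR A v) A.length (l :: L) u non =
      (Bool.rec (motive := fun _ => List Pt) (kidsR A col v (glR A v) A.length L (u + 1) non)
      (⟨addAt v (addAt u A v) u, col, non⟩ ::
        kidsR A col v (glR A v) A.length L (u + 1) (Nat.lor non (pairB v u)))
      (candB col non v (glR A v) u l) : List Pt) := rfl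
    rw [ek]
    by_cases hadjvu : G.Adj (e v) (e u)
    · by_cases hmem : u ∈ glR A v
      · have hcand : candB col non v (glR A v) u l = false := by
          by_contra hh
          have hh' : candB col non v (glR A v) u l = true := by simpa using hh
          unfold candB at hh'
          rw [andB_iff, andB_iff, andB_iff] at hh'
          have h1 := hh'.2.2.1
          rw [notB_iff] at h1
          have h2 := (memR_iff u (glR A v)).2 hmem
          rw [h1] at h2
          exact absurd h2 (by simp)
        rw [hcand]
        refine ih (u + 1) non hlen' hL' hE ?_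
        intro w hw hvw
        by_cases hwu : w = u
        · rw [hwu]
          exact hmem
        · exact hadj w (by omega) hvw
      · have hcand : candB col non v (glR A v) u l = true := by
          unfold candB
          rw [andB_iff, andB_iff, andB_iff, notB_iff, notB_iff, notB_iff]
          refine ⟨?_, ?_, ?_, ?_⟩
          · by_contra hh
            have hh' : eqB (tb col u) (tb col v) = true := by simpa using hh
            rw [eqB_iff, ← hE.colr u hul, ← hE.colr v hv] at hh'
            obtain ⟨j, hj, hj'⟩ := hE.mono v hv (e u) ⟨hadjvu, hh'.symm⟩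
            have := hE.inj j (hE.adj v hv j hj).1 u hul hj'
            exact hmem (this ▸ hj)
          · rw [bleN_iff]
            have e1 : Nat.succ (lenN l) = l.length + 1 := by rw [lenN_eq]
            rw [e1]
            by_contra hh
            have hh1 : ¬ (l.length + 1 ≤ 3) := hh
            have h3 : 3 ≤ (glR A u).length := by
              rw [← hl]
              omega
            obtain ⟨j, hj, hj'⟩ := hE.compl hG hul h3 hadjvu.symm
            have := hE.inj j (hE.adj u hul j hj).1 v hv hj'
            subst this
            exact hmem (hE.adj u hul j hj).2.2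
          · by_contra hh
            have hh' : memR u (glR A v) = true := by simpa using hh
            exact hmem ((memR_iff _ _).1 hh')
          · by_contra hh
            have hh' : tb non (32 * v + u) = true := by simpa using hh
            exact (hE.non v (by omega) u (by omega) hh').2.2 hadjvu
        rw [hcand]
        refine ⟨_, List.mem_cons_self, e, ?_⟩
        exact hE.join hul hv hadjvu hmem
    · have hrest : ∀ non', Emb G c A col non' e →
          ∃ P ∈ kidsR A col v (glR A v) A.length L (u + 1) non',
            ∃ e', Emb G c P.A P.col P.non e' := by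
        intro non' hE'
        refine ih (u + 1) non' hlen' hL' hE' ?_
        intro w hw hvw
        by_cases hwu : w = u
        · subst hwu
          exact absurd hvw hadjvu
        · exact hadj w (by omega) hvw
      cases hcand : candB col non v (glR A v) u l
      · exact hrest non hE
      · obtain ⟨P, hP, h1⟩ := hrest _ (hE.excl hul hv hA hadjvu)
        exact ⟨P, List.mem_cons_of_mem _ hP, h1⟩

/-- soundness of the checker -/
theorem run_sound (hG : Cub G) (hc : Nice G c) {lf : PL → ℕ → ℕ → ℕ → Bool}
    (hlf : ∀ A col non act e, lf A col non act = true → Emb G c A col non e → False) :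
    ∀ (S : List It) (g : List Pt), run lf S g = true →
      ∀ P ∈ g, ∀ e, ¬ Emb G c P.A P.col P.non e := by
  intro S
  induction S with
  | nil =>
    intro g hg P hP
    cases g with
    | nil => simp at hP
    | cons Q gs => exact absurd hg (by simp [run])
  | cons it S ih =>
    intro g hg P hP e hE
    cases g with
    | nil => simp at hP
    | cons Q gs =>
      obtain ⟨A, col, non, act⟩ := it
      obtain ⟨A', col', non'⟩ := Q
      have ek : run lf (⟨A, col, non, act⟩ :: S) (⟨A', col', non'⟩ :: gs) =
        andB (andB (eqLL A' A) (andB (Nat.beq col' col) (Nat.beq non' non)))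
          (Bool.rec (motive := fun _ => Bool)
            (andB (lf A col non (Nat.div act (nat_lit 2))) (run lf S gs))
            (andB (Nat.ble (lenL A) (nat_lit 30))
              (andB (Nat.ble (Nat.succ (Nat.div act (nat_lit 2))) (lenL A))
                (andB (Nat.ble (Nat.succ (lenN (glR A (Nat.div act (nat_lit 2))))) (nat_lit 3))
                  (run lf S (appP (kidsR A col (Nat.div act (nat_lit 2))
                    (glR A (Nat.div act (nat_lit 2))) (lenL A) A (nat_lit 0) non) gs)))))
            (Nat.beq (Nat.mod act (nat_lit 2)) (nat_lit 1))) := rfl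
      rw [ek, andB_iff, andB_iff, andB_iff, eqLL_iff, beqN_iff, beqN_iff] at hg
      obtain ⟨⟨h1, h2, h3⟩, h4⟩ := hg
      subst h1 h2 h3
      cases h5 : Nat.beq (Nat.mod act (nat_lit 2)) (nat_lit 1)
      · rw [h5] at h4
        have h4' : andB (lf A' col' non' (Nat.div act (nat_lit 2))) (run lf S gs) = true := h4
        rw [andB_iff] at h4'
        rcases List.mem_cons.1 hP with hP | hP
        · subst hP
          exact hlf _ _ _ _ _ h4'.1 hE
        · exact ih gs h4'.2 P hP e hE
      · rw [h5] at h4
        have h4' : andB (Nat.ble (lenL A') (nat_lit 30))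
              (andB (Nat.ble (Nat.succ (Nat.div act (nat_lit 2))) (lenL A'))
                (andB (Nat.ble (Nat.succ (lenN (glR A' (Nat.div act (nat_lit 2))))) (nat_lit 3))
                  (run lf S (appP (kidsR A' col' (Nat.div act (nat_lit 2))
                    (glR A' (Nat.div act (nat_lit 2))) (lenL A') A' (nat_lit 0) non') gs)))) = true
          := h4
        rw [andB_iff, andB_iff, andB_iff, bleN_iff, bleN_iff, bleN_iff, lenN_eq, lenL_eq,
          appP_eq] at h4'
        obtain ⟨h6, h7, h8, h9⟩ := h4'
        rcases List.mem_cons.1 hP with hP | hP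
        · subst hP
          obtain ⟨P', hP', e', hE'⟩ := kids_sound hG hc (v := Nat.div act (nat_lit 2)) h7 h6 h8
            A' 0 non' (by simp) (by simp) hE (by intro w hw; omega)
          exact ih _ h9 P' (List.mem_append_left _ hP') e' hE'
        · exact ih _ h9 P (List.mem_append_right _ hP) e hE

end Snd

end Pool.Agent.Work.MP_1e13ac_W
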