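import Pool.Agent.Work.MP_1e13ac_W.Count1

/-!
# MP_1e13ac_co, World 2: the tops of the triangles T1 are paid, with a set of free vertices
(helper87)

`lev c = 2 k` with `k ≥ 2`. The inequality: the number of T1 is at most the number of vertices of
`Q2 ∪ B1'` which are not free.
-/

set_option autoImplicit false
set_option linter.unusedSectionVars false

namespace Pool.Agent.Work.MP_1e13ac_W

open Classical Finset Pool.Agent.Work.MP_1e13ac_Bis

noncomputable section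

variable {V : Type} [Fintype V]

/-- white vertex of a T1 -/
def IsTw (G : SimpleGraph V) (c : V → Bool) (p : V) : Prop :=
  ∃ z ∈ T1s G c, G.Adj z p ∧ IsW1 G c p

/-- black mate of the top of a T1 -/
def IsAt (G : SimpleGraph V) (c : V → Bool) (x : V) : Prop := ∃ z ∈ T1s G c, MA G c z x

/-- `r` is a white vertex of the T1 with top `z`, and its outer neighbour `g` is in `B1`, not the
top of a T1 and not the mate of one -/
def GenR (G : SimpleGraph V) (c : V → Bool) (z r g : V) : Prop :=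
  z ∈ T1s G c ∧ G.Adj z r ∧ IsW1 G c r ∧ G.Adj r g ∧ IsB1 G c g ∧ g ∉ T1s G c ∧ ¬ IsAt G c g

/-- all the neighbours of `v ∈ W1` in `B1` are mates of tops of T1 -/
def S1 (G : SimpleGraph V) (c : V → Bool) (v : V) : Prop :=
  IsW1 G c v ∧ ¬ IsTw G c v ∧ (∃ h, G.Adj v h ∧ IsB1 G c h) ∧
    ∀ h, G.Adj v h → IsB1 G c h → IsAt G c h

/-- the mate of the top `z` is adjacent to `v` -/
def Attd (G : SimpleGraph V) (c : V → Bool) (z v : V) : Prop :=
  z ∈ T1s G c ∧ ∃ z', MA G c z z' ∧ G.Adj z' v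

/-- `ρ v` is a white vertex with generic outer neighbour of a T1 attached to `v` -/
def RhoOK (G : SimpleGraph V) (c : V → Bool) (ρ : V → V) : Prop :=
  ∀ v, S1 G c v → ∃ z g, Attd G c z v ∧ GenR G c z (ρ v) g

/-- the T1 with top `z` is paid by vertices `r` of generic outer neighbours -/
def Duty (G : SimpleGraph V) (c : V → Bool) (z : V) : Prop :=
  (∃ z' ∈ T1s G c, MA G c z z') ∨ ∃ v, S1 G c v ∧ Attd G c z v

/-- the free vertices of `Q2 ∪ B1'` -/
def FreeR (G : SimpleGraph V) (c : V → Bool) (ρ : V → V) (x : V) : Prop :=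
  (x ∈ B1p G c ∧ ¬ IsAt G c x) ∨
  (x ∈ Qs G c 2 ∧ ¬ IsTw G c x ∧ ∀ h, G.Adj x h → IsB1 G c h → ¬ IsAt G c h) ∨
  (∃ z g, GenR G c z x g ∧ (∀ z' ∈ T1s G c, ¬ MA G c z z') ∧
    ∀ v, S1 G c v → Attd G c z v → x ≠ ρ v)

/-- simple attachment -/
def HypS (G : SimpleGraph V) (c : V → Bool) : Prop :=
  ∀ z ∈ T1s G c, ∀ z' v, MA G c z z' → z' ∉ T1s G c → G.Adj z' v → IsW1 G c v → ¬ IsTw G c v →
    nB1 G c v = 1 → ∃ r g, GenR G c z r g

/-- double attachment -/
def HypDS (G : SimpleGraph V) (c : V → Bool) : Prop :=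
  ∀ z₁ ∈ T1s G c, ∀ z₂ ∈ T1s G c, z₁ ≠ z₂ → ∀ z₁' z₂' v, MA G c z₁ z₁' → MA G c z₂ z₂' →
    z₁' ∉ T1s G c → z₂' ∉ T1s G c → G.Adj z₁' v → G.Adj z₂' v → IsW1 G c v → ¬ IsTw G c v →
    ∃ r g, GenR G c z₁ r g ∨ GenR G c z₂ r g

/-- `z` and `z'` are tops of T1 and mates, with a common white neighbour (`K4`) -/
def K4p (G : SimpleGraph V) (c : V → Bool) (z z' : V) : Prop :=
  z ∈ T1s G c ∧ z' ∈ T1s G c ∧ MA G c z z' ∧ ∃ p, G.Adj z p ∧ G.Adj z' p ∧ IsW1 G c p

/-- two tops which are mates -/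
def HypTT (G : SimpleGraph V) (c : V → Bool) : Prop :=
  ∀ z₁ ∈ T1s G c, ∀ z₂ ∈ T1s G c, MA G c z₁ z₂ → ¬ K4p G c z₁ z₂ → ∃ r₁ r₂, r₁ ≠ r₂ ∧
    (∃ g, GenR G c z₁ r₁ g ∨ GenR G c z₂ r₁ g) ∧ ∃ g, GenR G c z₁ r₂ g ∨ GenR G c z₂ r₂ g

open CntAux

namespace T1C

/-- white vertices whose T1 has its top in `A` and whose outer neighbour is generic -/
def XG (G : SimpleGraph V) (c : V → Bool) (A : Finset V) : Finset V :=
  univ.filter fun r => ∃ z ∈ A, ∃ g, GenR G c z r g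

theorem mem_XG {G : SimpleGraph V} {c : V → Bool} {A : Finset V} {r : V} :
    r ∈ XG G c A ↔ ∃ z ∈ A, ∃ g, GenR G c z r g := by simp [XG]


theorem T1_B1 {G : SimpleGraph V} {c : V → Bool} {z : V} (h : z ∈ T1s G c) : IsB1 G c z :=
  (Finset.mem_filter.1 h).2.1

theorem mem_Q2 {G : SimpleGraph V} (hG : Cub G) {c : V → Bool} {x a b : V} (hx : IsW1 G c x)
    (hab : a ≠ b) (ha : G.Adj x a) (ha' : IsB1 G c a) (hb : G.Adj x b) (hb' : IsB1 G c b) :
    x ∈ Qs G c 2 := by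
  refine Finset.mem_filter.2 ⟨Finset.mem_univ _, hx, ?_⟩
  rw [nB1_eq]
  exact le_antisymm (nn_B1_le hG hx) (two_le hab ⟨ha, ha'⟩ ⟨hb, hb'⟩)

theorem gen_Q2 {G : SimpleGraph V} (hG : Cub G) {c : V → Bool} {z r g : V} (h : GenR G c z r g) :
    r ∈ Qs G c 2 :=
  mem_Q2 hG h.2.2.1 (fun (e : z = g) => h.2.2.2.2.2.1 (e ▸ h.1)) h.2.1.symm (T1_B1 h.1)
    h.2.2.2.1 h.2.2.2.2.1

/-- the `B1`-neighbours of a white vertex are at most two -/
theorem B1_two {G : SimpleGraph V} (hG : Cub G) {c : V → Bool} {x a b d : V} (hx : IsW1 G c x)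
    (hab : a ≠ b) (ha : G.Adj x a) (ha' : IsB1 G c a) (hb : G.Adj x b) (hb' : IsB1 G c b)
    (hd : G.Adj x d) (hd' : IsB1 G c d) : d = a ∨ d = b :=
  two_of (P := fun y => IsB1 G c y) (nn_B1_le hG hx) ⟨ha, ha'⟩ ⟨hb, hb'⟩ ⟨hd, hd'⟩ hab

/-- the target of the T1 without duty -/
def XN (G : SimpleGraph V) (c : V → Bool) : Finset V :=
  univ.filter fun x => (x ∈ B1p G c ∧ IsAt G c x) ∨
    (x ∈ Qs G c 2 ∧ ∃ h, G.Adj x h ∧ IsB1 G c h ∧ IsAt G c h ∧ h ∉ T1s G c ∧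
      (IsTw G c x ∨ ∃ h', G.Adj x h' ∧ IsB1 G c h' ∧ ¬ IsAt G c h'))

def XD (G : SimpleGraph V) (c : V → Bool) : Finset V :=
  (Qs G c 2).filter fun x => ¬ IsTw G c x ∧ ∀ h, G.Adj x h → IsB1 G c h → IsAt G c h

theorem gen_uniq {G : SimpleGraph V} (hG : Cub G) {c : V → Bool} {z w r g h : V}
    (h1 : GenR G c z r g) (h2 : GenR G c w r h) : z = w := by
  obtain ⟨a1, a2, a3, a4, a5, a6, a7⟩ := h1
  obtain ⟨b1, b2, b3, b4, b5, b6, b7⟩ := h2
  have hne : z ≠ g := fun e => a6 (e ▸ a1)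
  rcases B1_two hG a3 hne a2.symm (T1_B1 a1) a4 a5 b2.symm (T1_B1 b1) with e | e
  · exact e.symm
  · exact absurd (e ▸ b1) a6

theorem not_XN_gen {G : SimpleGraph V} (hG : Cub G) {c : V → Bool} {z r g : V}
    (hg : GenR G c z r g) : r ∉ XN G c := by
  intro h
  simp only [XN, Finset.mem_filter, Finset.mem_univ, true_and] at h
  rcases h with ⟨h1, _⟩ | ⟨_, h, h1, h2, h3, h4, _⟩
  · have hb : IsB1 G c r := (Finset.mem_filter.1 h1).2.1
    have hw := hg.2.2.1.1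
    rw [hb.1] at hw
    exact absurd hw (by simp)
  · obtain ⟨g1, g2, g3, g4, g5, g6, g7⟩ := hg
    have hne : z ≠ g := fun e => g6 (e ▸ g1)
    rcases B1_two hG g3 hne g2.symm (T1_B1 g1) g4 g5 h1 h2 with e | e
    · rw [e] at h4; exact h4 g1
    · rw [e] at h3; exact g7 h3

theorem not_XD_gen {G : SimpleGraph V} {c : V → Bool} {z r g : V}
    (hg : GenR G c z r g) : r ∉ XD G c := by
  intro h
  exact (Finset.mem_filter.1 h).2.1 ⟨z, hg.1, hg.2.1, hg.2.2.1⟩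

theorem XN_XD {G : SimpleGraph V} {c : V → Bool} {x : V} (h : x ∈ XN G c) : x ∉ XD G c := by
  intro h'
  have h2 := Finset.mem_filter.1 h'
  simp only [XN, Finset.mem_filter, Finset.mem_univ, true_and] at h
  rcases h with ⟨h1, _⟩ | ⟨_, h, _, _, _, _, h5⟩
  · have hb : IsB1 G c x := (Finset.mem_filter.1 h1).2.1
    have hw := (Finset.mem_filter.1 h2.1).2.1.1
    rw [hb.1] at hw
    exact absurd hw (by simp)
  · rcases h5 with h5 | ⟨k, k1, k2, k3⟩
    · exact h2.2.1 h5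
    · exact k3 (h2.2.2 k k1 k2)

/-- the tops in components `K4` and their white neighbours -/
def TK (G : SimpleGraph V) (c : V → Bool) : Finset V :=
  (T1s G c).filter fun z => ∃ z', K4p G c z z'

def XK (G : SimpleGraph V) (c : V → Bool) : Finset V :=
  univ.filter fun p => IsW1 G c p ∧ ∃ z z', z ∈ T1s G c ∧ z' ∈ T1s G c ∧ z ≠ z' ∧ G.Adj z p ∧
    G.Adj z' p

/-- the T1 with mate top, without duty, simple and double -/
def TT (G : SimpleGraph V) (c : V → Bool) : Finset V :=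
  (T1s G c).filter fun z => ∃ z' ∈ T1s G c, MA G c z z' ∧ ¬ K4p G c z z'

def TN (G : SimpleGraph V) (c : V → Bool) : Finset V :=
  (T1s G c).filter fun z => ¬ Duty G c z

def TS (G : SimpleGraph V) (c : V → Bool) : Finset V :=
  (T1s G c).filter fun z => (¬ ∃ z' ∈ T1s G c, MA G c z z') ∧ ∃ v, S1 G c v ∧ Attd G c z v

/-- the payers -/
def XS (G : SimpleGraph V) (c : V → Bool) (ρ : V → V) : Finset V :=
  (univ.filter (S1 G c)).image ρ

theorem cover (G : SimpleGraph V) (c : V → Bool) :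
    T1s G c ⊆ TK G c ∪ (TT G c ∪ (TN G c ∪ TS G c)) := by
  intro z hz
  simp only [Finset.mem_union]
  by_cases h1 : ∃ z' ∈ T1s G c, MA G c z z'
  · obtain ⟨z', h2, h3⟩ := h1
    by_cases h4 : K4p G c z z'
    · left; exact Finset.mem_filter.2 ⟨hz, z', h4⟩
    · right; left; exact Finset.mem_filter.2 ⟨hz, z', h2, h3, h4⟩
  right
  right
  by_cases h2 : Duty G c z
  · right
    rcases h2 with h2 | h2
    · exact absurd h2 h1
    · exact Finset.mem_filter.2 ⟨hz, h1, h2⟩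
  · left; exact Finset.mem_filter.2 ⟨hz, h2⟩

/-- a vertex of `B1` outside T1s has at most one neighbour in `W1` -/
theorem uniq_W1 {G : SimpleGraph V} (hG : Cub G) {c : V → Bool} (hc : Nice G c) (hR : Rule1 G c)
    {x u v : V} (hx : IsB1 G c x) (hn : x ∉ T1s G c) (hu : G.Adj x u) (hu' : IsW1 G c u)
    (hv : G.Adj x v) (hv' : IsW1 G c v) : u = v := by
  by_contra hne
  refine hn ((mem_T1 hG hc hR x).2 ⟨hx, le_antisymm (nn_W1_le hG hx) ?_⟩)
  exact two_le hne ⟨hu, hu'⟩ ⟨hv, hv'⟩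

theorem mate_B1 {G : SimpleGraph V} {c : V → Bool} (hc : Nice G c) {z z' : V} (hz : z ∈ T1s G c)
    (h : MA G c z z') : IsB1 G c z' :=
  ⟨by rw [← h.2]; exact (T1_B1 hz).1, ma_md hc (ma_symm h)⟩

theorem card_TN {G : SimpleGraph V} (hG : Cub G) {c : V → Bool} (hc : Nice G c) :
    (TN G c).card ≤ (XN G c).card := by
  have hch : ∀ z ∈ TN G c, ∃ x ∈ XN G c, ∃ z', MA G c z z' ∧ z' ∉ T1s G c ∧
      ((x = z' ∧ x ∈ B1p G c) ∨ (x ∈ Qs G c 2 ∧ G.Adj z' x)) := by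
    intro z hz
    obtain ⟨hzT, hnd⟩ := Finset.mem_filter.1 hz
    obtain ⟨z', hz'⟩ := mate_exists (T1_B1 hzT).2
    have hz'B := mate_B1 hc hzT hz'
    have hz'n : z' ∉ T1s G c := fun h => hnd (Or.inl ⟨z', h, hz'⟩)
    by_cases hp : z' ∈ B1p G c
    · refine ⟨z', ?_, z', hz', hz'n, Or.inl ⟨rfl, hp⟩⟩
      exact Finset.mem_filter.2 ⟨Finset.mem_univ _, Or.inl ⟨hp, z, hzT, hz'⟩⟩
    · have hnz : ¬ nn G (fun y => IsW1 G c y) z' = 0 := fun h => hp ((mem_B1p z').2 ⟨hz'B, h⟩)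
      rw [nn_zero] at hnz
      push Not at hnz
      obtain ⟨v, hv1, hv2⟩ := hnz
      by_cases hw : IsTw G c v
      · obtain ⟨w, w1, w2, w3⟩ := hw
        have hne : w ≠ z' := fun h => hz'n (h ▸ w1)
        have hq : v ∈ Qs G c 2 := mem_Q2 hG hv2 hne w2.symm (T1_B1 w1) hv1.symm hz'B
        refine ⟨v, ?_, z', hz', hz'n, Or.inr ⟨hq, hv1⟩⟩
        refine Finset.mem_filter.2 ⟨Finset.mem_univ _, Or.inr ⟨hq, z', hv1.symm, hz'B,
          ⟨z, hzT, hz'⟩, hz'n, Or.inl ⟨w, w1, w2, w3⟩⟩⟩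
      · have : ∃ h, G.Adj v h ∧ IsB1 G c h ∧ ¬ IsAt G c h := by
          by_contra hcon
          push Not at hcon
          exact hnd (Or.inr ⟨v, ⟨hv2, hw, ⟨z', hv1.symm, hz'B⟩, hcon⟩, hzT, z', hz', hv1⟩)
        obtain ⟨h, h1, h2, h3⟩ := this
        have hne : z' ≠ h := fun e => h3 (e ▸ ⟨z, hzT, hz'⟩)
        have hq : v ∈ Qs G c 2 := mem_Q2 hG hv2 hne hv1.symm hz'B h1 h2
        refine ⟨v, ?_, z', hz', hz'n, Or.inr ⟨hq, hv1⟩⟩
        refine Finset.mem_filter.2 ⟨Finset.mem_univ _, Or.inr ⟨hq, z', hv1.symm, hz'B,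
          ⟨z, hzT, hz'⟩, hz'n, Or.inr ⟨h, h1, h2, h3⟩⟩⟩
  choose! f hf1 hf2 using hch
  refine Finset.card_le_card_of_injOn f (fun z hz => hf1 z hz) ?_
  intro a ha b hb hab
  obtain ⟨a', a1, a2, a3⟩ := hf2 a ha
  obtain ⟨b', b1, b2, b3⟩ := hf2 b hb
  have haT := (Finset.mem_filter.1 (Finset.mem_coe.1 ha)).1
  have hbT := (Finset.mem_filter.1 (Finset.mem_coe.1 hb)).1
  have key : a' = b' := by
    have hX := hf1 a ha
    rw [← hab] at b3
    rcases a3 with ⟨e, e1⟩ | ⟨e1, e2⟩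
    · rcases b3 with ⟨e', _⟩ | ⟨e', _⟩
      · rw [← e, ← e']
      · exfalso
        have hb1 : IsB1 G c (f a) := (Finset.mem_filter.1 e1).2.1
        have hw := (Finset.mem_filter.1 e').2.1.1
        rw [hb1.1] at hw
        exact absurd hw (by simp)
    · rcases b3 with ⟨_, e'⟩ | ⟨_, e'⟩
      · exfalso
        have hb1 : IsB1 G c (f a) := (Finset.mem_filter.1 e').2.1
        have hw := (Finset.mem_filter.1 e1).2.1.1
        rw [hb1.1] at hw
        exact absurd hw (by simp)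
      · by_contra hne
        have hW : IsW1 G c (f a) := (Finset.mem_filter.1 e1).2.1
        have haB := mate_B1 hc haT a1
        have hbB := mate_B1 hc hbT b1
        have hall : ∀ h, G.Adj (f a) h → IsB1 G c h → h = a' ∨ h = b' := fun h h1 h2 =>
          B1_two hG hW hne e2.symm haB e'.symm hbB h1 h2
        simp only [XN, Finset.mem_filter, Finset.mem_univ, true_and] at hX
        rcases hX with ⟨hX, _⟩ | ⟨_, h, h1, h2, h3, h4, h5⟩
        · have hb1 : IsB1 G c (f a) := (Finset.mem_filter.1 hX).2.1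
          have hw := (Finset.mem_filter.1 e1).2.1.1
          rw [hb1.1] at hw
          exact absurd hw (by simp)
        · rcases h5 with ⟨w, w1, w2, _⟩ | ⟨k, k1, k2, k3⟩
          · rcases hall w w2.symm (T1_B1 w1) with e | e
            · exact a2 (e ▸ w1)
            · exact b2 (e ▸ w1)
          · rcases hall k k1 k2 with e | e
            · exact k3 (e ▸ ⟨a, haT, a1⟩)
            · exact k3 (e ▸ ⟨b, hbT, b1⟩)
  rw [key] at a1
  exact nice_uniq hc (ma_symm a1) (ma_symm b1)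

theorem K4_all {G : SimpleGraph V} (hG : Cub G) {c : V → Bool} (hc : Nice G c) (hR : Rule1 G c)
    {z z' : V} (h : K4p G c z z') {q : V} (hq : G.Adj z q) (hq' : IsW1 G c q) : G.Adj z' q := by
  obtain ⟨h1, h2, h3, p, h4, h5, h6⟩ := h
  by_cases e : q = p
  · rw [e]; exact h5
  have h7 := hR z p q (T1_B1 h1) h4 hq (fun e' => e e'.symm) h6 hq'
  obtain ⟨u, v, huv, hu, hv⟩ := two_exist (G := G) (P := fun y => IsW1 G c y) (x := z')
    (by rw [((mem_T1 hG hc hR z').1 h2).2])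
  have hw : ∃ w, w ≠ p ∧ G.Adj z' w ∧ IsW1 G c w := by
    by_cases e' : u = p
    · exact ⟨v, by rw [← e']; exact huv.symm, hv.1, hv.2⟩
    · exact ⟨u, e', hu.1, hu.2⟩
  obtain ⟨w, w1, w2, w3⟩ := hw
  have h8 := hR z' p w (T1_B1 h2) h5 w2 w1.symm h6 w3
  have h9 : w = q := nice_uniq hc ⟨h8, by rw [h6.1, w3.1]⟩ ⟨h7, by rw [h6.1, hq'.1]⟩
  rw [← h9]
  exact w2

theorem card_TK {G : SimpleGraph V} (hG : Cub G) {c : V → Bool} (hc : Nice G c) (hR : Rule1 G c) :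
    (TK G c).card ≤ (XK G c).card := by
  have h1 : ∀ z ∈ TK G c, 2 ≤ ((XK G c).bipartiteAbove (fun z p => G.Adj z p) z).card := by
    intro z hz
    obtain ⟨hzT, z', hk⟩ := Finset.mem_filter.1 hz
    obtain ⟨u, v, huv, hu, hv⟩ := two_exist (G := G) (P := fun y => IsW1 G c y) (x := z)
      (by rw [((mem_T1 hG hc hR z).1 hzT).2])
    refine Finset.one_lt_card.2 ⟨u, ?_, v, ?_, huv⟩
    · exact Finset.mem_filter.2 ⟨Finset.mem_filter.2 ⟨Finset.mem_univ _, hu.2, z, z', hzT, hk.2.1,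
        hk.2.2.1.1.ne, hu.1, K4_all hG hc hR hk hu.1 hu.2⟩, hu.1⟩
    · exact Finset.mem_filter.2 ⟨Finset.mem_filter.2 ⟨Finset.mem_univ _, hv.2, z, z', hzT, hk.2.1,
        hk.2.2.1.1.ne, hv.1, K4_all hG hc hR hk hv.1 hv.2⟩, hv.1⟩
  have h2 : ∀ p ∈ XK G c, ((TK G c).bipartiteBelow (fun z p => G.Adj z p) p).card ≤ 2 := by
    intro p hp
    have hW := (Finset.mem_filter.1 hp).2.1
    refine le_trans (Finset.card_le_card (t := (nbs G p).filter fun y => IsB1 G c y) ?_)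
      (nn_B1_le hG hW)
    intro z hz
    obtain ⟨hz1, hz2⟩ := Finset.mem_filter.1 hz
    exact Finset.mem_filter.2 ⟨mem_nbs.2 hz2.symm, T1_B1 (Finset.mem_filter.1 hz1).1⟩
  have h3 := Finset.card_mul_le_card_mul (fun z p => G.Adj z p) h1 h2
  omega

/-- the `B1`-neighbours of an element of `XK` are tops of T1 -/
theorem XK_nb {G : SimpleGraph V} (hG : Cub G) {c : V → Bool} {p h : V} (hp : p ∈ XK G c)
    (h1 : G.Adj p h) (h2 : IsB1 G c h) : h ∈ T1s G c := by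
  obtain ⟨_, hW, z, z', k1, k2, k3, k4, k5⟩ := Finset.mem_filter.1 hp
  rcases B1_two hG hW k3 k4.symm (T1_B1 k1) k5.symm (T1_B1 k2) h1 h2 with e | e
  · rw [e]; exact k1
  · rw [e]; exact k2

/-- the mate of a top attached to an S1 vertex is no top -/
theorem S1_mate {G : SimpleGraph V} {c : V → Bool} {v z' : V} (h : S1 G c v)
    (h2 : G.Adj z' v) : z' ∉ T1s G c := fun h3 => h.2.1 ⟨z', h3, h2, h.1⟩

theorem S1_uniq {G : SimpleGraph V} (hG : Cub G) {c : V → Bool} (hc : Nice G c)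
    (hR : Rule1 G c) {u v z : V} (hu : S1 G c u) (hv : S1 G c v) (h1 : Attd G c z u)
    (h2 : Attd G c z v) : u = v := by
  obtain ⟨hz, z', a1, a2⟩ := h1
  obtain ⟨_, w', b1, b2⟩ := h2
  have e := nice_uniq hc b1 a1
  subst e
  exact uniq_W1 hG hc hR (mate_B1 hc hz a1) (S1_mate hu a2) a2 hu.1 b2 hv.1

theorem rho_inj {G : SimpleGraph V} (hG : Cub G) {c : V → Bool} (hc : Nice G c)
    (hR : Rule1 G c) {ρ : V → V} (hρ : RhoOK G c ρ) {u v : V} (hu : S1 G c u) (hv : S1 G c v)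
    (h : ρ u = ρ v) : u = v := by
  obtain ⟨z, g, a1, a2⟩ := hρ u hu
  obtain ⟨w, g', b1, b2⟩ := hρ v hv
  rw [← h] at b2
  have e := gen_uniq hG a2 b2
  subst e
  exact S1_uniq hG hc hR hu hv a1 b1

theorem card_TS {G : SimpleGraph V} (hG : Cub G) {c : V → Bool} (hc : Nice G c)
    (hR : Rule1 G c) {ρ : V → V} (hρ : RhoOK G c ρ) :
    (TS G c).card ≤ (XD G c).card + (XS G c ρ).card := by
  have h1 : (XS G c ρ).card = (univ.filter (S1 G c)).card := by
    refine Finset.card_image_of_injOn ?_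
    intro u hu v hv h
    exact rho_inj hG hc hR hρ (Finset.mem_filter.1 (Finset.mem_coe.1 hu)).2
      (Finset.mem_filter.1 (Finset.mem_coe.1 hv)).2 h
  have h2 : TS G c ⊆ (univ.filter (S1 G c)).biUnion fun v =>
      univ.filter fun z => Attd G c z v := by
    intro z hz
    obtain ⟨_, _, v, h3, h4⟩ := Finset.mem_filter.1 hz
    exact Finset.mem_biUnion.2 ⟨v, Finset.mem_filter.2 ⟨Finset.mem_univ _, h3⟩,
      Finset.mem_filter.2 ⟨Finset.mem_univ _, h4⟩⟩
  have h3 : ∀ v, (univ.filter fun z => Attd G c z v).card ≤ nB1 G c v := by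
    intro v
    have hch : ∀ z ∈ (univ.filter fun z => Attd G c z v), ∃ z', MA G c z z' ∧ G.Adj z' v := by
      intro z hz
      exact (Finset.mem_filter.1 hz).2.2
    choose! m hm1 hm2 using hch
    refine Finset.card_le_card_of_injOn m ?_ ?_
    · intro a ha
      have haT := (Finset.mem_filter.1 (Finset.mem_coe.1 ha)).2.1
      refine Finset.mem_coe.2 (Finset.mem_filter.2 ⟨mem_nbs.2 (hm2 a ha).symm, ?_⟩)
      exact mate_B1 hc haT (hm1 a ha)
    · intro a ha b hb hab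
      have h1 := hm1 a ha
      have h2 := hm1 b hb
      rw [hab] at h1
      exact nice_uniq hc (ma_symm h1) (ma_symm h2)
  have h4 : ∑ v ∈ univ.filter (S1 G c), (univ.filter fun z => Attd G c z v).card ≤
      ∑ v ∈ univ.filter (S1 G c), (1 + if v ∈ XD G c then 1 else 0) := by
    refine Finset.sum_le_sum fun v hv => (h3 v).trans ?_
    have hS := (Finset.mem_filter.1 hv).2
    have h5 : nB1 G c v ≤ 2 := by rw [nB1_eq]; exact nn_B1_le hG hS.1
    by_cases h6 : nB1 G c v = 2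
    · have : v ∈ XD G c := Finset.mem_filter.2
        ⟨Finset.mem_filter.2 ⟨Finset.mem_univ _, hS.1, h6⟩, hS.2.1, hS.2.2.2⟩
      rw [if_pos this]
      omega
    · omega
  have h5 := (Finset.card_le_card h2).trans Finset.card_biUnion_le
  rw [Finset.sum_add_distrib, Finset.sum_const, smul_eq_mul, mul_one, ← Finset.card_filter] at h4
  have h6 : ((univ.filter (S1 G c)).filter fun v => v ∈ XD G c).card ≤ (XD G c).card := by
    refine Finset.card_le_card ?_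
    intro v hv
    exact (Finset.mem_filter.1 hv).2
  omega

theorem card_TT {G : SimpleGraph V} (hG : Cub G) {c : V → Bool} (hc : Nice G c)
    (hT : HypTT G c) : (TT G c).card ≤ (XG G c (TT G c)).card := by
  let rel : V → V → Prop := fun z r => ∃ w, (w = z ∨ MA G c z w) ∧ ∃ g, GenR G c w r g
  have h1 : ∀ z ∈ TT G c, 2 ≤ ((XG G c (TT G c)).bipartiteAbove rel z).card := by
    intro z hz
    obtain ⟨hzT, z', hz'T, hz', hK⟩ := Finset.mem_filter.1 hz
    have hz'' : z' ∈ TT G c := Finset.mem_filter.2 ⟨hz'T, z, hzT, ma_symm hz', fun h =>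
      hK ⟨h.2.1, h.1, hz', by obtain ⟨p, p1, p2, p3⟩ := h.2.2.2; exact ⟨p, p2, p1, p3⟩⟩⟩
    obtain ⟨r₁, r₂, hne, ⟨g₁, h₁⟩, g₂, h₂⟩ := hT z hzT z' hz'T hz' hK
    refine Finset.one_lt_card.2 ⟨r₁, ?_, r₂, ?_, hne⟩
    · refine Finset.mem_filter.2 ⟨mem_XG.2 ?_, ?_⟩
      · rcases h₁ with h | h
        · exact ⟨z, hz, g₁, h⟩
        · exact ⟨z', hz'', g₁, h⟩
      · rcases h₁ with h | h
        · exact ⟨z, Or.inl rfl, g₁, h⟩
        · exact ⟨z', Or.inr hz', g₁, h⟩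
    · refine Finset.mem_filter.2 ⟨mem_XG.2 ?_, ?_⟩
      · rcases h₂ with h | h
        · exact ⟨z, hz, g₂, h⟩
        · exact ⟨z', hz'', g₂, h⟩
      · rcases h₂ with h | h
        · exact ⟨z, Or.inl rfl, g₂, h⟩
        · exact ⟨z', Or.inr hz', g₂, h⟩
  have h2 : ∀ r ∈ XG G c (TT G c), ((TT G c).bipartiteBelow rel r).card ≤ 2 := by
    intro r hr
    obtain ⟨w, hw, g, hg⟩ := mem_XG.1 hr
    obtain ⟨hwT, w', hw'T, hw', _⟩ := Finset.mem_filter.1 hw
    refine le_trans (Finset.card_le_card (t := {w, w'}) ?_) Finset.card_le_two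
    intro z hz
    obtain ⟨hz1, u, hu, g', hg'⟩ := Finset.mem_filter.1 hz
    have e : u = w := gen_uniq hG hg' hg
    subst e
    simp only [Finset.mem_insert, Finset.mem_singleton]
    rcases hu with h | h
    · left; exact h.symm
    · right; exact nice_uniq hc (ma_symm h) hw'
  have h3 := Finset.card_mul_le_card_mul rel h1 h2
  omega

theorem XG_notFree {G : SimpleGraph V} (hG : Cub G) {c : V → Bool} (ρ : V → V) :
    XG G c (TT G c) ⊆ (Qs G c 2 ∪ B1p G c) \ univ.filter (FreeR G c ρ) := by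
  intro r hr
  obtain ⟨z, hz, g, hg⟩ := mem_XG.1 hr
  refine Finset.mem_sdiff.2 ⟨Finset.mem_union_left _ (gen_Q2 hG hg), ?_⟩
  intro hf
  rcases (Finset.mem_filter.1 hf).2 with ⟨h1, _⟩ | ⟨_, h1, _⟩ | ⟨w, g', hg', hn, _⟩
  · have hb : IsB1 G c r := (Finset.mem_filter.1 h1).2.1
    have hw := hg.2.2.1.1
    rw [hb.1] at hw
    exact absurd hw (by simp)
  · exact h1 ⟨z, hg.1, hg.2.1, hg.2.2.1⟩
  · have e := gen_uniq hG hg' hg
    subst e
    obtain ⟨_, z', h1, h2, _⟩ := Finset.mem_filter.1 hz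
    exact hn z' h1 h2

theorem XS_notFree {G : SimpleGraph V} (hG : Cub G) {c : V → Bool} {ρ : V → V}
    (hρ : RhoOK G c ρ) :
    XS G c ρ ⊆ (Qs G c 2 ∪ B1p G c) \ univ.filter (FreeR G c ρ) := by
  intro r hr
  obtain ⟨v, hv, hvr⟩ := Finset.mem_image.1 hr
  have hS := (Finset.mem_filter.1 hv).2
  obtain ⟨z, g, h1, hg⟩ := hρ v hS
  rw [hvr] at hg
  refine Finset.mem_sdiff.2 ⟨Finset.mem_union_left _ (gen_Q2 hG hg), ?_⟩
  intro hf
  rcases (Finset.mem_filter.1 hf).2 with ⟨h1, _⟩ | ⟨_, h1, _⟩ | ⟨w, g', hg', _, hn⟩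
  · have hb : IsB1 G c r := (Finset.mem_filter.1 h1).2.1
    have hw := hg.2.2.1.1
    rw [hb.1] at hw
    exact absurd hw (by simp)
  · exact h1 ⟨z, hg.1, hg.2.1, hg.2.2.1⟩
  · have e := gen_uniq hG hg' hg
    subst e
    exact hn v hS h1 hvr.symm

theorem XN_notFree {G : SimpleGraph V} (hG : Cub G) {c : V → Bool} (ρ : V → V) :
    XN G c ⊆ (Qs G c 2 ∪ B1p G c) \ univ.filter (FreeR G c ρ) := by
  intro x hx
  have hx' := hx
  simp only [XN, Finset.mem_filter, Finset.mem_univ, true_and] at hx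
  refine Finset.mem_sdiff.2 ⟨?_, ?_⟩
  · rcases hx with ⟨h1, _⟩ | ⟨h1, _⟩
    · exact Finset.mem_union_right _ h1
    · exact Finset.mem_union_left _ h1
  · intro hf
    rcases (Finset.mem_filter.1 hf).2 with ⟨h1, h2⟩ | ⟨h1, h2, h3⟩ | ⟨w, g', hg', _, _⟩
    · rcases hx with ⟨_, k⟩ | ⟨k, _⟩
      · exact h2 k
      · have hb : IsB1 G c x := (Finset.mem_filter.1 h1).2.1
        have hw := (Finset.mem_filter.1 k).2.1.1
        rw [hb.1] at hw
        exact absurd hw (by simp)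
    · rcases hx with ⟨k, _⟩ | ⟨_, h, k1, k2, k3, _⟩
      · have hb : IsB1 G c x := (Finset.mem_filter.1 k).2.1
        have hw := (Finset.mem_filter.1 h1).2.1.1
        rw [hb.1] at hw
        exact absurd hw (by simp)
      · exact h3 h k1 k2 k3
    · exact not_XN_gen hG hg' hx'

theorem XD_notFree {G : SimpleGraph V} {c : V → Bool} (ρ : V → V) :
    XD G c ⊆ (Qs G c 2 ∪ B1p G c) \ univ.filter (FreeR G c ρ) := by
  intro x hx
  obtain ⟨h1, h2, h3⟩ := Finset.mem_filter.1 hx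
  obtain ⟨_, hW, hn⟩ := Finset.mem_filter.1 h1
  refine Finset.mem_sdiff.2 ⟨Finset.mem_union_left _ h1, ?_⟩
  intro hf
  rcases (Finset.mem_filter.1 hf).2 with ⟨k1, _⟩ | ⟨_, _, k3⟩ | ⟨w, g', hg', _, _⟩
  · have hb : IsB1 G c x := (Finset.mem_filter.1 k1).2.1
    have hw := hW.1
    rw [hb.1] at hw
    exact absurd hw (by simp)
  · obtain ⟨p, q, hpq, ⟨hp, hpB⟩, hq, hqB⟩ :=
      two_exist (G := G) (P := fun y => IsB1 G c y) (x := x) (by rw [← nB1_eq, hn])
    exact k3 p hp hpB (h3 p hp hpB)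
  · exact h2 ⟨w, hg'.1, hg'.2.1, hg'.2.2.1⟩

theorem XK_notFree {G : SimpleGraph V} (hG : Cub G) {c : V → Bool} (ρ : V → V) :
    XK G c ⊆ (Qs G c 2 ∪ B1p G c) \ univ.filter (FreeR G c ρ) := by
  intro x hx
  obtain ⟨_, hW, z, z', k1, k2, k3, k4, k5⟩ := Finset.mem_filter.1 hx
  refine Finset.mem_sdiff.2 ⟨Finset.mem_union_left _
    (mem_Q2 hG hW k3 k4.symm (T1_B1 k1) k5.symm (T1_B1 k2)), ?_⟩
  intro hf
  rcases (Finset.mem_filter.1 hf).2 with ⟨h1, _⟩ | ⟨_, h2, _⟩ | ⟨w, g', hg', _, _⟩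
  · have hb : IsB1 G c x := (Finset.mem_filter.1 h1).2.1
    have hw := hW.1
    rw [hb.1] at hw
    exact absurd hw (by simp)
  · exact h2 ⟨z, k1, k4, hW⟩
  · exact hg'.2.2.2.2.2.1 (XK_nb hG hx hg'.2.2.2.1 hg'.2.2.2.2.1)

end T1C

open T1C

/-- the hypotheses on attachments give a function `ρ` -/
theorem exists_rho {G : SimpleGraph V} (hG : Cub G) {c : V → Bool} (hc : Nice G c)
    (hS : HypS G c) (hDS : HypDS G c) : ∃ ρ, RhoOK G c ρ := by
  have key : ∀ v, ∃ r, S1 G c v → ∃ z g, Attd G c z v ∧ GenR G c z r g := by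
    intro v
    by_cases h : S1 G c v
    · obtain ⟨hW, hTw, ⟨h, h1, h2⟩, h3⟩ := id h
      obtain ⟨z, hz, hzh⟩ := h3 h h1 h2
      have hhn : h ∉ T1s G c := S1_mate ‹S1 G c v› h1.symm
      have h4 : nB1 G c v ≤ 2 := by rw [nB1_eq]; exact nn_B1_le hG hW
      have h5 : 0 < nB1 G c v := by
        unfold nB1
        exact Finset.card_pos.2 ⟨h, Finset.mem_filter.2 ⟨mem_nbs.2 h1, h2⟩⟩
      have h6 : nB1 G c v = 1 ∨ nB1 G c v = 2 := by omega
      rcases h6 with h6 | h6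
      · obtain ⟨r, g, hg⟩ := hS z hz h v hzh hhn h1.symm hW hTw h6
        exact ⟨r, fun _ => ⟨z, g, ⟨hz, h, hzh, h1.symm⟩, hg⟩⟩
      · obtain ⟨p, q, hpq, ⟨hp, hpB⟩, hq, hqB⟩ :=
          two_exist (G := G) (P := fun y => IsB1 G c y) (x := v) (by rw [← nB1_eq, h6])
        obtain ⟨w₁, a1, a2⟩ := h3 p hp hpB
        obtain ⟨w₂, b1, b2⟩ := h3 q hq hqB
        have hne : w₁ ≠ w₂ := by
          rintro rfl
          exact hpq (nice_uniq hc a2 b2)
        obtain ⟨r, g, hg | hg⟩ := hDS w₁ a1 w₂ b1 hne p q v a2 b2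
          (S1_mate ‹S1 G c v› hp.symm) (S1_mate ‹S1 G c v› hq.symm) hp.symm hq.symm hW hTw
        · exact ⟨r, fun _ => ⟨w₁, g, ⟨a1, p, a2, hp.symm⟩, hg⟩⟩
        · exact ⟨r, fun _ => ⟨w₂, g, ⟨b1, q, b2, hq.symm⟩, hg⟩⟩
    · exact ⟨v, fun h' => absurd h' h⟩
  choose ρ hρ using key
  exact ⟨ρ, hρ⟩

/-- the tops of the T1 are at most as many as the vertices of `Q2 ∪ B1'` which are not free -/
theorem t1_count {G : SimpleGraph V} (hG : Cub G) {c : V → Bool} (hc : Nice G c) (hR : Rule1 G c)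
    {ρ : V → V} (hρ : RhoOK G c ρ) (hT : HypTT G c) :
    (T1s G c).card ≤ ((Qs G c 2 ∪ B1p G c) \ univ.filter (FreeR G c ρ)).card := by
  have h0 := Finset.card_le_card (cover G c)
  have h1' := Finset.card_union_le (TK G c) (TT G c ∪ (TN G c ∪ TS G c))
  have h1 := Finset.card_union_le (TT G c) (TN G c ∪ TS G c)
  have h2 := Finset.card_union_le (TN G c) (TS G c)
  have k0 := card_TK hG hc hR
  have k1 := card_TN hG hc
  have k2 := card_TS hG hc hR hρ
  have k3 := card_TT hG hc hT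
  -- disjointness
  have hXS : ∀ r ∈ XS G c ρ, ∃ v z g, S1 G c v ∧ Attd G c z v ∧ GenR G c z r g := by
    intro r hr
    obtain ⟨v, hv, hvr⟩ := Finset.mem_image.1 hr
    have hS := (Finset.mem_filter.1 hv).2
    obtain ⟨z, g, h1, hg⟩ := hρ v hS
    rw [hvr] at hg
    exact ⟨v, z, g, hS, h1, hg⟩
  have e1 : Disjoint (XG G c (TT G c)) (XS G c ρ) := by
    rw [Finset.disjoint_left]
    intro r hr hr'
    obtain ⟨z, hz, g, hg⟩ := mem_XG.1 hr
    obtain ⟨v, w, g', hS, ⟨_, w', h1, h2⟩, hg'⟩ := hXS r hr'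
    have e := gen_uniq hG hg hg'
    subst e
    obtain ⟨_, z', h3, h4, _⟩ := Finset.mem_filter.1 hz
    exact S1_mate hS h2 (nice_uniq hc h4 h1 ▸ h3)
  have nXG : Disjoint (XG G c (TT G c)) (XN G c) := by
    rw [Finset.disjoint_left]
    intro r hr
    obtain ⟨z, hz, g, hg⟩ := mem_XG.1 hr
    exact not_XN_gen hG hg
  have nXD : Disjoint (XG G c (TT G c)) (XD G c) := by
    rw [Finset.disjoint_left]
    intro r hr
    obtain ⟨z, hz, g, hg⟩ := mem_XG.1 hr
    exact not_XD_gen hg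
  have nSG : Disjoint (XS G c ρ) (XN G c) := by
    rw [Finset.disjoint_left]
    intro r hr
    obtain ⟨v, z, g, _, _, hg⟩ := hXS r hr
    exact not_XN_gen hG hg
  have nSD : Disjoint (XS G c ρ) (XD G c) := by
    rw [Finset.disjoint_left]
    intro r hr
    obtain ⟨v, z, g, _, _, hg⟩ := hXS r hr
    exact not_XD_gen hg
  have nD : Disjoint (XN G c) (XD G c) := by
    rw [Finset.disjoint_left]
    intro x hx
    exact XN_XD hx
  have nK1 : Disjoint (XK G c) (XN G c) := by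
    rw [Finset.disjoint_left]
    intro x hx hx'
    have hW := (Finset.mem_filter.1 hx).2.1
    rcases (Finset.mem_filter.1 hx').2 with ⟨a1, _⟩ | ⟨_, h, a1, a2, _, a3, _⟩
    · have hb : IsB1 G c x := (Finset.mem_filter.1 a1).2.1
      have hw := hW.1
      rw [hb.1] at hw
      exact absurd hw (by simp)
    · exact a3 (XK_nb hG hx a1 a2)
  have nK2 : Disjoint (XK G c) (XD G c) := by
    rw [Finset.disjoint_left]
    intro x hx hx'
    obtain ⟨_, hW, z, z', k1, k2, k3, k4, k5⟩ := Finset.mem_filter.1 hx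
    exact (Finset.mem_filter.1 hx').2.1 ⟨z, k1, k4, hW⟩
  have nK3 : Disjoint (XK G c) (XG G c (TT G c)) := by
    rw [Finset.disjoint_left]
    intro r hr hr'
    obtain ⟨z, hz, g, hg⟩ := mem_XG.1 hr'
    exact hg.2.2.2.2.2.1 (XK_nb hG hr hg.2.2.2.1 hg.2.2.2.2.1)
  have nK4 : Disjoint (XK G c) (XS G c ρ) := by
    rw [Finset.disjoint_left]
    intro r hr hr'
    obtain ⟨v, z, g, _, _, hg⟩ := hXS r hr'
    exact hg.2.2.2.2.2.1 (XK_nb hG hr hg.2.2.2.1 hg.2.2.2.2.1)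
  have u1 : (XK G c ∪ (XG G c (TT G c) ∪ (XS G c ρ ∪ (XN G c ∪ XD G c)))).card =
      (XK G c).card + ((XG G c (TT G c)).card + ((XS G c ρ).card +
        ((XN G c).card + (XD G c).card))) := by
    rw [Finset.card_union_of_disjoint, Finset.card_union_of_disjoint, Finset.card_union_of_disjoint,
      Finset.card_union_of_disjoint]
    · exact nD
    · exact Finset.disjoint_union_right.2 ⟨nSG, nSD⟩
    · exact Finset.disjoint_union_right.2 ⟨e1, Finset.disjoint_union_right.2 ⟨nXG, nXD⟩⟩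
    · exact Finset.disjoint_union_right.2 ⟨nK3, Finset.disjoint_union_right.2 ⟨nK4,
        Finset.disjoint_union_right.2 ⟨nK1, nK2⟩⟩⟩
  have u2 : XK G c ∪ (XG G c (TT G c) ∪ (XS G c ρ ∪ (XN G c ∪ XD G c))) ⊆
      (Qs G c 2 ∪ B1p G c) \ univ.filter (FreeR G c ρ) := by
    refine Finset.union_subset (XK_notFree hG ρ) ?_
    refine Finset.union_subset (XG_notFree hG ρ) ?_
    refine Finset.union_subset (XS_notFree hG hρ) ?_
    exact Finset.union_subset (XN_notFree hG ρ) (XD_notFree ρ)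
  have u3 := Finset.card_le_card u2
  omega

theorem FreeR_mem {G : SimpleGraph V} (hG : Cub G) {c : V → Bool} {ρ : V → V} {x : V}
    (h : FreeR G c ρ x) : x ∈ Qs G c 2 ∪ B1p G c := by
  rcases h with ⟨h, _⟩ | ⟨h, _⟩ | ⟨z, g, h, _⟩
  · exact Finset.mem_union_right _ h
  · exact Finset.mem_union_left _ h
  · exact Finset.mem_union_left _ (gen_Q2 hG h)

/-- the vertices of `Q0` are at least `3 lev` and the free vertices -/
theorem q0_free {G : SimpleGraph V} (hG : Cub G) {c : V → Bool} (hc : Nice G c) (hR : Rule1 G c)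
    {ρ : V → V} (hρ : RhoOK G c ρ) (hT : HypTT G c) (D : Finset V)
    (hF : ∀ x ∈ D, FreeR G c ρ x) :
    3 * lev c + D.card ≤ (Qs G c 0).card := by
  have h1 := t1_count hG hc hR hρ hT
  have h2 := stmt_IDENT V G hG c hc hR
  have h3 : Disjoint (Qs G c 2) (B1p G c) := by
    rw [Finset.disjoint_left]
    intro x hx hx'
    have hb : IsB1 G c x := (Finset.mem_filter.1 hx').2.1
    have hw := (Finset.mem_filter.1 hx).2.1.1
    rw [hb.1] at hw
    exact absurd hw (by simp)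
  have h4 : D ⊆ (Qs G c 2 ∪ B1p G c) := fun x hx => FreeR_mem hG (hF x hx)
  have h5 : (Qs G c 2 ∪ B1p G c) \ univ.filter (FreeR G c ρ) ⊆ (Qs G c 2 ∪ B1p G c) \ D := by
    intro x hx
    obtain ⟨a, b⟩ := Finset.mem_sdiff.1 hx
    refine Finset.mem_sdiff.2 ⟨a, fun h => b (Finset.mem_filter.2 ⟨Finset.mem_univ _, hF x h⟩)⟩
  have h6 := Finset.card_le_card h5
  have h7 := Finset.card_sdiff_add_card_eq_card h4
  have h8 := Finset.card_union_of_disjoint h3
  omega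

end

end Pool.Agent.Work.MP_1e13ac_W
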