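import Pool.Agent.Work.MP_1e13ac_W.W1Final
import Pool.Agent.Work.MP_1e13ac_W.Count1
import Pool.Agent.Work.MP_1e13ac_W.Count2

/-!
# MP_1e13ac_co, full statement: World 1 is impossible (helper50, counting by helper65)
-/

set_option autoImplicit false

namespace Pool.Agent.Work.MP_1e13ac_W

open Pool.Agent.Work.MP_1e13ac_Bis

/-- there is no colouring as in World 1 -/
theorem world1 {V : Type} [Fintype V] {G : SimpleGraph V} (hG : Cub G) {c : V → Bool}
    (hW : World1 G c) : False :=
  world1_false stmt_IDENT stmt_PAY1 stmt_COUNT2 hG hW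

end Pool.Agent.Work.MP_1e13ac_W
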