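import Pool.Agent.Work.MP_1e13ac_W.Defs

/-!
# MP_1e13ac_co, full statement: zones, blocked sources, leaf predicate of World 1 (helper50)
-/

set_option autoImplicit false

namespace Pool.Agent.Work.MP_1e13ac_W

noncomputable section

def anyL (f : Nat → Bool) (l : List Nat) : Bool :=
  List.rec (motive := fun _ => Bool) false (fun x _ ih => orB (f x) ih) l

/-- `i` is in the closed neighbourhood of `F` -/
def inN (F i : Nat) (l : List Nat) : Bool := orB (tb F i) (anyL (fun j => tb F j) l)

/-- `i` is in the zone of `F` -/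
def inZ (A : PL) (col F i : Nat) (l : List Nat) : Bool :=
  orB (inN F i l) (anyL (fun j => andB (same col i j) (inN F j (glR A j))) l)

/-- black isolated vertex in the zone -/
def b0Z (A : PL) (col F i : Nat) (l : List Nat) : Bool :=
  andB (notB (tb col i)) (andB (Nat.beq (mdl col i l) (nat_lit 0)) (inZ A col F i l))

/-- listed neighbour in `B1` -/
def hasB1 (A : PL) (col : Nat) (l : List Nat) : Bool :=
  anyL (fun j => andB (notB (tb col j)) (Nat.beq (mdl col j (glR A j)) (nat_lit 1))) l

/-- possible blocked source in the pattern -/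
def blkW (A : PL) (col F i : Nat) (l : List Nat) : Bool :=
  andB (tb col i) (andB (Nat.beq (mdl col i l) (nat_lit 1)) (andB (notB (hasB1 A col l))
    (orB (inZ A col F i l) (anyL (fun j => b0Z A col F j (glR A j)) l))))

/-- upper bound for the number of blocked sources -/
def blkR (A : PL) (col F : Nat) : Nat :=
  sumI (fun i l => Nat.add
    (Bool.rec (motive := fun _ => Nat) (nat_lit 0) (nat_lit 1) (blkW A col F i l))
    (Bool.rec (motive := fun _ => Nat) (nat_lit 0) (Nat.sub (nat_lit 3) (lenN l))
      (b0Z A col F i l))) A (nat_lit 0)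

/-- two listed adjacent white neighbours -/
def t1B (A : PL) (c : Nat) (l : List Nat) : Bool :=
  anyL (fun p => andB (tb c p) (anyL (fun q => andB (tb c q) (memR q l)) (glR A p))) l

/-- upper bound for the number of tops of T1 in the neighbourhood of `F`, colouring `c` -/
def t1aR (A : PL) (c F : Nat) : Nat :=
  sumI (fun i l => Bool.rec (motive := fun _ => Nat) (nat_lit 0) (nat_lit 1)
    (andB (inN F i l) (andB (notB (tb c i)) (andB (Nat.beq (mdl c i l) (nat_lit 1))
      (orB (Nat.ble (lenN l) (nat_lit 2)) (t1B A c l)))))) A (nat_lit 0)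

/-- lower bound for the number of tops of T1 in the neighbourhood of `F`, colouring `c` -/
def t1bR (A : PL) (c F : Nat) : Nat :=
  sumI (fun i l => Bool.rec (motive := fun _ => Nat) (nat_lit 0) (nat_lit 1)
    (andB (inN F i l) (andB (notB (tb c i)) (andB (Nat.beq (mdl c i l) (nat_lit 1))
      (t1B A c l))))) A (nat_lit 0)

/-- `|n + 1 - s|` -/
def absD (n s : Nat) : Nat := Nat.add (Nat.sub (Nat.succ n) s) (Nat.sub s (Nat.succ n))

/-- violation of the minimality in World 1 -/
def violR (A : PL) (col F : Nat) : Bool :=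
  Nat.ble (Nat.add (smR A (Nat.xor col F)) (Nat.add (Nat.mul (nat_lit 2)
      (absD (lenL A) (sjR A col F)))
      (Bool.rec (motive := fun _ => Nat) (nat_lit 1) (nat_lit 0)
        (Nat.ble (nat_lit 2) (absD (lenL A) (sjR A col F))))))
    (Nat.add (smR A col) (nat_lit 2))

/-- solution in World 1 -/
def solR (A : PL) (col F : Nat) : Bool :=
  andB (Nat.beq (sjR A col F) (Nat.succ (lenL A)))
    (andB (Nat.beq (spR A (Nat.xor col F)) (lenL A))
      (andB (Nat.beq (sqR A (Nat.xor col F)) (lenL A)) (validR A (Nat.xor col F))))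

/-- a helper `(0, -1, 0)` with at most five blocked sources -/
def h3R (A : PL) (col F : Nat) : Bool :=
  andB (Nat.beq (sjR A col F) (lenL A))
    (andB (Nat.beq (spR A (Nat.xor col F)) (Nat.succ (lenL A)))
      (andB (Nat.beq (sqR A (Nat.xor col F)) (lenL A)) (andB (validR A (Nat.xor col F))
        (Nat.ble (blkR A col F) (nat_lit 5)))))

/-- a neutral move which decreases the number of tops of T1 -/
def phiR (A : PL) (col F : Nat) : Bool :=
  andB (Nat.beq (sjR A col F) (lenL A))
    (andB (Nat.ble (smR A (Nat.xor col F)) (smR A col))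
      (Nat.ble (Nat.succ (t1aR A (Nat.xor col F) F)) (t1bR A col F)))

/-- leaf predicate of World 1: `act = kind + 4 F` -/
def lf1 (h3 : Bool) (A : PL) (col _non act : Nat) : Bool :=
  andB (cmpR A (Nat.div act (nat_lit 4)))
    (Nat.rec (motive := fun _ => Bool) (violR A col (Nat.div act (nat_lit 4)))
      (fun k _ => Nat.rec (motive := fun _ => Bool) (solR A col (Nat.div act (nat_lit 4)))
        (fun k _ => Nat.rec (motive := fun _ => Bool)
          (andB h3 (h3R A col (Nat.div act (nat_lit 4))))
          (fun _ _ => phiR A col (Nat.div act (nat_lit 4))) k) k)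
      (Nat.mod act (nat_lit 4)))

end

end Pool.Agent.Work.MP_1e13ac_W
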