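import Pool.Agent.Work.MP_1e13ac_W.Eval
import Pool.Agent.Work.MP_1e13ac_W.ZDefs
import Pool.Agent.Work.MP_1e13ac_W.W1Defs

/-!
# MP_1e13ac_co, full statement: zones and blocked sources, soundness (helper50)
-/

set_option autoImplicit false
set_option linter.unusedSectionVars false

namespace Pool.Agent.Work.MP_1e13ac_W

open Classical Finset Pool.Agent.Work.MP_1e13ac_Bis

noncomputable section

variable {V : Type} [Fintype V] {G : SimpleGraph V} {c : V → Bool}

theorem anyL_iff (f : ℕ → Bool) (l : List ℕ) : anyL f l = true ↔ ∃ x ∈ l, f x = true := by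
  induction l with
  | nil =>
    constructor
    · intro h
      exact absurd h (by simp [anyL])
    · rintro ⟨x, hx, -⟩
      simp at hx
  | cons y t ih =>
    have e : anyL f (y :: t) = orB (f y) (anyL f t) := rfl
    rw [e, orB_iff, ih]
    simp

theorem forallN_congr {n : ℕ} {f g : ℕ → ℕ} (h : ∀ i < n, f i = g i) :
    ∑ i ∈ range n, f i = ∑ i ∈ range n, g i :=
  Finset.sum_congr rfl fun i hi => h i (by simpa using hi)

section Main

variable {A : PL} {col non F : ℕ} {e : ℕ → V}

theorem Emb.inN_iff (hG : Cub G) (h : Emb G c A col non e) (hF : cmpR A F = true) {i : ℕ}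
    (hi : i < A.length) : e i ∈ NF G (FS A F e) ↔ inN F i (glR A i) = true := by
  have hF' := (cmpR_iff A F).1 hF
  unfold inN
  rw [orB_iff, anyL_iff, mem_NF, e_mem_FS h.inj hi]
  refine or_congr Iff.rfl ?_
  constructor
  · rintro ⟨f, hf, hfi⟩
    obtain ⟨j, hj, h2, rfl⟩ := mem_FS.1 hf
    obtain ⟨k, hk, h3⟩ := h.compl hG hj (by rw [hF' j hj h2]) hfi
    have := h.inj k (h.adj j hj k hk).1 i hi h3
    subst this
    exact ⟨j, (h.adj j hj k hk).2.2, h2⟩
  · rintro ⟨j, hj, h2⟩
    have h3 := h.adj i hi j hj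
    exact ⟨e j, (e_mem_FS h.inj h3.1).2 h2, h3.2.1.symm⟩

theorem Emb.inZ_iff (hG : Cub G) (h : Emb G c A col non e) (hF : cmpR A F = true) {i : ℕ}
    (hi : i < A.length) : e i ∈ Zn G c (FS A F e) ↔ inZ A col F i (glR A i) = true := by
  unfold inZ
  rw [orB_iff, anyL_iff, mem_Zn, h.inN_iff hG hF hi]
  refine or_congr Iff.rfl ?_
  constructor
  · rintro ⟨y, hy, hyi⟩
    obtain ⟨j, hj, rfl⟩ := h.mono i hi y (ma_symm hyi)
    have h3 := h.adj i hi j hj
    refine ⟨j, hj, (andB_iff _ _).2 ⟨?_, (h.inN_iff hG hF h3.1).1 hy⟩⟩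
    rw [same_iff, ← h.colr i hi, ← h.colr j h3.1]
    exact hyi.2.symm
  · rintro ⟨j, hj, h2⟩
    rw [andB_iff] at h2
    have h3 := h.adj i hi j hj
    refine ⟨e j, (h.inN_iff hG hF h3.1).2 h2.2, h3.2.1.symm, ?_⟩
    rw [h.colr i hi, h.colr j h3.1]
    exact ((same_iff _ _ _).1 h2.1).symm

theorem mem_Qs {i : ℕ} {x : V} : x ∈ Qs G c i ↔ IsW1 G c x ∧ nB1 G c x = i := by
  simp [Qs]

/-- black neighbours of a vertex of `Q0` are in `B0` -/
theorem Q0_nb (hc : Nice G c) {x y : V} (hx : x ∈ Qs G c 0) (hxy : G.Adj x y)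
    (hy : c y = false) : IsB0 G c y := by
  refine ⟨hy, ?_⟩
  have h1 := (mem_Qs.1 hx).2
  have h2 := hc y
  by_contra h3
  have h4 : md G c y = 1 := by omega
  unfold nB1 at h1
  rw [Finset.card_eq_zero] at h1
  have : y ∈ (nbs G x).filter fun y => IsB1 G c y :=
    Finset.mem_filter.2 ⟨Finset.mem_filter.2 ⟨Finset.mem_univ _, hxy⟩, hy, h4⟩
  rw [h1] at this
  simp at this

theorem md0_no {x y : V} (h : md G c x = 0) : ¬ MA G c x y := by
  intro hxy
  unfold md at h
  rw [Finset.card_eq_zero] at h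
  have : y ∈ univ.filter fun y => MA G c x y := Finset.mem_filter.2 ⟨Finset.mem_univ _, hxy⟩
  rw [h] at this
  simp at this

theorem md_pos {x y : V} (h : MA G c x y) : 1 ≤ md G c x := by
  by_contra hh
  exact md0_no (by omega) h

theorem md1_of (hc : Nice G c) {x y : V} (h : MA G c x y) : md G c x = 1 :=
  le_antisymm (hc x) (md_pos h)

/-- the zone of a source -/
theorem Q0_zone (hc : Nice G c) {x y : V} (hx : x ∈ Qs G c 0) (hy : y ∈ Zn G c {x}) :
    y = x ∨ MA G c x y ∨ (G.Adj x y ∧ IsB0 G c y) := by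
  have hw := (mem_Qs.1 hx).1
  have hN : ∀ z, z ∈ NF G {x} → z = x ∨ MA G c x z ∨ (G.Adj x z ∧ IsB0 G c z) := by
    intro z hz
    rcases mem_NF.1 hz with h1 | ⟨f, hf, h1⟩
    · exact Or.inl (by simpa using h1)
    · have hfx : f = x := by simpa using hf
      subst hfx
      by_cases h2 : c z = true
      · exact Or.inr (Or.inl ⟨h1, by rw [hw.1, h2]⟩)
      · have h3 : c z = false := by simpa using h2
        exact Or.inr (Or.inr ⟨h1, Q0_nb hc hx h1 h3⟩)
  rcases mem_Zn.1 hy with h1 | ⟨z, hz, h1⟩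
  · exact hN y h1
  · rcases hN z hz with rfl | h2 | ⟨-, h2⟩
    · exact Or.inr (Or.inl h1)
    · exact Or.inl (nice_uniq hc h1 (ma_symm h2))
    · exact absurd h1 (md0_no h2.2)

theorem Emb.blk (hG : Cub G) (hc : Nice G c) (h : Emb G c A col non e) (hF : cmpR A F = true) :
    ((Qs G c 0).filter fun x => ¬ Disjoint (Zn G c (FS A F e)) (Zn G c {x})).card ≤
      blkR A col F := by
  set I := (range A.length).filter fun i => blkW A col F i (glR A i) = true with hI
  set J := (range A.length).filter fun i => b0Z A col F i (glR A i) = true with hJ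
  have hb0 : ∀ j < A.length, b0Z A col F j (glR A j) = true ↔
      IsB0 G c (e j) ∧ e j ∈ Zn G c (FS A F e) := by
    intro j hj
    unfold b0Z IsB0
    rw [andB_iff, andB_iff, notB_iff, beqN_iff, ← h.inZ_iff hG hF hj, h.colr j hj,
      h.loc.md_eq hj, and_assoc]
  have hnoB1 : ∀ i < A.length, e i ∈ Qs G c 0 → hasB1 A col (glR A i) = false := by
    intro i hi hq
    by_contra hh
    have hh' : hasB1 A col (glR A i) = true := by simpa using hh
    unfold hasB1 at hh'
    rw [anyL_iff] at hh'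
    obtain ⟨j, hj, h1⟩ := hh'
    rw [andB_iff, notB_iff, beqN_iff] at h1
    have h3 := h.adj i hi j hj
    have h4 := Q0_nb hc hq h3.2.1 (by rw [h.colr j h3.1, h1.1])
    have h5 := h.loc.md_eq h3.1
    rw [h4.2, h1.2] at h5
    have h6 : (0 : ℕ) = 1 := h5
    omega
  have hsub : ((Qs G c 0).filter fun x => ¬ Disjoint (Zn G c (FS A F e)) (Zn G c {x})) ⊆
      I.image e ∪ J.biUnion fun j => (nbs G (e j)) \ (glR A j).toFinset.image e := by
    intro x hx
    rw [Finset.mem_filter] at hx
    obtain ⟨hq, hd⟩ := hx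
    have hw := (mem_Qs.1 hq).1
    rw [Finset.not_disjoint_iff] at hd
    obtain ⟨y, hy1, hy2⟩ := hd
    rw [Finset.mem_union, Finset.mem_biUnion]
    have caseA : x ∈ Zn G c (FS A F e) → x ∈ I.image e := by
      intro hxZ
      have : ¬ ∀ i < A.length, e i ≠ x := fun hh => h.outZ hG hF hh hxZ
      push Not at this
      obtain ⟨i, hi, rfl⟩ := this
      refine Finset.mem_image.2 ⟨i, ?_, rfl⟩
      rw [hI, Finset.mem_filter, Finset.mem_range]
      refine ⟨hi, ?_⟩
      unfold blkW
      rw [andB_iff, andB_iff, andB_iff, beqN_iff, notB_iff, orB_iff]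
      refine ⟨by rw [← h.colr i hi]; exact hw.1, by rw [← h.loc.md_eq hi]; exact hw.2,
        hnoB1 i hi hq, Or.inl ((h.inZ_iff hG hF hi).1 hxZ)⟩
    rcases Q0_zone hc hq hy2 with rfl | h2 | ⟨h2, h3⟩
    · exact Or.inl (caseA hy1)
    · exact Or.inl (caseA (Zn_mate hc hy1 (ma_symm h2)))
    · have : ¬ ∀ i < A.length, e i ≠ y := fun hh => h.outZ hG hF hh hy1
      push Not at this
      obtain ⟨j, hj, rfl⟩ := this
      have hjb := (hb0 j hj).2 ⟨h3, hy1⟩
      by_cases hx2 : ∃ i ∈ glR A j, e i = x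
      · obtain ⟨i, hi, rfl⟩ := hx2
        have h4 := h.adj j hj i hi
        refine Or.inl (Finset.mem_image.2 ⟨i, ?_, rfl⟩)
        rw [hI, Finset.mem_filter, Finset.mem_range]
        refine ⟨h4.1, ?_⟩
        unfold blkW
        rw [andB_iff, andB_iff, andB_iff, beqN_iff, notB_iff, orB_iff]
        refine ⟨by rw [← h.colr i h4.1]; exact hw.1, by rw [← h.loc.md_eq h4.1]; exact hw.2,
          hnoB1 i h4.1 hq, Or.inr ((anyL_iff _ _).2 ⟨j, h4.2.2, hjb⟩)⟩
      · refine Or.inr ⟨j, ?_, ?_⟩
        · rw [hJ, Finset.mem_filter, Finset.mem_range]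
          exact ⟨hj, hjb⟩
        · rw [Finset.mem_sdiff]
          refine ⟨Finset.mem_filter.2 ⟨Finset.mem_univ _, h2.symm⟩, ?_⟩
          intro hh
          obtain ⟨i, hi, h5⟩ := Finset.mem_image.1 hh
          exact hx2 ⟨i, List.mem_toFinset.1 hi, h5⟩
  refine (Finset.card_le_card hsub).trans ((Finset.card_union_le _ _).trans ?_)
  have h1 : (I.image e).card ≤ I.card := Finset.card_image_le
  have h2 : (J.biUnion fun j => (nbs G (e j)) \ (glR A j).toFinset.image e).card ≤
      ∑ j ∈ J, (3 - (glR A j).length) := by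
    refine Finset.card_biUnion_le.trans (Finset.sum_le_sum fun j hj => ?_)
    rw [hJ, Finset.mem_filter, Finset.mem_range] at hj
    have h3 : (glR A j).toFinset.image e ⊆ nbs G (e j) := by
      intro x hx
      obtain ⟨i, hi, rfl⟩ := Finset.mem_image.1 hx
      exact Finset.mem_filter.2 ⟨Finset.mem_univ _, (h.adj j hj.1 i (List.mem_toFinset.1 hi)).2.1⟩
    rw [Finset.card_sdiff_of_subset h3]
    have h4 : ((glR A j).toFinset.image e).card = (glR A j).length := by
      rw [Finset.card_image_of_injOn, List.toFinset_card_of_nodup (h.nodup j hj.1)]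
      intro a ha b hb hab
      have ha' : a ∈ glR A j := List.mem_toFinset.1 (by simpa using ha)
      have hb' : b ∈ glR A j := List.mem_toFinset.1 (by simpa using hb)
      exact h.inj a (h.adj j hj.1 a ha').1 b (h.adj j hj.1 b hb').1 hab
    rw [h4, hG (e j)]
  have h3 : blkR A col F = I.card + ∑ j ∈ J, (3 - (glR A j).length) := by
    have e1 : blkR A col F = ∑ i ∈ range A.length,
        ((Bool.rec (motive := fun _ => ℕ) 0 1 (blkW A col F i (glR A i)) : ℕ) +
        (Bool.rec (motive := fun _ => ℕ) 0 (3 - lenN (glR A i))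
          (b0Z A col F i (glR A i)) : ℕ)) := by
      unfold blkR
      exact sumI0_eq _ _
    rw [e1, Finset.sum_add_distrib, hI, hJ, Finset.card_filter, Finset.sum_filter]
    congr 1
    · refine forallN_congr fun i _ => ?_
      cases blkW A col F i (glR A i) <;> simp
    · refine forallN_congr fun i _ => ?_
      rw [lenN_eq]
      cases b0Z A col F i (glR A i) <;> simp
  omega

/-! ## Tops of T1 -/

theorem t1B_of {A : PL} {c2 : ℕ} {e : ℕ → V} {c' : V → Bool} (h : Loc G c' A c2 e) {i : ℕ}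
    (hi : i < A.length) (ht : t1B A c2 (glR A i) = true) :
    ∃ p q, G.Adj (e i) p ∧ G.Adj (e i) q ∧ MA G c' p q ∧ c' p = true := by
  unfold t1B at ht
  rw [anyL_iff] at ht
  obtain ⟨p, hp, h1⟩ := ht
  rw [andB_iff, anyL_iff] at h1
  obtain ⟨h1, q, hq, h2⟩ := h1
  rw [andB_iff, memR_iff] at h2
  have hp' := h.adj i hi p hp
  have hq' := h.adj p hp'.1 q hq
  refine ⟨e p, e q, hp'.2.1, (h.adj i hi q h2.2).2.1, ⟨hq'.2.1, ?_⟩, ?_⟩
  · rw [h.colr p hp'.1, h.colr q hq'.1, h1, h2.1]
  · rw [h.colr p hp'.1, h1]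

theorem of_t1B {A : PL} {c2 : ℕ} {e : ℕ → V} {c' : V → Bool} (h : Loc G c' A c2 e) {i : ℕ}
    (hi : i < A.length) (hcomp : ∀ y, G.Adj (e i) y → ∃ j ∈ glR A i, e j = y)
    {p q : V} (hp : G.Adj (e i) p) (hq : G.Adj (e i) q) (hpq : MA G c' p q) (hcp : c' p = true) :
    t1B A c2 (glR A i) = true := by
  obtain ⟨p', hp', rfl⟩ := hcomp p hp
  obtain ⟨q', hq', rfl⟩ := hcomp q hq
  have h1 := h.adj i hi p' hp'
  have h2 := h.adj i hi q' hq'
  obtain ⟨q'', hq'', h3⟩ := h.mono p' h1.1 _ hpq
  have h4 := h.inj q'' (h.adj p' h1.1 q'' hq'').1 q' h2.1 h3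
  subst h4
  unfold t1B
  rw [anyL_iff]
  refine ⟨p', hp', ?_⟩
  rw [andB_iff, anyL_iff]
  refine ⟨by rw [← h.colr p' h1.1]; exact hcp, q'', hq'', ?_⟩
  rw [andB_iff, memR_iff]
  refine ⟨?_, hq'⟩
  rw [← h.colr q'' h2.1, ← hpq.2]
  exact hcp

theorem mem_T1s {x : V} : x ∈ T1s G c ↔ IsB1 G c x ∧
    ∃ p q, G.Adj x p ∧ G.Adj x q ∧ MA G c p q ∧ c p = true := by
  simp [T1s]

theorem T1_out {F : Finset V} {x : V} (hx : x ∉ NF G F) :
    x ∈ T1s G (flp F c) ↔ x ∈ T1s G c := by
  have h0 : flp F c x = c x := flp_out fun h => hx (mem_NF.2 (Or.inl h))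
  have h1 : ∀ y, G.Adj x y → flp F c y = c y := by
    intro y hy
    exact flp_out fun h => hx (mem_NF.2 (Or.inr ⟨y, h, hy.symm⟩))
  rw [mem_T1s, mem_T1s]
  unfold IsB1
  rw [h0, md_out hx]
  refine and_congr Iff.rfl ?_
  constructor
  · rintro ⟨p, q, h2, h3, h4, h5⟩
    rw [h1 p h2] at h5
    refine ⟨p, q, h2, h3, ⟨h4.1, ?_⟩, h5⟩
    have := h4.2
    rw [h1 p h2, h1 q h3] at this
    exact this
  · rintro ⟨p, q, h2, h3, h4, h5⟩
    refine ⟨p, q, h2, h3, ⟨h4.1, ?_⟩, by rw [h1 p h2]; exact h5⟩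
    rw [h1 p h2, h1 q h3]
    exact h4.2

theorem Emb.t1 (hG : Cub G) (h : Emb G c A col non e) (hF : cmpR A F = true) :
    (T1s G (flp (FS A F e) c)).card + t1bR A col F ≤
      (T1s G c).card + t1aR A (Nat.xor col F) F := by
  set N := NF G (FS A F e) with hN
  have split : ∀ S : Finset V, S.card = (S.filter fun x => x ∈ N).card +
      (S.filter fun x => x ∉ N).card := fun S =>
    (Finset.card_filter_add_card_filter_not (s := S) (fun x => x ∈ N)).symm
  have hout : ((T1s G (flp (FS A F e) c)).filter fun x => x ∉ N) =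
      (T1s G c).filter fun x => x ∉ N := by
    ext x
    rw [Finset.mem_filter, Finset.mem_filter]
    constructor
    · rintro ⟨h1, h2⟩
      exact ⟨(T1_out h2).1 h1, h2⟩
    · rintro ⟨h1, h2⟩
      exact ⟨(T1_out h2).2 h1, h2⟩
  have hL := h.locF hG hF
  have ha : ((T1s G (flp (FS A F e) c)).filter fun x => x ∈ N).card ≤
      t1aR A (Nat.xor col F) F := by
    have e1 : t1aR A (Nat.xor col F) F = ∑ i ∈ range A.length,
        (Bool.rec (motive := fun _ => ℕ) 0 1 (andB (inN F i (glR A i))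
          (andB (notB (tb (Nat.xor col F) i)) (andB (Nat.beq (mdl (Nat.xor col F) i (glR A i)) 1)
            (orB (Nat.ble (lenN (glR A i)) 2) (t1B A (Nat.xor col F) (glR A i)))))) : ℕ) := by
      unfold t1aR
      exact sumI0_eq _ _
    have e2 : t1aR A (Nat.xor col F) F = ((range A.length).filter fun i =>
        andB (inN F i (glR A i))
          (andB (notB (tb (Nat.xor col F) i)) (andB (Nat.beq (mdl (Nat.xor col F) i (glR A i)) 1)
            (orB (Nat.ble (lenN (glR A i)) 2) (t1B A (Nat.xor col F) (glR A i))))) = true).card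
        := by
      rw [e1, Finset.card_filter]
      refine forallN_congr fun i _ => ?_
      cases (andB (inN F i (glR A i))
          (andB (notB (tb (Nat.xor col F) i)) (andB (Nat.beq (mdl (Nat.xor col F) i (glR A i)) 1)
            (orB (Nat.ble (lenN (glR A i)) 2) (t1B A (Nat.xor col F) (glR A i)))))) <;> simp
    rw [e2]
    refine (Finset.card_le_card ?_).trans (Finset.card_image_le (f := e))
    intro x hx
    rw [Finset.mem_filter] at hx
    obtain ⟨h1, h2⟩ := hx
    have : ¬ ∀ i < A.length, e i ≠ x := fun hh => h.out hG hF hh h2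
    push Not at this
    obtain ⟨i, hi, rfl⟩ := this
    rw [mem_T1s] at h1
    refine Finset.mem_image.2 ⟨i, ?_, rfl⟩
    rw [Finset.mem_filter, Finset.mem_range, andB_iff, andB_iff, andB_iff, notB_iff, beqN_iff,
      orB_iff, bleN_iff, lenN_eq]
    refine ⟨hi, (h.inN_iff hG hF hi).1 h2, ?_, ?_, ?_⟩
    · rw [← hL.colr i hi]
      exact h1.1.1
    · rw [← hL.md_eq hi]
      exact h1.1.2
    · by_cases hlen : (glR A i).length ≤ 2
      · exact Or.inl hlen
      · obtain ⟨p, q, h3, h4, h5, h6⟩ := h1.2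
        exact Or.inr (of_t1B hL hi (fun y hy => h.compl hG hi (by omega) hy) h3 h4 h5 h6)
  have hb : t1bR A col F ≤ ((T1s G c).filter fun x => x ∈ N).card := by
    have e1 : t1bR A col F = ∑ i ∈ range A.length,
        (Bool.rec (motive := fun _ => ℕ) 0 1 (andB (inN F i (glR A i))
          (andB (notB (tb col i)) (andB (Nat.beq (mdl col i (glR A i)) 1)
            (t1B A col (glR A i))))) : ℕ) := by
      unfold t1bR
      exact sumI0_eq _ _
    have e2 : t1bR A col F = ((range A.length).filter fun i =>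
        andB (inN F i (glR A i))
          (andB (notB (tb col i)) (andB (Nat.beq (mdl col i (glR A i)) 1)
            (t1B A col (glR A i)))) = true).card := by
      rw [e1, Finset.card_filter]
      refine forallN_congr fun i _ => ?_
      cases (andB (inN F i (glR A i))
          (andB (notB (tb col i)) (andB (Nat.beq (mdl col i (glR A i)) 1)
            (t1B A col (glR A i))))) <;> simp
    rw [e2]
    have e3 : (((range A.length).filter fun i =>
        andB (inN F i (glR A i))
          (andB (notB (tb col i)) (andB (Nat.beq (mdl col i (glR A i)) 1)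
            (t1B A col (glR A i)))) = true).image e).card = ((range A.length).filter fun i =>
        andB (inN F i (glR A i))
          (andB (notB (tb col i)) (andB (Nat.beq (mdl col i (glR A i)) 1)
            (t1B A col (glR A i)))) = true).card := by
      refine Finset.card_image_of_injOn ?_
      intro a ha' b hb' hab
      have h1 : a < A.length := by
        have := Finset.mem_coe.1 ha'
        rw [Finset.mem_filter, Finset.mem_range] at this
        exact this.1
      have h2 : b < A.length := by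
        have := Finset.mem_coe.1 hb'
        rw [Finset.mem_filter, Finset.mem_range] at this
        exact this.1
      exact h.inj a h1 b h2 hab
    rw [← e3]
    refine Finset.card_le_card ?_
    intro x hx
    obtain ⟨i, hi', rfl⟩ := Finset.mem_image.1 hx
    rw [Finset.mem_filter, Finset.mem_range, andB_iff, andB_iff, andB_iff, notB_iff,
      beqN_iff] at hi'
    obtain ⟨hi, h1, h2, h3, h4⟩ := hi'
    rw [Finset.mem_filter, mem_T1s]
    refine ⟨⟨⟨by rw [h.colr i hi]; exact h2, by rw [h.loc.md_eq hi]; exact h3⟩,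
      t1B_of h.loc hi h4⟩, (h.inN_iff hG hF hi).2 h1⟩
  rw [split (T1s G (flp (FS A F e) c)), split (T1s G c), hout]
  omega

end Main

end

end Pool.Agent.Work.MP_1e13ac_W
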